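import Pool.Agent.Lib.MP_a3e05c_co.RTK.D11

/-!
# EULER: regular tournaments with 11 vertices, levels 0 to 10
-/

set_option maxRecDepth 100000

namespace MP_a3e05c_co.RTK

theorem k11_0 : chk 5 t11_1 t11_0 [] = true := by decide +kernel

theorem s11_0 : srt t11_1 0 = true := by decide +kernel

theorem k11_1 : chk 5 t11_2 t11_1 [] = true := by decide +kernel

theorem s11_1 : srt t11_2 0 = true := by decide +kernel

theorem k11_2 : chk 5 t11_3 t11_2 [] = true := by decide +kernel

theorem s11_2 : srt t11_3 0 = true := by decide +kernel

theorem k11_3 : chk 5 t11_4 t11_3 [] = true := by decide +kernel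

theorem s11_3 : srt t11_4 0 = true := by decide +kernel

theorem k11_4 : chk 5 t11_5 t11_4 [] = true := by decide +kernel

theorem s11_4 : srt t11_5 0 = true := by decide +kernel

theorem k11_5 : chk 5 t11_6 t11_5 [] = true := by decide +kernel

theorem s11_5 : srt t11_6 0 = true := by decide +kernel

theorem k11_6 : chk 5 t11_7 t11_6 [] = true := by decide +kernel

theorem s11_6 : srt t11_7 0 = true := by decide +kernel

theorem k11_7 : chk 5 t11_8 t11_7 [] = true := by decide +kernel

theorem s11_7 : srt t11_8 0 = true := by decide +kernel

theorem k11_8 : chk 5 t11_9 t11_8 [] = true := by decide +kernel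

theorem s11_8 : srt t11_9 0 = true := by decide +kernel

theorem k11_9 : chk 5 t11_10 t11_9 [] = true := by decide +kernel

theorem s11_9 : srt t11_10 0 = true := by decide +kernel

theorem k11_10 : chk 5 t11_11 t11_10 [] = true := by decide +kernel

theorem s11_10 : srt t11_11 0 = true := by decide +kernel

end MP_a3e05c_co.RTK
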