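import Pool.Agent.Lib.MP_a3e05c_co.RTK.Link
import Pool.Agent.Lib.MP_a3e05c_co.RTK.C11a

/-!
# EULER: regular tournaments with 11 vertices
-/

namespace MP_a3e05c_co.RTK

theorem low11 : 48251508480 ≤ RT.RTn 11 := by
  have h11 : OK 5 t11_11 0 0 := OK_last 5
  have h10 := chk_step 5 _ _ h11 s11_10 k11_10
  have h9 := chk_step 5 _ _ h10 s11_9 k11_9
  have h8 := chk_step 5 _ _ h9 s11_8 k11_8
  have h7 := chk_step 5 _ _ h8 s11_7 k11_7
  have h6 := chk_step 5 _ _ h7 s11_6 k11_6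
  have h5 := chk_step 5 _ _ h6 s11_5 k11_5
  have h4 := chk_step 5 _ _ h5 s11_4 k11_4
  have h3 := chk_step 5 _ _ h4 s11_3 k11_3
  have h2 := chk_step 5 _ _ h3 s11_2 k11_2
  have h1 := chk_step 5 _ _ h2 s11_1 k11_1
  have h0 := chk_step 5 _ _ h1 s11_0 k11_0
  exact (OK_first 5 48251508480 11 h0).trans (TS_le_RTn 5)

end MP_a3e05c_co.RTK
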