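import Pool.Agent.Lib.MP_a3e05c_co.RTK.D13

/-!
# EULER: regular tournaments with 13 vertices, levels 0 to 12
-/

set_option maxRecDepth 100000

namespace MP_a3e05c_co.RTK

theorem k13_0 : chk 6 t13_1 t13_0 [] = true := by decide +kernel

theorem s13_0 : srt t13_1 0 = true := by decide +kernel

theorem k13_1 : chk 6 t13_2 t13_1 [] = true := by decide +kernel

theorem s13_1 : srt t13_2 0 = true := by decide +kernel

theorem k13_2 : chk 6 t13_3 t13_2 [] = true := by decide +kernel

theorem s13_2 : srt t13_3 0 = true := by decide +kernel

theorem k13_3 : chk 6 t13_4 t13_3 [] = true := by decide +kernel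

theorem s13_3 : srt t13_4 0 = true := by decide +kernel

theorem k13_4 : chk 6 t13_5 t13_4 [] = true := by decide +kernel

theorem s13_4 : srt t13_5 0 = true := by decide +kernel

theorem k13_5 : chk 6 t13_6 t13_5 [] = true := by decide +kernel

theorem s13_5 : srt t13_6 0 = true := by decide +kernel

theorem k13_6 : chk 6 t13_7 t13_6 [] = true := by decide +kernel

theorem s13_6 : srt t13_7 0 = true := by decide +kernel

theorem k13_7 : chk 6 t13_8 t13_7 [] = true := by decide +kernel

theorem s13_7 : srt t13_8 0 = true := by decide +kernel

theorem k13_8 : chk 6 t13_9 t13_8 [] = true := by decide +kernel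

theorem s13_8 : srt t13_9 0 = true := by decide +kernel

theorem k13_9 : chk 6 t13_10 t13_9 [] = true := by decide +kernel

theorem s13_9 : srt t13_10 0 = true := by decide +kernel

theorem k13_10 : chk 6 t13_11 t13_10 [] = true := by decide +kernel

theorem s13_10 : srt t13_11 0 = true := by decide +kernel

theorem k13_11 : chk 6 t13_12 t13_11 [] = true := by decide +kernel

theorem s13_11 : srt t13_12 0 = true := by decide +kernel

theorem k13_12 : chk 6 t13_13 t13_12 [] = true := by decide +kernel

theorem s13_12 : srt t13_13 0 = true := by decide +kernel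

end MP_a3e05c_co.RTK
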