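import Pool.Agent.Lib.MP_a3e05c_co.RTK.Link
import Pool.Agent.Lib.MP_a3e05c_co.RTK.C13a

/-!
# EULER: regular tournaments with 13 vertices
-/

namespace MP_a3e05c_co.RTK

theorem low13 : 9307700611292160 ≤ RT.RTn 13 := by
  have h13 : OK 6 t13_13 0 0 := OK_last 6
  have h12 := chk_step 6 _ _ h13 s13_12 k13_12
  have h11 := chk_step 6 _ _ h12 s13_11 k13_11
  have h10 := chk_step 6 _ _ h11 s13_10 k13_10
  have h9 := chk_step 6 _ _ h10 s13_9 k13_9
  have h8 := chk_step 6 _ _ h9 s13_8 k13_8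
  have h7 := chk_step 6 _ _ h8 s13_7 k13_7
  have h6 := chk_step 6 _ _ h7 s13_6 k13_6
  have h5 := chk_step 6 _ _ h6 s13_5 k13_5
  have h4 := chk_step 6 _ _ h5 s13_4 k13_4
  have h3 := chk_step 6 _ _ h4 s13_3 k13_3
  have h2 := chk_step 6 _ _ h3 s13_2 k13_2
  have h1 := chk_step 6 _ _ h2 s13_1 k13_1
  have h0 := chk_step 6 _ _ h1 s13_0 k13_0
  exact (OK_first 6 9307700611292160 13 h0).trans (TS_le_RTn 6)

end MP_a3e05c_co.RTK
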