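import Pool.Agent.Lib.MP_a3e05c_co.RTK.D15

/-!
# EULER: regular tournaments with 15 vertices, levels 0 to 14
-/

set_option maxRecDepth 100000

namespace MP_a3e05c_co.RTK

theorem k15_0 : chk 7 t15_1 t15_0 [] = true := by decide +kernel

theorem s15_0 : srt t15_1 0 = true := by decide +kernel

theorem k15_1 : chk 7 t15_2 t15_1 [] = true := by decide +kernel

theorem s15_1 : srt t15_2 0 = true := by decide +kernel

theorem k15_2 : chk 7 t15_3 t15_2 [] = true := by decide +kernel

theorem s15_2 : srt t15_3 0 = true := by decide +kernel

theorem k15_3 : chk 7 t15_4 t15_3 [] = true := by decide +kernel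

theorem s15_3 : srt t15_4 0 = true := by decide +kernel

theorem k15_4 : chk 7 t15_5 t15_4 [] = true := by decide +kernel

theorem s15_4 : srt t15_5 0 = true := by decide +kernel

theorem k15_5 : chk 7 t15_6 t15_5 [] = true := by decide +kernel

theorem s15_5 : srt t15_6 0 = true := by decide +kernel

theorem k15_6 : chk 7 t15_7 t15_6 [] = true := by decide +kernel

theorem s15_6 : srt t15_7 0 = true := by decide +kernel

theorem k15_7 : chk 7 t15_8 t15_7 [] = true := by decide +kernel

theorem s15_7 : srt t15_8 0 = true := by decide +kernel

theorem k15_8 : chk 7 t15_9 t15_8 [] = true := by decide +kernel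

theorem s15_8 : srt t15_9 0 = true := by decide +kernel

theorem k15_9 : chk 7 t15_10 t15_9 [] = true := by decide +kernel

theorem s15_9 : srt t15_10 0 = true := by decide +kernel

theorem k15_10 : chk 7 t15_11 t15_10 [] = true := by decide +kernel

theorem s15_10 : srt t15_11 0 = true := by decide +kernel

theorem k15_11 : chk 7 t15_12 t15_11 [] = true := by decide +kernel

theorem s15_11 : srt t15_12 0 = true := by decide +kernel

theorem k15_12 : chk 7 t15_13 t15_12 [] = true := by decide +kernel

theorem s15_12 : srt t15_13 0 = true := by decide +kernel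

theorem k15_13 : chk 7 t15_14 t15_13 [] = true := by decide +kernel

theorem s15_13 : srt t15_14 0 = true := by decide +kernel

theorem k15_14 : chk 7 t15_15 t15_14 [] = true := by decide +kernel

theorem s15_14 : srt t15_15 0 = true := by decide +kernel

end MP_a3e05c_co.RTK
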