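import Pool.Agent.Lib.MP_a3e05c_co.RTK.Link
import Pool.Agent.Lib.MP_a3e05c_co.RTK.C15a

/-!
# EULER: regular tournaments with 15 vertices
-/

namespace MP_a3e05c_co.RTK

theorem low15 : 24061983498249428379648 ≤ RT.RTn 15 := by
  have h15 : OK 7 t15_15 0 0 := OK_last 7
  have h14 := chk_step 7 _ _ h15 s15_14 k15_14
  have h13 := chk_step 7 _ _ h14 s15_13 k15_13
  have h12 := chk_step 7 _ _ h13 s15_12 k15_12
  have h11 := chk_step 7 _ _ h12 s15_11 k15_11
  have h10 := chk_step 7 _ _ h11 s15_10 k15_10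
  have h9 := chk_step 7 _ _ h10 s15_9 k15_9
  have h8 := chk_step 7 _ _ h9 s15_8 k15_8
  have h7 := chk_step 7 _ _ h8 s15_7 k15_7
  have h6 := chk_step 7 _ _ h7 s15_6 k15_6
  have h5 := chk_step 7 _ _ h6 s15_5 k15_5
  have h4 := chk_step 7 _ _ h5 s15_4 k15_4
  have h3 := chk_step 7 _ _ h4 s15_3 k15_3
  have h2 := chk_step 7 _ _ h3 s15_2 k15_2
  have h1 := chk_step 7 _ _ h2 s15_1 k15_1
  have h0 := chk_step 7 _ _ h1 s15_0 k15_0
  exact (OK_first 7 24061983498249428379648 15 h0).trans (TS_le_RTn 7)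

end MP_a3e05c_co.RTK
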