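import Pool.Agent.Lib.MP_a3e05c_co.RTK.D17

/-!
# EULER: regular tournaments with 17 vertices, levels 0 to 6
-/

set_option maxRecDepth 100000

namespace MP_a3e05c_co.RTK

theorem k17_0 : chk 8 t17_1 t17_0 [] = true := by decide +kernel

theorem s17_0 : srt t17_1 0 = true := by decide +kernel

theorem k17_1 : chk 8 t17_2 t17_1 [] = true := by decide +kernel

theorem s17_1 : srt t17_2 0 = true := by decide +kernel

theorem k17_2 : chk 8 t17_3 t17_2 [] = true := by decide +kernel

theorem s17_2 : srt t17_3 0 = true := by decide +kernel

theorem k17_3 : chk 8 t17_4 t17_3 [] = true := by decide +kernel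

theorem s17_3 : srt t17_4 0 = true := by decide +kernel

theorem k17_4 : chk 8 t17_5 t17_4 [] = true := by decide +kernel

theorem s17_4 : srt t17_5 0 = true := by decide +kernel

theorem k17_5 : chk 8 t17_6 t17_5 [] = true := by decide +kernel

theorem s17_5 : srt t17_6 0 = true := by decide +kernel

theorem k17_6 : chk 8 t17_7 t17_6 [] = true := by decide +kernel

theorem s17_6 : srt t17_7 0 = true := by decide +kernel

end MP_a3e05c_co.RTK
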