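import Pool.Agent.Lib.MP_a3e05c_co.RTK.D17

/-!
# EULER: regular tournaments with 17 vertices, levels 7 to 16
-/

set_option maxRecDepth 100000

namespace MP_a3e05c_co.RTK

theorem k17_7 : chk 8 t17_8 t17_7 [] = true := by decide +kernel

theorem s17_7 : srt t17_8 0 = true := by decide +kernel

theorem k17_8 : chk 8 t17_9 t17_8 [] = true := by decide +kernel

theorem s17_8 : srt t17_9 0 = true := by decide +kernel

theorem k17_9 : chk 8 t17_10 t17_9 [] = true := by decide +kernel

theorem s17_9 : srt t17_10 0 = true := by decide +kernel

theorem k17_10 : chk 8 t17_11 t17_10 [] = true := by decide +kernel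

theorem s17_10 : srt t17_11 0 = true := by decide +kernel

theorem k17_11 : chk 8 t17_12 t17_11 [] = true := by decide +kernel

theorem s17_11 : srt t17_12 0 = true := by decide +kernel

theorem k17_12 : chk 8 t17_13 t17_12 [] = true := by decide +kernel

theorem s17_12 : srt t17_13 0 = true := by decide +kernel

theorem k17_13 : chk 8 t17_14 t17_13 [] = true := by decide +kernel

theorem s17_13 : srt t17_14 0 = true := by decide +kernel

theorem k17_14 : chk 8 t17_15 t17_14 [] = true := by decide +kernel

theorem s17_14 : srt t17_15 0 = true := by decide +kernel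

theorem k17_15 : chk 8 t17_16 t17_15 [] = true := by decide +kernel

theorem s17_15 : srt t17_16 0 = true := by decide +kernel

theorem k17_16 : chk 8 t17_17 t17_16 [] = true := by decide +kernel

theorem s17_16 : srt t17_17 0 = true := by decide +kernel

end MP_a3e05c_co.RTK
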