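import Pool.Agent.Lib.MP_a3e05c_co.RTK.Link
import Pool.Agent.Lib.MP_a3e05c_co.RTK.C17a
import Pool.Agent.Lib.MP_a3e05c_co.RTK.C17b

/-!
# EULER: regular tournaments with 17 vertices
-/

namespace MP_a3e05c_co.RTK

theorem low17 : 855847205541481495117975879680 ≤ RT.RTn 17 := by
  have h17 : OK 8 t17_17 0 0 := OK_last 8
  have h16 := chk_step 8 _ _ h17 s17_16 k17_16
  have h15 := chk_step 8 _ _ h16 s17_15 k17_15
  have h14 := chk_step 8 _ _ h15 s17_14 k17_14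
  have h13 := chk_step 8 _ _ h14 s17_13 k17_13
  have h12 := chk_step 8 _ _ h13 s17_12 k17_12
  have h11 := chk_step 8 _ _ h12 s17_11 k17_11
  have h10 := chk_step 8 _ _ h11 s17_10 k17_10
  have h9 := chk_step 8 _ _ h10 s17_9 k17_9
  have h8 := chk_step 8 _ _ h9 s17_8 k17_8
  have h7 := chk_step 8 _ _ h8 s17_7 k17_7
  have h6 := chk_step 8 _ _ h7 s17_6 k17_6
  have h5 := chk_step 8 _ _ h6 s17_5 k17_5
  have h4 := chk_step 8 _ _ h5 s17_4 k17_4
  have h3 := chk_step 8 _ _ h4 s17_3 k17_3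
  have h2 := chk_step 8 _ _ h3 s17_2 k17_2
  have h1 := chk_step 8 _ _ h2 s17_1 k17_1
  have h0 := chk_step 8 _ _ h1 s17_0 k17_0
  exact (OK_first 8 855847205541481495117975879680 17 h0).trans (TS_le_RTn 8)

end MP_a3e05c_co.RTK
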