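import Pool.Agent.Lib.MP_a3e05c_co.RTK.D19

/-!
# EULER: regular tournaments with 19 vertices, levels 0 to 5
-/

set_option maxRecDepth 100000

namespace MP_a3e05c_co.RTK

theorem k19_0 : chk 9 t19_1 t19_0 [] = true := by decide +kernel

theorem s19_0 : srt t19_1 0 = true := by decide +kernel

theorem k19_1 : chk 9 t19_2 t19_1 [] = true := by decide +kernel

theorem s19_1 : srt t19_2 0 = true := by decide +kernel

theorem k19_2 : chk 9 t19_3 t19_2 [] = true := by decide +kernel

theorem s19_2 : srt t19_3 0 = true := by decide +kernel

theorem k19_3 : chk 9 t19_4 t19_3 [] = true := by decide +kernel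

theorem s19_3 : srt t19_4 0 = true := by decide +kernel

theorem k19_4 : chk 9 t19_5 t19_4 [] = true := by decide +kernel

theorem s19_4 : srt t19_5 0 = true := by decide +kernel

theorem k19_5 : chk 9 t19_6 t19_5 [] = true := by decide +kernel

theorem s19_5 : srt t19_6 0 = true := by decide +kernel

end MP_a3e05c_co.RTK
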