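import Pool.Agent.Lib.MP_a3e05c_co.RTK.D19

/-!
# EULER: regular tournaments with 19 vertices, levels 8 to 18
-/

set_option maxRecDepth 100000

namespace MP_a3e05c_co.RTK

theorem k19_8 : chk 9 t19_9 t19_8 [] = true := by decide +kernel

theorem s19_8 : srt t19_9 0 = true := by decide +kernel

theorem k19_9 : chk 9 t19_10 t19_9 [] = true := by decide +kernel

theorem s19_9 : srt t19_10 0 = true := by decide +kernel

theorem k19_10 : chk 9 t19_11 t19_10 [] = true := by decide +kernel

theorem s19_10 : srt t19_11 0 = true := by decide +kernel

theorem k19_11 : chk 9 t19_12 t19_11 [] = true := by decide +kernel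

theorem s19_11 : srt t19_12 0 = true := by decide +kernel

theorem k19_12 : chk 9 t19_13 t19_12 [] = true := by decide +kernel

theorem s19_12 : srt t19_13 0 = true := by decide +kernel

theorem k19_13 : chk 9 t19_14 t19_13 [] = true := by decide +kernel

theorem s19_13 : srt t19_14 0 = true := by decide +kernel

theorem k19_14 : chk 9 t19_15 t19_14 [] = true := by decide +kernel

theorem s19_14 : srt t19_15 0 = true := by decide +kernel

theorem k19_15 : chk 9 t19_16 t19_15 [] = true := by decide +kernel

theorem s19_15 : srt t19_16 0 = true := by decide +kernel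

theorem k19_16 : chk 9 t19_17 t19_16 [] = true := by decide +kernel

theorem s19_16 : srt t19_17 0 = true := by decide +kernel

theorem k19_17 : chk 9 t19_18 t19_17 [] = true := by decide +kernel

theorem s19_17 : srt t19_18 0 = true := by decide +kernel

theorem k19_18 : chk 9 t19_19 t19_18 [] = true := by decide +kernel

theorem s19_18 : srt t19_19 0 = true := by decide +kernel

end MP_a3e05c_co.RTK
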