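import Pool.Agent.Lib.MP_a3e05c_co.RTK.Link
import Pool.Agent.Lib.MP_a3e05c_co.RTK.C19a
import Pool.Agent.Lib.MP_a3e05c_co.RTK.C19b
import Pool.Agent.Lib.MP_a3e05c_co.RTK.C19c
import Pool.Agent.Lib.MP_a3e05c_co.RTK.C19d

/-!
# EULER: regular tournaments with 19 vertices
-/

namespace MP_a3e05c_co.RTK

theorem low19 : 427102009099124449965536944854574242240 ≤ RT.RTn 19 := by
  have h19 : OK 9 t19_19 0 0 := OK_last 9
  have h18 := chk_step 9 _ _ h19 s19_18 k19_18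
  have h17 := chk_step 9 _ _ h18 s19_17 k19_17
  have h16 := chk_step 9 _ _ h17 s19_16 k19_16
  have h15 := chk_step 9 _ _ h16 s19_15 k19_15
  have h14 := chk_step 9 _ _ h15 s19_14 k19_14
  have h13 := chk_step 9 _ _ h14 s19_13 k19_13
  have h12 := chk_step 9 _ _ h13 s19_12 k19_12
  have h11 := chk_step 9 _ _ h12 s19_11 k19_11
  have h10 := chk_step 9 _ _ h11 s19_10 k19_10
  have h9 := chk_step 9 _ _ h10 s19_9 k19_9
  have h8 := chk_step 9 _ _ h9 s19_8 k19_8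
  have h7 := chk_step 9 _ _ h8 s19_7 k19_7
  have h6 := chk_step 9 _ _ h7 s19_6 k19_6
  have h5 := chk_step 9 _ _ h6 s19_5 k19_5
  have h4 := chk_step 9 _ _ h5 s19_4 k19_4
  have h3 := chk_step 9 _ _ h4 s19_3 k19_3
  have h2 := chk_step 9 _ _ h3 s19_2 k19_2
  have h1 := chk_step 9 _ _ h2 s19_1 k19_1
  have h0 := chk_step 9 _ _ h1 s19_0 k19_0
  exact (OK_first 9 427102009099124449965536944854574242240 19 h0).trans (TS_le_RTn 9)

end MP_a3e05c_co.RTK
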