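import Pool.Agent.Lib.MP_a3e05c_co.RTK.D23

/-!
# EULER: regular tournaments with 23 vertices, levels 0 to 5
-/

set_option maxRecDepth 100000

namespace MP_a3e05c_co.RTK

theorem k23_0 : chk 11 t23_1 t23_0 [] = true := by decide +kernel

theorem s23_0 : srt t23_1 0 = true := by decide +kernel

theorem k23_1 : chk 11 t23_2 t23_1 [] = true := by decide +kernel

theorem s23_1 : srt t23_2 0 = true := by decide +kernel

theorem k23_2 : chk 11 t23_3 t23_2 [] = true := by decide +kernel

theorem s23_2 : srt t23_3 0 = true := by decide +kernel

theorem k23_3 : chk 11 t23_4 t23_3 [] = true := by decide +kernel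

theorem s23_3 : srt t23_4 0 = true := by decide +kernel

theorem k23_4 : chk 11 t23_5 t23_4 [] = true := by decide +kernel

theorem s23_4 : srt t23_5 0 = true := by decide +kernel

theorem k23_5 : chk 11 t23_6 t23_5 [] = true := by decide +kernel

theorem s23_5 : srt t23_6 0 = true := by decide +kernel

end MP_a3e05c_co.RTK
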