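import Pool.Agent.Lib.MP_a3e05c_co.RTK.D23

/-!
# EULER: regular tournaments with 23 vertices, levels 7 to 7
-/

set_option maxRecDepth 100000

namespace MP_a3e05c_co.RTK

theorem k23_7 : chk 11 t23_8 t23_7 [] = true := by decide +kernel

theorem s23_7 : srt t23_8 0 = true := by decide +kernel

end MP_a3e05c_co.RTK
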