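import Pool.Agent.Lib.MP_a3e05c_co.RTK.D23

/-!
# EULER: regular tournaments with 23 vertices, levels 9 to 9
-/

set_option maxRecDepth 100000

namespace MP_a3e05c_co.RTK

theorem k23_9 : chk 11 t23_10 t23_9 [] = true := by decide +kernel

theorem s23_9 : srt t23_10 0 = true := by decide +kernel

end MP_a3e05c_co.RTK
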