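import Pool.Agent.Lib.MP_a3e05c_co.RTK.D23

/-!
# EULER: regular tournaments with 23 vertices, levels 10 to 22
-/

set_option maxRecDepth 100000

namespace MP_a3e05c_co.RTK

theorem k23_10 : chk 11 t23_11 t23_10 [] = true := by decide +kernel

theorem s23_10 : srt t23_11 0 = true := by decide +kernel

theorem k23_11 : chk 11 t23_12 t23_11 [] = true := by decide +kernel

theorem s23_11 : srt t23_12 0 = true := by decide +kernel

theorem k23_12 : chk 11 t23_13 t23_12 [] = true := by decide +kernel

theorem s23_12 : srt t23_13 0 = true := by decide +kernel

theorem k23_13 : chk 11 t23_14 t23_13 [] = true := by decide +kernel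

theorem s23_13 : srt t23_14 0 = true := by decide +kernel

theorem k23_14 : chk 11 t23_15 t23_14 [] = true := by decide +kernel

theorem s23_14 : srt t23_15 0 = true := by decide +kernel

theorem k23_15 : chk 11 t23_16 t23_15 [] = true := by decide +kernel

theorem s23_15 : srt t23_16 0 = true := by decide +kernel

theorem k23_16 : chk 11 t23_17 t23_16 [] = true := by decide +kernel

theorem s23_16 : srt t23_17 0 = true := by decide +kernel

theorem k23_17 : chk 11 t23_18 t23_17 [] = true := by decide +kernel

theorem s23_17 : srt t23_18 0 = true := by decide +kernel

theorem k23_18 : chk 11 t23_19 t23_18 [] = true := by decide +kernel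

theorem s23_18 : srt t23_19 0 = true := by decide +kernel

theorem k23_19 : chk 11 t23_20 t23_19 [] = true := by decide +kernel

theorem s23_19 : srt t23_20 0 = true := by decide +kernel

theorem k23_20 : chk 11 t23_21 t23_20 [] = true := by decide +kernel

theorem s23_20 : srt t23_21 0 = true := by decide +kernel

theorem k23_21 : chk 11 t23_22 t23_21 [] = true := by decide +kernel

theorem s23_21 : srt t23_22 0 = true := by decide +kernel

theorem k23_22 : chk 11 t23_23 t23_22 [] = true := by decide +kernel

theorem s23_22 : srt t23_23 0 = true := by decide +kernel

end MP_a3e05c_co.RTK
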