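import Pool.Agent.Lib.MP_a3e05c_co.RTK.Link
import Pool.Agent.Lib.MP_a3e05c_co.RTK.C23a
import Pool.Agent.Lib.MP_a3e05c_co.RTK.C23b
import Pool.Agent.Lib.MP_a3e05c_co.RTK.C23c
import Pool.Agent.Lib.MP_a3e05c_co.RTK.C23d
import Pool.Agent.Lib.MP_a3e05c_co.RTK.C23e
import Pool.Agent.Lib.MP_a3e05c_co.RTK.C23f

/-!
# EULER: regular tournaments with 23 vertices
-/

namespace MP_a3e05c_co.RTK

theorem low23 : 309730805277905215004541028781254724301006201166405131270912 ≤ RT.RTn 23 := by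
  have h23 : OK 11 t23_23 0 0 := OK_last 11
  have h22 := chk_step 11 _ _ h23 s23_22 k23_22
  have h21 := chk_step 11 _ _ h22 s23_21 k23_21
  have h20 := chk_step 11 _ _ h21 s23_20 k23_20
  have h19 := chk_step 11 _ _ h20 s23_19 k23_19
  have h18 := chk_step 11 _ _ h19 s23_18 k23_18
  have h17 := chk_step 11 _ _ h18 s23_17 k23_17
  have h16 := chk_step 11 _ _ h17 s23_16 k23_16
  have h15 := chk_step 11 _ _ h16 s23_15 k23_15
  have h14 := chk_step 11 _ _ h15 s23_14 k23_14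
  have h13 := chk_step 11 _ _ h14 s23_13 k23_13
  have h12 := chk_step 11 _ _ h13 s23_12 k23_12
  have h11 := chk_step 11 _ _ h12 s23_11 k23_11
  have h10 := chk_step 11 _ _ h11 s23_10 k23_10
  have h9 := chk_step 11 _ _ h10 s23_9 k23_9
  have h8 := chk_step 11 _ _ h9 s23_8 k23_8
  have h7 := chk_step 11 _ _ h8 s23_7 k23_7
  have h6 := chk_step 11 _ _ h7 s23_6 k23_6
  have h5 := chk_step 11 _ _ h6 s23_5 k23_5
  have h4 := chk_step 11 _ _ h5 s23_4 k23_4
  have h3 := chk_step 11 _ _ h4 s23_3 k23_3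
  have h2 := chk_step 11 _ _ h3 s23_2 k23_2
  have h1 := chk_step 11 _ _ h2 s23_1 k23_1
  have h0 := chk_step 11 _ _ h1 s23_0 k23_0
  exact (OK_first 11 309730805277905215004541028781254724301006201166405131270912 23 h0).trans (TS_le_RTn 11)

end MP_a3e05c_co.RTK
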