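import Pool.Agent.Lib.MP_a3e05c_co.RTK.D3

/-!
# EULER: regular tournaments with 3 vertices, levels 0 to 2
-/

set_option maxRecDepth 100000

namespace MP_a3e05c_co.RTK

theorem k3_0 : chk 1 t3_1 t3_0 [] = true := by decide +kernel

theorem s3_0 : srt t3_1 0 = true := by decide +kernel

theorem k3_1 : chk 1 t3_2 t3_1 [] = true := by decide +kernel

theorem s3_1 : srt t3_2 0 = true := by decide +kernel

theorem k3_2 : chk 1 t3_3 t3_2 [] = true := by decide +kernel

theorem s3_2 : srt t3_3 0 = true := by decide +kernel

end MP_a3e05c_co.RTK
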