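import Pool.Agent.Lib.MP_a3e05c_co.RTK.Link
import Pool.Agent.Lib.MP_a3e05c_co.RTK.C3a

/-!
# EULER: regular tournaments with 3 vertices
-/

namespace MP_a3e05c_co.RTK

theorem low3 : 2 ≤ RT.RTn 3 := by
  have h3 : OK 1 t3_3 0 0 := OK_last 1
  have h2 := chk_step 1 _ _ h3 s3_2 k3_2
  have h1 := chk_step 1 _ _ h2 s3_1 k3_1
  have h0 := chk_step 1 _ _ h1 s3_0 k3_0
  exact (OK_first 1 2 3 h0).trans (TS_le_RTn 1)

end MP_a3e05c_co.RTK
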