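import Pool.Agent.Lib.MP_a3e05c_co.RTK.D5

/-!
# EULER: regular tournaments with 5 vertices, levels 0 to 4
-/

set_option maxRecDepth 100000

namespace MP_a3e05c_co.RTK

theorem k5_0 : chk 2 t5_1 t5_0 [] = true := by decide +kernel

theorem s5_0 : srt t5_1 0 = true := by decide +kernel

theorem k5_1 : chk 2 t5_2 t5_1 [] = true := by decide +kernel

theorem s5_1 : srt t5_2 0 = true := by decide +kernel

theorem k5_2 : chk 2 t5_3 t5_2 [] = true := by decide +kernel

theorem s5_2 : srt t5_3 0 = true := by decide +kernel

theorem k5_3 : chk 2 t5_4 t5_3 [] = true := by decide +kernel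

theorem s5_3 : srt t5_4 0 = true := by decide +kernel

theorem k5_4 : chk 2 t5_5 t5_4 [] = true := by decide +kernel

theorem s5_4 : srt t5_5 0 = true := by decide +kernel

end MP_a3e05c_co.RTK
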