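import Pool.Agent.Lib.MP_a3e05c_co.RTK.Link
import Pool.Agent.Lib.MP_a3e05c_co.RTK.C5a

/-!
# EULER: regular tournaments with 5 vertices
-/

namespace MP_a3e05c_co.RTK

theorem low5 : 24 ≤ RT.RTn 5 := by
  have h5 : OK 2 t5_5 0 0 := OK_last 2
  have h4 := chk_step 2 _ _ h5 s5_4 k5_4
  have h3 := chk_step 2 _ _ h4 s5_3 k5_3
  have h2 := chk_step 2 _ _ h3 s5_2 k5_2
  have h1 := chk_step 2 _ _ h2 s5_1 k5_1
  have h0 := chk_step 2 _ _ h1 s5_0 k5_0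
  exact (OK_first 2 24 5 h0).trans (TS_le_RTn 2)

end MP_a3e05c_co.RTK
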