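import Pool.Agent.Lib.MP_a3e05c_co.RTK.D7

/-!
# EULER: regular tournaments with 7 vertices, levels 0 to 6
-/

set_option maxRecDepth 100000

namespace MP_a3e05c_co.RTK

theorem k7_0 : chk 3 t7_1 t7_0 [] = true := by decide +kernel

theorem s7_0 : srt t7_1 0 = true := by decide +kernel

theorem k7_1 : chk 3 t7_2 t7_1 [] = true := by decide +kernel

theorem s7_1 : srt t7_2 0 = true := by decide +kernel

theorem k7_2 : chk 3 t7_3 t7_2 [] = true := by decide +kernel

theorem s7_2 : srt t7_3 0 = true := by decide +kernel

theorem k7_3 : chk 3 t7_4 t7_3 [] = true := by decide +kernel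

theorem s7_3 : srt t7_4 0 = true := by decide +kernel

theorem k7_4 : chk 3 t7_5 t7_4 [] = true := by decide +kernel

theorem s7_4 : srt t7_5 0 = true := by decide +kernel

theorem k7_5 : chk 3 t7_6 t7_5 [] = true := by decide +kernel

theorem s7_5 : srt t7_6 0 = true := by decide +kernel

theorem k7_6 : chk 3 t7_7 t7_6 [] = true := by decide +kernel

theorem s7_6 : srt t7_7 0 = true := by decide +kernel

end MP_a3e05c_co.RTK
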