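import Pool.Agent.Lib.MP_a3e05c_co.RTK.Link
import Pool.Agent.Lib.MP_a3e05c_co.RTK.C7a

/-!
# EULER: regular tournaments with 7 vertices
-/

namespace MP_a3e05c_co.RTK

theorem low7 : 2640 ≤ RT.RTn 7 := by
  have h7 : OK 3 t7_7 0 0 := OK_last 3
  have h6 := chk_step 3 _ _ h7 s7_6 k7_6
  have h5 := chk_step 3 _ _ h6 s7_5 k7_5
  have h4 := chk_step 3 _ _ h5 s7_4 k7_4
  have h3 := chk_step 3 _ _ h4 s7_3 k7_3
  have h2 := chk_step 3 _ _ h3 s7_2 k7_2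
  have h1 := chk_step 3 _ _ h2 s7_1 k7_1
  have h0 := chk_step 3 _ _ h1 s7_0 k7_0
  exact (OK_first 3 2640 7 h0).trans (TS_le_RTn 3)

end MP_a3e05c_co.RTK
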