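import Pool.Agent.Lib.MP_a3e05c_co.RTK.D9

/-!
# EULER: regular tournaments with 9 vertices, levels 0 to 8
-/

set_option maxRecDepth 100000

namespace MP_a3e05c_co.RTK

theorem k9_0 : chk 4 t9_1 t9_0 [] = true := by decide +kernel

theorem s9_0 : srt t9_1 0 = true := by decide +kernel

theorem k9_1 : chk 4 t9_2 t9_1 [] = true := by decide +kernel

theorem s9_1 : srt t9_2 0 = true := by decide +kernel

theorem k9_2 : chk 4 t9_3 t9_2 [] = true := by decide +kernel

theorem s9_2 : srt t9_3 0 = true := by decide +kernel

theorem k9_3 : chk 4 t9_4 t9_3 [] = true := by decide +kernel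

theorem s9_3 : srt t9_4 0 = true := by decide +kernel

theorem k9_4 : chk 4 t9_5 t9_4 [] = true := by decide +kernel

theorem s9_4 : srt t9_5 0 = true := by decide +kernel

theorem k9_5 : chk 4 t9_6 t9_5 [] = true := by decide +kernel

theorem s9_5 : srt t9_6 0 = true := by decide +kernel

theorem k9_6 : chk 4 t9_7 t9_6 [] = true := by decide +kernel

theorem s9_6 : srt t9_7 0 = true := by decide +kernel

theorem k9_7 : chk 4 t9_8 t9_7 [] = true := by decide +kernel

theorem s9_7 : srt t9_8 0 = true := by decide +kernel

theorem k9_8 : chk 4 t9_9 t9_8 [] = true := by decide +kernel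

theorem s9_8 : srt t9_9 0 = true := by decide +kernel

end MP_a3e05c_co.RTK
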