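import Pool.Agent.Lib.MP_a3e05c_co.RTK.Link
import Pool.Agent.Lib.MP_a3e05c_co.RTK.C9a

/-!
# EULER: regular tournaments with 9 vertices
-/

namespace MP_a3e05c_co.RTK

theorem low9 : 3230080 ≤ RT.RTn 9 := by
  have h9 : OK 4 t9_9 0 0 := OK_last 4
  have h8 := chk_step 4 _ _ h9 s9_8 k9_8
  have h7 := chk_step 4 _ _ h8 s9_7 k9_7
  have h6 := chk_step 4 _ _ h7 s9_6 k9_6
  have h5 := chk_step 4 _ _ h6 s9_5 k9_5
  have h4 := chk_step 4 _ _ h5 s9_4 k9_4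
  have h3 := chk_step 4 _ _ h4 s9_3 k9_3
  have h2 := chk_step 4 _ _ h3 s9_2 k9_2
  have h1 := chk_step 4 _ _ h2 s9_1 k9_1
  have h0 := chk_step 4 _ _ h1 s9_0 k9_0
  exact (OK_first 4 3230080 9 h0).trans (TS_le_RTn 4)

end MP_a3e05c_co.RTK
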