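import Pool.Agent.Lib.MP_a3e05c_co.KL.PDefs
import Pool.Agent.Lib.MP_a3e05c_co.NCS.Chain
import Pool.Agent.Lib.MP_a3e05c_co.RTK.L3
import Pool.Agent.Lib.MP_a3e05c_co.RTK.L5
import Pool.Agent.Lib.MP_a3e05c_co.RTK.L7
import Pool.Agent.Lib.MP_a3e05c_co.RTK.L9
import Pool.Agent.Lib.MP_a3e05c_co.RTK.L11
import Pool.Agent.Lib.MP_a3e05c_co.RTK.L13
import Pool.Agent.Lib.MP_a3e05c_co.RTK.L15
import Pool.Agent.Lib.MP_a3e05c_co.RTK.L17
import Pool.Agent.Lib.MP_a3e05c_co.RTK.L19
import Pool.Agent.Lib.MP_a3e05c_co.RTK.L21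
import Pool.Agent.Lib.MP_a3e05c_co.RTK.L23

/-!
# EULER: numerical lower bounds for `KL.RT n`, `n ≤ 23`

The bounds are the exact values for `n ≤ 17`; the relative errors are `2 * 10 ^ (-6)` for `19`,
`4 * 10 ^ (-5)` for `21` and `5 * 10 ^ (-3)` for `23`.
-/

open Finset Real

namespace MP_a3e05c_co.RTK

private theorem Num_hd (n : ℕ) (e : {p : Fin n × Fin n // p.1 < p.2}) (b : Bool) :
    KL.hdK n e b = RT.hdK n e (!b) := by
  cases b <;> simp [KL.hdK, RT.hdK]

private theorem Num_sg (n : ℕ) (ω : {p : Fin n × Fin n // p.1 < p.2} → Bool) (v : Fin n)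
    (e : {p : Fin n × Fin n // p.1 < p.2}) :
    KL.sg (KL.hdK n) (fun e => !(ω e)) v e = KL.sg (RT.hdK n) ω v e := by
  unfold KL.sg
  rw [Num_hd, Num_hd, Bool.not_not]

theorem RTn_le (n : ℕ) : RT.RTn n ≤ KL.RT n := by
  unfold KL.RT RT.RTn
  refine Finset.card_le_card_of_injOn (fun ω e => !(ω e)) (fun ω hω => ?_)
    (fun ω _ ω' _ h => ?_)
  · rw [Finset.mem_coe, KL.mem_Om] at hω ⊢
    intro v hv
    have h := hω v hv
    unfold KL.Bal at h ⊢
    rw [← h]
    exact Finset.sum_congr rfl fun e _ => Num_sg n ω v e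
  · funext e
    exact Bool.not_inj (congrFun h e)

theorem RT_3 : 2 ≤ KL.RT 3 := low3.trans (RTn_le 3)

theorem RT_5 : 24 ≤ KL.RT 5 := low5.trans (RTn_le 5)

theorem RT_7 : 2640 ≤ KL.RT 7 := low7.trans (RTn_le 7)

theorem RT_9 : 3230080 ≤ KL.RT 9 := low9.trans (RTn_le 9)

theorem RT_11 : 48251508480 ≤ KL.RT 11 := low11.trans (RTn_le 11)

theorem RT_13 : 9307700611292160 ≤ KL.RT 13 := low13.trans (RTn_le 13)

theorem RT_15 : 24061983498249428379648 ≤ KL.RT 15 := low15.trans (RTn_le 15)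

theorem RT_17 : 855847205541481495117975879680 ≤ KL.RT 17 := low17.trans (RTn_le 17)

theorem RT_19 : 427102009099124449965536944854574242240 ≤ KL.RT 19 := low19.trans (RTn_le 19)

theorem RT_21 : 3035890034606593848108396779148026682657839269520 ≤ KL.RT 21 :=
  low21.trans (RTn_le 21)

theorem RT_23 : 309730805277905215004541028781254724301006201166405131270912 ≤ KL.RT 23 :=
  low23.trans (RTn_le 23)

private theorem Num_key (n : ℕ) (hn : 1 ≤ n) (v : ℝ) (hv0 : 0 ≤ v) (hv : v ≤ KL.RT n)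
    (h : (n : ℝ) * (1 / 2.7182818283) * (2 / (3.141592 * n)) ^ (n - 1) ≤
      (v / 2 ^ (n * (n - 1) / 2)) ^ 2) : exp (NCS.mainR n) ≤ KL.PK n := by
  have hn0 : (0 : ℝ) < n := by exact_mod_cast hn
  have hpi : (3.141592 : ℝ) < π := pi_gt_d6
  have he : (2.7182818283 : ℝ) < exp 1 := exp_one_gt_d9
  have hP : v / 2 ^ (n * (n - 1) / 2) ≤ KL.PK n := by
    unfold KL.PK
    exact div_le_div_of_nonneg_right hv (by positivity)
  have hP0 : 0 ≤ v / 2 ^ (n * (n - 1) / 2) := by positivity
  have h1 : exp (NCS.mainR n) ^ 2 = n * (exp 1)⁻¹ * (2 / (π * n)) ^ (n - 1) := by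
    unfold NCS.mainR
    have e1 : log (n : ℝ) / 2 - 1 / 2 - ((n : ℝ) - 1) / 2 * log (π * n / 2) =
        (log n + (-1) + (n - 1 : ℕ) * log (2 / (π * n))) / 2 := by
      have h2 : log (2 / (π * n)) = -log (π * n / 2) := by
        rw [← Real.log_inv]
        congr 1
        field_simp
      rw [h2, Nat.cast_sub hn]
      push_cast
      ring
    rw [e1, ← exp_nat_mul]
    have e2 : ((2 : ℕ) : ℝ) * ((log n + (-1) + (n - 1 : ℕ) * log (2 / (π * n))) / 2) =
        log n + (-1) + (n - 1 : ℕ) * log (2 / (π * n)) := by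
      push_cast
      ring
    rw [e2, exp_add, exp_add, exp_log hn0, exp_nat_mul, exp_log (by positivity), exp_neg]
  refine (sq_le_sq₀ (exp_pos _).le (hP0.trans hP)).1 ?_
  rw [h1]
  calc (n : ℝ) * (exp 1)⁻¹ * (2 / (π * n)) ^ (n - 1)
      ≤ (n : ℝ) * (1 / 2.7182818283) * (2 / (3.141592 * n)) ^ (n - 1) := by
        have h2 : (exp 1)⁻¹ ≤ 1 / 2.7182818283 := by
          rw [one_div]
          exact inv_anti₀ (by norm_num) he.le
        have h3 : 2 / (π * n) ≤ 2 / (3.141592 * n) := by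
          apply div_le_div_of_nonneg_left (by norm_num) (by positivity)
          exact mul_le_mul_of_nonneg_right hpi.le hn0.le
        have h4 : (2 / (π * n)) ^ (n - 1) ≤ (2 / (3.141592 * (n : ℝ))) ^ (n - 1) :=
          pow_le_pow_left₀ (by positivity) h3 _
        exact mul_le_mul (mul_le_mul_of_nonneg_left h2 hn0.le) h4 (by positivity)
          (by positivity)
    _ ≤ (v / 2 ^ (n * (n - 1) / 2)) ^ 2 := h
    _ ≤ KL.PK n ^ 2 := pow_le_pow_left₀ hP0 hP 2

/-- **Lower bound for the number of regular tournaments**, small orders. -/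
theorem PK_low_small (n : ℕ) (hn : Odd n) (h3 : 3 ≤ n) (h : n ≤ 23) :
    exp (NCS.mainR n) ≤ KL.PK n := by
  have h1 : n = 3 ∨ n = 5 ∨ n = 7 ∨ n = 9 ∨ n = 11 ∨ n = 13 ∨ n = 15 ∨ n = 17 ∨ n = 19 ∨
      n = 21 ∨ n = 23 := by
    obtain ⟨k, rfl⟩ := hn
    omega
  rcases h1 with rfl | rfl | rfl | rfl | rfl | rfl | rfl | rfl | rfl | rfl | rfl
  · exact Num_key 3 (by norm_num) 2 (by norm_num) (by exact_mod_cast RT_3) (by norm_num)
  · exact Num_key 5 (by norm_num) 24 (by norm_num) (by exact_mod_cast RT_5) (by norm_num)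
  · exact Num_key 7 (by norm_num) 2640 (by norm_num) (by exact_mod_cast RT_7) (by norm_num)
  · exact Num_key 9 (by norm_num) 3230080 (by norm_num) (by exact_mod_cast RT_9) (by norm_num)
  · exact Num_key 11 (by norm_num) 48251508480 (by norm_num) (by exact_mod_cast RT_11)
      (by norm_num)
  · exact Num_key 13 (by norm_num) 9307700611292160 (by norm_num) (by exact_mod_cast RT_13)
      (by norm_num)
  · exact Num_key 15 (by norm_num) 24061983498249428379648 (by norm_num)
      (by exact_mod_cast RT_15) (by norm_num)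
  · exact Num_key 17 (by norm_num) 855847205541481495117975879680 (by norm_num)
      (by exact_mod_cast RT_17) (by norm_num)
  · exact Num_key 19 (by norm_num) 427102009099124449965536944854574242240 (by norm_num)
      (by exact_mod_cast RT_19) (by norm_num)
  · exact Num_key 21 (by norm_num) 3035890034606593848108396779148026682657839269520
      (by norm_num) (by exact_mod_cast RT_21) (by norm_num)
  · exact Num_key 23 (by norm_num)
      309730805277905215004541028781254724301006201166405131270912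
      (by norm_num) (by exact_mod_cast RT_23) (by norm_num)

end MP_a3e05c_co.RTK
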