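import Pool.Agent.Lib.MP_a3e05c_co.RTK.Num

/-!
# EULER: numerical lower bounds for `KL.PK n`, `n ≤ 23`, with the second term

`exp (NCS.mainR n + 1 / (4 * n)) ≤ KL.PK n` for odd `3 ≤ n ≤ 21`, and
`exp (NCS.mainR 23 + 3 / 460) ≤ KL.PK 23`.
-/

open Finset Real

namespace MP_a3e05c_co.RTK

private theorem NumC_exp (x : ℝ) (h0 : 0 ≤ x) (h1 : x ≤ 1) :
    exp x ≤ 1 + x + x ^ 2 / 2 + x ^ 3 / 6 + x ^ 4 * 5 / 96 := by
  have h := Real.exp_bound' h0 h1 (n := 4) (by norm_num)
  refine h.trans (le_of_eq ?_)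
  simp [Finset.sum_range_succ, Nat.factorial]
  ring

private theorem NumC_key (n : ℕ) (hn : 1 ≤ n) (c : ℝ) (hc0 : 0 ≤ c) (hc1 : c ≤ 1 / 2)
    (v : ℝ) (hv0 : 0 ≤ v) (hv : v ≤ KL.RT n)
    (h : (n : ℝ) * (1 / 2.7182818283) *
      (1 + 2 * c + (2 * c) ^ 2 / 2 + (2 * c) ^ 3 / 6 + (2 * c) ^ 4 * 5 / 96) *
      (2 / (3.141592 * n)) ^ (n - 1) ≤
      (v / 2 ^ (n * (n - 1) / 2)) ^ 2) : exp (NCS.mainR n + c) ≤ KL.PK n := by
  have hn0 : (0 : ℝ) < n := by exact_mod_cast hn
  have hpi : (3.141592 : ℝ) < π := pi_gt_d6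
  have he : (2.7182818283 : ℝ) < exp 1 := exp_one_gt_d9
  have hP : v / 2 ^ (n * (n - 1) / 2) ≤ KL.PK n := by
    unfold KL.PK
    exact div_le_div_of_nonneg_right hv (by positivity)
  have hP0 : 0 ≤ v / 2 ^ (n * (n - 1) / 2) := by positivity
  have hec := NumC_exp (2 * c) (by linarith) (by linarith)
  have h1 : exp (NCS.mainR n + c) ^ 2 =
      n * (exp 1)⁻¹ * exp (2 * c) * (2 / (π * n)) ^ (n - 1) := by
    unfold NCS.mainR
    have e1 : log (n : ℝ) / 2 - 1 / 2 - ((n : ℝ) - 1) / 2 * log (π * n / 2) + c =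
        (log n + (-1) + 2 * c + (n - 1 : ℕ) * log (2 / (π * n))) / 2 := by
      have h2 : log (2 / (π * n)) = -log (π * n / 2) := by
        rw [← Real.log_inv]
        congr 1
        field_simp
      rw [h2, Nat.cast_sub hn]
      push_cast
      ring
    rw [e1, ← exp_nat_mul]
    have e2 : ((2 : ℕ) : ℝ) * ((log n + (-1) + 2 * c + (n - 1 : ℕ) * log (2 / (π * n))) / 2) =
        log n + (-1) + 2 * c + (n - 1 : ℕ) * log (2 / (π * n)) := by
      push_cast
      ring
    rw [e2, exp_add, exp_add, exp_add, exp_log hn0, exp_nat_mul, exp_log (by positivity),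
      exp_neg]
  refine (sq_le_sq₀ (exp_pos _).le (hP0.trans hP)).1 ?_
  rw [h1]
  calc (n : ℝ) * (exp 1)⁻¹ * exp (2 * c) * (2 / (π * n)) ^ (n - 1)
      ≤ (n : ℝ) * (1 / 2.7182818283) *
        (1 + 2 * c + (2 * c) ^ 2 / 2 + (2 * c) ^ 3 / 6 + (2 * c) ^ 4 * 5 / 96) *
        (2 / (3.141592 * n)) ^ (n - 1) := by
        have h2 : (exp 1)⁻¹ ≤ 1 / 2.7182818283 := by
          rw [one_div]
          exact inv_anti₀ (by norm_num) he.le
        have h3 : 2 / (π * n) ≤ 2 / (3.141592 * n) := by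
          apply div_le_div_of_nonneg_left (by norm_num) (by positivity)
          exact mul_le_mul_of_nonneg_right hpi.le hn0.le
        have h4 : (2 / (π * n)) ^ (n - 1) ≤ (2 / (3.141592 * (n : ℝ))) ^ (n - 1) :=
          pow_le_pow_left₀ (by positivity) h3 _
        have h5 : 0 ≤ 1 + 2 * c + (2 * c) ^ 2 / 2 + (2 * c) ^ 3 / 6 + (2 * c) ^ 4 * 5 / 96 :=
          (exp_pos _).le.trans hec
        exact mul_le_mul (mul_le_mul (mul_le_mul_of_nonneg_left h2 hn0.le) hec
          (exp_pos _).le (by positivity)) h4 (by positivity)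
          (mul_nonneg (by positivity) h5)
    _ ≤ (v / 2 ^ (n * (n - 1) / 2)) ^ 2 := h
    _ ≤ KL.PK n ^ 2 := pow_le_pow_left₀ hP0 hP 2

/-- The lower bound at `n = 23`, with the second term. -/
theorem PK_low_23 : exp (NCS.mainR 23 + 3 / 460) ≤ KL.PK 23 :=
  NumC_key 23 (by norm_num) (3 / 460) (by norm_num) (by norm_num)
    309730805277905215004541028781254724301006201166405131270912
    (by norm_num) (by exact_mod_cast RT_23) (by norm_num)

/-- **Lower bound for the number of regular tournaments**, small orders, with the second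
term. -/
theorem PK_low_quarter (n : ℕ) (hn : Odd n) (h3 : 3 ≤ n) (h : n ≤ 21) :
    exp (NCS.mainR n + 1 / (4 * (n : ℝ))) ≤ KL.PK n := by
  have h1 : n = 3 ∨ n = 5 ∨ n = 7 ∨ n = 9 ∨ n = 11 ∨ n = 13 ∨ n = 15 ∨ n = 17 ∨ n = 19 ∨
      n = 21 := by
    obtain ⟨k, rfl⟩ := hn
    omega
  have key : ∀ m : ℕ, 1 ≤ m → ∀ v : ℝ, 0 ≤ v → v ≤ KL.RT m →
      (m : ℝ) * (1 / 2.7182818283) *
      (1 + 2 * (1 / (4 * (m : ℝ))) + (2 * (1 / (4 * (m : ℝ)))) ^ 2 / 2 +
        (2 * (1 / (4 * (m : ℝ)))) ^ 3 / 6 + (2 * (1 / (4 * (m : ℝ)))) ^ 4 * 5 / 96) *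
      (2 / (3.141592 * m)) ^ (m - 1) ≤ (v / 2 ^ (m * (m - 1) / 2)) ^ 2 →
      exp (NCS.mainR m + 1 / (4 * (m : ℝ))) ≤ KL.PK m := by
    intro m hm v hv0 hv h
    have hm1 : (1 : ℝ) ≤ m := by exact_mod_cast hm
    refine NumC_key m hm (1 / (4 * (m : ℝ))) (by positivity) ?_ v hv0 hv h
    rw [div_le_div_iff₀ (by positivity) (by norm_num)]
    linarith
  rcases h1 with rfl | rfl | rfl | rfl | rfl | rfl | rfl | rfl | rfl | rfl
  · exact key 3 (by norm_num) 2 (by norm_num) (by exact_mod_cast RT_3) (by norm_num)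
  · exact key 5 (by norm_num) 24 (by norm_num) (by exact_mod_cast RT_5) (by norm_num)
  · exact key 7 (by norm_num) 2640 (by norm_num) (by exact_mod_cast RT_7) (by norm_num)
  · exact key 9 (by norm_num) 3230080 (by norm_num) (by exact_mod_cast RT_9) (by norm_num)
  · exact key 11 (by norm_num) 48251508480 (by norm_num) (by exact_mod_cast RT_11)
      (by norm_num)
  · exact key 13 (by norm_num) 9307700611292160 (by norm_num) (by exact_mod_cast RT_13)
      (by norm_num)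
  · exact key 15 (by norm_num) 24061983498249428379648 (by norm_num)
      (by exact_mod_cast RT_15) (by norm_num)
  · exact key 17 (by norm_num) 855847205541481495117975879680 (by norm_num)
      (by exact_mod_cast RT_17) (by norm_num)
  · exact key 19 (by norm_num) 427102009099124449965536944854574242240 (by norm_num)
      (by exact_mod_cast RT_19) (by norm_num)
  · exact key 21 (by norm_num) 3035890034606593848108396779148026682657839269520
      (by norm_num) (by exact_mod_cast RT_21) (by norm_num)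

end MP_a3e05c_co.RTK
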