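import Pool.Agent.Lib.MP_a3e05c_co.RTK.D21

/-!
# EULER: regular tournaments with 21 vertices, levels 0 to 5
-/

set_option maxRecDepth 100000

namespace MP_a3e05c_co.RTK

theorem k21_0 : chk 10 t21_1 t21_0 [] = true := by decide +kernel

theorem s21_0 : srt t21_1 0 = true := by decide +kernel

theorem k21_1 : chk 10 t21_2 t21_1 [] = true := by decide +kernel

theorem s21_1 : srt t21_2 0 = true := by decide +kernel

theorem k21_2 : chk 10 t21_3 t21_2 [] = true := by decide +kernel

theorem s21_2 : srt t21_3 0 = true := by decide +kernel

theorem k21_3 : chk 10 t21_4 t21_3 [] = true := by decide +kernel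

theorem s21_3 : srt t21_4 0 = true := by decide +kernel

theorem k21_4 : chk 10 t21_5 t21_4 [] = true := by decide +kernel

theorem s21_4 : srt t21_5 0 = true := by decide +kernel

theorem k21_5 : chk 10 t21_6 t21_5 [] = true := by decide +kernel

theorem s21_5 : srt t21_6 0 = true := by decide +kernel

end MP_a3e05c_co.RTK
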