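import Pool.Agent.Lib.MP_a3e05c_co.RTK.D21

/-!
# EULER: regular tournaments with 21 vertices, levels 6 to 6
-/

set_option maxRecDepth 100000

namespace MP_a3e05c_co.RTK

theorem k21_6 : chk 10 t21_7 t21_6 [] = true := by decide +kernel

theorem s21_6 : srt t21_7 0 = true := by decide +kernel

end MP_a3e05c_co.RTK
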