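import Pool.Agent.Lib.MP_a3e05c_co.RTK.D21

/-!
# EULER: regular tournaments with 21 vertices, levels 10 to 20
-/

set_option maxRecDepth 100000

namespace MP_a3e05c_co.RTK

theorem k21_10 : chk 10 t21_11 t21_10 [] = true := by decide +kernel

theorem s21_10 : srt t21_11 0 = true := by decide +kernel

theorem k21_11 : chk 10 t21_12 t21_11 [] = true := by decide +kernel

theorem s21_11 : srt t21_12 0 = true := by decide +kernel

theorem k21_12 : chk 10 t21_13 t21_12 [] = true := by decide +kernel

theorem s21_12 : srt t21_13 0 = true := by decide +kernel

theorem k21_13 : chk 10 t21_14 t21_13 [] = true := by decide +kernel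

theorem s21_13 : srt t21_14 0 = true := by decide +kernel

theorem k21_14 : chk 10 t21_15 t21_14 [] = true := by decide +kernel

theorem s21_14 : srt t21_15 0 = true := by decide +kernel

theorem k21_15 : chk 10 t21_16 t21_15 [] = true := by decide +kernel

theorem s21_15 : srt t21_16 0 = true := by decide +kernel

theorem k21_16 : chk 10 t21_17 t21_16 [] = true := by decide +kernel

theorem s21_16 : srt t21_17 0 = true := by decide +kernel

theorem k21_17 : chk 10 t21_18 t21_17 [] = true := by decide +kernel

theorem s21_17 : srt t21_18 0 = true := by decide +kernel

theorem k21_18 : chk 10 t21_19 t21_18 [] = true := by decide +kernel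

theorem s21_18 : srt t21_19 0 = true := by decide +kernel

theorem k21_19 : chk 10 t21_20 t21_19 [] = true := by decide +kernel

theorem s21_19 : srt t21_20 0 = true := by decide +kernel

theorem k21_20 : chk 10 t21_21 t21_20 [] = true := by decide +kernel

theorem s21_20 : srt t21_21 0 = true := by decide +kernel

end MP_a3e05c_co.RTK
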