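import Pool.Agent.Lib.MP_a3e05c_co.RTK.Sem

/-!
# EULER: numbers of regular tournaments, the checker

The lower bounds for `GM m s` at one level are stored in a tree (`Tr`) with the numbers of the
entries `0, 1, .., m` of `s` as keys.  `chk` checks a level against the next one.
-/

open Finset

namespace MP_a3e05c_co.RTK

/-- trees: `c y child sib` is a branch with key `y` and its siblings -/
inductive Tr
  | n : Tr
  | l (v : ℕ) : Tr
  | c (y : ℕ) (child sib : Tr) : Tr

/-- binomial coefficients, fast in the kernel -/
def bin (d x : ℕ) : ℕ := (((2 ^ 24 + 1) ^ d) >>> (24 * x)) % 2 ^ 24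

/-- the checker for Pascal's rule -/
def binOK (N : ℕ) : Bool :=
  (List.range N).all fun d => Nat.beq (bin d 0) 1 && Nat.beq (bin 0 (d + 1)) 0 &&
    (List.range N).all fun x => Nat.beq (bin (d + 1) (x + 1)) (bin d x + bin d (x + 1))

theorem binOK_26 : binOK 26 = true := by decide +kernel

theorem bin_eq : ∀ d x : ℕ, d ≤ 26 → x ≤ 26 → bin d x = d.choose x := by
  have h := binOK_26
  unfold binOK at h
  rw [List.all_eq_true] at h
  have h1 : ∀ d < 26, bin d 0 = 1 ∧ bin 0 (d + 1) = 0 ∧
      ∀ x < 26, bin (d + 1) (x + 1) = bin d x + bin d (x + 1) := by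
    intro d hd
    have h2 := h d (List.mem_range.2 hd)
    rw [Bool.and_eq_true, Bool.and_eq_true, List.all_eq_true] at h2
    exact ⟨Nat.eq_of_beq_eq_true h2.1.1, Nat.eq_of_beq_eq_true h2.1.2,
      fun x hx => Nat.eq_of_beq_eq_true (h2.2 x (List.mem_range.2 hx))⟩
  have h26 : bin 26 0 = 1 := by decide +kernel
  intro d
  induction d with
  | zero =>
    intro x _ hx
    cases x with
    | zero => rw [(h1 0 (by norm_num)).1]; rfl
    | succ x => rw [(h1 x (by omega)).2.1]; rfl
  | succ d ih =>
    intro x hd hx
    cases x with
    | zero =>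
      rw [Nat.choose_zero_right]
      rcases Nat.lt_or_ge (d + 1) 26 with h3 | h3
      · exact (h1 (d + 1) h3).1
      · have h4 : d + 1 = 26 := by omega
        rw [h4, h26]
    | succ x =>
      rw [(h1 d (by omega)).2.2 x (by omega), ih x (by omega) (by omega),
        ih (x + 1) (by omega) hx, Nat.choose_succ_succ]

/-- all entries are zero -/
noncomputable def az (ds : List ℕ) : Bool :=
  List.rec (motive := fun _ => Bool) true (fun d _ ih => (Nat.beq d 0) && ih) ds

/-- the value computed from the next level: `ds` are the numbers of the vertices by score, `k` is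
the number of vertices which still have to get a win, `cr` the number of vertices which come from the
class below -/
noncomputable def val (t : Tr) : List ℕ → ℕ → ℕ → ℕ :=
  Tr.rec (motive := fun _ => List ℕ → ℕ → ℕ → ℕ)
    (fun _ _ _ => 0)
    (fun v ds k cr => bif Nat.beq k 0 then (bif Nat.beq cr 0 then (bif az ds then v else 0)
      else 0) else 0)
    (fun y _ _ ihc ihs ds k cr =>
      List.rec (motive := fun _ => ℕ) ((bif Nat.beq cr y then ihc [] k 0 else 0) + ihs ds k cr)
        (fun d ds' _ =>
          (bif Nat.ble cr y then (bif Nat.ble y (d + cr) then (bif Nat.ble (d + cr - y) k then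
            bin d (d + cr - y) * ihc ds' (k - (d + cr - y)) (d + cr - y) else 0) else 0) else 0)
            + ihs ds k cr) ds) t

/-- the keys of siblings increase -/
noncomputable def srt (t : Tr) : ℕ → Bool :=
  Tr.rec (motive := fun _ => ℕ → Bool)
    (fun _ => true)
    (fun _ lo => Nat.beq lo 0)
    (fun y _ _ ihc ihs lo => (Nat.ble lo y) && ((ihc 0) && (ihs (y + 1)))) t

/-- remove a vertex of the largest score; the list is reversed (largest score first), `u` is the
score of the head -/
noncomputable def rm (ds : List ℕ) : ℕ → List ℕ → (List ℕ → ℕ → Bool) → Bool :=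
  List.rec (motive := fun _ => ℕ → List ℕ → (List ℕ → ℕ → Bool) → Bool)
    (fun _ _ _ => false)
    (fun d ds ih u acc f => bif Nat.beq d 0 then ih (u - 1) (0 :: acc) f else
      f (ds.foldl (fun a b => b :: a) ((d - 1) :: acc)) u) ds

/-- all entries are at most `26` and the sum -/
def sm (ds : List ℕ) : ℕ := ds.foldr (fun a b => a + b) 0

/-- check all leaves of `t` -/
noncomputable def chk (m : ℕ) (T' : Tr) (t : Tr) : List ℕ → Bool :=
  Tr.rec (motive := fun _ => List ℕ → Bool)
    (fun _ => true)
    (fun v ds => rm ds (ds.length - 1) [] fun es u =>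
      (Nat.ble (sm es) 26) && ((Nat.ble m (u + sm es)) &&
        (Nat.ble v (val T' es (u + sm es - m) 0))))
    (fun y _ _ ihc ihs ds => (ihc (y :: ds)) && (ihs ds)) t

/-! ### Semantics -/

/-- the entries `u, u + 1, ..` with the multiplicities `ds` -/
def flat : ℕ → List ℕ → List ℕ
  | _, [] => []
  | u, d :: ds => List.replicate d u ++ flat (u + 1) ds

theorem flat_length (ds : List ℕ) : ∀ u, (flat u ds).length = sm ds := by
  induction ds with
  | nil => intro u; rfl
  | cons d ds ih =>
    intro u
    rw [flat, List.length_append, List.length_replicate, ih]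
    rfl

theorem flat_append (ds es : List ℕ) : ∀ u, flat u (ds ++ es) =
    flat u ds ++ flat (u + ds.length) es := by
  induction ds with
  | nil => intro u; simp [flat]
  | cons d ds ih =>
    intro u
    rw [List.cons_append, flat, flat, ih, List.append_assoc, List.length_cons]
    congr 3
    omega

theorem flat_az (ds : List ℕ) (h : az ds = true) : ∀ u, flat u ds = [] := by
  induction ds with
  | nil => intro u; rfl
  | cons d ds ih =>
    intro u
    have h1 : (Nat.beq d 0 && az ds) = true := h
    rw [Bool.and_eq_true] at h1
    have h2 : d = 0 := Nat.eq_of_beq_eq_true h1.1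
    rw [flat, h2, ih h1.2]
    rfl

/-- the leaves of the tree are lower bounds -/
def OK (m : ℕ) : Tr → ℕ → Multiset ℕ → Prop
  | .n, _, _ => True
  | .l v, _, acc => v ≤ GM m acc
  | .c y child sib, u, acc =>
    OK m child (u + 1) (acc + Multiset.replicate y u) ∧ OK m sib u acc

/-- the bound for a partial sum -/
noncomputable def RHS (m : ℕ) (u : ℕ) (acc : Multiset ℕ) (k cr lo : ℕ) : List ℕ → ℕ
  | [] => if lo ≤ cr then Es m [] k (acc + Multiset.replicate cr u) else 0
  | d :: ds => ∑ p ∈ (antidiagonal d).filter (fun p => lo ≤ p.2 + cr), d.choose p.1 *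
      if p.1 ≤ k then Es m (flat (u + 1) ds) (k - p.1)
        (acc + Multiset.replicate cr u + Multiset.replicate p.2 u +
          Multiset.replicate p.1 (u + 1)) else 0

theorem RHS_zero (m u : ℕ) (acc : Multiset ℕ) (k cr : ℕ) (ds : List ℕ) :
    RHS m u acc k cr 0 ds = Es m (flat u ds) k (acc + Multiset.replicate cr u) := by
  cases ds with
  | nil => rw [RHS, if_pos (Nat.zero_le _), flat]
  | cons d ds =>
    rw [flat, Es_replicate, RHS, Finset.filter_true_of_mem fun p _ => Nat.zero_le _]

theorem RHS_mono (m u : ℕ) (acc : Multiset ℕ) (k cr lo lo' : ℕ) (ds : List ℕ) (h : lo ≤ lo') :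
    RHS m u acc k cr lo' ds ≤ RHS m u acc k cr lo ds := by
  cases ds with
  | nil =>
    rw [RHS, RHS]
    by_cases h1 : lo' ≤ cr
    · rw [if_pos h1, if_pos (h.trans h1)]
    · rw [if_neg h1]
      exact Nat.zero_le _
  | cons d ds =>
    rw [RHS, RHS]
    refine Finset.sum_le_sum_of_subset fun p hp => ?_
    rw [mem_filter] at hp ⊢
    exact ⟨hp.1, by omega⟩

/-- splitting off one term -/
theorem RHS_split (m u : ℕ) (acc : Multiset ℕ) (k cr y d : ℕ) (ds : List ℕ) (h1 : cr ≤ y)
    (h2 : y ≤ d + cr) :
    (d.choose (d + cr - y) * if d + cr - y ≤ k then Es m (flat (u + 1) ds) (k - (d + cr - y))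
        (acc + Multiset.replicate y u + Multiset.replicate (d + cr - y) (u + 1)) else 0) +
      RHS m u acc k cr (y + 1) (d :: ds) ≤ RHS m u acc k cr y (d :: ds) := by
  rw [RHS, RHS]
  have hmem : (d + cr - y, y - cr) ∈ (antidiagonal d).filter (fun p => y ≤ p.2 + cr) := by
    rw [mem_filter, Finset.HasAntidiagonal.mem_antidiagonal]
    constructor
    · show d + cr - y + (y - cr) = d
      omega
    · show y ≤ y - cr + cr
      omega
  rw [← Finset.add_sum_erase _ _ hmem]
  refine Nat.add_le_add (le_of_eq ?_) (Finset.sum_le_sum_of_subset fun p hp => ?_)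
  · have h3 : Multiset.replicate y u = Multiset.replicate cr u + Multiset.replicate (y - cr) u := by
      rw [← Multiset.replicate_add]
      congr 1
      omega
    rw [h3, ← add_assoc acc]
  · rw [mem_filter, Finset.HasAntidiagonal.mem_antidiagonal] at hp
    rw [mem_erase, mem_filter, Finset.HasAntidiagonal.mem_antidiagonal]
    refine ⟨?_, hp.1, by omega⟩
    rintro rfl
    have := hp.2
    simp only at this
    omega

theorem val_le (m : ℕ) (t : Tr) : ∀ (ds : List ℕ) (k cr lo u : ℕ) (acc : Multiset ℕ),
    OK m t u acc → srt t lo = true → (∀ d ∈ ds, d ≤ 26) →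
    val t ds k cr ≤ RHS m u acc k cr lo ds := by
  induction t with
  | n => intro ds k cr lo u acc _ _ _; exact Nat.zero_le _
  | l v =>
    intro ds k cr lo u acc hOK hs _
    show (bif Nat.beq k 0 then (bif Nat.beq cr 0 then (bif az ds then v else 0)
      else 0) else 0) ≤ _
    cases hk : Nat.beq k 0 with
    | false => exact Nat.zero_le _
    | true =>
      cases hcr : Nat.beq cr 0 with
      | false => exact Nat.zero_le _
      | true =>
        cases haz : az ds with
        | false => exact Nat.zero_le _
        | true =>
          have h1 : k = 0 := Nat.eq_of_beq_eq_true hk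
          have h2 : cr = 0 := Nat.eq_of_beq_eq_true hcr
          subst h1
          subst h2
          have h3 : lo = 0 := Nat.eq_of_beq_eq_true hs
          subst h3
          show v ≤ RHS m u acc 0 0 0 ds
          rw [RHS_zero, flat_az ds haz]
          simp only [Es, if_true, Multiset.replicate_zero, add_zero]
          exact hOK
  | c y child sib ihc ihs =>
    intro ds k cr lo u acc hOK hs h26
    have hs2 : (Nat.ble lo y && (srt child 0 && srt sib (y + 1))) = true := hs
    rw [Bool.and_eq_true, Bool.and_eq_true] at hs2
    have hlo : lo ≤ y := Nat.le_of_ble_eq_true hs2.1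
    have hsib := ihs ds k cr (y + 1) u acc hOK.2 hs2.2.2 h26
    refine le_trans ?_ (RHS_mono m u acc k cr lo y ds hlo)
    cases ds with
    | nil =>
      show (bif Nat.beq cr y then val child [] k 0 else 0) + val sib [] k cr ≤
        RHS m u acc k cr y []
      cases h1 : Nat.beq cr y with
      | false =>
        show 0 + val sib [] k cr ≤ RHS m u acc k cr y []
        rw [zero_add]
        exact hsib.trans (RHS_mono m u acc k cr y (y + 1) [] (Nat.le_succ y))
      | true =>
        have g1 : cr = y := Nat.eq_of_beq_eq_true h1
        subst g1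
        show val child [] k 0 + val sib [] k cr ≤ RHS m u acc k cr cr []
        have h2 := ihc [] k 0 0 (u + 1) (acc + Multiset.replicate cr u) hOK.1 hs2.2.1
          (fun d hd => by simp at hd)
        rw [RHS_zero, flat, Multiset.replicate_zero, add_zero] at h2
        rw [RHS, if_neg (by omega)] at hsib
        rw [RHS, if_pos le_rfl]
        omega
    | cons d ds =>
      have hd : d ≤ 26 := h26 d List.mem_cons_self
      have h26' : ∀ e ∈ ds, e ≤ 26 := fun e he => h26 e (List.mem_cons_of_mem _ he)
      show (bif Nat.ble cr y then (bif Nat.ble y (d + cr) then (bif Nat.ble (d + cr - y) k then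
            bin d (d + cr - y) * val child ds (k - (d + cr - y)) (d + cr - y) else 0) else 0)
            else 0) + val sib (d :: ds) k cr ≤ RHS m u acc k cr y (d :: ds)
      have hzero : 0 + val sib (d :: ds) k cr ≤ RHS m u acc k cr y (d :: ds) := by
        rw [zero_add]
        exact hsib.trans (RHS_mono m u acc k cr y (y + 1) (d :: ds) (Nat.le_succ y))
      cases h1 : Nat.ble cr y with
      | false => exact hzero
      | true =>
        cases h2 : Nat.ble y (d + cr) with
        | false => exact hzero
        | true =>
          cases h3 : Nat.ble (d + cr - y) k with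
          | false => exact hzero
          | true =>
            have g1 := Nat.le_of_ble_eq_true h1
            have g2 := Nat.le_of_ble_eq_true h2
            have g3 := Nat.le_of_ble_eq_true h3
            refine le_trans ?_ (RHS_split m u acc k cr y d ds g1 g2)
            refine Nat.add_le_add ?_ hsib
            show bin d (d + cr - y) * val child ds (k - (d + cr - y)) (d + cr - y) ≤ _
            rw [if_pos g3, bin_eq d (d + cr - y) hd (by omega)]
            refine Nat.mul_le_mul_left _ ?_
            have := ihc ds (k - (d + cr - y)) (d + cr - y) 0 (u + 1)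
              (acc + Multiset.replicate y u) hOK.1 hs2.2.1 h26'
            rw [RHS_zero] at this
            exact this

theorem foldl_rev (ds : List ℕ) : ∀ acc : List ℕ,
    ds.foldl (fun a b => b :: a) acc = ds.reverse ++ acc := by
  induction ds with
  | nil => intro acc; rfl
  | cons d ds ih =>
    intro acc
    rw [List.foldl_cons, ih, List.reverse_cons, List.append_assoc]
    rfl

/-- `rm` removes one entry -/
theorem rm_spec (f : List ℕ → ℕ → Bool) (ds : List ℕ) : ∀ (u : ℕ) (acc : List ℕ),
    ds.length - 1 = u → rm ds u acc f = true →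
    ∃ es w, f es w = true ∧
      ((flat 0 (ds.reverse ++ acc) : List ℕ) : Multiset ℕ) = w ::ₘ (flat 0 es : List ℕ) := by
  induction ds with
  | nil =>
    intro u acc _ hr
    exact absurd hr (by simp [rm])
  | cons d ds ih =>
    intro u acc hl hr
    have hr2 : (bif Nat.beq d 0 then rm ds (u - 1) (0 :: acc) f else
      f (ds.foldl (fun a b => b :: a) ((d - 1) :: acc)) u) = true := hr
    rw [List.reverse_cons, List.append_assoc]
    cases hd : Nat.beq d 0 with
    | true =>
      rw [hd] at hr2
      have hd0 : d = 0 := Nat.eq_of_beq_eq_true hd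
      subst hd0
      cases ds with
      | nil =>
        have : rm [] (u - 1) (0 :: acc) f = true := hr2
        exact absurd this (by simp [rm])
      | cons e ds =>
        have hu : (e :: ds).length - 1 = u - 1 := by
          simp only [List.length_cons] at hl ⊢
          omega
        exact ih (u - 1) (0 :: acc) hu hr2
    | false =>
      rw [hd] at hr2
      have hd0 : d ≠ 0 := by
        rintro rfl
        exact absurd hd (by decide)
      refine ⟨_, u, hr2, ?_⟩
      have hlen : ds.reverse.length = u := by
        rw [List.length_reverse]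
        simp only [List.length_cons] at hl
        omega
      obtain ⟨e, rfl⟩ : ∃ e, d = e + 1 := ⟨d - 1, by omega⟩
      have e1 : flat 0 (ds.reverse ++ ([e + 1] ++ acc)) =
          flat 0 ds.reverse ++ (u :: (List.replicate e u ++ flat (u + 1) acc)) := by
        rw [flat_append, hlen, Nat.zero_add]
        rfl
      have e2 : flat 0 (ds.foldl (fun a b => b :: a) ((e + 1 - 1) :: acc)) =
          flat 0 ds.reverse ++ (List.replicate e u ++ flat (u + 1) acc) := by
        rw [foldl_rev, flat_append, hlen, Nat.zero_add]
        rfl
      rw [e1, e2, Multiset.cons_coe]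
      apply Multiset.coe_eq_coe.2
      exact List.perm_middle

theorem sm_bound (es : List ℕ) (h : sm es ≤ 26) : ∀ d ∈ es, d ≤ 26 := by
  induction es with
  | nil => intro d hd; simp at hd
  | cons e es ih =>
    have h1 : e + sm es ≤ 26 := h
    intro d hd
    rcases List.mem_cons.1 hd with rfl | hd
    · omega
    · exact ih (by omega) d hd

/-- soundness of the checker -/
theorem chk_sound (m : ℕ) (T' : Tr) (hOK : OK m T' 0 0) (hs : srt T' 0 = true) (t : Tr) :
    ∀ ds : List ℕ, chk m T' t ds = true →
      OK m t ds.length ((flat 0 ds.reverse : List ℕ) : Multiset ℕ) := by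
  induction t with
  | n => intro ds _; exact trivial
  | l v =>
    intro ds h
    have h2 : (rm ds (ds.length - 1) [] fun es u =>
      (Nat.ble (sm es) 26) && ((Nat.ble m (u + sm es)) &&
        (Nat.ble v (val T' es (u + sm es - m) 0)))) = true := h
    obtain ⟨es, w, h3, h4⟩ := rm_spec _ ds (ds.length - 1) [] rfl h2
    rw [Bool.and_eq_true, Bool.and_eq_true] at h3
    obtain ⟨g1, g2, g3⟩ := h3
    have g1 := Nat.le_of_ble_eq_true g1
    have g2 := Nat.le_of_ble_eq_true g2
    have g3 := Nat.le_of_ble_eq_true g3
    rw [List.append_nil] at h4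
    show v ≤ GM m _
    rw [h4, GM_cons m w (w + sm es - m) (flat 0 es) (by rw [flat_length]; omega)]
    refine g3.trans ?_
    have := val_le m T' es (w + sm es - m) 0 0 0 0 hOK hs (sm_bound es g1)
    rw [RHS_zero] at this
    simpa using this
  | c y child sib ihc ihs =>
    intro ds h
    have h2 : (chk m T' child (y :: ds) && chk m T' sib ds) = true := h
    rw [Bool.and_eq_true] at h2
    refine ⟨?_, ihs ds h2.2⟩
    have h3 := ihc (y :: ds) h2.1
    rw [List.reverse_cons, flat_append, List.length_reverse, Nat.zero_add] at h3
    have h4 : flat ds.length [y] = List.replicate y ds.length := by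
      simp [flat]
    rw [h4, ← Multiset.coe_add, Multiset.coe_replicate] at h3
    exact h3

/-- one step -/
theorem chk_step (m : ℕ) (T' T : Tr) (hOK : OK m T' 0 0) (hs : srt T' 0 = true)
    (h : chk m T' T [] = true) : OK m T 0 0 :=
  chk_sound m T' hOK hs T [] h

end MP_a3e05c_co.RTK
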