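import Pool.Agent.Lib.MP_a3e05c_co.RTK.Chk

/-!
# EULER: tables for regular tournaments with 11 vertices
-/

namespace MP_a3e05c_co.RTK

noncomputable def t11_0 : Tr := (.c 11 (.l 48251508480) .n)

noncomputable def t11_1 : Tr := (.c 5 (.c 5 (.l 191474240) .n) .n)

noncomputable def t11_2 : Tr := (.c 0 (.c 9 (.l 3230080) .n) (.c 1 (.c 7 (.c 1 (.l 2265200) .n)
  .n) (.c 2 (.c 5 (.c 2 (.l 1583360) .n) .n) (.c 3 (.c 3 (.c 3 (.l 1102824) .n) .n) (.c 4 (.c 1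
  (.c 4 (.l 765120) .n) .n) .n)))))

noncomputable def t11_3 : Tr := (.c 0 (.c 4 (.c 4 (.l 46144) .n) (.c 5 (.c 2 (.c 1 (.l 30960)
  .n) .n) (.c 6 (.c 0 (.c 2 (.l 20640) .n) .n) .n))) (.c 1 (.c 2 (.c 5 (.l 30960) .n) (.c 3 (.c
  3 (.c 1 (.l 20676) .n) .n) (.c 4 (.c 1 (.c 2 (.l 13712) .n) .n) .n))) (.c 2 (.c 0 (.c 6 (.l
  20640) .n) (.c 1 (.c 4 (.c 1 (.l 13712) .n) .n) (.c 2 (.c 2 (.c 2 (.l 9040) .n) .n) (.c 3 (.c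
  0 (.c 3 (.l 5904) .n) .n) .n)))) (.c 3 (.c 0 (.c 3 (.c 2 (.l 5904) .n) .n) (.c 1 (.c 1 (.c 3
  (.l 3824) .n) .n) .n)) .n))))

noncomputable def t11_4 : Tr := (.c 0 (.c 0 (.c 7 (.l 2640) .n) (.c 1 (.c 5 (.c 1 (.l 1720) .n)
  .n) (.c 2 (.c 3 (.c 2 (.l 1112) .n) (.c 4 (.c 0 (.c 1 (.l 688) .n) .n) .n)) (.c 3 (.c 1 (.c 3
  (.l 712) .n) (.c 2 (.c 1 (.c 1 (.l 436) .n) .n) .n)) (.c 4 (.c 0 (.c 2 (.c 1 (.l 272) .n) .n)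
  (.c 1 (.c 0 (.c 2 (.l 160) .n) .n) .n)) .n))))) (.c 1 (.c 0 (.c 4 (.c 2 (.l 688) .n) (.c 5 (.c
  0 (.c 1 (.l 424) .n) .n) .n)) (.c 1 (.c 2 (.c 3 (.l 436) .n) (.c 3 (.c 1 (.c 1 (.l 266) .n)
  .n) .n)) (.c 2 (.c 0 (.c 4 (.l 272) .n) (.c 1 (.c 2 (.c 1 (.l 164) .n) .n) (.c 2 (.c 0 (.c 2
  (.l 96) .n) .n) .n))) (.c 3 (.c 0 (.c 1 (.c 2 (.l 56) .n) .n) .n) .n)))) (.c 2 (.c 0 (.c 1 (.c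
  4 (.l 160) .n) (.c 2 (.c 2 (.c 1 (.l 96) .n) .n) (.c 3 (.c 0 (.c 2 (.l 56) .n) .n) .n))) (.c 1
  (.c 0 (.c 3 (.c 1 (.l 56) .n) .n) (.c 1 (.c 1 (.c 2 (.l 32) .n) .n) .n)) .n)) .n)))

noncomputable def t11_5 : Tr := (.c 0 (.c 0 (.c 3 (.c 3 (.l 132) .n) (.c 4 (.c 1 (.c 1 (.l 80)
  .n) .n) (.c 5 (.c 0 (.c 0 (.c 1 (.l 24) .n) .n) .n) .n))) (.c 1 (.c 1 (.c 4 (.l 80) .n) (.c 2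
  (.c 2 (.c 1 (.l 48) .n) .n) (.c 3 (.c 0 (.c 2 (.l 28) .n) (.c 1 (.c 0 (.c 1 (.l 14) .n) .n)
  .n)) .n))) (.c 2 (.c 0 (.c 3 (.c 1 (.l 28) .n) .n) (.c 1 (.c 1 (.c 2 (.l 16) .n) (.c 2 (.c 0
  (.c 1 (.l 8) .n) .n) .n)) (.c 2 (.c 0 (.c 1 (.c 1 (.l 4) .n) .n) .n) .n))) (.c 3 (.c 0 (.c 0
  (.c 3 (.l 4) .n) (.c 1 (.c 1 (.c 1 (.l 2) .n) .n) .n)) .n) .n)))) (.c 1 (.c 0 (.c 0 (.c 5 (.l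
  24) .n) (.c 1 (.c 3 (.c 1 (.l 14) .n) .n) (.c 2 (.c 1 (.c 2 (.l 8) .n) (.c 2 (.c 0 (.c 1 (.l
  4) .n) .n) .n)) (.c 3 (.c 0 (.c 1 (.c 1 (.l 2) .n) .n) .n) .n)))) (.c 1 (.c 0 (.c 2 (.c 2 (.l
  4) .n) (.c 3 (.c 0 (.c 1 (.l 2) .n) .n) .n)) (.c 1 (.c 0 (.c 3 (.l 2) .n) (.c 1 (.c 1 (.c 1
  (.l 1) .n) .n) .n)) .n)) .n)) .n))

noncomputable def t11_6 : Tr := (.c 0 (.c 0 (.c 0 (.c 5 (.l 24) .n) (.c 1 (.c 3 (.c 1 (.l 14)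
  .n) .n) (.c 2 (.c 1 (.c 2 (.l 8) .n) (.c 2 (.c 0 (.c 1 (.l 4) .n) .n) .n)) (.c 3 (.c 0 (.c 1
  (.c 1 (.l 2) .n) .n) .n) .n)))) (.c 1 (.c 0 (.c 2 (.c 2 (.l 4) .n) (.c 3 (.c 0 (.c 1 (.l 2)
  .n) .n) .n)) (.c 1 (.c 0 (.c 3 (.l 2) .n) (.c 1 (.c 1 (.c 1 (.l 1) .n) .n) .n)) .n)) .n)) .n)

noncomputable def t11_7 : Tr := (.c 0 (.c 0 (.c 0 (.c 2 (.c 2 (.l 4) .n) (.c 3 (.c 0 (.c 1 (.l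
  2) .n) .n) .n)) (.c 1 (.c 0 (.c 3 (.l 2) .n) (.c 1 (.c 1 (.c 1 (.l 1) .n) .n) .n)) .n)) .n)
  .n)

noncomputable def t11_8 : Tr := (.c 0 (.c 0 (.c 0 (.c 0 (.c 3 (.l 2) .n) (.c 1 (.c 1 (.c 1 (.l
  1) .n) .n) .n)) .n) .n) .n)

noncomputable def t11_9 : Tr := (.c 0 (.c 0 (.c 0 (.c 0 (.c 1 (.c 1 (.l 1) .n) .n) .n) .n) .n)
  .n)

noncomputable def t11_10 : Tr := (.c 0 (.c 0 (.c 0 (.c 0 (.c 0 (.c 1 (.l 1) .n) .n) .n) .n) .n)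
  .n)

noncomputable def t11_11 : Tr := (.l 1)

end MP_a3e05c_co.RTK
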