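import Pool.Agent.Lib.MP_a3e05c_co.RTK.Chk

/-!
# EULER: tables for regular tournaments with 13 vertices
-/

namespace MP_a3e05c_co.RTK

noncomputable def t13_0 : Tr := (.c 13 (.l 9307700611292160) .n)

noncomputable def t13_1 : Tr := (.c 6 (.c 6 (.l 10073269059840) .n) .n)

noncomputable def t13_2 : Tr := (.c 0 (.c 11 (.l 48251508480) .n) (.c 1 (.c 9 (.c 1 (.l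
  35659908480) .n) .n) (.c 2 (.c 7 (.c 2 (.l 26312345920) .n) .n) (.c 3 (.c 5 (.c 3 (.l
  19382885376) .n) .n) (.c 4 (.c 3 (.c 4 (.l 14253550336) .n) .n) (.c 5 (.c 1 (.c 5 (.l
  10462509760) .n) .n) .n))))))

noncomputable def t13_3 : Tr := (.c 0 (.c 5 (.c 5 (.l 191474240) .n) (.c 6 (.c 3 (.c 1 (.l
  137311360) .n) .n) (.c 7 (.c 1 (.c 2 (.l 98213920) .n) .n) .n))) (.c 1 (.c 3 (.c 6 (.l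
  137311360) .n) (.c 4 (.c 4 (.c 1 (.l 98254848) .n) .n) (.c 5 (.c 2 (.c 2 (.l 70116000) .n) .n)
  (.c 6 (.c 0 (.c 3 (.l 49889088) .n) .n) .n)))) (.c 2 (.c 1 (.c 7 (.l 98213920) .n) (.c 2 (.c 5
  (.c 1 (.l 70116000) .n) .n) (.c 3 (.c 3 (.c 2 (.l 49913232) .n) .n) (.c 4 (.c 1 (.c 3 (.l
  35421600) .n) .n) .n)))) (.c 3 (.c 0 (.c 6 (.c 1 (.l 49889088) .n) .n) (.c 1 (.c 4 (.c 2 (.l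
  35421600) .n) .n) (.c 2 (.c 2 (.c 3 (.l 25067088) .n) .n) (.c 3 (.c 0 (.c 4 (.l 17675712) .n)
  .n) .n)))) (.c 4 (.c 0 (.c 3 (.c 3 (.l 17675712) .n) .n) (.c 1 (.c 1 (.c 4 (.l 12422912) .n)
  .n) .n)) .n)))))

noncomputable def t13_4 : Tr := (.c 0 (.c 0 (.c 9 (.l 3230080) .n) (.c 1 (.c 7 (.c 1 (.l
  2265200) .n) .n) (.c 2 (.c 5 (.c 2 (.l 1583360) .n) (.c 6 (.c 0 (.c 1 (.l 1084320) .n) .n)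
  .n)) (.c 3 (.c 3 (.c 3 (.l 1102824) .n) (.c 4 (.c 1 (.c 1 (.l 752464) .n) .n) .n)) (.c 4 (.c 1
  (.c 4 (.l 765120) .n) (.c 2 (.c 2 (.c 1 (.l 519968) .n) .n) (.c 3 (.c 0 (.c 2 (.l 351168) .n)
  .n) .n))) (.c 5 (.c 0 (.c 3 (.c 1 (.l 357600) .n) .n) (.c 1 (.c 1 (.c 2 (.l 240320) .n) .n)
  .n)) (.c 6 (.c 0 (.c 0 (.c 3 (.l 108288) .n) .n) .n) .n))))))) (.c 1 (.c 0 (.c 6 (.c 2 (.l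
  1084320) .n) (.c 7 (.c 0 (.c 1 (.l 740880) .n) .n) .n)) (.c 1 (.c 4 (.c 3 (.l 752464) .n) (.c
  5 (.c 1 (.c 1 (.l 512184) .n) .n) .n)) (.c 2 (.c 2 (.c 4 (.l 519968) .n) (.c 3 (.c 2 (.c 1 (.l
  352472) .n) .n) (.c 4 (.c 0 (.c 2 (.l 237408) .n) .n) .n))) (.c 3 (.c 0 (.c 5 (.l 357600) .n)
  (.c 1 (.c 3 (.c 1 (.l 241312) .n) .n) (.c 2 (.c 1 (.c 2 (.l 161704) .n) .n) .n))) (.c 4 (.c 0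
  (.c 2 (.c 2 (.l 109408) .n) .n) (.c 1 (.c 0 (.c 3 (.l 72224) .n) .n) .n)) .n))))) (.c 2 (.c 0
  (.c 3 (.c 4 (.l 351168) .n) (.c 4 (.c 2 (.c 1 (.l 237408) .n) .n) (.c 5 (.c 0 (.c 2 (.l
  159456) .n) .n) .n))) (.c 1 (.c 1 (.c 5 (.l 240320) .n) (.c 2 (.c 3 (.c 1 (.l 161704) .n) .n)
  (.c 3 (.c 1 (.c 2 (.l 108032) .n) .n) .n))) (.c 2 (.c 0 (.c 4 (.c 1 (.l 109408) .n) .n) (.c 1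
  (.c 2 (.c 2 (.l 72656) .n) .n) (.c 2 (.c 0 (.c 3 (.l 47792) .n) .n) .n))) (.c 3 (.c 0 (.c 1
  (.c 3 (.l 31584) .n) .n) .n) .n)))) (.c 3 (.c 0 (.c 0 (.c 6 (.l 108288) .n) (.c 1 (.c 4 (.c 1
  (.l 72224) .n) .n) (.c 2 (.c 2 (.c 2 (.l 47792) .n) .n) (.c 3 (.c 0 (.c 3 (.l 31320) .n) .n)
  .n)))) (.c 1 (.c 0 (.c 3 (.c 2 (.l 31584) .n) .n) (.c 1 (.c 1 (.c 3 (.l 20520) .n) .n) .n))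
  .n)) .n))))

noncomputable def t13_5 : Tr := (.c 0 (.c 0 (.c 4 (.c 4 (.l 46144) .n) (.c 5 (.c 2 (.c 1 (.l
  30960) .n) .n) (.c 6 (.c 0 (.c 2 (.l 20640) .n) (.c 1 (.c 0 (.c 1 (.l 12960) .n) .n) .n))
  .n))) (.c 1 (.c 2 (.c 5 (.l 30960) .n) (.c 3 (.c 3 (.c 1 (.l 20676) .n) .n) (.c 4 (.c 1 (.c 2
  (.l 13712) .n) (.c 2 (.c 0 (.c 1 (.l 8576) .n) .n) .n)) (.c 5 (.c 0 (.c 1 (.c 1 (.l 5584) .n)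
  .n) .n) .n)))) (.c 2 (.c 0 (.c 6 (.l 20640) .n) (.c 1 (.c 4 (.c 1 (.l 13712) .n) .n) (.c 2 (.c
  2 (.c 2 (.l 9040) .n) (.c 3 (.c 0 (.c 1 (.l 5632) .n) .n) .n)) (.c 3 (.c 0 (.c 3 (.l 5904) .n)
  (.c 1 (.c 1 (.c 1 (.l 3640) .n) .n) .n)) (.c 4 (.c 0 (.c 0 (.c 2 (.l 1376) .n) .n) .n) .n)))))
  (.c 3 (.c 0 (.c 3 (.c 2 (.l 5904) .n) (.c 4 (.c 0 (.c 1 (.l 3664) .n) .n) .n)) (.c 1 (.c 1 (.c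
  3 (.l 3824) .n) (.c 2 (.c 1 (.c 1 (.l 2348) .n) .n) .n)) (.c 2 (.c 0 (.c 2 (.c 1 (.l 1480) .n)
  .n) (.c 1 (.c 0 (.c 2 (.l 872) .n) .n) .n)) .n))) (.c 4 (.c 0 (.c 0 (.c 4 (.l 1536) .n) (.c 1
  (.c 2 (.c 1 (.l 928) .n) .n) (.c 2 (.c 0 (.c 2 (.l 544) .n) .n) .n))) (.c 1 (.c 0 (.c 1 (.c 2
  (.l 320) .n) .n) .n) .n)) .n))))) (.c 1 (.c 0 (.c 1 (.c 6 (.l 12960) .n) (.c 2 (.c 4 (.c 1 (.l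
  8576) .n) .n) (.c 3 (.c 2 (.c 2 (.l 5632) .n) (.c 3 (.c 0 (.c 1 (.l 3504) .n) .n) .n)) (.c 4
  (.c 0 (.c 3 (.l 3664) .n) (.c 1 (.c 1 (.c 1 (.l 2256) .n) .n) .n)) (.c 5 (.c 0 (.c 0 (.c 2 (.l
  848) .n) .n) .n) .n))))) (.c 1 (.c 0 (.c 5 (.c 1 (.l 5584) .n) .n) (.c 1 (.c 3 (.c 2 (.l 3640)
  .n) (.c 4 (.c 0 (.c 1 (.l 2256) .n) .n) .n)) (.c 2 (.c 1 (.c 3 (.l 2348) .n) (.c 2 (.c 1 (.c 1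
  (.l 1440) .n) .n) .n)) (.c 3 (.c 0 (.c 2 (.c 1 (.l 904) .n) .n) (.c 1 (.c 0 (.c 2 (.l 532) .n)
  .n) .n)) .n)))) (.c 2 (.c 0 (.c 2 (.c 3 (.l 1480) .n) (.c 3 (.c 1 (.c 1 (.l 904) .n) .n) .n))
  (.c 1 (.c 0 (.c 4 (.l 928) .n) (.c 1 (.c 2 (.c 1 (.l 560) .n) .n) (.c 2 (.c 0 (.c 2 (.l 328)
  .n) .n) .n))) (.c 2 (.c 0 (.c 1 (.c 2 (.l 192) .n) .n) .n) .n))) (.c 3 (.c 0 (.c 0 (.c 3 (.c 1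
  (.l 196) .n) .n) (.c 1 (.c 1 (.c 2 (.l 112) .n) .n) .n)) .n) .n)))) (.c 2 (.c 0 (.c 0 (.c 4
  (.c 2 (.l 1376) .n) (.c 5 (.c 0 (.c 1 (.l 848) .n) .n) .n)) (.c 1 (.c 2 (.c 3 (.l 872) .n) (.c
  3 (.c 1 (.c 1 (.l 532) .n) .n) .n)) (.c 2 (.c 0 (.c 4 (.l 544) .n) (.c 1 (.c 2 (.c 1 (.l 328)
  .n) .n) (.c 2 (.c 0 (.c 2 (.l 192) .n) .n) .n))) (.c 3 (.c 0 (.c 1 (.c 2 (.l 112) .n) .n) .n)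
  .n)))) (.c 1 (.c 0 (.c 1 (.c 4 (.l 320) .n) (.c 2 (.c 2 (.c 1 (.l 192) .n) .n) (.c 3 (.c 0 (.c
  2 (.l 112) .n) .n) .n))) (.c 1 (.c 0 (.c 3 (.c 1 (.l 112) .n) .n) (.c 1 (.c 1 (.c 2 (.l 64)
  .n) .n) .n)) .n)) .n)) (.c 3 (.c 0 (.c 0 (.c 0 (.c 5 (.l 48) .n) .n) .n) .n) .n))))

noncomputable def t13_6 : Tr := (.c 0 (.c 0 (.c 0 (.c 7 (.l 2640) .n) (.c 1 (.c 5 (.c 1 (.l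
  1720) .n) .n) (.c 2 (.c 3 (.c 2 (.l 1112) .n) (.c 4 (.c 0 (.c 1 (.l 688) .n) .n) .n)) (.c 3
  (.c 1 (.c 3 (.l 712) .n) (.c 2 (.c 1 (.c 1 (.l 436) .n) .n) (.c 3 (.c 0 (.c 0 (.c 1 (.l 132)
  .n) .n) .n) .n))) (.c 4 (.c 0 (.c 2 (.c 1 (.l 272) .n) .n) (.c 1 (.c 0 (.c 2 (.l 160) .n) (.c
  1 (.c 0 (.c 1 (.l 80) .n) .n) .n)) .n)) (.c 5 (.c 0 (.c 0 (.c 1 (.c 1 (.l 24) .n) .n) .n) .n)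
  .n)))))) (.c 1 (.c 0 (.c 4 (.c 2 (.l 688) .n) (.c 5 (.c 0 (.c 1 (.l 424) .n) .n) .n)) (.c 1
  (.c 2 (.c 3 (.l 436) .n) (.c 3 (.c 1 (.c 1 (.l 266) .n) .n) (.c 4 (.c 0 (.c 0 (.c 1 (.l 80)
  .n) .n) .n) .n))) (.c 2 (.c 0 (.c 4 (.l 272) .n) (.c 1 (.c 2 (.c 1 (.l 164) .n) .n) (.c 2 (.c
  0 (.c 2 (.l 96) .n) (.c 1 (.c 0 (.c 1 (.l 48) .n) .n) .n)) .n))) (.c 3 (.c 0 (.c 1 (.c 2 (.l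
  56) .n) (.c 2 (.c 0 (.c 1 (.l 28) .n) .n) .n)) (.c 1 (.c 0 (.c 1 (.c 1 (.l 14) .n) .n) .n)
  .n)) .n)))) (.c 2 (.c 0 (.c 1 (.c 4 (.l 160) .n) (.c 2 (.c 2 (.c 1 (.l 96) .n) .n) (.c 3 (.c 0
  (.c 2 (.l 56) .n) (.c 1 (.c 0 (.c 1 (.l 28) .n) .n) .n)) .n))) (.c 1 (.c 0 (.c 3 (.c 1 (.l 56)
  .n) .n) (.c 1 (.c 1 (.c 2 (.l 32) .n) (.c 2 (.c 0 (.c 1 (.l 16) .n) .n) .n)) (.c 2 (.c 0 (.c 1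
  (.c 1 (.l 8) .n) .n) .n) .n))) (.c 2 (.c 0 (.c 0 (.c 3 (.l 8) .n) (.c 1 (.c 1 (.c 1 (.l 4) .n)
  .n) .n)) .n) .n))) (.c 3 (.c 0 (.c 0 (.c 2 (.c 2 (.l 8) .n) (.c 3 (.c 0 (.c 1 (.l 4) .n) .n)
  .n)) (.c 1 (.c 0 (.c 3 (.l 4) .n) (.c 1 (.c 1 (.c 1 (.l 2) .n) .n) .n)) .n)) .n) .n)))) (.c 1
  (.c 0 (.c 0 (.c 3 (.c 3 (.l 132) .n) (.c 4 (.c 1 (.c 1 (.l 80) .n) .n) (.c 5 (.c 0 (.c 0 (.c 1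
  (.l 24) .n) .n) .n) .n))) (.c 1 (.c 1 (.c 4 (.l 80) .n) (.c 2 (.c 2 (.c 1 (.l 48) .n) .n) (.c
  3 (.c 0 (.c 2 (.l 28) .n) (.c 1 (.c 0 (.c 1 (.l 14) .n) .n) .n)) .n))) (.c 2 (.c 0 (.c 3 (.c 1
  (.l 28) .n) .n) (.c 1 (.c 1 (.c 2 (.l 16) .n) (.c 2 (.c 0 (.c 1 (.l 8) .n) .n) .n)) (.c 2 (.c
  0 (.c 1 (.c 1 (.l 4) .n) .n) .n) .n))) (.c 3 (.c 0 (.c 0 (.c 3 (.l 4) .n) (.c 1 (.c 1 (.c 1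
  (.l 2) .n) .n) .n)) .n) .n)))) (.c 1 (.c 0 (.c 0 (.c 5 (.l 24) .n) (.c 1 (.c 3 (.c 1 (.l 14)
  .n) .n) (.c 2 (.c 1 (.c 2 (.l 8) .n) (.c 2 (.c 0 (.c 1 (.l 4) .n) .n) .n)) (.c 3 (.c 0 (.c 1
  (.c 1 (.l 2) .n) .n) .n) .n)))) (.c 1 (.c 0 (.c 2 (.c 2 (.l 4) .n) (.c 3 (.c 0 (.c 1 (.l 2)
  .n) .n) .n)) (.c 1 (.c 0 (.c 3 (.l 2) .n) (.c 1 (.c 1 (.c 1 (.l 1) .n) .n) .n)) .n)) .n)) .n))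
  .n))

noncomputable def t13_7 : Tr := (.c 0 (.c 0 (.c 0 (.c 3 (.c 3 (.l 132) .n) (.c 4 (.c 1 (.c 1 (.l
  80) .n) .n) (.c 5 (.c 0 (.c 0 (.c 1 (.l 24) .n) .n) .n) .n))) (.c 1 (.c 1 (.c 4 (.l 80) .n)
  (.c 2 (.c 2 (.c 1 (.l 48) .n) .n) (.c 3 (.c 0 (.c 2 (.l 28) .n) (.c 1 (.c 0 (.c 1 (.l 14) .n)
  .n) .n)) .n))) (.c 2 (.c 0 (.c 3 (.c 1 (.l 28) .n) .n) (.c 1 (.c 1 (.c 2 (.l 16) .n) (.c 2 (.c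
  0 (.c 1 (.l 8) .n) .n) .n)) (.c 2 (.c 0 (.c 1 (.c 1 (.l 4) .n) .n) .n) .n))) (.c 3 (.c 0 (.c 0
  (.c 3 (.l 4) .n) (.c 1 (.c 1 (.c 1 (.l 2) .n) .n) .n)) .n) .n)))) (.c 1 (.c 0 (.c 0 (.c 5 (.l
  24) .n) (.c 1 (.c 3 (.c 1 (.l 14) .n) .n) (.c 2 (.c 1 (.c 2 (.l 8) .n) (.c 2 (.c 0 (.c 1 (.l
  4) .n) .n) .n)) (.c 3 (.c 0 (.c 1 (.c 1 (.l 2) .n) .n) .n) .n)))) (.c 1 (.c 0 (.c 2 (.c 2 (.l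
  4) .n) (.c 3 (.c 0 (.c 1 (.l 2) .n) .n) .n)) (.c 1 (.c 0 (.c 3 (.l 2) .n) (.c 1 (.c 1 (.c 1
  (.l 1) .n) .n) .n)) .n)) .n)) .n)) .n)

noncomputable def t13_8 : Tr := (.c 0 (.c 0 (.c 0 (.c 0 (.c 5 (.l 24) .n) (.c 1 (.c 3 (.c 1 (.l
  14) .n) .n) (.c 2 (.c 1 (.c 2 (.l 8) .n) (.c 2 (.c 0 (.c 1 (.l 4) .n) .n) .n)) (.c 3 (.c 0 (.c
  1 (.c 1 (.l 2) .n) .n) .n) .n)))) (.c 1 (.c 0 (.c 2 (.c 2 (.l 4) .n) (.c 3 (.c 0 (.c 1 (.l 2)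
  .n) .n) .n)) (.c 1 (.c 0 (.c 3 (.l 2) .n) (.c 1 (.c 1 (.c 1 (.l 1) .n) .n) .n)) .n)) .n)) .n)
  .n)

noncomputable def t13_9 : Tr := (.c 0 (.c 0 (.c 0 (.c 0 (.c 2 (.c 2 (.l 4) .n) (.c 3 (.c 0 (.c 1
  (.l 2) .n) .n) .n)) (.c 1 (.c 0 (.c 3 (.l 2) .n) (.c 1 (.c 1 (.c 1 (.l 1) .n) .n) .n)) .n))
  .n) .n) .n)

noncomputable def t13_10 : Tr := (.c 0 (.c 0 (.c 0 (.c 0 (.c 0 (.c 3 (.l 2) .n) (.c 1 (.c 1 (.c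
  1 (.l 1) .n) .n) .n)) .n) .n) .n) .n)

noncomputable def t13_11 : Tr := (.c 0 (.c 0 (.c 0 (.c 0 (.c 0 (.c 1 (.c 1 (.l 1) .n) .n) .n)
  .n) .n) .n) .n)

noncomputable def t13_12 : Tr := (.c 0 (.c 0 (.c 0 (.c 0 (.c 0 (.c 0 (.c 1 (.l 1) .n) .n) .n)
  .n) .n) .n) .n)

noncomputable def t13_13 : Tr := (.l 1)

end MP_a3e05c_co.RTK
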