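import Pool.Agent.Lib.MP_a3e05c_co.RTK.Chk

/-!
# EULER: tables for regular tournaments with 15 vertices
-/

namespace MP_a3e05c_co.RTK

noncomputable def t15_0 : Tr := (.c 15 (.l 24061983498249428379648) .n)

noncomputable def t15_1 : Tr := (.c 7 (.c 7 (.l 7011067452869880064) .n) .n)

noncomputable def t15_2 : Tr := (.c 0 (.c 13 (.l 9307700611292160) .n) (.c 1 (.c 11 (.c 1 (.l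
  7153456011905280) .n) .n) (.c 2 (.c 9 (.c 2 (.l 5493083445556224) .n) .n) (.c 3 (.c 7 (.c 3
  (.l 4214380416738240) .n) .n) (.c 4 (.c 5 (.c 4 (.l 3230415965066240) .n) .n) (.c 5 (.c 3 (.c
  5 (.l 2473885814056192) .n) .n) (.c 6 (.c 1 (.c 6 (.l 1892718351533056) .n) .n) .n)))))))

noncomputable def t15_3 : Tr := (.c 0 (.c 6 (.c 6 (.l 10073269059840) .n) (.c 7 (.c 4 (.c 1 (.l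
  7574562746240) .n) .n) (.c 8 (.c 2 (.c 2 (.l 5688424440832) .n) .n) (.c 9 (.c 0 (.c 3 (.l
  4266318330624) .n) .n) .n)))) (.c 1 (.c 4 (.c 7 (.l 7574562746240) .n) (.c 5 (.c 5 (.c 1 (.l
  5689189902400) .n) .n) (.c 6 (.c 3 (.c 2 (.l 4267511444608) .n) .n) (.c 7 (.c 1 (.c 3 (.l
  3196749970400) .n) .n) .n)))) (.c 2 (.c 2 (.c 8 (.l 5688424440832) .n) (.c 3 (.c 6 (.c 1 (.l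
  4267511444608) .n) .n) (.c 4 (.c 4 (.c 2 (.l 3197215017984) .n) .n) (.c 5 (.c 2 (.c 3 (.l
  2391995707904) .n) .n) (.c 6 (.c 0 (.c 4 (.l 1786961582848) .n) .n) .n))))) (.c 3 (.c 0 (.c 9
  (.l 4266318330624) .n) (.c 1 (.c 7 (.c 1 (.l 3196749970400) .n) .n) (.c 2 (.c 5 (.c 2 (.l
  2391995707904) .n) .n) (.c 3 (.c 3 (.c 3 (.l 1787244174480) .n) .n) (.c 4 (.c 1 (.c 4 (.l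
  1333374989184) .n) .n) .n))))) (.c 4 (.c 0 (.c 6 (.c 2 (.l 1786961582848) .n) .n) (.c 1 (.c 4
  (.c 3 (.l 1333374989184) .n) .n) (.c 2 (.c 2 (.c 4 (.l 993370548224) .n) .n) (.c 3 (.c 0 (.c 5
  (.l 738857086080) .n) .n) .n)))) (.c 5 (.c 0 (.c 3 (.c 4 (.l 738857086080) .n) .n) (.c 1 (.c 1
  (.c 5 (.l 548715814656) .n) .n) .n)) .n))))))

noncomputable def t15_4 : Tr := (.c 0 (.c 0 (.c 11 (.l 48251508480) .n) (.c 1 (.c 9 (.c 1 (.l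
  35659908480) .n) .n) (.c 2 (.c 7 (.c 2 (.l 26312345920) .n) (.c 8 (.c 0 (.c 1 (.l 19197704960)
  .n) .n) .n)) (.c 3 (.c 5 (.c 3 (.l 19382885376) .n) (.c 6 (.c 1 (.c 1 (.l 14118032288) .n) .n)
  .n)) (.c 4 (.c 3 (.c 4 (.l 14253550336) .n) (.c 4 (.c 2 (.c 1 (.l 10363669504) .n) .n) (.c 5
  (.c 0 (.c 2 (.l 7517813120) .n) .n) .n))) (.c 5 (.c 1 (.c 5 (.l 10462509760) .n) (.c 2 (.c 3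
  (.c 1 (.l 7593232160) .n) .n) (.c 3 (.c 1 (.c 2 (.l 5497444800) .n) .n) .n))) (.c 6 (.c 0 (.c
  4 (.c 1 (.l 5552231680) .n) .n) (.c 1 (.c 2 (.c 2 (.l 4011579456) .n) .n) (.c 2 (.c 0 (.c 3
  (.l 2890550976) .n) .n) .n))) (.c 7 (.c 0 (.c 1 (.c 3 (.l 2099748672) .n) .n) .n) .n))))))))
  (.c 1 (.c 0 (.c 8 (.c 2 (.l 19197704960) .n) (.c 9 (.c 0 (.c 1 (.l 13989118080) .n) .n) .n))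
  (.c 1 (.c 6 (.c 3 (.l 14118032288) .n) (.c 7 (.c 1 (.c 1 (.l 10269804048) .n) .n) .n)) (.c 2
  (.c 4 (.c 4 (.l 10363669504) .n) (.c 5 (.c 2 (.c 1 (.l 7525157184) .n) .n) (.c 6 (.c 0 (.c 2
  (.l 5451108032) .n) .n) .n))) (.c 3 (.c 2 (.c 5 (.l 7593232160) .n) (.c 3 (.c 3 (.c 1 (.l
  5503086136) .n) .n) (.c 4 (.c 1 (.c 2 (.l 3978389984) .n) .n) .n))) (.c 4 (.c 0 (.c 6 (.l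
  5552231680) .n) (.c 1 (.c 4 (.c 1 (.l 4015912704) .n) .n) (.c 2 (.c 2 (.c 2 (.l 2897156288)
  .n) .n) (.c 3 (.c 0 (.c 3 (.l 2084249376) .n) .n) .n)))) (.c 5 (.c 0 (.c 3 (.c 2 (.l
  2104822240) .n) .n) (.c 1 (.c 1 (.c 3 (.l 1510652416) .n) .n) .n)) (.c 6 (.c 0 (.c 0 (.c 4 (.l
  779134080) .n) .n) .n) .n))))))) (.c 2 (.c 0 (.c 5 (.c 4 (.l 7517813120) .n) (.c 6 (.c 2 (.c 1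
  (.l 5451108032) .n) .n) (.c 7 (.c 0 (.c 2 (.l 3942979712) .n) .n) .n))) (.c 1 (.c 3 (.c 5 (.l
  5497444800) .n) (.c 4 (.c 3 (.c 1 (.l 3978389984) .n) .n) (.c 5 (.c 1 (.c 2 (.l 2871790912)
  .n) .n) .n))) (.c 2 (.c 1 (.c 6 (.l 4011579456) .n) (.c 2 (.c 4 (.c 1 (.l 2897156288) .n) .n)
  (.c 3 (.c 2 (.c 2 (.l 2086772160) .n) .n) (.c 4 (.c 0 (.c 3 (.l 1498788864) .n) .n) .n)))) (.c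
  3 (.c 0 (.c 5 (.c 1 (.l 2104822240) .n) .n) (.c 1 (.c 3 (.c 2 (.l 1512591968) .n) .n) (.c 2
  (.c 1 (.c 3 (.l 1083735296) .n) .n) .n))) (.c 4 (.c 0 (.c 2 (.c 3 (.l 781408832) .n) .n) (.c 1
  (.c 0 (.c 4 (.l 556471040) .n) .n) .n)) .n))))) (.c 3 (.c 0 (.c 2 (.c 6 (.l 2890550976) .n)
  (.c 3 (.c 4 (.c 1 (.l 2084249376) .n) .n) (.c 4 (.c 2 (.c 2 (.l 1498788864) .n) .n) (.c 5 (.c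
  0 (.c 3 (.l 1074645888) .n) .n) .n)))) (.c 1 (.c 0 (.c 7 (.l 2099748672) .n) (.c 1 (.c 5 (.c 1
  (.l 1510652416) .n) .n) (.c 2 (.c 3 (.c 2 (.l 1083735296) .n) .n) (.c 3 (.c 1 (.c 3 (.l
  775079072) .n) .n) .n)))) (.c 2 (.c 0 (.c 4 (.c 2 (.l 781408832) .n) .n) (.c 1 (.c 2 (.c 3 (.l
  557343680) .n) .n) (.c 2 (.c 0 (.c 4 (.l 396117760) .n) .n) .n))) (.c 3 (.c 0 (.c 1 (.c 4 (.l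
  283008896) .n) .n) .n) .n)))) (.c 4 (.c 0 (.c 0 (.c 6 (.c 1 (.l 779134080) .n) .n) (.c 1 (.c 4
  (.c 2 (.l 556471040) .n) .n) (.c 2 (.c 2 (.c 3 (.l 396117760) .n) .n) (.c 3 (.c 0 (.c 4 (.l
  280945664) .n) .n) .n)))) (.c 1 (.c 0 (.c 3 (.c 3 (.l 283008896) .n) .n) (.c 1 (.c 1 (.c 4 (.l
  200061440) .n) .n) .n)) .n)) .n)))))

noncomputable def t15_5 : Tr := (.c 0 (.c 0 (.c 5 (.c 5 (.l 191474240) .n) (.c 6 (.c 3 (.c 1 (.l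
  137311360) .n) .n) (.c 7 (.c 1 (.c 2 (.l 98213920) .n) (.c 2 (.c 0 (.c 1 (.l 68193440) .n) .n)
  .n)) (.c 8 (.c 0 (.c 1 (.c 1 (.l 48482560) .n) .n) .n) .n)))) (.c 1 (.c 3 (.c 6 (.l 137311360)
  .n) (.c 4 (.c 4 (.c 1 (.l 98254848) .n) .n) (.c 5 (.c 2 (.c 2 (.l 70116000) .n) (.c 3 (.c 0
  (.c 1 (.l 48589520) .n) .n) .n)) (.c 6 (.c 0 (.c 3 (.l 49889088) .n) (.c 1 (.c 1 (.c 1 (.l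
  34456544) .n) .n) .n)) (.c 7 (.c 0 (.c 0 (.c 2 (.l 16662240) .n) .n) .n) .n))))) (.c 2 (.c 1
  (.c 7 (.l 98213920) .n) (.c 2 (.c 5 (.c 1 (.l 70116000) .n) .n) (.c 3 (.c 3 (.c 2 (.l
  49913232) .n) (.c 4 (.c 0 (.c 1 (.l 34520096) .n) .n) .n)) (.c 4 (.c 1 (.c 3 (.l 35421600) .n)
  (.c 2 (.c 1 (.c 1 (.l 24412704) .n) .n) .n)) (.c 5 (.c 0 (.c 2 (.c 1 (.l 17201952) .n) .n) (.c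
  1 (.c 0 (.c 2 (.l 11742016) .n) .n) .n)) .n))))) (.c 3 (.c 0 (.c 6 (.c 1 (.l 49889088) .n) .n)
  (.c 1 (.c 4 (.c 2 (.l 35421600) .n) (.c 5 (.c 0 (.c 1 (.l 24447120) .n) .n) .n)) (.c 2 (.c 2
  (.c 3 (.l 25067088) .n) (.c 3 (.c 1 (.c 1 (.l 17238648) .n) .n) .n)) (.c 3 (.c 0 (.c 4 (.l
  17675712) .n) (.c 1 (.c 2 (.c 1 (.l 12108512) .n) .n) (.c 2 (.c 0 (.c 2 (.l 8244496) .n) .n)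
  .n))) (.c 4 (.c 0 (.c 1 (.c 2 (.l 5738720) .n) .n) .n) .n))))) (.c 4 (.c 0 (.c 3 (.c 3 (.l
  17675712) .n) (.c 4 (.c 1 (.c 1 (.l 12128128) .n) .n) .n)) (.c 1 (.c 1 (.c 4 (.l 12422912) .n)
  (.c 2 (.c 2 (.c 1 (.l 8489696) .n) .n) (.c 3 (.c 0 (.c 2 (.l 5765504) .n) .n) .n))) (.c 2 (.c
  0 (.c 3 (.c 1 (.l 5915104) .n) .n) (.c 1 (.c 1 (.c 2 (.l 3997184) .n) .n) .n)) (.c 3 (.c 0 (.c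
  0 (.c 3 (.l 1835328) .n) .n) .n) .n)))) (.c 5 (.c 0 (.c 0 (.c 5 (.l 6059520) .n) (.c 1 (.c 3
  (.c 1 (.l 4111840) .n) .n) (.c 2 (.c 1 (.c 2 (.l 2770560) .n) .n) .n))) (.c 1 (.c 0 (.c 2 (.c
  2 (.l 1900096) .n) .n) (.c 1 (.c 0 (.c 3 (.l 1261248) .n) .n) .n)) .n)) (.c 6 (.c 0 (.c 0 (.c
  1 (.c 3 (.l 577536) .n) .n) .n) .n) .n))))))) (.c 1 (.c 0 (.c 2 (.c 7 (.l 68193440) .n) (.c 3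
  (.c 5 (.c 1 (.l 48589520) .n) .n) (.c 4 (.c 3 (.c 2 (.l 34520096) .n) (.c 4 (.c 0 (.c 1 (.l
  23846464) .n) .n) .n)) (.c 5 (.c 1 (.c 3 (.l 24447120) .n) (.c 2 (.c 1 (.c 1 (.l 16829040) .n)
  .n) .n)) (.c 6 (.c 0 (.c 2 (.c 1 (.l 11832576) .n) .n) (.c 1 (.c 0 (.c 2 (.l 8066688) .n) .n)
  .n)) .n))))) (.c 1 (.c 0 (.c 8 (.l 48482560) .n) (.c 1 (.c 6 (.c 1 (.l 34456544) .n) .n) (.c 2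
  (.c 4 (.c 2 (.l 24412704) .n) (.c 5 (.c 0 (.c 1 (.l 16829040) .n) .n) .n)) (.c 3 (.c 2 (.c 3
  (.l 17238648) .n) (.c 3 (.c 1 (.c 1 (.l 11840644) .n) .n) .n)) (.c 4 (.c 0 (.c 4 (.l 12128128)
  .n) (.c 1 (.c 2 (.c 1 (.l 8297888) .n) .n) (.c 2 (.c 0 (.c 2 (.l 5642656) .n) .n) .n))) (.c 5
  (.c 0 (.c 1 (.c 2 (.l 3918096) .n) .n) .n) .n)))))) (.c 2 (.c 0 (.c 5 (.c 2 (.l 17201952) .n)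
  (.c 6 (.c 0 (.c 1 (.l 11832576) .n) .n) .n)) (.c 1 (.c 3 (.c 3 (.l 12108512) .n) (.c 4 (.c 1
  (.c 1 (.l 8297888) .n) .n) .n)) (.c 2 (.c 1 (.c 4 (.l 8489696) .n) (.c 2 (.c 2 (.c 1 (.l
  5794400) .n) .n) (.c 3 (.c 0 (.c 2 (.l 3929952) .n) .n) .n))) (.c 3 (.c 0 (.c 3 (.c 1 (.l
  4026920) .n) .n) (.c 1 (.c 1 (.c 2 (.l 2717568) .n) .n) .n)) (.c 4 (.c 0 (.c 0 (.c 3 (.l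
  1242496) .n) .n) .n) .n))))) (.c 3 (.c 0 (.c 2 (.c 4 (.l 5915104) .n) (.c 3 (.c 2 (.c 1 (.l
  4026920) .n) .n) (.c 4 (.c 0 (.c 2 (.l 2723776) .n) .n) .n))) (.c 1 (.c 0 (.c 5 (.l 4111840)
  .n) (.c 1 (.c 3 (.c 1 (.l 2786432) .n) .n) (.c 2 (.c 1 (.c 2 (.l 1874928) .n) .n) .n))) (.c 2
  (.c 0 (.c 2 (.c 2 (.l 1282064) .n) .n) (.c 1 (.c 0 (.c 3 (.l 849744) .n) .n) .n)) .n))) (.c 4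
  (.c 0 (.c 0 (.c 4 (.c 1 (.l 1310784) .n) .n) (.c 1 (.c 2 (.c 2 (.l 873984) .n) .n) (.c 2 (.c 0
  (.c 3 (.l 577152) .n) .n) .n))) (.c 1 (.c 0 (.c 1 (.c 3 (.l 385600) .n) .n) .n) .n)) .n)))))
  (.c 2 (.c 0 (.c 0 (.c 7 (.c 1 (.l 16662240) .n) .n) (.c 1 (.c 5 (.c 2 (.l 11742016) .n) (.c 6
  (.c 0 (.c 1 (.l 8066688) .n) .n) .n)) (.c 2 (.c 3 (.c 3 (.l 8244496) .n) (.c 4 (.c 1 (.c 1 (.l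
  5642656) .n) .n) .n)) (.c 3 (.c 1 (.c 4 (.l 5765504) .n) (.c 2 (.c 2 (.c 1 (.l 3929952) .n)
  .n) (.c 3 (.c 0 (.c 2 (.l 2661888) .n) .n) .n))) (.c 4 (.c 0 (.c 3 (.c 1 (.l 2723776) .n) .n)
  (.c 1 (.c 1 (.c 2 (.l 1835648) .n) .n) .n)) (.c 5 (.c 0 (.c 0 (.c 3 (.l 835616) .n) .n) .n)
  .n)))))) (.c 1 (.c 0 (.c 4 (.c 3 (.l 5738720) .n) (.c 5 (.c 1 (.c 1 (.l 3918096) .n) .n) .n))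
  (.c 1 (.c 2 (.c 4 (.l 3997184) .n) (.c 3 (.c 2 (.c 1 (.l 2717568) .n) .n) (.c 4 (.c 0 (.c 2
  (.l 1835648) .n) .n) .n))) (.c 2 (.c 0 (.c 5 (.l 2770560) .n) (.c 1 (.c 3 (.c 1 (.l 1874928)
  .n) .n) (.c 2 (.c 1 (.c 2 (.l 1259856) .n) .n) .n))) (.c 3 (.c 0 (.c 2 (.c 2 (.l 858816) .n)
  .n) (.c 1 (.c 0 (.c 3 (.l 568384) .n) .n) .n)) .n)))) (.c 2 (.c 0 (.c 1 (.c 5 (.l 1900096) .n)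
  (.c 2 (.c 3 (.c 1 (.l 1282064) .n) .n) (.c 3 (.c 1 (.c 2 (.l 858816) .n) .n) .n))) (.c 1 (.c 0
  (.c 4 (.c 1 (.l 873984) .n) .n) (.c 1 (.c 2 (.c 2 (.l 581888) .n) .n) (.c 2 (.c 0 (.c 3 (.l
  383696) .n) .n) .n))) (.c 2 (.c 0 (.c 1 (.c 3 (.l 255408) .n) .n) .n) .n))) (.c 3 (.c 0 (.c 0
  (.c 3 (.c 2 (.l 260032) .n) .n) (.c 1 (.c 1 (.c 3 (.l 169328) .n) .n) .n)) .n) .n)))) (.c 3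
  (.c 0 (.c 0 (.c 3 (.c 4 (.l 1835328) .n) (.c 4 (.c 2 (.c 1 (.l 1242496) .n) .n) (.c 5 (.c 0
  (.c 2 (.l 835616) .n) .n) .n))) (.c 1 (.c 1 (.c 5 (.l 1261248) .n) (.c 2 (.c 3 (.c 1 (.l
  849744) .n) .n) (.c 3 (.c 1 (.c 2 (.l 568384) .n) .n) .n))) (.c 2 (.c 0 (.c 4 (.c 1 (.l
  577152) .n) .n) (.c 1 (.c 2 (.c 2 (.l 383696) .n) .n) (.c 2 (.c 0 (.c 3 (.l 252640) .n) .n)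
  .n))) (.c 3 (.c 0 (.c 1 (.c 3 (.l 167528) .n) .n) .n) .n)))) (.c 1 (.c 0 (.c 0 (.c 6 (.l
  577536) .n) (.c 1 (.c 4 (.c 1 (.l 385600) .n) .n) (.c 2 (.c 2 (.c 2 (.l 255408) .n) .n) (.c 3
  (.c 0 (.c 3 (.l 167528) .n) .n) .n)))) (.c 1 (.c 0 (.c 3 (.c 2 (.l 169328) .n) .n) (.c 1 (.c 1
  (.c 3 (.l 110096) .n) .n) .n)) .n)) .n)) .n))))

noncomputable def t15_6 : Tr := (.c 0 (.c 0 (.c 0 (.c 9 (.l 3230080) .n) (.c 1 (.c 7 (.c 1 (.l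
  2265200) .n) .n) (.c 2 (.c 5 (.c 2 (.l 1583360) .n) (.c 6 (.c 0 (.c 1 (.l 1084320) .n) .n)
  .n)) (.c 3 (.c 3 (.c 3 (.l 1102824) .n) (.c 4 (.c 1 (.c 1 (.l 752464) .n) .n) (.c 5 (.c 0 (.c
  0 (.c 1 (.l 323600) .n) .n) .n) .n))) (.c 4 (.c 1 (.c 4 (.l 765120) .n) (.c 2 (.c 2 (.c 1 (.l
  519968) .n) .n) (.c 3 (.c 0 (.c 2 (.l 351168) .n) (.c 1 (.c 0 (.c 1 (.l 221728) .n) .n) .n))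
  .n))) (.c 5 (.c 0 (.c 3 (.c 1 (.l 357600) .n) .n) (.c 1 (.c 1 (.c 2 (.l 240320) .n) (.c 2 (.c
  0 (.c 1 (.l 151120) .n) .n) .n)) (.c 2 (.c 0 (.c 1 (.c 1 (.l 99760) .n) .n) .n) .n))) (.c 6
  (.c 0 (.c 0 (.c 3 (.l 108288) .n) (.c 1 (.c 1 (.c 1 (.l 67104) .n) .n) .n)) (.c 1 (.c 0 (.c 0
  (.c 2 (.l 25920) .n) .n) .n) .n)) .n))))))) (.c 1 (.c 0 (.c 6 (.c 2 (.l 1084320) .n) (.c 7 (.c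
  0 (.c 1 (.l 740880) .n) .n) .n)) (.c 1 (.c 4 (.c 3 (.l 752464) .n) (.c 5 (.c 1 (.c 1 (.l
  512184) .n) .n) (.c 6 (.c 0 (.c 0 (.c 1 (.l 219360) .n) .n) .n) .n))) (.c 2 (.c 2 (.c 4 (.l
  519968) .n) (.c 3 (.c 2 (.c 1 (.l 352472) .n) .n) (.c 4 (.c 0 (.c 2 (.l 237408) .n) (.c 1 (.c
  0 (.c 1 (.l 149664) .n) .n) .n)) .n))) (.c 3 (.c 0 (.c 5 (.l 357600) .n) (.c 1 (.c 3 (.c 1 (.l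
  241312) .n) .n) (.c 2 (.c 1 (.c 2 (.l 161704) .n) (.c 2 (.c 0 (.c 1 (.l 101528) .n) .n) .n))
  (.c 3 (.c 0 (.c 1 (.c 1 (.l 66804) .n) .n) .n) .n)))) (.c 4 (.c 0 (.c 2 (.c 2 (.l 109408) .n)
  (.c 3 (.c 0 (.c 1 (.l 68416) .n) .n) .n)) (.c 1 (.c 0 (.c 3 (.l 72224) .n) (.c 1 (.c 1 (.c 1
  (.l 44688) .n) .n) .n)) (.c 2 (.c 0 (.c 0 (.c 2 (.l 17152) .n) .n) .n) .n))) (.c 5 (.c 0 (.c 0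
  (.c 2 (.c 1 (.l 18896) .n) .n) (.c 1 (.c 0 (.c 2 (.l 11168) .n) .n) .n)) .n) .n)))))) (.c 2
  (.c 0 (.c 3 (.c 4 (.l 351168) .n) (.c 4 (.c 2 (.c 1 (.l 237408) .n) .n) (.c 5 (.c 0 (.c 2 (.l
  159456) .n) (.c 1 (.c 0 (.c 1 (.l 100368) .n) .n) .n)) .n))) (.c 1 (.c 1 (.c 5 (.l 240320) .n)
  (.c 2 (.c 3 (.c 1 (.l 161704) .n) .n) (.c 3 (.c 1 (.c 2 (.l 108032) .n) (.c 2 (.c 0 (.c 1 (.l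
  67728) .n) .n) .n)) (.c 4 (.c 0 (.c 1 (.c 1 (.l 44416) .n) .n) .n) .n)))) (.c 2 (.c 0 (.c 4
  (.c 1 (.l 109408) .n) .n) (.c 1 (.c 2 (.c 2 (.l 72656) .n) (.c 3 (.c 0 (.c 1 (.l 45368) .n)
  .n) .n)) (.c 2 (.c 0 (.c 3 (.l 47792) .n) (.c 1 (.c 1 (.c 1 (.l 29528) .n) .n) .n)) (.c 3 (.c
  0 (.c 0 (.c 2 (.l 11264) .n) .n) .n) .n)))) (.c 3 (.c 0 (.c 1 (.c 3 (.l 31584) .n) (.c 2 (.c 1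
  (.c 1 (.l 19432) .n) .n) .n)) (.c 1 (.c 0 (.c 2 (.c 1 (.l 12336) .n) .n) (.c 1 (.c 0 (.c 2 (.l
  7280) .n) .n) .n)) .n)) (.c 4 (.c 0 (.c 0 (.c 1 (.c 2 (.l 2752) .n) .n) .n) .n) .n))))) (.c 3
  (.c 0 (.c 0 (.c 6 (.l 108288) .n) (.c 1 (.c 4 (.c 1 (.l 72224) .n) .n) (.c 2 (.c 2 (.c 2 (.l
  47792) .n) (.c 3 (.c 0 (.c 1 (.l 29800) .n) .n) .n)) (.c 3 (.c 0 (.c 3 (.l 31320) .n) (.c 1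
  (.c 1 (.c 1 (.l 19324) .n) .n) .n)) (.c 4 (.c 0 (.c 0 (.c 2 (.l 7328) .n) .n) .n) .n))))) (.c
  1 (.c 0 (.c 3 (.c 2 (.l 31584) .n) (.c 4 (.c 0 (.c 1 (.l 19616) .n) .n) .n)) (.c 1 (.c 1 (.c 3
  (.l 20520) .n) (.c 2 (.c 1 (.c 1 (.l 12608) .n) .n) .n)) (.c 2 (.c 0 (.c 2 (.c 1 (.l 7968) .n)
  .n) (.c 1 (.c 0 (.c 2 (.l 4696) .n) .n) .n)) .n))) (.c 2 (.c 0 (.c 0 (.c 4 (.l 8352) .n) (.c 1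
  (.c 2 (.c 1 (.l 5048) .n) .n) (.c 2 (.c 0 (.c 2 (.l 2960) .n) .n) .n))) (.c 1 (.c 0 (.c 1 (.c
  2 (.l 1744) .n) .n) .n) .n)) .n))) (.c 4 (.c 0 (.c 0 (.c 2 (.c 3 (.l 8352) .n) (.c 3 (.c 1 (.c
  1 (.l 5104) .n) .n) .n)) (.c 1 (.c 0 (.c 4 (.l 5248) .n) (.c 1 (.c 2 (.c 1 (.l 3168) .n) .n)
  (.c 2 (.c 0 (.c 2 (.l 1856) .n) .n) .n))) (.c 2 (.c 0 (.c 1 (.c 2 (.l 1088) .n) .n) .n) .n)))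
  (.c 1 (.c 0 (.c 0 (.c 3 (.c 1 (.l 1120) .n) .n) (.c 1 (.c 1 (.c 2 (.l 640) .n) .n) .n)) .n)
  .n)) .n))))) (.c 1 (.c 0 (.c 0 (.c 5 (.c 3 (.l 323600) .n) (.c 6 (.c 1 (.c 1 (.l 219360) .n)
  .n) (.c 7 (.c 0 (.c 0 (.c 1 (.l 93360) .n) .n) .n) .n))) (.c 1 (.c 3 (.c 4 (.l 221728) .n) (.c
  4 (.c 2 (.c 1 (.l 149664) .n) .n) (.c 5 (.c 0 (.c 2 (.l 100368) .n) (.c 1 (.c 0 (.c 1 (.l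
  63144) .n) .n) .n)) .n))) (.c 2 (.c 1 (.c 5 (.l 151120) .n) (.c 2 (.c 3 (.c 1 (.l 101528) .n)
  .n) (.c 3 (.c 1 (.c 2 (.l 67728) .n) (.c 2 (.c 0 (.c 1 (.l 42440) .n) .n) .n)) (.c 4 (.c 0 (.c
  1 (.c 1 (.l 27792) .n) .n) .n) .n)))) (.c 3 (.c 0 (.c 4 (.c 1 (.l 68416) .n) .n) (.c 1 (.c 2
  (.c 2 (.l 45368) .n) (.c 3 (.c 0 (.c 1 (.l 28316) .n) .n) .n)) (.c 2 (.c 0 (.c 3 (.l 29800)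
  .n) (.c 1 (.c 1 (.c 1 (.l 18404) .n) .n) .n)) (.c 3 (.c 0 (.c 0 (.c 2 (.l 7008) .n) .n) .n)
  .n)))) (.c 4 (.c 0 (.c 1 (.c 3 (.l 19616) .n) (.c 2 (.c 1 (.c 1 (.l 12064) .n) .n) .n)) (.c 1
  (.c 0 (.c 2 (.c 1 (.l 7648) .n) .n) (.c 1 (.c 0 (.c 2 (.l 4512) .n) .n) .n)) .n)) (.c 5 (.c 0
  (.c 0 (.c 1 (.c 2 (.l 1696) .n) .n) .n) .n) .n)))))) (.c 1 (.c 0 (.c 2 (.c 5 (.l 99760) .n)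
  (.c 3 (.c 3 (.c 1 (.l 66804) .n) .n) (.c 4 (.c 1 (.c 2 (.l 44416) .n) (.c 2 (.c 0 (.c 1 (.l
  27792) .n) .n) .n)) (.c 5 (.c 0 (.c 1 (.c 1 (.l 18136) .n) .n) .n) .n)))) (.c 1 (.c 0 (.c 6
  (.l 67104) .n) (.c 1 (.c 4 (.c 1 (.l 44688) .n) .n) (.c 2 (.c 2 (.c 2 (.l 29528) .n) (.c 3 (.c
  0 (.c 1 (.l 18404) .n) .n) .n)) (.c 3 (.c 0 (.c 3 (.l 19324) .n) (.c 1 (.c 1 (.c 1 (.l 11918)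
  .n) .n) .n)) (.c 4 (.c 0 (.c 0 (.c 2 (.l 4512) .n) .n) .n) .n))))) (.c 2 (.c 0 (.c 3 (.c 2 (.l
  19432) .n) (.c 4 (.c 0 (.c 1 (.l 12064) .n) .n) .n)) (.c 1 (.c 1 (.c 3 (.l 12608) .n) (.c 2
  (.c 1 (.c 1 (.l 7744) .n) .n) .n)) (.c 2 (.c 0 (.c 2 (.c 1 (.l 4888) .n) .n) (.c 1 (.c 0 (.c 2
  (.l 2880) .n) .n) .n)) .n))) (.c 3 (.c 0 (.c 0 (.c 4 (.l 5104) .n) (.c 1 (.c 2 (.c 1 (.l 3084)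
  .n) .n) (.c 2 (.c 0 (.c 2 (.l 1808) .n) .n) .n))) (.c 1 (.c 0 (.c 1 (.c 2 (.l 1064) .n) .n)
  .n) .n)) .n)))) (.c 2 (.c 0 (.c 0 (.c 5 (.c 1 (.l 18896) .n) .n) (.c 1 (.c 3 (.c 2 (.l 12336)
  .n) (.c 4 (.c 0 (.c 1 (.l 7648) .n) .n) .n)) (.c 2 (.c 1 (.c 3 (.l 7968) .n) (.c 2 (.c 1 (.c 1
  (.l 4888) .n) .n) .n)) (.c 3 (.c 0 (.c 2 (.c 1 (.l 3072) .n) .n) (.c 1 (.c 0 (.c 2 (.l 1808)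
  .n) .n) .n)) .n)))) (.c 1 (.c 0 (.c 2 (.c 3 (.l 5048) .n) (.c 3 (.c 1 (.c 1 (.l 3084) .n) .n)
  .n)) (.c 1 (.c 0 (.c 4 (.l 3168) .n) (.c 1 (.c 2 (.c 1 (.l 1912) .n) .n) (.c 2 (.c 0 (.c 2 (.l
  1120) .n) .n) .n))) (.c 2 (.c 0 (.c 1 (.c 2 (.l 656) .n) .n) .n) .n))) (.c 2 (.c 0 (.c 0 (.c 3
  (.c 1 (.l 672) .n) .n) (.c 1 (.c 1 (.c 2 (.l 384) .n) .n) .n)) .n) .n))) (.c 3 (.c 0 (.c 0 (.c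
  1 (.c 4 (.l 1120) .n) (.c 2 (.c 2 (.c 1 (.l 672) .n) .n) (.c 3 (.c 0 (.c 2 (.l 392) .n) .n)
  .n))) (.c 1 (.c 0 (.c 3 (.c 1 (.l 392) .n) .n) (.c 1 (.c 1 (.c 2 (.l 224) .n) .n) .n)) .n))
  .n) .n)))) (.c 2 (.c 0 (.c 0 (.c 1 (.c 6 (.l 25920) .n) (.c 2 (.c 4 (.c 1 (.l 17152) .n) .n)
  (.c 3 (.c 2 (.c 2 (.l 11264) .n) (.c 3 (.c 0 (.c 1 (.l 7008) .n) .n) .n)) (.c 4 (.c 0 (.c 3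
  (.l 7328) .n) (.c 1 (.c 1 (.c 1 (.l 4512) .n) .n) .n)) (.c 5 (.c 0 (.c 0 (.c 2 (.l 1696) .n)
  .n) .n) .n))))) (.c 1 (.c 0 (.c 5 (.c 1 (.l 11168) .n) .n) (.c 1 (.c 3 (.c 2 (.l 7280) .n) (.c
  4 (.c 0 (.c 1 (.l 4512) .n) .n) .n)) (.c 2 (.c 1 (.c 3 (.l 4696) .n) (.c 2 (.c 1 (.c 1 (.l
  2880) .n) .n) .n)) (.c 3 (.c 0 (.c 2 (.c 1 (.l 1808) .n) .n) (.c 1 (.c 0 (.c 2 (.l 1064) .n)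
  .n) .n)) .n)))) (.c 2 (.c 0 (.c 2 (.c 3 (.l 2960) .n) (.c 3 (.c 1 (.c 1 (.l 1808) .n) .n) .n))
  (.c 1 (.c 0 (.c 4 (.l 1856) .n) (.c 1 (.c 2 (.c 1 (.l 1120) .n) .n) (.c 2 (.c 0 (.c 2 (.l 656)
  .n) .n) .n))) (.c 2 (.c 0 (.c 1 (.c 2 (.l 384) .n) .n) .n) .n))) (.c 3 (.c 0 (.c 0 (.c 3 (.c 1
  (.l 392) .n) .n) (.c 1 (.c 1 (.c 2 (.l 224) .n) .n) .n)) .n) .n)))) (.c 1 (.c 0 (.c 0 (.c 4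
  (.c 2 (.l 2752) .n) (.c 5 (.c 0 (.c 1 (.l 1696) .n) .n) .n)) (.c 1 (.c 2 (.c 3 (.l 1744) .n)
  (.c 3 (.c 1 (.c 1 (.l 1064) .n) .n) .n)) (.c 2 (.c 0 (.c 4 (.l 1088) .n) (.c 1 (.c 2 (.c 1 (.l
  656) .n) .n) (.c 2 (.c 0 (.c 2 (.l 384) .n) .n) .n))) (.c 3 (.c 0 (.c 1 (.c 2 (.l 224) .n) .n)
  .n) .n)))) (.c 1 (.c 0 (.c 1 (.c 4 (.l 640) .n) (.c 2 (.c 2 (.c 1 (.l 384) .n) .n) (.c 3 (.c 0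
  (.c 2 (.l 224) .n) .n) .n))) (.c 1 (.c 0 (.c 3 (.c 1 (.l 224) .n) .n) (.c 1 (.c 1 (.c 2 (.l
  128) .n) .n) .n)) .n)) .n)) (.c 2 (.c 0 (.c 0 (.c 0 (.c 5 (.l 96) .n) .n) .n) .n) .n))) (.c 3
  (.c 0 (.c 0 (.c 0 (.c 3 (.c 3 (.l 264) .n) .n) (.c 1 (.c 1 (.c 4 (.l 160) .n) .n) .n)) (.c 1
  (.c 0 (.c 0 (.c 5 (.l 48) .n) .n) .n) .n)) .n) .n))))

noncomputable def t15_7 : Tr := (.c 0 (.c 0 (.c 0 (.c 4 (.c 4 (.l 46144) .n) (.c 5 (.c 2 (.c 1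
  (.l 30960) .n) .n) (.c 6 (.c 0 (.c 2 (.l 20640) .n) (.c 1 (.c 0 (.c 1 (.l 12960) .n) .n) .n))
  (.c 7 (.c 0 (.c 0 (.c 0 (.c 1 (.l 2640) .n) .n) .n) .n) .n)))) (.c 1 (.c 2 (.c 5 (.l 30960)
  .n) (.c 3 (.c 3 (.c 1 (.l 20676) .n) .n) (.c 4 (.c 1 (.c 2 (.l 13712) .n) (.c 2 (.c 0 (.c 1
  (.l 8576) .n) .n) .n)) (.c 5 (.c 0 (.c 1 (.c 1 (.l 5584) .n) .n) (.c 1 (.c 0 (.c 0 (.c 1 (.l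
  1720) .n) .n) .n) .n)) .n)))) (.c 2 (.c 0 (.c 6 (.l 20640) .n) (.c 1 (.c 4 (.c 1 (.l 13712)
  .n) .n) (.c 2 (.c 2 (.c 2 (.l 9040) .n) (.c 3 (.c 0 (.c 1 (.l 5632) .n) .n) .n)) (.c 3 (.c 0
  (.c 3 (.l 5904) .n) (.c 1 (.c 1 (.c 1 (.l 3640) .n) .n) (.c 2 (.c 0 (.c 0 (.c 1 (.l 1112) .n)
  .n) .n) .n))) (.c 4 (.c 0 (.c 0 (.c 2 (.l 1376) .n) (.c 1 (.c 0 (.c 1 (.l 688) .n) .n) .n))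
  .n) .n))))) (.c 3 (.c 0 (.c 3 (.c 2 (.l 5904) .n) (.c 4 (.c 0 (.c 1 (.l 3664) .n) .n) .n)) (.c
  1 (.c 1 (.c 3 (.l 3824) .n) (.c 2 (.c 1 (.c 1 (.l 2348) .n) .n) (.c 3 (.c 0 (.c 0 (.c 1 (.l
  712) .n) .n) .n) .n))) (.c 2 (.c 0 (.c 2 (.c 1 (.l 1480) .n) .n) (.c 1 (.c 0 (.c 2 (.l 872)
  .n) (.c 1 (.c 0 (.c 1 (.l 436) .n) .n) .n)) .n)) (.c 3 (.c 0 (.c 0 (.c 1 (.c 1 (.l 132) .n)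
  .n) .n) .n) .n)))) (.c 4 (.c 0 (.c 0 (.c 4 (.l 1536) .n) (.c 1 (.c 2 (.c 1 (.l 928) .n) .n)
  (.c 2 (.c 0 (.c 2 (.l 544) .n) (.c 1 (.c 0 (.c 1 (.l 272) .n) .n) .n)) .n))) (.c 1 (.c 0 (.c 1
  (.c 2 (.l 320) .n) (.c 2 (.c 0 (.c 1 (.l 160) .n) .n) .n)) (.c 1 (.c 0 (.c 1 (.c 1 (.l 80) .n)
  .n) .n) .n)) .n)) (.c 5 (.c 0 (.c 0 (.c 0 (.c 3 (.l 48) .n) (.c 1 (.c 1 (.c 1 (.l 24) .n) .n)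
  .n)) .n) .n) .n)))))) (.c 1 (.c 0 (.c 1 (.c 6 (.l 12960) .n) (.c 2 (.c 4 (.c 1 (.l 8576) .n)
  .n) (.c 3 (.c 2 (.c 2 (.l 5632) .n) (.c 3 (.c 0 (.c 1 (.l 3504) .n) .n) .n)) (.c 4 (.c 0 (.c 3
  (.l 3664) .n) (.c 1 (.c 1 (.c 1 (.l 2256) .n) .n) (.c 2 (.c 0 (.c 0 (.c 1 (.l 688) .n) .n) .n)
  .n))) (.c 5 (.c 0 (.c 0 (.c 2 (.l 848) .n) (.c 1 (.c 0 (.c 1 (.l 424) .n) .n) .n)) .n) .n)))))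
  (.c 1 (.c 0 (.c 5 (.c 1 (.l 5584) .n) .n) (.c 1 (.c 3 (.c 2 (.l 3640) .n) (.c 4 (.c 0 (.c 1
  (.l 2256) .n) .n) .n)) (.c 2 (.c 1 (.c 3 (.l 2348) .n) (.c 2 (.c 1 (.c 1 (.l 1440) .n) .n) (.c
  3 (.c 0 (.c 0 (.c 1 (.l 436) .n) .n) .n) .n))) (.c 3 (.c 0 (.c 2 (.c 1 (.l 904) .n) .n) (.c 1
  (.c 0 (.c 2 (.l 532) .n) (.c 1 (.c 0 (.c 1 (.l 266) .n) .n) .n)) .n)) (.c 4 (.c 0 (.c 0 (.c 1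
  (.c 1 (.l 80) .n) .n) .n) .n) .n))))) (.c 2 (.c 0 (.c 2 (.c 3 (.l 1480) .n) (.c 3 (.c 1 (.c 1
  (.l 904) .n) .n) (.c 4 (.c 0 (.c 0 (.c 1 (.l 272) .n) .n) .n) .n))) (.c 1 (.c 0 (.c 4 (.l 928)
  .n) (.c 1 (.c 2 (.c 1 (.l 560) .n) .n) (.c 2 (.c 0 (.c 2 (.l 328) .n) (.c 1 (.c 0 (.c 1 (.l
  164) .n) .n) .n)) .n))) (.c 2 (.c 0 (.c 1 (.c 2 (.l 192) .n) (.c 2 (.c 0 (.c 1 (.l 96) .n) .n)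
  .n)) (.c 1 (.c 0 (.c 1 (.c 1 (.l 48) .n) .n) .n) .n)) .n))) (.c 3 (.c 0 (.c 0 (.c 3 (.c 1 (.l
  196) .n) .n) (.c 1 (.c 1 (.c 2 (.l 112) .n) (.c 2 (.c 0 (.c 1 (.l 56) .n) .n) .n)) (.c 2 (.c 0
  (.c 1 (.c 1 (.l 28) .n) .n) .n) .n))) (.c 1 (.c 0 (.c 0 (.c 3 (.l 28) .n) (.c 1 (.c 1 (.c 1
  (.l 14) .n) .n) .n)) .n) .n)) .n)))) (.c 2 (.c 0 (.c 0 (.c 4 (.c 2 (.l 1376) .n) (.c 5 (.c 0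
  (.c 1 (.l 848) .n) .n) .n)) (.c 1 (.c 2 (.c 3 (.l 872) .n) (.c 3 (.c 1 (.c 1 (.l 532) .n) .n)
  (.c 4 (.c 0 (.c 0 (.c 1 (.l 160) .n) .n) .n) .n))) (.c 2 (.c 0 (.c 4 (.l 544) .n) (.c 1 (.c 2
  (.c 1 (.l 328) .n) .n) (.c 2 (.c 0 (.c 2 (.l 192) .n) (.c 1 (.c 0 (.c 1 (.l 96) .n) .n) .n))
  .n))) (.c 3 (.c 0 (.c 1 (.c 2 (.l 112) .n) (.c 2 (.c 0 (.c 1 (.l 56) .n) .n) .n)) (.c 1 (.c 0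
  (.c 1 (.c 1 (.l 28) .n) .n) .n) .n)) .n)))) (.c 1 (.c 0 (.c 1 (.c 4 (.l 320) .n) (.c 2 (.c 2
  (.c 1 (.l 192) .n) .n) (.c 3 (.c 0 (.c 2 (.l 112) .n) (.c 1 (.c 0 (.c 1 (.l 56) .n) .n) .n))
  .n))) (.c 1 (.c 0 (.c 3 (.c 1 (.l 112) .n) .n) (.c 1 (.c 1 (.c 2 (.l 64) .n) (.c 2 (.c 0 (.c 1
  (.l 32) .n) .n) .n)) (.c 2 (.c 0 (.c 1 (.c 1 (.l 16) .n) .n) .n) .n))) (.c 2 (.c 0 (.c 0 (.c 3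
  (.l 16) .n) (.c 1 (.c 1 (.c 1 (.l 8) .n) .n) .n)) .n) .n))) (.c 2 (.c 0 (.c 0 (.c 2 (.c 2 (.l
  16) .n) (.c 3 (.c 0 (.c 1 (.l 8) .n) .n) .n)) (.c 1 (.c 0 (.c 3 (.l 8) .n) (.c 1 (.c 1 (.c 1
  (.l 4) .n) .n) .n)) .n)) .n) .n))) (.c 3 (.c 0 (.c 0 (.c 0 (.c 5 (.l 48) .n) (.c 1 (.c 3 (.c 1
  (.l 28) .n) .n) (.c 2 (.c 1 (.c 2 (.l 16) .n) (.c 2 (.c 0 (.c 1 (.l 8) .n) .n) .n)) (.c 3 (.c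
  0 (.c 1 (.c 1 (.l 4) .n) .n) .n) .n)))) (.c 1 (.c 0 (.c 2 (.c 2 (.l 8) .n) (.c 3 (.c 0 (.c 1
  (.l 4) .n) .n) .n)) (.c 1 (.c 0 (.c 3 (.l 4) .n) (.c 1 (.c 1 (.c 1 (.l 2) .n) .n) .n)) .n))
  .n)) .n) .n)))) (.c 1 (.c 0 (.c 0 (.c 0 (.c 7 (.l 2640) .n) (.c 1 (.c 5 (.c 1 (.l 1720) .n)
  .n) (.c 2 (.c 3 (.c 2 (.l 1112) .n) (.c 4 (.c 0 (.c 1 (.l 688) .n) .n) .n)) (.c 3 (.c 1 (.c 3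
  (.l 712) .n) (.c 2 (.c 1 (.c 1 (.l 436) .n) .n) (.c 3 (.c 0 (.c 0 (.c 1 (.l 132) .n) .n) .n)
  .n))) (.c 4 (.c 0 (.c 2 (.c 1 (.l 272) .n) .n) (.c 1 (.c 0 (.c 2 (.l 160) .n) (.c 1 (.c 0 (.c
  1 (.l 80) .n) .n) .n)) .n)) (.c 5 (.c 0 (.c 0 (.c 1 (.c 1 (.l 24) .n) .n) .n) .n) .n)))))) (.c
  1 (.c 0 (.c 4 (.c 2 (.l 688) .n) (.c 5 (.c 0 (.c 1 (.l 424) .n) .n) .n)) (.c 1 (.c 2 (.c 3 (.l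
  436) .n) (.c 3 (.c 1 (.c 1 (.l 266) .n) .n) (.c 4 (.c 0 (.c 0 (.c 1 (.l 80) .n) .n) .n) .n)))
  (.c 2 (.c 0 (.c 4 (.l 272) .n) (.c 1 (.c 2 (.c 1 (.l 164) .n) .n) (.c 2 (.c 0 (.c 2 (.l 96)
  .n) (.c 1 (.c 0 (.c 1 (.l 48) .n) .n) .n)) .n))) (.c 3 (.c 0 (.c 1 (.c 2 (.l 56) .n) (.c 2 (.c
  0 (.c 1 (.l 28) .n) .n) .n)) (.c 1 (.c 0 (.c 1 (.c 1 (.l 14) .n) .n) .n) .n)) .n)))) (.c 2 (.c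
  0 (.c 1 (.c 4 (.l 160) .n) (.c 2 (.c 2 (.c 1 (.l 96) .n) .n) (.c 3 (.c 0 (.c 2 (.l 56) .n) (.c
  1 (.c 0 (.c 1 (.l 28) .n) .n) .n)) .n))) (.c 1 (.c 0 (.c 3 (.c 1 (.l 56) .n) .n) (.c 1 (.c 1
  (.c 2 (.l 32) .n) (.c 2 (.c 0 (.c 1 (.l 16) .n) .n) .n)) (.c 2 (.c 0 (.c 1 (.c 1 (.l 8) .n)
  .n) .n) .n))) (.c 2 (.c 0 (.c 0 (.c 3 (.l 8) .n) (.c 1 (.c 1 (.c 1 (.l 4) .n) .n) .n)) .n)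
  .n))) (.c 3 (.c 0 (.c 0 (.c 2 (.c 2 (.l 8) .n) (.c 3 (.c 0 (.c 1 (.l 4) .n) .n) .n)) (.c 1 (.c
  0 (.c 3 (.l 4) .n) (.c 1 (.c 1 (.c 1 (.l 2) .n) .n) .n)) .n)) .n) .n)))) (.c 1 (.c 0 (.c 0 (.c
  3 (.c 3 (.l 132) .n) (.c 4 (.c 1 (.c 1 (.l 80) .n) .n) (.c 5 (.c 0 (.c 0 (.c 1 (.l 24) .n) .n)
  .n) .n))) (.c 1 (.c 1 (.c 4 (.l 80) .n) (.c 2 (.c 2 (.c 1 (.l 48) .n) .n) (.c 3 (.c 0 (.c 2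
  (.l 28) .n) (.c 1 (.c 0 (.c 1 (.l 14) .n) .n) .n)) .n))) (.c 2 (.c 0 (.c 3 (.c 1 (.l 28) .n)
  .n) (.c 1 (.c 1 (.c 2 (.l 16) .n) (.c 2 (.c 0 (.c 1 (.l 8) .n) .n) .n)) (.c 2 (.c 0 (.c 1 (.c
  1 (.l 4) .n) .n) .n) .n))) (.c 3 (.c 0 (.c 0 (.c 3 (.l 4) .n) (.c 1 (.c 1 (.c 1 (.l 2) .n) .n)
  .n)) .n) .n)))) (.c 1 (.c 0 (.c 0 (.c 5 (.l 24) .n) (.c 1 (.c 3 (.c 1 (.l 14) .n) .n) (.c 2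
  (.c 1 (.c 2 (.l 8) .n) (.c 2 (.c 0 (.c 1 (.l 4) .n) .n) .n)) (.c 3 (.c 0 (.c 1 (.c 1 (.l 2)
  .n) .n) .n) .n)))) (.c 1 (.c 0 (.c 2 (.c 2 (.l 4) .n) (.c 3 (.c 0 (.c 1 (.l 2) .n) .n) .n))
  (.c 1 (.c 0 (.c 3 (.l 2) .n) (.c 1 (.c 1 (.c 1 (.l 1) .n) .n) .n)) .n)) .n)) .n)) .n)) .n))

noncomputable def t15_8 : Tr := (.c 0 (.c 0 (.c 0 (.c 0 (.c 7 (.l 2640) .n) (.c 1 (.c 5 (.c 1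
  (.l 1720) .n) .n) (.c 2 (.c 3 (.c 2 (.l 1112) .n) (.c 4 (.c 0 (.c 1 (.l 688) .n) .n) .n)) (.c
  3 (.c 1 (.c 3 (.l 712) .n) (.c 2 (.c 1 (.c 1 (.l 436) .n) .n) (.c 3 (.c 0 (.c 0 (.c 1 (.l 132)
  .n) .n) .n) .n))) (.c 4 (.c 0 (.c 2 (.c 1 (.l 272) .n) .n) (.c 1 (.c 0 (.c 2 (.l 160) .n) (.c
  1 (.c 0 (.c 1 (.l 80) .n) .n) .n)) .n)) (.c 5 (.c 0 (.c 0 (.c 1 (.c 1 (.l 24) .n) .n) .n) .n)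
  .n)))))) (.c 1 (.c 0 (.c 4 (.c 2 (.l 688) .n) (.c 5 (.c 0 (.c 1 (.l 424) .n) .n) .n)) (.c 1
  (.c 2 (.c 3 (.l 436) .n) (.c 3 (.c 1 (.c 1 (.l 266) .n) .n) (.c 4 (.c 0 (.c 0 (.c 1 (.l 80)
  .n) .n) .n) .n))) (.c 2 (.c 0 (.c 4 (.l 272) .n) (.c 1 (.c 2 (.c 1 (.l 164) .n) .n) (.c 2 (.c
  0 (.c 2 (.l 96) .n) (.c 1 (.c 0 (.c 1 (.l 48) .n) .n) .n)) .n))) (.c 3 (.c 0 (.c 1 (.c 2 (.l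
  56) .n) (.c 2 (.c 0 (.c 1 (.l 28) .n) .n) .n)) (.c 1 (.c 0 (.c 1 (.c 1 (.l 14) .n) .n) .n)
  .n)) .n)))) (.c 2 (.c 0 (.c 1 (.c 4 (.l 160) .n) (.c 2 (.c 2 (.c 1 (.l 96) .n) .n) (.c 3 (.c 0
  (.c 2 (.l 56) .n) (.c 1 (.c 0 (.c 1 (.l 28) .n) .n) .n)) .n))) (.c 1 (.c 0 (.c 3 (.c 1 (.l 56)
  .n) .n) (.c 1 (.c 1 (.c 2 (.l 32) .n) (.c 2 (.c 0 (.c 1 (.l 16) .n) .n) .n)) (.c 2 (.c 0 (.c 1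
  (.c 1 (.l 8) .n) .n) .n) .n))) (.c 2 (.c 0 (.c 0 (.c 3 (.l 8) .n) (.c 1 (.c 1 (.c 1 (.l 4) .n)
  .n) .n)) .n) .n))) (.c 3 (.c 0 (.c 0 (.c 2 (.c 2 (.l 8) .n) (.c 3 (.c 0 (.c 1 (.l 4) .n) .n)
  .n)) (.c 1 (.c 0 (.c 3 (.l 4) .n) (.c 1 (.c 1 (.c 1 (.l 2) .n) .n) .n)) .n)) .n) .n)))) (.c 1
  (.c 0 (.c 0 (.c 3 (.c 3 (.l 132) .n) (.c 4 (.c 1 (.c 1 (.l 80) .n) .n) (.c 5 (.c 0 (.c 0 (.c 1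
  (.l 24) .n) .n) .n) .n))) (.c 1 (.c 1 (.c 4 (.l 80) .n) (.c 2 (.c 2 (.c 1 (.l 48) .n) .n) (.c
  3 (.c 0 (.c 2 (.l 28) .n) (.c 1 (.c 0 (.c 1 (.l 14) .n) .n) .n)) .n))) (.c 2 (.c 0 (.c 3 (.c 1
  (.l 28) .n) .n) (.c 1 (.c 1 (.c 2 (.l 16) .n) (.c 2 (.c 0 (.c 1 (.l 8) .n) .n) .n)) (.c 2 (.c
  0 (.c 1 (.c 1 (.l 4) .n) .n) .n) .n))) (.c 3 (.c 0 (.c 0 (.c 3 (.l 4) .n) (.c 1 (.c 1 (.c 1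
  (.l 2) .n) .n) .n)) .n) .n)))) (.c 1 (.c 0 (.c 0 (.c 5 (.l 24) .n) (.c 1 (.c 3 (.c 1 (.l 14)
  .n) .n) (.c 2 (.c 1 (.c 2 (.l 8) .n) (.c 2 (.c 0 (.c 1 (.l 4) .n) .n) .n)) (.c 3 (.c 0 (.c 1
  (.c 1 (.l 2) .n) .n) .n) .n)))) (.c 1 (.c 0 (.c 2 (.c 2 (.l 4) .n) (.c 3 (.c 0 (.c 1 (.l 2)
  .n) .n) .n)) (.c 1 (.c 0 (.c 3 (.l 2) .n) (.c 1 (.c 1 (.c 1 (.l 1) .n) .n) .n)) .n)) .n)) .n))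
  .n)) .n)

noncomputable def t15_9 : Tr := (.c 0 (.c 0 (.c 0 (.c 0 (.c 3 (.c 3 (.l 132) .n) (.c 4 (.c 1 (.c
  1 (.l 80) .n) .n) (.c 5 (.c 0 (.c 0 (.c 1 (.l 24) .n) .n) .n) .n))) (.c 1 (.c 1 (.c 4 (.l 80)
  .n) (.c 2 (.c 2 (.c 1 (.l 48) .n) .n) (.c 3 (.c 0 (.c 2 (.l 28) .n) (.c 1 (.c 0 (.c 1 (.l 14)
  .n) .n) .n)) .n))) (.c 2 (.c 0 (.c 3 (.c 1 (.l 28) .n) .n) (.c 1 (.c 1 (.c 2 (.l 16) .n) (.c 2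
  (.c 0 (.c 1 (.l 8) .n) .n) .n)) (.c 2 (.c 0 (.c 1 (.c 1 (.l 4) .n) .n) .n) .n))) (.c 3 (.c 0
  (.c 0 (.c 3 (.l 4) .n) (.c 1 (.c 1 (.c 1 (.l 2) .n) .n) .n)) .n) .n)))) (.c 1 (.c 0 (.c 0 (.c
  5 (.l 24) .n) (.c 1 (.c 3 (.c 1 (.l 14) .n) .n) (.c 2 (.c 1 (.c 2 (.l 8) .n) (.c 2 (.c 0 (.c 1
  (.l 4) .n) .n) .n)) (.c 3 (.c 0 (.c 1 (.c 1 (.l 2) .n) .n) .n) .n)))) (.c 1 (.c 0 (.c 2 (.c 2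
  (.l 4) .n) (.c 3 (.c 0 (.c 1 (.l 2) .n) .n) .n)) (.c 1 (.c 0 (.c 3 (.l 2) .n) (.c 1 (.c 1 (.c
  1 (.l 1) .n) .n) .n)) .n)) .n)) .n)) .n) .n)

noncomputable def t15_10 : Tr := (.c 0 (.c 0 (.c 0 (.c 0 (.c 0 (.c 5 (.l 24) .n) (.c 1 (.c 3 (.c
  1 (.l 14) .n) .n) (.c 2 (.c 1 (.c 2 (.l 8) .n) (.c 2 (.c 0 (.c 1 (.l 4) .n) .n) .n)) (.c 3 (.c
  0 (.c 1 (.c 1 (.l 2) .n) .n) .n) .n)))) (.c 1 (.c 0 (.c 2 (.c 2 (.l 4) .n) (.c 3 (.c 0 (.c 1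
  (.l 2) .n) .n) .n)) (.c 1 (.c 0 (.c 3 (.l 2) .n) (.c 1 (.c 1 (.c 1 (.l 1) .n) .n) .n)) .n))
  .n)) .n) .n) .n)

noncomputable def t15_11 : Tr := (.c 0 (.c 0 (.c 0 (.c 0 (.c 0 (.c 2 (.c 2 (.l 4) .n) (.c 3 (.c
  0 (.c 1 (.l 2) .n) .n) .n)) (.c 1 (.c 0 (.c 3 (.l 2) .n) (.c 1 (.c 1 (.c 1 (.l 1) .n) .n) .n))
  .n)) .n) .n) .n) .n)

noncomputable def t15_12 : Tr := (.c 0 (.c 0 (.c 0 (.c 0 (.c 0 (.c 0 (.c 3 (.l 2) .n) (.c 1 (.c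
  1 (.c 1 (.l 1) .n) .n) .n)) .n) .n) .n) .n) .n)

noncomputable def t15_13 : Tr := (.c 0 (.c 0 (.c 0 (.c 0 (.c 0 (.c 0 (.c 1 (.c 1 (.l 1) .n) .n)
  .n) .n) .n) .n) .n) .n)

noncomputable def t15_14 : Tr := (.c 0 (.c 0 (.c 0 (.c 0 (.c 0 (.c 0 (.c 0 (.c 1 (.l 1) .n) .n)
  .n) .n) .n) .n) .n) .n)

noncomputable def t15_15 : Tr := (.l 1)

end MP_a3e05c_co.RTK
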