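import Pool.Agent.Lib.MP_a3e05c_co.RTK.Chk

/-!
# EULER: tables for regular tournaments with 17 vertices
-/

namespace MP_a3e05c_co.RTK

noncomputable def t17_0 : Tr := (.c 17 (.l 855847205541481495117975879680) .n)

noncomputable def t17_1 : Tr := (.c 8 (.c 8 (.l 66499394369967482138148864) .n) .n)

noncomputable def t17_2 : Tr := (.c 0 (.c 15 (.l 24061983498249428379648) .n) (.c 1 (.c 13 (.c 1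
  (.l 19061545249551301905408) .n) .n) (.c 2 (.c 11 (.c 2 (.l 15092666088730175210496) .n) .n)
  (.c 3 (.c 9 (.c 3 (.l 11944046083010482344960) .n) .n) (.c 4 (.c 7 (.c 4 (.l
  9447370898081896614912) .n) .n) (.c 5 (.c 5 (.c 5 (.l 7468625088498552345600) .n) .n) (.c 6
  (.c 3 (.c 6 (.l 5901149519539653596160) .n) .n) (.c 7 (.c 1 (.c 7 (.l 4660094926969376670720)
  .n) .n) .n))))))))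

noncomputable def t17_3 : Tr := (.c 0 (.c 7 (.c 7 (.l 7011067452869880064) .n) (.c 8 (.c 5 (.c 1
  (.l 5462745532576991232) .n) .n) (.c 9 (.c 3 (.c 2 (.l 4253380785687204864) .n) .n) (.c 10 (.c
  1 (.c 3 (.l 3309386049241896960) .n) .n) .n)))) (.c 1 (.c 5 (.c 8 (.l 5462745532576991232) .n)
  (.c 6 (.c 6 (.c 1 (.l 4253603895560150016) .n) .n) (.c 7 (.c 4 (.c 2 (.l 3309741238839209216)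
  .n) .n) (.c 8 (.c 2 (.c 3 (.l 2573446308970027008) .n) .n) (.c 9 (.c 0 (.c 4 (.l
  1999461614620474368) .n) .n) .n))))) (.c 2 (.c 3 (.c 9 (.l 4253380785687204864) .n) (.c 4 (.c
  7 (.c 1 (.l 3309741238839209216) .n) .n) (.c 5 (.c 5 (.c 2 (.l 2573587648126177280) .n) .n)
  (.c 6 (.c 3 (.c 3 (.l 1999686515449530624) .n) .n) (.c 7 (.c 1 (.c 4 (.l 1552585165821725952)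
  .n) .n) .n))))) (.c 3 (.c 1 (.c 10 (.l 3309386049241896960) .n) (.c 2 (.c 8 (.c 1 (.l
  2573446308970027008) .n) .n) (.c 3 (.c 6 (.c 2 (.l 1999686515449530624) .n) .n) (.c 4 (.c 4
  (.c 3 (.l 1552674617286928640) .n) .n) (.c 5 (.c 2 (.c 4 (.l 1204655699819194368) .n) .n) (.c
  6 (.c 0 (.c 5 (.l 933901746549630720) .n) .n) .n)))))) (.c 4 (.c 0 (.c 9 (.c 1 (.l
  1999461614620474368) .n) .n) (.c 1 (.c 7 (.c 2 (.l 1552585165821725952) .n) .n) (.c 2 (.c 5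
  (.c 3 (.l 1204655699819194368) .n) .n) (.c 3 (.c 3 (.c 4 (.l 933958307268203520) .n) .n) (.c 4
  (.c 1 (.c 5 (.l 723503336603531776) .n) .n) .n))))) (.c 5 (.c 0 (.c 6 (.c 3 (.l
  933901746549630720) .n) .n) (.c 1 (.c 4 (.c 4 (.l 723503336603531776) .n) .n) (.c 2 (.c 2 (.c
  5 (.l 560042232516270336) .n) .n) (.c 3 (.c 0 (.c 6 (.l 433144174146686208) .n) .n) .n)))) (.c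
  6 (.c 0 (.c 3 (.c 5 (.l 433144174146686208) .n) .n) (.c 1 (.c 1 (.c 6 (.l 334730216892397824)
  .n) .n) .n)) .n)))))))

noncomputable def t17_4 : Tr := (.c 0 (.c 0 (.c 13 (.l 9307700611292160) .n) (.c 1 (.c 11 (.c 1
  (.l 7153456011905280) .n) .n) (.c 2 (.c 9 (.c 2 (.l 5493083445556224) .n) (.c 10 (.c 0 (.c 1
  (.l 4189260661501440) .n) .n) .n)) (.c 3 (.c 7 (.c 3 (.l 4214380416738240) .n) (.c 8 (.c 1 (.c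
  1 (.l 3211203099896064) .n) .n) .n)) (.c 4 (.c 5 (.c 4 (.l 3230415965066240) .n) (.c 6 (.c 2
  (.c 1 (.l 2459210702737152) .n) .n) (.c 7 (.c 0 (.c 2 (.l 1870048256950272) .n) .n) .n))) (.c
  5 (.c 3 (.c 5 (.l 2473885814056192) .n) (.c 4 (.c 3 (.c 1 (.l 1881525255723008) .n) .n) (.c 5
  (.c 1 (.c 2 (.l 1429382028170880) .n) .n) .n))) (.c 6 (.c 1 (.c 6 (.l 1892718351533056) .n)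
  (.c 2 (.c 4 (.c 1 (.l 1438132050692608) .n) .n) (.c 3 (.c 2 (.c 2 (.l 1091457489973248) .n)
  .n) (.c 4 (.c 0 (.c 3 (.l 827356396246272) .n) .n) .n)))) (.c 7 (.c 0 (.c 5 (.c 1 (.l
  1098118334633600) .n) .n) (.c 1 (.c 3 (.c 2 (.l 832558746486208) .n) .n) (.c 2 (.c 1 (.c 3 (.l
  630440525918336) .n) .n) .n))) (.c 8 (.c 0 (.c 2 (.c 3 (.l 479862706882048) .n) .n) (.c 1 (.c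
  0 (.c 4 (.l 362495939886080) .n) .n) .n)) .n))))))))) (.c 1 (.c 0 (.c 10 (.c 2 (.l
  4189260661501440) .n) (.c 11 (.c 0 (.c 1 (.l 3192567418064640) .n) .n) .n)) (.c 1 (.c 8 (.c 3
  (.l 3211203099896064) .n) (.c 9 (.c 1 (.c 1 (.l 2444985555089280) .n) .n) .n)) (.c 2 (.c 6 (.c
  4 (.l 2459210702737152) .n) (.c 7 (.c 2 (.c 1 (.l 1870682690008384) .n) .n) (.c 8 (.c 0 (.c 2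
  (.l 1421402680696320) .n) .n) .n))) (.c 3 (.c 4 (.c 5 (.l 1881525255723008) .n) (.c 5 (.c 3
  (.c 1 (.l 1429880555671232) .n) .n) (.c 6 (.c 1 (.c 2 (.l 1085399965697856) .n) .n) .n))) (.c
  4 (.c 2 (.c 6 (.l 1438132050692608) .n) (.c 3 (.c 4 (.c 1 (.l 1091849093190400) .n) .n) (.c 4
  (.c 2 (.c 2 (.l 827968541324032) .n) .n) (.c 5 (.c 0 (.c 3 (.l 627096509338752) .n) .n) .n))))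
  (.c 5 (.c 0 (.c 7 (.l 1098118334633600) .n) (.c 1 (.c 5 (.c 1 (.l 832866255265600) .n) .n) (.c
  2 (.c 3 (.c 2 (.l 630921074048960) .n) .n) (.c 3 (.c 1 (.c 3 (.l 477341731978560) .n) .n)
  .n)))) (.c 6 (.c 0 (.c 4 (.c 2 (.l 480239823938816) .n) .n) (.c 1 (.c 2 (.c 3 (.l
  362937614997440) .n) .n) (.c 2 (.c 0 (.c 4 (.l 273919516252928) .n) .n) .n))) (.c 7 (.c 0 (.c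
  1 (.c 4 (.l 207779034335488) .n) .n) .n) .n)))))))) (.c 2 (.c 0 (.c 7 (.c 4 (.l
  1870048256950272) .n) (.c 8 (.c 2 (.c 1 (.l 1421402680696320) .n) .n) (.c 9 (.c 0 (.c 2 (.l
  1079162100699648) .n) .n) .n))) (.c 1 (.c 5 (.c 5 (.l 1429382028170880) .n) (.c 6 (.c 3 (.c 1
  (.l 1085399965697856) .n) .n) (.c 7 (.c 1 (.c 2 (.l 823235081453120) .n) .n) .n))) (.c 2 (.c 3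
  (.c 6 (.l 1091457489973248) .n) (.c 4 (.c 4 (.c 1 (.l 827968541324032) .n) .n) (.c 5 (.c 2 (.c
  2 (.l 627335761032448) .n) .n) (.c 6 (.c 0 (.c 3 (.l 474730252592256) .n) .n) .n)))) (.c 3 (.c
  1 (.c 7 (.l 832558746486208) .n) (.c 2 (.c 5 (.c 1 (.l 630921074048960) .n) .n) (.c 3 (.c 3
  (.c 2 (.l 477529500918880) .n) .n) (.c 4 (.c 1 (.c 3 (.l 360969753624384) .n) .n) .n)))) (.c 4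
  (.c 0 (.c 6 (.c 1 (.l 480239823938816) .n) .n) (.c 1 (.c 4 (.c 2 (.l 363084933332480) .n) .n)
  (.c 2 (.c 2 (.c 3 (.l 274149546169984) .n) .n) (.c 3 (.c 0 (.c 4 (.l 206715777874176) .n) .n)
  .n)))) (.c 5 (.c 0 (.c 3 (.c 3 (.l 207959407279424) .n) .n) (.c 1 (.c 1 (.c 4 (.l
  156616871318016) .n) .n) .n)) (.c 6 (.c 0 (.c 0 (.c 5 (.l 89000923920640) .n) .n) .n)
  .n))))))) (.c 3 (.c 0 (.c 4 (.c 6 (.l 827356396246272) .n) (.c 5 (.c 4 (.c 1 (.l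
  627096509338752) .n) .n) (.c 6 (.c 2 (.c 2 (.l 474730252592256) .n) .n) (.c 7 (.c 0 (.c 3 (.l
  358931139626112) .n) .n) .n)))) (.c 1 (.c 2 (.c 7 (.l 630440525918336) .n) (.c 3 (.c 5 (.c 1
  (.l 477341731978560) .n) .n) (.c 4 (.c 3 (.c 2 (.l 360969753624384) .n) .n) (.c 5 (.c 1 (.c 3
  (.l 272614019981632) .n) .n) .n)))) (.c 2 (.c 0 (.c 8 (.l 479862706882048) .n) (.c 1 (.c 6 (.c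
  1 (.l 362937614997440) .n) .n) (.c 2 (.c 4 (.c 2 (.l 274149546169984) .n) .n) (.c 3 (.c 2 (.c
  3 (.l 206805597963200) .n) .n) (.c 4 (.c 0 (.c 4 (.l 155787676303360) .n) .n) .n))))) (.c 3
  (.c 0 (.c 5 (.c 2 (.l 207959407279424) .n) .n) (.c 1 (.c 3 (.c 3 (.l 156687289750240) .n) .n)
  (.c 2 (.c 1 (.c 4 (.l 117886926472192) .n) .n) .n))) (.c 4 (.c 0 (.c 2 (.c 4 (.l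
  89087028891392) .n) .n) (.c 1 (.c 0 (.c 5 (.l 66836681727232) .n) .n) .n)) .n))))) (.c 4 (.c 0
  (.c 1 (.c 8 (.l 362495939886080) .n) (.c 2 (.c 6 (.c 1 (.l 273919516252928) .n) .n) (.c 3 (.c
  4 (.c 2 (.l 206715777874176) .n) .n) (.c 4 (.c 2 (.c 3 (.l 155787676303360) .n) .n) (.c 5 (.c
  0 (.c 4 (.l 117240460220416) .n) .n) .n))))) (.c 1 (.c 0 (.c 7 (.c 1 (.l 207779034335488) .n)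
  .n) (.c 1 (.c 5 (.c 2 (.l 156616871318016) .n) .n) (.c 2 (.c 3 (.c 3 (.l 117886926472192) .n)
  .n) (.c 3 (.c 1 (.c 4 (.l 88604867838464) .n) .n) .n)))) (.c 2 (.c 0 (.c 4 (.c 3 (.l
  89087028891392) .n) .n) (.c 1 (.c 2 (.c 4 (.l 66870286441472) .n) .n) (.c 2 (.c 0 (.c 5 (.l
  50114725960704) .n) .n) .n))) (.c 3 (.c 0 (.c 1 (.c 5 (.l 37712758693376) .n) .n) .n) .n))))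
  (.c 5 (.c 0 (.c 0 (.c 6 (.c 2 (.l 89000923920640) .n) .n) (.c 1 (.c 4 (.c 3 (.l
  66836681727232) .n) .n) (.c 2 (.c 2 (.c 4 (.l 50114725960704) .n) .n) (.c 3 (.c 0 (.c 5 (.l
  37515879597056) .n) .n) .n)))) (.c 1 (.c 0 (.c 3 (.c 4 (.l 37712758693376) .n) .n) (.c 1 (.c 1
  (.c 5 (.l 28190245380608) .n) .n) .n)) .n)) .n))))))

noncomputable def t17_5 : Tr := (.c 0 (.c 0 (.c 6 (.c 6 (.l 10073269059840) .n) (.c 7 (.c 4 (.c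
  1 (.l 7574562746240) .n) .n) (.c 8 (.c 2 (.c 2 (.l 5688424440832) .n) (.c 3 (.c 0 (.c 1 (.l
  4199767950336) .n) .n) .n)) (.c 9 (.c 0 (.c 3 (.l 4266318330624) .n) (.c 1 (.c 1 (.c 1 (.l
  3145215720192) .n) .n) .n)) (.c 10 (.c 0 (.c 0 (.c 2 (.l 1727793446400) .n) .n) .n) .n)))))
  (.c 1 (.c 4 (.c 7 (.l 7574562746240) .n) (.c 5 (.c 5 (.c 1 (.l 5689189902400) .n) .n) (.c 6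
  (.c 3 (.c 2 (.l 4267511444608) .n) (.c 4 (.c 0 (.c 1 (.l 3147402263552) .n) .n) .n)) (.c 7 (.c
  1 (.c 3 (.l 3196749970400) .n) (.c 2 (.c 1 (.c 1 (.l 2354159379264) .n) .n) .n)) (.c 8 (.c 0
  (.c 2 (.c 1 (.l 1758251704832) .n) .n) (.c 1 (.c 0 (.c 2 (.l 1290068188416) .n) .n) .n))
  .n))))) (.c 2 (.c 2 (.c 8 (.l 5688424440832) .n) (.c 3 (.c 6 (.c 1 (.l 4267511444608) .n) .n)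
  (.c 4 (.c 4 (.c 2 (.l 3197215017984) .n) (.c 5 (.c 0 (.c 1 (.l 2355500480000) .n) .n) .n)) (.c
  5 (.c 2 (.c 3 (.l 2391995707904) .n) (.c 3 (.c 1 (.c 1 (.l 1759569656192) .n) .n) .n)) (.c 6
  (.c 0 (.c 4 (.l 1786961582848) .n) (.c 1 (.c 2 (.c 1 (.l 1312412213888) .n) .n) (.c 2 (.c 0
  (.c 2 (.l 961802690816) .n) .n) .n))) (.c 7 (.c 0 (.c 1 (.c 2 (.l 714996803584) .n) .n) .n)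
  .n)))))) (.c 3 (.c 0 (.c 9 (.l 4266318330624) .n) (.c 1 (.c 7 (.c 1 (.l 3196749970400) .n) .n)
  (.c 2 (.c 5 (.c 2 (.l 2391995707904) .n) (.c 6 (.c 0 (.c 1 (.l 1760331490752) .n) .n) .n)) (.c
  3 (.c 3 (.c 3 (.l 1787244174480) .n) (.c 4 (.c 1 (.c 1 (.l 1313218581600) .n) .n) .n)) (.c 4
  (.c 1 (.c 4 (.l 1333374989184) .n) (.c 2 (.c 2 (.c 1 (.l 978132041600) .n) .n) (.c 3 (.c 0 (.c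
  2 (.l 715952284224) .n) .n) .n))) (.c 5 (.c 0 (.c 3 (.c 1 (.l 727350823968) .n) .n) (.c 1 (.c
  1 (.c 2 (.l 531439823104) .n) .n) .n)) (.c 6 (.c 0 (.c 0 (.c 3 (.l 286437423168) .n) .n) .n)
  .n))))))) (.c 4 (.c 0 (.c 6 (.c 2 (.l 1786961582848) .n) (.c 7 (.c 0 (.c 1 (.l 1313591095040)
  .n) .n) .n)) (.c 1 (.c 4 (.c 3 (.l 1333374989184) .n) (.c 5 (.c 1 (.c 1 (.l 978588046720) .n)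
  .n) .n)) (.c 2 (.c 2 (.c 4 (.l 993370548224) .n) (.c 3 (.c 2 (.c 1 (.l 727835295104) .n) .n)
  (.c 4 (.c 0 (.c 2 (.l 532079447040) .n) .n) .n))) (.c 3 (.c 0 (.c 5 (.l 738857086080) .n) (.c
  1 (.c 3 (.c 1 (.l 540412613184) .n) .n) (.c 2 (.c 1 (.c 2 (.l 394340457216) .n) .n) .n))) (.c
  4 (.c 0 (.c 2 (.c 2 (.l 291708753664) .n) .n) (.c 1 (.c 0 (.c 3 (.l 211897677568) .n) .n) .n))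
  .n))))) (.c 5 (.c 0 (.c 3 (.c 4 (.l 738857086080) .n) (.c 4 (.c 2 (.c 1 (.l 540685171200) .n)
  .n) (.c 5 (.c 0 (.c 2 (.l 394756723200) .n) .n) .n))) (.c 1 (.c 1 (.c 5 (.l 548715814656) .n)
  (.c 2 (.c 3 (.c 1 (.l 400824433792) .n) .n) (.c 3 (.c 1 (.c 2 (.l 292091879296) .n) .n) .n)))
  (.c 2 (.c 0 (.c 4 (.c 1 (.l 296587342720) .n) .n) (.c 1 (.c 2 (.c 2 (.l 215703954176) .n) .n)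
  (.c 2 (.c 0 (.c 3 (.l 156459632896) .n) .n) .n))) (.c 3 (.c 0 (.c 1 (.c 3 (.l 115047364736)
  .n) .n) .n) .n)))) (.c 6 (.c 0 (.c 0 (.c 6 (.l 301054470400) .n) (.c 1 (.c 4 (.c 1 (.l
  219199435520) .n) .n) (.c 2 (.c 2 (.c 2 (.l 159191857664) .n) .n) (.c 3 (.c 0 (.c 3 (.l
  115295556096) .n) .n) .n)))) (.c 1 (.c 0 (.c 3 (.c 2 (.l 117095195904) .n) .n) (.c 1 (.c 1 (.c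
  3 (.l 84612901120) .n) .n) .n)) (.c 2 (.c 0 (.c 0 (.c 4 (.l 44505169920) .n) .n) .n) .n))) (.c
  7 (.c 0 (.c 0 (.c 2 (.c 3 (.l 45355778048) .n) .n) (.c 1 (.c 0 (.c 4 (.l 32528269312) .n) .n)
  .n)) .n) .n)))))))) (.c 1 (.c 0 (.c 3 (.c 8 (.l 4199767950336) .n) (.c 4 (.c 6 (.c 1 (.l
  3147402263552) .n) .n) (.c 5 (.c 4 (.c 2 (.l 2355500480000) .n) (.c 5 (.c 0 (.c 1 (.l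
  1734057984000) .n) .n) .n)) (.c 6 (.c 2 (.c 3 (.l 1760331490752) .n) (.c 3 (.c 1 (.c 1 (.l
  1293905792576) .n) .n) .n)) (.c 7 (.c 0 (.c 4 (.l 1313591095040) .n) (.c 1 (.c 2 (.c 1 (.l
  963984363776) .n) .n) (.c 2 (.c 0 (.c 2 (.l 705883797696) .n) .n) .n))) (.c 8 (.c 0 (.c 1 (.c
  2 (.l 524123072256) .n) .n) .n) .n)))))) (.c 1 (.c 1 (.c 9 (.l 3145215720192) .n) (.c 2 (.c 7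
  (.c 1 (.l 2354159379264) .n) .n) (.c 3 (.c 5 (.c 2 (.l 1759569656192) .n) (.c 6 (.c 0 (.c 1
  (.l 1293905792576) .n) .n) .n)) (.c 4 (.c 3 (.c 3 (.l 1313218581600) .n) (.c 4 (.c 1 (.c 1 (.l
  964151053824) .n) .n) .n)) (.c 5 (.c 1 (.c 4 (.l 978588046720) .n) (.c 2 (.c 2 (.c 1 (.l
  717285985664) .n) .n) (.c 3 (.c 0 (.c 2 (.l 524588642336) .n) .n) .n))) (.c 6 (.c 0 (.c 3 (.c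
  1 (.l 532735403264) .n) .n) (.c 1 (.c 1 (.c 2 (.l 388913372320) .n) .n) .n)) (.c 7 (.c 0 (.c 0
  (.c 3 (.l 209164773120) .n) .n) .n) .n))))))) (.c 2 (.c 0 (.c 8 (.c 1 (.l 1758251704832) .n)
  .n) (.c 1 (.c 6 (.c 2 (.l 1312412213888) .n) (.c 7 (.c 0 (.c 1 (.l 963984363776) .n) .n) .n))
  (.c 2 (.c 4 (.c 3 (.l 978132041600) .n) (.c 5 (.c 1 (.c 1 (.l 717285985664) .n) .n) .n)) (.c 3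
  (.c 2 (.c 4 (.l 727835295104) .n) (.c 3 (.c 2 (.c 1 (.l 532836799872) .n) .n) (.c 4 (.c 0 (.c
  2 (.l 389197006720) .n) .n) .n))) (.c 4 (.c 0 (.c 5 (.l 540685171200) .n) (.c 1 (.c 3 (.c 1
  (.l 395130160320) .n) .n) (.c 2 (.c 1 (.c 2 (.l 288077144960) .n) .n) .n))) (.c 5 (.c 0 (.c 2
  (.c 2 (.l 212820894208) .n) .n) (.c 1 (.c 0 (.c 3 (.l 154452184512) .n) .n) .n)) .n)))))) (.c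
  3 (.c 0 (.c 5 (.c 3 (.l 727350823968) .n) (.c 6 (.c 1 (.c 1 (.l 532735403264) .n) .n) .n)) (.c
  1 (.c 3 (.c 4 (.l 540412613184) .n) (.c 4 (.c 2 (.c 1 (.l 395130160320) .n) .n) (.c 5 (.c 0
  (.c 2 (.l 288236228448) .n) .n) .n))) (.c 2 (.c 1 (.c 5 (.l 400824433792) .n) (.c 2 (.c 3 (.c
  1 (.l 292538216912) .n) .n) (.c 3 (.c 1 (.c 2 (.l 212991208560) .n) .n) .n))) (.c 3 (.c 0 (.c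
  4 (.c 1 (.l 216170337216) .n) .n) (.c 1 (.c 2 (.c 2 (.l 157074245728) .n) .n) (.c 2 (.c 0 (.c
  3 (.l 113826336240) .n) .n) .n))) (.c 4 (.c 0 (.c 1 (.c 3 (.l 83577420832) .n) .n) .n) .n)))))
  (.c 4 (.c 0 (.c 2 (.c 5 (.l 296587342720) .n) (.c 3 (.c 3 (.c 1 (.l 216170337216) .n) .n) (.c
  4 (.c 1 (.c 2 (.l 157169169152) .n) .n) .n))) (.c 1 (.c 0 (.c 6 (.l 219199435520) .n) (.c 1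
  (.c 4 (.c 1 (.l 159454025472) .n) .n) (.c 2 (.c 2 (.c 2 (.l 115693792960) .n) .n) (.c 3 (.c 0
  (.c 3 (.l 83711503872) .n) .n) .n)))) (.c 2 (.c 0 (.c 3 (.c 2 (.l 84973949120) .n) .n) (.c 1
  (.c 1 (.c 3 (.l 61341400704) .n) .n) .n)) (.c 3 (.c 0 (.c 0 (.c 4 (.l 32180061952) .n) .n) .n)
  .n)))) (.c 5 (.c 0 (.c 0 (.c 5 (.c 1 (.l 86221446400) .n) .n) (.c 1 (.c 3 (.c 2 (.l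
  62324310848) .n) .n) (.c 2 (.c 1 (.c 3 (.l 44916475520) .n) .n) .n))) (.c 1 (.c 0 (.c 2 (.c 3
  (.l 32756011072) .n) .n) (.c 1 (.c 0 (.c 4 (.l 23466505472) .n) .n) .n)) .n)) (.c 6 (.c 0 (.c
  0 (.c 1 (.c 4 (.l 12339527680) .n) .n) .n) .n) .n))))))) (.c 2 (.c 0 (.c 0 (.c 10 (.l
  1727793446400) .n) (.c 1 (.c 8 (.c 1 (.l 1290068188416) .n) .n) (.c 2 (.c 6 (.c 2 (.l
  961802690816) .n) (.c 7 (.c 0 (.c 1 (.l 705883797696) .n) .n) .n)) (.c 3 (.c 4 (.c 3 (.l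
  715952284224) .n) (.c 5 (.c 1 (.c 1 (.l 524588642336) .n) .n) .n)) (.c 4 (.c 2 (.c 4 (.l
  532079447040) .n) (.c 3 (.c 2 (.c 1 (.l 389197006720) .n) .n) (.c 4 (.c 0 (.c 2 (.l
  284033497344) .n) .n) .n))) (.c 5 (.c 0 (.c 5 (.l 394756723200) .n) (.c 1 (.c 3 (.c 1 (.l
  288236228448) .n) .n) (.c 2 (.c 1 (.c 2 (.l 209958204800) .n) .n) .n))) (.c 6 (.c 0 (.c 2 (.c
  2 (.l 154897575552) .n) .n) (.c 1 (.c 0 (.c 3 (.l 112310601792) .n) .n) .n)) .n))))))) (.c 1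
  (.c 0 (.c 7 (.c 2 (.l 714996803584) .n) (.c 8 (.c 0 (.c 1 (.l 524123072256) .n) .n) .n)) (.c 1
  (.c 5 (.c 3 (.l 531439823104) .n) (.c 6 (.c 1 (.c 1 (.l 388913372320) .n) .n) .n)) (.c 2 (.c 3
  (.c 4 (.l 394340457216) .n) (.c 4 (.c 2 (.c 1 (.l 288077144960) .n) .n) (.c 5 (.c 0 (.c 2 (.l
  209958204800) .n) .n) .n))) (.c 3 (.c 1 (.c 5 (.l 292091879296) .n) (.c 2 (.c 3 (.c 1 (.l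
  212991208560) .n) .n) (.c 3 (.c 1 (.c 2 (.l 154934057984) .n) .n) .n))) (.c 4 (.c 0 (.c 4 (.c
  1 (.l 157169169152) .n) .n) (.c 1 (.c 2 (.c 2 (.l 114096433088) .n) .n) (.c 2 (.c 0 (.c 3 (.l
  82603084096) .n) .n) .n))) (.c 5 (.c 0 (.c 1 (.c 3 (.l 60560728960) .n) .n) .n) .n)))))) (.c 2
  (.c 0 (.c 4 (.c 4 (.l 291708753664) .n) (.c 5 (.c 2 (.c 1 (.l 212820894208) .n) .n) (.c 6 (.c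
  0 (.c 2 (.l 154897575552) .n) .n) .n))) (.c 1 (.c 2 (.c 5 (.l 215703954176) .n) (.c 3 (.c 3
  (.c 1 (.l 157074245728) .n) .n) (.c 4 (.c 1 (.c 2 (.l 114096433088) .n) .n) .n))) (.c 2 (.c 0
  (.c 6 (.l 159191857664) .n) (.c 1 (.c 4 (.c 1 (.l 115693792960) .n) .n) (.c 2 (.c 2 (.c 2 (.l
  83862854656) .n) .n) (.c 3 (.c 0 (.c 3 (.l 60620626944) .n) .n) .n)))) (.c 3 (.c 0 (.c 3 (.c 2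
  (.l 61500332512) .n) .n) (.c 1 (.c 1 (.c 3 (.l 44351492512) .n) .n) .n)) (.c 4 (.c 0 (.c 0 (.c
  4 (.l 23204297984) .n) .n) .n) .n))))) (.c 3 (.c 0 (.c 1 (.c 6 (.l 117095195904) .n) (.c 2 (.c
  4 (.c 1 (.l 84973949120) .n) .n) (.c 3 (.c 2 (.c 2 (.l 61500332512) .n) .n) (.c 4 (.c 0 (.c 3
  (.l 44384502912) .n) .n) .n)))) (.c 1 (.c 0 (.c 5 (.c 1 (.l 62324310848) .n) .n) (.c 1 (.c 3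
  (.c 2 (.l 45004933056) .n) .n) (.c 2 (.c 1 (.c 3 (.l 32401028000) .n) .n) .n))) (.c 2 (.c 0
  (.c 2 (.c 3 (.l 23588530208) .n) .n) (.c 1 (.c 0 (.c 4 (.l 16880307328) .n) .n) .n)) .n))) (.c
  4 (.c 0 (.c 0 (.c 4 (.c 2 (.l 23918833152) .n) .n) (.c 1 (.c 2 (.c 3 (.l 17144026112) .n) .n)
  (.c 2 (.c 0 (.c 4 (.l 12244637696) .n) .n) .n))) (.c 1 (.c 0 (.c 1 (.c 4 (.l 8836322304) .n)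
  .n) .n) .n)) .n))))) (.c 3 (.c 0 (.c 0 (.c 6 (.c 3 (.l 286437423168) .n) (.c 7 (.c 1 (.c 1 (.l
  209164773120) .n) .n) .n)) (.c 1 (.c 4 (.c 4 (.l 211897677568) .n) (.c 5 (.c 2 (.c 1 (.l
  154452184512) .n) .n) (.c 6 (.c 0 (.c 2 (.l 112310601792) .n) .n) .n))) (.c 2 (.c 2 (.c 5 (.l
  156459632896) .n) (.c 3 (.c 3 (.c 1 (.l 113826336240) .n) .n) (.c 4 (.c 1 (.c 2 (.l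
  82603084096) .n) .n) .n))) (.c 3 (.c 0 (.c 6 (.l 115295556096) .n) (.c 1 (.c 4 (.c 1 (.l
  83711503872) .n) .n) (.c 2 (.c 2 (.c 2 (.l 60620626944) .n) .n) (.c 3 (.c 0 (.c 3 (.l
  43776207504) .n) .n) .n)))) (.c 4 (.c 0 (.c 3 (.c 2 (.l 44384502912) .n) .n) (.c 1 (.c 1 (.c 3
  (.l 31975437856) .n) .n) .n)) (.c 5 (.c 0 (.c 0 (.c 4 (.l 16682730240) .n) .n) .n) .n))))))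
  (.c 1 (.c 0 (.c 3 (.c 5 (.l 115047364736) .n) (.c 4 (.c 3 (.c 1 (.l 83577420832) .n) .n) (.c 5
  (.c 1 (.c 2 (.l 60560728960) .n) .n) .n))) (.c 1 (.c 1 (.c 6 (.l 84612901120) .n) (.c 2 (.c 4
  (.c 1 (.l 61341400704) .n) .n) (.c 3 (.c 2 (.c 2 (.l 44351492512) .n) .n) (.c 4 (.c 0 (.c 3
  (.l 31975437856) .n) .n) .n)))) (.c 2 (.c 0 (.c 5 (.c 1 (.l 44916475520) .n) .n) (.c 1 (.c 3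
  (.c 2 (.l 32401028000) .n) .n) (.c 2 (.c 1 (.c 3 (.l 23302294096) .n) .n) .n))) (.c 3 (.c 0
  (.c 2 (.c 3 (.l 16934228864) .n) .n) (.c 1 (.c 0 (.c 4 (.l 12104838976) .n) .n) .n)) .n))))
  (.c 2 (.c 0 (.c 0 (.c 7 (.l 45355778048) .n) (.c 1 (.c 5 (.c 1 (.l 32756011072) .n) .n) (.c 2
  (.c 3 (.c 2 (.l 23588530208) .n) .n) (.c 3 (.c 1 (.c 3 (.l 16934228864) .n) .n) .n)))) (.c 1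
  (.c 0 (.c 4 (.c 2 (.l 17144026112) .n) .n) (.c 1 (.c 2 (.c 3 (.l 12274286784) .n) .n) (.c 2
  (.c 0 (.c 4 (.l 8756457920) .n) .n) .n))) (.c 2 (.c 0 (.c 1 (.c 4 (.l 6306341696) .n) .n) .n)
  .n))) (.c 3 (.c 0 (.c 0 (.c 3 (.c 3 (.l 6387372480) .n) .n) (.c 1 (.c 1 (.c 4 (.l 4532333760)
  .n) .n) .n)) .n) .n)))) (.c 4 (.c 0 (.c 0 (.c 2 (.c 6 (.l 44505169920) .n) (.c 3 (.c 4 (.c 1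
  (.l 32180061952) .n) .n) (.c 4 (.c 2 (.c 2 (.l 23204297984) .n) .n) (.c 5 (.c 0 (.c 3 (.l
  16682730240) .n) .n) .n)))) (.c 1 (.c 0 (.c 7 (.l 32528269312) .n) (.c 1 (.c 5 (.c 1 (.l
  23466505472) .n) .n) (.c 2 (.c 3 (.c 2 (.l 16880307328) .n) .n) (.c 3 (.c 1 (.c 3 (.l
  12104838976) .n) .n) .n)))) (.c 2 (.c 0 (.c 4 (.c 2 (.l 12244637696) .n) .n) (.c 1 (.c 2 (.c 3
  (.l 8756457920) .n) .n) (.c 2 (.c 0 (.c 4 (.l 6239495168) .n) .n) .n))) (.c 3 (.c 0 (.c 1 (.c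
  4 (.l 4484157184) .n) .n) .n) .n)))) (.c 1 (.c 0 (.c 0 (.c 6 (.c 1 (.l 12339527680) .n) .n)
  (.c 1 (.c 4 (.c 2 (.l 8836322304) .n) .n) (.c 2 (.c 2 (.c 3 (.l 6306341696) .n) .n) (.c 3 (.c
  0 (.c 4 (.l 4484157184) .n) .n) .n)))) (.c 1 (.c 0 (.c 3 (.c 3 (.l 4532333760) .n) .n) (.c 1
  (.c 1 (.c 4 (.l 3211972352) .n) .n) .n)) .n)) .n)) .n)))))

noncomputable def t17_6 : Tr := (.c 0 (.c 0 (.c 0 (.c 11 (.l 48251508480) .n) (.c 1 (.c 9 (.c 1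
  (.l 35659908480) .n) .n) (.c 2 (.c 7 (.c 2 (.l 26312345920) .n) (.c 8 (.c 0 (.c 1 (.l
  19197704960) .n) .n) .n)) (.c 3 (.c 5 (.c 3 (.l 19382885376) .n) (.c 6 (.c 1 (.c 1 (.l
  14118032288) .n) .n) (.c 7 (.c 0 (.c 0 (.c 1 (.l 7199139360) .n) .n) .n) .n))) (.c 4 (.c 3 (.c
  4 (.l 14253550336) .n) (.c 4 (.c 2 (.c 1 (.l 10363669504) .n) .n) (.c 5 (.c 0 (.c 2 (.l
  7517813120) .n) (.c 1 (.c 0 (.c 1 (.l 5265523200) .n) .n) .n)) .n))) (.c 5 (.c 1 (.c 5 (.l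
  10462509760) .n) (.c 2 (.c 3 (.c 1 (.l 7593232160) .n) .n) (.c 3 (.c 1 (.c 2 (.l 5497444800)
  .n) (.c 2 (.c 0 (.c 1 (.l 3843404960) .n) .n) .n)) (.c 4 (.c 0 (.c 1 (.c 1 (.l 2766671680) .n)
  .n) .n) .n)))) (.c 6 (.c 0 (.c 4 (.c 1 (.l 5552231680) .n) .n) (.c 1 (.c 2 (.c 2 (.l
  4011579456) .n) (.c 3 (.c 0 (.c 1 (.l 2799322368) .n) .n) .n)) (.c 2 (.c 0 (.c 3 (.l
  2890550976) .n) (.c 1 (.c 1 (.c 1 (.l 2010510848) .n) .n) .n)) (.c 3 (.c 0 (.c 0 (.c 2 (.l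
  992234880) .n) .n) .n) .n)))) (.c 7 (.c 0 (.c 1 (.c 3 (.l 2099748672) .n) (.c 2 (.c 1 (.c 1
  (.l 1457477504) .n) .n) .n)) (.c 1 (.c 0 (.c 2 (.c 1 (.l 1040788672) .n) .n) (.c 1 (.c 0 (.c 2
  (.l 715743616) .n) .n) .n)) .n)) (.c 8 (.c 0 (.c 0 (.c 1 (.c 2 (.l 363560960) .n) .n) .n) .n)
  .n))))))))) (.c 1 (.c 0 (.c 8 (.c 2 (.l 19197704960) .n) (.c 9 (.c 0 (.c 1 (.l 13989118080)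
  .n) .n) .n)) (.c 1 (.c 6 (.c 3 (.l 14118032288) .n) (.c 7 (.c 1 (.c 1 (.l 10269804048) .n) .n)
  (.c 8 (.c 0 (.c 0 (.c 1 (.l 5224459520) .n) .n) .n) .n))) (.c 2 (.c 4 (.c 4 (.l 10363669504)
  .n) (.c 5 (.c 2 (.c 1 (.l 7525157184) .n) .n) (.c 6 (.c 0 (.c 2 (.l 5451108032) .n) (.c 1 (.c
  0 (.c 1 (.l 3814043456) .n) .n) .n)) .n))) (.c 3 (.c 2 (.c 5 (.l 7593232160) .n) (.c 3 (.c 3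
  (.c 1 (.l 5503086136) .n) .n) (.c 4 (.c 1 (.c 2 (.l 3978389984) .n) (.c 2 (.c 0 (.c 1 (.l
  2778463264) .n) .n) .n)) (.c 5 (.c 0 (.c 1 (.c 1 (.l 1996969200) .n) .n) .n) .n)))) (.c 4 (.c
  0 (.c 6 (.l 5552231680) .n) (.c 1 (.c 4 (.c 1 (.l 4015912704) .n) .n) (.c 2 (.c 2 (.c 2 (.l
  2897156288) .n) (.c 3 (.c 0 (.c 1 (.l 2019492864) .n) .n) .n)) (.c 3 (.c 0 (.c 3 (.l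
  2084249376) .n) (.c 1 (.c 1 (.c 1 (.l 1448074944) .n) .n) .n)) (.c 4 (.c 0 (.c 0 (.c 2 (.l
  712569856) .n) .n) .n) .n))))) (.c 5 (.c 0 (.c 3 (.c 2 (.l 2104822240) .n) (.c 4 (.c 0 (.c 1
  (.l 1464314240) .n) .n) .n)) (.c 1 (.c 1 (.c 3 (.l 1510652416) .n) (.c 2 (.c 1 (.c 1 (.l
  1047380832) .n) .n) .n)) (.c 2 (.c 0 (.c 2 (.c 1 (.l 746601312) .n) .n) (.c 1 (.c 0 (.c 2 (.l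
  512790336) .n) .n) .n)) .n))) (.c 6 (.c 0 (.c 0 (.c 4 (.l 779134080) .n) (.c 1 (.c 2 (.c 1 (.l
  536998912) .n) .n) (.c 2 (.c 0 (.c 2 (.l 367914752) .n) .n) .n))) (.c 1 (.c 0 (.c 1 (.c 2 (.l
  259275136) .n) .n) .n) .n)) (.c 7 (.c 0 (.c 0 (.c 0 (.c 3 (.l 86568960) .n) .n) .n) .n)
  .n)))))))) (.c 2 (.c 0 (.c 5 (.c 4 (.l 7517813120) .n) (.c 6 (.c 2 (.c 1 (.l 5451108032) .n)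
  .n) (.c 7 (.c 0 (.c 2 (.l 3942979712) .n) (.c 1 (.c 0 (.c 1 (.l 2755952416) .n) .n) .n)) .n)))
  (.c 1 (.c 3 (.c 5 (.l 5497444800) .n) (.c 4 (.c 3 (.c 1 (.l 3978389984) .n) .n) (.c 5 (.c 1
  (.c 2 (.l 2871790912) .n) (.c 2 (.c 0 (.c 1 (.l 2003491552) .n) .n) .n)) (.c 6 (.c 0 (.c 1 (.c
  1 (.l 1437662656) .n) .n) .n) .n)))) (.c 2 (.c 1 (.c 6 (.l 4011579456) .n) (.c 2 (.c 4 (.c 1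
  (.l 2897156288) .n) .n) (.c 3 (.c 2 (.c 2 (.l 2086772160) .n) (.c 3 (.c 0 (.c 1 (.l
  1453026384) .n) .n) .n)) (.c 4 (.c 0 (.c 3 (.l 1498788864) .n) (.c 1 (.c 1 (.c 1 (.l
  1040143136) .n) .n) .n)) (.c 5 (.c 0 (.c 0 (.c 2 (.l 510305600) .n) .n) .n) .n))))) (.c 3 (.c
  0 (.c 5 (.c 1 (.l 2104822240) .n) .n) (.c 1 (.c 3 (.c 2 (.l 1512591968) .n) (.c 4 (.c 0 (.c 1
  (.l 1051135840) .n) .n) .n)) (.c 2 (.c 1 (.c 3 (.l 1083735296) .n) (.c 2 (.c 1 (.c 1 (.l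
  750523616) .n) .n) .n)) (.c 3 (.c 0 (.c 2 (.c 1 (.l 534004480) .n) .n) (.c 1 (.c 0 (.c 2 (.l
  366310880) .n) .n) .n)) .n)))) (.c 4 (.c 0 (.c 2 (.c 3 (.l 781408832) .n) (.c 3 (.c 1 (.c 1
  (.l 539981248) .n) .n) .n)) (.c 1 (.c 0 (.c 4 (.l 556471040) .n) (.c 1 (.c 2 (.c 1 (.l
  383066240) .n) .n) (.c 2 (.c 0 (.c 2 (.l 262114368) .n) .n) .n))) (.c 2 (.c 0 (.c 1 (.c 2 (.l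
  184320064) .n) .n) .n) .n))) (.c 5 (.c 0 (.c 0 (.c 3 (.c 1 (.l 192809088) .n) .n) (.c 1 (.c 1
  (.c 2 (.l 130947520) .n) .n) .n)) (.c 1 (.c 0 (.c 0 (.c 3 (.l 61106496) .n) .n) .n) .n))
  .n)))))) (.c 3 (.c 0 (.c 2 (.c 6 (.l 2890550976) .n) (.c 3 (.c 4 (.c 1 (.l 2084249376) .n) .n)
  (.c 4 (.c 2 (.c 2 (.l 1498788864) .n) (.c 3 (.c 0 (.c 1 (.l 1042464864) .n) .n) .n)) (.c 5 (.c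
  0 (.c 3 (.l 1074645888) .n) (.c 1 (.c 1 (.c 1 (.l 744945360) .n) .n) .n)) (.c 6 (.c 0 (.c 0
  (.c 2 (.l 364360896) .n) .n) .n) .n))))) (.c 1 (.c 0 (.c 7 (.l 2099748672) .n) (.c 1 (.c 5 (.c
  1 (.l 1510652416) .n) .n) (.c 2 (.c 3 (.c 2 (.l 1083735296) .n) (.c 4 (.c 0 (.c 1 (.l
  752267872) .n) .n) .n)) (.c 3 (.c 1 (.c 3 (.l 775079072) .n) (.c 2 (.c 1 (.c 1 (.l 536145992)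
  .n) .n) .n)) (.c 4 (.c 0 (.c 2 (.c 1 (.l 380741056) .n) .n) (.c 1 (.c 0 (.c 2 (.l 260847008)
  .n) .n) .n)) .n))))) (.c 2 (.c 0 (.c 4 (.c 2 (.l 781408832) .n) (.c 5 (.c 0 (.c 1 (.l
  541287680) .n) .n) .n)) (.c 1 (.c 2 (.c 3 (.l 557343680) .n) (.c 3 (.c 1 (.c 1 (.l 384687328)
  .n) .n) .n)) (.c 2 (.c 0 (.c 4 (.l 396117760) .n) (.c 1 (.c 2 (.c 1 (.l 272346032) .n) .n) (.c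
  2 (.c 0 (.c 2 (.l 186113824) .n) .n) .n))) (.c 3 (.c 0 (.c 1 (.c 2 (.l 130586000) .n) .n) .n)
  .n)))) (.c 3 (.c 0 (.c 1 (.c 4 (.l 283008896) .n) (.c 2 (.c 2 (.c 1 (.l 194110224) .n) .n) (.c
  3 (.c 0 (.c 2 (.l 132303216) .n) .n) .n))) (.c 1 (.c 0 (.c 3 (.c 1 (.l 136344528) .n) .n) (.c
  1 (.c 1 (.c 2 (.l 92471968) .n) .n) .n)) (.c 2 (.c 0 (.c 0 (.c 3 (.l 42973200) .n) .n) .n)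
  .n))) (.c 4 (.c 0 (.c 0 (.c 2 (.c 2 (.l 45092480) .n) .n) (.c 1 (.c 0 (.c 3 (.l 30041984) .n)
  .n) .n)) .n) .n))))) (.c 4 (.c 0 (.c 0 (.c 6 (.c 1 (.l 779134080) .n) .n) (.c 1 (.c 4 (.c 2
  (.l 556471040) .n) (.c 5 (.c 0 (.c 1 (.l 385021696) .n) .n) .n)) (.c 2 (.c 2 (.c 3 (.l
  396117760) .n) (.c 3 (.c 1 (.c 1 (.l 273077920) .n) .n) .n)) (.c 3 (.c 0 (.c 4 (.l 280945664)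
  .n) (.c 1 (.c 2 (.c 1 (.l 192920704) .n) .n) (.c 2 (.c 0 (.c 2 (.l 131666048) .n) .n) .n)))
  (.c 4 (.c 0 (.c 1 (.c 2 (.l 92170496) .n) .n) .n) .n))))) (.c 1 (.c 0 (.c 3 (.c 3 (.l
  283008896) .n) (.c 4 (.c 1 (.c 1 (.l 194654016) .n) .n) .n)) (.c 1 (.c 1 (.c 4 (.l 200061440)
  .n) (.c 2 (.c 2 (.c 1 (.l 137043072) .n) .n) (.c 3 (.c 0 (.c 2 (.l 93283520) .n) .n) .n))) (.c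
  2 (.c 0 (.c 3 (.c 1 (.l 96029568) .n) .n) (.c 1 (.c 1 (.c 2 (.l 65039680) .n) .n) .n)) (.c 3
  (.c 0 (.c 0 (.c 3 (.l 30097600) .n) .n) .n) .n)))) (.c 2 (.c 0 (.c 0 (.c 5 (.l 99450880) .n)
  (.c 1 (.c 3 (.c 1 (.l 67638464) .n) .n) (.c 2 (.c 1 (.c 2 (.l 45675840) .n) .n) .n))) (.c 1
  (.c 0 (.c 2 (.c 2 (.l 31502336) .n) .n) (.c 1 (.c 0 (.c 3 (.l 20954880) .n) .n) .n)) .n)) (.c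
  3 (.c 0 (.c 0 (.c 1 (.c 3 (.l 9779072) .n) .n) .n) .n) .n)))) (.c 5 (.c 0 (.c 0 (.c 2 (.c 4
  (.l 99450880) .n) (.c 3 (.c 2 (.c 1 (.l 67860160) .n) .n) (.c 4 (.c 0 (.c 2 (.l 46002560) .n)
  .n) .n))) (.c 1 (.c 0 (.c 5 (.l 69533696) .n) (.c 1 (.c 3 (.c 1 (.l 47225536) .n) .n) (.c 2
  (.c 1 (.c 2 (.l 31845952) .n) .n) .n))) (.c 2 (.c 0 (.c 2 (.c 2 (.l 21898752) .n) .n) (.c 1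
  (.c 0 (.c 3 (.l 14544096) .n) .n) .n)) .n))) (.c 1 (.c 0 (.c 0 (.c 4 (.c 1 (.l 22650880) .n)
  .n) (.c 1 (.c 2 (.c 2 (.l 15133952) .n) .n) (.c 2 (.c 0 (.c 3 (.l 10013792) .n) .n) .n))) (.c
  1 (.c 0 (.c 1 (.c 3 (.l 6727776) .n) .n) .n) .n)) .n)) (.c 6 (.c 0 (.c 0 (.c 0 (.c 3 (.c 2 (.l
  4743168) .n) .n) (.c 1 (.c 1 (.c 3 (.l 3094080) .n) .n) .n)) .n) .n) .n))))))) (.c 1 (.c 0 (.c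
  0 (.c 7 (.c 3 (.l 7199139360) .n) (.c 8 (.c 1 (.c 1 (.l 5224459520) .n) .n) (.c 9 (.c 0 (.c 0
  (.c 1 (.l 2647128960) .n) .n) .n) .n))) (.c 1 (.c 5 (.c 4 (.l 5265523200) .n) (.c 6 (.c 2 (.c
  1 (.l 3814043456) .n) .n) (.c 7 (.c 0 (.c 2 (.l 2755952416) .n) (.c 1 (.c 0 (.c 1 (.l
  1925164528) .n) .n) .n)) .n))) (.c 2 (.c 3 (.c 5 (.l 3843404960) .n) (.c 4 (.c 3 (.c 1 (.l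
  2778463264) .n) .n) (.c 5 (.c 1 (.c 2 (.l 2003491552) .n) (.c 2 (.c 0 (.c 1 (.l 1396914784)
  .n) .n) .n)) (.c 6 (.c 0 (.c 1 (.c 1 (.l 1001311712) .n) .n) .n) .n)))) (.c 3 (.c 1 (.c 6 (.l
  2799322368) .n) (.c 2 (.c 4 (.c 1 (.l 2019492864) .n) .n) (.c 3 (.c 2 (.c 2 (.l 1453026384)
  .n) (.c 3 (.c 0 (.c 1 (.l 1011156936) .n) .n) .n)) (.c 4 (.c 0 (.c 3 (.l 1042464864) .n) (.c 1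
  (.c 1 (.c 1 (.l 723033808) .n) .n) .n)) (.c 5 (.c 0 (.c 0 (.c 2 (.l 354116640) .n) .n) .n)
  .n))))) (.c 4 (.c 0 (.c 5 (.c 1 (.l 1464314240) .n) .n) (.c 1 (.c 3 (.c 2 (.l 1051135840) .n)
  (.c 4 (.c 0 (.c 1 (.l 730031360) .n) .n) .n)) (.c 2 (.c 1 (.c 3 (.l 752267872) .n) (.c 2 (.c 1
  (.c 1 (.l 520663808) .n) .n) .n)) (.c 3 (.c 0 (.c 2 (.c 1 (.l 370032896) .n) .n) (.c 1 (.c 0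
  (.c 2 (.l 253677632) .n) .n) .n)) .n)))) (.c 5 (.c 0 (.c 2 (.c 3 (.l 541287680) .n) (.c 3 (.c
  1 (.c 1 (.l 373827680) .n) .n) .n)) (.c 1 (.c 0 (.c 4 (.l 385021696) .n) (.c 1 (.c 2 (.c 1 (.l
  264884896) .n) .n) (.c 2 (.c 0 (.c 2 (.l 181138592) .n) .n) .n))) (.c 2 (.c 0 (.c 1 (.c 2 (.l
  127223392) .n) .n) .n) .n))) (.c 6 (.c 0 (.c 0 (.c 3 (.c 1 (.l 132870720) .n) .n) (.c 1 (.c 1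
  (.c 2 (.l 90184512) .n) .n) .n)) (.c 1 (.c 0 (.c 0 (.c 3 (.l 42002496) .n) .n) .n) .n))
  .n))))))) (.c 1 (.c 0 (.c 4 (.c 5 (.l 2766671680) .n) (.c 5 (.c 3 (.c 1 (.l 1996969200) .n)
  .n) (.c 6 (.c 1 (.c 2 (.l 1437662656) .n) (.c 2 (.c 0 (.c 1 (.l 1001311712) .n) .n) .n)) (.c 7
  (.c 0 (.c 1 (.c 1 (.l 716524432) .n) .n) .n) .n)))) (.c 1 (.c 2 (.c 6 (.l 2010510848) .n) (.c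
  3 (.c 4 (.c 1 (.l 1448074944) .n) .n) (.c 4 (.c 2 (.c 2 (.l 1040143136) .n) (.c 3 (.c 0 (.c 1
  (.l 723033808) .n) .n) .n)) (.c 5 (.c 0 (.c 3 (.l 744945360) .n) (.c 1 (.c 1 (.c 1 (.l
  516091352) .n) .n) .n)) (.c 6 (.c 0 (.c 0 (.c 2 (.l 251982336) .n) .n) .n) .n))))) (.c 2 (.c 0
  (.c 7 (.l 1457477504) .n) (.c 1 (.c 5 (.c 1 (.l 1047380832) .n) .n) (.c 2 (.c 3 (.c 2 (.l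
  750523616) .n) (.c 4 (.c 0 (.c 1 (.l 520663808) .n) .n) .n)) (.c 3 (.c 1 (.c 3 (.l 536145992)
  .n) (.c 2 (.c 1 (.c 1 (.l 370648896) .n) .n) .n)) (.c 4 (.c 0 (.c 2 (.c 1 (.l 262904032) .n)
  .n) (.c 1 (.c 0 (.c 2 (.l 180007680) .n) .n) .n)) .n))))) (.c 3 (.c 0 (.c 4 (.c 2 (.l
  539981248) .n) (.c 5 (.c 0 (.c 1 (.l 373827680) .n) .n) .n)) (.c 1 (.c 2 (.c 3 (.l 384687328)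
  .n) (.c 3 (.c 1 (.c 1 (.l 265359584) .n) .n) .n)) (.c 2 (.c 0 (.c 4 (.l 273077920) .n) (.c 1
  (.c 2 (.c 1 (.l 187639416) .n) .n) (.c 2 (.c 0 (.c 2 (.l 128150320) .n) .n) .n))) (.c 3 (.c 0
  (.c 1 (.c 2 (.l 89804936) .n) .n) .n) .n)))) (.c 4 (.c 0 (.c 1 (.c 4 (.l 194654016) .n) (.c 2
  (.c 2 (.c 1 (.l 133429504) .n) .n) (.c 3 (.c 0 (.c 2 (.l 90889216) .n) .n) .n))) (.c 1 (.c 0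
  (.c 3 (.c 1 (.l 93603488) .n) .n) (.c 1 (.c 1 (.c 2 (.l 63445408) .n) .n) .n)) (.c 2 (.c 0 (.c
  0 (.c 3 (.l 29426496) .n) .n) .n) .n))) (.c 5 (.c 0 (.c 0 (.c 2 (.c 2 (.l 30820768) .n) .n)
  (.c 1 (.c 0 (.c 3 (.l 20520800) .n) .n) .n)) .n) .n)))))) (.c 2 (.c 0 (.c 1 (.c 7 (.l
  1040788672) .n) (.c 2 (.c 5 (.c 1 (.l 746601312) .n) .n) (.c 3 (.c 3 (.c 2 (.l 534004480) .n)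
  (.c 4 (.c 0 (.c 1 (.l 370032896) .n) .n) .n)) (.c 4 (.c 1 (.c 3 (.l 380741056) .n) (.c 2 (.c 1
  (.c 1 (.l 262904032) .n) .n) .n)) (.c 5 (.c 0 (.c 2 (.c 1 (.l 186099808) .n) .n) (.c 1 (.c 0
  (.c 2 (.l 127258880) .n) .n) .n)) .n))))) (.c 1 (.c 0 (.c 6 (.c 1 (.l 536998912) .n) .n) (.c 1
  (.c 4 (.c 2 (.l 383066240) .n) (.c 5 (.c 0 (.c 1 (.l 264884896) .n) .n) .n)) (.c 2 (.c 2 (.c 3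
  (.l 272346032) .n) (.c 3 (.c 1 (.c 1 (.l 187639416) .n) .n) .n)) (.c 3 (.c 0 (.c 4 (.l
  192920704) .n) (.c 1 (.c 2 (.c 1 (.l 132396288) .n) .n) (.c 2 (.c 0 (.c 2 (.l 90304576) .n)
  .n) .n))) (.c 4 (.c 0 (.c 1 (.c 2 (.l 63136000) .n) .n) .n) .n))))) (.c 2 (.c 0 (.c 3 (.c 3
  (.l 194110224) .n) (.c 4 (.c 1 (.c 1 (.l 133429504) .n) .n) .n)) (.c 1 (.c 1 (.c 4 (.l
  137043072) .n) (.c 2 (.c 2 (.c 1 (.l 93819056) .n) .n) (.c 3 (.c 0 (.c 2 (.l 63823232) .n) .n)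
  .n))) (.c 2 (.c 0 (.c 3 (.c 1 (.l 65656144) .n) .n) (.c 1 (.c 1 (.c 2 (.l 44441376) .n) .n)
  .n)) (.c 3 (.c 0 (.c 0 (.c 3 (.l 20525280) .n) .n) .n) .n)))) (.c 3 (.c 0 (.c 0 (.c 5 (.l
  67860160) .n) (.c 1 (.c 3 (.c 1 (.l 46125200) .n) .n) (.c 2 (.c 1 (.c 2 (.l 31129392) .n) .n)
  .n))) (.c 1 (.c 0 (.c 2 (.c 2 (.l 21440096) .n) .n) (.c 1 (.c 0 (.c 3 (.l 14252896) .n) .n)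
  .n)) .n)) (.c 4 (.c 0 (.c 0 (.c 1 (.c 3 (.l 6622720) .n) .n) .n) .n) .n))))) (.c 3 (.c 0 (.c 0
  (.c 5 (.c 2 (.l 192809088) .n) (.c 6 (.c 0 (.c 1 (.l 132870720) .n) .n) .n)) (.c 1 (.c 3 (.c 3
  (.l 136344528) .n) (.c 4 (.c 1 (.c 1 (.l 93603488) .n) .n) .n)) (.c 2 (.c 1 (.c 4 (.l
  96029568) .n) (.c 2 (.c 2 (.c 1 (.l 65656144) .n) .n) (.c 3 (.c 0 (.c 2 (.l 44605104) .n) .n)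
  .n))) (.c 3 (.c 0 (.c 3 (.c 1 (.l 45830040) .n) .n) (.c 1 (.c 1 (.c 2 (.l 30978736) .n) .n)
  .n)) (.c 4 (.c 0 (.c 0 (.c 3 (.l 14245920) .n) .n) .n) .n))))) (.c 1 (.c 0 (.c 2 (.c 4 (.l
  67638464) .n) (.c 3 (.c 2 (.c 1 (.l 46125200) .n) .n) (.c 4 (.c 0 (.c 2 (.l 31249728) .n) .n)
  .n))) (.c 1 (.c 0 (.c 5 (.l 47225536) .n) (.c 1 (.c 3 (.c 1 (.l 32055176) .n) .n) (.c 2 (.c 1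
  (.c 2 (.l 21603200) .n) .n) .n))) (.c 2 (.c 0 (.c 2 (.c 2 (.l 14834448) .n) .n) (.c 1 (.c 0
  (.c 3 (.l 9846472) .n) .n) .n)) .n))) (.c 2 (.c 0 (.c 0 (.c 4 (.c 1 (.l 15307040) .n) .n) (.c
  1 (.c 2 (.c 2 (.l 10221168) .n) .n) (.c 2 (.c 0 (.c 3 (.l 6759168) .n) .n) .n))) (.c 1 (.c 0
  (.c 1 (.c 3 (.l 4534224) .n) .n) .n) .n)) .n))) (.c 4 (.c 0 (.c 0 (.c 1 (.c 5 (.l 22650880)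
  .n) (.c 2 (.c 3 (.c 1 (.l 15307040) .n) .n) (.c 3 (.c 1 (.c 2 (.l 10268928) .n) .n) .n))) (.c
  1 (.c 0 (.c 4 (.c 1 (.l 10478720) .n) .n) (.c 1 (.c 2 (.c 2 (.l 6986432) .n) .n) (.c 2 (.c 0
  (.c 3 (.l 4612992) .n) .n) .n))) (.c 2 (.c 0 (.c 1 (.c 3 (.l 3082816) .n) .n) .n) .n))) (.c 1
  (.c 0 (.c 0 (.c 3 (.c 2 (.l 3169408) .n) .n) (.c 1 (.c 1 (.c 3 (.l 2066336) .n) .n) .n)) .n)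
  .n)) .n))))) (.c 2 (.c 0 (.c 0 (.c 3 (.c 6 (.l 992234880) .n) (.c 4 (.c 4 (.c 1 (.l 712569856)
  .n) .n) (.c 5 (.c 2 (.c 2 (.l 510305600) .n) (.c 3 (.c 0 (.c 1 (.l 354116640) .n) .n) .n)) (.c
  6 (.c 0 (.c 3 (.l 364360896) .n) (.c 1 (.c 1 (.c 1 (.l 251982336) .n) .n) .n)) (.c 7 (.c 0 (.c
  0 (.c 2 (.l 122412672) .n) .n) .n) .n))))) (.c 1 (.c 1 (.c 7 (.l 715743616) .n) (.c 2 (.c 5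
  (.c 1 (.l 512790336) .n) .n) (.c 3 (.c 3 (.c 2 (.l 366310880) .n) (.c 4 (.c 0 (.c 1 (.l
  253677632) .n) .n) .n)) (.c 4 (.c 1 (.c 3 (.l 260847008) .n) (.c 2 (.c 1 (.c 1 (.l 180007680)
  .n) .n) .n)) (.c 5 (.c 0 (.c 2 (.c 1 (.l 127258880) .n) .n) (.c 1 (.c 0 (.c 2 (.l 86969632)
  .n) .n) .n)) .n))))) (.c 2 (.c 0 (.c 6 (.c 1 (.l 367914752) .n) .n) (.c 1 (.c 4 (.c 2 (.l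
  262114368) .n) (.c 5 (.c 0 (.c 1 (.l 181138592) .n) .n) .n)) (.c 2 (.c 2 (.c 3 (.l 186113824)
  .n) (.c 3 (.c 1 (.c 1 (.l 128150320) .n) .n) .n)) (.c 3 (.c 0 (.c 4 (.l 131666048) .n) (.c 1
  (.c 2 (.c 1 (.l 90304576) .n) .n) (.c 2 (.c 0 (.c 2 (.l 61557728) .n) .n) .n))) (.c 4 (.c 0
  (.c 1 (.c 2 (.l 42981568) .n) .n) .n) .n))))) (.c 3 (.c 0 (.c 3 (.c 3 (.l 132303216) .n) (.c 4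
  (.c 1 (.c 1 (.l 90889216) .n) .n) .n)) (.c 1 (.c 1 (.c 4 (.l 93283520) .n) (.c 2 (.c 2 (.c 1
  (.l 63823232) .n) .n) (.c 3 (.c 0 (.c 2 (.l 43391760) .n) .n) .n))) (.c 2 (.c 0 (.c 3 (.c 1
  (.l 44605104) .n) .n) (.c 1 (.c 1 (.c 2 (.l 30174336) .n) .n) .n)) (.c 3 (.c 0 (.c 0 (.c 3 (.l
  13908624) .n) .n) .n) .n)))) (.c 4 (.c 0 (.c 0 (.c 5 (.l 46002560) .n) (.c 1 (.c 3 (.c 1 (.l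
  31249728) .n) .n) (.c 2 (.c 1 (.c 2 (.l 21077632) .n) .n) .n))) (.c 1 (.c 0 (.c 2 (.c 2 (.l
  14496832) .n) .n) (.c 1 (.c 0 (.c 3 (.l 9631424) .n) .n) .n)) .n)) (.c 5 (.c 0 (.c 0 (.c 1 (.c
  3 (.l 4455488) .n) .n) .n) .n) .n)))))) (.c 1 (.c 0 (.c 0 (.c 8 (.l 363560960) .n) (.c 1 (.c 6
  (.c 1 (.l 259275136) .n) .n) (.c 2 (.c 4 (.c 2 (.l 184320064) .n) (.c 5 (.c 0 (.c 1 (.l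
  127223392) .n) .n) .n)) (.c 3 (.c 2 (.c 3 (.l 130586000) .n) (.c 3 (.c 1 (.c 1 (.l 89804936)
  .n) .n) .n)) (.c 4 (.c 0 (.c 4 (.l 92170496) .n) (.c 1 (.c 2 (.c 1 (.l 63136000) .n) .n) (.c 2
  (.c 0 (.c 2 (.l 42981568) .n) .n) .n))) (.c 5 (.c 0 (.c 1 (.c 2 (.l 29936608) .n) .n) .n)
  .n)))))) (.c 1 (.c 0 (.c 5 (.c 2 (.l 130947520) .n) (.c 6 (.c 0 (.c 1 (.l 90184512) .n) .n)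
  .n)) (.c 1 (.c 3 (.c 3 (.l 92471968) .n) (.c 4 (.c 1 (.c 1 (.l 63445408) .n) .n) .n)) (.c 2
  (.c 1 (.c 4 (.l 65039680) .n) (.c 2 (.c 2 (.c 1 (.l 44441376) .n) .n) (.c 3 (.c 0 (.c 2 (.l
  30174336) .n) .n) .n))) (.c 3 (.c 0 (.c 3 (.c 1 (.l 30978736) .n) .n) (.c 1 (.c 1 (.c 2 (.l
  20927648) .n) .n) .n)) (.c 4 (.c 0 (.c 0 (.c 3 (.l 9604736) .n) .n) .n) .n))))) (.c 2 (.c 0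
  (.c 2 (.c 4 (.l 45675840) .n) (.c 3 (.c 2 (.c 1 (.l 31129392) .n) .n) (.c 4 (.c 0 (.c 2 (.l
  21077632) .n) .n) .n))) (.c 1 (.c 0 (.c 5 (.l 31845952) .n) (.c 1 (.c 3 (.c 1 (.l 21603200)
  .n) .n) (.c 2 (.c 1 (.c 2 (.l 14550720) .n) .n) .n))) (.c 2 (.c 0 (.c 2 (.c 2 (.l 9977504) .n)
  .n) (.c 1 (.c 0 (.c 3 (.l 6618816) .n) .n) .n)) .n))) (.c 3 (.c 0 (.c 0 (.c 4 (.c 1 (.l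
  10268928) .n) .n) (.c 1 (.c 2 (.c 2 (.l 6853056) .n) .n) (.c 2 (.c 0 (.c 3 (.l 4529312) .n)
  .n) .n))) (.c 1 (.c 0 (.c 1 (.c 3 (.l 3033824) .n) .n) .n) .n)) .n)))) (.c 2 (.c 0 (.c 0 (.c 4
  (.c 3 (.l 45092480) .n) (.c 5 (.c 1 (.c 1 (.l 30820768) .n) .n) .n)) (.c 1 (.c 2 (.c 4 (.l
  31502336) .n) (.c 3 (.c 2 (.c 1 (.l 21440096) .n) .n) (.c 4 (.c 0 (.c 2 (.l 14496832) .n) .n)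
  .n))) (.c 2 (.c 0 (.c 5 (.l 21898752) .n) (.c 1 (.c 3 (.c 1 (.l 14834448) .n) .n) (.c 2 (.c 1
  (.c 2 (.l 9977504) .n) .n) .n))) (.c 3 (.c 0 (.c 2 (.c 2 (.l 6819904) .n) .n) (.c 1 (.c 0 (.c
  3 (.l 4517360) .n) .n) .n)) .n)))) (.c 1 (.c 0 (.c 1 (.c 5 (.l 15133952) .n) (.c 2 (.c 3 (.c 1
  (.l 10221168) .n) .n) (.c 3 (.c 1 (.c 2 (.l 6853056) .n) .n) .n))) (.c 1 (.c 0 (.c 4 (.c 1 (.l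
  6986432) .n) .n) (.c 1 (.c 2 (.c 2 (.l 4655424) .n) .n) (.c 2 (.c 0 (.c 3 (.l 3072208) .n) .n)
  .n))) (.c 2 (.c 0 (.c 1 (.c 3 (.l 2050048) .n) .n) .n) .n))) (.c 2 (.c 0 (.c 0 (.c 3 (.c 2 (.l
  2100896) .n) .n) (.c 1 (.c 1 (.c 3 (.l 1368992) .n) .n) .n)) .n) .n))) (.c 3 (.c 0 (.c 0 (.c 0
  (.c 6 (.l 4743168) .n) (.c 1 (.c 4 (.c 1 (.l 3169408) .n) .n) (.c 2 (.c 2 (.c 2 (.l 2100896)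
  .n) .n) (.c 3 (.c 0 (.c 3 (.l 1378992) .n) .n) .n)))) (.c 1 (.c 0 (.c 3 (.c 2 (.l 1396128) .n)
  .n) (.c 1 (.c 1 (.c 3 (.l 908320) .n) .n) .n)) .n)) .n) .n)))) (.c 3 (.c 0 (.c 0 (.c 0 (.c 7
  (.c 1 (.l 86568960) .n) .n) (.c 1 (.c 5 (.c 2 (.l 61106496) .n) (.c 6 (.c 0 (.c 1 (.l
  42002496) .n) .n) .n)) (.c 2 (.c 3 (.c 3 (.l 42973200) .n) (.c 4 (.c 1 (.c 1 (.l 29426496) .n)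
  .n) .n)) (.c 3 (.c 1 (.c 4 (.l 30097600) .n) (.c 2 (.c 2 (.c 1 (.l 20525280) .n) .n) (.c 3 (.c
  0 (.c 2 (.l 13908624) .n) .n) .n))) (.c 4 (.c 0 (.c 3 (.c 1 (.l 14245920) .n) .n) (.c 1 (.c 1
  (.c 2 (.l 9604736) .n) .n) .n)) (.c 5 (.c 0 (.c 0 (.c 3 (.l 4379328) .n) .n) .n) .n)))))) (.c
  1 (.c 0 (.c 4 (.c 3 (.l 30041984) .n) (.c 5 (.c 1 (.c 1 (.l 20520800) .n) .n) .n)) (.c 1 (.c 2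
  (.c 4 (.l 20954880) .n) (.c 3 (.c 2 (.c 1 (.l 14252896) .n) .n) (.c 4 (.c 0 (.c 2 (.l 9631424)
  .n) .n) .n))) (.c 2 (.c 0 (.c 5 (.l 14544096) .n) (.c 1 (.c 3 (.c 1 (.l 9846472) .n) .n) (.c 2
  (.c 1 (.c 2 (.l 6618816) .n) .n) .n))) (.c 3 (.c 0 (.c 2 (.c 2 (.l 4517360) .n) .n) (.c 1 (.c
  0 (.c 3 (.l 2990568) .n) .n) .n)) .n)))) (.c 2 (.c 0 (.c 1 (.c 5 (.l 10013792) .n) (.c 2 (.c 3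
  (.c 1 (.l 6759168) .n) .n) (.c 3 (.c 1 (.c 2 (.l 4529312) .n) .n) .n))) (.c 1 (.c 0 (.c 4 (.c
  1 (.l 4612992) .n) .n) (.c 1 (.c 2 (.c 2 (.l 3072208) .n) .n) (.c 2 (.c 0 (.c 3 (.l 2026352)
  .n) .n) .n))) (.c 2 (.c 0 (.c 1 (.c 3 (.l 1350160) .n) .n) .n) .n))) (.c 3 (.c 0 (.c 0 (.c 3
  (.c 2 (.l 1378992) .n) .n) (.c 1 (.c 1 (.c 3 (.l 898144) .n) .n) .n)) .n) .n)))) (.c 1 (.c 0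
  (.c 0 (.c 3 (.c 4 (.l 9779072) .n) (.c 4 (.c 2 (.c 1 (.l 6622720) .n) .n) (.c 5 (.c 0 (.c 2
  (.l 4455488) .n) .n) .n))) (.c 1 (.c 1 (.c 5 (.l 6727776) .n) (.c 2 (.c 3 (.c 1 (.l 4534224)
  .n) .n) (.c 3 (.c 1 (.c 2 (.l 3033824) .n) .n) .n))) (.c 2 (.c 0 (.c 4 (.c 1 (.l 3082816) .n)
  .n) (.c 1 (.c 2 (.c 2 (.l 2050048) .n) .n) (.c 2 (.c 0 (.c 3 (.l 1350160) .n) .n) .n))) (.c 3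
  (.c 0 (.c 1 (.c 3 (.l 896088) .n) .n) .n) .n)))) (.c 1 (.c 0 (.c 0 (.c 6 (.l 3094080) .n) (.c
  1 (.c 4 (.c 1 (.l 2066336) .n) .n) (.c 2 (.c 2 (.c 2 (.l 1368992) .n) .n) (.c 3 (.c 0 (.c 3
  (.l 898144) .n) .n) .n)))) (.c 1 (.c 0 (.c 3 (.c 2 (.l 908320) .n) .n) (.c 1 (.c 1 (.c 3 (.l
  590688) .n) .n) .n)) .n)) .n)) .n)) (.c 4 (.c 0 (.c 0 (.c 0 (.c 2 (.c 5 (.l 1898880) .n) .n)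
  (.c 1 (.c 0 (.c 6 (.l 1280256) .n) .n) .n)) .n) .n) .n)))))

noncomputable def t17_7 : Tr := (.c 0 (.c 0 (.c 0 (.c 5 (.c 5 (.l 191474240) .n) (.c 6 (.c 3 (.c
  1 (.l 137311360) .n) .n) (.c 7 (.c 1 (.c 2 (.l 98213920) .n) (.c 2 (.c 0 (.c 1 (.l 68193440)
  .n) .n) .n)) (.c 8 (.c 0 (.c 1 (.c 1 (.l 48482560) .n) .n) (.c 1 (.c 0 (.c 0 (.c 1 (.l
  21351680) .n) .n) .n) .n)) .n)))) (.c 1 (.c 3 (.c 6 (.l 137311360) .n) (.c 4 (.c 4 (.c 1 (.l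
  98254848) .n) .n) (.c 5 (.c 2 (.c 2 (.l 70116000) .n) (.c 3 (.c 0 (.c 1 (.l 48589520) .n) .n)
  .n)) (.c 6 (.c 0 (.c 3 (.l 49889088) .n) (.c 1 (.c 1 (.c 1 (.l 34456544) .n) .n) (.c 2 (.c 0
  (.c 0 (.c 1 (.l 15114880) .n) .n) .n) .n))) (.c 7 (.c 0 (.c 0 (.c 2 (.l 16662240) .n) (.c 1
  (.c 0 (.c 1 (.l 10596320) .n) .n) .n)) .n) .n))))) (.c 2 (.c 1 (.c 7 (.l 98213920) .n) (.c 2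
  (.c 5 (.c 1 (.l 70116000) .n) .n) (.c 3 (.c 3 (.c 2 (.l 49913232) .n) (.c 4 (.c 0 (.c 1 (.l
  34520096) .n) .n) .n)) (.c 4 (.c 1 (.c 3 (.l 35421600) .n) (.c 2 (.c 1 (.c 1 (.l 24412704) .n)
  .n) (.c 3 (.c 0 (.c 0 (.c 1 (.l 10666304) .n) .n) .n) .n))) (.c 5 (.c 0 (.c 2 (.c 1 (.l
  17201952) .n) .n) (.c 1 (.c 0 (.c 2 (.l 11742016) .n) (.c 1 (.c 0 (.c 1 (.l 7454368) .n) .n)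
  .n)) .n)) (.c 6 (.c 0 (.c 0 (.c 1 (.c 1 (.l 3464640) .n) .n) .n) .n) .n)))))) (.c 3 (.c 0 (.c
  6 (.c 1 (.l 49889088) .n) .n) (.c 1 (.c 4 (.c 2 (.l 35421600) .n) (.c 5 (.c 0 (.c 1 (.l
  24447120) .n) .n) .n)) (.c 2 (.c 2 (.c 3 (.l 25067088) .n) (.c 3 (.c 1 (.c 1 (.l 17238648) .n)
  .n) (.c 4 (.c 0 (.c 0 (.c 1 (.l 7501440) .n) .n) .n) .n))) (.c 3 (.c 0 (.c 4 (.l 17675712) .n)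
  (.c 1 (.c 2 (.c 1 (.l 12108512) .n) .n) (.c 2 (.c 0 (.c 2 (.l 8244496) .n) (.c 1 (.c 0 (.c 1
  (.l 5225072) .n) .n) .n)) .n))) (.c 4 (.c 0 (.c 1 (.c 2 (.l 5738720) .n) (.c 2 (.c 0 (.c 1 (.l
  3621824) .n) .n) .n)) (.c 1 (.c 0 (.c 1 (.c 1 (.l 2411968) .n) .n) .n) .n)) (.c 5 (.c 0 (.c 0
  (.c 0 (.c 2 (.l 647200) .n) .n) .n) .n) .n)))))) (.c 4 (.c 0 (.c 3 (.c 3 (.l 17675712) .n) (.c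
  4 (.c 1 (.c 1 (.l 12128128) .n) .n) (.c 5 (.c 0 (.c 0 (.c 1 (.l 5256000) .n) .n) .n) .n))) (.c
  1 (.c 1 (.c 4 (.l 12422912) .n) (.c 2 (.c 2 (.c 1 (.l 8489696) .n) .n) (.c 3 (.c 0 (.c 2 (.l
  5765504) .n) (.c 1 (.c 0 (.c 1 (.l 3647872) .n) .n) .n)) .n))) (.c 2 (.c 0 (.c 3 (.c 1 (.l
  5915104) .n) .n) (.c 1 (.c 1 (.c 2 (.l 3997184) .n) (.c 2 (.c 0 (.c 1 (.l 2518560) .n) .n)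
  .n)) (.c 2 (.c 0 (.c 1 (.c 1 (.l 1671776) .n) .n) .n) .n))) (.c 3 (.c 0 (.c 0 (.c 3 (.l
  1835328) .n) (.c 1 (.c 1 (.c 1 (.l 1139392) .n) .n) .n)) (.c 1 (.c 0 (.c 0 (.c 2 (.l 443456)
  .n) .n) .n) .n)) .n)))) (.c 5 (.c 0 (.c 0 (.c 5 (.l 6059520) .n) (.c 1 (.c 3 (.c 1 (.l
  4111840) .n) .n) (.c 2 (.c 1 (.c 2 (.l 2770560) .n) (.c 2 (.c 0 (.c 1 (.l 1742880) .n) .n)
  .n)) (.c 3 (.c 0 (.c 1 (.c 1 (.l 1153040) .n) .n) .n) .n)))) (.c 1 (.c 0 (.c 2 (.c 2 (.l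
  1900096) .n) (.c 3 (.c 0 (.c 1 (.l 1190368) .n) .n) .n)) (.c 1 (.c 0 (.c 3 (.l 1261248) .n)
  (.c 1 (.c 1 (.c 1 (.l 781744) .n) .n) .n)) (.c 2 (.c 0 (.c 0 (.c 2 (.l 302240) .n) .n) .n)
  .n))) (.c 2 (.c 0 (.c 0 (.c 2 (.c 1 (.l 337120) .n) .n) (.c 1 (.c 0 (.c 2 (.l 199520) .n) .n)
  .n)) .n) .n))) (.c 6 (.c 0 (.c 0 (.c 1 (.c 3 (.l 577536) .n) (.c 2 (.c 1 (.c 1 (.l 355872) .n)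
  .n) .n)) (.c 1 (.c 0 (.c 2 (.c 1 (.l 227136) .n) .n) (.c 1 (.c 0 (.c 2 (.l 134208) .n) .n)
  .n)) .n)) (.c 1 (.c 0 (.c 0 (.c 1 (.c 2 (.l 51840) .n) .n) .n) .n) .n)) .n))))))) (.c 1 (.c 0
  (.c 2 (.c 7 (.l 68193440) .n) (.c 3 (.c 5 (.c 1 (.l 48589520) .n) .n) (.c 4 (.c 3 (.c 2 (.l
  34520096) .n) (.c 4 (.c 0 (.c 1 (.l 23846464) .n) .n) .n)) (.c 5 (.c 1 (.c 3 (.l 24447120) .n)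
  (.c 2 (.c 1 (.c 1 (.l 16829040) .n) .n) (.c 3 (.c 0 (.c 0 (.c 1 (.l 7338880) .n) .n) .n) .n)))
  (.c 6 (.c 0 (.c 2 (.c 1 (.l 11832576) .n) .n) (.c 1 (.c 0 (.c 2 (.l 8066688) .n) (.c 1 (.c 0
  (.c 1 (.l 5117664) .n) .n) .n)) .n)) (.c 7 (.c 0 (.c 0 (.c 1 (.c 1 (.l 2369760) .n) .n) .n)
  .n) .n)))))) (.c 1 (.c 0 (.c 8 (.l 48482560) .n) (.c 1 (.c 6 (.c 1 (.l 34456544) .n) .n) (.c 2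
  (.c 4 (.c 2 (.l 24412704) .n) (.c 5 (.c 0 (.c 1 (.l 16829040) .n) .n) .n)) (.c 3 (.c 2 (.c 3
  (.l 17238648) .n) (.c 3 (.c 1 (.c 1 (.l 11840644) .n) .n) (.c 4 (.c 0 (.c 0 (.c 1 (.l 5142656)
  .n) .n) .n) .n))) (.c 4 (.c 0 (.c 4 (.l 12128128) .n) (.c 1 (.c 2 (.c 1 (.l 8297888) .n) .n)
  (.c 2 (.c 0 (.c 2 (.l 5642656) .n) (.c 1 (.c 0 (.c 1 (.l 3573792) .n) .n) .n)) .n))) (.c 5 (.c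
  0 (.c 1 (.c 2 (.l 3918096) .n) (.c 2 (.c 0 (.c 1 (.l 2471232) .n) .n) .n)) (.c 1 (.c 0 (.c 1
  (.c 1 (.l 1643376) .n) .n) .n) .n)) (.c 6 (.c 0 (.c 0 (.c 0 (.c 2 (.l 438720) .n) .n) .n) .n)
  .n))))))) (.c 2 (.c 0 (.c 5 (.c 2 (.l 17201952) .n) (.c 6 (.c 0 (.c 1 (.l 11832576) .n) .n)
  .n)) (.c 1 (.c 3 (.c 3 (.l 12108512) .n) (.c 4 (.c 1 (.c 1 (.l 8297888) .n) .n) (.c 5 (.c 0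
  (.c 0 (.c 1 (.l 3589200) .n) .n) .n) .n))) (.c 2 (.c 1 (.c 4 (.l 8489696) .n) (.c 2 (.c 2 (.c
  1 (.l 5794400) .n) .n) (.c 3 (.c 0 (.c 2 (.l 3929952) .n) (.c 1 (.c 0 (.c 1 (.l 2484944) .n)
  .n) .n)) .n))) (.c 3 (.c 0 (.c 3 (.c 1 (.l 4026920) .n) .n) (.c 1 (.c 1 (.c 2 (.l 2717568) .n)
  (.c 2 (.c 0 (.c 1 (.l 1711256) .n) .n) .n)) (.c 2 (.c 0 (.c 1 (.c 1 (.l 1134280) .n) .n) .n)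
  .n))) (.c 4 (.c 0 (.c 0 (.c 3 (.l 1242496) .n) (.c 1 (.c 1 (.c 1 (.l 770912) .n) .n) .n)) (.c
  1 (.c 0 (.c 0 (.c 2 (.l 299328) .n) .n) .n) .n)) .n))))) (.c 3 (.c 0 (.c 2 (.c 4 (.l 5915104)
  .n) (.c 3 (.c 2 (.c 1 (.l 4026920) .n) .n) (.c 4 (.c 0 (.c 2 (.l 2723776) .n) (.c 1 (.c 0 (.c
  1 (.l 1719488) .n) .n) .n)) .n))) (.c 1 (.c 0 (.c 5 (.l 4111840) .n) (.c 1 (.c 3 (.c 1 (.l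
  2786432) .n) .n) (.c 2 (.c 1 (.c 2 (.l 1874928) .n) (.c 2 (.c 0 (.c 1 (.l 1178776) .n) .n)
  .n)) (.c 3 (.c 0 (.c 1 (.c 1 (.l 778732) .n) .n) .n) .n)))) (.c 2 (.c 0 (.c 2 (.c 2 (.l
  1282064) .n) (.c 3 (.c 0 (.c 1 (.l 802736) .n) .n) .n)) (.c 1 (.c 0 (.c 3 (.l 849744) .n) (.c
  1 (.c 1 (.c 1 (.l 526400) .n) .n) .n)) (.c 2 (.c 0 (.c 0 (.c 2 (.l 203056) .n) .n) .n) .n)))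
  (.c 3 (.c 0 (.c 0 (.c 2 (.c 1 (.l 225864) .n) .n) (.c 1 (.c 0 (.c 2 (.l 133608) .n) .n) .n))
  .n) .n)))) (.c 4 (.c 0 (.c 0 (.c 4 (.c 1 (.l 1310784) .n) .n) (.c 1 (.c 2 (.c 2 (.l 873984)
  .n) (.c 3 (.c 0 (.c 1 (.l 546400) .n) .n) .n)) (.c 2 (.c 0 (.c 3 (.l 577152) .n) (.c 1 (.c 1
  (.c 1 (.l 356992) .n) .n) .n)) (.c 3 (.c 0 (.c 0 (.c 2 (.l 136832) .n) .n) .n) .n)))) (.c 1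
  (.c 0 (.c 1 (.c 3 (.l 385600) .n) (.c 2 (.c 1 (.c 1 (.l 237488) .n) .n) .n)) (.c 1 (.c 0 (.c 2
  (.c 1 (.l 151328) .n) .n) (.c 1 (.c 0 (.c 2 (.l 89376) .n) .n) .n)) .n)) (.c 2 (.c 0 (.c 0 (.c
  1 (.c 2 (.l 34304) .n) .n) .n) .n) .n))) (.c 5 (.c 0 (.c 0 (.c 0 (.c 4 (.l 106496) .n) (.c 1
  (.c 2 (.c 1 (.l 64416) .n) .n) (.c 2 (.c 0 (.c 2 (.l 37792) .n) .n) .n))) (.c 1 (.c 0 (.c 1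
  (.c 2 (.l 22336) .n) .n) .n) .n)) .n) .n)))))) (.c 2 (.c 0 (.c 0 (.c 7 (.c 1 (.l 16662240) .n)
  .n) (.c 1 (.c 5 (.c 2 (.l 11742016) .n) (.c 6 (.c 0 (.c 1 (.l 8066688) .n) .n) .n)) (.c 2 (.c
  3 (.c 3 (.l 8244496) .n) (.c 4 (.c 1 (.c 1 (.l 5642656) .n) .n) (.c 5 (.c 0 (.c 0 (.c 1 (.l
  2436000) .n) .n) .n) .n))) (.c 3 (.c 1 (.c 4 (.l 5765504) .n) (.c 2 (.c 2 (.c 1 (.l 3929952)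
  .n) .n) (.c 3 (.c 0 (.c 2 (.l 2661888) .n) (.c 1 (.c 0 (.c 1 (.l 1682112) .n) .n) .n)) .n)))
  (.c 4 (.c 0 (.c 3 (.c 1 (.l 2723776) .n) .n) (.c 1 (.c 1 (.c 2 (.l 1835648) .n) (.c 2 (.c 0
  (.c 1 (.l 1155232) .n) .n) .n)) (.c 2 (.c 0 (.c 1 (.c 1 (.l 764640) .n) .n) .n) .n))) (.c 5
  (.c 0 (.c 0 (.c 3 (.l 835616) .n) (.c 1 (.c 1 (.c 1 (.l 518176) .n) .n) .n)) (.c 1 (.c 0 (.c 0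
  (.c 2 (.l 200736) .n) .n) .n) .n)) .n)))))) (.c 1 (.c 0 (.c 4 (.c 3 (.l 5738720) .n) (.c 5 (.c
  1 (.c 1 (.l 3918096) .n) .n) (.c 6 (.c 0 (.c 0 (.c 1 (.l 1684416) .n) .n) .n) .n))) (.c 1 (.c
  2 (.c 4 (.l 3997184) .n) (.c 3 (.c 2 (.c 1 (.l 2717568) .n) .n) (.c 4 (.c 0 (.c 2 (.l 1835648)
  .n) (.c 1 (.c 0 (.c 1 (.l 1158144) .n) .n) .n)) .n))) (.c 2 (.c 0 (.c 5 (.l 2770560) .n) (.c 1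
  (.c 3 (.c 1 (.l 1874928) .n) .n) (.c 2 (.c 1 (.c 2 (.l 1259856) .n) (.c 2 (.c 0 (.c 1 (.l
  791632) .n) .n) .n)) (.c 3 (.c 0 (.c 1 (.c 1 (.l 522232) .n) .n) .n) .n)))) (.c 3 (.c 0 (.c 2
  (.c 2 (.l 858816) .n) (.c 3 (.c 0 (.c 1 (.l 537440) .n) .n) .n)) (.c 1 (.c 0 (.c 3 (.l 568384)
  .n) (.c 1 (.c 1 (.c 1 (.l 351920) .n) .n) .n)) (.c 2 (.c 0 (.c 0 (.c 2 (.l 135456) .n) .n) .n)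
  .n))) (.c 4 (.c 0 (.c 0 (.c 2 (.c 1 (.l 150240) .n) .n) (.c 1 (.c 0 (.c 2 (.l 88832) .n) .n)
  .n)) .n) .n))))) (.c 2 (.c 0 (.c 1 (.c 5 (.l 1900096) .n) (.c 2 (.c 3 (.c 1 (.l 1282064) .n)
  .n) (.c 3 (.c 1 (.c 2 (.l 858816) .n) (.c 2 (.c 0 (.c 1 (.l 538816) .n) .n) .n)) (.c 4 (.c 0
  (.c 1 (.c 1 (.l 354240) .n) .n) .n) .n)))) (.c 1 (.c 0 (.c 4 (.c 1 (.l 873984) .n) .n) (.c 1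
  (.c 2 (.c 2 (.l 581888) .n) (.c 3 (.c 0 (.c 1 (.l 363600) .n) .n) .n)) (.c 2 (.c 0 (.c 3 (.l
  383696) .n) (.c 1 (.c 1 (.c 1 (.l 237216) .n) .n) .n)) (.c 3 (.c 0 (.c 0 (.c 2 (.l 90736) .n)
  .n) .n) .n)))) (.c 2 (.c 0 (.c 1 (.c 3 (.l 255408) .n) (.c 2 (.c 1 (.c 1 (.l 157232) .n) .n)
  .n)) (.c 1 (.c 0 (.c 2 (.c 1 (.l 100032) .n) .n) (.c 1 (.c 0 (.c 2 (.l 59056) .n) .n) .n))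
  .n)) (.c 3 (.c 0 (.c 0 (.c 1 (.c 2 (.l 22528) .n) .n) .n) .n) .n)))) (.c 3 (.c 0 (.c 0 (.c 3
  (.c 2 (.l 260032) .n) (.c 4 (.c 0 (.c 1 (.l 161600) .n) .n) .n)) (.c 1 (.c 1 (.c 3 (.l 169328)
  .n) (.c 2 (.c 1 (.c 1 (.l 104096) .n) .n) .n)) (.c 2 (.c 0 (.c 2 (.c 1 (.l 65920) .n) .n) (.c
  1 (.c 0 (.c 2 (.l 38864) .n) .n) .n)) .n))) (.c 1 (.c 0 (.c 0 (.c 4 (.l 69568) .n) (.c 1 (.c 2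
  (.c 1 (.l 42064) .n) .n) (.c 2 (.c 0 (.c 2 (.l 24672) .n) .n) .n))) (.c 1 (.c 0 (.c 1 (.c 2
  (.l 14560) .n) .n) .n) .n)) .n)) (.c 4 (.c 0 (.c 0 (.c 0 (.c 3 (.c 1 (.l 9632) .n) .n) (.c 1
  (.c 1 (.c 2 (.l 5504) .n) .n) .n)) .n) .n) .n))))) (.c 3 (.c 0 (.c 0 (.c 3 (.c 4 (.l 1835328)
  .n) (.c 4 (.c 2 (.c 1 (.l 1242496) .n) .n) (.c 5 (.c 0 (.c 2 (.l 835616) .n) (.c 1 (.c 0 (.c 1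
  (.l 526096) .n) .n) .n)) .n))) (.c 1 (.c 1 (.c 5 (.l 1261248) .n) (.c 2 (.c 3 (.c 1 (.l
  849744) .n) .n) (.c 3 (.c 1 (.c 2 (.l 568384) .n) (.c 2 (.c 0 (.c 1 (.l 356416) .n) .n) .n))
  (.c 4 (.c 0 (.c 1 (.c 1 (.l 233984) .n) .n) .n) .n)))) (.c 2 (.c 0 (.c 4 (.c 1 (.l 577152) .n)
  .n) (.c 1 (.c 2 (.c 2 (.l 383696) .n) (.c 3 (.c 0 (.c 1 (.l 239640) .n) .n) .n)) (.c 2 (.c 0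
  (.c 3 (.l 252640) .n) (.c 1 (.c 1 (.c 1 (.l 156120) .n) .n) .n)) (.c 3 (.c 0 (.c 0 (.c 2 (.l
  59600) .n) .n) .n) .n)))) (.c 3 (.c 0 (.c 1 (.c 3 (.l 167528) .n) (.c 2 (.c 1 (.c 1 (.l
  103088) .n) .n) .n)) (.c 1 (.c 0 (.c 2 (.c 1 (.l 65488) .n) .n) (.c 1 (.c 0 (.c 2 (.l 38648)
  .n) .n) .n)) .n)) (.c 4 (.c 0 (.c 0 (.c 1 (.c 2 (.l 14656) .n) .n) .n) .n) .n))))) (.c 1 (.c 0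
  (.c 0 (.c 6 (.l 577536) .n) (.c 1 (.c 4 (.c 1 (.l 385600) .n) .n) (.c 2 (.c 2 (.c 2 (.l
  255408) .n) (.c 3 (.c 0 (.c 1 (.l 159288) .n) .n) .n)) (.c 3 (.c 0 (.c 3 (.l 167528) .n) (.c 1
  (.c 1 (.c 1 (.l 103380) .n) .n) .n)) (.c 4 (.c 0 (.c 0 (.c 2 (.l 39232) .n) .n) .n) .n)))))
  (.c 1 (.c 0 (.c 3 (.c 2 (.l 169328) .n) (.c 4 (.c 0 (.c 1 (.l 105184) .n) .n) .n)) (.c 1 (.c 1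
  (.c 3 (.l 110096) .n) (.c 2 (.c 1 (.c 1 (.l 67656) .n) .n) .n)) (.c 2 (.c 0 (.c 2 (.c 1 (.l
  42784) .n) .n) (.c 1 (.c 0 (.c 2 (.l 25216) .n) .n) .n)) .n))) (.c 2 (.c 0 (.c 0 (.c 4 (.l
  44960) .n) (.c 1 (.c 2 (.c 1 (.l 27176) .n) .n) (.c 2 (.c 0 (.c 2 (.l 15936) .n) .n) .n))) (.c
  1 (.c 0 (.c 1 (.c 2 (.l 9392) .n) .n) .n) .n)) .n))) (.c 2 (.c 0 (.c 0 (.c 2 (.c 3 (.l 45408)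
  .n) (.c 3 (.c 1 (.c 1 (.l 27752) .n) .n) .n)) (.c 1 (.c 0 (.c 4 (.l 28544) .n) (.c 1 (.c 2 (.c
  1 (.l 17232) .n) .n) (.c 2 (.c 0 (.c 2 (.l 10096) .n) .n) .n))) (.c 2 (.c 0 (.c 1 (.c 2 (.l
  5920) .n) .n) .n) .n))) (.c 1 (.c 0 (.c 0 (.c 3 (.c 1 (.l 6104) .n) .n) (.c 1 (.c 1 (.c 2 (.l
  3488) .n) .n) .n)) .n) .n)) .n))) (.c 4 (.c 0 (.c 0 (.c 0 (.c 5 (.c 1 (.l 106496) .n) .n) (.c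
  1 (.c 3 (.c 2 (.l 69568) .n) (.c 4 (.c 0 (.c 1 (.l 43136) .n) .n) .n)) (.c 2 (.c 1 (.c 3 (.l
  44960) .n) (.c 2 (.c 1 (.c 1 (.l 27584) .n) .n) .n)) (.c 3 (.c 0 (.c 2 (.c 1 (.l 17344) .n)
  .n) (.c 1 (.c 0 (.c 2 (.l 10208) .n) .n) .n)) .n)))) (.c 1 (.c 0 (.c 2 (.c 3 (.l 28544) .n)
  (.c 3 (.c 1 (.c 1 (.l 17440) .n) .n) .n)) (.c 1 (.c 0 (.c 4 (.l 17920) .n) (.c 1 (.c 2 (.c 1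
  (.l 10816) .n) .n) (.c 2 (.c 0 (.c 2 (.l 6336) .n) .n) .n))) (.c 2 (.c 0 (.c 1 (.c 2 (.l 3712)
  .n) .n) .n) .n))) (.c 2 (.c 0 (.c 0 (.c 3 (.c 1 (.l 3808) .n) .n) (.c 1 (.c 1 (.c 2 (.l 2176)
  .n) .n) .n)) .n) .n))) (.c 1 (.c 0 (.c 0 (.c 1 (.c 4 (.l 6400) .n) (.c 2 (.c 2 (.c 1 (.l 3840)
  .n) .n) (.c 3 (.c 0 (.c 2 (.l 2240) .n) .n) .n))) (.c 1 (.c 0 (.c 3 (.c 1 (.l 2240) .n) .n)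
  (.c 1 (.c 1 (.c 2 (.l 1280) .n) .n) .n)) .n)) .n) .n)) (.c 5 (.c 0 (.c 0 (.c 0 (.c 0 (.c 5 (.l
  576) .n) .n) .n) .n) .n) .n)))))) (.c 1 (.c 0 (.c 0 (.c 1 (.c 8 (.l 21351680) .n) (.c 2 (.c 6
  (.c 1 (.l 15114880) .n) .n) (.c 3 (.c 4 (.c 2 (.l 10666304) .n) (.c 5 (.c 0 (.c 1 (.l 7338880)
  .n) .n) .n)) (.c 4 (.c 2 (.c 3 (.l 7501440) .n) (.c 3 (.c 1 (.c 1 (.l 5142656) .n) .n) (.c 4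
  (.c 0 (.c 0 (.c 1 (.l 2227456) .n) .n) .n) .n))) (.c 5 (.c 0 (.c 4 (.l 5256000) .n) (.c 1 (.c
  2 (.c 1 (.l 3589200) .n) .n) (.c 2 (.c 0 (.c 2 (.l 2436000) .n) (.c 1 (.c 0 (.c 1 (.l 1541600)
  .n) .n) .n)) .n))) (.c 6 (.c 0 (.c 1 (.c 2 (.l 1684416) .n) (.c 2 (.c 0 (.c 1 (.l 1061568) .n)
  .n) .n)) (.c 1 (.c 0 (.c 1 (.c 1 (.l 704544) .n) .n) .n) .n)) (.c 7 (.c 0 (.c 0 (.c 0 (.c 2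
  (.l 186720) .n) .n) .n) .n) .n))))))) (.c 1 (.c 0 (.c 7 (.c 1 (.l 10596320) .n) .n) (.c 1 (.c
  5 (.c 2 (.l 7454368) .n) (.c 6 (.c 0 (.c 1 (.l 5117664) .n) .n) .n)) (.c 2 (.c 3 (.c 3 (.l
  5225072) .n) (.c 4 (.c 1 (.c 1 (.l 3573792) .n) .n) (.c 5 (.c 0 (.c 0 (.c 1 (.l 1541600) .n)
  .n) .n) .n))) (.c 3 (.c 1 (.c 4 (.l 3647872) .n) (.c 2 (.c 2 (.c 1 (.l 2484944) .n) .n) (.c 3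
  (.c 0 (.c 2 (.l 1682112) .n) (.c 1 (.c 0 (.c 1 (.l 1062784) .n) .n) .n)) .n))) (.c 4 (.c 0 (.c
  3 (.c 1 (.l 1719488) .n) .n) (.c 1 (.c 1 (.c 2 (.l 1158144) .n) (.c 2 (.c 0 (.c 1 (.l 728736)
  .n) .n) .n)) (.c 2 (.c 0 (.c 1 (.c 1 (.l 482080) .n) .n) .n) .n))) (.c 5 (.c 0 (.c 0 (.c 3 (.l
  526096) .n) (.c 1 (.c 1 (.c 1 (.l 326192) .n) .n) .n)) (.c 1 (.c 0 (.c 0 (.c 2 (.l 126288) .n)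
  .n) .n) .n)) .n)))))) (.c 2 (.c 0 (.c 4 (.c 3 (.l 3621824) .n) (.c 5 (.c 1 (.c 1 (.l 2471232)
  .n) .n) (.c 6 (.c 0 (.c 0 (.c 1 (.l 1061568) .n) .n) .n) .n))) (.c 1 (.c 2 (.c 4 (.l 2518560)
  .n) (.c 3 (.c 2 (.c 1 (.l 1711256) .n) .n) (.c 4 (.c 0 (.c 2 (.l 1155232) .n) (.c 1 (.c 0 (.c
  1 (.l 728736) .n) .n) .n)) .n))) (.c 2 (.c 0 (.c 5 (.l 1742880) .n) (.c 1 (.c 3 (.c 1 (.l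
  1178776) .n) .n) (.c 2 (.c 1 (.c 2 (.l 791632) .n) (.c 2 (.c 0 (.c 1 (.l 497344) .n) .n) .n))
  (.c 3 (.c 0 (.c 1 (.c 1 (.l 327920) .n) .n) .n) .n)))) (.c 3 (.c 0 (.c 2 (.c 2 (.l 538816) .n)
  (.c 3 (.c 0 (.c 1 (.l 337136) .n) .n) .n)) (.c 1 (.c 0 (.c 3 (.l 356416) .n) (.c 1 (.c 1 (.c 1
  (.l 220648) .n) .n) .n)) (.c 2 (.c 0 (.c 0 (.c 2 (.l 84880) .n) .n) .n) .n))) (.c 4 (.c 0 (.c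
  0 (.c 2 (.c 1 (.l 94016) .n) .n) (.c 1 (.c 0 (.c 2 (.l 55584) .n) .n) .n)) .n) .n))))) (.c 3
  (.c 0 (.c 1 (.c 5 (.l 1190368) .n) (.c 2 (.c 3 (.c 1 (.l 802736) .n) .n) (.c 3 (.c 1 (.c 2 (.l
  537440) .n) (.c 2 (.c 0 (.c 1 (.l 337136) .n) .n) .n)) (.c 4 (.c 0 (.c 1 (.c 1 (.l 221536) .n)
  .n) .n) .n)))) (.c 1 (.c 0 (.c 4 (.c 1 (.l 546400) .n) .n) (.c 1 (.c 2 (.c 2 (.l 363600) .n)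
  (.c 3 (.c 0 (.c 1 (.l 227168) .n) .n) .n)) (.c 2 (.c 0 (.c 3 (.l 239640) .n) (.c 1 (.c 1 (.c 1
  (.l 148136) .n) .n) .n)) (.c 3 (.c 0 (.c 0 (.c 2 (.l 56632) .n) .n) .n) .n)))) (.c 2 (.c 0 (.c
  1 (.c 3 (.l 159288) .n) (.c 2 (.c 1 (.c 1 (.l 98048) .n) .n) .n)) (.c 1 (.c 0 (.c 2 (.c 1 (.l
  62352) .n) .n) (.c 1 (.c 0 (.c 2 (.l 36808) .n) .n) .n)) .n)) (.c 3 (.c 0 (.c 0 (.c 1 (.c 2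
  (.l 14016) .n) .n) .n) .n) .n)))) (.c 4 (.c 0 (.c 0 (.c 3 (.c 2 (.l 161600) .n) (.c 4 (.c 0
  (.c 1 (.l 100416) .n) .n) .n)) (.c 1 (.c 1 (.c 3 (.l 105184) .n) (.c 2 (.c 1 (.c 1 (.l 64656)
  .n) .n) .n)) (.c 2 (.c 0 (.c 2 (.c 1 (.l 40928) .n) .n) (.c 1 (.c 0 (.c 2 (.l 24128) .n) .n)
  .n)) .n))) (.c 1 (.c 0 (.c 0 (.c 4 (.l 43136) .n) (.c 1 (.c 2 (.c 1 (.l 26080) .n) .n) (.c 2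
  (.c 0 (.c 2 (.l 15296) .n) .n) .n))) (.c 1 (.c 0 (.c 1 (.c 2 (.l 9024) .n) .n) .n) .n)) .n))
  (.c 5 (.c 0 (.c 0 (.c 0 (.c 3 (.c 1 (.l 5936) .n) .n) (.c 1 (.c 1 (.c 2 (.l 3392) .n) .n) .n))
  .n) .n) .n)))))) (.c 1 (.c 0 (.c 0 (.c 6 (.c 2 (.l 3464640) .n) (.c 7 (.c 0 (.c 1 (.l 2369760)
  .n) .n) .n)) (.c 1 (.c 4 (.c 3 (.l 2411968) .n) (.c 5 (.c 1 (.c 1 (.l 1643376) .n) .n) (.c 6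
  (.c 0 (.c 0 (.c 1 (.l 704544) .n) .n) .n) .n))) (.c 2 (.c 2 (.c 4 (.l 1671776) .n) (.c 3 (.c 2
  (.c 1 (.l 1134280) .n) .n) (.c 4 (.c 0 (.c 2 (.l 764640) .n) (.c 1 (.c 0 (.c 1 (.l 482080) .n)
  .n) .n)) .n))) (.c 3 (.c 0 (.c 5 (.l 1153040) .n) (.c 1 (.c 3 (.c 1 (.l 778732) .n) .n) (.c 2
  (.c 1 (.c 2 (.l 522232) .n) (.c 2 (.c 0 (.c 1 (.l 327920) .n) .n) .n)) (.c 3 (.c 0 (.c 1 (.c 1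
  (.l 215904) .n) .n) .n) .n)))) (.c 4 (.c 0 (.c 2 (.c 2 (.l 354240) .n) (.c 3 (.c 0 (.c 1 (.l
  221536) .n) .n) .n)) (.c 1 (.c 0 (.c 3 (.l 233984) .n) (.c 1 (.c 1 (.c 1 (.l 144784) .n) .n)
  .n)) (.c 2 (.c 0 (.c 0 (.c 2 (.l 55584) .n) .n) .n) .n))) (.c 5 (.c 0 (.c 0 (.c 2 (.c 1 (.l
  61376) .n) .n) (.c 1 (.c 0 (.c 2 (.l 36272) .n) .n) .n)) .n) .n)))))) (.c 1 (.c 0 (.c 3 (.c 4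
  (.l 1139392) .n) (.c 4 (.c 2 (.c 1 (.l 770912) .n) .n) (.c 5 (.c 0 (.c 2 (.l 518176) .n) (.c 1
  (.c 0 (.c 1 (.l 326192) .n) .n) .n)) .n))) (.c 1 (.c 1 (.c 5 (.l 781744) .n) (.c 2 (.c 3 (.c 1
  (.l 526400) .n) .n) (.c 3 (.c 1 (.c 2 (.l 351920) .n) (.c 2 (.c 0 (.c 1 (.l 220648) .n) .n)
  .n)) (.c 4 (.c 0 (.c 1 (.c 1 (.l 144784) .n) .n) .n) .n)))) (.c 2 (.c 0 (.c 4 (.c 1 (.l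
  356992) .n) .n) (.c 1 (.c 2 (.c 2 (.l 237216) .n) (.c 3 (.c 0 (.c 1 (.l 148136) .n) .n) .n))
  (.c 2 (.c 0 (.c 3 (.l 156120) .n) (.c 1 (.c 1 (.c 1 (.l 96464) .n) .n) .n)) (.c 3 (.c 0 (.c 0
  (.c 2 (.l 36808) .n) .n) .n) .n)))) (.c 3 (.c 0 (.c 1 (.c 3 (.l 103380) .n) (.c 2 (.c 1 (.c 1
  (.l 63608) .n) .n) .n)) (.c 1 (.c 0 (.c 2 (.c 1 (.l 40392) .n) .n) (.c 1 (.c 0 (.c 2 (.l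
  23836) .n) .n) .n)) .n)) (.c 4 (.c 0 (.c 0 (.c 1 (.c 2 (.l 9024) .n) .n) .n) .n) .n))))) (.c 2
  (.c 0 (.c 0 (.c 6 (.l 355872) .n) (.c 1 (.c 4 (.c 1 (.l 237488) .n) .n) (.c 2 (.c 2 (.c 2 (.l
  157232) .n) (.c 3 (.c 0 (.c 1 (.l 98048) .n) .n) .n)) (.c 3 (.c 0 (.c 3 (.l 103088) .n) (.c 1
  (.c 1 (.c 1 (.l 63608) .n) .n) .n)) (.c 4 (.c 0 (.c 0 (.c 2 (.l 24128) .n) .n) .n) .n))))) (.c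
  1 (.c 0 (.c 3 (.c 2 (.l 104096) .n) (.c 4 (.c 0 (.c 1 (.l 64656) .n) .n) .n)) (.c 1 (.c 1 (.c
  3 (.l 67656) .n) (.c 2 (.c 1 (.c 1 (.l 41572) .n) .n) .n)) (.c 2 (.c 0 (.c 2 (.c 1 (.l 26280)
  .n) .n) (.c 1 (.c 0 (.c 2 (.l 15488) .n) .n) .n)) .n))) (.c 2 (.c 0 (.c 0 (.c 4 (.l 27584) .n)
  (.c 1 (.c 2 (.c 1 (.l 16672) .n) .n) (.c 2 (.c 0 (.c 2 (.l 9776) .n) .n) .n))) (.c 1 (.c 0 (.c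
  1 (.c 2 (.l 5760) .n) .n) .n) .n)) .n))) (.c 3 (.c 0 (.c 0 (.c 2 (.c 3 (.l 27752) .n) (.c 3
  (.c 1 (.c 1 (.l 16960) .n) .n) .n)) (.c 1 (.c 0 (.c 4 (.l 17440) .n) (.c 1 (.c 2 (.c 1 (.l
  10528) .n) .n) (.c 2 (.c 0 (.c 2 (.l 6168) .n) .n) .n))) (.c 2 (.c 0 (.c 1 (.c 2 (.l 3616) .n)
  .n) .n) .n))) (.c 1 (.c 0 (.c 0 (.c 3 (.c 1 (.l 3724) .n) .n) (.c 1 (.c 1 (.c 2 (.l 2128) .n)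
  .n) .n)) .n) .n)) .n)))) (.c 2 (.c 0 (.c 0 (.c 2 (.c 5 (.l 337120) .n) (.c 3 (.c 3 (.c 1 (.l
  225864) .n) .n) (.c 4 (.c 1 (.c 2 (.l 150240) .n) (.c 2 (.c 0 (.c 1 (.l 94016) .n) .n) .n))
  (.c 5 (.c 0 (.c 1 (.c 1 (.l 61376) .n) .n) .n) .n)))) (.c 1 (.c 0 (.c 6 (.l 227136) .n) (.c 1
  (.c 4 (.c 1 (.l 151328) .n) .n) (.c 2 (.c 2 (.c 2 (.l 100032) .n) (.c 3 (.c 0 (.c 1 (.l 62352)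
  .n) .n) .n)) (.c 3 (.c 0 (.c 3 (.l 65488) .n) (.c 1 (.c 1 (.c 1 (.l 40392) .n) .n) .n)) (.c 4
  (.c 0 (.c 0 (.c 2 (.l 15296) .n) .n) .n) .n))))) (.c 2 (.c 0 (.c 3 (.c 2 (.l 65920) .n) (.c 4
  (.c 0 (.c 1 (.l 40928) .n) .n) .n)) (.c 1 (.c 1 (.c 3 (.l 42784) .n) (.c 2 (.c 1 (.c 1 (.l
  26280) .n) .n) .n)) (.c 2 (.c 0 (.c 2 (.c 1 (.l 16592) .n) .n) (.c 1 (.c 0 (.c 2 (.l 9776) .n)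
  .n) .n)) .n))) (.c 3 (.c 0 (.c 0 (.c 4 (.l 17344) .n) (.c 1 (.c 2 (.c 1 (.l 10480) .n) .n) (.c
  2 (.c 0 (.c 2 (.l 6144) .n) .n) .n))) (.c 1 (.c 0 (.c 1 (.c 2 (.l 3616) .n) .n) .n) .n))
  .n)))) (.c 1 (.c 0 (.c 0 (.c 5 (.c 1 (.l 64416) .n) .n) (.c 1 (.c 3 (.c 2 (.l 42064) .n) (.c 4
  (.c 0 (.c 1 (.l 26080) .n) .n) .n)) (.c 2 (.c 1 (.c 3 (.l 27176) .n) (.c 2 (.c 1 (.c 1 (.l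
  16672) .n) .n) .n)) (.c 3 (.c 0 (.c 2 (.c 1 (.l 10480) .n) .n) (.c 1 (.c 0 (.c 2 (.l 6168) .n)
  .n) .n)) .n)))) (.c 1 (.c 0 (.c 2 (.c 3 (.l 17232) .n) (.c 3 (.c 1 (.c 1 (.l 10528) .n) .n)
  .n)) (.c 1 (.c 0 (.c 4 (.l 10816) .n) (.c 1 (.c 2 (.c 1 (.l 6528) .n) .n) (.c 2 (.c 0 (.c 2
  (.l 3824) .n) .n) .n))) (.c 2 (.c 0 (.c 1 (.c 2 (.l 2240) .n) .n) .n) .n))) (.c 2 (.c 0 (.c 0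
  (.c 3 (.c 1 (.l 2296) .n) .n) (.c 1 (.c 1 (.c 2 (.l 1312) .n) .n) .n)) .n) .n))) (.c 2 (.c 0
  (.c 0 (.c 1 (.c 4 (.l 3840) .n) (.c 2 (.c 2 (.c 1 (.l 2304) .n) .n) (.c 3 (.c 0 (.c 2 (.l
  1344) .n) .n) .n))) (.c 1 (.c 0 (.c 3 (.c 1 (.l 1344) .n) .n) (.c 1 (.c 1 (.c 2 (.l 768) .n)
  .n) .n)) .n)) .n) .n))) (.c 3 (.c 0 (.c 0 (.c 0 (.c 4 (.c 2 (.l 9632) .n) (.c 5 (.c 0 (.c 1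
  (.l 5936) .n) .n) .n)) (.c 1 (.c 2 (.c 3 (.l 6104) .n) (.c 3 (.c 1 (.c 1 (.l 3724) .n) .n)
  .n)) (.c 2 (.c 0 (.c 4 (.l 3808) .n) (.c 1 (.c 2 (.c 1 (.l 2296) .n) .n) (.c 2 (.c 0 (.c 2 (.l
  1344) .n) .n) .n))) (.c 3 (.c 0 (.c 1 (.c 2 (.l 784) .n) .n) .n) .n)))) (.c 1 (.c 0 (.c 1 (.c
  4 (.l 2240) .n) (.c 2 (.c 2 (.c 1 (.l 1344) .n) .n) (.c 3 (.c 0 (.c 2 (.l 784) .n) .n) .n)))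
  (.c 1 (.c 0 (.c 3 (.c 1 (.l 784) .n) .n) (.c 1 (.c 1 (.c 2 (.l 448) .n) .n) .n)) .n)) .n)) (.c
  1 (.c 0 (.c 0 (.c 0 (.c 5 (.l 336) .n) .n) .n) .n) .n)) .n)))) (.c 2 (.c 0 (.c 0 (.c 0 (.c 5
  (.c 3 (.l 647200) .n) (.c 6 (.c 1 (.c 1 (.l 438720) .n) .n) (.c 7 (.c 0 (.c 0 (.c 1 (.l
  186720) .n) .n) .n) .n))) (.c 1 (.c 3 (.c 4 (.l 443456) .n) (.c 4 (.c 2 (.c 1 (.l 299328) .n)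
  .n) (.c 5 (.c 0 (.c 2 (.l 200736) .n) (.c 1 (.c 0 (.c 1 (.l 126288) .n) .n) .n)) .n))) (.c 2
  (.c 1 (.c 5 (.l 302240) .n) (.c 2 (.c 3 (.c 1 (.l 203056) .n) .n) (.c 3 (.c 1 (.c 2 (.l
  135456) .n) (.c 2 (.c 0 (.c 1 (.l 84880) .n) .n) .n)) (.c 4 (.c 0 (.c 1 (.c 1 (.l 55584) .n)
  .n) .n) .n)))) (.c 3 (.c 0 (.c 4 (.c 1 (.l 136832) .n) .n) (.c 1 (.c 2 (.c 2 (.l 90736) .n)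
  (.c 3 (.c 0 (.c 1 (.l 56632) .n) .n) .n)) (.c 2 (.c 0 (.c 3 (.l 59600) .n) (.c 1 (.c 1 (.c 1
  (.l 36808) .n) .n) .n)) (.c 3 (.c 0 (.c 0 (.c 2 (.l 14016) .n) .n) .n) .n)))) (.c 4 (.c 0 (.c
  1 (.c 3 (.l 39232) .n) (.c 2 (.c 1 (.c 1 (.l 24128) .n) .n) .n)) (.c 1 (.c 0 (.c 2 (.c 1 (.l
  15296) .n) .n) (.c 1 (.c 0 (.c 2 (.l 9024) .n) .n) .n)) .n)) (.c 5 (.c 0 (.c 0 (.c 1 (.c 2 (.l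
  3392) .n) .n) .n) .n) .n)))))) (.c 1 (.c 0 (.c 2 (.c 5 (.l 199520) .n) (.c 3 (.c 3 (.c 1 (.l
  133608) .n) .n) (.c 4 (.c 1 (.c 2 (.l 88832) .n) (.c 2 (.c 0 (.c 1 (.l 55584) .n) .n) .n)) (.c
  5 (.c 0 (.c 1 (.c 1 (.l 36272) .n) .n) .n) .n)))) (.c 1 (.c 0 (.c 6 (.l 134208) .n) (.c 1 (.c
  4 (.c 1 (.l 89376) .n) .n) (.c 2 (.c 2 (.c 2 (.l 59056) .n) (.c 3 (.c 0 (.c 1 (.l 36808) .n)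
  .n) .n)) (.c 3 (.c 0 (.c 3 (.l 38648) .n) (.c 1 (.c 1 (.c 1 (.l 23836) .n) .n) .n)) (.c 4 (.c
  0 (.c 0 (.c 2 (.l 9024) .n) .n) .n) .n))))) (.c 2 (.c 0 (.c 3 (.c 2 (.l 38864) .n) (.c 4 (.c 0
  (.c 1 (.l 24128) .n) .n) .n)) (.c 1 (.c 1 (.c 3 (.l 25216) .n) (.c 2 (.c 1 (.c 1 (.l 15488)
  .n) .n) .n)) (.c 2 (.c 0 (.c 2 (.c 1 (.l 9776) .n) .n) (.c 1 (.c 0 (.c 2 (.l 5760) .n) .n)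
  .n)) .n))) (.c 3 (.c 0 (.c 0 (.c 4 (.l 10208) .n) (.c 1 (.c 2 (.c 1 (.l 6168) .n) .n) (.c 2
  (.c 0 (.c 2 (.l 3616) .n) .n) .n))) (.c 1 (.c 0 (.c 1 (.c 2 (.l 2128) .n) .n) .n) .n)) .n))))
  (.c 2 (.c 0 (.c 0 (.c 5 (.c 1 (.l 37792) .n) .n) (.c 1 (.c 3 (.c 2 (.l 24672) .n) (.c 4 (.c 0
  (.c 1 (.l 15296) .n) .n) .n)) (.c 2 (.c 1 (.c 3 (.l 15936) .n) (.c 2 (.c 1 (.c 1 (.l 9776) .n)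
  .n) .n)) (.c 3 (.c 0 (.c 2 (.c 1 (.l 6144) .n) .n) (.c 1 (.c 0 (.c 2 (.l 3616) .n) .n) .n))
  .n)))) (.c 1 (.c 0 (.c 2 (.c 3 (.l 10096) .n) (.c 3 (.c 1 (.c 1 (.l 6168) .n) .n) .n)) (.c 1
  (.c 0 (.c 4 (.l 6336) .n) (.c 1 (.c 2 (.c 1 (.l 3824) .n) .n) (.c 2 (.c 0 (.c 2 (.l 2240) .n)
  .n) .n))) (.c 2 (.c 0 (.c 1 (.c 2 (.l 1312) .n) .n) .n) .n))) (.c 2 (.c 0 (.c 0 (.c 3 (.c 1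
  (.l 1344) .n) .n) (.c 1 (.c 1 (.c 2 (.l 768) .n) .n) .n)) .n) .n))) (.c 3 (.c 0 (.c 0 (.c 1
  (.c 4 (.l 2240) .n) (.c 2 (.c 2 (.c 1 (.l 1344) .n) .n) (.c 3 (.c 0 (.c 2 (.l 784) .n) .n)
  .n))) (.c 1 (.c 0 (.c 3 (.c 1 (.l 784) .n) .n) (.c 1 (.c 1 (.c 2 (.l 448) .n) .n) .n)) .n))
  .n) .n)))) (.c 1 (.c 0 (.c 0 (.c 1 (.c 6 (.l 51840) .n) (.c 2 (.c 4 (.c 1 (.l 34304) .n) .n)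
  (.c 3 (.c 2 (.c 2 (.l 22528) .n) (.c 3 (.c 0 (.c 1 (.l 14016) .n) .n) .n)) (.c 4 (.c 0 (.c 3
  (.l 14656) .n) (.c 1 (.c 1 (.c 1 (.l 9024) .n) .n) .n)) (.c 5 (.c 0 (.c 0 (.c 2 (.l 3392) .n)
  .n) .n) .n))))) (.c 1 (.c 0 (.c 5 (.c 1 (.l 22336) .n) .n) (.c 1 (.c 3 (.c 2 (.l 14560) .n)
  (.c 4 (.c 0 (.c 1 (.l 9024) .n) .n) .n)) (.c 2 (.c 1 (.c 3 (.l 9392) .n) (.c 2 (.c 1 (.c 1 (.l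
  5760) .n) .n) .n)) (.c 3 (.c 0 (.c 2 (.c 1 (.l 3616) .n) .n) (.c 1 (.c 0 (.c 2 (.l 2128) .n)
  .n) .n)) .n)))) (.c 2 (.c 0 (.c 2 (.c 3 (.l 5920) .n) (.c 3 (.c 1 (.c 1 (.l 3616) .n) .n) .n))
  (.c 1 (.c 0 (.c 4 (.l 3712) .n) (.c 1 (.c 2 (.c 1 (.l 2240) .n) .n) (.c 2 (.c 0 (.c 2 (.l
  1312) .n) .n) .n))) (.c 2 (.c 0 (.c 1 (.c 2 (.l 768) .n) .n) .n) .n))) (.c 3 (.c 0 (.c 0 (.c 3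
  (.c 1 (.l 784) .n) .n) (.c 1 (.c 1 (.c 2 (.l 448) .n) .n) .n)) .n) .n)))) (.c 1 (.c 0 (.c 0
  (.c 4 (.c 2 (.l 5504) .n) (.c 5 (.c 0 (.c 1 (.l 3392) .n) .n) .n)) (.c 1 (.c 2 (.c 3 (.l 3488)
  .n) (.c 3 (.c 1 (.c 1 (.l 2128) .n) .n) .n)) (.c 2 (.c 0 (.c 4 (.l 2176) .n) (.c 1 (.c 2 (.c 1
  (.l 1312) .n) .n) (.c 2 (.c 0 (.c 2 (.l 768) .n) .n) .n))) (.c 3 (.c 0 (.c 1 (.c 2 (.l 448)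
  .n) .n) .n) .n)))) (.c 1 (.c 0 (.c 1 (.c 4 (.l 1280) .n) (.c 2 (.c 2 (.c 1 (.l 768) .n) .n)
  (.c 3 (.c 0 (.c 2 (.l 448) .n) .n) .n))) (.c 1 (.c 0 (.c 3 (.c 1 (.l 448) .n) .n) (.c 1 (.c 1
  (.c 2 (.l 256) .n) .n) .n)) .n)) .n)) (.c 2 (.c 0 (.c 0 (.c 0 (.c 5 (.l 192) .n) .n) .n) .n)
  .n))) (.c 2 (.c 0 (.c 0 (.c 0 (.c 3 (.c 3 (.l 528) .n) .n) (.c 1 (.c 1 (.c 4 (.l 320) .n) .n)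
  .n)) (.c 1 (.c 0 (.c 0 (.c 5 (.l 96) .n) .n) .n) .n)) .n) .n))) (.c 3 (.c 0 (.c 0 (.c 0 (.c 0
  (.c 7 (.l 5280) .n) (.c 1 (.c 5 (.c 1 (.l 3440) .n) .n) (.c 2 (.c 3 (.c 2 (.l 2224) .n) .n)
  (.c 3 (.c 1 (.c 3 (.l 1424) .n) .n) .n)))) (.c 1 (.c 0 (.c 4 (.c 2 (.l 1376) .n) .n) (.c 1 (.c
  2 (.c 3 (.l 872) .n) .n) (.c 2 (.c 0 (.c 4 (.l 544) .n) .n) .n))) (.c 2 (.c 0 (.c 1 (.c 4 (.l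
  320) .n) .n) .n) .n))) (.c 1 (.c 0 (.c 0 (.c 3 (.c 3 (.l 264) .n) .n) (.c 1 (.c 1 (.c 4 (.l
  160) .n) .n) .n)) (.c 1 (.c 0 (.c 0 (.c 5 (.l 48) .n) .n) .n) .n)) .n)) .n) .n))))

noncomputable def t17_8 : Tr := (.c 0 (.c 0 (.c 0 (.c 0 (.c 9 (.l 3230080) .n) (.c 1 (.c 7 (.c 1
  (.l 2265200) .n) .n) (.c 2 (.c 5 (.c 2 (.l 1583360) .n) (.c 6 (.c 0 (.c 1 (.l 1084320) .n) .n)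
  .n)) (.c 3 (.c 3 (.c 3 (.l 1102824) .n) (.c 4 (.c 1 (.c 1 (.l 752464) .n) .n) (.c 5 (.c 0 (.c
  0 (.c 1 (.l 323600) .n) .n) .n) .n))) (.c 4 (.c 1 (.c 4 (.l 765120) .n) (.c 2 (.c 2 (.c 1 (.l
  519968) .n) .n) (.c 3 (.c 0 (.c 2 (.l 351168) .n) (.c 1 (.c 0 (.c 1 (.l 221728) .n) .n) .n))
  (.c 4 (.c 0 (.c 0 (.c 0 (.c 1 (.l 46144) .n) .n) .n) .n) .n)))) (.c 5 (.c 0 (.c 3 (.c 1 (.l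
  357600) .n) .n) (.c 1 (.c 1 (.c 2 (.l 240320) .n) (.c 2 (.c 0 (.c 1 (.l 151120) .n) .n) .n))
  (.c 2 (.c 0 (.c 1 (.c 1 (.l 99760) .n) .n) (.c 1 (.c 0 (.c 0 (.c 1 (.l 30960) .n) .n) .n) .n))
  .n))) (.c 6 (.c 0 (.c 0 (.c 3 (.l 108288) .n) (.c 1 (.c 1 (.c 1 (.l 67104) .n) .n) (.c 2 (.c 0
  (.c 0 (.c 1 (.l 20640) .n) .n) .n) .n))) (.c 1 (.c 0 (.c 0 (.c 2 (.l 25920) .n) (.c 1 (.c 0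
  (.c 1 (.l 12960) .n) .n) .n)) .n) .n)) (.c 7 (.c 0 (.c 0 (.c 0 (.c 1 (.c 1 (.l 2640) .n) .n)
  .n) .n) .n) .n)))))))) (.c 1 (.c 0 (.c 6 (.c 2 (.l 1084320) .n) (.c 7 (.c 0 (.c 1 (.l 740880)
  .n) .n) .n)) (.c 1 (.c 4 (.c 3 (.l 752464) .n) (.c 5 (.c 1 (.c 1 (.l 512184) .n) .n) (.c 6 (.c
  0 (.c 0 (.c 1 (.l 219360) .n) .n) .n) .n))) (.c 2 (.c 2 (.c 4 (.l 519968) .n) (.c 3 (.c 2 (.c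
  1 (.l 352472) .n) .n) (.c 4 (.c 0 (.c 2 (.l 237408) .n) (.c 1 (.c 0 (.c 1 (.l 149664) .n) .n)
  .n)) (.c 5 (.c 0 (.c 0 (.c 0 (.c 1 (.l 30960) .n) .n) .n) .n) .n)))) (.c 3 (.c 0 (.c 5 (.l
  357600) .n) (.c 1 (.c 3 (.c 1 (.l 241312) .n) .n) (.c 2 (.c 1 (.c 2 (.l 161704) .n) (.c 2 (.c
  0 (.c 1 (.l 101528) .n) .n) .n)) (.c 3 (.c 0 (.c 1 (.c 1 (.l 66804) .n) .n) (.c 1 (.c 0 (.c 0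
  (.c 1 (.l 20676) .n) .n) .n) .n)) .n)))) (.c 4 (.c 0 (.c 2 (.c 2 (.l 109408) .n) (.c 3 (.c 0
  (.c 1 (.l 68416) .n) .n) .n)) (.c 1 (.c 0 (.c 3 (.l 72224) .n) (.c 1 (.c 1 (.c 1 (.l 44688)
  .n) .n) (.c 2 (.c 0 (.c 0 (.c 1 (.l 13712) .n) .n) .n) .n))) (.c 2 (.c 0 (.c 0 (.c 2 (.l
  17152) .n) (.c 1 (.c 0 (.c 1 (.l 8576) .n) .n) .n)) .n) .n))) (.c 5 (.c 0 (.c 0 (.c 2 (.c 1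
  (.l 18896) .n) .n) (.c 1 (.c 0 (.c 2 (.l 11168) .n) (.c 1 (.c 0 (.c 1 (.l 5584) .n) .n) .n))
  .n)) (.c 1 (.c 0 (.c 0 (.c 1 (.c 1 (.l 1720) .n) .n) .n) .n) .n)) .n)))))) (.c 2 (.c 0 (.c 3
  (.c 4 (.l 351168) .n) (.c 4 (.c 2 (.c 1 (.l 237408) .n) .n) (.c 5 (.c 0 (.c 2 (.l 159456) .n)
  (.c 1 (.c 0 (.c 1 (.l 100368) .n) .n) .n)) (.c 6 (.c 0 (.c 0 (.c 0 (.c 1 (.l 20640) .n) .n)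
  .n) .n) .n)))) (.c 1 (.c 1 (.c 5 (.l 240320) .n) (.c 2 (.c 3 (.c 1 (.l 161704) .n) .n) (.c 3
  (.c 1 (.c 2 (.l 108032) .n) (.c 2 (.c 0 (.c 1 (.l 67728) .n) .n) .n)) (.c 4 (.c 0 (.c 1 (.c 1
  (.l 44416) .n) .n) (.c 1 (.c 0 (.c 0 (.c 1 (.l 13712) .n) .n) .n) .n)) .n)))) (.c 2 (.c 0 (.c
  4 (.c 1 (.l 109408) .n) .n) (.c 1 (.c 2 (.c 2 (.l 72656) .n) (.c 3 (.c 0 (.c 1 (.l 45368) .n)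
  .n) .n)) (.c 2 (.c 0 (.c 3 (.l 47792) .n) (.c 1 (.c 1 (.c 1 (.l 29528) .n) .n) (.c 2 (.c 0 (.c
  0 (.c 1 (.l 9040) .n) .n) .n) .n))) (.c 3 (.c 0 (.c 0 (.c 2 (.l 11264) .n) (.c 1 (.c 0 (.c 1
  (.l 5632) .n) .n) .n)) .n) .n)))) (.c 3 (.c 0 (.c 1 (.c 3 (.l 31584) .n) (.c 2 (.c 1 (.c 1 (.l
  19432) .n) .n) (.c 3 (.c 0 (.c 0 (.c 1 (.l 5904) .n) .n) .n) .n))) (.c 1 (.c 0 (.c 2 (.c 1 (.l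
  12336) .n) .n) (.c 1 (.c 0 (.c 2 (.l 7280) .n) (.c 1 (.c 0 (.c 1 (.l 3640) .n) .n) .n)) .n))
  (.c 2 (.c 0 (.c 0 (.c 1 (.c 1 (.l 1112) .n) .n) .n) .n) .n))) (.c 4 (.c 0 (.c 0 (.c 1 (.c 2
  (.l 2752) .n) (.c 2 (.c 0 (.c 1 (.l 1376) .n) .n) .n)) (.c 1 (.c 0 (.c 1 (.c 1 (.l 688) .n)
  .n) .n) .n)) .n) .n))))) (.c 3 (.c 0 (.c 0 (.c 6 (.l 108288) .n) (.c 1 (.c 4 (.c 1 (.l 72224)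
  .n) .n) (.c 2 (.c 2 (.c 2 (.l 47792) .n) (.c 3 (.c 0 (.c 1 (.l 29800) .n) .n) .n)) (.c 3 (.c 0
  (.c 3 (.l 31320) .n) (.c 1 (.c 1 (.c 1 (.l 19324) .n) .n) (.c 2 (.c 0 (.c 0 (.c 1 (.l 5904)
  .n) .n) .n) .n))) (.c 4 (.c 0 (.c 0 (.c 2 (.l 7328) .n) (.c 1 (.c 0 (.c 1 (.l 3664) .n) .n)
  .n)) .n) .n))))) (.c 1 (.c 0 (.c 3 (.c 2 (.l 31584) .n) (.c 4 (.c 0 (.c 1 (.l 19616) .n) .n)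
  .n)) (.c 1 (.c 1 (.c 3 (.l 20520) .n) (.c 2 (.c 1 (.c 1 (.l 12608) .n) .n) (.c 3 (.c 0 (.c 0
  (.c 1 (.l 3824) .n) .n) .n) .n))) (.c 2 (.c 0 (.c 2 (.c 1 (.l 7968) .n) .n) (.c 1 (.c 0 (.c 2
  (.l 4696) .n) (.c 1 (.c 0 (.c 1 (.l 2348) .n) .n) .n)) .n)) (.c 3 (.c 0 (.c 0 (.c 1 (.c 1 (.l
  712) .n) .n) .n) .n) .n)))) (.c 2 (.c 0 (.c 0 (.c 4 (.l 8352) .n) (.c 1 (.c 2 (.c 1 (.l 5048)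
  .n) .n) (.c 2 (.c 0 (.c 2 (.l 2960) .n) (.c 1 (.c 0 (.c 1 (.l 1480) .n) .n) .n)) .n))) (.c 1
  (.c 0 (.c 1 (.c 2 (.l 1744) .n) (.c 2 (.c 0 (.c 1 (.l 872) .n) .n) .n)) (.c 1 (.c 0 (.c 1 (.c
  1 (.l 436) .n) .n) .n) .n)) .n)) (.c 3 (.c 0 (.c 0 (.c 0 (.c 3 (.l 264) .n) (.c 1 (.c 1 (.c 1
  (.l 132) .n) .n) .n)) .n) .n) .n)))) (.c 4 (.c 0 (.c 0 (.c 2 (.c 3 (.l 8352) .n) (.c 3 (.c 1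
  (.c 1 (.l 5104) .n) .n) (.c 4 (.c 0 (.c 0 (.c 1 (.l 1536) .n) .n) .n) .n))) (.c 1 (.c 0 (.c 4
  (.l 5248) .n) (.c 1 (.c 2 (.c 1 (.l 3168) .n) .n) (.c 2 (.c 0 (.c 2 (.l 1856) .n) (.c 1 (.c 0
  (.c 1 (.l 928) .n) .n) .n)) .n))) (.c 2 (.c 0 (.c 1 (.c 2 (.l 1088) .n) (.c 2 (.c 0 (.c 1 (.l
  544) .n) .n) .n)) (.c 1 (.c 0 (.c 1 (.c 1 (.l 272) .n) .n) .n) .n)) .n))) (.c 1 (.c 0 (.c 0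
  (.c 3 (.c 1 (.l 1120) .n) .n) (.c 1 (.c 1 (.c 2 (.l 640) .n) (.c 2 (.c 0 (.c 1 (.l 320) .n)
  .n) .n)) (.c 2 (.c 0 (.c 1 (.c 1 (.l 160) .n) .n) .n) .n))) (.c 1 (.c 0 (.c 0 (.c 3 (.l 160)
  .n) (.c 1 (.c 1 (.c 1 (.l 80) .n) .n) .n)) .n) .n)) .n)) (.c 5 (.c 0 (.c 0 (.c 0 (.c 2 (.c 2
  (.l 96) .n) (.c 3 (.c 0 (.c 1 (.l 48) .n) .n) .n)) (.c 1 (.c 0 (.c 3 (.l 48) .n) (.c 1 (.c 1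
  (.c 1 (.l 24) .n) .n) .n)) .n)) .n) .n) .n)))))) (.c 1 (.c 0 (.c 0 (.c 5 (.c 3 (.l 323600) .n)
  (.c 6 (.c 1 (.c 1 (.l 219360) .n) .n) (.c 7 (.c 0 (.c 0 (.c 1 (.l 93360) .n) .n) .n) .n))) (.c
  1 (.c 3 (.c 4 (.l 221728) .n) (.c 4 (.c 2 (.c 1 (.l 149664) .n) .n) (.c 5 (.c 0 (.c 2 (.l
  100368) .n) (.c 1 (.c 0 (.c 1 (.l 63144) .n) .n) .n)) (.c 6 (.c 0 (.c 0 (.c 0 (.c 1 (.l 12960)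
  .n) .n) .n) .n) .n)))) (.c 2 (.c 1 (.c 5 (.l 151120) .n) (.c 2 (.c 3 (.c 1 (.l 101528) .n) .n)
  (.c 3 (.c 1 (.c 2 (.l 67728) .n) (.c 2 (.c 0 (.c 1 (.l 42440) .n) .n) .n)) (.c 4 (.c 0 (.c 1
  (.c 1 (.l 27792) .n) .n) (.c 1 (.c 0 (.c 0 (.c 1 (.l 8576) .n) .n) .n) .n)) .n)))) (.c 3 (.c 0
  (.c 4 (.c 1 (.l 68416) .n) .n) (.c 1 (.c 2 (.c 2 (.l 45368) .n) (.c 3 (.c 0 (.c 1 (.l 28316)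
  .n) .n) .n)) (.c 2 (.c 0 (.c 3 (.l 29800) .n) (.c 1 (.c 1 (.c 1 (.l 18404) .n) .n) (.c 2 (.c 0
  (.c 0 (.c 1 (.l 5632) .n) .n) .n) .n))) (.c 3 (.c 0 (.c 0 (.c 2 (.l 7008) .n) (.c 1 (.c 0 (.c
  1 (.l 3504) .n) .n) .n)) .n) .n)))) (.c 4 (.c 0 (.c 1 (.c 3 (.l 19616) .n) (.c 2 (.c 1 (.c 1
  (.l 12064) .n) .n) (.c 3 (.c 0 (.c 0 (.c 1 (.l 3664) .n) .n) .n) .n))) (.c 1 (.c 0 (.c 2 (.c 1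
  (.l 7648) .n) .n) (.c 1 (.c 0 (.c 2 (.l 4512) .n) (.c 1 (.c 0 (.c 1 (.l 2256) .n) .n) .n))
  .n)) (.c 2 (.c 0 (.c 0 (.c 1 (.c 1 (.l 688) .n) .n) .n) .n) .n))) (.c 5 (.c 0 (.c 0 (.c 1 (.c
  2 (.l 1696) .n) (.c 2 (.c 0 (.c 1 (.l 848) .n) .n) .n)) (.c 1 (.c 0 (.c 1 (.c 1 (.l 424) .n)
  .n) .n) .n)) .n) .n)))))) (.c 1 (.c 0 (.c 2 (.c 5 (.l 99760) .n) (.c 3 (.c 3 (.c 1 (.l 66804)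
  .n) .n) (.c 4 (.c 1 (.c 2 (.l 44416) .n) (.c 2 (.c 0 (.c 1 (.l 27792) .n) .n) .n)) (.c 5 (.c 0
  (.c 1 (.c 1 (.l 18136) .n) .n) (.c 1 (.c 0 (.c 0 (.c 1 (.l 5584) .n) .n) .n) .n)) .n)))) (.c 1
  (.c 0 (.c 6 (.l 67104) .n) (.c 1 (.c 4 (.c 1 (.l 44688) .n) .n) (.c 2 (.c 2 (.c 2 (.l 29528)
  .n) (.c 3 (.c 0 (.c 1 (.l 18404) .n) .n) .n)) (.c 3 (.c 0 (.c 3 (.l 19324) .n) (.c 1 (.c 1 (.c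
  1 (.l 11918) .n) .n) (.c 2 (.c 0 (.c 0 (.c 1 (.l 3640) .n) .n) .n) .n))) (.c 4 (.c 0 (.c 0 (.c
  2 (.l 4512) .n) (.c 1 (.c 0 (.c 1 (.l 2256) .n) .n) .n)) .n) .n))))) (.c 2 (.c 0 (.c 3 (.c 2
  (.l 19432) .n) (.c 4 (.c 0 (.c 1 (.l 12064) .n) .n) .n)) (.c 1 (.c 1 (.c 3 (.l 12608) .n) (.c
  2 (.c 1 (.c 1 (.l 7744) .n) .n) (.c 3 (.c 0 (.c 0 (.c 1 (.l 2348) .n) .n) .n) .n))) (.c 2 (.c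
  0 (.c 2 (.c 1 (.l 4888) .n) .n) (.c 1 (.c 0 (.c 2 (.l 2880) .n) (.c 1 (.c 0 (.c 1 (.l 1440)
  .n) .n) .n)) .n)) (.c 3 (.c 0 (.c 0 (.c 1 (.c 1 (.l 436) .n) .n) .n) .n) .n)))) (.c 3 (.c 0
  (.c 0 (.c 4 (.l 5104) .n) (.c 1 (.c 2 (.c 1 (.l 3084) .n) .n) (.c 2 (.c 0 (.c 2 (.l 1808) .n)
  (.c 1 (.c 0 (.c 1 (.l 904) .n) .n) .n)) .n))) (.c 1 (.c 0 (.c 1 (.c 2 (.l 1064) .n) (.c 2 (.c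
  0 (.c 1 (.l 532) .n) .n) .n)) (.c 1 (.c 0 (.c 1 (.c 1 (.l 266) .n) .n) .n) .n)) .n)) (.c 4 (.c
  0 (.c 0 (.c 0 (.c 3 (.l 160) .n) (.c 1 (.c 1 (.c 1 (.l 80) .n) .n) .n)) .n) .n) .n))))) (.c 2
  (.c 0 (.c 0 (.c 5 (.c 1 (.l 18896) .n) .n) (.c 1 (.c 3 (.c 2 (.l 12336) .n) (.c 4 (.c 0 (.c 1
  (.l 7648) .n) .n) .n)) (.c 2 (.c 1 (.c 3 (.l 7968) .n) (.c 2 (.c 1 (.c 1 (.l 4888) .n) .n) (.c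
  3 (.c 0 (.c 0 (.c 1 (.l 1480) .n) .n) .n) .n))) (.c 3 (.c 0 (.c 2 (.c 1 (.l 3072) .n) .n) (.c
  1 (.c 0 (.c 2 (.l 1808) .n) (.c 1 (.c 0 (.c 1 (.l 904) .n) .n) .n)) .n)) (.c 4 (.c 0 (.c 0 (.c
  1 (.c 1 (.l 272) .n) .n) .n) .n) .n))))) (.c 1 (.c 0 (.c 2 (.c 3 (.l 5048) .n) (.c 3 (.c 1 (.c
  1 (.l 3084) .n) .n) (.c 4 (.c 0 (.c 0 (.c 1 (.l 928) .n) .n) .n) .n))) (.c 1 (.c 0 (.c 4 (.l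
  3168) .n) (.c 1 (.c 2 (.c 1 (.l 1912) .n) .n) (.c 2 (.c 0 (.c 2 (.l 1120) .n) (.c 1 (.c 0 (.c
  1 (.l 560) .n) .n) .n)) .n))) (.c 2 (.c 0 (.c 1 (.c 2 (.l 656) .n) (.c 2 (.c 0 (.c 1 (.l 328)
  .n) .n) .n)) (.c 1 (.c 0 (.c 1 (.c 1 (.l 164) .n) .n) .n) .n)) .n))) (.c 2 (.c 0 (.c 0 (.c 3
  (.c 1 (.l 672) .n) .n) (.c 1 (.c 1 (.c 2 (.l 384) .n) (.c 2 (.c 0 (.c 1 (.l 192) .n) .n) .n))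
  (.c 2 (.c 0 (.c 1 (.c 1 (.l 96) .n) .n) .n) .n))) (.c 1 (.c 0 (.c 0 (.c 3 (.l 96) .n) (.c 1
  (.c 1 (.c 1 (.l 48) .n) .n) .n)) .n) .n)) .n))) (.c 3 (.c 0 (.c 0 (.c 1 (.c 4 (.l 1120) .n)
  (.c 2 (.c 2 (.c 1 (.l 672) .n) .n) (.c 3 (.c 0 (.c 2 (.l 392) .n) (.c 1 (.c 0 (.c 1 (.l 196)
  .n) .n) .n)) .n))) (.c 1 (.c 0 (.c 3 (.c 1 (.l 392) .n) .n) (.c 1 (.c 1 (.c 2 (.l 224) .n) (.c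
  2 (.c 0 (.c 1 (.l 112) .n) .n) .n)) (.c 2 (.c 0 (.c 1 (.c 1 (.l 56) .n) .n) .n) .n))) (.c 2
  (.c 0 (.c 0 (.c 3 (.l 56) .n) (.c 1 (.c 1 (.c 1 (.l 28) .n) .n) .n)) .n) .n))) (.c 1 (.c 0 (.c
  0 (.c 2 (.c 2 (.l 56) .n) (.c 3 (.c 0 (.c 1 (.l 28) .n) .n) .n)) (.c 1 (.c 0 (.c 3 (.l 28) .n)
  (.c 1 (.c 1 (.c 1 (.l 14) .n) .n) .n)) .n)) .n) .n)) .n)))) (.c 2 (.c 0 (.c 0 (.c 1 (.c 6 (.l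
  25920) .n) (.c 2 (.c 4 (.c 1 (.l 17152) .n) .n) (.c 3 (.c 2 (.c 2 (.l 11264) .n) (.c 3 (.c 0
  (.c 1 (.l 7008) .n) .n) .n)) (.c 4 (.c 0 (.c 3 (.l 7328) .n) (.c 1 (.c 1 (.c 1 (.l 4512) .n)
  .n) (.c 2 (.c 0 (.c 0 (.c 1 (.l 1376) .n) .n) .n) .n))) (.c 5 (.c 0 (.c 0 (.c 2 (.l 1696) .n)
  (.c 1 (.c 0 (.c 1 (.l 848) .n) .n) .n)) .n) .n))))) (.c 1 (.c 0 (.c 5 (.c 1 (.l 11168) .n) .n)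
  (.c 1 (.c 3 (.c 2 (.l 7280) .n) (.c 4 (.c 0 (.c 1 (.l 4512) .n) .n) .n)) (.c 2 (.c 1 (.c 3 (.l
  4696) .n) (.c 2 (.c 1 (.c 1 (.l 2880) .n) .n) (.c 3 (.c 0 (.c 0 (.c 1 (.l 872) .n) .n) .n)
  .n))) (.c 3 (.c 0 (.c 2 (.c 1 (.l 1808) .n) .n) (.c 1 (.c 0 (.c 2 (.l 1064) .n) (.c 1 (.c 0
  (.c 1 (.l 532) .n) .n) .n)) .n)) (.c 4 (.c 0 (.c 0 (.c 1 (.c 1 (.l 160) .n) .n) .n) .n)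
  .n))))) (.c 2 (.c 0 (.c 2 (.c 3 (.l 2960) .n) (.c 3 (.c 1 (.c 1 (.l 1808) .n) .n) (.c 4 (.c 0
  (.c 0 (.c 1 (.l 544) .n) .n) .n) .n))) (.c 1 (.c 0 (.c 4 (.l 1856) .n) (.c 1 (.c 2 (.c 1 (.l
  1120) .n) .n) (.c 2 (.c 0 (.c 2 (.l 656) .n) (.c 1 (.c 0 (.c 1 (.l 328) .n) .n) .n)) .n))) (.c
  2 (.c 0 (.c 1 (.c 2 (.l 384) .n) (.c 2 (.c 0 (.c 1 (.l 192) .n) .n) .n)) (.c 1 (.c 0 (.c 1 (.c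
  1 (.l 96) .n) .n) .n) .n)) .n))) (.c 3 (.c 0 (.c 0 (.c 3 (.c 1 (.l 392) .n) .n) (.c 1 (.c 1
  (.c 2 (.l 224) .n) (.c 2 (.c 0 (.c 1 (.l 112) .n) .n) .n)) (.c 2 (.c 0 (.c 1 (.c 1 (.l 56) .n)
  .n) .n) .n))) (.c 1 (.c 0 (.c 0 (.c 3 (.l 56) .n) (.c 1 (.c 1 (.c 1 (.l 28) .n) .n) .n)) .n)
  .n)) .n)))) (.c 1 (.c 0 (.c 0 (.c 4 (.c 2 (.l 2752) .n) (.c 5 (.c 0 (.c 1 (.l 1696) .n) .n)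
  .n)) (.c 1 (.c 2 (.c 3 (.l 1744) .n) (.c 3 (.c 1 (.c 1 (.l 1064) .n) .n) (.c 4 (.c 0 (.c 0 (.c
  1 (.l 320) .n) .n) .n) .n))) (.c 2 (.c 0 (.c 4 (.l 1088) .n) (.c 1 (.c 2 (.c 1 (.l 656) .n)
  .n) (.c 2 (.c 0 (.c 2 (.l 384) .n) (.c 1 (.c 0 (.c 1 (.l 192) .n) .n) .n)) .n))) (.c 3 (.c 0
  (.c 1 (.c 2 (.l 224) .n) (.c 2 (.c 0 (.c 1 (.l 112) .n) .n) .n)) (.c 1 (.c 0 (.c 1 (.c 1 (.l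
  56) .n) .n) .n) .n)) .n)))) (.c 1 (.c 0 (.c 1 (.c 4 (.l 640) .n) (.c 2 (.c 2 (.c 1 (.l 384)
  .n) .n) (.c 3 (.c 0 (.c 2 (.l 224) .n) (.c 1 (.c 0 (.c 1 (.l 112) .n) .n) .n)) .n))) (.c 1 (.c
  0 (.c 3 (.c 1 (.l 224) .n) .n) (.c 1 (.c 1 (.c 2 (.l 128) .n) (.c 2 (.c 0 (.c 1 (.l 64) .n)
  .n) .n)) (.c 2 (.c 0 (.c 1 (.c 1 (.l 32) .n) .n) .n) .n))) (.c 2 (.c 0 (.c 0 (.c 3 (.l 32) .n)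
  (.c 1 (.c 1 (.c 1 (.l 16) .n) .n) .n)) .n) .n))) (.c 2 (.c 0 (.c 0 (.c 2 (.c 2 (.l 32) .n) (.c
  3 (.c 0 (.c 1 (.l 16) .n) .n) .n)) (.c 1 (.c 0 (.c 3 (.l 16) .n) (.c 1 (.c 1 (.c 1 (.l 8) .n)
  .n) .n)) .n)) .n) .n))) (.c 2 (.c 0 (.c 0 (.c 0 (.c 5 (.l 96) .n) (.c 1 (.c 3 (.c 1 (.l 56)
  .n) .n) (.c 2 (.c 1 (.c 2 (.l 32) .n) (.c 2 (.c 0 (.c 1 (.l 16) .n) .n) .n)) (.c 3 (.c 0 (.c 1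
  (.c 1 (.l 8) .n) .n) .n) .n)))) (.c 1 (.c 0 (.c 2 (.c 2 (.l 16) .n) (.c 3 (.c 0 (.c 1 (.l 8)
  .n) .n) .n)) (.c 1 (.c 0 (.c 3 (.l 8) .n) (.c 1 (.c 1 (.c 1 (.l 4) .n) .n) .n)) .n)) .n)) .n)
  .n))) (.c 3 (.c 0 (.c 0 (.c 0 (.c 3 (.c 3 (.l 264) .n) (.c 4 (.c 1 (.c 1 (.l 160) .n) .n) (.c
  5 (.c 0 (.c 0 (.c 1 (.l 48) .n) .n) .n) .n))) (.c 1 (.c 1 (.c 4 (.l 160) .n) (.c 2 (.c 2 (.c 1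
  (.l 96) .n) .n) (.c 3 (.c 0 (.c 2 (.l 56) .n) (.c 1 (.c 0 (.c 1 (.l 28) .n) .n) .n)) .n))) (.c
  2 (.c 0 (.c 3 (.c 1 (.l 56) .n) .n) (.c 1 (.c 1 (.c 2 (.l 32) .n) (.c 2 (.c 0 (.c 1 (.l 16)
  .n) .n) .n)) (.c 2 (.c 0 (.c 1 (.c 1 (.l 8) .n) .n) .n) .n))) (.c 3 (.c 0 (.c 0 (.c 3 (.l 8)
  .n) (.c 1 (.c 1 (.c 1 (.l 4) .n) .n) .n)) .n) .n)))) (.c 1 (.c 0 (.c 0 (.c 5 (.l 48) .n) (.c 1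
  (.c 3 (.c 1 (.l 28) .n) .n) (.c 2 (.c 1 (.c 2 (.l 16) .n) (.c 2 (.c 0 (.c 1 (.l 8) .n) .n)
  .n)) (.c 3 (.c 0 (.c 1 (.c 1 (.l 4) .n) .n) .n) .n)))) (.c 1 (.c 0 (.c 2 (.c 2 (.l 8) .n) (.c
  3 (.c 0 (.c 1 (.l 4) .n) .n) .n)) (.c 1 (.c 0 (.c 3 (.l 4) .n) (.c 1 (.c 1 (.c 1 (.l 2) .n)
  .n) .n)) .n)) .n)) .n)) .n) .n)))) (.c 1 (.c 0 (.c 0 (.c 0 (.c 4 (.c 4 (.l 46144) .n) (.c 5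
  (.c 2 (.c 1 (.l 30960) .n) .n) (.c 6 (.c 0 (.c 2 (.l 20640) .n) (.c 1 (.c 0 (.c 1 (.l 12960)
  .n) .n) .n)) (.c 7 (.c 0 (.c 0 (.c 0 (.c 1 (.l 2640) .n) .n) .n) .n) .n)))) (.c 1 (.c 2 (.c 5
  (.l 30960) .n) (.c 3 (.c 3 (.c 1 (.l 20676) .n) .n) (.c 4 (.c 1 (.c 2 (.l 13712) .n) (.c 2 (.c
  0 (.c 1 (.l 8576) .n) .n) .n)) (.c 5 (.c 0 (.c 1 (.c 1 (.l 5584) .n) .n) (.c 1 (.c 0 (.c 0 (.c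
  1 (.l 1720) .n) .n) .n) .n)) .n)))) (.c 2 (.c 0 (.c 6 (.l 20640) .n) (.c 1 (.c 4 (.c 1 (.l
  13712) .n) .n) (.c 2 (.c 2 (.c 2 (.l 9040) .n) (.c 3 (.c 0 (.c 1 (.l 5632) .n) .n) .n)) (.c 3
  (.c 0 (.c 3 (.l 5904) .n) (.c 1 (.c 1 (.c 1 (.l 3640) .n) .n) (.c 2 (.c 0 (.c 0 (.c 1 (.l
  1112) .n) .n) .n) .n))) (.c 4 (.c 0 (.c 0 (.c 2 (.l 1376) .n) (.c 1 (.c 0 (.c 1 (.l 688) .n)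
  .n) .n)) .n) .n))))) (.c 3 (.c 0 (.c 3 (.c 2 (.l 5904) .n) (.c 4 (.c 0 (.c 1 (.l 3664) .n) .n)
  .n)) (.c 1 (.c 1 (.c 3 (.l 3824) .n) (.c 2 (.c 1 (.c 1 (.l 2348) .n) .n) (.c 3 (.c 0 (.c 0 (.c
  1 (.l 712) .n) .n) .n) .n))) (.c 2 (.c 0 (.c 2 (.c 1 (.l 1480) .n) .n) (.c 1 (.c 0 (.c 2 (.l
  872) .n) (.c 1 (.c 0 (.c 1 (.l 436) .n) .n) .n)) .n)) (.c 3 (.c 0 (.c 0 (.c 1 (.c 1 (.l 132)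
  .n) .n) .n) .n) .n)))) (.c 4 (.c 0 (.c 0 (.c 4 (.l 1536) .n) (.c 1 (.c 2 (.c 1 (.l 928) .n)
  .n) (.c 2 (.c 0 (.c 2 (.l 544) .n) (.c 1 (.c 0 (.c 1 (.l 272) .n) .n) .n)) .n))) (.c 1 (.c 0
  (.c 1 (.c 2 (.l 320) .n) (.c 2 (.c 0 (.c 1 (.l 160) .n) .n) .n)) (.c 1 (.c 0 (.c 1 (.c 1 (.l
  80) .n) .n) .n) .n)) .n)) (.c 5 (.c 0 (.c 0 (.c 0 (.c 3 (.l 48) .n) (.c 1 (.c 1 (.c 1 (.l 24)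
  .n) .n) .n)) .n) .n) .n)))))) (.c 1 (.c 0 (.c 1 (.c 6 (.l 12960) .n) (.c 2 (.c 4 (.c 1 (.l
  8576) .n) .n) (.c 3 (.c 2 (.c 2 (.l 5632) .n) (.c 3 (.c 0 (.c 1 (.l 3504) .n) .n) .n)) (.c 4
  (.c 0 (.c 3 (.l 3664) .n) (.c 1 (.c 1 (.c 1 (.l 2256) .n) .n) (.c 2 (.c 0 (.c 0 (.c 1 (.l 688)
  .n) .n) .n) .n))) (.c 5 (.c 0 (.c 0 (.c 2 (.l 848) .n) (.c 1 (.c 0 (.c 1 (.l 424) .n) .n) .n))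
  .n) .n))))) (.c 1 (.c 0 (.c 5 (.c 1 (.l 5584) .n) .n) (.c 1 (.c 3 (.c 2 (.l 3640) .n) (.c 4
  (.c 0 (.c 1 (.l 2256) .n) .n) .n)) (.c 2 (.c 1 (.c 3 (.l 2348) .n) (.c 2 (.c 1 (.c 1 (.l 1440)
  .n) .n) (.c 3 (.c 0 (.c 0 (.c 1 (.l 436) .n) .n) .n) .n))) (.c 3 (.c 0 (.c 2 (.c 1 (.l 904)
  .n) .n) (.c 1 (.c 0 (.c 2 (.l 532) .n) (.c 1 (.c 0 (.c 1 (.l 266) .n) .n) .n)) .n)) (.c 4 (.c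
  0 (.c 0 (.c 1 (.c 1 (.l 80) .n) .n) .n) .n) .n))))) (.c 2 (.c 0 (.c 2 (.c 3 (.l 1480) .n) (.c
  3 (.c 1 (.c 1 (.l 904) .n) .n) (.c 4 (.c 0 (.c 0 (.c 1 (.l 272) .n) .n) .n) .n))) (.c 1 (.c 0
  (.c 4 (.l 928) .n) (.c 1 (.c 2 (.c 1 (.l 560) .n) .n) (.c 2 (.c 0 (.c 2 (.l 328) .n) (.c 1 (.c
  0 (.c 1 (.l 164) .n) .n) .n)) .n))) (.c 2 (.c 0 (.c 1 (.c 2 (.l 192) .n) (.c 2 (.c 0 (.c 1 (.l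
  96) .n) .n) .n)) (.c 1 (.c 0 (.c 1 (.c 1 (.l 48) .n) .n) .n) .n)) .n))) (.c 3 (.c 0 (.c 0 (.c
  3 (.c 1 (.l 196) .n) .n) (.c 1 (.c 1 (.c 2 (.l 112) .n) (.c 2 (.c 0 (.c 1 (.l 56) .n) .n) .n))
  (.c 2 (.c 0 (.c 1 (.c 1 (.l 28) .n) .n) .n) .n))) (.c 1 (.c 0 (.c 0 (.c 3 (.l 28) .n) (.c 1
  (.c 1 (.c 1 (.l 14) .n) .n) .n)) .n) .n)) .n)))) (.c 2 (.c 0 (.c 0 (.c 4 (.c 2 (.l 1376) .n)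
  (.c 5 (.c 0 (.c 1 (.l 848) .n) .n) .n)) (.c 1 (.c 2 (.c 3 (.l 872) .n) (.c 3 (.c 1 (.c 1 (.l
  532) .n) .n) (.c 4 (.c 0 (.c 0 (.c 1 (.l 160) .n) .n) .n) .n))) (.c 2 (.c 0 (.c 4 (.l 544) .n)
  (.c 1 (.c 2 (.c 1 (.l 328) .n) .n) (.c 2 (.c 0 (.c 2 (.l 192) .n) (.c 1 (.c 0 (.c 1 (.l 96)
  .n) .n) .n)) .n))) (.c 3 (.c 0 (.c 1 (.c 2 (.l 112) .n) (.c 2 (.c 0 (.c 1 (.l 56) .n) .n) .n))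
  (.c 1 (.c 0 (.c 1 (.c 1 (.l 28) .n) .n) .n) .n)) .n)))) (.c 1 (.c 0 (.c 1 (.c 4 (.l 320) .n)
  (.c 2 (.c 2 (.c 1 (.l 192) .n) .n) (.c 3 (.c 0 (.c 2 (.l 112) .n) (.c 1 (.c 0 (.c 1 (.l 56)
  .n) .n) .n)) .n))) (.c 1 (.c 0 (.c 3 (.c 1 (.l 112) .n) .n) (.c 1 (.c 1 (.c 2 (.l 64) .n) (.c
  2 (.c 0 (.c 1 (.l 32) .n) .n) .n)) (.c 2 (.c 0 (.c 1 (.c 1 (.l 16) .n) .n) .n) .n))) (.c 2 (.c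
  0 (.c 0 (.c 3 (.l 16) .n) (.c 1 (.c 1 (.c 1 (.l 8) .n) .n) .n)) .n) .n))) (.c 2 (.c 0 (.c 0
  (.c 2 (.c 2 (.l 16) .n) (.c 3 (.c 0 (.c 1 (.l 8) .n) .n) .n)) (.c 1 (.c 0 (.c 3 (.l 8) .n) (.c
  1 (.c 1 (.c 1 (.l 4) .n) .n) .n)) .n)) .n) .n))) (.c 3 (.c 0 (.c 0 (.c 0 (.c 5 (.l 48) .n) (.c
  1 (.c 3 (.c 1 (.l 28) .n) .n) (.c 2 (.c 1 (.c 2 (.l 16) .n) (.c 2 (.c 0 (.c 1 (.l 8) .n) .n)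
  .n)) (.c 3 (.c 0 (.c 1 (.c 1 (.l 4) .n) .n) .n) .n)))) (.c 1 (.c 0 (.c 2 (.c 2 (.l 8) .n) (.c
  3 (.c 0 (.c 1 (.l 4) .n) .n) .n)) (.c 1 (.c 0 (.c 3 (.l 4) .n) (.c 1 (.c 1 (.c 1 (.l 2) .n)
  .n) .n)) .n)) .n)) .n) .n)))) (.c 1 (.c 0 (.c 0 (.c 0 (.c 7 (.l 2640) .n) (.c 1 (.c 5 (.c 1
  (.l 1720) .n) .n) (.c 2 (.c 3 (.c 2 (.l 1112) .n) (.c 4 (.c 0 (.c 1 (.l 688) .n) .n) .n)) (.c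
  3 (.c 1 (.c 3 (.l 712) .n) (.c 2 (.c 1 (.c 1 (.l 436) .n) .n) (.c 3 (.c 0 (.c 0 (.c 1 (.l 132)
  .n) .n) .n) .n))) (.c 4 (.c 0 (.c 2 (.c 1 (.l 272) .n) .n) (.c 1 (.c 0 (.c 2 (.l 160) .n) (.c
  1 (.c 0 (.c 1 (.l 80) .n) .n) .n)) .n)) (.c 5 (.c 0 (.c 0 (.c 1 (.c 1 (.l 24) .n) .n) .n) .n)
  .n)))))) (.c 1 (.c 0 (.c 4 (.c 2 (.l 688) .n) (.c 5 (.c 0 (.c 1 (.l 424) .n) .n) .n)) (.c 1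
  (.c 2 (.c 3 (.l 436) .n) (.c 3 (.c 1 (.c 1 (.l 266) .n) .n) (.c 4 (.c 0 (.c 0 (.c 1 (.l 80)
  .n) .n) .n) .n))) (.c 2 (.c 0 (.c 4 (.l 272) .n) (.c 1 (.c 2 (.c 1 (.l 164) .n) .n) (.c 2 (.c
  0 (.c 2 (.l 96) .n) (.c 1 (.c 0 (.c 1 (.l 48) .n) .n) .n)) .n))) (.c 3 (.c 0 (.c 1 (.c 2 (.l
  56) .n) (.c 2 (.c 0 (.c 1 (.l 28) .n) .n) .n)) (.c 1 (.c 0 (.c 1 (.c 1 (.l 14) .n) .n) .n)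
  .n)) .n)))) (.c 2 (.c 0 (.c 1 (.c 4 (.l 160) .n) (.c 2 (.c 2 (.c 1 (.l 96) .n) .n) (.c 3 (.c 0
  (.c 2 (.l 56) .n) (.c 1 (.c 0 (.c 1 (.l 28) .n) .n) .n)) .n))) (.c 1 (.c 0 (.c 3 (.c 1 (.l 56)
  .n) .n) (.c 1 (.c 1 (.c 2 (.l 32) .n) (.c 2 (.c 0 (.c 1 (.l 16) .n) .n) .n)) (.c 2 (.c 0 (.c 1
  (.c 1 (.l 8) .n) .n) .n) .n))) (.c 2 (.c 0 (.c 0 (.c 3 (.l 8) .n) (.c 1 (.c 1 (.c 1 (.l 4) .n)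
  .n) .n)) .n) .n))) (.c 3 (.c 0 (.c 0 (.c 2 (.c 2 (.l 8) .n) (.c 3 (.c 0 (.c 1 (.l 4) .n) .n)
  .n)) (.c 1 (.c 0 (.c 3 (.l 4) .n) (.c 1 (.c 1 (.c 1 (.l 2) .n) .n) .n)) .n)) .n) .n)))) (.c 1
  (.c 0 (.c 0 (.c 3 (.c 3 (.l 132) .n) (.c 4 (.c 1 (.c 1 (.l 80) .n) .n) (.c 5 (.c 0 (.c 0 (.c 1
  (.l 24) .n) .n) .n) .n))) (.c 1 (.c 1 (.c 4 (.l 80) .n) (.c 2 (.c 2 (.c 1 (.l 48) .n) .n) (.c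
  3 (.c 0 (.c 2 (.l 28) .n) (.c 1 (.c 0 (.c 1 (.l 14) .n) .n) .n)) .n))) (.c 2 (.c 0 (.c 3 (.c 1
  (.l 28) .n) .n) (.c 1 (.c 1 (.c 2 (.l 16) .n) (.c 2 (.c 0 (.c 1 (.l 8) .n) .n) .n)) (.c 2 (.c
  0 (.c 1 (.c 1 (.l 4) .n) .n) .n) .n))) (.c 3 (.c 0 (.c 0 (.c 3 (.l 4) .n) (.c 1 (.c 1 (.c 1
  (.l 2) .n) .n) .n)) .n) .n)))) (.c 1 (.c 0 (.c 0 (.c 5 (.l 24) .n) (.c 1 (.c 3 (.c 1 (.l 14)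
  .n) .n) (.c 2 (.c 1 (.c 2 (.l 8) .n) (.c 2 (.c 0 (.c 1 (.l 4) .n) .n) .n)) (.c 3 (.c 0 (.c 1
  (.c 1 (.l 2) .n) .n) .n) .n)))) (.c 1 (.c 0 (.c 2 (.c 2 (.l 4) .n) (.c 3 (.c 0 (.c 1 (.l 2)
  .n) .n) .n)) (.c 1 (.c 0 (.c 3 (.l 2) .n) (.c 1 (.c 1 (.c 1 (.l 1) .n) .n) .n)) .n)) .n)) .n))
  .n)) .n)) .n))

noncomputable def t17_9 : Tr := (.c 0 (.c 0 (.c 0 (.c 0 (.c 4 (.c 4 (.l 46144) .n) (.c 5 (.c 2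
  (.c 1 (.l 30960) .n) .n) (.c 6 (.c 0 (.c 2 (.l 20640) .n) (.c 1 (.c 0 (.c 1 (.l 12960) .n) .n)
  .n)) (.c 7 (.c 0 (.c 0 (.c 0 (.c 1 (.l 2640) .n) .n) .n) .n) .n)))) (.c 1 (.c 2 (.c 5 (.l
  30960) .n) (.c 3 (.c 3 (.c 1 (.l 20676) .n) .n) (.c 4 (.c 1 (.c 2 (.l 13712) .n) (.c 2 (.c 0
  (.c 1 (.l 8576) .n) .n) .n)) (.c 5 (.c 0 (.c 1 (.c 1 (.l 5584) .n) .n) (.c 1 (.c 0 (.c 0 (.c 1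
  (.l 1720) .n) .n) .n) .n)) .n)))) (.c 2 (.c 0 (.c 6 (.l 20640) .n) (.c 1 (.c 4 (.c 1 (.l
  13712) .n) .n) (.c 2 (.c 2 (.c 2 (.l 9040) .n) (.c 3 (.c 0 (.c 1 (.l 5632) .n) .n) .n)) (.c 3
  (.c 0 (.c 3 (.l 5904) .n) (.c 1 (.c 1 (.c 1 (.l 3640) .n) .n) (.c 2 (.c 0 (.c 0 (.c 1 (.l
  1112) .n) .n) .n) .n))) (.c 4 (.c 0 (.c 0 (.c 2 (.l 1376) .n) (.c 1 (.c 0 (.c 1 (.l 688) .n)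
  .n) .n)) .n) .n))))) (.c 3 (.c 0 (.c 3 (.c 2 (.l 5904) .n) (.c 4 (.c 0 (.c 1 (.l 3664) .n) .n)
  .n)) (.c 1 (.c 1 (.c 3 (.l 3824) .n) (.c 2 (.c 1 (.c 1 (.l 2348) .n) .n) (.c 3 (.c 0 (.c 0 (.c
  1 (.l 712) .n) .n) .n) .n))) (.c 2 (.c 0 (.c 2 (.c 1 (.l 1480) .n) .n) (.c 1 (.c 0 (.c 2 (.l
  872) .n) (.c 1 (.c 0 (.c 1 (.l 436) .n) .n) .n)) .n)) (.c 3 (.c 0 (.c 0 (.c 1 (.c 1 (.l 132)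
  .n) .n) .n) .n) .n)))) (.c 4 (.c 0 (.c 0 (.c 4 (.l 1536) .n) (.c 1 (.c 2 (.c 1 (.l 928) .n)
  .n) (.c 2 (.c 0 (.c 2 (.l 544) .n) (.c 1 (.c 0 (.c 1 (.l 272) .n) .n) .n)) .n))) (.c 1 (.c 0
  (.c 1 (.c 2 (.l 320) .n) (.c 2 (.c 0 (.c 1 (.l 160) .n) .n) .n)) (.c 1 (.c 0 (.c 1 (.c 1 (.l
  80) .n) .n) .n) .n)) .n)) (.c 5 (.c 0 (.c 0 (.c 0 (.c 3 (.l 48) .n) (.c 1 (.c 1 (.c 1 (.l 24)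
  .n) .n) .n)) .n) .n) .n)))))) (.c 1 (.c 0 (.c 1 (.c 6 (.l 12960) .n) (.c 2 (.c 4 (.c 1 (.l
  8576) .n) .n) (.c 3 (.c 2 (.c 2 (.l 5632) .n) (.c 3 (.c 0 (.c 1 (.l 3504) .n) .n) .n)) (.c 4
  (.c 0 (.c 3 (.l 3664) .n) (.c 1 (.c 1 (.c 1 (.l 2256) .n) .n) (.c 2 (.c 0 (.c 0 (.c 1 (.l 688)
  .n) .n) .n) .n))) (.c 5 (.c 0 (.c 0 (.c 2 (.l 848) .n) (.c 1 (.c 0 (.c 1 (.l 424) .n) .n) .n))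
  .n) .n))))) (.c 1 (.c 0 (.c 5 (.c 1 (.l 5584) .n) .n) (.c 1 (.c 3 (.c 2 (.l 3640) .n) (.c 4
  (.c 0 (.c 1 (.l 2256) .n) .n) .n)) (.c 2 (.c 1 (.c 3 (.l 2348) .n) (.c 2 (.c 1 (.c 1 (.l 1440)
  .n) .n) (.c 3 (.c 0 (.c 0 (.c 1 (.l 436) .n) .n) .n) .n))) (.c 3 (.c 0 (.c 2 (.c 1 (.l 904)
  .n) .n) (.c 1 (.c 0 (.c 2 (.l 532) .n) (.c 1 (.c 0 (.c 1 (.l 266) .n) .n) .n)) .n)) (.c 4 (.c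
  0 (.c 0 (.c 1 (.c 1 (.l 80) .n) .n) .n) .n) .n))))) (.c 2 (.c 0 (.c 2 (.c 3 (.l 1480) .n) (.c
  3 (.c 1 (.c 1 (.l 904) .n) .n) (.c 4 (.c 0 (.c 0 (.c 1 (.l 272) .n) .n) .n) .n))) (.c 1 (.c 0
  (.c 4 (.l 928) .n) (.c 1 (.c 2 (.c 1 (.l 560) .n) .n) (.c 2 (.c 0 (.c 2 (.l 328) .n) (.c 1 (.c
  0 (.c 1 (.l 164) .n) .n) .n)) .n))) (.c 2 (.c 0 (.c 1 (.c 2 (.l 192) .n) (.c 2 (.c 0 (.c 1 (.l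
  96) .n) .n) .n)) (.c 1 (.c 0 (.c 1 (.c 1 (.l 48) .n) .n) .n) .n)) .n))) (.c 3 (.c 0 (.c 0 (.c
  3 (.c 1 (.l 196) .n) .n) (.c 1 (.c 1 (.c 2 (.l 112) .n) (.c 2 (.c 0 (.c 1 (.l 56) .n) .n) .n))
  (.c 2 (.c 0 (.c 1 (.c 1 (.l 28) .n) .n) .n) .n))) (.c 1 (.c 0 (.c 0 (.c 3 (.l 28) .n) (.c 1
  (.c 1 (.c 1 (.l 14) .n) .n) .n)) .n) .n)) .n)))) (.c 2 (.c 0 (.c 0 (.c 4 (.c 2 (.l 1376) .n)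
  (.c 5 (.c 0 (.c 1 (.l 848) .n) .n) .n)) (.c 1 (.c 2 (.c 3 (.l 872) .n) (.c 3 (.c 1 (.c 1 (.l
  532) .n) .n) (.c 4 (.c 0 (.c 0 (.c 1 (.l 160) .n) .n) .n) .n))) (.c 2 (.c 0 (.c 4 (.l 544) .n)
  (.c 1 (.c 2 (.c 1 (.l 328) .n) .n) (.c 2 (.c 0 (.c 2 (.l 192) .n) (.c 1 (.c 0 (.c 1 (.l 96)
  .n) .n) .n)) .n))) (.c 3 (.c 0 (.c 1 (.c 2 (.l 112) .n) (.c 2 (.c 0 (.c 1 (.l 56) .n) .n) .n))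
  (.c 1 (.c 0 (.c 1 (.c 1 (.l 28) .n) .n) .n) .n)) .n)))) (.c 1 (.c 0 (.c 1 (.c 4 (.l 320) .n)
  (.c 2 (.c 2 (.c 1 (.l 192) .n) .n) (.c 3 (.c 0 (.c 2 (.l 112) .n) (.c 1 (.c 0 (.c 1 (.l 56)
  .n) .n) .n)) .n))) (.c 1 (.c 0 (.c 3 (.c 1 (.l 112) .n) .n) (.c 1 (.c 1 (.c 2 (.l 64) .n) (.c
  2 (.c 0 (.c 1 (.l 32) .n) .n) .n)) (.c 2 (.c 0 (.c 1 (.c 1 (.l 16) .n) .n) .n) .n))) (.c 2 (.c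
  0 (.c 0 (.c 3 (.l 16) .n) (.c 1 (.c 1 (.c 1 (.l 8) .n) .n) .n)) .n) .n))) (.c 2 (.c 0 (.c 0
  (.c 2 (.c 2 (.l 16) .n) (.c 3 (.c 0 (.c 1 (.l 8) .n) .n) .n)) (.c 1 (.c 0 (.c 3 (.l 8) .n) (.c
  1 (.c 1 (.c 1 (.l 4) .n) .n) .n)) .n)) .n) .n))) (.c 3 (.c 0 (.c 0 (.c 0 (.c 5 (.l 48) .n) (.c
  1 (.c 3 (.c 1 (.l 28) .n) .n) (.c 2 (.c 1 (.c 2 (.l 16) .n) (.c 2 (.c 0 (.c 1 (.l 8) .n) .n)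
  .n)) (.c 3 (.c 0 (.c 1 (.c 1 (.l 4) .n) .n) .n) .n)))) (.c 1 (.c 0 (.c 2 (.c 2 (.l 8) .n) (.c
  3 (.c 0 (.c 1 (.l 4) .n) .n) .n)) (.c 1 (.c 0 (.c 3 (.l 4) .n) (.c 1 (.c 1 (.c 1 (.l 2) .n)
  .n) .n)) .n)) .n)) .n) .n)))) (.c 1 (.c 0 (.c 0 (.c 0 (.c 7 (.l 2640) .n) (.c 1 (.c 5 (.c 1
  (.l 1720) .n) .n) (.c 2 (.c 3 (.c 2 (.l 1112) .n) (.c 4 (.c 0 (.c 1 (.l 688) .n) .n) .n)) (.c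
  3 (.c 1 (.c 3 (.l 712) .n) (.c 2 (.c 1 (.c 1 (.l 436) .n) .n) (.c 3 (.c 0 (.c 0 (.c 1 (.l 132)
  .n) .n) .n) .n))) (.c 4 (.c 0 (.c 2 (.c 1 (.l 272) .n) .n) (.c 1 (.c 0 (.c 2 (.l 160) .n) (.c
  1 (.c 0 (.c 1 (.l 80) .n) .n) .n)) .n)) (.c 5 (.c 0 (.c 0 (.c 1 (.c 1 (.l 24) .n) .n) .n) .n)
  .n)))))) (.c 1 (.c 0 (.c 4 (.c 2 (.l 688) .n) (.c 5 (.c 0 (.c 1 (.l 424) .n) .n) .n)) (.c 1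
  (.c 2 (.c 3 (.l 436) .n) (.c 3 (.c 1 (.c 1 (.l 266) .n) .n) (.c 4 (.c 0 (.c 0 (.c 1 (.l 80)
  .n) .n) .n) .n))) (.c 2 (.c 0 (.c 4 (.l 272) .n) (.c 1 (.c 2 (.c 1 (.l 164) .n) .n) (.c 2 (.c
  0 (.c 2 (.l 96) .n) (.c 1 (.c 0 (.c 1 (.l 48) .n) .n) .n)) .n))) (.c 3 (.c 0 (.c 1 (.c 2 (.l
  56) .n) (.c 2 (.c 0 (.c 1 (.l 28) .n) .n) .n)) (.c 1 (.c 0 (.c 1 (.c 1 (.l 14) .n) .n) .n)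
  .n)) .n)))) (.c 2 (.c 0 (.c 1 (.c 4 (.l 160) .n) (.c 2 (.c 2 (.c 1 (.l 96) .n) .n) (.c 3 (.c 0
  (.c 2 (.l 56) .n) (.c 1 (.c 0 (.c 1 (.l 28) .n) .n) .n)) .n))) (.c 1 (.c 0 (.c 3 (.c 1 (.l 56)
  .n) .n) (.c 1 (.c 1 (.c 2 (.l 32) .n) (.c 2 (.c 0 (.c 1 (.l 16) .n) .n) .n)) (.c 2 (.c 0 (.c 1
  (.c 1 (.l 8) .n) .n) .n) .n))) (.c 2 (.c 0 (.c 0 (.c 3 (.l 8) .n) (.c 1 (.c 1 (.c 1 (.l 4) .n)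
  .n) .n)) .n) .n))) (.c 3 (.c 0 (.c 0 (.c 2 (.c 2 (.l 8) .n) (.c 3 (.c 0 (.c 1 (.l 4) .n) .n)
  .n)) (.c 1 (.c 0 (.c 3 (.l 4) .n) (.c 1 (.c 1 (.c 1 (.l 2) .n) .n) .n)) .n)) .n) .n)))) (.c 1
  (.c 0 (.c 0 (.c 3 (.c 3 (.l 132) .n) (.c 4 (.c 1 (.c 1 (.l 80) .n) .n) (.c 5 (.c 0 (.c 0 (.c 1
  (.l 24) .n) .n) .n) .n))) (.c 1 (.c 1 (.c 4 (.l 80) .n) (.c 2 (.c 2 (.c 1 (.l 48) .n) .n) (.c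
  3 (.c 0 (.c 2 (.l 28) .n) (.c 1 (.c 0 (.c 1 (.l 14) .n) .n) .n)) .n))) (.c 2 (.c 0 (.c 3 (.c 1
  (.l 28) .n) .n) (.c 1 (.c 1 (.c 2 (.l 16) .n) (.c 2 (.c 0 (.c 1 (.l 8) .n) .n) .n)) (.c 2 (.c
  0 (.c 1 (.c 1 (.l 4) .n) .n) .n) .n))) (.c 3 (.c 0 (.c 0 (.c 3 (.l 4) .n) (.c 1 (.c 1 (.c 1
  (.l 2) .n) .n) .n)) .n) .n)))) (.c 1 (.c 0 (.c 0 (.c 5 (.l 24) .n) (.c 1 (.c 3 (.c 1 (.l 14)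
  .n) .n) (.c 2 (.c 1 (.c 2 (.l 8) .n) (.c 2 (.c 0 (.c 1 (.l 4) .n) .n) .n)) (.c 3 (.c 0 (.c 1
  (.c 1 (.l 2) .n) .n) .n) .n)))) (.c 1 (.c 0 (.c 2 (.c 2 (.l 4) .n) (.c 3 (.c 0 (.c 1 (.l 2)
  .n) .n) .n)) (.c 1 (.c 0 (.c 3 (.l 2) .n) (.c 1 (.c 1 (.c 1 (.l 1) .n) .n) .n)) .n)) .n)) .n))
  .n)) .n)) .n)

noncomputable def t17_10 : Tr := (.c 0 (.c 0 (.c 0 (.c 0 (.c 0 (.c 7 (.l 2640) .n) (.c 1 (.c 5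
  (.c 1 (.l 1720) .n) .n) (.c 2 (.c 3 (.c 2 (.l 1112) .n) (.c 4 (.c 0 (.c 1 (.l 688) .n) .n)
  .n)) (.c 3 (.c 1 (.c 3 (.l 712) .n) (.c 2 (.c 1 (.c 1 (.l 436) .n) .n) (.c 3 (.c 0 (.c 0 (.c 1
  (.l 132) .n) .n) .n) .n))) (.c 4 (.c 0 (.c 2 (.c 1 (.l 272) .n) .n) (.c 1 (.c 0 (.c 2 (.l 160)
  .n) (.c 1 (.c 0 (.c 1 (.l 80) .n) .n) .n)) .n)) (.c 5 (.c 0 (.c 0 (.c 1 (.c 1 (.l 24) .n) .n)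
  .n) .n) .n)))))) (.c 1 (.c 0 (.c 4 (.c 2 (.l 688) .n) (.c 5 (.c 0 (.c 1 (.l 424) .n) .n) .n))
  (.c 1 (.c 2 (.c 3 (.l 436) .n) (.c 3 (.c 1 (.c 1 (.l 266) .n) .n) (.c 4 (.c 0 (.c 0 (.c 1 (.l
  80) .n) .n) .n) .n))) (.c 2 (.c 0 (.c 4 (.l 272) .n) (.c 1 (.c 2 (.c 1 (.l 164) .n) .n) (.c 2
  (.c 0 (.c 2 (.l 96) .n) (.c 1 (.c 0 (.c 1 (.l 48) .n) .n) .n)) .n))) (.c 3 (.c 0 (.c 1 (.c 2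
  (.l 56) .n) (.c 2 (.c 0 (.c 1 (.l 28) .n) .n) .n)) (.c 1 (.c 0 (.c 1 (.c 1 (.l 14) .n) .n) .n)
  .n)) .n)))) (.c 2 (.c 0 (.c 1 (.c 4 (.l 160) .n) (.c 2 (.c 2 (.c 1 (.l 96) .n) .n) (.c 3 (.c 0
  (.c 2 (.l 56) .n) (.c 1 (.c 0 (.c 1 (.l 28) .n) .n) .n)) .n))) (.c 1 (.c 0 (.c 3 (.c 1 (.l 56)
  .n) .n) (.c 1 (.c 1 (.c 2 (.l 32) .n) (.c 2 (.c 0 (.c 1 (.l 16) .n) .n) .n)) (.c 2 (.c 0 (.c 1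
  (.c 1 (.l 8) .n) .n) .n) .n))) (.c 2 (.c 0 (.c 0 (.c 3 (.l 8) .n) (.c 1 (.c 1 (.c 1 (.l 4) .n)
  .n) .n)) .n) .n))) (.c 3 (.c 0 (.c 0 (.c 2 (.c 2 (.l 8) .n) (.c 3 (.c 0 (.c 1 (.l 4) .n) .n)
  .n)) (.c 1 (.c 0 (.c 3 (.l 4) .n) (.c 1 (.c 1 (.c 1 (.l 2) .n) .n) .n)) .n)) .n) .n)))) (.c 1
  (.c 0 (.c 0 (.c 3 (.c 3 (.l 132) .n) (.c 4 (.c 1 (.c 1 (.l 80) .n) .n) (.c 5 (.c 0 (.c 0 (.c 1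
  (.l 24) .n) .n) .n) .n))) (.c 1 (.c 1 (.c 4 (.l 80) .n) (.c 2 (.c 2 (.c 1 (.l 48) .n) .n) (.c
  3 (.c 0 (.c 2 (.l 28) .n) (.c 1 (.c 0 (.c 1 (.l 14) .n) .n) .n)) .n))) (.c 2 (.c 0 (.c 3 (.c 1
  (.l 28) .n) .n) (.c 1 (.c 1 (.c 2 (.l 16) .n) (.c 2 (.c 0 (.c 1 (.l 8) .n) .n) .n)) (.c 2 (.c
  0 (.c 1 (.c 1 (.l 4) .n) .n) .n) .n))) (.c 3 (.c 0 (.c 0 (.c 3 (.l 4) .n) (.c 1 (.c 1 (.c 1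
  (.l 2) .n) .n) .n)) .n) .n)))) (.c 1 (.c 0 (.c 0 (.c 5 (.l 24) .n) (.c 1 (.c 3 (.c 1 (.l 14)
  .n) .n) (.c 2 (.c 1 (.c 2 (.l 8) .n) (.c 2 (.c 0 (.c 1 (.l 4) .n) .n) .n)) (.c 3 (.c 0 (.c 1
  (.c 1 (.l 2) .n) .n) .n) .n)))) (.c 1 (.c 0 (.c 2 (.c 2 (.l 4) .n) (.c 3 (.c 0 (.c 1 (.l 2)
  .n) .n) .n)) (.c 1 (.c 0 (.c 3 (.l 2) .n) (.c 1 (.c 1 (.c 1 (.l 1) .n) .n) .n)) .n)) .n)) .n))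
  .n)) .n) .n)

noncomputable def t17_11 : Tr := (.c 0 (.c 0 (.c 0 (.c 0 (.c 0 (.c 3 (.c 3 (.l 132) .n) (.c 4
  (.c 1 (.c 1 (.l 80) .n) .n) (.c 5 (.c 0 (.c 0 (.c 1 (.l 24) .n) .n) .n) .n))) (.c 1 (.c 1 (.c
  4 (.l 80) .n) (.c 2 (.c 2 (.c 1 (.l 48) .n) .n) (.c 3 (.c 0 (.c 2 (.l 28) .n) (.c 1 (.c 0 (.c
  1 (.l 14) .n) .n) .n)) .n))) (.c 2 (.c 0 (.c 3 (.c 1 (.l 28) .n) .n) (.c 1 (.c 1 (.c 2 (.l 16)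
  .n) (.c 2 (.c 0 (.c 1 (.l 8) .n) .n) .n)) (.c 2 (.c 0 (.c 1 (.c 1 (.l 4) .n) .n) .n) .n))) (.c
  3 (.c 0 (.c 0 (.c 3 (.l 4) .n) (.c 1 (.c 1 (.c 1 (.l 2) .n) .n) .n)) .n) .n)))) (.c 1 (.c 0
  (.c 0 (.c 5 (.l 24) .n) (.c 1 (.c 3 (.c 1 (.l 14) .n) .n) (.c 2 (.c 1 (.c 2 (.l 8) .n) (.c 2
  (.c 0 (.c 1 (.l 4) .n) .n) .n)) (.c 3 (.c 0 (.c 1 (.c 1 (.l 2) .n) .n) .n) .n)))) (.c 1 (.c 0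
  (.c 2 (.c 2 (.l 4) .n) (.c 3 (.c 0 (.c 1 (.l 2) .n) .n) .n)) (.c 1 (.c 0 (.c 3 (.l 2) .n) (.c
  1 (.c 1 (.c 1 (.l 1) .n) .n) .n)) .n)) .n)) .n)) .n) .n) .n)

noncomputable def t17_12 : Tr := (.c 0 (.c 0 (.c 0 (.c 0 (.c 0 (.c 0 (.c 5 (.l 24) .n) (.c 1 (.c
  3 (.c 1 (.l 14) .n) .n) (.c 2 (.c 1 (.c 2 (.l 8) .n) (.c 2 (.c 0 (.c 1 (.l 4) .n) .n) .n)) (.c
  3 (.c 0 (.c 1 (.c 1 (.l 2) .n) .n) .n) .n)))) (.c 1 (.c 0 (.c 2 (.c 2 (.l 4) .n) (.c 3 (.c 0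
  (.c 1 (.l 2) .n) .n) .n)) (.c 1 (.c 0 (.c 3 (.l 2) .n) (.c 1 (.c 1 (.c 1 (.l 1) .n) .n) .n))
  .n)) .n)) .n) .n) .n) .n)

noncomputable def t17_13 : Tr := (.c 0 (.c 0 (.c 0 (.c 0 (.c 0 (.c 0 (.c 2 (.c 2 (.l 4) .n) (.c
  3 (.c 0 (.c 1 (.l 2) .n) .n) .n)) (.c 1 (.c 0 (.c 3 (.l 2) .n) (.c 1 (.c 1 (.c 1 (.l 1) .n)
  .n) .n)) .n)) .n) .n) .n) .n) .n)

noncomputable def t17_14 : Tr := (.c 0 (.c 0 (.c 0 (.c 0 (.c 0 (.c 0 (.c 0 (.c 3 (.l 2) .n) (.c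
  1 (.c 1 (.c 1 (.l 1) .n) .n) .n)) .n) .n) .n) .n) .n) .n)

noncomputable def t17_15 : Tr := (.c 0 (.c 0 (.c 0 (.c 0 (.c 0 (.c 0 (.c 0 (.c 1 (.c 1 (.l 1)
  .n) .n) .n) .n) .n) .n) .n) .n) .n)

noncomputable def t17_16 : Tr := (.c 0 (.c 0 (.c 0 (.c 0 (.c 0 (.c 0 (.c 0 (.c 0 (.c 1 (.l 1)
  .n) .n) .n) .n) .n) .n) .n) .n) .n)

noncomputable def t17_17 : Tr := (.l 1)

end MP_a3e05c_co.RTK
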