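import Pool.Agent.Lib.MP_a3e05c_co.RTK.Chk

/-!
# EULER: tables for regular tournaments with 19 vertices
-/

namespace MP_a3e05c_co.RTK

noncomputable def t19_0 : Tr := (.c 19 (.l 427102009099124449965536944854574242240) .n)

noncomputable def t19_1 : Tr := (.c 9 (.c 9 (.l 8784492165757393047419517582364752) .n) .n)

noncomputable def t19_2 : Tr := (.c 0 (.c 17 (.l 855847134438310629783496785600) .n) (.c 1 (.c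
  15 (.c 1 (.l 694524467160687391924922554900) .n) .n) (.c 2 (.c 13 (.c 2 (.l
  563433089160543681903661986720) .n) .n) (.c 3 (.c 11 (.c 3 (.l 456939911018698769141488495476)
  .n) .n) (.c 4 (.c 9 (.c 4 (.l 370455665153683526854922022672) .n) .n) (.c 5 (.c 7 (.c 5 (.l
  300242470610562855322044669280) .n) .n) (.c 6 (.c 5 (.c 6 (.l 243256146204561295158629313080)
  .n) .n) (.c 7 (.c 3 (.c 7 (.l 197016828565766496690951009048) .n) .n) (.c 8 (.c 1 (.c 8 (.l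
  159502210878785766426337212976) .n) .n) .n)))))))))

noncomputable def t19_3 : Tr := (.c 0 (.c 8 (.c 8 (.l 66499388845245581179758880) .n) (.c 9 (.c
  6 (.c 1 (.l 53266926870369921722250864) .n) .n) (.c 10 (.c 4 (.c 2 (.l
  42649784428489505830267680) .n) .n) (.c 11 (.c 2 (.c 3 (.l 34134435977941407082982040) .n) .n)
  (.c 12 (.c 0 (.c 4 (.l 27307548850183806355018560) .n) .n) .n))))) (.c 1 (.c 6 (.c 9 (.l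
  53266913075231184222412420) .n) (.c 7 (.c 7 (.c 1 (.l 42650770367245528794900580) .n) .n) (.c
  8 (.c 5 (.c 2 (.l 34136045990047968245257968) .n) .n) (.c 9 (.c 3 (.c 3 (.l
  27309513314567608352149176) .n) .n) (.c 10 (.c 1 (.c 4 (.l 21838674521086710918451680) .n) .n)
  .n))))) (.c 2 (.c 4 (.c 10 (.l 42649732959699797844580680) .n) (.c 5 (.c 8 (.c 1 (.l
  34136017226363947515423248) .n) .n) (.c 6 (.c 6 (.c 2 (.l 27310149392593480923411792) .n) .n)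
  (.c 7 (.c 4 (.c 3 (.l 21839735712270778754264468) .n) .n) (.c 8 (.c 2 (.c 4 (.l
  17457402872414465360668368) .n) .n) (.c 9 (.c 0 (.c 5 (.l 13947066973681452698745312) .n) .n)
  .n)))))) (.c 3 (.c 2 (.c 11 (.l 34134283632867397823165796) .n) (.c 3 (.c 9 (.c 1 (.l
  27309414955380498899851884) .n) .n) (.c 4 (.c 7 (.c 2 (.l 21839677034582278069188064) .n) .n)
  (.c 5 (.c 5 (.c 3 (.l 17457806683408972242554976) .n) .n) (.c 6 (.c 3 (.c 4 (.l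
  13948861579437171247475364) .n) .n) (.c 7 (.c 1 (.c 5 (.l 11138788418807077344947284) .n) .n)
  .n)))))) (.c 4 (.c 0 (.c 12 (.l 27307145447984263161923568) .n) (.c 1 (.c 10 (.c 1 (.l
  21838413715123257554559328) .n) .n) (.c 2 (.c 8 (.c 2 (.l 17457231710548886650266560) .n) .n)
  (.c 3 (.c 6 (.c 3 (.l 13948781119772912920000176) .n) .n) (.c 4 (.c 4 (.c 4 (.l
  11140319566111479883821568) .n) .n) (.c 5 (.c 2 (.c 5 (.l 8891482497369288710610664) .n) .n)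
  (.c 6 (.c 0 (.c 6 (.l 7086939195954759654533664) .n) .n) .n))))))) (.c 5 (.c 0 (.c 9 (.c 2 (.l
  13947050970008353600495440) .n) .n) (.c 1 (.c 7 (.c 3 (.l 11139828669828152481585360) .n) .n)
  (.c 2 (.c 5 (.c 4 (.l 8892832829457691032251820) .n) .n) (.c 3 (.c 3 (.c 5 (.l
  7093628068603304648030340) .n) .n) (.c 4 (.c 1 (.c 6 (.l 5645552828007691804125504) .n) .n)
  .n))))) (.c 6 (.c 0 (.c 6 (.c 4 (.l 7094551528888467898898880) .n) .n) (.c 1 (.c 4 (.c 5 (.l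
  5653964271805218864262480) .n) .n) (.c 2 (.c 2 (.c 6 (.l 4493819315428811362996984) .n) .n)
  (.c 3 (.c 0 (.c 7 (.l 3524781287005527387231792) .n) .n) .n)))) (.c 7 (.c 0 (.c 3 (.c 6 (.l
  3554627677406369923498892) .n) .n) (.c 1 (.c 1 (.c 7 (.l 2782188960333568190981760) .n) .n)
  .n)) .n))))))))

noncomputable def t19_4 : Tr := (.c 0 (.c 0 (.c 15 (.l 24061983415037628348288) .n) (.c 1 (.c 13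
  (.c 1 (.l 19061545056387637205688) .n) .n) (.c 2 (.c 11 (.c 2 (.l 15092665753268855791776) .n)
  (.c 12 (.c 0 (.c 1 (.l 11896627031913544890288) .n) .n) .n)) (.c 3 (.c 9 (.c 3 (.l
  11944045541109117339864) .n) (.c 10 (.c 1 (.c 1 (.l 9409906738943089554084) .n) .n) .n)) (.c 4
  (.c 7 (.c 4 (.l 9447370110013281661728) .n) (.c 8 (.c 2 (.c 1 (.l 7439046008060180942816) .n)
  .n) (.c 9 (.c 0 (.c 2 (.l 5854128685917352905888) .n) .n) .n))) (.c 5 (.c 5 (.c 5 (.l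
  7468623992391910396840) .n) (.c 6 (.c 3 (.c 1 (.l 5877812240078609629680) .n) .n) (.c 7 (.c 1
  (.c 2 (.l 4623016264987420401280) .n) .n) .n))) (.c 6 (.c 3 (.c 6 (.l 5901145141762688399856)
  .n) (.c 4 (.c 4 (.c 1 (.l 4641695499813780544976) .n) .n) (.c 5 (.c 2 (.c 2 (.l
  3648775405014787313840) .n) .n) (.c 6 (.c 0 (.c 3 (.l 2866438164026321392560) .n) .n) .n))))
  (.c 7 (.c 1 (.c 7 (.l 4660072850745631488140) .n) (.c 2 (.c 5 (.c 1 (.l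
  3663492918777378339160) .n) .n) (.c 3 (.c 3 (.c 2 (.l 2878213636501652486472) .n) .n) (.c 4
  (.c 1 (.c 3 (.l 2259803116212382588048) .n) .n) .n)))) (.c 8 (.c 0 (.c 6 (.c 1 (.l
  2889778080746079428064) .n) .n) (.c 1 (.c 4 (.c 2 (.l 2269066154116932369792) .n) .n) (.c 2
  (.c 2 (.c 3 (.l 1780507802825610758176) .n) .n) (.c 3 (.c 0 (.c 4 (.l 1394194019066665530176)
  .n) .n) .n)))) (.c 9 (.c 0 (.c 3 (.c 3 (.l 1401967745534651407848) .n) .n) (.c 1 (.c 1 (.c 4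
  (.l 1095503532363321778416) .n) .n) .n)) .n)))))))))) (.c 1 (.c 0 (.c 12 (.c 2 (.l
  11896626108204414137088) .n) (.c 13 (.c 0 (.c 1 (.l 9373180339133057213624) .n) .n) .n)) (.c 1
  (.c 10 (.c 3 (.l 9409905227213045116824) .n) (.c 11 (.c 1 (.c 1 (.l 7410057014079183047232)
  .n) .n) .n)) (.c 2 (.c 8 (.c 4 (.l 7439043771095370549648) .n) (.c 9 (.c 2 (.c 1 (.l
  5854946609998989254208) .n) .n) (.c 10 (.c 0 (.c 2 (.l 4605370718829647366040) .n) .n) .n)))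
  (.c 3 (.c 6 (.c 5 (.l 5877808755326592931176) .n) (.c 7 (.c 3 (.c 1 (.l
  4623672863695642446448) .n) .n) (.c 8 (.c 1 (.c 2 (.l 3634882118260344424552) .n) .n) .n)))
  (.c 4 (.c 4 (.c 6 (.l 4641686076096528915352) .n) (.c 5 (.c 4 (.c 1 (.l
  3649301729420290506856) .n) .n) (.c 6 (.c 2 (.c 2 (.l 2867283364300294781568) .n) .n) (.c 7
  (.c 0 (.c 3 (.l 2251373257624286945828) .n) .n) .n)))) (.c 5 (.c 2 (.c 7 (.l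
  3663463044435809648192) .n) (.c 3 (.c 5 (.c 1 (.l 2878629292957342739296) .n) .n) (.c 4 (.c 3
  (.c 2 (.l 2260480793948493165680) .n) .n) (.c 5 (.c 1 (.c 3 (.l 1773903762205568715720) .n)
  .n) .n)))) (.c 6 (.c 0 (.c 8 (.l 2889508366670100717156) .n) (.c 1 (.c 6 (.c 1 (.l
  2269375209243195453448) .n) .n) (.c 2 (.c 4 (.c 2 (.l 1781041142295378875360) .n) .n) (.c 3
  (.c 2 (.c 3 (.l 1396849807147782015504) .n) .n) (.c 4 (.c 0 (.c 4 (.l 1092243913156349692576)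
  .n) .n) .n))))) (.c 7 (.c 0 (.c 5 (.c 2 (.l 1402404960090495323880) .n) .n) (.c 1 (.c 3 (.c 3
  (.l 1099159882211530601864) .n) .n) (.c 2 (.c 1 (.c 4 (.l 857855190029481479832) .n) .n) .n)))
  (.c 8 (.c 0 (.c 2 (.c 4 (.l 668394806504678961248) .n) .n) (.c 1 (.c 0 (.c 5 (.l
  504537220628175011680) .n) .n) .n)) .n))))))))) (.c 2 (.c 0 (.c 9 (.c 4 (.l
  5854116572161103341920) .n) (.c 10 (.c 2 (.c 1 (.l 4605364327344712551360) .n) .n) (.c 11 (.c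
  0 (.c 2 (.l 3620757494132180928240) .n) .n) .n))) (.c 1 (.c 7 (.c 5 (.l
  4623000546261311059604) .n) (.c 8 (.c 3 (.c 1 (.l 3634875269400820527112) .n) .n) (.c 9 (.c 1
  (.c 2 (.l 2856165567435425699952) .n) .n) .n))) (.c 2 (.c 5 (.c 6 (.l 3648748552669121331460)
  .n) (.c 6 (.c 4 (.c 1 (.l 2867274642203572336888) .n) .n) (.c 7 (.c 2 (.c 2 (.l
  2251737138713463088064) .n) .n) (.c 8 (.c 0 (.c 3 (.l 1767134034827842632224) .n) .n) .n))))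
  (.c 3 (.c 3 (.c 7 (.l 2878148538659204413368) .n) (.c 4 (.c 5 (.c 1 (.l
  2260461853041943520780) .n) .n) (.c 5 (.c 3 (.c 2 (.l 1774178179528887650136) .n) .n) (.c 6
  (.c 1 (.c 3 (.l 1391541530243847240000) .n) .n) .n)))) (.c 4 (.c 1 (.c 8 (.l
  2268906686631588324616) .n) (.c 2 (.c 6 (.c 1 (.l 1780989934825638931136) .n) .n) (.c 3 (.c 4
  (.c 2 (.l 1397054401704406498752) .n) .n) (.c 4 (.c 2 (.c 3 (.l 1095104569891003906320) .n)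
  .n) (.c 5 (.c 0 (.c 4 (.l 855269825704271594688) .n) .n) .n))))) (.c 5 (.c 0 (.c 7 (.c 1 (.l
  1402099883036049061520) .n) .n) (.c 1 (.c 5 (.c 2 (.l 1099370515010579306320) .n) .n) (.c 2
  (.c 3 (.c 3 (.l 861164277280394485656) .n) .n) (.c 3 (.c 1 (.c 4 (.l 670951299553531006284)
  .n) .n) .n)))) (.c 6 (.c 0 (.c 4 (.c 3 (.l 675955401806501189088) .n) .n) (.c 1 (.c 2 (.c 4
  (.l 523606335969144994256) .n) .n) (.c 2 (.c 0 (.c 5 (.l 393123622095582426664) .n) .n) .n)))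
  .n))))))) (.c 3 (.c 0 (.c 6 (.c 6 (.l 2866344334864637060940) .n) (.c 7 (.c 4 (.c 1 (.l
  2251363670362384657796) .n) .n) (.c 8 (.c 2 (.c 2 (.l 1766855178170322428184) .n) .n) (.c 9
  (.c 0 (.c 3 (.l 1385806472200541034000) .n) .n) .n)))) (.c 1 (.c 4 (.c 7 (.l
  2259651670792557303924) .n) (.c 5 (.c 5 (.c 1 (.l 1773858709674736804284) .n) .n) (.c 6 (.c 3
  (.c 2 (.l 1391565473475556818888) .n) .n) (.c 7 (.c 1 (.c 3 (.l 1090575973739182028448) .n)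
  .n) .n)))) (.c 2 (.c 2 (.c 8 (.l 1780201317678081918060) .n) (.c 3 (.c 6 (.c 1 (.l
  1396739692625105654324) .n) .n) (.c 4 (.c 4 (.c 2 (.l 1095100863947655467888) .n) .n) (.c 5
  (.c 2 (.c 3 (.l 857842166765931128592) .n) .n) (.c 6 (.c 0 (.c 4 (.l 667521764938507737476)
  .n) .n) .n))))) (.c 3 (.c 0 (.c 9 (.l 1401351446854530305016) .n) (.c 1 (.c 7 (.c 1 (.l
  1099002254488630760172) .n) .n) (.c 2 (.c 5 (.c 2 (.l 861191602034051888624) .n) .n) (.c 3 (.c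
  3 (.c 3 (.l 674131560722191251468) .n) .n) (.c 4 (.c 1 (.c 4 (.l 523385566630488921616) .n)
  .n) .n))))) (.c 4 (.c 0 (.c 6 (.c 2 (.l 675438105180062591952) .n) .n) (.c 1 (.c 4 (.c 3 (.l
  528585389625633039480) .n) .n) (.c 2 (.c 2 (.c 4 (.l 408390729526131223288) .n) .n) (.c 3 (.c
  0 (.c 5 (.l 305641094550286126232) .n) .n) .n)))) (.c 5 (.c 0 (.c 3 (.c 4 (.l
  316138414834927895524) .n) .n) (.c 1 (.c 1 (.c 5 (.l 230553265727323413056) .n) .n) .n))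
  .n)))))) (.c 4 (.c 0 (.c 3 (.c 8 (.l 1395463869038524271232) .n) (.c 4 (.c 6 (.c 1 (.l
  1094558187032591758176) .n) .n) (.c 5 (.c 4 (.c 2 (.l 857514683507778585824) .n) .n) (.c 6 (.c
  2 (.c 3 (.l 670400253876884873648) .n) .n) (.c 7 (.c 0 (.c 4 (.l 518275349438678466432) .n)
  .n) .n))))) (.c 1 (.c 1 (.c 9 (.l 1097017918048112346736) .n) (.c 2 (.c 7 (.c 1 (.l
  860450063587827358256) .n) .n) (.c 3 (.c 5 (.c 2 (.l 673934961216590813720) .n) .n) (.c 4 (.c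
  3 (.c 3 (.l 526870559120376390272) .n) .n) (.c 5 (.c 1 (.c 4 (.l 407406225337576252504) .n)
  .n) .n))))) (.c 2 (.c 0 (.c 8 (.c 1 (.l 675291073845506713248) .n) .n) (.c 1 (.c 6 (.c 2 (.l
  528110025035785609504) .n) .n) (.c 2 (.c 4 (.c 3 (.l 412380680995856868032) .n) .n) (.c 3 (.c
  2 (.c 4 (.l 316850157750578180832) .n) .n) (.c 4 (.c 0 (.c 5 (.l 236585502818452652752) .n)
  .n) .n))))) (.c 3 (.c 0 (.c 5 (.c 3 (.l 316863590188571504000) .n) .n) (.c 1 (.c 3 (.c 4 (.l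
  243169344442294503424) .n) .n) (.c 2 (.c 1 (.c 5 (.l 178188798514435757104) .n) .n) .n)))
  .n)))) (.c 5 (.c 0 (.c 1 (.c 8 (.c 1 (.l 526495565668964663840) .n) .n) (.c 2 (.c 6 (.c 2 (.l
  411723803296679077200) .n) .n) (.c 3 (.c 4 (.c 3 (.l 320431047545285190536) .n) .n) (.c 4 (.c
  2 (.c 4 (.l 244591856121201032456) .n) .n) .n)))) (.c 1 (.c 0 (.c 7 (.c 2 (.l
  320269940438674471840) .n) .n) (.c 1 (.c 5 (.c 3 (.l 246134510198776173560) .n) .n) (.c 2 (.c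
  3 (.c 4 (.l 185220278477781205488) .n) .n) .n))) .n)) .n))))))

noncomputable def t19_5 : Tr := (.c 0 (.c 0 (.c 7 (.c 7 (.l 7011067428624017584) .n) (.c 8 (.c 5
  (.c 1 (.l 5462745519886210592) .n) .n) (.c 9 (.c 3 (.c 2 (.l 4253380776231386112) .n) (.c 4
  (.c 0 (.c 1 (.l 3276402366841282080) .n) .n) .n)) (.c 10 (.c 1 (.c 3 (.l 3309386042336590080)
  .n) (.c 2 (.c 1 (.c 1 (.l 2547277437163639680) .n) .n) .n)) (.c 11 (.c 0 (.c 2 (.c 1 (.l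
  1978932534077093760) .n) .n) (.c 1 (.c 0 (.c 2 (.l 1520515693672198080) .n) .n) .n)) .n)))))
  (.c 1 (.c 5 (.c 8 (.l 5462745414816490312) .n) (.c 6 (.c 6 (.c 1 (.l 4253603829260540976) .n)
  .n) (.c 7 (.c 4 (.c 2 (.l 3309741207041313848) .n) (.c 5 (.c 0 (.c 1 (.l 2547959117415364780)
  .n) .n) .n)) (.c 8 (.c 2 (.c 3 (.l 2573446289158039936) .n) (.c 3 (.c 1 (.c 1 (.l
  1979585440868265220) .n) .n) .n)) (.c 9 (.c 0 (.c 4 (.l 1999461601385459136) .n) (.c 1 (.c 2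
  (.c 1 (.l 1536828723919082256) .n) .n) (.c 2 (.c 0 (.c 2 (.l 1180061099494447944) .n) .n)
  .n))) (.c 10 (.c 0 (.c 1 (.c 2 (.l 914645809356154560) .n) .n) .n) .n)))))) (.c 2 (.c 3 (.c 9
  (.l 4253380308068170704) .n) (.c 4 (.c 7 (.c 1 (.l 3309740933970481032) .n) .n) (.c 5 (.c 5
  (.c 2 (.l 2573587478000493600) .n) (.c 6 (.c 0 (.c 1 (.l 1980015492143845480) .n) .n) .n)) (.c
  6 (.c 3 (.c 3 (.l 1999686452570944912) .n) (.c 4 (.c 1 (.c 1 (.l 1537258772431827480) .n) .n)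
  .n)) (.c 7 (.c 1 (.c 4 (.l 1552585126310643896) .n) (.c 2 (.c 2 (.c 1 (.l 1192581901202335720)
  .n) .n) (.c 3 (.c 0 (.c 2 (.l 915127511367126048) .n) .n) .n))) (.c 8 (.c 0 (.c 3 (.c 1 (.l
  924451322952796448) .n) .n) (.c 1 (.c 1 (.c 2 (.l 708772892452380864) .n) .n) .n)) (.c 9 (.c 0
  (.c 0 (.c 3 (.l 414634315368618000) .n) .n) .n) .n))))))) (.c 3 (.c 1 (.c 10 (.l
  3309384145529176968) .n) (.c 2 (.c 8 (.c 1 (.l 2573445041750566196) .n) .n) (.c 3 (.c 6 (.c 2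
  (.l 1999685740225162320) .n) (.c 7 (.c 0 (.c 1 (.l 1537511187801394640) .n) .n) .n)) (.c 4 (.c
  4 (.c 3 (.l 1552674216289399664) .n) (.c 5 (.c 1 (.c 1 (.l 1192852705978512872) .n) .n) .n))
  (.c 5 (.c 2 (.c 4 (.l 1204655536999028612) .n) (.c 3 (.c 2 (.c 1 (.l 924722300142687244) .n)
  .n) (.c 4 (.c 0 (.c 2 (.l 709110935442272304) .n) .n) .n))) (.c 6 (.c 0 (.c 5 (.l
  933876148397281896) .n) (.c 1 (.c 3 (.c 1 (.l 716280596085487800) .n) .n) (.c 2 (.c 1 (.c 2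
  (.l 548794051713282432) .n) .n) .n))) (.c 7 (.c 0 (.c 2 (.c 2 (.l 424359165232671760) .n) .n)
  (.c 1 (.c 0 (.c 3 (.l 320088263032536160) .n) .n) .n)) .n))))))) (.c 4 (.c 0 (.c 9 (.c 1 (.l
  1999457580827864448) .n) .n) (.c 1 (.c 7 (.c 2 (.l 1552582166740647504) .n) (.c 8 (.c 0 (.c 1
  (.l 1192981163936901296) .n) .n) .n)) (.c 2 (.c 5 (.c 3 (.l 1204653977783009312) .n) (.c 6 (.c
  1 (.c 1 (.l 924880470269193872) .n) .n) .n)) (.c 3 (.c 3 (.c 4 (.l 933956817148538784) .n) (.c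
  4 (.c 2 (.c 1 (.l 716450785343439584) .n) .n) (.c 5 (.c 0 (.c 2 (.l 549026881840311488) .n)
  .n) .n))) (.c 4 (.c 1 (.c 5 (.l 723470073600077328) .n) (.c 2 (.c 3 (.c 1 (.l
  554532341353849456) .n) .n) (.c 3 (.c 1 (.c 2 (.l 424571606418299264) .n) .n) .n))) (.c 5 (.c
  0 (.c 4 (.c 1 (.l 428816537057810976) .n) .n) (.c 1 (.c 2 (.c 2 (.l 328041563025152320) .n)
  .n) (.c 2 (.c 0 (.c 3 (.l 246360889176309312) .n) .n) .n))) (.c 6 (.c 0 (.c 1 (.c 3 (.l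
  183343685325948496) .n) .n) .n) .n))))))) (.c 5 (.c 0 (.c 6 (.c 3 (.l 933892863445696120) .n)
  (.c 7 (.c 1 (.c 1 (.l 716528392154855840) .n) .n) .n)) (.c 1 (.c 4 (.c 4 (.l
  723495306467914656) .n) (.c 5 (.c 2 (.c 1 (.l 554630576132075120) .n) .n) (.c 6 (.c 0 (.c 2
  (.l 424727576318766000) .n) .n) .n))) (.c 2 (.c 2 (.c 5 (.l 559995210297147376) .n) (.c 3 (.c
  3 (.c 1 (.l 428948161777102592) .n) .n) (.c 4 (.c 1 (.c 2 (.l 328187488091232480) .n) .n)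
  .n))) (.c 3 (.c 0 (.c 6 (.l 432860131265336432) .n) (.c 1 (.c 4 (.c 1 (.l 331424396177564672)
  .n) .n) (.c 2 (.c 2 (.c 2 (.l 253364334324120896) .n) .n) (.c 3 (.c 0 (.c 3 (.l
  189367760639533376) .n) .n) .n)))) (.c 4 (.c 0 (.c 3 (.c 2 (.l 194989731895023248) .n) .n) (.c
  1 (.c 1 (.c 3 (.l 140446447857423872) .n) .n) .n)) .n))))) (.c 6 (.c 0 (.c 3 (.c 5 (.l
  433045195122429264) .n) (.c 4 (.c 3 (.c 1 (.l 331511227020572096) .n) .n) (.c 5 (.c 1 (.c 2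
  (.l 253461002405554560) .n) .n) .n))) (.c 1 (.c 1 (.c 6 (.l 334449277053666272) .n) (.c 2 (.c
  4 (.c 1 (.l 255915267050153568) .n) .n) (.c 3 (.c 2 (.c 2 (.l 195510411978015808) .n) .n) (.c
  4 (.c 0 (.c 3 (.l 145251901705782400) .n) .n) .n)))) (.c 2 (.c 0 (.c 5 (.c 1 (.l
  197183139744778880) .n) .n) (.c 1 (.c 3 (.c 2 (.l 149643659707386368) .n) .n) (.c 2 (.c 1 (.c
  3 (.l 106637877782000256) .n) .n) .n))) .n))) (.c 7 (.c 0 (.c 1 (.c 5 (.c 1 (.l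
  151928905899659280) .n) .n) (.c 2 (.c 3 (.c 2 (.l 115036587426925808) .n) .n) .n)) .n)
  .n)))))))) (.c 1 (.c 0 (.c 4 (.c 9 (.l 3276401384984942912) .n) (.c 5 (.c 7 (.c 1 (.l
  2547958479628115160) .n) .n) (.c 6 (.c 5 (.c 2 (.l 1980015190766463800) .n) (.c 6 (.c 0 (.c 1
  (.l 1522601417473558200) .n) .n) .n)) (.c 7 (.c 3 (.c 3 (.l 1537511441817611032) .n) (.c 4 (.c
  1 (.c 1 (.l 1181376322395525384) .n) .n) .n)) (.c 8 (.c 1 (.c 4 (.l 1192979303456131072) .n)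
  (.c 2 (.c 2 (.c 1 (.l 915900827898243936) .n) .n) (.c 3 (.c 0 (.c 2 (.l 701674684926019636)
  .n) .n) .n))) (.c 9 (.c 0 (.c 3 (.c 1 (.l 709506247230178752) .n) .n) (.c 1 (.c 1 (.c 2 (.l
  543695984044685952) .n) .n) .n)) .n)))))) (.c 1 (.c 2 (.c 10 (.l 2547273996609482424) .n) (.c
  3 (.c 8 (.c 1 (.l 1979583044948783576) .n) .n) (.c 4 (.c 6 (.c 2 (.l 1537257222063816784) .n)
  (.c 7 (.c 0 (.c 1 (.l 1181375489598751680) .n) .n) .n)) (.c 5 (.c 4 (.c 3 (.l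
  1192851989130650032) .n) (.c 5 (.c 1 (.c 1 (.l 915955976345853020) .n) .n) .n)) (.c 6 (.c 2
  (.c 4 (.l 924878405743463760) .n) (.c 3 (.c 2 (.c 1 (.l 709597915195191076) .n) .n) (.c 4 (.c
  0 (.c 2 (.l 543863647515135320) .n) .n) .n))) (.c 7 (.c 0 (.c 5 (.l 716492402811573272) .n)
  (.c 1 (.c 3 (.c 1 (.l 549276153059845448) .n) .n) (.c 2 (.c 1 (.c 2 (.l 420619705531582312)
  .n) .n) .n))) (.c 8 (.c 0 (.c 2 (.c 2 (.l 325019228007999648) .n) .n) (.c 1 (.c 0 (.c 3 (.l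
  239388907350712648) .n) .n) .n)) .n))))))) (.c 2 (.c 0 (.c 11 (.l 1978921812095009040) .n) (.c
  1 (.c 9 (.c 1 (.l 1536821263765481052) .n) .n) (.c 2 (.c 7 (.c 2 (.l 1192576622110132280) .n)
  (.c 8 (.c 0 (.c 1 (.l 915897720364926108) .n) .n) .n)) (.c 3 (.c 5 (.c 3 (.l
  924719125173308184) .n) (.c 6 (.c 1 (.c 1 (.l 709596446632105868) .n) .n) .n)) (.c 4 (.c 3 (.c
  4 (.l 716446222900463804) .n) (.c 4 (.c 2 (.c 1 (.l 549312525893712048) .n) .n) (.c 5 (.c 0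
  (.c 2 (.l 420724737499262816) .n) .n) .n))) (.c 5 (.c 1 (.c 5 (.l 554586800775175172) .n) (.c
  2 (.c 3 (.c 1 (.l 424874059704805076) .n) .n) (.c 3 (.c 1 (.c 2 (.l 325127305691199200) .n)
  .n) .n))) (.c 6 (.c 0 (.c 4 (.c 1 (.l 328307027888740800) .n) .n) (.c 1 (.c 2 (.c 2 (.l
  250942815977955092) .n) .n) (.c 2 (.c 0 (.c 3 (.l 186382088098343704) .n) .n) .n))) (.c 7 (.c
  0 (.c 1 (.c 3 (.l 137527129063104132) .n) .n) .n) .n)))))))) (.c 3 (.c 0 (.c 8 (.c 2 (.l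
  924436778826117872) .n) (.c 9 (.c 0 (.c 1 (.l 709500936538430604) .n) .n) .n)) (.c 1 (.c 6 (.c
  3 (.l 716268959723187600) .n) (.c 7 (.c 1 (.c 1 (.l 549272453985753526) .n) .n) .n)) (.c 2 (.c
  4 (.c 4 (.l 554519086081777236) .n) (.c 5 (.c 2 (.c 1 (.l 424873346778133988) .n) .n) (.c 6
  (.c 0 (.c 2 (.l 325123593384186164) .n) .n) .n))) (.c 3 (.c 2 (.c 5 (.l 428887402954943904)
  .n) (.c 3 (.c 3 (.c 1 (.l 328362303411666224) .n) .n) (.c 4 (.c 1 (.c 2 (.l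
  251094477882930168) .n) .n) .n))) (.c 4 (.c 0 (.c 6 (.l 331213576696190464) .n) (.c 1 (.c 4
  (.c 1 (.l 253511147402939216) .n) .n) (.c 2 (.c 2 (.c 2 (.l 193705891541537224) .n) .n) (.c 3
  (.c 0 (.c 3 (.l 143065035997035300) .n) .n) .n)))) (.c 5 (.c 0 (.c 3 (.c 2 (.l
  148343464434156488) .n) .n) (.c 1 (.c 1 (.c 3 (.l 105503202667719184) .n) .n) .n)) .n))))))
  (.c 4 (.c 0 (.c 5 (.c 4 (.l 428796153749601456) .n) (.c 6 (.c 2 (.c 1 (.l 328330129349690904)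
  .n) .n) (.c 7 (.c 0 (.c 2 (.l 250862205733886600) .n) .n) .n))) (.c 1 (.c 3 (.c 5 (.l
  331344843217462216) .n) (.c 4 (.c 3 (.c 1 (.l 253540923698205832) .n) .n) (.c 5 (.c 1 (.c 2
  (.l 193694448879560432) .n) .n) .n))) (.c 2 (.c 1 (.c 6 (.l 255607704394067200) .n) (.c 2 (.c
  4 (.c 1 (.l 195562379169180528) .n) .n) (.c 3 (.c 2 (.c 2 (.l 149297360099991728) .n) .n) (.c
  4 (.c 0 (.c 3 (.l 108595608311476928) .n) .n) .n)))) (.c 3 (.c 0 (.c 5 (.c 1 (.l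
  150445917543659984) .n) .n) (.c 1 (.c 3 (.c 2 (.l 114142705094262448) .n) .n) (.c 2 (.c 1 (.c
  3 (.l 80022367540424768) .n) .n) .n))) (.c 4 (.c 0 (.c 2 (.c 3 (.l 58389844572924896) .n) .n)
  .n) .n))))) (.c 5 (.c 0 (.c 2 (.c 6 (.l 196871112927863440) .n) (.c 3 (.c 4 (.c 1 (.l
  150663982296290400) .n) .n) (.c 4 (.c 2 (.c 2 (.l 114667678852692936) .n) .n) .n))) (.c 1 (.c
  0 (.c 7 (.l 151166542119686360) .n) (.c 1 (.c 5 (.c 1 (.l 115833084009295240) .n) .n) (.c 2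
  (.c 3 (.c 2 (.l 87635579192142472) .n) .n) (.c 3 (.c 1 (.c 3 (.l 60176660469778232) .n) .n)
  .n)))) (.c 2 (.c 0 (.c 4 (.c 2 (.l 64961211172346832) .n) .n) (.c 1 (.c 2 (.c 3 (.l
  43086320320037616) .n) .n) .n)) .n))) .n)))))) (.c 2 (.c 0 (.c 1 (.c 11 (.l
  1520469398723012208) .n) (.c 2 (.c 9 (.c 1 (.l 1180033345867875336) .n) .n) (.c 3 (.c 7 (.c 2
  (.l 915110033336618000) .n) (.c 8 (.c 0 (.c 1 (.l 702447070063380264) .n) .n) .n)) (.c 4 (.c 5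
  (.c 3 (.l 709099417841943520) .n) (.c 6 (.c 1 (.c 1 (.l 543858138521617000) .n) .n) .n)) (.c 5
  (.c 3 (.c 4 (.l 549006001886108128) .n) (.c 4 (.c 2 (.c 1 (.l 420721838468259792) .n) .n) (.c
  5 (.c 0 (.c 2 (.l 322064328922568640) .n) .n) .n))) (.c 6 (.c 1 (.c 5 (.l 424652602893140136)
  .n) (.c 2 (.c 3 (.c 1 (.l 325177816136782240) .n) .n) (.c 3 (.c 1 (.c 2 (.l
  248379398476041216) .n) .n) .n))) (.c 7 (.c 0 (.c 4 (.c 1 (.l 251068441363115448) .n) .n) (.c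
  1 (.c 2 (.c 2 (.l 191225957186272904) .n) .n) (.c 2 (.c 0 (.c 3 (.l 139637535762970088) .n)
  .n) .n))) .n))))))) (.c 1 (.c 0 (.c 10 (.c 1 (.l 914575990704704232) .n) .n) (.c 1 (.c 8 (.c 2
  (.l 708729996424509024) .n) (.c 9 (.c 0 (.c 1 (.l 543670184504340072) .n) .n) .n)) (.c 2 (.c 6
  (.c 3 (.l 548765313622228220) .n) (.c 7 (.c 1 (.c 1 (.l 420605795603277732) .n) .n) .n)) (.c 3
  (.c 4 (.c 4 (.l 424537589545615448) .n) (.c 5 (.c 2 (.c 1 (.l 325119793990093200) .n) .n) (.c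
  6 (.c 0 (.c 2 (.l 248001828712185932) .n) .n) .n))) (.c 4 (.c 2 (.c 5 (.l 328091379524190792)
  .n) (.c 3 (.c 3 (.c 1 (.l 251082765048226704) .n) .n) (.c 4 (.c 1 (.c 2 (.l
  191837094942112024) .n) .n) .n))) (.c 5 (.c 0 (.c 6 (.l 252931742906554504) .n) (.c 1 (.c 4
  (.c 1 (.l 193684285791936304) .n) .n) (.c 2 (.c 2 (.c 2 (.l 147625409740868832) .n) .n) (.c 3
  (.c 0 (.c 3 (.l 106269254247653184) .n) .n) .n)))) (.c 6 (.c 0 (.c 3 (.c 2 (.l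
  113258292821040584) .n) .n) (.c 1 (.c 1 (.c 3 (.l 77726670821989924) .n) .n) .n)) .n)))))))
  (.c 2 (.c 0 (.c 7 (.c 3 (.l 424291646338183456) .n) (.c 8 (.c 1 (.c 1 (.l 324988992355475840)
  .n) .n) .n)) (.c 1 (.c 5 (.c 4 (.l 327963709025859340) .n) (.c 6 (.c 2 (.c 1 (.l
  251006441234186624) .n) .n) (.c 7 (.c 0 (.c 2 (.l 189691391486068304) .n) .n) .n))) (.c 2 (.c
  3 (.c 5 (.l 253206583231799952) .n) (.c 4 (.c 3 (.c 1 (.l 193681619350978176) .n) .n) (.c 5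
  (.c 1 (.c 2 (.l 147419146331228896) .n) .n) .n))) (.c 3 (.c 1 (.c 6 (.l 195017193796823016)
  .n) (.c 2 (.c 4 (.c 1 (.l 149254898486972504) .n) .n) (.c 3 (.c 2 (.c 2 (.l
  113835148316609440) .n) .n) (.c 4 (.c 0 (.c 3 (.l 79557246960226320) .n) .n) .n)))) (.c 4 (.c
  0 (.c 5 (.c 1 (.l 114607015537841808) .n) .n) (.c 1 (.c 3 (.c 2 (.l 86745881970173624) .n) .n)
  (.c 2 (.c 1 (.c 3 (.l 58986553283774256) .n) .n) .n))) .n))))) (.c 3 (.c 0 (.c 4 (.c 5 (.l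
  195119681644415908) .n) (.c 5 (.c 3 (.c 1 (.l 149224661239199004) .n) .n) (.c 6 (.c 1 (.c 2
  (.l 112218497612239204) .n) .n) .n))) (.c 1 (.c 2 (.c 6 (.l 149903134242091568) .n) (.c 3 (.c
  4 (.c 1 (.l 114851920139311752) .n) .n) (.c 4 (.c 2 (.c 2 (.l 86748569926389600) .n) .n) (.c 5
  (.c 0 (.c 3 (.l 58973508624235540) .n) .n) .n)))) (.c 2 (.c 0 (.c 7 (.l 114567427254393816)
  .n) (.c 1 (.c 5 (.c 1 (.l 88014437648205480) .n) .n) (.c 2 (.c 3 (.c 2 (.l 65865830148594600)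
  .n) .n) (.c 3 (.c 1 (.c 3 (.l 43949425154701136) .n) .n) .n)))) (.c 3 (.c 0 (.c 4 (.c 2 (.l
  49215130716966320) .n) .n) (.c 1 (.c 2 (.c 3 (.l 32015198014633200) .n) .n) .n)) .n)))) (.c 4
  (.c 0 (.c 1 (.c 7 (.l 87056354640154096) .n) (.c 2 (.c 5 (.c 1 (.l 67349058025338912) .n) .n)
  (.c 3 (.c 3 (.c 2 (.l 48961189459170368) .n) .n) .n))) (.c 1 (.c 1 (.c 4 (.c 2 (.l
  35875378543901760) .n) .n) .n) .n)) .n))))) (.c 3 (.c 0 (.c 0 (.c 9 (.c 2 (.l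
  418895499416245488) .n) .n) (.c 1 (.c 7 (.c 3 (.l 324161819101342600) .n) (.c 8 (.c 1 (.c 1
  (.l 248207608979928192) .n) .n) .n)) (.c 2 (.c 5 (.c 4 (.l 250463514282326500) .n) (.c 6 (.c 2
  (.c 1 (.l 191642106549618404) .n) .n) (.c 7 (.c 0 (.c 2 (.l 140208892606203204) .n) .n) .n)))
  (.c 3 (.c 3 (.c 5 (.l 192999265870155408) .n) (.c 4 (.c 3 (.c 1 (.l 147757556663807592) .n)
  .n) (.c 5 (.c 1 (.c 2 (.l 111046814889559360) .n) .n) .n))) (.c 4 (.c 1 (.c 6 (.l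
  148284830425720656) .n) (.c 2 (.c 4 (.c 1 (.l 113656346575150952) .n) .n) (.c 3 (.c 2 (.c 2
  (.l 85927346417630776) .n) .n) .n))) (.c 5 (.c 0 (.c 5 (.c 1 (.l 87211456843414760) .n) .n)
  (.c 1 (.c 3 (.c 2 (.l 65520324778189000) .n) .n) .n)) .n)))))) (.c 1 (.c 0 (.c 6 (.c 4 (.l
  192823298111692104) .n) (.c 7 (.c 2 (.c 1 (.l 147551090287113044) .n) .n) .n)) (.c 1 (.c 4 (.c
  5 (.l 148423880967586396) .n) (.c 5 (.c 3 (.c 1 (.l 113679422740877268) .n) .n) (.c 6 (.c 1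
  (.c 2 (.l 83448242320970764) .n) .n) .n))) (.c 2 (.c 2 (.c 6 (.l 113714395731371604) .n) (.c 3
  (.c 4 (.c 1 (.l 87341855896844308) .n) .n) (.c 4 (.c 2 (.c 2 (.l 65496872456003560) .n) .n)
  .n))) (.c 3 (.c 0 (.c 7 (.l 86451407691221736) .n) (.c 1 (.c 5 (.c 1 (.l 66764788931328948)
  .n) .n) (.c 2 (.c 3 (.c 2 (.l 49588156913169064) .n) .n) (.c 3 (.c 1 (.c 3 (.l
  31736446986109324) .n) .n) .n)))) .n)))) (.c 2 (.c 0 (.c 3 (.c 6 (.l 86574247249510768) .n)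
  (.c 4 (.c 4 (.c 1 (.l 66871266429269596) .n) .n) (.c 5 (.c 2 (.c 2 (.l 48106498460101208) .n)
  .n) .n))) (.c 1 (.c 1 (.c 7 (.l 65212442643502032) .n) (.c 2 (.c 5 (.c 1 (.l
  50801269686785720) .n) .n) (.c 3 (.c 3 (.c 2 (.l 36075061151991552) .n) .n) .n))) .n)) .n)))
  (.c 4 (.c 0 (.c 0 (.c 5 (.c 5 (.l 85154802428620656) .n) .n) (.c 1 (.c 3 (.c 6 (.l
  64870676756786264) .n) (.c 4 (.c 4 (.c 1 (.l 50460180024369616) .n) .n) .n)) .n)) .n) .n)))))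

noncomputable def t19_6 : Tr := (.c 0 (.c 0 (.c 0 (.c 13 (.l 9307700611292160) .n) (.c 1 (.c 11
  (.c 1 (.l 7153456010194560) .n) .n) (.c 2 (.c 9 (.c 2 (.l 5493083441008128) .n) (.c 10 (.c 0
  (.c 1 (.l 4189260658503360) .n) .n) .n)) (.c 3 (.c 7 (.c 3 (.l 4214380407263880) .n) (.c 8 (.c
  1 (.c 1 (.l 3211203094657056) .n) .n) (.c 9 (.c 0 (.c 0 (.c 1 (.l 1822061154036160) .n) .n)
  .n) .n))) (.c 4 (.c 5 (.c 4 (.l 3230415950512432) .n) (.c 6 (.c 2 (.c 1 (.l 2459210695947392)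
  .n) .n) (.c 7 (.c 0 (.c 2 (.l 1870048253287328) .n) (.c 1 (.c 0 (.c 1 (.l 1392781080061008)
  .n) .n) .n)) .n))) (.c 5 (.c 3 (.c 5 (.l 2473885797102432) .n) (.c 4 (.c 3 (.c 1 (.l
  1881525249903808) .n) .n) (.c 5 (.c 1 (.c 2 (.l 1429382025450880) .n) (.c 2 (.c 0 (.c 1 (.l
  1063580660930080) .n) .n) .n)) (.c 6 (.c 0 (.c 1 (.c 1 (.l 805953124358720) .n) .n) .n) .n))))
  (.c 6 (.c 1 (.c 6 (.l 1892717446906336) .n) (.c 2 (.c 4 (.c 1 (.l 1438132048249888) .n) .n)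
  (.c 3 (.c 2 (.c 2 (.l 1091457489563328) .n) (.c 3 (.c 0 (.c 1 (.l 811358373705504) .n) .n)
  .n)) (.c 4 (.c 0 (.c 3 (.l 827356396060032) .n) (.c 1 (.c 1 (.c 1 (.l 614180357637920) .n) .n)
  .n)) (.c 5 (.c 0 (.c 0 (.c 2 (.l 327130766045760) .n) .n) .n) .n))))) (.c 7 (.c 0 (.c 5 (.c 1
  (.l 1098116835901120) .n) .n) (.c 1 (.c 3 (.c 2 (.l 832558745236288) .n) (.c 4 (.c 0 (.c 1 (.l
  618295234174912) .n) .n) .n)) (.c 2 (.c 1 (.c 3 (.l 630440525918336) .n) (.c 2 (.c 1 (.c 1 (.l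
  467530016254784) .n) .n) .n)) (.c 3 (.c 0 (.c 2 (.c 1 (.l 353056892117440) .n) .n) (.c 1 (.c 0
  (.c 2 (.l 235659334476160) .n) .n) .n)) .n)))) (.c 8 (.c 0 (.c 2 (.c 3 (.l 479862706312192)
  .n) (.c 3 (.c 1 (.c 1 (.l 355496061808384) .n) .n) .n)) (.c 1 (.c 0 (.c 4 (.l 362297447473024)
  .n) (.c 1 (.c 2 (.c 1 (.l 268144396742656) .n) .n) .n)) .n)) .n))))))))) (.c 1 (.c 0 (.c 10
  (.c 2 (.l 4189260639963840) .n) (.c 11 (.c 0 (.c 1 (.l 3192567403043700) .n) .n) .n)) (.c 1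
  (.c 8 (.c 3 (.l 3211203059690416) .n) (.c 9 (.c 1 (.c 1 (.l 2444985530930784) .n) .n) (.c 10
  (.c 0 (.c 0 (.c 1 (.l 1385368335588660) .n) .n) .n) .n))) (.c 2 (.c 6 (.c 4 (.l
  2459210635351072) .n) (.c 7 (.c 2 (.c 1 (.l 1870682655166860) .n) .n) (.c 8 (.c 0 (.c 2 (.l
  1421402660327168) .n) (.c 1 (.c 0 (.c 1 (.l 1057958769314304) .n) .n) .n)) .n))) (.c 3 (.c 4
  (.c 5 (.l 1881525126866212) .n) (.c 5 (.c 3 (.c 1 (.l 1429880515744200) .n) .n) (.c 6 (.c 1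
  (.c 2 (.l 1085399945159160) .n) (.c 2 (.c 0 (.c 1 (.l 807102584089940) .n) .n) .n)) (.c 7 (.c
  0 (.c 1 (.c 1 (.l 611090619469012) .n) .n) .n) .n)))) (.c 4 (.c 2 (.c 6 (.l 1438130987656496)
  .n) (.c 3 (.c 4 (.c 1 (.l 1091849022482560) .n) .n) (.c 4 (.c 2 (.c 2 (.l 827968526906272) .n)
  (.c 3 (.c 0 (.c 1 (.l 615080003646224) .n) .n) .n)) (.c 5 (.c 0 (.c 3 (.l 627096502745056) .n)
  (.c 1 (.c 1 (.c 1 (.l 465203582384096) .n) .n) .n)) (.c 6 (.c 0 (.c 0 (.c 2 (.l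
  245483402773920) .n) .n) .n) .n))))) (.c 5 (.c 0 (.c 7 (.l 1098112925645520) .n) (.c 1 (.c 5
  (.c 1 (.l 832864790500200) .n) .n) (.c 2 (.c 3 (.c 2 (.l 630921038617280) .n) (.c 4 (.c 0 (.c
  1 (.l 468233788912832) .n) .n) .n)) (.c 3 (.c 1 (.c 3 (.l 477341731248480) .n) (.c 2 (.c 1 (.c
  1 (.l 353748613980640) .n) .n) .n)) (.c 4 (.c 0 (.c 2 (.c 1 (.l 266893733473088) .n) .n) (.c 1
  (.c 0 (.c 2 (.l 187786973143808) .n) .n) .n)) .n))))) (.c 6 (.c 0 (.c 4 (.c 2 (.l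
  480237061903776) .n) (.c 5 (.c 0 (.c 1 (.l 356044972747200) .n) .n) .n)) (.c 1 (.c 2 (.c 3 (.l
  362937589884224) .n) (.c 3 (.c 1 (.c 1 (.l 268685397870448) .n) .n) .n)) (.c 2 (.c 0 (.c 4 (.l
  273736542552992) .n) (.c 1 (.c 2 (.c 1 (.l 202476838738560) .n) .n) (.c 2 (.c 0 (.c 2 (.l
  138208177134720) .n) .n) .n))) (.c 3 (.c 0 (.c 1 (.c 2 (.l 78084942564032) .n) .n) .n) .n))))
  (.c 7 (.c 0 (.c 1 (.c 4 (.l 207437987678880) .n) (.c 2 (.c 2 (.c 1 (.l 153417448560432) .n)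
  .n) .n)) (.c 1 (.c 0 (.c 3 (.c 1 (.l 115175782533056) .n) .n) .n) .n)) .n)))))))) (.c 2 (.c 0
  (.c 7 (.c 4 (.l 1870048003822488) .n) (.c 8 (.c 2 (.c 1 (.l 1421402544091232) .n) .n) (.c 9
  (.c 0 (.c 2 (.l 1079162015334144) .n) (.c 1 (.c 0 (.c 1 (.l 802705956984960) .n) .n) .n))
  .n))) (.c 1 (.c 5 (.c 5 (.l 1429381471175776) .n) (.c 6 (.c 3 (.c 1 (.l 1085399778545656) .n)
  .n) (.c 7 (.c 1 (.c 2 (.l 823234983376024) .n) (.c 2 (.c 0 (.c 1 (.l 611752994068344) .n) .n)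
  .n)) (.c 8 (.c 0 (.c 1 (.c 1 (.l 462788382590536) .n) .n) .n) .n)))) (.c 2 (.c 3 (.c 6 (.l
  1091455530482976) .n) (.c 4 (.c 4 (.c 1 (.l 827968182182176) .n) .n) (.c 5 (.c 2 (.c 2 (.l
  627335663449680) .n) (.c 3 (.c 0 (.c 1 (.l 465721214513288) .n) .n) .n)) (.c 6 (.c 0 (.c 3 (.l
  474729762152888) .n) (.c 1 (.c 1 (.c 1 (.l 351930752430360) .n) .n) .n)) (.c 7 (.c 0 (.c 0 (.c
  2 (.l 179475421634288) .n) .n) .n) .n))))) (.c 3 (.c 1 (.c 7 (.l 832551200000252) .n) (.c 2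
  (.c 5 (.c 1 (.l 630919074265296) .n) .n) (.c 3 (.c 3 (.c 2 (.l 477529277037088) .n) (.c 4 (.c
  0 (.c 1 (.l 354152846124800) .n) .n) .n)) (.c 4 (.c 1 (.c 3 (.l 360969724502520) .n) (.c 2 (.c
  1 (.c 1 (.l 267320483763096) .n) .n) .n)) (.c 5 (.c 0 (.c 2 (.c 1 (.l 201499989576944) .n) .n)
  (.c 1 (.c 0 (.c 2 (.l 141755620863592) .n) .n) .n)) .n))))) (.c 4 (.c 0 (.c 6 (.c 1 (.l
  480230049429168) .n) .n) (.c 1 (.c 4 (.c 2 (.l 363081956936000) .n) (.c 5 (.c 0 (.c 1 (.l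
  268999551556208) .n) .n) .n)) (.c 2 (.c 2 (.c 3 (.l 274149424084640) .n) (.c 3 (.c 1 (.c 1 (.l
  202810203213760) .n) .n) .n)) (.c 3 (.c 0 (.c 4 (.l 206508009872640) .n) (.c 1 (.c 2 (.c 1 (.l
  152689327710464) .n) .n) (.c 2 (.c 0 (.c 2 (.l 108307639315680) .n) .n) .n))) (.c 4 (.c 0 (.c
  1 (.c 2 (.l 61757821044032) .n) .n) .n) .n))))) (.c 5 (.c 0 (.c 3 (.c 3 (.l 207948828659328)
  .n) (.c 4 (.c 1 (.c 1 (.l 153675648877728) .n) .n) .n)) (.c 1 (.c 1 (.c 4 (.l 156300528235888)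
  .n) (.c 2 (.c 2 (.c 1 (.l 115554728013328) .n) .n) (.c 3 (.c 0 (.c 2 (.l 75241336894624) .n)
  .n) .n))) (.c 2 (.c 0 (.c 3 (.c 1 (.l 86629649912800) .n) .n) (.c 1 (.c 1 (.c 2 (.l
  45024701687488) .n) .n) .n)) .n))) (.c 6 (.c 0 (.c 0 (.c 5 (.l 85898685228928) .n) .n) .n)
  .n))))))) (.c 3 (.c 0 (.c 4 (.c 6 (.l 827349389733424) .n) (.c 5 (.c 4 (.c 1 (.l
  627094498022176) .n) .n) (.c 6 (.c 2 (.c 2 (.l 474729477663792) .n) (.c 3 (.c 0 (.c 1 (.l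
  352189866029368) .n) .n) .n)) (.c 7 (.c 0 (.c 3 (.l 358928573075436) .n) (.c 1 (.c 1 (.c 1 (.l
  265900357127640) .n) .n) .n)) .n)))) (.c 1 (.c 2 (.c 7 (.l 630425692015288) .n) (.c 3 (.c 5
  (.c 1 (.l 477337659238384) .n) .n) (.c 4 (.c 3 (.c 2 (.l 360968922056256) .n) (.c 4 (.c 0 (.c
  1 (.l 267522134858656) .n) .n) .n)) (.c 5 (.c 1 (.c 3 (.l 272611256705080) .n) (.c 2 (.c 1 (.c
  1 (.l 201744390982576) .n) .n) .n)) (.c 6 (.c 0 (.c 2 (.c 1 (.l 151924882171060) .n) .n) (.c 1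
  (.c 0 (.c 2 (.l 94218090866464) .n) .n) .n)) .n))))) (.c 2 (.c 0 (.c 8 (.l 479783156937364)
  .n) (.c 1 (.c 6 (.c 1 (.l 362923708615108) .n) .n) (.c 2 (.c 4 (.c 2 (.l 274145438787664) .n)
  (.c 5 (.c 0 (.c 1 (.l 202965384384792) .n) .n) .n)) (.c 3 (.c 2 (.c 3 (.l 206803120859040) .n)
  (.c 3 (.c 1 (.c 1 (.l 152879815064240) .n) .n) .n)) (.c 4 (.c 0 (.c 4 (.l 155546964584152) .n)
  (.c 1 (.c 2 (.c 1 (.l 114986356374264) .n) .n) (.c 2 (.c 0 (.c 2 (.l 75712636591552) .n) .n)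
  .n))) .n))))) (.c 3 (.c 0 (.c 5 (.c 2 (.l 207940114048240) .n) (.c 6 (.c 0 (.c 1 (.l
  153789770942624) .n) .n) .n)) (.c 1 (.c 3 (.c 3 (.l 156664187375420) .n) (.c 4 (.c 1 (.c 1 (.l
  115700988274072) .n) .n) .n)) (.c 2 (.c 1 (.c 4 (.l 117571995166312) .n) (.c 2 (.c 2 (.c 1 (.l
  86913286788296) .n) .n) (.c 3 (.c 0 (.c 2 (.l 55283897541816) .n) .n) .n))) (.c 3 (.c 0 (.c 3
  (.c 1 (.l 65035740408912) .n) .n) (.c 1 (.c 1 (.c 2 (.l 34169354297376) .n) .n) .n)) .n))))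
  (.c 4 (.c 0 (.c 2 (.c 4 (.l 88614790745792) .n) (.c 3 (.c 2 (.c 1 (.l 65594450031280) .n) .n)
  .n)) (.c 1 (.c 0 (.c 5 (.l 64403846031872) .n) (.c 1 (.c 3 (.c 1 (.l 48913863435344) .n) .n)
  .n)) .n)) .n))))) (.c 4 (.c 0 (.c 1 (.c 8 (.l 362402234345088) .n) (.c 2 (.c 6 (.c 1 (.l
  273896057642576) .n) .n) (.c 3 (.c 4 (.c 2 (.l 206708110726976) .n) (.c 5 (.c 0 (.c 1 (.l
  152929023173776) .n) .n) .n)) (.c 4 (.c 2 (.c 3 (.l 155749117714512) .n) (.c 3 (.c 1 (.c 1 (.l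
  115080089021296) .n) .n) .n)) (.c 5 (.c 0 (.c 4 (.l 116957462974224) .n) (.c 1 (.c 2 (.c 1 (.l
  86463900567664) .n) .n) .n)) .n))))) (.c 1 (.c 0 (.c 7 (.c 1 (.l 207518420619272) .n) .n) (.c
  1 (.c 5 (.c 2 (.l 156569470736376) .n) (.c 6 (.c 0 (.c 1 (.l 115731090726136) .n) .n) .n)) (.c
  2 (.c 3 (.c 3 (.l 117824848139680) .n) (.c 4 (.c 1 (.c 1 (.l 86983612899040) .n) .n) .n)) (.c
  3 (.c 1 (.c 4 (.l 88216788747232) .n) (.c 2 (.c 2 (.c 1 (.l 65270662043392) .n) .n) .n))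
  .n)))) (.c 2 (.c 0 (.c 4 (.c 3 (.l 88694895318224) .n) (.c 5 (.c 1 (.c 1 (.l 65645360592336)
  .n) .n) .n)) (.c 1 (.c 2 (.c 4 (.l 66226763221408) .n) (.c 3 (.c 2 (.c 1 (.l 49180681559232)
  .n) .n) .n)) (.c 2 (.c 0 (.c 5 (.l 48162554516832) .n) (.c 1 (.c 3 (.c 1 (.l 36588442269568)
  .n) .n) .n)) .n))) (.c 3 (.c 0 (.c 1 (.c 5 (.l 35656461936416) .n) .n) .n) .n)))) (.c 5 (.c 0
  (.c 0 (.c 6 (.c 2 (.l 88419328466640) .n) .n) (.c 1 (.c 4 (.c 3 (.l 66446519434312) .n) .n)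
  (.c 2 (.c 2 (.c 4 (.l 49137840584304) .n) .n) .n))) (.c 1 (.c 0 (.c 3 (.c 4 (.l
  35202137182392) .n) .n) (.c 1 (.c 1 (.c 5 (.l 25764341549376) .n) .n) .n)) .n)) .n)))))) (.c 1
  (.c 0 (.c 0 (.c 9 (.c 3 (.l 1822061037620208) .n) (.c 10 (.c 1 (.c 1 (.l 1385368266264960) .n)
  .n) .n)) (.c 1 (.c 7 (.c 4 (.l 1392780837022680) .n) (.c 8 (.c 2 (.c 1 (.l 1057958649180272)
  .n) .n) (.c 9 (.c 0 (.c 2 (.l 802705922914560) .n) (.c 1 (.c 0 (.c 1 (.l 596808405788448) .n)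
  .n) .n)) .n))) (.c 2 (.c 5 (.c 5 (.l 1063579762248388) .n) (.c 6 (.c 3 (.c 1 (.l
  807102380682808) .n) .n) (.c 7 (.c 1 (.c 2 (.l 611752946602584) .n) (.c 2 (.c 0 (.c 1 (.l
  454396345320284) .n) .n) .n)) (.c 8 (.c 0 (.c 1 (.c 1 (.l 343517273903512) .n) .n) .n) .n))))
  (.c 3 (.c 3 (.c 6 (.l 811354651583316) .n) (.c 4 (.c 4 (.c 1 (.l 615079220859940) .n) .n) (.c
  5 (.c 2 (.c 2 (.l 465721140304064) .n) (.c 3 (.c 0 (.c 1 (.l 345586096275404) .n) .n) .n)) (.c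
  6 (.c 0 (.c 3 (.l 352148626314192) .n) (.c 1 (.c 1 (.c 1 (.l 260969403613420) .n) .n) .n))
  .n)))) (.c 4 (.c 1 (.c 7 (.l 618283151195848) .n) (.c 2 (.c 5 (.c 1 (.l 468230381909744) .n)
  .n) (.c 3 (.c 3 (.c 2 (.l 354152302791936) .n) (.c 4 (.c 0 (.c 1 (.l 262532434702432) .n) .n)
  .n)) (.c 4 (.c 1 (.c 3 (.l 267505721140464) .n) (.c 2 (.c 1 (.c 1 (.l 198025646306096) .n) .n)
  .n)) (.c 5 (.c 0 (.c 2 (.c 1 (.l 149141485720080) .n) .n) (.c 1 (.c 0 (.c 2 (.l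
  87950204850272) .n) .n) .n)) .n))))) (.c 5 (.c 0 (.c 6 (.c 1 (.l 356033063904280) .n) .n) (.c
  1 (.c 4 (.c 2 (.l 268997039869632) .n) (.c 5 (.c 0 (.c 1 (.l 199202519509160) .n) .n) .n)) (.c
  2 (.c 2 (.c 3 (.l 202955047217072) .n) (.c 3 (.c 1 (.c 1 (.l 150080891832464) .n) .n) .n)) (.c
  3 (.c 0 (.c 4 (.l 152552241449840) .n) (.c 1 (.c 2 (.c 1 (.l 112902264223680) .n) .n) (.c 2
  (.c 0 (.c 2 (.l 68192865396720) .n) .n) .n))) .n)))) (.c 6 (.c 0 (.c 3 (.c 3 (.l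
  153769962497408) .n) (.c 4 (.c 1 (.c 1 (.l 113599166432304) .n) .n) .n)) (.c 1 (.c 1 (.c 4 (.l
  115382271131808) .n) (.c 2 (.c 2 (.c 1 (.l 85348089617152) .n) .n) .n)) .n)) .n))))))) (.c 1
  (.c 0 (.c 6 (.c 5 (.l 805949480007424) .n) (.c 7 (.c 3 (.c 1 (.l 611089314624620) .n) .n) (.c
  8 (.c 1 (.c 2 (.l 462787733816576) .n) (.c 2 (.c 0 (.c 1 (.l 343516890496640) .n) .n) .n)) (.c
  9 (.c 0 (.c 1 (.c 1 (.l 259463608766460) .n) .n) .n) .n)))) (.c 1 (.c 4 (.c 6 (.l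
  614172636715320) .n) (.c 5 (.c 4 (.c 1 (.l 465201228048664) .n) .n) (.c 6 (.c 2 (.c 2 (.l
  351930050146264) .n) (.c 3 (.c 0 (.c 1 (.l 260969000822756) .n) .n) .n)) (.c 7 (.c 0 (.c 3 (.l
  265876657798528) .n) (.c 1 (.c 1 (.c 1 (.l 196891321534252) .n) .n) .n)) .n)))) (.c 2 (.c 2
  (.c 7 (.l 467509333050456) .n) (.c 3 (.c 5 (.c 1 (.l 353742059368412) .n) .n) (.c 4 (.c 3 (.c
  2 (.l 267318631127720) .n) (.c 4 (.c 0 (.c 1 (.l 198024664618288) .n) .n) .n)) (.c 5 (.c 1 (.c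
  3 (.l 201727083502736) .n) (.c 2 (.c 1 (.c 1 (.l 149228534125868) .n) .n) .n)) (.c 6 (.c 0 (.c
  2 (.c 1 (.l 112288391932424) .n) .n) (.c 1 (.c 0 (.c 2 (.l 64448866031476) .n) .n) .n))
  .n))))) (.c 3 (.c 0 (.c 8 (.l 355418679217448) .n) (.c 1 (.c 6 (.c 1 (.l 268666367425922) .n)
  .n) (.c 2 (.c 4 (.c 2 (.l 202803964768672) .n) (.c 5 (.c 0 (.c 1 (.l 150077775916040) .n) .n)
  .n)) (.c 3 (.c 2 (.c 3 (.l 152860705734880) .n) (.c 3 (.c 1 (.c 1 (.l 112961796418244) .n) .n)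
  .n)) (.c 4 (.c 0 (.c 4 (.l 114744356728456) .n) (.c 1 (.c 2 (.c 1 (.l 84895528523992) .n) .n)
  (.c 2 (.c 0 (.c 2 (.l 49673579947988) .n) .n) .n))) .n))))) (.c 4 (.c 0 (.c 5 (.c 2 (.l
  153653723795648) .n) (.c 6 (.c 0 (.c 1 (.l 113588456350496) .n) .n) .n)) (.c 1 (.c 3 (.c 3 (.l
  115665155447472) .n) (.c 4 (.c 1 (.c 1 (.l 85395493207544) .n) .n) .n)) (.c 2 (.c 1 (.c 4 (.l
  86622372621664) .n) (.c 2 (.c 2 (.c 1 (.l 64095058367632) .n) .n) (.c 3 (.c 0 (.c 2 (.l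
  37105140679248) .n) .n) .n))) (.c 3 (.c 0 (.c 3 (.c 1 (.l 47853956690624) .n) .n) .n) .n))))
  (.c 5 (.c 0 (.c 2 (.c 4 (.l 65044284228384) .n) (.c 3 (.c 2 (.c 1 (.l 48306134550440) .n) .n)
  .n)) (.c 1 (.c 0 (.c 5 (.l 47177128463496) .n) (.c 1 (.c 3 (.c 1 (.l 35912521973080) .n) .n)
  .n)) .n)) .n)))))) (.c 2 (.c 0 (.c 3 (.c 7 (.l 353011148730380) .n) (.c 4 (.c 5 (.c 1 (.l
  266877584349800) .n) .n) (.c 5 (.c 3 (.c 2 (.l 201494222267752) .n) (.c 4 (.c 0 (.c 1 (.l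
  149158115787032) .n) .n) .n)) (.c 6 (.c 1 (.c 3 (.l 151847142864688) .n) (.c 2 (.c 1 (.c 1 (.l
  112296228134424) .n) .n) .n)) .n)))) (.c 1 (.c 1 (.c 8 (.l 268034126679340) .n) (.c 2 (.c 6
  (.c 1 (.l 202442260707544) .n) .n) (.c 3 (.c 4 (.c 2 (.l 152676957384368) .n) (.c 5 (.c 0 (.c
  1 (.l 112902942274748) .n) .n) .n)) (.c 4 (.c 2 (.c 3 (.l 114945991468424) .n) (.c 3 (.c 1 (.c
  1 (.l 84898686758836) .n) .n) .n)) (.c 5 (.c 0 (.c 4 (.l 86047905645484) .n) (.c 1 (.c 2 (.c 1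
  (.l 63729219232020) .n) .n) .n)) .n))))) (.c 2 (.c 0 (.c 7 (.c 1 (.l 153201385875328) .n) .n)
  (.c 1 (.c 5 (.c 2 (.l 115521310311312) .n) (.c 6 (.c 0 (.c 1 (.l 85338992659052) .n) .n) .n))
  (.c 2 (.c 3 (.c 3 (.l 86848481359904) .n) (.c 4 (.c 1 (.c 1 (.l 64096045676744) .n) .n) .n))
  (.c 3 (.c 1 (.c 4 (.l 64819012423288) .n) (.c 2 (.c 2 (.c 1 (.l 48051568132064) .n) .n) .n))
  (.c 4 (.c 0 (.c 3 (.c 1 (.l 35737979971808) .n) .n) .n) .n))))) (.c 3 (.c 0 (.c 4 (.c 3 (.l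
  65286568835200) .n) (.c 5 (.c 1 (.c 1 (.l 48309571385384) .n) .n) .n)) (.c 1 (.c 2 (.c 4 (.l
  48529513019996) .n) (.c 3 (.c 2 (.c 1 (.l 36158649726212) .n) .n) .n)) (.c 2 (.c 0 (.c 5 (.l
  35275549487168) .n) (.c 1 (.c 3 (.c 1 (.l 26829377494184) .n) .n) .n)) .n))) (.c 4 (.c 0 (.c 1
  (.c 5 (.l 25467872415184) .n) .n) .n) .n))))) (.c 3 (.c 0 (.c 0 (.c 9 (.l 152661902031072) .n)
  (.c 1 (.c 7 (.c 1 (.l 115073071695428) .n) .n) (.c 2 (.c 5 (.c 2 (.l 86645656909816) .n) .n)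
  (.c 3 (.c 3 (.c 3 (.l 64954821277380) .n) (.c 4 (.c 1 (.c 1 (.l 48028947064532) .n) .n) .n))
  (.c 4 (.c 1 (.c 4 (.l 48309528036168) .n) (.c 2 (.c 2 (.c 1 (.l 35924804633276) .n) .n) .n))
  .n))))) (.c 1 (.c 0 (.c 6 (.c 2 (.l 64886987947788) .n) .n) (.c 1 (.c 4 (.c 3 (.l
  48700976903628) .n) (.c 5 (.c 1 (.c 1 (.l 36121297050476) .n) .n) .n)) (.c 2 (.c 2 (.c 4 (.l
  35864826403740) .n) (.c 3 (.c 2 (.c 1 (.l 26980866554084) .n) .n) .n)) (.c 3 (.c 0 (.c 5 (.l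
  25859463433564) .n) .n) .n)))) (.c 2 (.c 0 (.c 3 (.c 4 (.l 25788852367944) .n) .n) (.c 1 (.c 1
  (.c 5 (.l 18428137856440) .n) .n) .n)) .n))) (.c 4 (.c 0 (.c 0 (.c 5 (.c 3 (.l 26354580193560)
  .n) .n) (.c 1 (.c 3 (.c 4 (.l 18652018986592) .n) .n) .n)) .n) .n))))) (.c 2 (.c 0 (.c 0 (.c 5
  (.c 6 (.l 343391308808064) .n) (.c 6 (.c 4 (.c 1 (.l 259723263735064) .n) .n) (.c 7 (.c 2 (.c
  2 (.l 196080445623248) .n) (.c 3 (.c 0 (.c 1 (.l 145308249203864) .n) .n) .n)) (.c 8 (.c 0 (.c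
  3 (.l 146832449339968) .n) .n) .n)))) (.c 1 (.c 3 (.c 7 (.l 260766391584372) .n) (.c 4 (.c 5
  (.c 1 (.l 197049008071656) .n) .n) (.c 5 (.c 3 (.c 2 (.l 148672672396392) .n) (.c 4 (.c 0 (.c
  1 (.l 110006841067280) .n) .n) .n)) (.c 6 (.c 1 (.c 3 (.l 111674364681864) .n) (.c 2 (.c 1 (.c
  1 (.l 82761657126880) .n) .n) .n)) .n)))) (.c 2 (.c 1 (.c 8 (.l 197656119730328) .n) (.c 2 (.c
  6 (.c 1 (.l 149240151861136) .n) .n) (.c 3 (.c 4 (.c 2 (.l 112521557282640) .n) (.c 5 (.c 0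
  (.c 1 (.l 83171006651384) .n) .n) .n)) (.c 4 (.c 2 (.c 3 (.l 84550023327168) .n) (.c 3 (.c 1
  (.c 1 (.l 62496551656024) .n) .n) .n)) (.c 5 (.c 0 (.c 4 (.l 62995503613968) .n) (.c 1 (.c 2
  (.c 1 (.l 46815000784464) .n) .n) .n)) .n))))) (.c 3 (.c 0 (.c 7 (.c 1 (.l 112843339748468)
  .n) .n) (.c 1 (.c 5 (.c 2 (.l 84914341190628) .n) .n) (.c 2 (.c 3 (.c 3 (.l 63739761734544)
  .n) (.c 4 (.c 1 (.c 1 (.l 47125377580432) .n) .n) .n)) (.c 3 (.c 1 (.c 4 (.l 47359105240512)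
  .n) (.c 2 (.c 2 (.c 1 (.l 35279791101120) .n) .n) .n)) .n)))) (.c 4 (.c 0 (.c 4 (.c 3 (.l
  47602798654000) .n) .n) (.c 1 (.c 2 (.c 4 (.l 35263314087520) .n) .n) .n)) .n))))) (.c 1 (.c 0
  (.c 2 (.c 8 (.l 148029733745320) .n) (.c 3 (.c 6 (.c 1 (.l 111952803370676) .n) .n) (.c 4 (.c
  4 (.c 2 (.l 84304766530520) .n) .n) (.c 5 (.c 2 (.c 3 (.l 63184476863884) .n) (.c 3 (.c 1 (.c
  1 (.l 46799940485916) .n) .n) .n)) (.c 6 (.c 0 (.c 4 (.l 46630001146056) .n) .n) .n))))) (.c 1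
  (.c 0 (.c 9 (.l 111326210524032) .n) (.c 1 (.c 7 (.c 1 (.l 84353532583124) .n) .n) (.c 2 (.c 5
  (.c 2 (.l 63550678960652) .n) .n) (.c 3 (.c 3 (.c 3 (.l 47590593547988) .n) (.c 4 (.c 1 (.c 1
  (.l 35237118582052) .n) .n) .n)) (.c 4 (.c 1 (.c 4 (.l 35032875175152) .n) (.c 2 (.c 2 (.c 1
  (.l 26323273254620) .n) .n) .n)) .n))))) (.c 2 (.c 0 (.c 6 (.c 2 (.l 47523102735144) .n) .n)
  (.c 1 (.c 4 (.c 3 (.l 35545665205048) .n) .n) (.c 2 (.c 2 (.c 4 (.l 25975138803952) .n) (.c 3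
  (.c 2 (.c 1 (.l 19713294963400) .n) .n) .n)) (.c 3 (.c 0 (.c 5 (.l 18525449855160) .n) .n)
  .n)))) (.c 3 (.c 0 (.c 3 (.c 4 (.l 18605656626700) .n) .n) (.c 1 (.c 1 (.c 5 (.l
  13048319111696) .n) .n) .n)) .n)))) (.c 2 (.c 0 (.c 0 (.c 8 (.c 1 (.l 46712162775936) .n) .n)
  (.c 1 (.c 6 (.c 2 (.l 35076012964384) .n) .n) (.c 2 (.c 4 (.c 3 (.l 25927432213800) .n) .n)
  (.c 3 (.c 2 (.c 4 (.l 18745859192784) .n) .n) .n)))) (.c 1 (.c 0 (.c 5 (.c 3 (.l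
  18668853963780) .n) .n) (.c 1 (.c 3 (.c 4 (.l 13302253808984) .n) .n) .n)) .n)) .n))) (.c 3
  (.c 0 (.c 0 (.c 2 (.c 7 (.c 1 (.l 44380986134856) .n) .n) (.c 3 (.c 5 (.c 2 (.l
  33357153471792) .n) .n) (.c 4 (.c 3 (.c 3 (.l 24811519397904) .n) .n) .n))) (.c 1 (.c 1 (.c 6
  (.c 2 (.l 24960891200172) .n) .n) (.c 2 (.c 4 (.c 3 (.l 18627163802436) .n) .n) .n)) .n)) .n)
  .n))))

noncomputable def t19_7 : Tr := (.c 0 (.c 0 (.c 0 (.c 6 (.c 6 (.l 10073269059840) .n) (.c 7 (.c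
  4 (.c 1 (.l 7574562746240) .n) .n) (.c 8 (.c 2 (.c 2 (.l 5688424440832) .n) (.c 3 (.c 0 (.c 1
  (.l 4199767950336) .n) .n) .n)) (.c 9 (.c 0 (.c 3 (.l 4266318330624) .n) (.c 1 (.c 1 (.c 1 (.l
  3145215720192) .n) .n) .n)) (.c 10 (.c 0 (.c 0 (.c 2 (.l 1727793446400) .n) .n) .n) .n)))))
  (.c 1 (.c 4 (.c 7 (.l 7574562741056) .n) (.c 5 (.c 5 (.c 1 (.l 5689189901920) .n) .n) (.c 6
  (.c 3 (.c 2 (.l 4267511444608) .n) (.c 4 (.c 0 (.c 1 (.l 3147402263552) .n) .n) .n)) (.c 7 (.c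
  1 (.c 3 (.l 3196749970400) .n) (.c 2 (.c 1 (.c 1 (.l 2354159379264) .n) .n) (.c 3 (.c 0 (.c 0
  (.c 1 (.l 1222998923552) .n) .n) .n) .n))) (.c 8 (.c 0 (.c 2 (.c 1 (.l 1758251704832) .n) .n)
  (.c 1 (.c 0 (.c 2 (.l 1290068188416) .n) .n) .n)) .n))))) (.c 2 (.c 2 (.c 8 (.l 5688424401856)
  .n) (.c 3 (.c 6 (.c 1 (.l 4267511418976) .n) .n) (.c 4 (.c 4 (.c 2 (.l 3197215015872) .n) (.c
  5 (.c 0 (.c 1 (.l 2355500478944) .n) .n) .n)) (.c 5 (.c 2 (.c 3 (.l 2391995707904) .n) (.c 3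
  (.c 1 (.c 1 (.l 1759569656192) .n) .n) (.c 4 (.c 0 (.c 0 (.c 1 (.l 912166052864) .n) .n) .n)
  .n))) (.c 6 (.c 0 (.c 4 (.l 1786961582848) .n) (.c 1 (.c 2 (.c 1 (.l 1312412213888) .n) .n)
  (.c 2 (.c 0 (.c 2 (.l 961802690816) .n) (.c 1 (.c 0 (.c 1 (.l 678059414080) .n) .n) .n)) .n)))
  (.c 7 (.c 0 (.c 1 (.c 2 (.l 714996803584) .n) .n) .n) .n)))))) (.c 3 (.c 0 (.c 9 (.l
  4266318125440) .n) (.c 1 (.c 7 (.c 1 (.l 3196749791748) .n) .n) (.c 2 (.c 5 (.c 2 (.l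
  2391995609296) .n) (.c 6 (.c 0 (.c 1 (.l 1760331440800) .n) .n) .n)) (.c 3 (.c 3 (.c 3 (.l
  1787244167544) .n) (.c 4 (.c 1 (.c 1 (.l 1313218578528) .n) .n) (.c 5 (.c 0 (.c 0 (.c 1 (.l
  679306103688) .n) .n) .n) .n))) (.c 4 (.c 1 (.c 4 (.l 1333374971328) .n) (.c 2 (.c 2 (.c 1 (.l
  978132041600) .n) .n) (.c 3 (.c 0 (.c 2 (.l 715952284224) .n) (.c 1 (.c 0 (.c 1 (.l
  504230008096) .n) .n) .n)) .n))) (.c 5 (.c 0 (.c 3 (.c 1 (.l 727350818880) .n) .n) (.c 1 (.c 1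
  (.c 2 (.l 531439823104) .n) (.c 2 (.c 0 (.c 1 (.l 373614648288) .n) .n) .n)) .n)) (.c 6 (.c 0
  (.c 0 (.c 3 (.l 284653505472) .n) .n) .n) .n))))))) (.c 4 (.c 0 (.c 6 (.c 2 (.l 1786961040352)
  .n) (.c 7 (.c 0 (.c 1 (.l 1313590795280) .n) .n) .n)) (.c 1 (.c 4 (.c 3 (.l 1333374687904) .n)
  (.c 5 (.c 1 (.c 1 (.l 978587915904) .n) .n) .n)) (.c 2 (.c 2 (.c 4 (.l 993370483424) .n) (.c 3
  (.c 2 (.c 1 (.l 727835290688) .n) .n) (.c 4 (.c 0 (.c 2 (.l 532079444928) .n) (.c 1 (.c 0 (.c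
  1 (.l 374351871776) .n) .n) .n)) .n))) (.c 3 (.c 0 (.c 5 (.l 738814354432) .n) (.c 1 (.c 3 (.c
  1 (.l 540412600416) .n) .n) (.c 2 (.c 1 (.c 2 (.l 394340457216) .n) (.c 2 (.c 0 (.c 1 (.l
  276943158976) .n) .n) .n)) .n))) (.c 4 (.c 0 (.c 2 (.c 2 (.l 291708753664) .n) .n) (.c 1 (.c 0
  (.c 3 (.l 210489205824) .n) .n) .n)) .n))))) (.c 5 (.c 0 (.c 3 (.c 4 (.l 738855874560) .n) (.c
  4 (.c 2 (.c 1 (.l 540684848640) .n) .n) (.c 5 (.c 0 (.c 2 (.l 394756572000) .n) .n) .n))) (.c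
  1 (.c 1 (.c 5 (.l 548673266656) .n) (.c 2 (.c 3 (.c 1 (.l 400824414112) .n) .n) (.c 3 (.c 1
  (.c 2 (.l 292091879296) .n) .n) .n))) (.c 2 (.c 0 (.c 4 (.c 1 (.l 296543486080) .n) .n) (.c 1
  (.c 2 (.c 2 (.l 215703954176) .n) .n) (.c 2 (.c 0 (.c 3 (.l 154804149536) .n) .n) .n))) (.c 3
  (.c 0 (.c 1 (.c 3 (.l 110969484976) .n) .n) .n) .n)))) (.c 6 (.c 0 (.c 0 (.c 6 (.l
  300808828400) .n) (.c 1 (.c 4 (.c 1 (.l 219148400320) .n) .n) (.c 2 (.c 2 (.c 2 (.l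
  159191857664) .n) .n) (.c 3 (.c 0 (.c 3 (.l 111284142432) .n) .n) .n)))) (.c 1 (.c 0 (.c 3 (.c
  2 (.l 117034484064) .n) .n) (.c 1 (.c 1 (.c 3 (.l 79829108352) .n) .n) .n)) .n)) .n))))))) (.c
  1 (.c 0 (.c 3 (.c 8 (.l 4199767869668) .n) (.c 4 (.c 6 (.c 1 (.l 3147402212848) .n) .n) (.c 5
  (.c 4 (.c 2 (.l 2355500477120) .n) (.c 5 (.c 0 (.c 1 (.l 1734057982560) .n) .n) .n)) (.c 6 (.c
  2 (.c 3 (.l 1760331490752) .n) (.c 3 (.c 1 (.c 1 (.l 1293905792576) .n) .n) .n)) (.c 7 (.c 0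
  (.c 4 (.l 1313590710320) .n) (.c 1 (.c 2 (.c 1 (.l 963984363776) .n) .n) (.c 2 (.c 0 (.c 2 (.l
  705883797696) .n) .n) .n))) (.c 8 (.c 0 (.c 1 (.c 2 (.l 524123072256) .n) .n) .n) .n)))))) (.c
  1 (.c 1 (.c 9 (.l 3145215444336) .n) (.c 2 (.c 7 (.c 1 (.l 2354159088696) .n) .n) (.c 3 (.c 5
  (.c 2 (.l 1759569493328) .n) (.c 6 (.c 0 (.c 1 (.l 1293905710304) .n) .n) .n)) (.c 4 (.c 3 (.c
  3 (.l 1313218570992) .n) (.c 4 (.c 1 (.c 1 (.l 964151049120) .n) .n) (.c 5 (.c 0 (.c 0 (.c 1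
  (.l 498059857040) .n) .n) .n) .n))) (.c 5 (.c 1 (.c 4 (.l 978587600840) .n) (.c 2 (.c 2 (.c 1
  (.l 717285985664) .n) .n) (.c 3 (.c 0 (.c 2 (.l 524588642336) .n) (.c 1 (.c 0 (.c 1 (.l
  369250101872) .n) .n) .n)) .n))) (.c 6 (.c 0 (.c 3 (.c 1 (.l 532735090016) .n) .n) (.c 1 (.c 1
  (.c 2 (.l 388913372320) .n) .n) .n)) (.c 7 (.c 0 (.c 0 (.c 3 (.l 208481024544) .n) .n) .n)
  .n))))))) (.c 2 (.c 0 (.c 8 (.c 1 (.l 1758250480544) .n) .n) (.c 1 (.c 6 (.c 2 (.l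
  1312411313336) .n) (.c 7 (.c 0 (.c 1 (.l 963983866304) .n) .n) .n)) (.c 2 (.c 4 (.c 3 (.l
  978131552336) .n) (.c 5 (.c 1 (.c 1 (.l 717285771064) .n) .n) .n)) (.c 3 (.c 2 (.c 4 (.l
  727834149184) .n) (.c 3 (.c 2 (.c 1 (.l 532836787488) .n) .n) (.c 4 (.c 0 (.c 2 (.l
  389197000768) .n) (.c 1 (.c 0 (.c 1 (.l 273671168960) .n) .n) .n)) .n))) (.c 4 (.c 0 (.c 5 (.l
  540650863728) .n) (.c 1 (.c 3 (.c 1 (.l 395129803408) .n) .n) (.c 2 (.c 1 (.c 2 (.l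
  288077144960) .n) (.c 2 (.c 0 (.c 1 (.l 202200144128) .n) .n) .n)) .n))) (.c 5 (.c 0 (.c 2 (.c
  2 (.l 212820675200) .n) .n) (.c 1 (.c 0 (.c 3 (.l 152964909920) .n) .n) .n)) .n)))))) (.c 3
  (.c 0 (.c 5 (.c 3 (.l 727348418688) .n) (.c 6 (.c 1 (.c 1 (.l 532734372860) .n) .n) .n)) (.c 1
  (.c 3 (.c 4 (.l 540408568764) .n) (.c 4 (.c 2 (.c 1 (.l 395129673500) .n) .n) (.c 5 (.c 0 (.c
  2 (.l 288235996512) .n) .n) .n))) (.c 2 (.c 1 (.c 5 (.l 400783664032) .n) (.c 2 (.c 3 (.c 1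
  (.l 292537423584) .n) .n) (.c 3 (.c 1 (.c 2 (.l 212991201648) .n) (.c 2 (.c 0 (.c 1 (.l
  149340877808) .n) .n) .n)) .n))) (.c 3 (.c 0 (.c 4 (.c 1 (.l 216135300628) .n) .n) (.c 1 (.c 2
  (.c 2 (.l 157074077200) .n) .n) (.c 2 (.c 0 (.c 3 (.l 112510181984) .n) .n) .n))) (.c 4 (.c 0
  (.c 1 (.c 3 (.l 80212549216) .n) .n) .n) .n))))) (.c 4 (.c 0 (.c 2 (.c 5 (.l 296536600336) .n)
  (.c 3 (.c 3 (.c 1 (.l 216166558608) .n) .n) (.c 4 (.c 1 (.c 2 (.l 157168685248) .n) .n) .n)))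
  (.c 1 (.c 0 (.c 6 (.l 218948143520) .n) (.c 1 (.c 4 (.c 1 (.l 159413615584) .n) .n) (.c 2 (.c
  2 (.c 2 (.l 115693282112) .n) .n) (.c 3 (.c 0 (.c 3 (.l 81276883824) .n) .n) .n)))) (.c 2 (.c
  0 (.c 3 (.c 2 (.l 84798204096) .n) .n) (.c 1 (.c 1 (.c 3 (.l 58334336480) .n) .n) .n)) .n)))
  (.c 5 (.c 0 (.c 0 (.c 5 (.c 1 (.l 86018415720) .n) .n) (.c 1 (.c 3 (.c 2 (.l 61147821928) .n)
  .n) (.c 2 (.c 1 (.c 3 (.l 40930443568) .n) .n) .n))) (.c 1 (.c 0 (.c 2 (.c 3 (.l 28835928432)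
  .n) .n) .n) .n)) .n)))))) (.c 2 (.c 0 (.c 0 (.c 10 (.l 1727792853024) .n) (.c 1 (.c 8 (.c 1
  (.l 1290066009664) .n) .n) (.c 2 (.c 6 (.c 2 (.l 961801196400) .n) (.c 7 (.c 0 (.c 1 (.l
  705882999696) .n) .n) .n)) (.c 3 (.c 4 (.c 3 (.l 715951327560) .n) (.c 5 (.c 1 (.c 1 (.l
  524588399808) .n) .n) .n)) (.c 4 (.c 2 (.c 4 (.l 532073731712) .n) (.c 3 (.c 2 (.c 1 (.l
  389196988864) .n) .n) (.c 4 (.c 0 (.c 2 (.l 284033488704) .n) .n) .n))) (.c 5 (.c 0 (.c 5 (.l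
  394718258240) .n) (.c 1 (.c 3 (.c 1 (.l 288232588512) .n) .n) (.c 2 (.c 1 (.c 2 (.l
  209958204800) .n) .n) .n))) (.c 6 (.c 0 (.c 2 (.c 2 (.l 154894531968) .n) .n) (.c 1 (.c 0 (.c
  3 (.l 110561580192) .n) .n) .n)) .n))))))) (.c 1 (.c 0 (.c 7 (.c 2 (.l 714990302768) .n) (.c 8
  (.c 0 (.c 1 (.l 524119336616) .n) .n) .n)) (.c 1 (.c 5 (.c 3 (.l 531434853892) .n) (.c 6 (.c 1
  (.c 1 (.l 388911419772) .n) .n) .n)) (.c 2 (.c 3 (.c 4 (.l 394330925432) .n) (.c 4 (.c 2 (.c 1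
  (.l 288076213336) .n) .n) (.c 5 (.c 0 (.c 2 (.l 209957900000) .n) .n) .n))) (.c 3 (.c 1 (.c 5
  (.l 292043325896) .n) (.c 2 (.c 3 (.c 1 (.l 212988312064) .n) .n) (.c 3 (.c 1 (.c 2 (.l
  154934036192) .n) .n) .n))) (.c 4 (.c 0 (.c 4 (.c 1 (.l 157132975216) .n) .n) (.c 1 (.c 2 (.c
  2 (.l 114094958464) .n) .n) (.c 2 (.c 0 (.c 3 (.l 80251189088) .n) .n) .n))) (.c 5 (.c 0 (.c 1
  (.c 3 (.l 57671455536) .n) .n) .n) .n)))))) (.c 2 (.c 0 (.c 4 (.c 4 (.l 291686056480) .n) (.c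
  5 (.c 2 (.c 1 (.l 212815986080) .n) .n) (.c 6 (.c 0 (.c 2 (.l 154450083176) .n) .n) .n))) (.c
  1 (.c 2 (.c 5 (.l 215636618416) .n) (.c 3 (.c 3 (.c 1 (.l 157067392816) .n) .n) (.c 4 (.c 1
  (.c 2 (.l 114095580288) .n) .n) .n))) (.c 2 (.c 0 (.c 6 (.l 158830758976) .n) (.c 1 (.c 4 (.c
  1 (.l 115650248248) .n) .n) (.c 2 (.c 2 (.c 2 (.l 83861340192) .n) .n) (.c 3 (.c 0 (.c 3 (.l
  58285421952) .n) .n) .n)))) (.c 3 (.c 0 (.c 3 (.c 2 (.l 61177175112) .n) .n) (.c 1 (.c 1 (.c 3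
  (.l 41917144616) .n) .n) .n)) .n)))) (.c 3 (.c 0 (.c 1 (.c 6 (.l 116661653452) .n) (.c 2 (.c 4
  (.c 1 (.l 84918847872) .n) .n) (.c 3 (.c 2 (.c 2 (.l 61057817768) .n) .n) (.c 4 (.c 0 (.c 3
  (.l 42162999664) .n) .n) .n)))) (.c 1 (.c 0 (.c 5 (.c 1 (.l 61968364744) .n) .n) (.c 1 (.c 3
  (.c 2 (.l 44112747620) .n) .n) (.c 2 (.c 1 (.c 3 (.l 29641602920) .n) .n) .n))) (.c 2 (.c 0
  (.c 2 (.c 3 (.l 21170254312) .n) .n) .n) .n))) .n)))) (.c 3 (.c 0 (.c 0 (.c 6 (.c 3 (.l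
  286240688136) .n) (.c 7 (.c 1 (.c 1 (.l 209067760440) .n) .n) .n)) (.c 1 (.c 4 (.c 4 (.l
  211832804832) .n) (.c 5 (.c 2 (.c 1 (.l 154445495604) .n) .n) (.c 6 (.c 0 (.c 2 (.l
  111995894436) .n) .n) .n))) (.c 2 (.c 2 (.c 5 (.l 156274026328) .n) (.c 3 (.c 3 (.c 1 (.l
  113813508736) .n) .n) (.c 4 (.c 1 (.c 2 (.l 82572792680) .n) .n) .n))) (.c 3 (.c 0 (.c 6 (.l
  114643649856) .n) (.c 1 (.c 4 (.c 1 (.l 83626339524) .n) .n) (.c 2 (.c 2 (.c 2 (.l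
  60595208664) .n) .n) (.c 3 (.c 0 (.c 3 (.l 40671410040) .n) .n) .n)))) (.c 4 (.c 0 (.c 3 (.c 2
  (.l 43960720800) .n) .n) (.c 1 (.c 1 (.c 3 (.l 29463191216) .n) .n) .n)) .n))))) (.c 1 (.c 0
  (.c 3 (.c 5 (.l 114726214928) .n) (.c 4 (.c 3 (.c 1 (.l 83520178988) .n) .n) (.c 5 (.c 1 (.c 2
  (.l 59774689776) .n) .n) .n))) (.c 1 (.c 1 (.c 6 (.l 84074054016) .n) (.c 2 (.c 4 (.c 1 (.l
  61253068044) .n) .n) (.c 3 (.c 2 (.c 2 (.l 44034496584) .n) .n) (.c 4 (.c 0 (.c 3 (.l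
  29131696840) .n) .n) .n)))) (.c 2 (.c 0 (.c 5 (.c 1 (.l 44511258948) .n) .n) (.c 1 (.c 3 (.c 2
  (.l 31554261856) .n) .n) (.c 2 (.c 1 (.c 3 (.l 20728439384) .n) .n) .n))) .n))) (.c 2 (.c 0
  (.c 1 (.c 5 (.c 1 (.l 32291849532) .n) .n) (.c 2 (.c 3 (.c 2 (.l 21517615488) .n) .n) .n)) .n)
  .n))) (.c 4 (.c 0 (.c 0 (.c 2 (.c 6 (.l 43799832880) .n) (.c 3 (.c 4 (.c 1 (.l 32008020576)
  .n) .n) .n)) .n) .n) .n))))) (.c 1 (.c 0 (.c 0 (.c 2 (.c 9 (.l 1637374074784) .n) (.c 3 (.c 7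
  (.c 1 (.l 1222998532012) .n) .n) (.c 4 (.c 5 (.c 2 (.l 912165863040) .n) (.c 6 (.c 0 (.c 1 (.l
  669863648192) .n) .n) .n)) (.c 5 (.c 3 (.c 3 (.l 679306095120) .n) (.c 4 (.c 1 (.c 1 (.l
  498059854160) .n) .n) .n)) (.c 6 (.c 1 (.c 4 (.l 505089925376) .n) (.c 2 (.c 2 (.c 1 (.l
  369712362752) .n) .n) (.c 3 (.c 0 (.c 2 (.l 268165156416) .n) .n) .n))) (.c 7 (.c 0 (.c 3 (.c
  1 (.l 273963091584) .n) .n) (.c 1 (.c 1 (.c 2 (.l 199105048576) .n) .n) .n)) .n)))))) (.c 1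
  (.c 0 (.c 10 (.l 1220495351040) .n) (.c 1 (.c 8 (.c 1 (.l 910389025840) .n) .n) (.c 2 (.c 6
  (.c 2 (.l 678058034232) .n) (.c 7 (.c 0 (.c 1 (.l 497361931696) .n) .n) .n)) (.c 3 (.c 4 (.c 3
  (.l 504228985312) .n) (.c 5 (.c 1 (.c 1 (.l 369249839560) .n) .n) .n)) (.c 4 (.c 2 (.c 4 (.l
  374341105376) .n) (.c 3 (.c 2 (.c 1 (.l 273671159456) .n) .n) (.c 4 (.c 0 (.c 2 (.l
  199611117472) .n) .n) .n))) (.c 5 (.c 0 (.c 5 (.l 277404471800) .n) (.c 1 (.c 3 (.c 1 (.l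
  202465964792) .n) .n) (.c 2 (.c 1 (.c 2 (.l 147401057984) .n) .n) .n))) (.c 6 (.c 0 (.c 2 (.c
  2 (.l 108145011280) .n) .n) (.c 1 (.c 0 (.c 3 (.l 75222313088) .n) .n) .n)) .n))))))) (.c 2
  (.c 0 (.c 7 (.c 2 (.l 503171118016) .n) (.c 8 (.c 0 (.c 1 (.l 368638948984) .n) .n) .n)) (.c 1
  (.c 5 (.c 3 (.l 373608253252) .n) (.c 6 (.c 1 (.c 1 (.l 273258411716) .n) .n) .n)) (.c 2 (.c 3
  (.c 4 (.l 276922810704) .n) (.c 4 (.c 2 (.c 1 (.l 202198858328) .n) .n) (.c 5 (.c 0 (.c 2 (.l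
  147040596312) .n) .n) .n))) (.c 3 (.c 1 (.c 5 (.l 204846795156) .n) (.c 2 (.c 3 (.c 1 (.l
  149332663304) .n) .n) (.c 3 (.c 1 (.c 2 (.l 108571496560) .n) .n) .n))) (.c 4 (.c 0 (.c 4 (.c
  1 (.l 110043691776) .n) .n) (.c 1 (.c 2 (.c 2 (.l 79665676480) .n) .n) (.c 2 (.c 0 (.c 3 (.l
  54744916928) .n) .n) .n))) (.c 5 (.c 0 (.c 1 (.c 3 (.l 38089761856) .n) .n) .n) .n)))))) (.c 3
  (.c 0 (.c 4 (.c 4 (.l 204414752480) .n) (.c 5 (.c 2 (.c 1 (.l 149090953196) .n) .n) (.c 6 (.c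
  0 (.c 2 (.l 108151442016) .n) .n) .n))) (.c 1 (.c 2 (.c 5 (.l 150926716868) .n) (.c 3 (.c 3
  (.c 1 (.l 109910426952) .n) .n) (.c 4 (.c 1 (.c 2 (.l 79345489752) .n) .n) .n))) (.c 2 (.c 0
  (.c 6 (.l 110930419620) .n) (.c 1 (.c 4 (.c 1 (.l 80820969388) .n) .n) (.c 2 (.c 2 (.c 2 (.l
  58529102912) .n) .n) (.c 3 (.c 0 (.c 3 (.l 39852460400) .n) .n) .n)))) (.c 3 (.c 0 (.c 3 (.c 2
  (.l 42280493580) .n) .n) (.c 1 (.c 1 (.c 3 (.l 28398080440) .n) .n) .n)) .n)))) (.c 4 (.c 0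
  (.c 1 (.c 6 (.l 81330500088) .n) (.c 2 (.c 4 (.c 1 (.l 59207586208) .n) .n) (.c 3 (.c 2 (.c 2
  (.l 41946730544) .n) .n) .n))) (.c 1 (.c 0 (.c 5 (.c 1 (.l 43049882480) .n) .n) (.c 1 (.c 3
  (.c 2 (.l 30416873184) .n) .n) (.c 2 (.c 1 (.c 3 (.l 20322931072) .n) .n) .n))) .n)) .n)))))
  (.c 1 (.c 0 (.c 0 (.c 9 (.c 1 (.l 492917062080) .n) .n) (.c 1 (.c 7 (.c 2 (.l 366113124328)
  .n) (.c 8 (.c 0 (.c 1 (.l 267996888460) .n) .n) .n)) (.c 2 (.c 5 (.c 3 (.l 271472567388) .n)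
  (.c 6 (.c 1 (.c 1 (.l 198385682200) .n) .n) .n)) (.c 3 (.c 3 (.c 4 (.l 200919039460) .n) (.c 4
  (.c 2 (.c 1 (.l 146588713328) .n) .n) (.c 5 (.c 0 (.c 2 (.l 106139995596) .n) .n) .n))) (.c 4
  (.c 1 (.c 5 (.l 148389105232) .n) (.c 2 (.c 3 (.c 1 (.l 108092900816) .n) .n) (.c 3 (.c 1 (.c
  2 (.l 78287340880) .n) .n) .n))) (.c 5 (.c 0 (.c 4 (.c 1 (.l 79514830040) .n) .n) (.c 1 (.c 2
  (.c 2 (.l 56986117488) .n) .n) (.c 2 (.c 0 (.c 3 (.l 38100531168) .n) .n) .n))) .n)))))) (.c 1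
  (.c 0 (.c 6 (.c 3 (.l 200341162076) .n) (.c 7 (.c 1 (.c 1 (.l 146218476152) .n) .n) .n)) (.c 1
  (.c 4 (.c 4 (.l 148004873400) .n) (.c 5 (.c 2 (.c 1 (.l 107850131336) .n) .n) (.c 6 (.c 0 (.c
  2 (.l 77366715772) .n) .n) .n))) (.c 2 (.c 2 (.c 5 (.l 109065464780) .n) (.c 3 (.c 3 (.c 1 (.l
  79376954336) .n) .n) (.c 4 (.c 1 (.c 2 (.l 57242319300) .n) .n) .n))) (.c 3 (.c 0 (.c 6 (.l
  79886083962) .n) (.c 1 (.c 4 (.c 1 (.l 58261117854) .n) .n) (.c 2 (.c 2 (.c 2 (.l 41923458372)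
  .n) .n) (.c 3 (.c 0 (.c 3 (.l 27433194944) .n) .n) .n)))) (.c 4 (.c 0 (.c 3 (.c 2 (.l
  29943699008) .n) .n) (.c 1 (.c 1 (.c 3 (.l 19523177128) .n) .n) .n)) .n))))) (.c 2 (.c 0 (.c 3
  (.c 5 (.l 79798583920) .n) (.c 4 (.c 3 (.c 1 (.l 58109532340) .n) .n) (.c 5 (.c 1 (.c 2 (.l
  41052669664) .n) .n) .n))) (.c 1 (.c 1 (.c 6 (.l 58240925252) .n) (.c 2 (.c 4 (.c 1 (.l
  42530588088) .n) .n) (.c 3 (.c 2 (.c 2 (.l 30210278992) .n) .n) (.c 4 (.c 0 (.c 3 (.l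
  19731097336) .n) .n) .n)))) (.c 2 (.c 0 (.c 5 (.c 1 (.l 30702938188) .n) .n) (.c 1 (.c 3 (.c 2
  (.l 21689724240) .n) .n) (.c 2 (.c 1 (.c 3 (.l 14240563056) .n) .n) .n))) .n))) (.c 3 (.c 0
  (.c 1 (.c 5 (.c 1 (.l 22181090836) .n) .n) (.c 2 (.c 3 (.c 2 (.l 14622572940) .n) .n) .n)) .n)
  .n)))) (.c 2 (.c 0 (.c 0 (.c 5 (.c 4 (.l 77949894472) .n) (.c 6 (.c 2 (.c 1 (.l 56756416216)
  .n) .n) .n)) (.c 1 (.c 3 (.c 5 (.l 57120687768) .n) (.c 4 (.c 3 (.c 1 (.l 41698855644) .n) .n)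
  (.c 5 (.c 1 (.c 2 (.l 28909617564) .n) .n) .n))) (.c 2 (.c 1 (.c 6 (.l 41455503840) .n) (.c 2
  (.c 4 (.c 1 (.l 30379615192) .n) .n) (.c 3 (.c 2 (.c 2 (.l 21278584960) .n) .n) .n))) (.c 3
  (.c 0 (.c 5 (.c 1 (.l 21689424772) .n) .n) (.c 1 (.c 3 (.c 2 (.l 15187635996) .n) .n) .n))
  .n)))) (.c 1 (.c 0 (.c 2 (.c 6 (.l 29294339560) .n) (.c 3 (.c 4 (.c 1 (.l 21751199660) .n) .n)
  (.c 4 (.c 2 (.c 2 (.l 14632927236) .n) .n) .n))) (.c 1 (.c 1 (.c 5 (.c 1 (.l 15604934092) .n)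
  .n) (.c 2 (.c 3 (.c 2 (.l 10313678260) .n) .n) .n)) .n)) .n)) .n))) (.c 2 (.c 0 (.c 0 (.c 0
  (.c 8 (.c 2 (.l 134797002816) .n) .n) (.c 1 (.c 6 (.c 3 (.l 99543696728) .n) (.c 7 (.c 1 (.c 1
  (.l 72892996736) .n) .n) .n)) (.c 2 (.c 4 (.c 4 (.l 73318996136) .n) (.c 5 (.c 2 (.c 1 (.l
  53623633472) .n) .n) .n)) (.c 3 (.c 2 (.c 5 (.l 53815556552) .n) (.c 3 (.c 3 (.c 1 (.l
  39332376480) .n) .n) (.c 4 (.c 1 (.c 2 (.l 26782535888) .n) .n) .n))) (.c 4 (.c 1 (.c 4 (.c 1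
  (.l 28754459344) .n) .n) (.c 2 (.c 2 (.c 2 (.l 19522355936) .n) .n) .n)) .n))))) (.c 1 (.c 0
  (.c 5 (.c 4 (.l 53613793480) .n) (.c 6 (.c 2 (.c 1 (.l 39163623160) .n) .n) .n)) (.c 1 (.c 3
  (.c 5 (.l 39263333176) .n) (.c 4 (.c 3 (.c 1 (.l 28657874776) .n) .n) (.c 5 (.c 1 (.c 2 (.l
  19527208236) .n) .n) .n))) (.c 2 (.c 1 (.c 6 (.l 28368128880) .n) (.c 2 (.c 4 (.c 1 (.l
  20851158312) .n) .n) (.c 3 (.c 2 (.c 2 (.l 14180564952) .n) .n) .n))) .n))) (.c 2 (.c 0 (.c 3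
  (.c 4 (.c 1 (.l 15090613608) .n) .n) .n) .n) .n))) .n) .n)))

noncomputable def t19_8 : Tr := (.c 0 (.c 0 (.c 0 (.c 0 (.c 11 (.l 48251508480) .n) (.c 1 (.c 9
  (.c 1 (.l 35659908480) .n) .n) (.c 2 (.c 7 (.c 2 (.l 26312345920) .n) (.c 8 (.c 0 (.c 1 (.l
  19197704960) .n) .n) .n)) (.c 3 (.c 5 (.c 3 (.l 19382885376) .n) (.c 6 (.c 1 (.c 1 (.l
  14118032288) .n) .n) (.c 7 (.c 0 (.c 0 (.c 1 (.l 7199139360) .n) .n) .n) .n))) (.c 4 (.c 3 (.c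
  4 (.l 14253550336) .n) (.c 4 (.c 2 (.c 1 (.l 10363669504) .n) .n) (.c 5 (.c 0 (.c 2 (.l
  7517813120) .n) (.c 1 (.c 0 (.c 1 (.l 5265523200) .n) .n) .n)) .n))) (.c 5 (.c 1 (.c 5 (.l
  10462509760) .n) (.c 2 (.c 3 (.c 1 (.l 7593232160) .n) .n) (.c 3 (.c 1 (.c 2 (.l 5497444800)
  .n) (.c 2 (.c 0 (.c 1 (.l 3843404960) .n) .n) .n)) (.c 4 (.c 0 (.c 1 (.c 1 (.l 2766671680) .n)
  .n) .n) .n)))) (.c 6 (.c 0 (.c 4 (.c 1 (.l 5552231680) .n) .n) (.c 1 (.c 2 (.c 2 (.l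
  4011579456) .n) (.c 3 (.c 0 (.c 1 (.l 2799322368) .n) .n) .n)) (.c 2 (.c 0 (.c 3 (.l
  2890550976) .n) (.c 1 (.c 1 (.c 1 (.l 2010510848) .n) .n) .n)) (.c 3 (.c 0 (.c 0 (.c 2 (.l
  928179840) .n) .n) .n) .n)))) (.c 7 (.c 0 (.c 1 (.c 3 (.l 2099748672) .n) (.c 2 (.c 1 (.c 1
  (.l 1457477504) .n) .n) .n)) (.c 1 (.c 0 (.c 2 (.c 1 (.l 1040788672) .n) .n) (.c 1 (.c 0 (.c 2
  (.l 620217696) .n) .n) .n)) .n)) .n)))))))) (.c 1 (.c 0 (.c 8 (.c 2 (.l 19197704960) .n) (.c 9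
  (.c 0 (.c 1 (.l 13989118080) .n) .n) .n)) (.c 1 (.c 6 (.c 3 (.l 14118032288) .n) (.c 7 (.c 1
  (.c 1 (.l 10269804048) .n) .n) (.c 8 (.c 0 (.c 0 (.c 1 (.l 5224459520) .n) .n) .n) .n))) (.c 2
  (.c 4 (.c 4 (.l 10363669504) .n) (.c 5 (.c 2 (.c 1 (.l 7525157184) .n) .n) (.c 6 (.c 0 (.c 2
  (.l 5451108032) .n) (.c 1 (.c 0 (.c 1 (.l 3814043456) .n) .n) .n)) .n))) (.c 3 (.c 2 (.c 5 (.l
  7593232112) .n) (.c 3 (.c 3 (.c 1 (.l 5503086136) .n) .n) (.c 4 (.c 1 (.c 2 (.l 3978389984)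
  .n) (.c 2 (.c 0 (.c 1 (.l 2778463264) .n) .n) .n)) (.c 5 (.c 0 (.c 1 (.c 1 (.l 1996969200) .n)
  .n) .n) .n)))) (.c 4 (.c 0 (.c 6 (.l 5552227648) .n) (.c 1 (.c 4 (.c 1 (.l 4015912704) .n) .n)
  (.c 2 (.c 2 (.c 2 (.l 2897156288) .n) (.c 3 (.c 0 (.c 1 (.l 2019492864) .n) .n) .n)) (.c 3 (.c
  0 (.c 3 (.l 2084249376) .n) (.c 1 (.c 1 (.c 1 (.l 1448074944) .n) .n) .n)) (.c 4 (.c 0 (.c 0
  (.c 2 (.l 712569856) .n) .n) .n) .n))))) (.c 5 (.c 0 (.c 3 (.c 2 (.l 2104822240) .n) (.c 4 (.c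
  0 (.c 1 (.l 1464314240) .n) .n) .n)) (.c 1 (.c 1 (.c 3 (.l 1510652416) .n) (.c 2 (.c 1 (.c 1
  (.l 1047380832) .n) .n) .n)) (.c 2 (.c 0 (.c 2 (.c 1 (.l 746601312) .n) .n) (.c 1 (.c 0 (.c 2
  (.l 491958688) .n) .n) .n)) .n))) (.c 6 (.c 0 (.c 0 (.c 4 (.l 777094800) .n) (.c 1 (.c 2 (.c 1
  (.l 536998912) .n) .n) (.c 2 (.c 0 (.c 2 (.l 288524672) .n) .n) .n))) (.c 1 (.c 0 (.c 1 (.c 2
  (.l 174363776) .n) .n) .n) .n)) .n))))))) (.c 2 (.c 0 (.c 5 (.c 4 (.l 7517813120) .n) (.c 6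
  (.c 2 (.c 1 (.l 5451108032) .n) .n) (.c 7 (.c 0 (.c 2 (.l 3942979712) .n) (.c 1 (.c 0 (.c 1
  (.l 2755952416) .n) .n) .n)) .n))) (.c 1 (.c 3 (.c 5 (.l 5497444680) .n) (.c 4 (.c 3 (.c 1 (.l
  3978389984) .n) .n) (.c 5 (.c 1 (.c 2 (.l 2871790912) .n) (.c 2 (.c 0 (.c 1 (.l 2003491552)
  .n) .n) .n)) (.c 6 (.c 0 (.c 1 (.c 1 (.l 1437662656) .n) .n) .n) .n)))) (.c 2 (.c 1 (.c 6 (.l
  4011574896) .n) (.c 2 (.c 4 (.c 1 (.l 2897156112) .n) .n) (.c 3 (.c 2 (.c 2 (.l 2086772160)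
  .n) (.c 3 (.c 0 (.c 1 (.l 1453026384) .n) .n) .n)) (.c 4 (.c 0 (.c 3 (.l 1498788864) .n) (.c 1
  (.c 1 (.c 1 (.l 1040143136) .n) .n) .n)) (.c 5 (.c 0 (.c 0 (.c 2 (.l 502613600) .n) .n) .n)
  .n))))) (.c 3 (.c 0 (.c 5 (.c 1 (.l 2104814680) .n) .n) (.c 1 (.c 3 (.c 2 (.l 1512591968) .n)
  (.c 4 (.c 0 (.c 1 (.l 1051135840) .n) .n) .n)) (.c 2 (.c 1 (.c 3 (.l 1083735296) .n) (.c 2 (.c
  1 (.c 1 (.l 750523616) .n) .n) .n)) (.c 3 (.c 0 (.c 2 (.c 1 (.l 534004480) .n) .n) (.c 1 (.c 0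
  (.c 2 (.l 364628768) .n) .n) .n)) .n)))) (.c 4 (.c 0 (.c 2 (.c 3 (.l 781408832) .n) (.c 3 (.c
  1 (.c 1 (.l 539981248) .n) .n) .n)) (.c 1 (.c 0 (.c 4 (.l 555263024) .n) (.c 1 (.c 2 (.c 1 (.l
  383066240) .n) .n) (.c 2 (.c 0 (.c 2 (.l 241529376) .n) .n) .n))) (.c 2 (.c 0 (.c 1 (.c 2 (.l
  135116640) .n) .n) .n) .n))) (.c 5 (.c 0 (.c 0 (.c 3 (.c 1 (.l 191729472) .n) .n) .n) .n)
  .n)))))) (.c 3 (.c 0 (.c 2 (.c 6 (.l 2890544368) .n) (.c 3 (.c 4 (.c 1 (.l 2084248680) .n) .n)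
  (.c 4 (.c 2 (.c 2 (.l 1498788864) .n) (.c 3 (.c 0 (.c 1 (.l 1042464864) .n) .n) .n)) (.c 5 (.c
  0 (.c 3 (.l 1074640800) .n) (.c 1 (.c 1 (.c 1 (.l 744945360) .n) .n) .n)) .n)))) (.c 1 (.c 0
  (.c 7 (.l 2099722620) .n) (.c 1 (.c 5 (.c 1 (.l 1510643484) .n) .n) (.c 2 (.c 3 (.c 2 (.l
  1083734768) .n) (.c 4 (.c 0 (.c 1 (.l 752267608) .n) .n) .n)) (.c 3 (.c 1 (.c 3 (.l 775075880)
  .n) (.c 2 (.c 1 (.c 1 (.l 536145992) .n) .n) .n)) (.c 4 (.c 0 (.c 2 (.c 1 (.l 380741056) .n)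
  .n) (.c 1 (.c 0 (.c 2 (.l 246958112) .n) .n) .n)) .n))))) (.c 2 (.c 0 (.c 4 (.c 2 (.l
  781393712) .n) (.c 5 (.c 0 (.c 1 (.l 541280120) .n) .n) .n)) (.c 1 (.c 2 (.c 3 (.l 557341712)
  .n) (.c 3 (.c 1 (.c 1 (.l 384687328) .n) .n) .n)) (.c 2 (.c 0 (.c 4 (.l 395167768) .n) (.c 1
  (.c 2 (.c 1 (.l 272346032) .n) .n) (.c 2 (.c 0 (.c 2 (.l 178374224) .n) .n) .n))) (.c 3 (.c 0
  (.c 1 (.c 2 (.l 95718792) .n) .n) .n) .n)))) (.c 3 (.c 0 (.c 1 (.c 4 (.l 281363148) .n) (.c 2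
  (.c 2 (.c 1 (.l 194110224) .n) .n) .n)) (.c 1 (.c 0 (.c 3 (.c 1 (.l 135636444) .n) .n) (.c 1
  (.c 1 (.c 2 (.l 64150504) .n) .n) .n)) .n)) .n)))) (.c 4 (.c 0 (.c 0 (.c 6 (.c 1 (.l
  779093040) .n) .n) (.c 1 (.c 4 (.c 2 (.l 556453568) .n) (.c 5 (.c 0 (.c 1 (.l 385012768) .n)
  .n) .n)) (.c 2 (.c 2 (.c 3 (.l 396103936) .n) (.c 3 (.c 1 (.c 1 (.l 273077344) .n) .n) .n))
  (.c 3 (.c 0 (.c 4 (.l 279566400) .n) (.c 1 (.c 2 (.c 1 (.l 192920704) .n) .n) .n)) .n)))) (.c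
  1 (.c 0 (.c 3 (.c 3 (.l 282918512) .n) (.c 4 (.c 1 (.c 1 (.l 194642144) .n) .n) .n)) (.c 1 (.c
  1 (.c 4 (.l 199175096) .n) (.c 2 (.c 2 (.c 1 (.l 137043072) .n) .n) .n)) (.c 2 (.c 0 (.c 3 (.c
  1 (.l 95419824) .n) .n) .n) .n))) (.c 2 (.c 0 (.c 0 (.c 5 (.l 94046400) .n) .n) .n) .n))) (.c
  5 (.c 0 (.c 0 (.c 2 (.c 4 (.l 98068240) .n) .n) .n) .n) .n)))))) (.c 1 (.c 0 (.c 0 (.c 7 (.c 3
  (.l 7199139360) .n) (.c 8 (.c 1 (.c 1 (.l 5224459520) .n) .n) (.c 9 (.c 0 (.c 0 (.c 1 (.l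
  2647128960) .n) .n) .n) .n))) (.c 1 (.c 5 (.c 4 (.l 5265523200) .n) (.c 6 (.c 2 (.c 1 (.l
  3814043456) .n) .n) (.c 7 (.c 0 (.c 2 (.l 2755952416) .n) (.c 1 (.c 0 (.c 1 (.l 1925164528)
  .n) .n) .n)) .n))) (.c 2 (.c 3 (.c 5 (.l 3843404864) .n) (.c 4 (.c 3 (.c 1 (.l 2778463264) .n)
  .n) (.c 5 (.c 1 (.c 2 (.l 2003491552) .n) (.c 2 (.c 0 (.c 1 (.l 1396914784) .n) .n) .n)) (.c 6
  (.c 0 (.c 1 (.c 1 (.l 1001311712) .n) .n) .n) .n)))) (.c 3 (.c 1 (.c 6 (.l 2799311852) .n) (.c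
  2 (.c 4 (.c 1 (.l 2019492720) .n) .n) (.c 3 (.c 2 (.c 2 (.l 1453026384) .n) (.c 3 (.c 0 (.c 1
  (.l 1011156936) .n) .n) .n)) (.c 4 (.c 0 (.c 3 (.l 1042453872) .n) (.c 1 (.c 1 (.c 1 (.l
  723033808) .n) .n) .n)) (.c 5 (.c 0 (.c 0 (.c 2 (.l 338354560) .n) .n) .n) .n))))) (.c 4 (.c 0
  (.c 5 (.c 1 (.l 1464296288) .n) .n) (.c 1 (.c 3 (.c 2 (.l 1051135840) .n) (.c 4 (.c 0 (.c 1
  (.l 730031360) .n) .n) .n)) (.c 2 (.c 1 (.c 3 (.l 752267872) .n) (.c 2 (.c 1 (.c 1 (.l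
  520663808) .n) .n) .n)) (.c 3 (.c 0 (.c 2 (.c 1 (.l 370032896) .n) .n) (.c 1 (.c 0 (.c 2 (.l
  227221248) .n) .n) .n)) .n)))) (.c 5 (.c 0 (.c 2 (.c 3 (.l 541225200) .n) (.c 3 (.c 1 (.c 1
  (.l 373827680) .n) .n) .n)) (.c 1 (.c 0 (.c 4 (.l 384262416) .n) (.c 1 (.c 2 (.c 1 (.l
  264884896) .n) .n) (.c 2 (.c 0 (.c 2 (.l 150758656) .n) .n) .n))) .n)) .n)))))) (.c 1 (.c 0
  (.c 4 (.c 5 (.l 2766671632) .n) (.c 5 (.c 3 (.c 1 (.l 1996969200) .n) .n) (.c 6 (.c 1 (.c 2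
  (.l 1437662656) .n) (.c 2 (.c 0 (.c 1 (.l 1001311712) .n) .n) .n)) (.c 7 (.c 0 (.c 1 (.c 1 (.l
  716524432) .n) .n) .n) .n)))) (.c 1 (.c 2 (.c 6 (.l 2010501524) .n) (.c 3 (.c 4 (.c 1 (.l
  1448074548) .n) .n) (.c 4 (.c 2 (.c 2 (.l 1040143136) .n) (.c 3 (.c 0 (.c 1 (.l 723033808) .n)
  .n) .n)) (.c 5 (.c 0 (.c 3 (.l 744920632) .n) (.c 1 (.c 1 (.c 1 (.l 516091352) .n) .n) .n))
  (.c 6 (.c 0 (.c 0 (.c 2 (.l 224666208) .n) .n) .n) .n))))) (.c 2 (.c 0 (.c 7 (.l 1457434092)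
  .n) (.c 1 (.c 5 (.c 1 (.l 1047365772) .n) .n) (.c 2 (.c 3 (.c 2 (.l 750523216) .n) (.c 4 (.c 0
  (.c 1 (.l 520663608) .n) .n) .n)) (.c 3 (.c 1 (.c 3 (.l 536124760) .n) (.c 2 (.c 1 (.c 1 (.l
  370648896) .n) .n) .n)) (.c 4 (.c 0 (.c 2 (.c 1 (.l 262896016) .n) .n) (.c 1 (.c 0 (.c 2 (.l
  159075168) .n) .n) .n)) .n))))) (.c 3 (.c 0 (.c 4 (.c 2 (.l 539955488) .n) (.c 5 (.c 0 (.c 1
  (.l 373814800) .n) .n) .n)) (.c 1 (.c 2 (.c 3 (.l 384642044) .n) (.c 3 (.c 1 (.c 1 (.l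
  265359584) .n) .n) .n)) (.c 2 (.c 0 (.c 4 (.l 272385056) .n) (.c 1 (.c 2 (.c 1 (.l 187638980)
  .n) .n) (.c 2 (.c 0 (.c 2 (.l 112226512) .n) .n) .n))) (.c 3 (.c 0 (.c 1 (.c 2 (.l 63078676)
  .n) .n) .n) .n)))) (.c 4 (.c 0 (.c 1 (.c 4 (.l 193483664) .n) (.c 2 (.c 2 (.c 1 (.l 133400624)
  .n) .n) .n)) (.c 1 (.c 0 (.c 3 (.c 1 (.l 93195048) .n) .n) (.c 1 (.c 1 (.c 2 (.l 42141520) .n)
  .n) .n)) .n)) .n))))) (.c 2 (.c 0 (.c 1 (.c 7 (.l 1040726384) .n) (.c 2 (.c 5 (.c 1 (.l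
  746581008) .n) .n) (.c 3 (.c 3 (.c 2 (.l 534002512) .n) (.c 4 (.c 0 (.c 1 (.l 370031912) .n)
  .n) .n)) (.c 4 (.c 1 (.c 3 (.l 380665280) .n) (.c 2 (.c 1 (.c 1 (.l 262904032) .n) .n) .n))
  (.c 5 (.c 0 (.c 2 (.c 1 (.l 186070464) .n) .n) .n) .n))))) (.c 1 (.c 0 (.c 6 (.c 1 (.l
  536934532) .n) .n) (.c 1 (.c 4 (.c 2 (.l 383040720) .n) (.c 5 (.c 0 (.c 1 (.l 264871976) .n)
  .n) .n)) (.c 2 (.c 2 (.c 3 (.l 272257512) .n) (.c 3 (.c 1 (.c 1 (.l 187638920) .n) .n) .n))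
  (.c 3 (.c 0 (.c 4 (.l 191790948) .n) (.c 1 (.c 2 (.c 1 (.l 132377524) .n) .n) (.c 2 (.c 0 (.c
  2 (.l 72321248) .n) .n) .n))) .n)))) (.c 2 (.c 0 (.c 3 (.c 3 (.l 193758832) .n) (.c 4 (.c 1
  (.c 1 (.l 133413240) .n) .n) .n)) (.c 1 (.c 1 (.c 4 (.l 135839044) .n) (.c 2 (.c 2 (.c 1 (.l
  93796320) .n) .n) (.c 3 (.c 0 (.c 2 (.l 51572872) .n) .n) .n))) (.c 2 (.c 0 (.c 3 (.c 1 (.l
  65213856) .n) .n) (.c 1 (.c 1 (.c 2 (.l 30485696) .n) .n) .n)) .n))) (.c 3 (.c 0 (.c 0 (.c 5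
  (.l 64178672) .n) .n) .n) .n)))) (.c 3 (.c 0 (.c 0 (.c 5 (.c 2 (.l 192433220) .n) .n) (.c 1
  (.c 3 (.c 3 (.l 135986212) .n) (.c 4 (.c 1 (.c 1 (.l 93587128) .n) .n) .n)) (.c 2 (.c 1 (.c 4
  (.l 94527992) .n) (.c 2 (.c 2 (.c 1 (.l 65610328) .n) .n) .n)) .n))) (.c 1 (.c 0 (.c 2 (.c 4
  (.l 65996768) .n) .n) (.c 1 (.c 0 (.c 5 (.l 45008032) .n) .n) .n)) .n)) .n)))) (.c 2 (.c 0 (.c
  0 (.c 3 (.c 6 (.l 992227960) .n) (.c 4 (.c 4 (.c 1 (.l 712569760) .n) .n) (.c 5 (.c 2 (.c 2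
  (.l 510305600) .n) (.c 3 (.c 0 (.c 1 (.l 354116640) .n) .n) .n)) (.c 6 (.c 0 (.c 3 (.l
  363135840) .n) (.c 1 (.c 1 (.c 1 (.l 251982336) .n) .n) .n)) .n)))) (.c 1 (.c 1 (.c 7 (.l
  715562272) .n) (.c 2 (.c 5 (.c 1 (.l 512773408) .n) .n) (.c 3 (.c 3 (.c 2 (.l 366309920) .n)
  (.c 4 (.c 0 (.c 1 (.l 253677152) .n) .n) .n)) (.c 4 (.c 1 (.c 3 (.l 260498416) .n) (.c 2 (.c 1
  (.c 1 (.l 180007680) .n) .n) .n)) (.c 5 (.c 0 (.c 2 (.c 1 (.l 127045328) .n) .n) .n) .n)))))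
  (.c 2 (.c 0 (.c 6 (.c 1 (.l 367579240) .n) .n) (.c 1 (.c 4 (.c 2 (.l 261952952) .n) (.c 5 (.c
  0 (.c 1 (.l 181125304) .n) .n) .n)) (.c 2 (.c 2 (.c 3 (.l 186015088) .n) (.c 3 (.c 1 (.c 1 (.l
  128150032) .n) .n) .n)) (.c 3 (.c 0 (.c 4 (.l 130676328) .n) (.c 1 (.c 2 (.c 1 (.l 90284464)
  .n) .n) .n)) .n)))) (.c 3 (.c 0 (.c 3 (.c 3 (.l 131781704) .n) (.c 4 (.c 1 (.c 1 (.l 90738576)
  .n) .n) .n)) (.c 1 (.c 1 (.c 4 (.l 91984692) .n) (.c 2 (.c 2 (.c 1 (.l 63791408) .n) .n) .n))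
  .n)) .n)))) (.c 1 (.c 0 (.c 0 (.c 8 (.l 362986568) .n) (.c 1 (.c 6 (.c 1 (.l 258990840) .n)
  .n) (.c 2 (.c 4 (.c 2 (.l 184246176) .n) (.c 5 (.c 0 (.c 1 (.l 127201448) .n) .n) .n)) (.c 3
  (.c 2 (.c 3 (.l 130156016) .n) (.c 3 (.c 1 (.c 1 (.l 89802320) .n) .n) .n)) (.c 4 (.c 0 (.c 4
  (.l 90550944) .n) (.c 1 (.c 2 (.c 1 (.l 62970848) .n) .n) .n)) .n))))) (.c 1 (.c 0 (.c 5 (.c 2
  (.l 130537640) .n) .n) (.c 1 (.c 3 (.c 3 (.l 91966380) .n) (.c 4 (.c 1 (.c 1 (.l 63427292) .n)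
  .n) .n)) (.c 2 (.c 1 (.c 4 (.l 63334920) .n) (.c 2 (.c 2 (.c 1 (.l 44368464) .n) .n) .n))
  .n))) (.c 2 (.c 0 (.c 2 (.c 4 (.l 44248736) .n) .n) .n) .n))) (.c 2 (.c 0 (.c 0 (.c 4 (.c 3
  (.l 43059632) .n) .n) (.c 1 (.c 2 (.c 4 (.l 29398224) .n) .n) .n)) .n) .n))) (.c 3 (.c 0 (.c 0
  (.c 1 (.c 5 (.c 2 (.l 60253040) .n) .n) (.c 2 (.c 3 (.c 3 (.l 41890296) .n) .n) .n)) .n) .n)
  .n)))) (.c 1 (.c 0 (.c 0 (.c 0 (.c 6 (.c 4 (.l 1698090880) .n) (.c 7 (.c 2 (.c 1 (.l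
  1225800800) .n) .n) (.c 8 (.c 0 (.c 2 (.l 882676480) .n) .n) .n))) (.c 1 (.c 4 (.c 5 (.l
  1231993872) .n) (.c 5 (.c 3 (.c 1 (.l 887523120) .n) .n) (.c 6 (.c 1 (.c 2 (.l 637712096) .n)
  (.c 2 (.c 0 (.c 1 (.l 443758528) .n) .n) .n)) (.c 7 (.c 0 (.c 1 (.c 1 (.l 316936928) .n) .n)
  .n) .n)))) (.c 2 (.c 2 (.c 6 (.l 891738392) .n) (.c 3 (.c 4 (.c 1 (.l 641030576) .n) .n) (.c 4
  (.c 2 (.c 2 (.l 459553536) .n) (.c 3 (.c 0 (.c 1 (.l 319163840) .n) .n) .n)) (.c 5 (.c 0 (.c 3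
  (.l 328277616) .n) (.c 1 (.c 1 (.c 1 (.l 227374944) .n) .n) .n)) .n)))) (.c 3 (.c 0 (.c 7 (.l
  643728048) .n) (.c 1 (.c 5 (.c 1 (.l 461774768) .n) .n) (.c 2 (.c 3 (.c 2 (.l 330261216) .n)
  (.c 4 (.c 0 (.c 1 (.l 228910440) .n) .n) .n)) (.c 3 (.c 1 (.c 3 (.l 235420940) .n) (.c 2 (.c 1
  (.c 1 (.l 162640648) .n) .n) .n)) (.c 4 (.c 0 (.c 2 (.c 1 (.l 115117184) .n) .n) .n) .n)))))
  (.c 4 (.c 0 (.c 4 (.c 2 (.l 236602784) .n) .n) (.c 1 (.c 2 (.c 3 (.l 167717920) .n) (.c 3 (.c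
  1 (.c 1 (.l 115965184) .n) .n) .n)) (.c 2 (.c 0 (.c 4 (.l 117778784) .n) (.c 1 (.c 2 (.c 1 (.l
  81841472) .n) .n) .n)) .n))) (.c 5 (.c 0 (.c 1 (.c 4 (.l 81718120) .n) .n) .n) .n)))))) (.c 1
  (.c 0 (.c 3 (.c 6 (.l 633423504) .n) (.c 4 (.c 4 (.c 1 (.l 454539680) .n) .n) (.c 5 (.c 2 (.c
  2 (.l 325268800) .n) (.c 3 (.c 0 (.c 1 (.l 225647840) .n) .n) .n)) (.c 6 (.c 0 (.c 3 (.l
  231402048) .n) (.c 1 (.c 1 (.c 1 (.l 160447712) .n) .n) .n)) .n)))) (.c 1 (.c 1 (.c 7 (.l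
  455985684) .n) (.c 2 (.c 5 (.c 1 (.l 326496208) .n) .n) (.c 3 (.c 3 (.c 2 (.l 233068072) .n)
  (.c 4 (.c 0 (.c 1 (.l 161358612) .n) .n) .n)) (.c 4 (.c 1 (.c 3 (.l 165454408) .n) (.c 2 (.c 1
  (.c 1 (.l 114416544) .n) .n) .n)) .n)))) (.c 2 (.c 0 (.c 6 (.c 1 (.l 233550860) .n) .n) (.c 1
  (.c 4 (.c 2 (.l 166308544) .n) (.c 5 (.c 0 (.c 1 (.l 115000516) .n) .n) .n)) (.c 2 (.c 2 (.c 3
  (.l 117673264) .n) (.c 3 (.c 1 (.c 1 (.l 81313552) .n) .n) .n)) (.c 3 (.c 0 (.c 4 (.l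
  82303652) .n) (.c 1 (.c 2 (.c 1 (.l 57220464) .n) .n) .n)) .n)))) (.c 3 (.c 0 (.c 3 (.c 3 (.l
  83040592) .n) .n) (.c 1 (.c 1 (.c 4 (.l 57243588) .n) (.c 2 (.c 2 (.c 1 (.l 40176460) .n) .n)
  .n)) .n)) .n)))) (.c 2 (.c 0 (.c 0 (.c 8 (.l 229934264) .n) (.c 1 (.c 6 (.c 1 (.l 163859192)
  .n) .n) (.c 2 (.c 4 (.c 2 (.l 116518784) .n) .n) (.c 3 (.c 2 (.c 3 (.l 81807560) .n) (.c 3 (.c
  1 (.c 1 (.l 56741624) .n) .n) .n)) (.c 4 (.c 0 (.c 4 (.l 56777936) .n) .n) .n))))) (.c 1 (.c 0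
  (.c 5 (.c 2 (.l 81877120) .n) .n) (.c 1 (.c 3 (.c 3 (.l 57449940) .n) .n) (.c 2 (.c 1 (.c 4
  (.l 39357180) .n) (.c 2 (.c 2 (.c 1 (.l 27805216) .n) .n) .n)) .n))) (.c 2 (.c 0 (.c 2 (.c 4
  (.l 26779592) .n) .n) .n) .n))) .n))) (.c 1 (.c 0 (.c 0 (.c 2 (.c 7 (.l 215603152) .n) (.c 3
  (.c 5 (.c 1 (.l 154273012) .n) .n) (.c 4 (.c 3 (.c 2 (.l 109753120) .n) .n) (.c 5 (.c 1 (.c 3
  (.l 76225160) .n) .n) .n)))) (.c 1 (.c 0 (.c 8 (.l 153784540) .n) (.c 1 (.c 6 (.c 1 (.l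
  109543628) .n) .n) (.c 2 (.c 4 (.c 2 (.l 77658972) .n) .n) (.c 3 (.c 2 (.c 3 (.l 54154892) .n)
  (.c 3 (.c 1 (.c 1 (.l 37883008) .n) .n) .n)) (.c 4 (.c 0 (.c 4 (.l 37322976) .n) .n) .n)))))
  (.c 2 (.c 0 (.c 5 (.c 2 (.l 54535360) .n) .n) (.c 1 (.c 3 (.c 3 (.l 37771896) .n) .n) (.c 2
  (.c 1 (.c 4 (.l 25683004) .n) .n) .n))) .n))) (.c 1 (.c 0 (.c 0 (.c 7 (.c 1 (.l 53090492) .n)
  .n) (.c 1 (.c 5 (.c 2 (.l 37294360) .n) .n) (.c 2 (.c 3 (.c 3 (.l 25515388) .n) .n) (.c 3 (.c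
  1 (.c 4 (.l 16830874) .n) .n) .n)))) (.c 1 (.c 0 (.c 4 (.c 3 (.l 17321076) .n) .n) (.c 1 (.c 2
  (.c 4 (.l 11334462) .n) .n) .n)) .n)) .n)) .n)) .n))

noncomputable def t19_9 : Tr := (.c 0 (.c 0 (.c 0 (.c 0 (.c 5 (.c 5 (.l 191474240) .n) (.c 6 (.c
  3 (.c 1 (.l 137311360) .n) .n) (.c 7 (.c 1 (.c 2 (.l 98213920) .n) (.c 2 (.c 0 (.c 1 (.l
  68193440) .n) .n) .n)) (.c 8 (.c 0 (.c 1 (.c 1 (.l 48482560) .n) .n) .n) .n)))) (.c 1 (.c 3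
  (.c 6 (.l 137311360) .n) (.c 4 (.c 4 (.c 1 (.l 98254848) .n) .n) (.c 5 (.c 2 (.c 2 (.l
  70116000) .n) (.c 3 (.c 0 (.c 1 (.l 48589520) .n) .n) .n)) (.c 6 (.c 0 (.c 3 (.l 49889088) .n)
  (.c 1 (.c 1 (.c 1 (.l 34456544) .n) .n) (.c 2 (.c 0 (.c 0 (.c 1 (.l 15114880) .n) .n) .n)
  .n))) (.c 7 (.c 0 (.c 0 (.c 2 (.l 16662240) .n) .n) .n) .n))))) (.c 2 (.c 1 (.c 7 (.l
  98213920) .n) (.c 2 (.c 5 (.c 1 (.l 70116000) .n) .n) (.c 3 (.c 3 (.c 2 (.l 49913232) .n) (.c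
  4 (.c 0 (.c 1 (.l 34520096) .n) .n) .n)) (.c 4 (.c 1 (.c 3 (.l 35421600) .n) (.c 2 (.c 1 (.c 1
  (.l 24412704) .n) .n) (.c 3 (.c 0 (.c 0 (.c 1 (.l 10666304) .n) .n) .n) .n))) (.c 5 (.c 0 (.c
  2 (.c 1 (.l 17201952) .n) .n) (.c 1 (.c 0 (.c 2 (.l 11742016) .n) (.c 1 (.c 0 (.c 1 (.l
  7454368) .n) .n) .n)) .n)) .n))))) (.c 3 (.c 0 (.c 6 (.c 1 (.l 49889088) .n) .n) (.c 1 (.c 4
  (.c 2 (.l 35421600) .n) (.c 5 (.c 0 (.c 1 (.l 24447120) .n) .n) .n)) (.c 2 (.c 2 (.c 3 (.l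
  25067088) .n) (.c 3 (.c 1 (.c 1 (.l 17238648) .n) .n) (.c 4 (.c 0 (.c 0 (.c 1 (.l 7501440) .n)
  .n) .n) .n))) (.c 3 (.c 0 (.c 4 (.l 17675712) .n) (.c 1 (.c 2 (.c 1 (.l 12108512) .n) .n) (.c
  2 (.c 0 (.c 2 (.l 8244496) .n) (.c 1 (.c 0 (.c 1 (.l 5225072) .n) .n) .n)) .n))) (.c 4 (.c 0
  (.c 1 (.c 2 (.l 5738720) .n) .n) .n) .n))))) (.c 4 (.c 0 (.c 3 (.c 3 (.l 17675712) .n) (.c 4
  (.c 1 (.c 1 (.l 12128128) .n) .n) .n)) (.c 1 (.c 1 (.c 4 (.l 12422912) .n) (.c 2 (.c 2 (.c 1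
  (.l 8489696) .n) .n) (.c 3 (.c 0 (.c 2 (.l 5765504) .n) (.c 1 (.c 0 (.c 1 (.l 3647872) .n) .n)
  .n)) .n))) (.c 2 (.c 0 (.c 3 (.c 1 (.l 5915104) .n) .n) (.c 1 (.c 1 (.c 2 (.l 3997184) .n) (.c
  2 (.c 0 (.c 1 (.l 2518560) .n) .n) .n)) .n)) (.c 3 (.c 0 (.c 0 (.c 3 (.l 1749312) .n) .n) .n)
  .n)))) (.c 5 (.c 0 (.c 0 (.c 5 (.l 6058560) .n) (.c 1 (.c 3 (.c 1 (.l 4111840) .n) .n) (.c 2
  (.c 1 (.c 2 (.l 2770560) .n) .n) .n))) (.c 1 (.c 0 (.c 2 (.c 2 (.l 1900096) .n) .n) (.c 1 (.c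
  0 (.c 3 (.l 1205688) .n) .n) .n)) .n)) .n)))))) (.c 1 (.c 0 (.c 2 (.c 7 (.l 68193440) .n) (.c
  3 (.c 5 (.c 1 (.l 48589520) .n) .n) (.c 4 (.c 3 (.c 2 (.l 34520096) .n) (.c 4 (.c 0 (.c 1 (.l
  23846464) .n) .n) .n)) (.c 5 (.c 1 (.c 3 (.l 24447120) .n) (.c 2 (.c 1 (.c 1 (.l 16829040) .n)
  .n) (.c 3 (.c 0 (.c 0 (.c 1 (.l 7338880) .n) .n) .n) .n))) (.c 6 (.c 0 (.c 2 (.c 1 (.l
  11832576) .n) .n) (.c 1 (.c 0 (.c 2 (.l 8066688) .n) .n) .n)) .n))))) (.c 1 (.c 0 (.c 8 (.l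
  48482560) .n) (.c 1 (.c 6 (.c 1 (.l 34456544) .n) .n) (.c 2 (.c 4 (.c 2 (.l 24412704) .n) (.c
  5 (.c 0 (.c 1 (.l 16829040) .n) .n) .n)) (.c 3 (.c 2 (.c 3 (.l 17238648) .n) (.c 3 (.c 1 (.c 1
  (.l 11840644) .n) .n) (.c 4 (.c 0 (.c 0 (.c 1 (.l 5142656) .n) .n) .n) .n))) (.c 4 (.c 0 (.c 4
  (.l 12128128) .n) (.c 1 (.c 2 (.c 1 (.l 8297888) .n) .n) (.c 2 (.c 0 (.c 2 (.l 5642656) .n)
  (.c 1 (.c 0 (.c 1 (.l 3573792) .n) .n) .n)) .n))) (.c 5 (.c 0 (.c 1 (.c 2 (.l 3918096) .n) .n)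
  .n) .n)))))) (.c 2 (.c 0 (.c 5 (.c 2 (.l 17201952) .n) (.c 6 (.c 0 (.c 1 (.l 11832576) .n) .n)
  .n)) (.c 1 (.c 3 (.c 3 (.l 12108512) .n) (.c 4 (.c 1 (.c 1 (.l 8297888) .n) .n) (.c 5 (.c 0
  (.c 0 (.c 1 (.l 3589200) .n) .n) .n) .n))) (.c 2 (.c 1 (.c 4 (.l 8489696) .n) (.c 2 (.c 2 (.c
  1 (.l 5794400) .n) .n) (.c 3 (.c 0 (.c 2 (.l 3929952) .n) (.c 1 (.c 0 (.c 1 (.l 2484944) .n)
  .n) .n)) .n))) (.c 3 (.c 0 (.c 3 (.c 1 (.l 4026920) .n) .n) (.c 1 (.c 1 (.c 2 (.l 2717568) .n)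
  (.c 2 (.c 0 (.c 1 (.l 1711256) .n) .n) .n)) .n)) (.c 4 (.c 0 (.c 0 (.c 3 (.l 1221232) .n) .n)
  .n) .n))))) (.c 3 (.c 0 (.c 2 (.c 4 (.l 5915056) .n) (.c 3 (.c 2 (.c 1 (.l 4026920) .n) .n)
  (.c 4 (.c 0 (.c 2 (.l 2723776) .n) .n) .n))) (.c 1 (.c 0 (.c 5 (.l 4111072) .n) (.c 1 (.c 3
  (.c 1 (.l 2786432) .n) .n) (.c 2 (.c 1 (.c 2 (.l 1874928) .n) (.c 2 (.c 0 (.c 1 (.l 1178776)
  .n) .n) .n)) .n))) (.c 2 (.c 0 (.c 2 (.c 2 (.l 1282064) .n) .n) (.c 1 (.c 0 (.c 3 (.l 832088)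
  .n) .n) .n)) .n))) (.c 4 (.c 0 (.c 0 (.c 4 (.c 1 (.l 1309904) .n) .n) (.c 1 (.c 2 (.c 2 (.l
  873984) .n) .n) (.c 2 (.c 0 (.c 3 (.l 543584) .n) .n) .n))) (.c 1 (.c 0 (.c 1 (.c 3 (.l
  350368) .n) .n) .n) .n)) .n))))) (.c 2 (.c 0 (.c 0 (.c 7 (.c 1 (.l 16662240) .n) .n) (.c 1 (.c
  5 (.c 2 (.l 11742016) .n) (.c 6 (.c 0 (.c 1 (.l 8066688) .n) .n) .n)) (.c 2 (.c 3 (.c 3 (.l
  8244496) .n) (.c 4 (.c 1 (.c 1 (.l 5642656) .n) .n) .n)) (.c 3 (.c 1 (.c 4 (.l 5765504) .n)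
  (.c 2 (.c 2 (.c 1 (.l 3929952) .n) .n) (.c 3 (.c 0 (.c 2 (.l 2661888) .n) .n) .n))) (.c 4 (.c
  0 (.c 3 (.c 1 (.l 2723776) .n) .n) (.c 1 (.c 1 (.c 2 (.l 1835648) .n) .n) .n)) (.c 5 (.c 0 (.c
  0 (.c 3 (.l 828800) .n) .n) .n) .n)))))) (.c 1 (.c 0 (.c 4 (.c 3 (.l 5738720) .n) (.c 5 (.c 1
  (.c 1 (.l 3918096) .n) .n) .n)) (.c 1 (.c 2 (.c 4 (.l 3997144) .n) (.c 3 (.c 2 (.c 1 (.l
  2717568) .n) .n) (.c 4 (.c 0 (.c 2 (.l 1835648) .n) .n) .n))) (.c 2 (.c 0 (.c 5 (.l 2769896)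
  .n) (.c 1 (.c 3 (.c 1 (.l 1874928) .n) .n) (.c 2 (.c 1 (.c 2 (.l 1259856) .n) .n) .n))) (.c 3
  (.c 0 (.c 2 (.c 2 (.l 858816) .n) .n) (.c 1 (.c 0 (.c 3 (.l 548164) .n) .n) .n)) .n)))) (.c 2
  (.c 0 (.c 1 (.c 5 (.l 1899280) .n) (.c 2 (.c 3 (.c 1 (.l 1282000) .n) .n) (.c 3 (.c 1 (.c 2
  (.l 858816) .n) .n) .n))) (.c 1 (.c 0 (.c 4 (.c 1 (.l 873264) .n) .n) (.c 1 (.c 2 (.c 2 (.l
  581888) .n) .n) (.c 2 (.c 0 (.c 3 (.l 360848) .n) .n) .n))) (.c 2 (.c 0 (.c 1 (.c 3 (.l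
  233480) .n) .n) .n) .n))) (.c 3 (.c 0 (.c 0 (.c 3 (.c 2 (.l 251808) .n) .n) (.c 1 (.c 1 (.c 3
  (.l 144336) .n) .n) .n)) .n) .n)))) (.c 3 (.c 0 (.c 0 (.c 3 (.c 4 (.l 1834992) .n) (.c 4 (.c 2
  (.c 1 (.l 1242496) .n) .n) (.c 5 (.c 0 (.c 2 (.l 830528) .n) .n) .n))) (.c 1 (.c 1 (.c 5 (.l
  1260380) .n) (.c 2 (.c 3 (.c 1 (.l 849672) .n) .n) (.c 3 (.c 1 (.c 2 (.l 565192) .n) .n) .n)))
  (.c 2 (.c 0 (.c 4 (.c 1 (.l 576552) .n) .n) (.c 1 (.c 2 (.c 2 (.l 381728) .n) .n) (.c 2 (.c 0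
  (.c 3 (.l 220576) .n) .n) .n))) .n))) (.c 1 (.c 0 (.c 0 (.c 6 (.l 575340) .n) (.c 1 (.c 4 (.c
  1 (.l 384880) .n) .n) (.c 2 (.c 2 (.c 2 (.l 252192) .n) .n) .n))) (.c 1 (.c 0 (.c 3 (.c 2 (.l
  163996) .n) .n) (.c 1 (.c 1 (.c 3 (.l 93508) .n) .n) .n)) .n)) .n)) .n)))) (.c 1 (.c 0 (.c 0
  (.c 1 (.c 8 (.l 21351680) .n) (.c 2 (.c 6 (.c 1 (.l 15114880) .n) .n) (.c 3 (.c 4 (.c 2 (.l
  10666304) .n) (.c 5 (.c 0 (.c 1 (.l 7338880) .n) .n) .n)) (.c 4 (.c 2 (.c 3 (.l 7501440) .n)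
  (.c 3 (.c 1 (.c 1 (.l 5142656) .n) .n) .n)) (.c 5 (.c 0 (.c 4 (.l 5256000) .n) (.c 1 (.c 2 (.c
  1 (.l 3589200) .n) .n) (.c 2 (.c 0 (.c 2 (.l 2436000) .n) .n) .n))) (.c 6 (.c 0 (.c 1 (.c 2
  (.l 1684416) .n) .n) .n) .n)))))) (.c 1 (.c 0 (.c 7 (.c 1 (.l 10596320) .n) .n) (.c 1 (.c 5
  (.c 2 (.l 7454368) .n) (.c 6 (.c 0 (.c 1 (.l 5117664) .n) .n) .n)) (.c 2 (.c 3 (.c 3 (.l
  5225072) .n) (.c 4 (.c 1 (.c 1 (.l 3573792) .n) .n) .n)) (.c 3 (.c 1 (.c 4 (.l 3647872) .n)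
  (.c 2 (.c 2 (.c 1 (.l 2484944) .n) .n) (.c 3 (.c 0 (.c 2 (.l 1682112) .n) .n) .n))) (.c 4 (.c
  0 (.c 3 (.c 1 (.l 1719488) .n) .n) (.c 1 (.c 1 (.c 2 (.l 1158144) .n) .n) .n)) (.c 5 (.c 0 (.c
  0 (.c 3 (.l 493848) .n) .n) .n) .n)))))) (.c 2 (.c 0 (.c 4 (.c 3 (.l 3621824) .n) (.c 5 (.c 1
  (.c 1 (.l 2471232) .n) .n) .n)) (.c 1 (.c 2 (.c 4 (.l 2518528) .n) (.c 3 (.c 2 (.c 1 (.l
  1711256) .n) .n) (.c 4 (.c 0 (.c 2 (.l 1151568) .n) .n) .n))) (.c 2 (.c 0 (.c 5 (.l 1740400)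
  .n) (.c 1 (.c 3 (.c 1 (.l 1178776) .n) .n) (.c 2 (.c 1 (.c 2 (.l 791632) .n) .n) .n))) (.c 3
  (.c 0 (.c 2 (.c 2 (.l 532568) .n) .n) (.c 1 (.c 0 (.c 3 (.l 335532) .n) .n) .n)) .n)))) (.c 3
  (.c 0 (.c 1 (.c 5 (.l 1188780) .n) (.c 2 (.c 3 (.c 1 (.l 802664) .n) .n) (.c 3 (.c 1 (.c 2 (.l
  531064) .n) .n) .n))) (.c 1 (.c 0 (.c 4 (.c 1 (.l 544348) .n) .n) (.c 1 (.c 2 (.c 2 (.l
  359512) .n) .n) (.c 2 (.c 0 (.c 3 (.l 220172) .n) .n) .n))) (.c 2 (.c 0 (.c 1 (.c 3 (.l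
  140392) .n) .n) .n) .n))) .n)))) (.c 1 (.c 0 (.c 0 (.c 6 (.c 2 (.l 3464640) .n) (.c 7 (.c 0
  (.c 1 (.l 2369760) .n) .n) .n)) (.c 1 (.c 4 (.c 3 (.l 2411968) .n) (.c 5 (.c 1 (.c 1 (.l
  1643376) .n) .n) .n)) (.c 2 (.c 2 (.c 4 (.l 1671768) .n) (.c 3 (.c 2 (.c 1 (.l 1134280) .n)
  .n) (.c 4 (.c 0 (.c 2 (.l 763952) .n) .n) .n))) (.c 3 (.c 0 (.c 5 (.l 1151896) .n) (.c 1 (.c 3
  (.c 1 (.l 778732) .n) .n) (.c 2 (.c 1 (.c 2 (.l 521796) .n) .n) .n))) (.c 4 (.c 0 (.c 2 (.c 2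
  (.l 350352) .n) .n) (.c 1 (.c 0 (.c 3 (.l 220016) .n) .n) .n)) .n))))) (.c 1 (.c 0 (.c 3 (.c 4
  (.l 1139236) .n) (.c 4 (.c 2 (.c 1 (.l 770912) .n) .n) (.c 5 (.c 0 (.c 2 (.l 515208) .n) .n)
  .n))) (.c 1 (.c 1 (.c 5 (.l 780016) .n) (.c 2 (.c 3 (.c 1 (.l 526368) .n) .n) (.c 3 (.c 1 (.c
  2 (.l 349154) .n) .n) .n))) (.c 2 (.c 0 (.c 4 (.c 1 (.l 355764) .n) .n) (.c 1 (.c 2 (.c 2 (.l
  234044) .n) .n) (.c 2 (.c 0 (.c 3 (.l 140224) .n) .n) .n))) .n))) (.c 2 (.c 0 (.c 0 (.c 6 (.l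
  350620) .n) (.c 1 (.c 4 (.c 1 (.l 236176) .n) .n) (.c 2 (.c 2 (.c 2 (.l 152344) .n) .n) .n)))
  (.c 1 (.c 0 (.c 3 (.c 2 (.l 99068) .n) .n) (.c 1 (.c 1 (.c 3 (.l 56336) .n) .n) .n)) .n))
  .n))) (.c 2 (.c 0 (.c 0 (.c 2 (.c 5 (.l 333632) .n) (.c 3 (.c 3 (.c 1 (.l 225288) .n) .n) (.c
  4 (.c 1 (.c 2 (.l 135040) .n) .n) .n))) (.c 1 (.c 0 (.c 6 (.l 223120) .n) (.c 1 (.c 4 (.c 1
  (.l 149804) .n) .n) (.c 2 (.c 2 (.c 2 (.l 90248) .n) .n) .n))) .n)) .n) .n))) (.c 2 (.c 0 (.c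
  0 (.c 0 (.c 5 (.c 3 (.l 647200) .n) (.c 6 (.c 1 (.c 1 (.l 438720) .n) .n) .n)) (.c 1 (.c 3 (.c
  4 (.l 443456) .n) (.c 4 (.c 2 (.c 1 (.l 299328) .n) .n) .n)) (.c 2 (.c 1 (.c 5 (.l 300776) .n)
  (.c 2 (.c 3 (.c 1 (.l 203056) .n) .n) (.c 3 (.c 1 (.c 2 (.l 130400) .n) .n) .n))) (.c 3 (.c 1
  (.c 2 (.c 2 (.l 87464) .n) .n) .n) .n)))) (.c 1 (.c 0 (.c 2 (.c 5 (.l 197504) .n) (.c 3 (.c 3
  (.c 1 (.l 133320) .n) .n) .n)) (.c 1 (.c 1 (.c 4 (.c 1 (.l 88192) .n) .n) (.c 2 (.c 2 (.c 2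
  (.l 53216) .n) .n) .n)) .n)) .n)) .n) .n))) (.c 1 (.c 0 (.c 0 (.c 0 (.c 0 (.c 9 (.l 3230080)
  .n) (.c 1 (.c 7 (.c 1 (.l 2265200) .n) .n) (.c 2 (.c 5 (.c 2 (.l 1583360) .n) (.c 6 (.c 0 (.c
  1 (.l 1084320) .n) .n) .n)) (.c 3 (.c 3 (.c 3 (.l 1102824) .n) (.c 4 (.c 1 (.c 1 (.l 752464)
  .n) .n) .n)) (.c 4 (.c 1 (.c 4 (.l 765120) .n) (.c 2 (.c 2 (.c 1 (.l 519968) .n) .n) (.c 3 (.c
  0 (.c 2 (.l 351168) .n) .n) .n))) (.c 5 (.c 0 (.c 3 (.c 1 (.l 357600) .n) .n) (.c 1 (.c 1 (.c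
  2 (.l 240320) .n) .n) .n)) .n)))))) (.c 1 (.c 0 (.c 6 (.c 2 (.l 1084320) .n) (.c 7 (.c 0 (.c 1
  (.l 740880) .n) .n) .n)) (.c 1 (.c 4 (.c 3 (.l 752464) .n) (.c 5 (.c 1 (.c 1 (.l 512184) .n)
  .n) .n)) (.c 2 (.c 2 (.c 4 (.l 519960) .n) (.c 3 (.c 2 (.c 1 (.l 352472) .n) .n) (.c 4 (.c 0
  (.c 2 (.l 233744) .n) .n) .n))) (.c 3 (.c 0 (.c 5 (.l 355980) .n) (.c 1 (.c 3 (.c 1 (.l
  241312) .n) .n) (.c 2 (.c 1 (.c 2 (.l 161704) .n) .n) .n))) .n)))) (.c 2 (.c 0 (.c 3 (.c 4 (.l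
  351168) .n) (.c 4 (.c 2 (.c 1 (.l 237408) .n) .n) .n)) (.c 1 (.c 1 (.c 5 (.l 239336) .n) (.c 2
  (.c 3 (.c 1 (.l 161688) .n) .n) (.c 3 (.c 1 (.c 2 (.l 102028) .n) .n) .n))) (.c 2 (.c 0 (.c 4
  (.c 1 (.l 107216) .n) .n) (.c 1 (.c 2 (.c 2 (.l 64392) .n) .n) .n)) .n))) .n))) (.c 1 (.c 0
  (.c 0 (.c 5 (.c 3 (.l 323600) .n) (.c 6 (.c 1 (.c 1 (.l 219360) .n) .n) .n)) (.c 1 (.c 3 (.c 4
  (.l 221728) .n) (.c 4 (.c 2 (.c 1 (.l 149664) .n) .n) .n)) (.c 2 (.c 1 (.c 5 (.l 150356) .n)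
  (.c 2 (.c 3 (.c 1 (.l 101520) .n) .n) (.c 3 (.c 1 (.c 2 (.l 64296) .n) .n) .n))) .n))) (.c 1
  (.c 0 (.c 2 (.c 5 (.l 98256) .n) (.c 3 (.c 3 (.c 1 (.l 66672) .n) .n) .n)) (.c 1 (.c 1 (.c 4
  (.c 1 (.l 43252) .n) .n) .n) .n)) .n)) .n)) .n) .n))

noncomputable def t19_10 : Tr := (.c 0 (.c 0 (.c 0 (.c 0 (.c 0 (.c 9 (.l 3230080) .n) (.c 1 (.c
  7 (.c 1 (.l 2265200) .n) .n) (.c 2 (.c 5 (.c 2 (.l 1583360) .n) (.c 6 (.c 0 (.c 1 (.l 1084320)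
  .n) .n) .n)) (.c 3 (.c 3 (.c 3 (.l 1102824) .n) (.c 4 (.c 1 (.c 1 (.l 752464) .n) .n) (.c 5
  (.c 0 (.c 0 (.c 1 (.l 323600) .n) .n) .n) .n))) (.c 4 (.c 1 (.c 4 (.l 765120) .n) (.c 2 (.c 2
  (.c 1 (.l 519968) .n) .n) (.c 3 (.c 0 (.c 2 (.l 351168) .n) (.c 1 (.c 0 (.c 1 (.l 221728) .n)
  .n) .n)) .n))) (.c 5 (.c 0 (.c 3 (.c 1 (.l 357600) .n) .n) (.c 1 (.c 1 (.c 2 (.l 240320) .n)
  (.c 2 (.c 0 (.c 1 (.l 151120) .n) .n) .n)) (.c 2 (.c 0 (.c 1 (.c 1 (.l 99760) .n) .n) .n)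
  .n))) (.c 6 (.c 0 (.c 0 (.c 3 (.l 108288) .n) (.c 1 (.c 1 (.c 1 (.l 67104) .n) .n) .n)) .n)
  .n))))))) (.c 1 (.c 0 (.c 6 (.c 2 (.l 1084320) .n) (.c 7 (.c 0 (.c 1 (.l 740880) .n) .n) .n))
  (.c 1 (.c 4 (.c 3 (.l 752464) .n) (.c 5 (.c 1 (.c 1 (.l 512184) .n) .n) (.c 6 (.c 0 (.c 0 (.c
  1 (.l 219360) .n) .n) .n) .n))) (.c 2 (.c 2 (.c 4 (.l 519968) .n) (.c 3 (.c 2 (.c 1 (.l
  352472) .n) .n) (.c 4 (.c 0 (.c 2 (.l 237408) .n) (.c 1 (.c 0 (.c 1 (.l 149664) .n) .n) .n))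
  .n))) (.c 3 (.c 0 (.c 5 (.l 357600) .n) (.c 1 (.c 3 (.c 1 (.l 241312) .n) .n) (.c 2 (.c 1 (.c
  2 (.l 161704) .n) (.c 2 (.c 0 (.c 1 (.l 101528) .n) .n) .n)) (.c 3 (.c 0 (.c 1 (.c 1 (.l
  66804) .n) .n) .n) .n)))) (.c 4 (.c 0 (.c 2 (.c 2 (.l 109408) .n) (.c 3 (.c 0 (.c 1 (.l 68416)
  .n) .n) .n)) (.c 1 (.c 0 (.c 3 (.l 72224) .n) (.c 1 (.c 1 (.c 1 (.l 44688) .n) .n) .n)) (.c 2
  (.c 0 (.c 0 (.c 2 (.l 16464) .n) .n) .n) .n))) (.c 5 (.c 0 (.c 0 (.c 2 (.c 1 (.l 18896) .n)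
  .n) (.c 1 (.c 0 (.c 2 (.l 7304) .n) .n) .n)) .n) .n)))))) (.c 2 (.c 0 (.c 3 (.c 4 (.l 351168)
  .n) (.c 4 (.c 2 (.c 1 (.l 237408) .n) .n) (.c 5 (.c 0 (.c 2 (.l 159456) .n) (.c 1 (.c 0 (.c 1
  (.l 100368) .n) .n) .n)) .n))) (.c 1 (.c 1 (.c 5 (.l 240320) .n) (.c 2 (.c 3 (.c 1 (.l 161704)
  .n) .n) (.c 3 (.c 1 (.c 2 (.l 108032) .n) (.c 2 (.c 0 (.c 1 (.l 67728) .n) .n) .n)) (.c 4 (.c
  0 (.c 1 (.c 1 (.l 44416) .n) .n) .n) .n)))) (.c 2 (.c 0 (.c 4 (.c 1 (.l 109408) .n) .n) (.c 1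
  (.c 2 (.c 2 (.l 72656) .n) (.c 3 (.c 0 (.c 1 (.l 45368) .n) .n) .n)) (.c 2 (.c 0 (.c 3 (.l
  47792) .n) (.c 1 (.c 1 (.c 1 (.l 29528) .n) .n) .n)) (.c 3 (.c 0 (.c 0 (.c 2 (.l 11264) .n)
  .n) .n) .n)))) (.c 3 (.c 0 (.c 1 (.c 3 (.l 31584) .n) (.c 2 (.c 1 (.c 1 (.l 19432) .n) .n)
  .n)) (.c 1 (.c 0 (.c 2 (.c 1 (.l 12336) .n) .n) (.c 1 (.c 0 (.c 2 (.l 6592) .n) .n) .n)) .n))
  .n)))) (.c 3 (.c 0 (.c 0 (.c 6 (.l 108288) .n) (.c 1 (.c 4 (.c 1 (.l 72224) .n) .n) (.c 2 (.c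
  2 (.c 2 (.l 47792) .n) (.c 3 (.c 0 (.c 1 (.l 29800) .n) .n) .n)) (.c 3 (.c 0 (.c 3 (.l 31320)
  .n) (.c 1 (.c 1 (.c 1 (.l 19324) .n) .n) .n)) .n)))) (.c 1 (.c 0 (.c 3 (.c 2 (.l 31584) .n)
  (.c 4 (.c 0 (.c 1 (.l 19616) .n) .n) .n)) (.c 1 (.c 1 (.c 3 (.l 20520) .n) (.c 2 (.c 1 (.c 1
  (.l 12608) .n) .n) .n)) (.c 2 (.c 0 (.c 2 (.c 1 (.l 7968) .n) .n) (.c 1 (.c 0 (.c 2 (.l 3932)
  .n) .n) .n)) .n))) (.c 2 (.c 0 (.c 0 (.c 4 (.l 8256) .n) (.c 1 (.c 2 (.c 1 (.l 5048) .n) .n)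
  .n)) .n) .n))) (.c 4 (.c 0 (.c 0 (.c 2 (.c 3 (.l 8352) .n) (.c 3 (.c 1 (.c 1 (.l 5104) .n) .n)
  .n)) (.c 1 (.c 0 (.c 4 (.l 5200) .n) (.c 1 (.c 2 (.c 1 (.l 3168) .n) .n) .n)) .n)) .n) .n)))))
  (.c 1 (.c 0 (.c 0 (.c 5 (.c 3 (.l 323600) .n) (.c 6 (.c 1 (.c 1 (.l 219360) .n) .n) (.c 7 (.c
  0 (.c 0 (.c 1 (.l 93360) .n) .n) .n) .n))) (.c 1 (.c 3 (.c 4 (.l 221728) .n) (.c 4 (.c 2 (.c 1
  (.l 149664) .n) .n) (.c 5 (.c 0 (.c 2 (.l 100368) .n) (.c 1 (.c 0 (.c 1 (.l 63144) .n) .n)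
  .n)) .n))) (.c 2 (.c 1 (.c 5 (.l 151120) .n) (.c 2 (.c 3 (.c 1 (.l 101528) .n) .n) (.c 3 (.c 1
  (.c 2 (.l 67728) .n) (.c 2 (.c 0 (.c 1 (.l 42440) .n) .n) .n)) (.c 4 (.c 0 (.c 1 (.c 1 (.l
  27792) .n) .n) .n) .n)))) (.c 3 (.c 0 (.c 4 (.c 1 (.l 68416) .n) .n) (.c 1 (.c 2 (.c 2 (.l
  45368) .n) (.c 3 (.c 0 (.c 1 (.l 28316) .n) .n) .n)) (.c 2 (.c 0 (.c 3 (.l 29800) .n) (.c 1
  (.c 1 (.c 1 (.l 18404) .n) .n) .n)) (.c 3 (.c 0 (.c 0 (.c 2 (.l 4812) .n) .n) .n) .n)))) (.c 4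
  (.c 0 (.c 1 (.c 3 (.l 19616) .n) (.c 2 (.c 1 (.c 1 (.l 12064) .n) .n) .n)) (.c 1 (.c 0 (.c 2
  (.c 1 (.l 7648) .n) .n) (.c 1 (.c 0 (.c 2 (.l 3320) .n) .n) .n)) .n)) .n))))) (.c 1 (.c 0 (.c
  2 (.c 5 (.l 99760) .n) (.c 3 (.c 3 (.c 1 (.l 66804) .n) .n) (.c 4 (.c 1 (.c 2 (.l 44416) .n)
  (.c 2 (.c 0 (.c 1 (.l 27792) .n) .n) .n)) (.c 5 (.c 0 (.c 1 (.c 1 (.l 18136) .n) .n) .n)
  .n)))) (.c 1 (.c 0 (.c 6 (.l 67104) .n) (.c 1 (.c 4 (.c 1 (.l 44688) .n) .n) (.c 2 (.c 2 (.c 2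
  (.l 29528) .n) (.c 3 (.c 0 (.c 1 (.l 18404) .n) .n) .n)) (.c 3 (.c 0 (.c 3 (.l 19324) .n) (.c
  1 (.c 1 (.c 1 (.l 11918) .n) .n) .n)) (.c 4 (.c 0 (.c 0 (.c 2 (.l 4000) .n) .n) .n) .n)))))
  (.c 2 (.c 0 (.c 3 (.c 2 (.l 19432) .n) (.c 4 (.c 0 (.c 1 (.l 12064) .n) .n) .n)) (.c 1 (.c 1
  (.c 3 (.l 12608) .n) (.c 2 (.c 1 (.c 1 (.l 7744) .n) .n) .n)) (.c 2 (.c 0 (.c 2 (.c 1 (.l
  4888) .n) .n) (.c 1 (.c 0 (.c 2 (.l 2408) .n) .n) .n)) .n))) (.c 3 (.c 0 (.c 0 (.c 4 (.l 5028)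
  .n) (.c 1 (.c 2 (.c 1 (.l 3084) .n) .n) .n)) .n) .n)))) (.c 2 (.c 0 (.c 0 (.c 5 (.c 1 (.l
  18896) .n) .n) (.c 1 (.c 3 (.c 2 (.l 12336) .n) (.c 4 (.c 0 (.c 1 (.l 7648) .n) .n) .n)) (.c 2
  (.c 1 (.c 3 (.l 7968) .n) (.c 2 (.c 1 (.c 1 (.l 4888) .n) .n) .n)) (.c 3 (.c 0 (.c 2 (.c 1 (.l
  3072) .n) .n) .n) .n)))) (.c 1 (.c 0 (.c 2 (.c 3 (.l 5032) .n) (.c 3 (.c 1 (.c 1 (.l 3084) .n)
  .n) .n)) (.c 1 (.c 0 (.c 4 (.l 3100) .n) (.c 1 (.c 2 (.c 1 (.l 1912) .n) .n) .n)) .n)) .n))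
  (.c 3 (.c 0 (.c 0 (.c 1 (.c 4 (.l 1068) .n) .n) .n) .n) .n)))) (.c 2 (.c 0 (.c 0 (.c 1 (.c 6
  (.l 25920) .n) (.c 2 (.c 4 (.c 1 (.l 17152) .n) .n) (.c 3 (.c 2 (.c 2 (.l 11264) .n) (.c 3 (.c
  0 (.c 1 (.l 7008) .n) .n) .n)) (.c 4 (.c 0 (.c 3 (.l 7328) .n) (.c 1 (.c 1 (.c 1 (.l 4512) .n)
  .n) .n)) .n)))) (.c 1 (.c 0 (.c 5 (.c 1 (.l 11168) .n) .n) (.c 1 (.c 3 (.c 2 (.l 7280) .n) (.c
  4 (.c 0 (.c 1 (.l 4512) .n) .n) .n)) (.c 2 (.c 1 (.c 3 (.l 4696) .n) (.c 2 (.c 1 (.c 1 (.l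
  2880) .n) .n) .n)) (.c 3 (.c 0 (.c 2 (.c 1 (.l 1808) .n) .n) .n) .n)))) (.c 2 (.c 0 (.c 2 (.c
  3 (.l 2960) .n) (.c 3 (.c 1 (.c 1 (.l 1808) .n) .n) .n)) (.c 1 (.c 0 (.c 4 (.l 1800) .n) (.c 1
  (.c 2 (.c 1 (.l 1120) .n) .n) .n)) .n)) .n))) (.c 1 (.c 0 (.c 0 (.c 4 (.c 2 (.l 2752) .n) .n)
  (.c 1 (.c 2 (.c 3 (.l 1736) .n) .n) (.c 2 (.c 0 (.c 4 (.l 1056) .n) .n) .n))) (.c 1 (.c 0 (.c
  1 (.c 4 (.l 600) .n) .n) .n) .n)) .n)) .n))) (.c 1 (.c 0 (.c 0 (.c 0 (.c 4 (.c 4 (.l 46144)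
  .n) (.c 5 (.c 2 (.c 1 (.l 30960) .n) .n) (.c 6 (.c 0 (.c 2 (.l 20640) .n) (.c 1 (.c 0 (.c 1
  (.l 12960) .n) .n) .n)) .n))) (.c 1 (.c 2 (.c 5 (.l 30960) .n) (.c 3 (.c 3 (.c 1 (.l 20676)
  .n) .n) (.c 4 (.c 1 (.c 2 (.l 13712) .n) (.c 2 (.c 0 (.c 1 (.l 8576) .n) .n) .n)) (.c 5 (.c 0
  (.c 1 (.c 1 (.l 5584) .n) .n) .n) .n)))) (.c 2 (.c 0 (.c 6 (.l 20640) .n) (.c 1 (.c 4 (.c 1
  (.l 13712) .n) .n) (.c 2 (.c 2 (.c 2 (.l 9040) .n) (.c 3 (.c 0 (.c 1 (.l 5632) .n) .n) .n))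
  (.c 3 (.c 0 (.c 3 (.l 5904) .n) (.c 1 (.c 1 (.c 1 (.l 3640) .n) .n) .n)) .n)))) (.c 3 (.c 0
  (.c 3 (.c 2 (.l 5904) .n) .n) (.c 1 (.c 1 (.c 3 (.l 3824) .n) (.c 2 (.c 1 (.c 1 (.l 2348) .n)
  .n) .n)) .n)) .n)))) (.c 1 (.c 0 (.c 1 (.c 6 (.l 12960) .n) (.c 2 (.c 4 (.c 1 (.l 8576) .n)
  .n) (.c 3 (.c 2 (.c 2 (.l 5632) .n) (.c 3 (.c 0 (.c 1 (.l 3504) .n) .n) .n)) (.c 4 (.c 0 (.c 3
  (.l 3664) .n) (.c 1 (.c 1 (.c 1 (.l 2256) .n) .n) .n)) .n)))) (.c 1 (.c 0 (.c 5 (.c 1 (.l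
  5584) .n) .n) (.c 1 (.c 3 (.c 2 (.l 3640) .n) (.c 4 (.c 0 (.c 1 (.l 2256) .n) .n) .n)) (.c 2
  (.c 1 (.c 3 (.l 2348) .n) (.c 2 (.c 1 (.c 1 (.l 1440) .n) .n) .n)) .n))) (.c 2 (.c 0 (.c 2 (.c
  3 (.l 1472) .n) .n) (.c 1 (.c 0 (.c 4 (.l 900) .n) .n) .n)) .n))) (.c 2 (.c 0 (.c 0 (.c 4 (.c
  2 (.l 1376) .n) .n) (.c 1 (.c 2 (.c 3 (.l 872) .n) .n) .n)) .n) .n))) (.c 1 (.c 0 (.c 0 (.c 0
  (.c 7 (.l 2640) .n) (.c 1 (.c 5 (.c 1 (.l 1720) .n) .n) (.c 2 (.c 3 (.c 2 (.l 1112) .n) .n)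
  (.c 3 (.c 1 (.c 3 (.l 712) .n) .n) .n)))) (.c 1 (.c 0 (.c 4 (.c 2 (.l 688) .n) .n) (.c 1 (.c 2
  (.c 3 (.l 436) .n) .n) .n)) .n)) .n) .n)) .n)) .n)

noncomputable def t19_11 : Tr := (.c 0 (.c 0 (.c 0 (.c 0 (.c 0 (.c 4 (.c 4 (.l 46144) .n) (.c 5
  (.c 2 (.c 1 (.l 30960) .n) .n) (.c 6 (.c 0 (.c 2 (.l 20640) .n) (.c 1 (.c 0 (.c 1 (.l 12960)
  .n) .n) .n)) .n))) (.c 1 (.c 2 (.c 5 (.l 30960) .n) (.c 3 (.c 3 (.c 1 (.l 20676) .n) .n) (.c 4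
  (.c 1 (.c 2 (.l 13712) .n) (.c 2 (.c 0 (.c 1 (.l 8576) .n) .n) .n)) (.c 5 (.c 0 (.c 1 (.c 1
  (.l 5584) .n) .n) (.c 1 (.c 0 (.c 0 (.c 1 (.l 1720) .n) .n) .n) .n)) .n)))) (.c 2 (.c 0 (.c 6
  (.l 20640) .n) (.c 1 (.c 4 (.c 1 (.l 13712) .n) .n) (.c 2 (.c 2 (.c 2 (.l 9040) .n) (.c 3 (.c
  0 (.c 1 (.l 5632) .n) .n) .n)) (.c 3 (.c 0 (.c 3 (.l 5904) .n) (.c 1 (.c 1 (.c 1 (.l 3640) .n)
  .n) (.c 2 (.c 0 (.c 0 (.c 1 (.l 1112) .n) .n) .n) .n))) (.c 4 (.c 0 (.c 0 (.c 2 (.l 1376) .n)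
  .n) .n) .n))))) (.c 3 (.c 0 (.c 3 (.c 2 (.l 5904) .n) (.c 4 (.c 0 (.c 1 (.l 3664) .n) .n) .n))
  (.c 1 (.c 1 (.c 3 (.l 3824) .n) (.c 2 (.c 1 (.c 1 (.l 2348) .n) .n) (.c 3 (.c 0 (.c 0 (.c 1
  (.l 712) .n) .n) .n) .n))) (.c 2 (.c 0 (.c 2 (.c 1 (.l 1480) .n) .n) (.c 1 (.c 0 (.c 2 (.l
  872) .n) (.c 1 (.c 0 (.c 1 (.l 436) .n) .n) .n)) .n)) .n))) (.c 4 (.c 0 (.c 0 (.c 4 (.l 1536)
  .n) (.c 1 (.c 2 (.c 1 (.l 928) .n) .n) (.c 2 (.c 0 (.c 2 (.l 544) .n) .n) .n))) (.c 1 (.c 0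
  (.c 1 (.c 2 (.l 320) .n) .n) .n) .n)) .n))))) (.c 1 (.c 0 (.c 1 (.c 6 (.l 12960) .n) (.c 2 (.c
  4 (.c 1 (.l 8576) .n) .n) (.c 3 (.c 2 (.c 2 (.l 5632) .n) (.c 3 (.c 0 (.c 1 (.l 3504) .n) .n)
  .n)) (.c 4 (.c 0 (.c 3 (.l 3664) .n) (.c 1 (.c 1 (.c 1 (.l 2256) .n) .n) .n)) (.c 5 (.c 0 (.c
  0 (.c 2 (.l 848) .n) .n) .n) .n))))) (.c 1 (.c 0 (.c 5 (.c 1 (.l 5584) .n) .n) (.c 1 (.c 3 (.c
  2 (.l 3640) .n) (.c 4 (.c 0 (.c 1 (.l 2256) .n) .n) .n)) (.c 2 (.c 1 (.c 3 (.l 2348) .n) (.c 2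
  (.c 1 (.c 1 (.l 1440) .n) .n) (.c 3 (.c 0 (.c 0 (.c 1 (.l 436) .n) .n) .n) .n))) (.c 3 (.c 0
  (.c 2 (.c 1 (.l 904) .n) .n) (.c 1 (.c 0 (.c 2 (.l 532) .n) (.c 1 (.c 0 (.c 1 (.l 266) .n) .n)
  .n)) .n)) .n)))) (.c 2 (.c 0 (.c 2 (.c 3 (.l 1480) .n) (.c 3 (.c 1 (.c 1 (.l 904) .n) .n) .n))
  (.c 1 (.c 0 (.c 4 (.l 928) .n) (.c 1 (.c 2 (.c 1 (.l 560) .n) .n) (.c 2 (.c 0 (.c 2 (.l 328)
  .n) .n) .n))) (.c 2 (.c 0 (.c 1 (.c 2 (.l 192) .n) .n) .n) .n))) (.c 3 (.c 0 (.c 0 (.c 3 (.c 1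
  (.l 196) .n) .n) (.c 1 (.c 1 (.c 2 (.l 112) .n) .n) .n)) (.c 1 (.c 0 (.c 0 (.c 3 (.l 28) .n)
  .n) .n) .n)) .n)))) (.c 2 (.c 0 (.c 0 (.c 4 (.c 2 (.l 1376) .n) (.c 5 (.c 0 (.c 1 (.l 848) .n)
  .n) .n)) (.c 1 (.c 2 (.c 3 (.l 872) .n) (.c 3 (.c 1 (.c 1 (.l 532) .n) .n) .n)) (.c 2 (.c 0
  (.c 4 (.l 544) .n) (.c 1 (.c 2 (.c 1 (.l 328) .n) .n) (.c 2 (.c 0 (.c 2 (.l 192) .n) .n) .n)))
  (.c 3 (.c 0 (.c 1 (.c 2 (.l 112) .n) .n) .n) .n)))) (.c 1 (.c 0 (.c 1 (.c 4 (.l 320) .n) (.c 2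
  (.c 2 (.c 1 (.l 192) .n) .n) (.c 3 (.c 0 (.c 2 (.l 112) .n) .n) .n))) (.c 1 (.c 0 (.c 3 (.c 1
  (.l 112) .n) .n) (.c 1 (.c 1 (.c 2 (.l 64) .n) .n) .n)) .n)) (.c 2 (.c 0 (.c 0 (.c 2 (.c 2 (.l
  16) .n) .n) .n) .n) .n))) (.c 3 (.c 0 (.c 0 (.c 0 (.c 5 (.l 48) .n) (.c 1 (.c 3 (.c 1 (.l 28)
  .n) .n) (.c 2 (.c 1 (.c 2 (.l 16) .n) .n) .n))) .n) .n) .n)))) (.c 1 (.c 0 (.c 0 (.c 0 (.c 7
  (.l 2640) .n) (.c 1 (.c 5 (.c 1 (.l 1720) .n) .n) (.c 2 (.c 3 (.c 2 (.l 1112) .n) (.c 4 (.c 0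
  (.c 1 (.l 688) .n) .n) .n)) (.c 3 (.c 1 (.c 3 (.l 712) .n) (.c 2 (.c 1 (.c 1 (.l 436) .n) .n)
  .n)) (.c 4 (.c 0 (.c 2 (.c 1 (.l 272) .n) .n) (.c 1 (.c 0 (.c 2 (.l 160) .n) .n) .n)) .n)))))
  (.c 1 (.c 0 (.c 4 (.c 2 (.l 688) .n) (.c 5 (.c 0 (.c 1 (.l 424) .n) .n) .n)) (.c 1 (.c 2 (.c 3
  (.l 436) .n) (.c 3 (.c 1 (.c 1 (.l 266) .n) .n) .n)) (.c 2 (.c 0 (.c 4 (.l 272) .n) (.c 1 (.c
  2 (.c 1 (.l 164) .n) .n) (.c 2 (.c 0 (.c 2 (.l 96) .n) .n) .n))) (.c 3 (.c 0 (.c 1 (.c 2 (.l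
  56) .n) .n) .n) .n)))) (.c 2 (.c 0 (.c 1 (.c 4 (.l 160) .n) (.c 2 (.c 2 (.c 1 (.l 96) .n) .n)
  (.c 3 (.c 0 (.c 2 (.l 56) .n) .n) .n))) (.c 1 (.c 0 (.c 3 (.c 1 (.l 56) .n) .n) (.c 1 (.c 1
  (.c 2 (.l 32) .n) .n) .n)) .n)) .n))) (.c 1 (.c 0 (.c 0 (.c 3 (.c 3 (.l 132) .n) (.c 4 (.c 1
  (.c 1 (.l 80) .n) .n) .n)) (.c 1 (.c 1 (.c 4 (.l 80) .n) (.c 2 (.c 2 (.c 1 (.l 48) .n) .n) (.c
  3 (.c 0 (.c 2 (.l 28) .n) .n) .n))) (.c 2 (.c 0 (.c 3 (.c 1 (.l 28) .n) .n) (.c 1 (.c 1 (.c 2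
  (.l 16) .n) .n) .n)) .n))) (.c 1 (.c 0 (.c 0 (.c 5 (.l 24) .n) (.c 1 (.c 3 (.c 1 (.l 14) .n)
  .n) (.c 2 (.c 1 (.c 2 (.l 8) .n) .n) .n))) (.c 1 (.c 0 (.c 2 (.c 2 (.l 4) .n) .n) .n) .n))
  .n)) .n)) .n)) .n) .n)

noncomputable def t19_12 : Tr := (.c 0 (.c 0 (.c 0 (.c 0 (.c 0 (.c 0 (.c 7 (.l 2640) .n) (.c 1
  (.c 5 (.c 1 (.l 1720) .n) .n) (.c 2 (.c 3 (.c 2 (.l 1112) .n) (.c 4 (.c 0 (.c 1 (.l 688) .n)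
  .n) .n)) (.c 3 (.c 1 (.c 3 (.l 712) .n) (.c 2 (.c 1 (.c 1 (.l 436) .n) .n) (.c 3 (.c 0 (.c 0
  (.c 1 (.l 132) .n) .n) .n) .n))) (.c 4 (.c 0 (.c 2 (.c 1 (.l 272) .n) .n) (.c 1 (.c 0 (.c 2
  (.l 160) .n) (.c 1 (.c 0 (.c 1 (.l 80) .n) .n) .n)) .n)) (.c 5 (.c 0 (.c 0 (.c 1 (.c 1 (.l 24)
  .n) .n) .n) .n) .n)))))) (.c 1 (.c 0 (.c 4 (.c 2 (.l 688) .n) (.c 5 (.c 0 (.c 1 (.l 424) .n)
  .n) .n)) (.c 1 (.c 2 (.c 3 (.l 436) .n) (.c 3 (.c 1 (.c 1 (.l 266) .n) .n) (.c 4 (.c 0 (.c 0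
  (.c 1 (.l 80) .n) .n) .n) .n))) (.c 2 (.c 0 (.c 4 (.l 272) .n) (.c 1 (.c 2 (.c 1 (.l 164) .n)
  .n) (.c 2 (.c 0 (.c 2 (.l 96) .n) (.c 1 (.c 0 (.c 1 (.l 48) .n) .n) .n)) .n))) (.c 3 (.c 0 (.c
  1 (.c 2 (.l 56) .n) (.c 2 (.c 0 (.c 1 (.l 28) .n) .n) .n)) (.c 1 (.c 0 (.c 1 (.c 1 (.l 14) .n)
  .n) .n) .n)) .n)))) (.c 2 (.c 0 (.c 1 (.c 4 (.l 160) .n) (.c 2 (.c 2 (.c 1 (.l 96) .n) .n) (.c
  3 (.c 0 (.c 2 (.l 56) .n) (.c 1 (.c 0 (.c 1 (.l 28) .n) .n) .n)) .n))) (.c 1 (.c 0 (.c 3 (.c 1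
  (.l 56) .n) .n) (.c 1 (.c 1 (.c 2 (.l 32) .n) (.c 2 (.c 0 (.c 1 (.l 16) .n) .n) .n)) (.c 2 (.c
  0 (.c 1 (.c 1 (.l 8) .n) .n) .n) .n))) (.c 2 (.c 0 (.c 0 (.c 3 (.l 8) .n) (.c 1 (.c 1 (.c 1
  (.l 4) .n) .n) .n)) .n) .n))) (.c 3 (.c 0 (.c 0 (.c 2 (.c 2 (.l 8) .n) (.c 3 (.c 0 (.c 1 (.l
  4) .n) .n) .n)) (.c 1 (.c 0 (.c 3 (.l 4) .n) (.c 1 (.c 1 (.c 1 (.l 2) .n) .n) .n)) .n)) .n)
  .n)))) (.c 1 (.c 0 (.c 0 (.c 3 (.c 3 (.l 132) .n) (.c 4 (.c 1 (.c 1 (.l 80) .n) .n) (.c 5 (.c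
  0 (.c 0 (.c 1 (.l 24) .n) .n) .n) .n))) (.c 1 (.c 1 (.c 4 (.l 80) .n) (.c 2 (.c 2 (.c 1 (.l
  48) .n) .n) (.c 3 (.c 0 (.c 2 (.l 28) .n) (.c 1 (.c 0 (.c 1 (.l 14) .n) .n) .n)) .n))) (.c 2
  (.c 0 (.c 3 (.c 1 (.l 28) .n) .n) (.c 1 (.c 1 (.c 2 (.l 16) .n) (.c 2 (.c 0 (.c 1 (.l 8) .n)
  .n) .n)) (.c 2 (.c 0 (.c 1 (.c 1 (.l 4) .n) .n) .n) .n))) (.c 3 (.c 0 (.c 0 (.c 3 (.l 4) .n)
  (.c 1 (.c 1 (.c 1 (.l 2) .n) .n) .n)) .n) .n)))) (.c 1 (.c 0 (.c 0 (.c 5 (.l 24) .n) (.c 1 (.c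
  3 (.c 1 (.l 14) .n) .n) (.c 2 (.c 1 (.c 2 (.l 8) .n) (.c 2 (.c 0 (.c 1 (.l 4) .n) .n) .n)) (.c
  3 (.c 0 (.c 1 (.c 1 (.l 2) .n) .n) .n) .n)))) (.c 1 (.c 0 (.c 2 (.c 2 (.l 4) .n) (.c 3 (.c 0
  (.c 1 (.l 2) .n) .n) .n)) (.c 1 (.c 0 (.c 3 (.l 2) .n) (.c 1 (.c 1 (.c 1 (.l 1) .n) .n) .n))
  .n)) .n)) .n)) .n)) .n) .n) .n)

noncomputable def t19_13 : Tr := (.c 0 (.c 0 (.c 0 (.c 0 (.c 0 (.c 0 (.c 3 (.c 3 (.l 132) .n)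
  (.c 4 (.c 1 (.c 1 (.l 80) .n) .n) (.c 5 (.c 0 (.c 0 (.c 1 (.l 24) .n) .n) .n) .n))) (.c 1 (.c
  1 (.c 4 (.l 80) .n) (.c 2 (.c 2 (.c 1 (.l 48) .n) .n) (.c 3 (.c 0 (.c 2 (.l 28) .n) (.c 1 (.c
  0 (.c 1 (.l 14) .n) .n) .n)) .n))) (.c 2 (.c 0 (.c 3 (.c 1 (.l 28) .n) .n) (.c 1 (.c 1 (.c 2
  (.l 16) .n) (.c 2 (.c 0 (.c 1 (.l 8) .n) .n) .n)) (.c 2 (.c 0 (.c 1 (.c 1 (.l 4) .n) .n) .n)
  .n))) (.c 3 (.c 0 (.c 0 (.c 3 (.l 4) .n) (.c 1 (.c 1 (.c 1 (.l 2) .n) .n) .n)) .n) .n)))) (.c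
  1 (.c 0 (.c 0 (.c 5 (.l 24) .n) (.c 1 (.c 3 (.c 1 (.l 14) .n) .n) (.c 2 (.c 1 (.c 2 (.l 8) .n)
  (.c 2 (.c 0 (.c 1 (.l 4) .n) .n) .n)) (.c 3 (.c 0 (.c 1 (.c 1 (.l 2) .n) .n) .n) .n)))) (.c 1
  (.c 0 (.c 2 (.c 2 (.l 4) .n) (.c 3 (.c 0 (.c 1 (.l 2) .n) .n) .n)) (.c 1 (.c 0 (.c 3 (.l 2)
  .n) (.c 1 (.c 1 (.c 1 (.l 1) .n) .n) .n)) .n)) .n)) .n)) .n) .n) .n) .n)

noncomputable def t19_14 : Tr := (.c 0 (.c 0 (.c 0 (.c 0 (.c 0 (.c 0 (.c 0 (.c 5 (.l 24) .n) (.c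
  1 (.c 3 (.c 1 (.l 14) .n) .n) (.c 2 (.c 1 (.c 2 (.l 8) .n) (.c 2 (.c 0 (.c 1 (.l 4) .n) .n)
  .n)) (.c 3 (.c 0 (.c 1 (.c 1 (.l 2) .n) .n) .n) .n)))) (.c 1 (.c 0 (.c 2 (.c 2 (.l 4) .n) (.c
  3 (.c 0 (.c 1 (.l 2) .n) .n) .n)) (.c 1 (.c 0 (.c 3 (.l 2) .n) (.c 1 (.c 1 (.c 1 (.l 1) .n)
  .n) .n)) .n)) .n)) .n) .n) .n) .n) .n)

noncomputable def t19_15 : Tr := (.c 0 (.c 0 (.c 0 (.c 0 (.c 0 (.c 0 (.c 0 (.c 2 (.c 2 (.l 4)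
  .n) (.c 3 (.c 0 (.c 1 (.l 2) .n) .n) .n)) (.c 1 (.c 0 (.c 3 (.l 2) .n) (.c 1 (.c 1 (.c 1 (.l
  1) .n) .n) .n)) .n)) .n) .n) .n) .n) .n) .n)

noncomputable def t19_16 : Tr := (.c 0 (.c 0 (.c 0 (.c 0 (.c 0 (.c 0 (.c 0 (.c 0 (.c 3 (.l 2)
  .n) (.c 1 (.c 1 (.c 1 (.l 1) .n) .n) .n)) .n) .n) .n) .n) .n) .n) .n)

noncomputable def t19_17 : Tr := (.c 0 (.c 0 (.c 0 (.c 0 (.c 0 (.c 0 (.c 0 (.c 0 (.c 1 (.c 1 (.l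
  1) .n) .n) .n) .n) .n) .n) .n) .n) .n) .n)

noncomputable def t19_18 : Tr := (.c 0 (.c 0 (.c 0 (.c 0 (.c 0 (.c 0 (.c 0 (.c 0 (.c 0 (.c 1 (.l
  1) .n) .n) .n) .n) .n) .n) .n) .n) .n) .n)

noncomputable def t19_19 : Tr := (.l 1)

end MP_a3e05c_co.RTK
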