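import Pool.Agent.Lib.MP_a3e05c_co.RTK.Chk

/-!
# EULER: tables for regular tournaments with 21 vertices
-/

namespace MP_a3e05c_co.RTK

noncomputable def t21_0 : Tr := (.c 21 (.l 3035890034606593848108396779148026682657839269520)
  .n)

noncomputable def t21_1 : Tr := (.c 10 (.c 10 (.l 16431888732201356643943345705406193480362420)
  .n) .n)

noncomputable def t21_2 : Tr := (.c 0 (.c 19 (.l 427101001571994555729375978365675927520) .n)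
  (.c 1 (.c 17 (.c 1 (.l 353458716897171958980848778703466020992) .n) .n) (.c 2 (.c 15 (.c 2 (.l
  292453623608931824654109470069651494080) .n) .n) (.c 3 (.c 13 (.c 3 (.l
  241927121724781499134471913143175672070) .n) .n) (.c 4 (.c 11 (.c 4 (.l
  200087693394293117057162190083287633504) .n) .n) (.c 5 (.c 9 (.c 5 (.l
  165448432993554244318283958636092754080) .n) .n) (.c 6 (.c 7 (.c 6 (.l
  136774203437498431146328066075289875496) .n) .n) (.c 7 (.c 5 (.c 7 (.l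
  113037785322694273568492395808833197286) .n) .n) (.c 8 (.c 3 (.c 8 (.l
  93382978165865330971647273048129111188) .n) .n) (.c 9 (.c 1 (.c 9 (.l
  77079043375481665691052808469665155032) .n) .n) .n))))))))))

noncomputable def t21_3 : Tr := (.c 0 (.c 9 (.c 9 (.l 8784471443274260710188728473173096) .n)
  (.c 10 (.c 7 (.c 1 (.l 7194008729226889564418043450268960) .n) .n) (.c 11 (.c 5 (.c 2 (.l
  5889951914681070994474719640930600) .n) .n) (.c 12 (.c 3 (.c 3 (.l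
  4820998634192089313520038191441920) .n) .n) (.c 13 (.c 1 (.c 4 (.l
  3944961125756551461142988259769344) .n) .n) .n))))) (.c 1 (.c 7 (.c 10 (.l
  7193964217974839629584573710439534) .n) (.c 8 (.c 8 (.c 1 (.l
  5889988215847131726800930548396344) .n) .n) (.c 9 (.c 6 (.c 2 (.l
  4821086179370212423560613392308348) .n) .n) (.c 10 (.c 4 (.c 3 (.l
  3945107733304168423921307229447996) .n) .n) (.c 11 (.c 2 (.c 4 (.l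
  3227395299718839538666650951609888) .n) .n) (.c 12 (.c 0 (.c 5 (.l
  2638544718683407617369537919020144) .n) .n) .n)))))) (.c 2 (.c 5 (.c 11 (.l
  5889828919436530124824736752732980) .n) (.c 6 (.c 9 (.c 1 (.l
  4821022436351307223995334520376432) .n) .n) (.c 7 (.c 7 (.c 2 (.l
  3945104166322538874547437240310104) .n) .n) (.c 8 (.c 5 (.c 3 (.l
  3227455668255209182681151078358668) .n) .n) (.c 9 (.c 3 (.c 4 (.l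
  2639594794711102413293980355995572) .n) .n) (.c 10 (.c 1 (.c 5 (.l
  2157315432764220540910684922341332) .n) .n) .n)))))) (.c 3 (.c 3 (.c 12 (.l
  4820723173907900016107348258347692) .n) (.c 4 (.c 10 (.c 1 (.l
  3944929501080040933340495210425386) .n) .n) (.c 5 (.c 8 (.c 2 (.l
  3227355042466330387306183256596352) .n) .n) (.c 6 (.c 6 (.c 3 (.l
  2639580987967787937964764258854412) .n) .n) (.c 7 (.c 4 (.c 4 (.l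
  2158186325732948297513715516962920) .n) .n) (.c 8 (.c 2 (.c 5 (.l
  1763186627758441858465427142522712) .n) .n) (.c 9 (.c 0 (.c 6 (.l
  1436664020942078484958780096609440) .n) .n) .n))))))) (.c 4 (.c 1 (.c 13 (.l
  3944393443849634799120670132452728) .n) (.c 2 (.c 11 (.c 1 (.l
  3227018638290206663003502818563048) .n) .n) (.c 3 (.c 9 (.c 2 (.l
  2639352465088987908438874086432336) .n) .n) (.c 4 (.c 7 (.c 3 (.l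
  2158086716313626031905810931646848) .n) .n) (.c 5 (.c 5 (.c 4 (.l
  1763959430391636253369241110917844) .n) .n) (.c 6 (.c 3 (.c 5 (.l
  1440430515828696046188543752296548) .n) .n) (.c 7 (.c 1 (.c 6 (.l
  1172544617198636484482782000296990) .n) .n) .n))))))) (.c 5 (.c 0 (.c 12 (.c 1 (.l
  2638754030035319906302015728978640) .n) .n) (.c 1 (.c 10 (.c 2 (.l
  2157634814838714571818595751179140) .n) .n) (.c 2 (.c 8 (.c 3 (.l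
  1763709102885179933447206397291224) .n) .n) (.c 3 (.c 6 (.c 4 (.l
  1441081634482532801705151426433618) .n) .n) (.c 4 (.c 4 (.c 5 (.l
  1176010388279838158637338171660152) .n) .n) (.c 5 (.c 2 (.c 6 (.l
  955840195984906096092780043391430) .n) .n) (.c 6 (.c 0 (.c 7 (.l
  768656061762353756880187215042390) .n) .n) .n))))))) (.c 6 (.c 0 (.c 9 (.c 3 (.l
  1440264485632624367366701226296944) .n) .n) (.c 1 (.c 7 (.c 4 (.l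
  1176107759720105507473541104760452) .n) .n) (.c 2 (.c 5 (.c 5 (.l
  959162368308002335539900044178528) .n) .n) (.c 3 (.c 3 (.c 6 (.l
  778251275026926082555626246674766) .n) .n) (.c 4 (.c 1 (.c 7 (.l
  620685747098932764551634056616908) .n) .n) .n))))) (.c 7 (.c 0 (.c 6 (.c 5 (.l
  778988286039712089370123110904434) .n) .n) (.c 1 (.c 4 (.c 6 (.l
  631434859486250049176210127577064) .n) .n) (.c 2 (.c 2 (.c 7 (.l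
  501015792027247140386908779869342) .n) .n) .n))) .n))))))))

noncomputable def t21_4 : Tr := (.c 0 (.c 0 (.c 17 (.l 855846718999747153228927840320) .n) (.c 1
  (.c 15 (.c 1 (.l 694523914286032171086359425240) .n) .n) (.c 2 (.c 13 (.c 2 (.l
  563432430921287866795368523440) .n) (.c 14 (.c 0 (.c 1 (.l 455670259581115728131859572696) .n)
  .n) .n)) (.c 3 (.c 11 (.c 3 (.l 456939150886290267451027193400) .n) (.c 12 (.c 1 (.c 1 (.l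
  369426947176524963603905884032) .n) .n) .n)) (.c 4 (.c 9 (.c 4 (.l
  370454804303086383938497525680) .n) (.c 10 (.c 2 (.c 1 (.l 299409355144362641699623837072) .n)
  .n) (.c 11 (.c 0 (.c 2 (.l 241902155281691732436195859712) .n) .n) .n))) (.c 5 (.c 7 (.c 5 (.l
  300241516535166208937825656390) .n) (.c 8 (.c 3 (.c 1 (.l 242582490648227228042403429936) .n)
  .n) (.c 9 (.c 1 (.c 2 (.l 195925317511844015312783510144) .n) .n) .n))) (.c 6 (.c 5 (.c 6 (.l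
  243255236842504391881102927980) .n) (.c 6 (.c 4 (.c 1 (.l 196475801833789672198090718736) .n)
  .n) (.c 7 (.c 2 (.c 2 (.l 158633715987679726852095130776) .n) .n) (.c 8 (.c 0 (.c 3 (.l
  128032131117620409992785158144) .n) .n) .n)))) (.c 7 (.c 3 (.c 7 (.l
  197016768954712101339003368638) .n) (.c 4 (.c 5 (.c 1 (.l 159078123138425403862524608238) .n)
  .n) (.c 5 (.c 3 (.c 2 (.l 128396322985257194040614608872) .n) .n) (.c 6 (.c 1 (.c 3 (.l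
  103578159984417765567420618192) .n) .n) .n)))) (.c 8 (.c 1 (.c 8 (.l
  159506383446329711676134730248) .n) (.c 2 (.c 6 (.c 1 (.l 128751774248221158136665689616) .n)
  .n) (.c 3 (.c 4 (.c 2 (.l 103885412808211480933193795024) .n) .n) (.c 4 (.c 2 (.c 3 (.l
  83786835778027404916761643040) .n) .n) (.c 5 (.c 0 (.c 4 (.l 66929453190120235900884458800)
  .n) .n) .n))))) (.c 9 (.c 0 (.c 7 (.c 1 (.l 104162655529665518366832928320) .n) .n) (.c 1 (.c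
  5 (.c 2 (.l 84019210000667531063740228992) .n) .n) (.c 2 (.c 3 (.c 3 (.l
  67734000225710347008687373180) .n) .n) (.c 3 (.c 1 (.c 4 (.l 54080584609586660371935024012)
  .n) .n) .n)))) (.c 10 (.c 0 (.c 4 (.c 3 (.l 54711592048069545845873415840) .n) .n) (.c 1 (.c 2
  (.c 4 (.l 43220264746020560808519011880) .n) .n) .n)) .n))))))))))) (.c 1 (.c 0 (.c 14 (.c 2
  (.l 455668557696673251066173709672) .n) (.c 15 (.c 0 (.c 1 (.l 368411473751120797746819832762)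
  .n) .n) .n)) (.c 1 (.c 12 (.c 3 (.l 369424962745924466992420314582) .n) (.c 13 (.c 1 (.c 1 (.l
  298586787004806442719299490768) .n) .n) .n)) (.c 2 (.c 10 (.c 4 (.l
  299407070970169051140293283528) .n) (.c 11 (.c 2 (.c 1 (.l 241916391544648395603975707640) .n)
  .n) (.c 12 (.c 0 (.c 2 (.l 195394042560868353523975820760) .n) .n) .n))) (.c 3 (.c 8 (.c 5 (.l
  242579701263529108338866369670) .n) (.c 9 (.c 3 (.c 1 (.l 195936599573005295879106184872) .n)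
  .n) (.c 10 (.c 1 (.c 2 (.l 158203891972919786513509800352) .n) .n) .n))) (.c 4 (.c 6 (.c 6 (.l
  196471508113042538779493820858) .n) (.c 7 (.c 4 (.c 1 (.l 158642340084387471020794931186) .n)
  .n) (.c 8 (.c 2 (.c 2 (.l 128048742024647478727960579824) .n) .n) (.c 9 (.c 0 (.c 3 (.l
  103313752298219108381549003280) .n) .n) .n)))) (.c 5 (.c 4 (.c 7 (.l
  159069934569738876978614433092) .n) (.c 5 (.c 5 (.c 1 (.l 128401640080910837605831162154) .n)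
  .n) (.c 6 (.c 3 (.c 2 (.l 103605521378539896017292295720) .n) .n) (.c 7 (.c 1 (.c 3 (.l
  83562677857417342628213848782) .n) .n) .n)))) (.c 6 (.c 2 (.c 8 (.l
  128735116782236423086439163510) .n) (.c 3 (.c 6 (.c 1 (.l 103885358253830670468151684948) .n)
  .n) (.c 4 (.c 4 (.c 2 (.l 83797168772069429751956143152) .n) .n) (.c 5 (.c 2 (.c 3 (.l
  67556469838192544447325533376) .n) .n) (.c 6 (.c 0 (.c 4 (.l 53955090992450627694988441584)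
  .n) .n) .n))))) (.c 7 (.c 0 (.c 9 (.l 104116800945616639854650170068) .n) (.c 1 (.c 7 (.c 1
  (.l 84010384471277530372844987816) .n) .n) (.c 2 (.c 5 (.c 2 (.l
  67745591095740194887178778648) .n) .n) (.c 3 (.c 3 (.c 3 (.l 54594146906444524017045687510)
  .n) .n) (.c 4 (.c 1 (.c 4 (.l 43503114083103611720644242626) .n) .n) .n))))) (.c 8 (.c 0 (.c 6
  (.c 2 (.l 54686233317010523702566175072) .n) .n) (.c 1 (.c 4 (.c 3 (.l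
  44071786474242590672012724560) .n) .n) (.c 2 (.c 2 (.c 4 (.l 34884690950116924434163884660)
  .n) .n) (.c 3 (.c 0 (.c 5 (.l 26550712874246476248448688844) .n) .n) .n)))) (.c 9 (.c 0 (.c 3
  (.c 4 (.l 28068051441968865502205265102) .n) .n) .n) .n)))))))))) (.c 2 (.c 0 (.c 11 (.c 4 (.l
  241894495130893364123059656840) .n) (.c 12 (.c 2 (.c 1 (.l 195390015096222885108233617048) .n)
  .n) (.c 13 (.c 0 (.c 2 (.l 157768225378077186405380508232) .n) .n) .n))) (.c 1 (.c 9 (.c 5 (.l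
  195916599158175522738989590152) .n) (.c 10 (.c 3 (.c 1 (.l 158199875566882880504746458492) .n)
  .n) (.c 11 (.c 1 (.c 2 (.l 127696212403729963614343899000) .n) .n) .n))) (.c 2 (.c 7 (.c 6 (.l
  158622078421065955438966933936) .n) (.c 8 (.c 4 (.c 1 (.l 128044037206306795439091925956) .n)
  .n) (.c 9 (.c 2 (.c 2 (.l 103320481696438201702289152544) .n) .n) (.c 10 (.c 0 (.c 3 (.l
  83307475885410785338945949808) .n) .n) .n)))) (.c 3 (.c 5 (.c 7 (.l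
  128377531416915547904704539208) .n) (.c 6 (.c 5 (.c 1 (.l 103598622524570888471712343458) .n)
  .n) (.c 7 (.c 3 (.c 2 (.l 83567863575565203070459796852) .n) .n) (.c 8 (.c 1 (.c 3 (.l
  67358475527525683670043932176) .n) .n) .n)))) (.c 4 (.c 3 (.c 8 (.l
  103851814400408857425083296960) .n) (.c 4 (.c 6 (.c 1 (.l 83785182996720906767465118016) .n)
  .n) (.c 5 (.c 4 (.c 2 (.l 67564973996011415804035838496) .n) .n) (.c 6 (.c 2 (.c 3 (.l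
  54441206393756589716079564676) .n) .n) (.c 7 (.c 0 (.c 4 (.l 43339855759408044387998104780)
  .n) .n) .n))))) (.c 5 (.c 1 (.c 9 (.l 83947777415459314656158875752) .n) (.c 2 (.c 7 (.c 1 (.l
  67723894116338940891061245888) .n) .n) (.c 3 (.c 5 (.c 2 (.l 54598945717445122672013472948)
  .n) .n) (.c 4 (.c 3 (.c 3 (.l 43968567704345082002936893772) .n) .n) (.c 5 (.c 1 (.c 4 (.l
  34960039698954281015172310860) .n) .n) .n))))) (.c 6 (.c 0 (.c 8 (.c 1 (.l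
  54661401299461795402997253784) .n) .n) (.c 1 (.c 6 (.c 2 (.l 44063222077777969065636289096)
  .n) .n) (.c 2 (.c 4 (.c 3 (.l 35474080630601929143054782924) .n) .n) (.c 3 (.c 2 (.c 4 (.l
  28061544556850225901817441140) .n) .n) (.c 4 (.c 0 (.c 5 (.l 21329332660775397715030870116)
  .n) .n) .n))))) (.c 7 (.c 0 (.c 5 (.c 3 (.l 28447887848418926194329433352) .n) .n) (.c 1 (.c 3
  (.c 4 (.l 22473727514702248926947375208) .n) .n) (.c 2 (.c 1 (.c 5 (.l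
  16609414663590783972004824864) .n) .n) .n))) .n)))))))) (.c 3 (.c 0 (.c 8 (.c 6 (.l
  128000154989007908491531464784) .n) (.c 9 (.c 4 (.c 1 (.l 103300201362126207923657083134) .n)
  .n) (.c 10 (.c 2 (.c 2 (.l 83287374681521365025703699636) .n) .n) (.c 11 (.c 0 (.c 3 (.l
  66783013350504744349257540240) .n) .n) .n)))) (.c 1 (.c 6 (.c 7 (.l
  103550167444227925045483095740) .n) (.c 7 (.c 5 (.c 1 (.l 83546229623994546542048405926) .n)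
  .n) (.c 8 (.c 3 (.c 2 (.l 67362184712268333575266440102) .n) .n) (.c 9 (.c 1 (.c 3 (.l
  54163835553001414038263699412) .n) .n) .n)))) (.c 2 (.c 4 (.c 8 (.l
  83723097074926919726354444040) .n) (.c 5 (.c 6 (.c 1 (.l 67537780395238787379001420868) .n)
  .n) (.c 6 (.c 4 (.c 2 (.l 54450290006200699201417026176) .n) .n) (.c 7 (.c 2 (.c 3 (.l
  43804516357128478488418469446) .n) .n) (.c 8 (.c 0 (.c 4 (.l 34748671497438398684397742672)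
  .n) .n) .n))))) (.c 3 (.c 2 (.c 9 (.l 67627944892259017628108160888) .n) (.c 3 (.c 7 (.c 1 (.l
  54558290820577506765113100138) .n) .n) (.c 4 (.c 5 (.c 2 (.l 43978326707231656335598975182)
  .n) .n) (.c 5 (.c 3 (.c 3 (.l 35374208530384852074251086846) .n) .n) (.c 6 (.c 1 (.c 4 (.l
  27968561676295292938666603692) .n) .n) .n))))) (.c 4 (.c 0 (.c 10 (.l
  54530119477124439199510490424) .n) (.c 1 (.c 8 (.c 1 (.l 44003321682401519692508097460) .n)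
  .n) (.c 2 (.c 6 (.c 2 (.l 35462123283975631883048489560) .n) .n) (.c 3 (.c 4 (.c 3 (.l
  28505844221740068338981289976) .n) .n) (.c 4 (.c 2 (.c 4 (.l 22438761558256626881601887296)
  .n) .n) (.c 5 (.c 0 (.c 5 (.l 17000027785573932494518673838) .n) .n) .n)))))) (.c 5 (.c 0 (.c
  7 (.c 2 (.l 28344289410782048699164430926) .n) .n) (.c 1 (.c 5 (.c 3 (.l
  22805538627353297453371631990) .n) .n) (.c 2 (.c 3 (.c 4 (.l 17885090304478190796609350256)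
  .n) .n) (.c 3 (.c 1 (.c 5 (.l 13334624626893564711058063098) .n) .n) .n)))) (.c 6 (.c 0 (.c 4
  (.c 4 (.l 13852675570880093747710188960) .n) .n) .n) .n))))))) (.c 4 (.c 0 (.c 5 (.c 8 (.l
  67364916316317146720074779960) .n) (.c 6 (.c 6 (.c 1 (.l 54373517460533405252172542024) .n)
  .n) (.c 7 (.c 4 (.c 2 (.l 43744697020640784841873719744) .n) .n) (.c 8 (.c 2 (.c 3 (.l
  35115977650592924269523381424) .n) .n) .n)))) (.c 1 (.c 3 (.c 9 (.l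
  54366903305778487365091826060) .n) (.c 4 (.c 7 (.c 1 (.l 43901888863120603515845926348) .n)
  .n) (.c 5 (.c 5 (.c 2 (.l 35351223655780233817461086976) .n) .n) (.c 6 (.c 3 (.c 3 (.l
  28346458279830197700654328956) .n) .n) (.c 7 (.c 1 (.c 4 (.l 22194879801059322871856797332)
  .n) .n) .n))))) (.c 2 (.c 1 (.c 10 (.l 43638815418246201719303958648) .n) (.c 2 (.c 8 (.c 1
  (.l 35334269090313879608538830256) .n) .n) (.c 3 (.c 6 (.c 2 (.l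
  28453626308553369611576597664) .n) .n) (.c 4 (.c 4 (.c 3 (.l 22816869760213958445174988648)
  .n) .n) (.c 5 (.c 2 (.c 4 (.l 17770087859635013476562777652) .n) .n) .n))))) (.c 3 (.c 0 (.c 9
  (.c 1 (.l 28321520425485930188270908092) .n) .n) (.c 1 (.c 7 (.c 2 (.l
  22711486005145796164545137192) .n) .n) (.c 2 (.c 5 (.c 3 (.l 18192081368494840837888599736)
  .n) .n) (.c 3 (.c 3 (.c 4 (.l 14083565156243335215692187376) .n) .n) (.c 4 (.c 1 (.c 5 (.l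
  10453481503959193795133402490) .n) .n) .n))))) (.c 4 (.c 0 (.c 6 (.c 3 (.l
  14084970859428004665549676248) .n) .n) (.c 1 (.c 4 (.c 4 (.l 10832096404613364980154281888)
  .n) .n) (.c 2 (.c 2 (.c 5 (.l 7945077152564643491514569832) .n) .n) .n))) .n))))) (.c 5 (.c 0
  (.c 2 (.c 10 (.l 34566795121151689540619690340) .n) (.c 3 (.c 8 (.c 1 (.l
  28206129815241358382544359136) .n) .n) (.c 4 (.c 6 (.c 2 (.l 22721599845143085668443102320)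
  .n) .n) (.c 5 (.c 4 (.c 3 (.l 18123954248238125907839896500) .n) .n) .n)))) (.c 1 (.c 1 (.c 9
  (.c 1 (.l 22313681994956434019325612300) .n) .n) (.c 2 (.c 7 (.c 2 (.l
  17926422154558207667515051900) .n) .n) (.c 3 (.c 5 (.c 3 (.l 14312106338205629912105019466)
  .n) .n) (.c 4 (.c 3 (.c 4 (.l 10944428070814002016329792544) .n) .n) .n)))) (.c 2 (.c 1 (.c 6
  (.c 3 (.l 10955796436554014871858203224) .n) .n) (.c 2 (.c 4 (.c 4 (.l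
  8289703728054633115677611972) .n) .n) .n)) .n))) .n))))))

noncomputable def t21_5 : Tr := (.c 0 (.c 0 (.c 8 (.c 8 (.l 66499356565636919442807136) .n) (.c
  9 (.c 6 (.c 1 (.l 53266903236148080463547592) .n) .n) (.c 10 (.c 4 (.c 2 (.l
  42649766101726616225233200) .n) (.c 5 (.c 0 (.c 1 (.l 33903512336271864369618744) .n) .n) .n))
  (.c 11 (.c 2 (.c 3 (.l 34134421706148518924851440) .n) (.c 3 (.c 1 (.c 1 (.l
  27122314672484877187203356) .n) .n) .n)) (.c 12 (.c 0 (.c 4 (.l 27307537736934933527171760)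
  .n) (.c 1 (.c 2 (.c 1 (.l 21688035320366505508506528) .n) .n) (.c 2 (.c 0 (.c 2 (.l
  17215722698466380277692448) .n) .n) .n))) .n))))) (.c 1 (.c 6 (.c 9 (.l
  53266844113118600294085016) .n) (.c 7 (.c 7 (.c 1 (.l 42650721766351338969822528) .n) .n) (.c
  8 (.c 5 (.c 2 (.l 34136010189542590181306904) .n) (.c 6 (.c 0 (.c 1 (.l
  27125501430523221162172376) .n) .n) .n)) (.c 9 (.c 3 (.c 3 (.l 27309487442272558724102544) .n)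
  (.c 4 (.c 1 (.c 1 (.l 21691152683954570445780480) .n) .n) .n)) (.c 10 (.c 1 (.c 4 (.l
  21838652928947864449338240) .n) (.c 2 (.c 2 (.c 1 (.l 17337898534978756211882928) .n) .n) (.c
  3 (.c 0 (.c 2 (.l 13757259545496712554990208) .n) .n) .n))) (.c 11 (.c 0 (.c 3 (.c 1 (.l
  13852116918323679451277844) .n) .n) (.c 1 (.c 1 (.c 2 (.l 10986188703579507270715104) .n) .n)
  .n)) .n)))))) (.c 2 (.c 4 (.c 10 (.l 42649598387193989478115224) .n) (.c 5 (.c 8 (.c 1 (.l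
  34135922614837631684386696) .n) .n) (.c 6 (.c 6 (.c 2 (.l 27310079762920852218508240) .n) (.c
  7 (.c 0 (.c 1 (.l 21693181910800478123798596) .n) .n) .n)) (.c 7 (.c 4 (.c 3 (.l
  21839686926419382738458828) .n) (.c 5 (.c 1 (.c 1 (.l 17339982190625012335311232) .n) .n) .n))
  (.c 8 (.c 2 (.c 4 (.l 17457368380149907717428480) .n) (.c 3 (.c 2 (.c 1 (.l
  13854169660675608886063888) .n) .n) (.c 4 (.c 0 (.c 2 (.l 10988653552832269244626672) .n) .n)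
  .n))) (.c 9 (.c 0 (.c 5 (.l 13947068487633760368239088) .n) (.c 1 (.c 3 (.c 1 (.l
  11064081410713004192645472) .n) .n) (.c 2 (.c 1 (.c 2 (.l 8771475433329635843055984) .n) .n)
  .n))) (.c 10 (.c 0 (.c 2 (.c 2 (.l 6998377968822655873006560) .n) .n) (.c 1 (.c 0 (.c 3 (.l
  4836759207176542993192160) .n) .n) .n)) .n))))))) (.c 3 (.c 2 (.c 11 (.l
  34134040508378189360722224) .n) (.c 3 (.c 9 (.c 1 (.l 27309241224422352832691472) .n) .n) (.c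
  4 (.c 7 (.c 2 (.l 21839545017297065175117456) .n) (.c 8 (.c 0 (.c 1 (.l
  17341138507609966715874504) .n) .n) .n)) (.c 5 (.c 5 (.c 3 (.l 17457709403178851394433950) .n)
  (.c 6 (.c 1 (.c 1 (.l 13855471512123851252349370) .n) .n) .n)) (.c 6 (.c 3 (.c 4 (.l
  13948799670305342955401220) .n) (.c 4 (.c 2 (.c 1 (.l 11065444385692310312766024) .n) .n) (.c
  5 (.c 0 (.c 2 (.l 8773232596585555898304456) .n) .n) .n))) (.c 7 (.c 1 (.c 5 (.l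
  11138906877620110275104600) .n) (.c 2 (.c 3 (.c 1 (.l 8833166485883648067312660) .n) .n) (.c 3
  (.c 1 (.c 2 (.l 7000004554940160801961464) .n) .n) .n))) (.c 8 (.c 0 (.c 4 (.c 1 (.l
  7046819887604349671997896) .n) .n) (.c 1 (.c 2 (.c 2 (.l 5582517102045828824705928) .n) .n)
  (.c 2 (.c 0 (.c 3 (.l 4039236745944628144138028) .n) .n) .n))) (.c 9 (.c 0 (.c 1 (.c 3 (.l
  3049143888179584079079048) .n) .n) .n) .n)))))))) (.c 4 (.c 0 (.c 12 (.l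
  27306709180309914148856832) .n) (.c 1 (.c 10 (.c 1 (.l 21838105099955692094386592) .n) .n) (.c
  2 (.c 8 (.c 2 (.l 17456991746078398405960992) .n) (.c 9 (.c 0 (.c 1 (.l
  13855939990433226437111392) .n) .n) .n)) (.c 3 (.c 6 (.c 3 (.l 13948593931922282289650688) .n)
  (.c 7 (.c 1 (.c 1 (.l 11066130330887816992471376) .n) .n) .n)) (.c 4 (.c 4 (.c 4 (.l
  11140203293416859611497336) .n) (.c 5 (.c 2 (.c 1 (.l 8833988933658086712259520) .n) .n) (.c 6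
  (.c 0 (.c 2 (.l 7001210238405737815729392) .n) .n) .n))) (.c 5 (.c 2 (.c 5 (.l
  8891734705229175469780768) .n) (.c 3 (.c 3 (.c 1 (.l 7048773581509556162101280) .n) .n) (.c 4
  (.c 1 (.c 2 (.l 5582592210887976402048072) .n) .n) .n))) (.c 6 (.c 0 (.c 6 (.l
  7087787780314067877375088) .n) (.c 1 (.c 4 (.c 1 (.l 5620434447206307200263912) .n) .n) (.c 2
  (.c 2 (.c 2 (.l 4450178606572792592470592) .n) .n) (.c 3 (.c 0 (.c 3 (.l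
  3294419095440133627194672) .n) .n) .n)))) (.c 7 (.c 0 (.c 3 (.c 2 (.l
  3527901379807987468137304) .n) .n) (.c 1 (.c 1 (.c 3 (.l 2456401174097682558055108) .n) .n)
  .n)) .n)))))))) (.c 5 (.c 0 (.c 9 (.c 2 (.l 13946645377076815405737600) .n) (.c 10 (.c 0 (.c 1
  (.l 11065312771421356514288320) .n) .n) .n)) (.c 1 (.c 7 (.c 3 (.l 11139509518351002012385980)
  .n) (.c 8 (.c 1 (.c 1 (.l 8834145206416723120444256) .n) .n) .n)) (.c 2 (.c 5 (.c 4 (.l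
  8892661231923915682670470) .n) (.c 6 (.c 2 (.c 1 (.l 7049121088910496325959672) .n) .n) (.c 7
  (.c 0 (.c 2 (.l 5574786793907225396640960) .n) .n) .n))) (.c 3 (.c 3 (.c 5 (.l
  7094106997219232079779706) .n) (.c 4 (.c 3 (.c 1 (.l 5622064792970007404465618) .n) .n) (.c 5
  (.c 1 (.c 2 (.l 4451506647940601459239640) .n) .n) .n))) (.c 4 (.c 1 (.c 6 (.l
  5650700727136551319371656) .n) (.c 2 (.c 4 (.c 1 (.l 4480269583406977488124088) .n) .n) (.c 3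
  (.c 2 (.c 2 (.l 3542063649206471297543374) .n) .n) (.c 4 (.c 0 (.c 3 (.l
  2626832307020050685735536) .n) .n) .n)))) (.c 5 (.c 0 (.c 5 (.c 1 (.l
  3562476782013341180552960) .n) .n) (.c 1 (.c 3 (.c 2 (.l 2807645389052394534000360) .n) .n)
  (.c 2 (.c 1 (.c 3 (.l 1977217271996731091452370) .n) .n) .n))) .n)))))) (.c 6 (.c 0 (.c 6 (.c
  4 (.l 7094370362130109691759400) .n) (.c 7 (.c 2 (.c 1 (.l 5621938701663838845516576) .n) .n)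
  (.c 8 (.c 0 (.c 2 (.l 4401546137199838346835744) .n) .n) .n))) (.c 1 (.c 4 (.c 5 (.l
  5654885333337532223711880) .n) (.c 5 (.c 3 (.c 1 (.l 4481510399747407260521724) .n) .n) (.c 6
  (.c 1 (.c 2 (.l 3525922947082308705836968) .n) .n) .n))) (.c 2 (.c 2 (.c 6 (.l
  4498143800604450508493868) .n) (.c 3 (.c 4 (.c 1 (.l 3569125011942127605832716) .n) .n) (.c 4
  (.c 2 (.c 2 (.l 2819195866490782333201872) .n) .n) (.c 5 (.c 0 (.c 3 (.l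
  2051519630816087003815200) .n) .n) .n)))) (.c 3 (.c 0 (.c 7 (.l 3561388712285299562591280) .n)
  (.c 1 (.c 5 (.c 1 (.l 2835342542181088591595012) .n) .n) (.c 2 (.c 3 (.c 2 (.l
  2223978394672110073178044) .n) .n) (.c 3 (.c 1 (.c 3 (.l 1548294682574128866041478) .n) .n)
  .n)))) (.c 4 (.c 0 (.c 4 (.c 2 (.l 1701130253245186079397616) .n) .n) (.c 1 (.c 2 (.c 3 (.l
  1165539882837995813053460) .n) .n) .n)) .n))))) (.c 7 (.c 0 (.c 3 (.c 6 (.l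
  3558375299477144335966984) .n) (.c 4 (.c 4 (.c 1 (.l 2837201579977089925853248) .n) .n) (.c 5
  (.c 2 (.c 2 (.l 2210112430643232695594600) .n) .n) .n))) (.c 1 (.c 1 (.c 7 (.l
  2787511955841403456232404) .n) (.c 2 (.c 5 (.c 1 (.l 2246823625118419626148762) .n) .n) (.c 3
  (.c 3 (.c 2 (.l 1754107188388481334072150) .n) .n) .n))) (.c 2 (.c 1 (.c 4 (.c 2 (.l
  1324739676546259464220084) .n) .n) .n) .n))) .n)))))))) (.c 1 (.c 0 (.c 5 (.c 10 (.l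
  33903069918402332092881894) .n) (.c 6 (.c 8 (.c 1 (.l 27125208706699577152399580) .n) .n) (.c
  7 (.c 6 (.c 2 (.l 21693006301345519565927328) .n) (.c 7 (.c 0 (.c 1 (.l
  17225903445549040479055896) .n) .n) .n)) (.c 8 (.c 4 (.c 3 (.l 17341101199553086175120880) .n)
  (.c 5 (.c 1 (.c 1 (.l 13763835588942169165293916) .n) .n) .n)) (.c 9 (.c 2 (.c 4 (.l
  13855920010634226447917100) .n) (.c 3 (.c 2 (.c 1 (.l 10992624640218185391388248) .n) .n) (.c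
  4 (.c 0 (.c 2 (.l 8713346893551177430306680) .n) .n) .n))) (.c 10 (.c 0 (.c 5 (.l
  11064513181320645237056400) .n) (.c 1 (.c 3 (.c 1 (.l 8775233237892918705146160) .n) .n) (.c 2
  (.c 1 (.c 2 (.l 6954680933150954212515000) .n) .n) .n))) .n)))))) (.c 1 (.c 3 (.c 11 (.l
  27121449785626508303406636) .n) (.c 4 (.c 9 (.c 1 (.l 21690561667349604751909710) .n) .n) (.c
  5 (.c 7 (.c 2 (.l 17339569397119120813896856) .n) (.c 8 (.c 0 (.c 1 (.l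
  13763644074981016658693510) .n) .n) .n)) (.c 6 (.c 5 (.c 3 (.l 13855227880851279512382488) .n)
  (.c 6 (.c 1 (.c 1 (.l 10992780317582600546828456) .n) .n) .n)) (.c 7 (.c 3 (.c 4 (.l
  11065858757397328678758492) .n) (.c 4 (.c 2 (.c 1 (.l 8775733683631789547376554) .n) .n) (.c 5
  (.c 0 (.c 2 (.l 6955532508497509872737104) .n) .n) .n))) (.c 8 (.c 1 (.c 5 (.l
  8832267658318702449673352) .n) (.c 2 (.c 3 (.c 1 (.l 7002423071929482767391404) .n) .n) (.c 3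
  (.c 1 (.c 2 (.l 5546395995055141960826430) .n) .n) .n))) (.c 9 (.c 0 (.c 4 (.c 1 (.l
  5583246225347632866506448) .n) .n) (.c 1 (.c 2 (.c 2 (.l 4422154398884363084421876) .n) .n)
  (.c 2 (.c 0 (.c 3 (.l 3075144759572955420678660) .n) .n) .n))) .n))))))) (.c 2 (.c 1 (.c 12
  (.l 21686417924961413844632214) .n) (.c 2 (.c 10 (.c 1 (.l 17336783938964038270840164) .n) .n)
  (.c 3 (.c 8 (.c 2 (.l 13853349430342710135169728) .n) (.c 9 (.c 0 (.c 1 (.l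
  10992141307044468109849704) .n) .n) .n)) (.c 4 (.c 6 (.c 3 (.l 11064839312111983495342140) .n)
  (.c 7 (.c 1 (.c 1 (.l 8775489986527898814066882) .n) .n) .n)) (.c 5 (.c 4 (.c 4 (.l
  8833319923222036703270266) .n) (.c 5 (.c 2 (.c 1 (.l 7002588959212275260789108) .n) .n) (.c 6
  (.c 0 (.c 2 (.l 5547934146604929793830768) .n) .n) .n))) (.c 6 (.c 2 (.c 5 (.l
  7046766742318916084826332) .n) (.c 3 (.c 3 (.c 1 (.l 5585051494410355281865500) .n) .n) (.c 4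
  (.c 1 (.c 2 (.l 4422830318422849452220064) .n) .n) .n))) (.c 7 (.c 0 (.c 6 (.l
  5607442889773020362361238) .n) (.c 1 (.c 4 (.c 1 (.l 4450758235700257700224984) .n) .n) (.c 2
  (.c 2 (.c 2 (.l 3523611528465547243457376) .n) .n) (.c 3 (.c 0 (.c 3 (.l
  2502022573304318278659166) .n) .n) .n)))) (.c 8 (.c 0 (.c 3 (.c 2 (.l
  2777385783594034225056952) .n) .n) (.c 1 (.c 1 (.c 3 (.l 1901839549026529285555340) .n) .n)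
  .n)) .n)))))))) (.c 3 (.c 0 (.c 11 (.c 1 (.l 13849990695203337464417958) .n) .n) (.c 1 (.c 9
  (.c 2 (.l 11062514658067024321478064) .n) (.c 10 (.c 0 (.c 1 (.l 8774359072378226482793282)
  .n) .n) .n)) (.c 2 (.c 7 (.c 3 (.l 8831930911375518941860438) .n) (.c 8 (.c 1 (.c 1 (.l
  7001949919852558815878560) .n) .n) .n)) (.c 3 (.c 5 (.c 4 (.l 7047393539013079991645660) .n)
  (.c 6 (.c 2 (.c 1 (.l 5584894221711673819019016) .n) .n) (.c 7 (.c 0 (.c 2 (.l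
  4413215130276509006068752) .n) .n) .n))) (.c 4 (.c 3 (.c 5 (.l 5618842840429033371971658) .n)
  (.c 4 (.c 3 (.c 1 (.l 4452249980755164092019544) .n) .n) (.c 5 (.c 1 (.c 2 (.l
  3523721177070281739001502) .n) .n) .n))) (.c 5 (.c 1 (.c 6 (.l 4470101930531422958072866) .n)
  (.c 2 (.c 4 (.c 1 (.l 3545899441407390779508426) .n) .n) (.c 3 (.c 2 (.c 2 (.l
  2802943781930941295882558) .n) .n) (.c 4 (.c 0 (.c 3 (.l 2000066280199388437261324) .n) .n)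
  .n)))) (.c 6 (.c 0 (.c 5 (.c 1 (.l 2812474372536074436929172) .n) .n) (.c 1 (.c 3 (.c 2 (.l
  2212367620249844926368066) .n) .n) (.c 2 (.c 1 (.c 3 (.l 1526384604720112105377064) .n) .n)
  .n))) .n))))))) (.c 4 (.c 0 (.c 8 (.c 3 (.l 7044263642166485789725712) .n) (.c 9 (.c 1 (.c 1
  (.l 5582816413181468050537512) .n) .n) .n)) (.c 1 (.c 6 (.c 4 (.l 5618736820712403367227238)
  .n) (.c 7 (.c 2 (.c 1 (.l 4451656780039598981793074) .n) .n) (.c 8 (.c 0 (.c 2 (.l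
  3484467686581739926368624) .n) .n) .n))) (.c 2 (.c 4 (.c 5 (.l 4476422350324567545994004) .n)
  (.c 5 (.c 3 (.c 1 (.l 3546962180703782059694296) .n) .n) (.c 6 (.c 1 (.c 2 (.l
  2788508936236225929396920) .n) .n) .n))) (.c 3 (.c 2 (.c 6 (.l 3556984067540149070393182) .n)
  (.c 3 (.c 4 (.c 1 (.l 2822945942669121315955450) .n) .n) (.c 4 (.c 2 (.c 2 (.l
  2228112207590538067530052) .n) .n) (.c 5 (.c 0 (.c 3 (.l 1570031685104491913298356) .n) .n)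
  .n)))) (.c 4 (.c 0 (.c 7 (.l 2812421828409665320362912) .n) (.c 1 (.c 5 (.c 1 (.l
  2238468184669843761747688) .n) .n) (.c 2 (.c 3 (.c 2 (.l 1755940110184367087932826) .n) .n)
  (.c 3 (.c 1 (.c 3 (.l 1199987566056452264202224) .n) .n) .n)))) (.c 5 (.c 0 (.c 4 (.c 2 (.l
  1351862411847218531068072) .n) .n) (.c 1 (.c 2 (.c 3 (.l 912351622974445477019216) .n) .n)
  .n)) .n)))))) (.c 5 (.c 0 (.c 5 (.c 5 (.l 3558657306295724325871970) .n) (.c 6 (.c 3 (.c 1 (.l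
  2822540307342057168045860) .n) .n) (.c 7 (.c 1 (.c 2 (.l 2162325332014419583612360) .n) .n)
  .n))) (.c 1 (.c 3 (.c 6 (.l 2820868682075963519930282) .n) (.c 4 (.c 4 (.c 1 (.l
  2243738151948367643295430) .n) .n) (.c 5 (.c 2 (.c 2 (.l 1743007029489719625888420) .n) .n)
  .n))) (.c 2 (.c 1 (.c 7 (.l 2209441225080088586741572) .n) (.c 2 (.c 5 (.c 1 (.l
  1775229576202059769209666) .n) .n) (.c 3 (.c 3 (.c 2 (.l 1381214199039081561335668) .n) .n)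
  (.c 4 (.c 1 (.c 3 (.l 925327896678113511324670) .n) .n) .n)))) (.c 3 (.c 0 (.c 6 (.c 1 (.l
  1390895333233707172628432) .n) .n) (.c 1 (.c 4 (.c 2 (.l 1056410264679682065428970) .n) .n)
  (.c 2 (.c 2 (.c 3 (.l 701542266800747566208716) .n) .n) .n))) .n)))) (.c 6 (.c 0 (.c 2 (.c 7
  (.l 1705771311958238417231768) .n) (.c 3 (.c 5 (.c 1 (.l 1392201697357653433566900) .n) .n)
  (.c 4 (.c 3 (.c 2 (.l 1059870393900525099235576) .n) .n) .n))) (.c 1 (.c 2 (.c 4 (.c 2 (.l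
  789622012640033418384600) .n) .n) .n) .n)) .n))))))) (.c 2 (.c 0 (.c 2 (.c 12 (.l
  17210728109901578892964500) .n) (.c 3 (.c 10 (.c 1 (.l 13754115732281910593194724) .n) .n) (.c
  4 (.c 8 (.c 2 (.l 10986468408480951473055232) .n) (.c 9 (.c 0 (.c 1 (.l
  8714675078466903304580096) .n) .n) .n)) (.c 5 (.c 6 (.c 3 (.l 8771608577007938845540700) .n)
  (.c 7 (.c 1 (.c 1 (.l 6954646010110804941189176) .n) .n) .n)) (.c 6 (.c 4 (.c 4 (.l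
  6998191108117482328603908) .n) (.c 5 (.c 2 (.c 1 (.l 5547402295613072663688720) .n) .n) (.c 6
  (.c 0 (.c 2 (.l 4329291280252920932810808) .n) .n) .n))) (.c 7 (.c 2 (.c 5 (.l
  5579058733830722026974992) .n) (.c 3 (.c 3 (.c 1 (.l 4421357406133534436841372) .n) .n) (.c 4
  (.c 1 (.c 2 (.l 3462570916709451081962844) .n) .n) .n))) (.c 8 (.c 0 (.c 6 (.l
  4430751581448421958329184) .n) (.c 1 (.c 4 (.c 1 (.l 3520995251598404300750728) .n) .n) (.c 2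
  (.c 2 (.c 2 (.l 2752499613847497060137560) .n) .n) .n))) .n))))))) (.c 1 (.c 0 (.c 13 (.l
  13746469500513378998266920) .n) (.c 1 (.c 11 (.c 1 (.l 10981503473276880567981980) .n) .n) (.c
  2 (.c 9 (.c 2 (.l 8767769859224986901136312) .n) (.c 10 (.c 0 (.c 1 (.l
  6952111405620149906168112) .n) .n) .n)) (.c 3 (.c 7 (.c 3 (.l 6997266910347952690286358) .n)
  (.c 8 (.c 1 (.c 1 (.l 5546036466268499430364056) .n) .n) .n)) (.c 4 (.c 5 (.c 4 (.l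
  5580307208488574879747376) .n) (.c 6 (.c 2 (.c 1 (.l 4421784971362904622561512) .n) .n) (.c 7
  (.c 0 (.c 2 (.l 3451029427713694491307220) .n) .n) .n))) (.c 5 (.c 3 (.c 5 (.l
  4445466815959135081474706) .n) (.c 4 (.c 3 (.c 1 (.l 3523034962997915796693982) .n) .n) (.c 5
  (.c 1 (.c 2 (.l 2769318477790938720521360) .n) .n) .n))) (.c 6 (.c 1 (.c 6 (.l
  3529378602180188018635740) .n) (.c 2 (.c 4 (.c 1 (.l 2803324930646793777277952) .n) .n) (.c 3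
  (.c 2 (.c 2 (.l 2200407430567642180026496) .n) .n) (.c 4 (.c 0 (.c 3 (.l
  1517734243866105365872264) .n) .n) .n)))) (.c 7 (.c 0 (.c 5 (.c 1 (.l
  2218599050655932946814896) .n) .n) (.c 1 (.c 3 (.c 2 (.l 1734442129846596256745498) .n) .n)
  (.c 2 (.c 1 (.c 3 (.l 1164411735909844175455392) .n) .n) .n))) .n)))))))) (.c 2 (.c 0 (.c 10
  (.c 2 (.l 6989932465852980344511120) .n) (.c 11 (.c 0 (.c 1 (.l 5539709248926660165853660) .n)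
  .n) .n)) (.c 1 (.c 8 (.c 3 (.l 5576434836219897599810728) .n) (.c 9 (.c 1 (.c 1 (.l
  4418606535750290147337408) .n) .n) .n)) (.c 2 (.c 6 (.c 4 (.l 4445575345311117056030316) .n)
  (.c 7 (.c 2 (.c 1 (.l 3522259378114851984753368) .n) .n) (.c 8 (.c 0 (.c 2 (.l
  2708109851478798388783200) .n) .n) .n))) (.c 3 (.c 4 (.c 5 (.l 3538635011424167283582128) .n)
  (.c 5 (.c 3 (.c 1 (.l 2804734757836285485905004) .n) .n) (.c 6 (.c 1 (.c 2 (.l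
  2189757384304413177101232) .n) .n) .n))) (.c 4 (.c 2 (.c 6 (.l 2805404708330007305065196) .n)
  (.c 3 (.c 4 (.c 1 (.l 2230252407034214942505976) .n) .n) (.c 4 (.c 2 (.c 2 (.l
  1743768017182492468494320) .n) .n) (.c 5 (.c 0 (.c 3 (.l 1192718478594454627171192) .n) .n)
  .n)))) (.c 5 (.c 0 (.c 7 (.l 2211478508550456737855868) .n) (.c 1 (.c 5 (.c 1 (.l
  1763054833158238308399748) .n) .n) (.c 2 (.c 3 (.c 2 (.l 1368723021095510725647840) .n) .n)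
  (.c 3 (.c 1 (.c 3 (.l 912311607286820342680580) .n) .n) .n)))) (.c 6 (.c 0 (.c 4 (.c 2 (.l
  1059175235000353899237296) .n) .n) (.c 1 (.c 2 (.c 3 (.l 694700876014560063357036) .n) .n)
  .n)) .n))))))) (.c 3 (.c 0 (.c 7 (.c 4 (.l 3531888541049493582976284) .n) (.c 8 (.c 2 (.c 1
  (.l 2799137638058161348392768) .n) .n) .n)) (.c 1 (.c 5 (.c 5 (.l 2810126198264487461255678)
  .n) (.c 6 (.c 3 (.c 1 (.l 2229940100651613794657740) .n) .n) (.c 7 (.c 1 (.c 2 (.l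
  1692948102567260393961238) .n) .n) .n))) (.c 2 (.c 3 (.c 6 (.l 2222051161891677218002858) .n)
  (.c 4 (.c 4 (.c 1 (.l 1771069844829476152499296) .n) .n) (.c 5 (.c 2 (.c 2 (.l
  1356453339257361868237608) .n) .n) .n))) (.c 3 (.c 1 (.c 7 (.l 1737224728428148326546354) .n)
  (.c 2 (.c 5 (.c 1 (.l 1396691968547327895963812) .n) .n) (.c 3 (.c 3 (.c 2 (.l
  1071450803124901253689764) .n) .n) (.c 4 (.c 1 (.c 3 (.l 705236701175308394872344) .n) .n)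
  .n)))) (.c 4 (.c 0 (.c 6 (.c 1 (.l 1090379024360130751809908) .n) .n) (.c 1 (.c 4 (.c 2 (.l
  821439845796148457874640) .n) .n) (.c 2 (.c 2 (.c 3 (.l 536422579641837485389900) .n) .n)
  .n))) .n))))) (.c 4 (.c 0 (.c 4 (.c 6 (.l 1738775286357205823948952) .n) (.c 5 (.c 4 (.c 1 (.l
  1396807817381171947603632) .n) .n) (.c 6 (.c 2 (.c 2 (.l 1008756830804835812117744) .n) .n)
  .n))) (.c 1 (.c 2 (.c 7 (.l 1346108617701895644272484) .n) (.c 3 (.c 5 (.c 1 (.l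
  1097422041418100806030054) .n) .n) (.c 4 (.c 3 (.c 2 (.l 806295535555814355641992) .n) .n)
  .n))) (.c 2 (.c 1 (.c 6 (.c 1 (.l 840082374218457546436716) .n) .n) (.c 2 (.c 4 (.c 2 (.l
  618963469180238852015036) .n) .n) .n)) .n))) .n))))) (.c 3 (.c 0 (.c 0 (.c 12 (.c 1 (.l
  6868031848147095876731448) .n) .n) (.c 1 (.c 10 (.c 2 (.l 5508020705275955357230320) .n) .n)
  (.c 2 (.c 8 (.c 3 (.l 4398676266141146088153472) .n) (.c 9 (.c 1 (.c 1 (.l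
  3487218180544575147262080) .n) .n) .n)) (.c 3 (.c 6 (.c 4 (.l 3504730976476126730400096) .n)
  (.c 7 (.c 2 (.c 1 (.l 2781824312782026972981550) .n) .n) .n)) (.c 4 (.c 4 (.c 5 (.l
  2782722090413700075535400) .n) (.c 5 (.c 3 (.c 1 (.l 2213015579054804890795214) .n) .n) (.c 6
  (.c 1 (.c 2 (.l 1692263506663051337619804) .n) .n) .n))) (.c 5 (.c 2 (.c 6 (.l
  2199554146237478626323742) .n) (.c 3 (.c 4 (.c 1 (.l 1755019182597419376583560) .n) .n) (.c 4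
  (.c 2 (.c 2 (.l 1339429924377933944368754) .n) .n) .n))) (.c 6 (.c 1 (.c 5 (.c 1 (.l
  1383207728207393467251014) .n) .n) (.c 2 (.c 3 (.c 2 (.l 1039299731845135912189900) .n) .n)
  .n)) .n))))))) (.c 1 (.c 0 (.c 9 (.c 3 (.l 3479452578906861324061836) .n) .n) (.c 1 (.c 7 (.c
  4 (.l 2774555390862221550150532) .n) (.c 8 (.c 2 (.c 1 (.l 2204615440123034663553112) .n) .n)
  .n)) (.c 2 (.c 5 (.c 5 (.l 2204139725353810374744540) .n) (.c 6 (.c 3 (.c 1 (.l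
  1756025719079532546318114) .n) .n) (.c 7 (.c 1 (.c 2 (.l 1304153719899698009659452) .n) .n)
  .n))) (.c 3 (.c 3 (.c 6 (.l 1736882761544351097118526) .n) (.c 4 (.c 4 (.c 1 (.l
  1392341349073321207549412) .n) .n) (.c 5 (.c 2 (.c 2 (.l 1040846956793602822285140) .n) .n)
  .n))) (.c 4 (.c 1 (.c 7 (.l 1355348064954246492462534) .n) (.c 2 (.c 5 (.c 1 (.l
  1093369468408542705063280) .n) .n) (.c 3 (.c 3 (.c 2 (.l 812478640588916358970720) .n) .n)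
  .n))) .n))))) (.c 2 (.c 0 (.c 6 (.c 5 (.l 1721308697575349448640168) .n) (.c 7 (.c 3 (.c 1 (.l
  1379417713611453253449124) .n) .n) .n)) (.c 1 (.c 4 (.c 6 (.l 1351700173594738848410612) .n)
  (.c 5 (.c 4 (.c 1 (.l 1094672494959838351857844) .n) .n) (.c 6 (.c 2 (.c 2 (.l
  776480348527842274837828) .n) .n) .n))) (.c 2 (.c 2 (.c 7 (.l 1045922113437588591375568) .n)
  (.c 3 (.c 5 (.c 1 (.l 856333585178170591578426) .n) .n) (.c 4 (.c 3 (.c 2 (.l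
  606504839402454214232440) .n) .n) .n))) (.c 3 (.c 2 (.c 4 (.c 2 (.l 462199454330811408673844)
  .n) .n) .n) .n)))) .n))) (.c 4 (.c 0 (.c 1 (.c 6 (.c 5 (.l 1325320395614743572200848) .n) .n)
  (.c 2 (.c 4 (.c 6 (.l 1038403701469562843823472) .n) .n) .n)) .n) .n)))))

noncomputable def t21_6 : Tr := (.c 0 (.c 0 (.c 0 (.c 15 (.l 24061982053825936444224) .n) (.c 1
  (.c 13 (.c 1 (.l 19061542887116695132596) .n) .n) (.c 2 (.c 11 (.c 2 (.l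
  15092662746457272185088) .n) (.c 12 (.c 0 (.c 1 (.l 11896624830330428360744) .n) .n) .n)) (.c
  3 (.c 9 (.c 3 (.l 11944041593385369322188) .n) (.c 10 (.c 1 (.c 1 (.l 9409904126325166002540)
  .n) .n) (.c 11 (.c 0 (.c 0 (.c 1 (.l 5755920853502191757616) .n) .n) .n) .n))) (.c 4 (.c 7 (.c
  4 (.l 9447365150007722622048) .n) (.c 8 (.c 2 (.c 1 (.l 7439043019895573385696) .n) .n) (.c 9
  (.c 0 (.c 2 (.l 5854126729653859960656) .n) (.c 1 (.c 0 (.c 1 (.l 4545548025325713281112) .n)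
  .n) .n)) .n))) (.c 5 (.c 5 (.c 5 (.l 7468617676134441482060) .n) (.c 6 (.c 3 (.c 1 (.l
  5877809007439586509760) .n) .n) (.c 7 (.c 1 (.c 2 (.l 4623014257698475909000) .n) (.c 2 (.c 0
  (.c 1 (.l 3587709869179610863472) .n) .n) .n)) (.c 8 (.c 0 (.c 1 (.c 1 (.l
  2818077974921229489200) .n) .n) .n) .n)))) (.c 6 (.c 3 (.c 6 (.l 5901131923135381340616) .n)
  (.c 4 (.c 4 (.c 1 (.l 4641691753784921368328) .n) .n) (.c 5 (.c 2 (.c 2 (.l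
  3648773515261566019840) .n) (.c 3 (.c 0 (.c 1 (.l 2830112659239786562072) .n) .n) .n)) (.c 6
  (.c 0 (.c 3 (.l 2866437040642475150160) .n) (.c 1 (.c 1 (.c 1 (.l 2221731329309234642356) .n)
  .n) .n)) .n)))) (.c 7 (.c 1 (.c 7 (.l 4660012795600039117052) .n) (.c 2 (.c 5 (.c 1 (.l
  3663480868485571359488) .n) .n) (.c 3 (.c 3 (.c 2 (.l 2878211248081315326912) .n) (.c 4 (.c 0
  (.c 1 (.l 2231212557226959532760) .n) .n) .n)) (.c 4 (.c 1 (.c 3 (.l 2259802224131421488704)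
  .n) (.c 2 (.c 1 (.c 1 (.l 1750558420856511850064) .n) .n) .n)) (.c 5 (.c 0 (.c 2 (.c 1 (.l
  1372525255232675054020) .n) .n) (.c 1 (.c 0 (.c 2 (.l 875124879965637783820) .n) .n) .n))
  .n))))) (.c 8 (.c 0 (.c 6 (.c 1 (.l 2889689299962467842240) .n) .n) (.c 1 (.c 4 (.c 2 (.l
  2269048535043884597600) .n) (.c 5 (.c 0 (.c 1 (.l 1758011044648177862192) .n) .n) .n)) (.c 2
  (.c 2 (.c 3 (.l 1780505744719028961672) .n) (.c 3 (.c 1 (.c 1 (.l 1378488701794639899724) .n)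
  .n) .n)) (.c 3 (.c 0 (.c 4 (.l 1394193666116635060112) .n) (.c 1 (.c 2 (.c 1 (.l
  1080152886928661649504) .n) .n) .n)) .n)))) (.c 9 (.c 0 (.c 3 (.c 3 (.l
  1401646419288627617988) .n) .n) (.c 1 (.c 1 (.c 4 (.l 1095500243697370508712) .n) (.c 2 (.c 2
  (.c 1 (.l 849535037671988504088) .n) .n) .n)) .n)) .n)))))))))) (.c 1 (.c 0 (.c 12 (.c 2 (.l
  11896618379617329560928) .n) (.c 13 (.c 0 (.c 1 (.l 9373174591968485450724) .n) .n) .n)) (.c 1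
  (.c 10 (.c 3 (.l 9409894920619080661344) .n) (.c 11 (.c 1 (.c 1 (.l 7410050078014851360192)
  .n) .n) (.c 12 (.c 0 (.c 0 (.c 1 (.l 4528727394478253274308) .n) .n) .n) .n))) (.c 2 (.c 8 (.c
  4 (.l 7439030943520430493600) .n) (.c 9 (.c 2 (.c 1 (.l 5854938682662224590632) .n) .n) (.c 10
  (.c 0 (.c 2 (.l 4605365438795253954960) .n) (.c 1 (.c 0 (.c 1 (.l 3574471565621806547016) .n)
  .n) .n)) .n))) (.c 3 (.c 6 (.c 5 (.l 5877792260387931344604) .n) (.c 7 (.c 3 (.c 1 (.l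
  4623664079788505430440) .n) .n) (.c 8 (.c 1 (.c 2 (.l 3634876567196310715940) .n) (.c 2 (.c 0
  (.c 1 (.l 2819701891511296299816) .n) .n) .n)) (.c 9 (.c 0 (.c 1 (.c 1 (.l
  2213741023632550241836) .n) .n) .n) .n)))) (.c 4 (.c 4 (.c 6 (.l 4641659355558130576472) .n)
  (.c 5 (.c 4 (.c 1 (.l 3649291360116586846900) .n) .n) (.c 6 (.c 2 (.c 2 (.l
  2867277841500053577368) .n) (.c 3 (.c 0 (.c 1 (.l 2223032482210127262136) .n) .n) .n)) (.c 7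
  (.c 0 (.c 3 (.l 2251371758826090588590) .n) (.c 1 (.c 1 (.c 1 (.l 1744288023663433888986) .n)
  .n) .n)) .n)))) (.c 5 (.c 2 (.c 7 (.l 3663397608459713501956) .n) (.c 3 (.c 5 (.c 1 (.l
  2878608877431587976712) .n) .n) (.c 4 (.c 3 (.c 2 (.l 2260474109651104563356) .n) (.c 4 (.c 0
  (.c 1 (.l 1751599593199343564332) .n) .n) .n)) (.c 5 (.c 1 (.c 3 (.l 1773888531590901279580)
  .n) (.c 2 (.c 1 (.c 1 (.l 1373573169642583045520) .n) .n) .n)) (.c 6 (.c 0 (.c 2 (.c 1 (.l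
  1076382795370305440020) .n) .n) (.c 1 (.c 0 (.c 2 (.l 674296386864774257140) .n) .n) .n))
  .n))))) (.c 6 (.c 0 (.c 8 (.l 2889321929135336967864) .n) (.c 1 (.c 6 (.c 1 (.l
  2269296409736637449512) .n) .n) (.c 2 (.c 4 (.c 2 (.l 1781017740724755581632) .n) (.c 5 (.c 0
  (.c 1 (.l 1379308763445973085164) .n) .n) .n)) (.c 3 (.c 2 (.c 3 (.l 1396835898387449417934)
  .n) (.c 3 (.c 1 (.c 1 (.l 1080991192718963009966) .n) .n) .n)) (.c 4 (.c 0 (.c 4 (.l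
  1092275605214979800296) .n) (.c 1 (.c 2 (.c 1 (.l 846585926033161289664) .n) .n) (.c 2 (.c 0
  (.c 2 (.l 564261056106627304940) .n) .n) .n))) .n))))) (.c 7 (.c 0 (.c 5 (.c 2 (.l
  1402255433488116481200) .n) (.c 6 (.c 0 (.c 1 (.l 1085401272115114565318) .n) .n) .n)) (.c 1
  (.c 3 (.c 3 (.l 1099003822361513358082) .n) (.c 4 (.c 1 (.c 1 (.l 850186910276263031892) .n)
  .n) .n)) (.c 2 (.c 1 (.c 4 (.l 857977236932941246142) .n) (.c 2 (.c 2 (.c 1 (.l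
  665428284175849555376) .n) .n) (.c 3 (.c 0 (.c 2 (.l 425781490512119529334) .n) .n) .n))) (.c
  3 (.c 0 (.c 3 (.c 1 (.l 518541588443406294174) .n) .n) .n) .n)))) (.c 8 (.c 0 (.c 2 (.c 4 (.l
  667880748323771569808) .n) .n) (.c 1 (.c 0 (.c 5 (.l 504765190069544833968) .n) .n) .n))
  .n))))))))) (.c 2 (.c 0 (.c 9 (.c 4 (.l 5854087305960566881344) .n) (.c 10 (.c 2 (.c 1 (.l
  4605345705304884024480) .n) .n) (.c 11 (.c 0 (.c 2 (.l 3620744817879459172320) .n) (.c 1 (.c 0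
  (.c 1 (.l 2809102656738660830064) .n) .n) .n)) .n))) (.c 1 (.c 7 (.c 5 (.l
  4622964884280501385376) .n) (.c 8 (.c 3 (.c 1 (.l 3634855086518046771596) .n) .n) (.c 9 (.c 1
  (.c 2 (.l 2856152465272568151312) .n) (.c 2 (.c 0 (.c 1 (.l 2214698922741861869556) .n) .n)
  .n)) (.c 10 (.c 0 (.c 1 (.c 1 (.l 1737893959391913650320) .n) .n) .n) .n)))) (.c 2 (.c 5 (.c 6
  (.l 3648696335196479447020) .n) (.c 6 (.c 4 (.c 1 (.l 2867250514419591550488) .n) .n) (.c 7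
  (.c 2 (.c 2 (.l 2251723366148674388144) .n) (.c 3 (.c 0 (.c 1 (.l 1745053164602738144224) .n)
  .n) .n)) (.c 8 (.c 0 (.c 3 (.l 1767170561241660565760) .n) (.c 1 (.c 1 (.c 1 (.l
  1368556459806485917524) .n) .n) .n)) .n)))) (.c 3 (.c 3 (.c 7 (.l 2878057159031912561296) .n)
  (.c 4 (.c 5 (.c 1 (.l 2260425441826391125556) .n) .n) (.c 5 (.c 3 (.c 2 (.l
  1774162392180913323752) .n) (.c 4 (.c 0 (.c 1 (.l 1374181927620973204916) .n) .n) .n)) (.c 6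
  (.c 1 (.c 3 (.l 1391540962054513820980) .n) (.c 2 (.c 1 (.c 1 (.l 1077059938744997121656) .n)
  .n) .n)) (.c 7 (.c 0 (.c 2 (.c 1 (.l 843591760177219997552) .n) .n) (.c 1 (.c 0 (.c 2 (.l
  502265861798959575976) .n) .n) .n)) .n))))) (.c 4 (.c 1 (.c 8 (.l 2268719219081640969912) .n)
  (.c 2 (.c 6 (.c 1 (.l 1780905541648489555408) .n) .n) (.c 3 (.c 4 (.c 2 (.l
  1397020857927409080696) .n) (.c 5 (.c 0 (.c 1 (.l 1081460380054758910788) .n) .n) .n)) (.c 4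
  (.c 2 (.c 3 (.l 1095095883143913354192) .n) (.c 3 (.c 1 (.c 1 (.l 847126958028299684956) .n)
  .n) .n)) (.c 5 (.c 0 (.c 4 (.l 855462698163875551856) .n) (.c 1 (.c 2 (.c 1 (.l
  663079365548283322464) .n) .n) (.c 2 (.c 0 (.c 2 (.l 425880225143564046732) .n) .n) .n)))
  .n))))) (.c 5 (.c 0 (.c 7 (.c 1 (.l 1401852915393229000360) .n) .n) (.c 1 (.c 5 (.c 2 (.l
  1099240650232863996000) .n) (.c 6 (.c 0 (.c 1 (.l 850491564170781500220) .n) .n) .n)) (.c 2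
  (.c 3 (.c 3 (.l 861086545771229250888) .n) (.c 4 (.c 1 (.c 1 (.l 665839651679438521020) .n)
  .n) .n)) (.c 3 (.c 1 (.c 4 (.l 671269000663873161004) .n) (.c 2 (.c 2 (.c 1 (.l
  520860249602613262800) .n) .n) (.c 3 (.c 0 (.c 2 (.l 324447161890672836242) .n) .n) .n))) (.c
  4 (.c 0 (.c 3 (.c 1 (.l 405601848703867686736) .n) .n) (.c 1 (.c 1 (.c 2 (.l
  213727688405313343568) .n) .n) .n)) .n))))) (.c 6 (.c 0 (.c 4 (.c 3 (.l 675706025105532461180)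
  .n) (.c 5 (.c 1 (.c 1 (.l 522880425402250089220) .n) .n) .n)) (.c 1 (.c 2 (.c 4 (.l
  524302057460956474208) .n) (.c 3 (.c 2 (.c 1 (.l 408676294447260961744) .n) .n) .n)) (.c 2 (.c
  0 (.c 5 (.l 393756024328755001320) .n) (.c 1 (.c 3 (.c 1 (.l 317128683755277673868) .n) .n)
  .n)) .n))) (.c 7 (.c 0 (.c 1 (.c 5 (.l 295271699713650408148) .n) .n) .n) .n)))))))) (.c 3 (.c
  0 (.c 6 (.c 6 (.l 2866257962108702979840) .n) (.c 7 (.c 4 (.c 1 (.l 2251317953927526082280)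
  .n) .n) (.c 8 (.c 2 (.c 2 (.l 1766827688323195430108) .n) (.c 3 (.c 0 (.c 1 (.l
  1368935959927905735796) .n) .n) .n)) (.c 9 (.c 0 (.c 3 (.l 1386131511046468589928) .n) (.c 1
  (.c 1 (.c 1 (.l 1072720459223427859422) .n) .n) .n)) .n)))) (.c 1 (.c 4 (.c 7 (.l
  2259506275694642110222) .n) (.c 5 (.c 5 (.c 1 (.l 1773789981108187367008) .n) .n) (.c 6 (.c 3
  (.c 2 (.l 1391529417098879033556) .n) (.c 4 (.c 0 (.c 1 (.l 1077353710317537715952) .n) .n)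
  .n)) (.c 7 (.c 1 (.c 3 (.l 1090745268056213441140) .n) (.c 2 (.c 1 (.c 1 (.l
  843978400286124712116) .n) .n) .n)) (.c 8 (.c 0 (.c 2 (.c 1 (.l 660546397438051927880) .n) .n)
  .n) .n))))) (.c 2 (.c 2 (.c 8 (.l 1779969407380515894624) .n) (.c 3 (.c 6 (.c 1 (.l
  1396629369214550636312) .n) .n) (.c 4 (.c 4 (.c 2 (.l 1095047687974090240864) .n) (.c 5 (.c 0
  (.c 1 (.l 847336559423093999580) .n) .n) .n)) (.c 5 (.c 2 (.c 3 (.l 857915281756225497344) .n)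
  (.c 3 (.c 1 (.c 1 (.l 663394490162444334594) .n) .n) .n)) (.c 6 (.c 0 (.c 4 (.l
  669443015718242604008) .n) (.c 1 (.c 2 (.c 1 (.l 518980401326422899708) .n) .n) (.c 2 (.c 0
  (.c 2 (.l 307995947908831504328) .n) .n) .n))) .n))))) (.c 3 (.c 0 (.c 9 (.l
  1400991607100811245136) .n) (.c 1 (.c 7 (.c 1 (.l 1098774987460777023322) .n) .n) (.c 2 (.c 5
  (.c 2 (.l 861063944730750818372) .n) (.c 6 (.c 0 (.c 1 (.l 665933531759369759252) .n) .n) .n))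
  (.c 3 (.c 3 (.c 3 (.l 674124567935226796122) .n) (.c 4 (.c 1 (.c 1 (.l 521089480480343979190)
  .n) .n) .n)) (.c 4 (.c 1 (.c 4 (.l 524608409114073253822) .n) (.c 2 (.c 2 (.c 1 (.l
  407404469864896312944) .n) .n) (.c 3 (.c 0 (.c 2 (.l 228041357633094169708) .n) .n) .n))) (.c
  5 (.c 0 (.c 3 (.c 1 (.l 316514200843472402864) .n) .n) .n) .n)))))) (.c 4 (.c 0 (.c 6 (.c 2
  (.l 675073694197000246512) .n) .n) (.c 1 (.c 4 (.c 3 (.l 528744455868444548904) .n) (.c 5 (.c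
  1 (.c 1 (.l 408924547134871357870) .n) .n) .n)) (.c 2 (.c 2 (.c 4 (.l 410062647270057401296)
  .n) (.c 3 (.c 2 (.c 1 (.l 319447584883089397664) .n) .n) .n)) (.c 3 (.c 0 (.c 5 (.l
  307099269559369180796) .n) (.c 1 (.c 3 (.c 1 (.l 247475442590281367400) .n) .n) (.c 2 (.c 1
  (.c 2 (.l 114747098167294560286) .n) .n) .n))) .n)))) (.c 5 (.c 0 (.c 3 (.c 4 (.l
  317259169158206135748) .n) .n) (.c 1 (.c 1 (.c 5 (.l 234154543987076191834) .n) (.c 2 (.c 3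
  (.c 1 (.l 191730196624236205860) .n) .n) .n)) .n)) .n)))))) (.c 4 (.c 0 (.c 3 (.c 8 (.l
  1395054900175151188608) .n) (.c 4 (.c 6 (.c 1 (.l 1094352733874644541208) .n) .n) (.c 5 (.c 4
  (.c 2 (.l 857406186609164061552) .n) (.c 5 (.c 0 (.c 1 (.l 663379289608769700328) .n) .n) .n))
  (.c 6 (.c 2 (.c 3 (.l 670634351625483950352) .n) (.c 3 (.c 1 (.c 1 (.l 519052473527999205760)
  .n) .n) .n)) (.c 7 (.c 0 (.c 4 (.l 522794525856921841488) .n) .n) .n))))) (.c 1 (.c 1 (.c 9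
  (.l 1096479390798258587552) .n) (.c 2 (.c 7 (.c 1 (.l 860162509501546939512) .n) .n) (.c 3 (.c
  5 (.c 2 (.l 673885614189718905088) .n) (.c 6 (.c 0 (.c 1 (.l 520991552387124790088) .n) .n)
  .n)) (.c 4 (.c 3 (.c 3 (.l 527073235232144442896) .n) (.c 4 (.c 1 (.c 1 (.l
  407487689882026688640) .n) .n) .n)) (.c 5 (.c 1 (.c 4 (.l 409458719889271948760) .n) (.c 2 (.c
  2 (.c 1 (.l 318328170257214354696) .n) .n) .n)) .n))))) (.c 2 (.c 0 (.c 8 (.c 1 (.l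
  674878069292897275744) .n) .n) (.c 1 (.c 6 (.c 2 (.l 528023152700312594856) .n) .n) (.c 2 (.c
  4 (.c 3 (.l 413084748364839516640) .n) (.c 5 (.c 1 (.c 1 (.l 319531676392712878328) .n) .n)
  .n)) (.c 3 (.c 2 (.c 4 (.l 319349124969350410136) .n) (.c 3 (.c 2 (.c 1 (.l
  249423526068423277000) .n) .n) .n)) (.c 4 (.c 0 (.c 5 (.l 238406262542235593184) .n) (.c 1 (.c
  3 (.c 1 (.l 192320052470390233776) .n) .n) .n)) .n))))) (.c 3 (.c 0 (.c 5 (.c 3 (.l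
  318118995413812840488) .n) .n) (.c 1 (.c 3 (.c 4 (.l 246913593574043005528) .n) (.c 4 (.c 2
  (.c 1 (.l 194654285240703460928) .n) .n) .n)) (.c 2 (.c 1 (.c 5 (.l 183078714711205794192) .n)
  (.c 2 (.c 3 (.c 1 (.l 149429523984206014320) .n) .n) .n)) .n))) .n)))) (.c 5 (.c 0 (.c 1 (.c 8
  (.c 1 (.l 525787889156758182880) .n) .n) (.c 2 (.c 6 (.c 2 (.l 411304084930007814600) .n) .n)
  (.c 3 (.c 4 (.c 3 (.l 321237073211491222352) .n) .n) (.c 4 (.c 2 (.c 4 (.l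
  248044856658961032488) .n) .n) .n)))) (.c 1 (.c 0 (.c 7 (.c 2 (.l 319768228410156938440) .n)
  .n) (.c 1 (.c 5 (.c 3 (.l 247252082760768276440) .n) .n) (.c 2 (.c 3 (.c 4 (.l
  190124641202054420632) .n) .n) (.c 3 (.c 1 (.c 5 (.l 141024490372343665728) .n) .n) .n))))
  .n)) .n)))))) (.c 1 (.c 0 (.c 0 (.c 11 (.c 3 (.l 5755838552531047887720) .n) (.c 12 (.c 1 (.c
  1 (.l 4528673870306179812240) .n) .n) .n)) (.c 1 (.c 9 (.c 4 (.l 4545459672511119387984) .n)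
  (.c 10 (.c 2 (.c 1 (.l 3574418097677791778640) .n) .n) (.c 11 (.c 0 (.c 2 (.l
  2809075510221057147840) .n) (.c 1 (.c 0 (.c 1 (.l 2178703460979275425140) .n) .n) .n)) .n)))
  (.c 2 (.c 7 (.c 5 (.l 3587603067295090667172) .n) (.c 8 (.c 3 (.c 1 (.l
  2819646489992221178628) .n) .n) (.c 9 (.c 1 (.c 2 (.l 2214671766555671001012) .n) (.c 2 (.c 0
  (.c 1 (.l 1716748257360753098772) .n) .n) .n)) (.c 10 (.c 0 (.c 1 (.c 1 (.l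
  1346579689929773331876) .n) .n) .n) .n)))) (.c 3 (.c 5 (.c 6 (.l 2829957366198393843040) .n)
  (.c 6 (.c 4 (.c 1 (.l 2222966487336511725000) .n) .n) (.c 7 (.c 2 (.c 2 (.l
  1745027376895521223392) .n) (.c 3 (.c 0 (.c 1 (.l 1351943576303676550844) .n) .n) .n)) (.c 8
  (.c 0 (.c 3 (.l 1368535081907614963636) .n) (.c 1 (.c 1 (.c 1 (.l 1059808693587319543630) .n)
  .n) .n)) .n)))) (.c 4 (.c 3 (.c 7 (.l 2230936593251641957044) .n) (.c 4 (.c 5 (.c 1 (.l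
  1751494751745722674864) .n) .n) (.c 5 (.c 3 (.c 2 (.l 1374148217714682597820) .n) (.c 4 (.c 0
  (.c 1 (.l 1064013105867163609248) .n) .n) .n)) (.c 6 (.c 1 (.c 3 (.l 1077064349246245803110)
  .n) (.c 2 (.c 1 (.c 1 (.l 833599333022288452972) .n) .n) .n)) (.c 7 (.c 0 (.c 2 (.c 1 (.l
  652413863112674340412) .n) .n) .n) .n))))) (.c 5 (.c 1 (.c 8 (.l 1757404292691116504630) .n)
  (.c 2 (.c 6 (.c 1 (.l 1379085782612372532960) .n) .n) (.c 3 (.c 4 (.c 2 (.l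
  1081388784418116861784) .n) (.c 5 (.c 0 (.c 1 (.l 836863765431980413624) .n) .n) .n)) (.c 4
  (.c 2 (.c 3 (.l 846865084046489689220) .n) (.c 3 (.c 1 (.c 1 (.l 655256028989768053314) .n)
  .n) .n)) (.c 5 (.c 0 (.c 4 (.l 658832157458606116600) .n) (.c 1 (.c 2 (.c 1 (.l
  512527261473784198040) .n) .n) .n)) .n))))) (.c 6 (.c 0 (.c 7 (.c 1 (.l
  1084953753643405341380) .n) .n) (.c 1 (.c 5 (.c 2 (.l 850315237018798798800) .n) (.c 6 (.c 0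
  (.c 1 (.l 657705013129710886542) .n) .n) .n)) (.c 2 (.c 3 (.c 3 (.l 665521722013136007142) .n)
  (.c 4 (.c 1 (.c 1 (.l 514707446404809135276) .n) .n) .n)) (.c 3 (.c 1 (.c 4 (.l
  516476181246042893116) .n) (.c 2 (.c 2 (.c 1 (.l 402123231597127016048) .n) .n) .n)) .n))))
  (.c 7 (.c 0 (.c 4 (.c 3 (.l 520939478388495784914) .n) .n) (.c 1 (.c 2 (.c 4 (.l
  403092422475444730060) .n) .n) .n)) .n)))))))) (.c 1 (.c 0 (.c 8 (.c 5 (.l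
  2817812348412306335112) .n) (.c 9 (.c 3 (.c 1 (.l 2213592332156982539298) .n) .n) (.c 10 (.c 1
  (.c 2 (.l 1737802720634641134120) .n) (.c 2 (.c 0 (.c 1 (.l 1346529626079482474712) .n) .n)
  .n)) .n))) (.c 1 (.c 6 (.c 6 (.l 2221398405666692262182) .n) (.c 7 (.c 4 (.c 1 (.l
  1744125409603414228722) .n) .n) (.c 8 (.c 2 (.c 2 (.l 1368468153900889965076) .n) (.c 3 (.c 0
  (.c 1 (.l 1059760120603863571730) .n) .n) .n)) (.c 9 (.c 0 (.c 3 (.l 1072340121494077081296)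
  .n) (.c 1 (.c 1 (.c 1 (.l 830337471179868369228) .n) .n) .n)) .n)))) (.c 2 (.c 4 (.c 7 (.l
  1750064217346427934304) .n) (.c 5 (.c 5 (.c 1 (.l 1373356551599089312022) .n) .n) (.c 6 (.c 3
  (.c 2 (.l 1076958550025463111512) .n) (.c 4 (.c 0 (.c 1 (.l 833543687286611743820) .n) .n)
  .n)) (.c 7 (.c 1 (.c 3 (.l 843326913623738907370) .n) (.c 2 (.c 1 (.c 1 (.l
  652705257149218814366) .n) .n) .n)) (.c 8 (.c 0 (.c 2 (.c 1 (.l 510357955395864386160) .n) .n)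
  .n) .n))))) (.c 3 (.c 2 (.c 8 (.l 1377674279471868762256) .n) (.c 3 (.c 6 (.c 1 (.l
  1080630076268564467902) .n) .n) (.c 4 (.c 4 (.c 2 (.l 846965708547941902184) .n) (.c 5 (.c 0
  (.c 1 (.l 655175046217342541928) .n) .n) .n)) (.c 5 (.c 2 (.c 3 (.l 662873917863219120624) .n)
  (.c 3 (.c 1 (.c 1 (.l 512739105886607153820) .n) .n) .n)) (.c 6 (.c 0 (.c 4 (.l
  514401371839352475240) .n) (.c 1 (.c 2 (.c 1 (.l 400730282883437302194) .n) .n) .n)) .n)))))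
  (.c 4 (.c 0 (.c 9 (.l 1082882726838773207040) .n) (.c 1 (.c 7 (.c 1 (.l 849441170617457272500)
  .n) .n) (.c 2 (.c 5 (.c 2 (.l 665450271067762667268) .n) (.c 6 (.c 0 (.c 1 (.l
  514548505866772832598) .n) .n) .n)) (.c 3 (.c 3 (.c 3 (.l 520343896903864247972) .n) (.c 4 (.c
  1 (.c 1 (.l 402486059145828283960) .n) .n) .n)) (.c 4 (.c 1 (.c 4 (.l 403110878937506052968)
  .n) (.c 2 (.c 2 (.c 1 (.l 314351242224778307356) .n) .n) (.c 3 (.c 0 (.c 2 (.l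
  153902863353239134814) .n) .n) .n))) (.c 5 (.c 0 (.c 3 (.c 1 (.l 242704757338931870078) .n)
  .n) .n) .n)))))) (.c 5 (.c 0 (.c 6 (.c 2 (.l 521467088258616521400) .n) .n) (.c 1 (.c 4 (.c 3
  (.l 407421531227546165680) .n) (.c 5 (.c 1 (.c 1 (.l 315606060596945580286) .n) .n) .n)) (.c 2
  (.c 2 (.c 4 (.l 314470058159740542360) .n) (.c 3 (.c 2 (.c 1 (.l 246204050971136142088) .n)
  .n) .n)) (.c 3 (.c 0 (.c 5 (.l 234491814678522626836) .n) (.c 1 (.c 3 (.c 1 (.l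
  189712365269339990834) .n) .n) .n)) .n)))) (.c 6 (.c 0 (.c 3 (.c 4 (.l 241889188162515938492)
  .n) .n) (.c 1 (.c 1 (.c 5 (.l 178022929786720770834) .n) .n) .n)) .n))))))) (.c 2 (.c 0 (.c 5
  (.c 7 (.l 1371574833932624470978) .n) (.c 6 (.c 5 (.c 1 (.l 1075944509226916503344) .n) .n)
  (.c 7 (.c 3 (.c 2 (.l 842715188775157015000) .n) (.c 4 (.c 0 (.c 1 (.l 652471102782120971868)
  .n) .n) .n)) (.c 8 (.c 1 (.c 3 (.l 659241645676744381608) .n) (.c 2 (.c 1 (.c 1 (.l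
  510128208141239828072) .n) .n) .n)) .n)))) (.c 1 (.c 3 (.c 8 (.l 1078711195599045650342) .n)
  (.c 4 (.c 6 (.c 1 (.l 845955243156536235412) .n) .n) (.c 5 (.c 4 (.c 2 (.l
  662773201572256652224) .n) (.c 5 (.c 0 (.c 1 (.l 512490327654691751690) .n) .n) .n)) (.c 6 (.c
  2 (.c 3 (.l 517859539301083382832) .n) (.c 3 (.c 1 (.c 1 (.l 400890254667578528250) .n) .n)
  .n)) (.c 7 (.c 0 (.c 4 (.l 401931607234260274710) .n) (.c 1 (.c 2 (.c 1 (.l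
  312681416936040018566) .n) .n) .n)) .n))))) (.c 2 (.c 1 (.c 9 (.l 847214848380496324656) .n)
  (.c 2 (.c 7 (.c 1 (.l 664351544985452477840) .n) .n) (.c 3 (.c 5 (.c 2 (.l
  520324180597545233716) .n) (.c 6 (.c 0 (.c 1 (.l 402177764088212380960) .n) .n) .n)) (.c 4 (.c
  3 (.c 3 (.l 406494257665289828624) .n) (.c 4 (.c 1 (.c 1 (.l 314463753844051559644) .n) .n)
  .n)) (.c 5 (.c 1 (.c 4 (.l 314193394496970085930) .n) (.c 2 (.c 2 (.c 1 (.l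
  245378716468066135488) .n) .n) .n)) .n))))) (.c 3 (.c 0 (.c 8 (.c 1 (.l 520372611711342410032)
  .n) .n) (.c 1 (.c 6 (.c 2 (.l 406905103505510428348) .n) .n) (.c 2 (.c 4 (.c 3 (.l
  317654446283425720724) .n) (.c 5 (.c 1 (.c 1 (.l 246319808532015311458) .n) .n) .n)) (.c 3 (.c
  2 (.c 4 (.l 244252942284021811260) .n) (.c 3 (.c 2 (.c 1 (.l 192008775138041101212) .n) .n)
  .n)) (.c 4 (.c 0 (.c 5 (.l 181993191575101007520) .n) (.c 1 (.c 3 (.c 1 (.l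
  147458390473162955258) .n) .n) .n)) .n))))) (.c 4 (.c 0 (.c 5 (.c 3 (.l 244548043991252261472)
  .n) .n) (.c 1 (.c 3 (.c 4 (.l 188017594464846444820) .n) (.c 4 (.c 2 (.c 1 (.l
  149469061154189143738) .n) .n) .n)) (.c 2 (.c 1 (.c 5 (.l 138568215266050824548) .n) (.c 2 (.c
  3 (.c 1 (.l 114224881857673010140) .n) .n) .n)) .n))) .n))))) (.c 3 (.c 0 (.c 2 (.c 9 (.l
  659933794128142309752) .n) (.c 3 (.c 7 (.c 1 (.l 518350323927151316032) .n) .n) (.c 4 (.c 5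
  (.c 2 (.l 405391964914905154580) .n) .n) (.c 5 (.c 3 (.c 3 (.l 314903313354401911946) .n) (.c
  4 (.c 1 (.c 1 (.l 245106707689478806490) .n) .n) .n)) (.c 6 (.c 1 (.c 4 (.l
  242522404222794732268) .n) .n) .n))))) (.c 1 (.c 0 (.c 10 (.l 512917141841037616704) .n) (.c 1
  (.c 8 (.c 1 (.l 404628662596656379812) .n) .n) (.c 2 (.c 6 (.c 2 (.l 316727221469206469328)
  .n) .n) (.c 3 (.c 4 (.c 3 (.l 246603697142341496684) .n) (.c 5 (.c 1 (.c 1 (.l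
  191956751053245544684) .n) .n) .n)) (.c 4 (.c 2 (.c 4 (.l 188401582030695260352) .n) (.c 3 (.c
  2 (.c 1 (.l 149286166362843616728) .n) .n) .n)) .n))))) (.c 2 (.c 0 (.c 7 (.c 2 (.l
  244073929862471921436) .n) .n) (.c 1 (.c 5 (.c 3 (.l 188417855651061983172) .n) .n) (.c 2 (.c
  3 (.c 4 (.l 143457171621945832796) .n) (.c 4 (.c 2 (.c 1 (.l 115761195242025846720) .n) .n)
  .n)) (.c 3 (.c 1 (.c 5 (.l 105314559116533533324) .n) .n) .n)))) (.c 3 (.c 0 (.c 4 (.c 4 (.l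
  104217489498138840936) .n) .n) (.c 1 (.c 2 (.c 5 (.l 76889030880955633642) .n) .n) .n)) .n))))
  (.c 4 (.c 0 (.c 1 (.c 7 (.c 2 (.l 183708419048627229960) .n) .n) (.c 2 (.c 5 (.c 3 (.l
  141990468149321321248) .n) .n) (.c 3 (.c 3 (.c 4 (.l 107559519860408281024) .n) .n) .n))) (.c
  1 (.c 1 (.c 4 (.c 4 (.l 75229787011280577168) .n) .n) .n) .n)) .n))))) (.c 2 (.c 0 (.c 0 (.c 7
  (.c 6 (.l 1345339478333032140396) .n) (.c 8 (.c 4 (.c 1 (.l 1055821473918540775856) .n) .n)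
  (.c 9 (.c 2 (.c 2 (.l 827109649688532272436) .n) .n) .n))) (.c 1 (.c 5 (.c 7 (.l
  1058953201988901125880) .n) (.c 6 (.c 5 (.c 1 (.l 830960432793833709964) .n) .n) (.c 7 (.c 3
  (.c 2 (.l 650827699538458942300) .n) .n) (.c 8 (.c 1 (.c 3 (.l 502726708193544563736) .n) .n)
  .n)))) (.c 2 (.c 3 (.c 8 (.l 831883876620840331940) .n) (.c 4 (.c 6 (.c 1 (.l
  652604023293378287636) .n) .n) (.c 5 (.c 4 (.c 2 (.l 511248951742355407456) .n) (.c 5 (.c 0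
  (.c 1 (.l 395355572132578058784) .n) .n) .n)) (.c 6 (.c 2 (.c 3 (.l 395260726305238029864) .n)
  (.c 3 (.c 1 (.c 1 (.l 309151888943264191608) .n) .n) .n)) (.c 7 (.c 0 (.c 4 (.l
  298818134996064465292) .n) .n) .n))))) (.c 3 (.c 1 (.c 9 (.l 652529236503539763056) .n) (.c 2
  (.c 7 (.c 1 (.l 511585757241376170924) .n) .n) (.c 3 (.c 5 (.c 2 (.l 400484514850492124220)
  .n) .n) (.c 4 (.c 3 (.c 3 (.l 310230710458484609760) .n) (.c 4 (.c 1 (.c 1 (.l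
  242344379847662670904) .n) .n) .n)) (.c 5 (.c 1 (.c 4 (.l 236192803506240530008) .n) (.c 2 (.c
  2 (.c 1 (.l 187492205190477470556) .n) .n) .n)) .n))))) (.c 4 (.c 0 (.c 8 (.c 1 (.l
  399885587150753654944) .n) .n) (.c 1 (.c 6 (.c 2 (.l 311633157130363221480) .n) .n) (.c 2 (.c
  4 (.c 3 (.l 241783212180700224724) .n) .n) (.c 3 (.c 2 (.c 4 (.l 183821205652588783256) .n)
  .n) .n)))) (.c 5 (.c 0 (.c 5 (.c 3 (.l 184933261214522251620) .n) .n) (.c 1 (.c 3 (.c 4 (.l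
  141944125816348342854) .n) .n) .n)) .n)))))) (.c 1 (.c 0 (.c 4 (.c 8 (.l
  646968138541911501896) .n) (.c 5 (.c 6 (.c 1 (.l 508758903457602965440) .n) .n) (.c 6 (.c 4
  (.c 2 (.l 396393518104086323904) .n) .n) (.c 7 (.c 2 (.c 3 (.l 306694480234527295064) .n) .n)
  .n)))) (.c 1 (.c 2 (.c 9 (.l 506436473072509525040) .n) (.c 3 (.c 7 (.c 1 (.l
  398371384228550549108) .n) .n) (.c 4 (.c 5 (.c 2 (.l 311164077437538227868) .n) .n) (.c 5 (.c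
  3 (.c 3 (.l 240499482133174271994) .n) (.c 4 (.c 1 (.c 1 (.l 188525411106070138860) .n) .n)
  .n)) (.c 6 (.c 1 (.c 4 (.l 182819334837550271234) .n) .n) .n))))) (.c 2 (.c 1 (.c 8 (.c 1 (.l
  310101617087730129608) .n) .n) (.c 2 (.c 6 (.c 2 (.l 242052420402397478196) .n) .n) (.c 3 (.c
  4 (.c 3 (.l 187356143011181936692) .n) (.c 5 (.c 1 (.c 1 (.l 147217891242359790688) .n) .n)
  .n)) (.c 4 (.c 2 (.c 4 (.l 141695672785974045532) .n) .n) .n)))) (.c 3 (.c 0 (.c 7 (.c 2 (.l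
  186449695138908731096) .n) .n) (.c 1 (.c 5 (.c 3 (.l 142798064565265575418) .n) .n) (.c 2 (.c
  3 (.c 4 (.l 107684507765595344448) .n) .n) (.c 3 (.c 1 (.c 5 (.l 78063295380078598256) .n) .n)
  .n)))) .n)))) (.c 2 (.c 0 (.c 2 (.c 8 (.c 1 (.l 237623053963848758432) .n) .n) (.c 3 (.c 6 (.c
  2 (.l 183981284682949143276) .n) .n) (.c 4 (.c 4 (.c 3 (.l 140297614069051561720) .n) .n) (.c
  5 (.c 2 (.c 4 (.l 105196256723298401616) .n) .n) .n)))) (.c 1 (.c 1 (.c 7 (.c 2 (.l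
  139828872314019742224) .n) .n) (.c 2 (.c 5 (.c 3 (.l 106779603701880058184) .n) .n) (.c 3 (.c
  3 (.c 4 (.l 79507022509223584360) .n) .n) .n))) (.c 2 (.c 1 (.c 4 (.c 4 (.l
  56573682013305120368) .n) .n) .n) .n))) .n))) (.c 3 (.c 0 (.c 0 (.c 4 (.c 7 (.c 1 (.l
  228768718056851010444) .n) .n) (.c 5 (.c 5 (.c 2 (.l 173406774745387943120) .n) .n) .n)) (.c 1
  (.c 3 (.c 6 (.c 2 (.l 136037254102540497708) .n) .n) (.c 4 (.c 4 (.c 3 (.l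
  103875038455472021264) .n) .n) .n)) .n)) .n) .n))))

noncomputable def t21_7 : Tr := (.c 0 (.c 0 (.c 0 (.c 7 (.c 7 (.l 7011067032000564232) .n) (.c 8
  (.c 5 (.c 1 (.l 5462745254544470640) .n) .n) (.c 9 (.c 3 (.c 2 (.l 4253380576620643008) .n)
  (.c 4 (.c 0 (.c 1 (.l 3276402235914953520) .n) .n) .n)) (.c 10 (.c 1 (.c 3 (.l
  3309385894300897920) .n) (.c 2 (.c 1 (.c 1 (.l 2547277340844733860) .n) .n) .n)) (.c 11 (.c 0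
  (.c 2 (.c 1 (.l 1978932463101718080) .n) .n) (.c 1 (.c 0 (.c 2 (.l 1520515646579364600) .n)
  .n) .n)) .n))))) (.c 1 (.c 5 (.c 8 (.l 5462744258122553932) .n) (.c 6 (.c 6 (.c 1 (.l
  4253603111620761096) .n) .n) (.c 7 (.c 4 (.c 2 (.l 3309740764104135124) .n) (.c 5 (.c 0 (.c 1
  (.l 2547958831220964370) .n) .n) .n)) (.c 8 (.c 2 (.c 3 (.l 2573445994959506880) .n) (.c 3 (.c
  1 (.c 1 (.l 1979585252873123066) .n) .n) .n)) (.c 9 (.c 0 (.c 4 (.l 1999458063327795264) .n)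
  (.c 1 (.c 2 (.c 1 (.l 1536828593955063576) .n) .n) (.c 2 (.c 0 (.c 2 (.l 1180061014317975132)
  .n) .n) .n))) (.c 10 (.c 0 (.c 1 (.c 2 (.l 914645749838294880) .n) .n) .n) .n)))))) (.c 2 (.c
  3 (.c 9 (.l 4253376933839332256) .n) (.c 4 (.c 7 (.c 1 (.l 3309738759065173952) .n) .n) (.c 5
  (.c 5 (.c 2 (.l 2573586150634757080) .n) (.c 6 (.c 0 (.c 1 (.l 1980014687531712640) .n) .n)
  .n)) (.c 6 (.c 3 (.c 3 (.l 1999685788498028964) .n) (.c 4 (.c 1 (.c 1 (.l 1537258376216608748)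
  .n) .n) (.c 5 (.c 0 (.c 0 (.c 1 (.l 885701372987303300) .n) .n) .n) .n))) (.c 7 (.c 1 (.c 4
  (.l 1552582293548888512) .n) (.c 2 (.c 2 (.c 1 (.l 1192581672964845240) .n) .n) (.c 3 (.c 0
  (.c 2 (.l 915127364432735448) .n) (.c 1 (.c 0 (.c 1 (.l 685949843883844040) .n) .n) .n)) .n)))
  (.c 8 (.c 0 (.c 3 (.c 1 (.l 924448170822183792) .n) .n) (.c 1 (.c 1 (.c 2 (.l
  708772797357313312) .n) .n) .n)) (.c 9 (.c 0 (.c 0 (.c 3 (.l 414634277289333624) .n) .n) .n)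
  .n))))))) (.c 3 (.c 1 (.c 10 (.l 3309375553441049316) .n) (.c 2 (.c 8 (.c 1 (.l
  2573439052187978580) .n) .n) (.c 3 (.c 6 (.c 2 (.l 1999681671505689588) .n) (.c 7 (.c 0 (.c 1
  (.l 1537508767973249882) .n) .n) .n)) (.c 4 (.c 4 (.c 3 (.l 1552671892497220664) .n) (.c 5 (.c
  1 (.c 1 (.l 1192851500663853712) .n) .n) .n)) (.c 5 (.c 2 (.c 4 (.l 1204653064312196328) .n)
  (.c 3 (.c 2 (.c 1 (.l 924721830493640650) .n) .n) (.c 4 (.c 0 (.c 2 (.l 709110655618628848)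
  .n) (.c 1 (.c 0 (.c 1 (.l 531210282129284798) .n) .n) .n)) .n))) (.c 6 (.c 0 (.c 5 (.l
  933815774257671432) .n) (.c 1 (.c 3 (.c 1 (.l 716278582864132986) .n) .n) (.c 2 (.c 1 (.c 2
  (.l 548793911205279552) .n) (.c 2 (.c 0 (.c 1 (.l 410748573442338096) .n) .n) .n)) .n))) (.c 7
  (.c 0 (.c 2 (.c 2 (.l 424355636231730460) .n) .n) (.c 1 (.c 0 (.c 3 (.l 320088213590891542)
  .n) .n) .n)) .n))))))) (.c 4 (.c 0 (.c 9 (.c 1 (.l 1999439412906148920) .n) .n) (.c 1 (.c 7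
  (.c 2 (.l 1552570404983238928) .n) (.c 8 (.c 0 (.c 1 (.l 1192974118016515640) .n) .n) .n)) (.c
  2 (.c 5 (.c 3 (.l 1204646065125755160) .n) (.c 6 (.c 1 (.c 1 (.l 924876523091029016) .n) .n)
  .n)) (.c 3 (.c 3 (.c 4 (.l 933950425262871408) .n) (.c 4 (.c 2 (.c 1 (.l 716448876599511608)
  .n) .n) (.c 5 (.c 0 (.c 2 (.l 549025908260426224) .n) (.c 1 (.c 0 (.c 1 (.l
  411040176804138400) .n) .n) .n)) .n))) (.c 4 (.c 1 (.c 5 (.l 723406980600294928) .n) (.c 2 (.c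
  3 (.c 1 (.l 554530724803538520) .n) .n) (.c 3 (.c 1 (.c 2 (.l 424571332987756080) .n) (.c 2
  (.c 0 (.c 1 (.l 317579200242884560) .n) .n) .n)) .n))) (.c 5 (.c 0 (.c 4 (.c 1 (.l
  428756466415506200) .n) .n) (.c 1 (.c 2 (.c 2 (.l 328039653433082560) .n) .n) (.c 2 (.c 0 (.c
  3 (.l 246360832462978880) .n) .n) .n))) (.c 6 (.c 0 (.c 1 (.c 3 (.l 183340406491732408) .n)
  .n) .n) .n))))))) (.c 5 (.c 0 (.c 6 (.c 3 (.l 933872866485132960) .n) (.c 7 (.c 1 (.c 1 (.l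
  716517864731787720) .n) .n) .n)) (.c 1 (.c 4 (.c 4 (.l 723477393271757392) .n) (.c 5 (.c 2 (.c
  1 (.l 554623826692318520) .n) .n) (.c 6 (.c 0 (.c 2 (.l 424724060347558640) .n) .n) .n))) (.c
  2 (.c 2 (.c 5 (.l 559911616333647016) .n) (.c 3 (.c 3 (.c 1 (.l 428942647937760048) .n) .n)
  (.c 4 (.c 1 (.c 2 (.l 328185935368154832) .n) .n) .n))) (.c 3 (.c 0 (.c 6 (.l
  431792666239996400) .n) (.c 1 (.c 4 (.c 1 (.l 331362752651075808) .n) .n) (.c 2 (.c 2 (.c 2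
  (.l 253363003080059248) .n) .n) (.c 3 (.c 0 (.c 3 (.l 189367654338725728) .n) .n) .n)))) (.c 4
  (.c 0 (.c 3 (.c 2 (.l 192616929792130352) .n) .n) (.c 1 (.c 1 (.c 3 (.l 140444901165289368)
  .n) .n) .n)) .n))))) (.c 6 (.c 0 (.c 3 (.c 5 (.l 432938017815572640) .n) (.c 4 (.c 3 (.c 1 (.l
  331494399602504672) .n) .n) (.c 5 (.c 1 (.c 2 (.l 253454320401584160) .n) .n) .n))) (.c 1 (.c
  1 (.c 6 (.l 333477878934074336) .n) (.c 2 (.c 4 (.c 1 (.l 255830876098711392) .n) .n) (.c 3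
  (.c 2 (.c 2 (.l 195503476907568736) .n) .n) (.c 4 (.c 0 (.c 3 (.l 145250835362346688) .n) .n)
  .n)))) (.c 2 (.c 0 (.c 5 (.c 1 (.l 195717984464257520) .n) .n) (.c 1 (.c 3 (.c 2 (.l
  148880387876481440) .n) .n) (.c 2 (.c 1 (.c 3 (.l 106636892458023024) .n) .n) .n))) .n))) (.c
  7 (.c 0 (.c 1 (.c 5 (.c 1 (.l 150416651286450640) .n) .n) (.c 2 (.c 3 (.c 2 (.l
  114939694511210576) .n) .n) .n)) .n) .n)))))))) (.c 1 (.c 0 (.c 4 (.c 9 (.l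
  3276395429041620336) .n) (.c 5 (.c 7 (.c 1 (.l 2547954437716012030) .n) .n) (.c 6 (.c 5 (.c 2
  (.l 1980012539457805980) .n) (.c 6 (.c 0 (.c 1 (.l 1522599806215352240) .n) .n) .n)) (.c 7 (.c
  3 (.c 3 (.l 1537509930595649598) .n) (.c 4 (.c 1 (.c 1 (.l 1181375458977808616) .n) .n) .n))
  (.c 8 (.c 1 (.c 4 (.l 1192967354870301776) .n) (.c 2 (.c 2 (.c 1 (.l 915900342654649728) .n)
  .n) (.c 3 (.c 0 (.c 2 (.l 701674378654439346) .n) .n) .n))) (.c 9 (.c 0 (.c 3 (.c 1 (.l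
  709494831504150672) .n) .n) (.c 1 (.c 1 (.c 2 (.l 543695786886837168) .n) .n) .n)) .n))))))
  (.c 1 (.c 2 (.c 10 (.l 2547258588996659208) .n) (.c 3 (.c 8 (.c 1 (.l 1979572230652437140) .n)
  .n) (.c 4 (.c 6 (.c 2 (.l 1537249665409711784) .n) (.c 7 (.c 0 (.c 1 (.l 1181370882773899146)
  .n) .n) .n)) (.c 5 (.c 4 (.c 3 (.l 1192847250233547688) .n) (.c 5 (.c 1 (.c 1 (.l
  915953436381444130) .n) .n) .n)) (.c 6 (.c 2 (.c 4 (.l 924869602167688900) .n) (.c 3 (.c 2 (.c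
  1 (.l 709596684282532296) .n) .n) (.c 4 (.c 0 (.c 2 (.l 543862927001826004) .n) .n) .n))) (.c
  7 (.c 0 (.c 5 (.l 716424055524864334) .n) (.c 1 (.c 3 (.c 1 (.l 549269993076245132) .n) .n)
  (.c 2 (.c 1 (.c 2 (.l 420359874065333998) .n) .n) .n))) (.c 8 (.c 0 (.c 2 (.c 2 (.l
  325010657903799664) .n) .n) (.c 1 (.c 0 (.c 3 (.l 238869861898865544) .n) .n) .n)) .n)))))))
  (.c 2 (.c 0 (.c 11 (.l 1978889582716602216) .n) (.c 1 (.c 9 (.c 1 (.l 1536797314852557654) .n)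
  .n) (.c 2 (.c 7 (.c 2 (.l 1192558843856925468) .n) (.c 8 (.c 0 (.c 1 (.l 915886707530553248)
  .n) .n) .n)) (.c 3 (.c 5 (.c 3 (.l 924706511115393106) .n) (.c 6 (.c 1 (.c 1 (.l
  709589751767486724) .n) .n) .n)) (.c 4 (.c 3 (.c 4 (.l 716432613567888076) .n) (.c 4 (.c 2 (.c
  1 (.l 549308885255515776) .n) .n) (.c 5 (.c 0 (.c 2 (.l 420722750027943728) .n) (.c 1 (.c 0
  (.c 1 (.l 314856858521769642) .n) .n) .n)) .n))) (.c 5 (.c 1 (.c 5 (.l 554513860930304838) .n)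
  (.c 2 (.c 3 (.c 1 (.l 424868472331211560) .n) .n) (.c 3 (.c 1 (.c 2 (.l 325126486537780020)
  .n) (.c 2 (.c 0 (.c 1 (.l 243095734725615068) .n) .n) .n)) .n))) (.c 6 (.c 0 (.c 4 (.c 1 (.l
  328244668295839388) .n) .n) (.c 1 (.c 2 (.c 2 (.l 250937809456877128) .n) .n) (.c 2 (.c 0 (.c
  3 (.l 186576506871015436) .n) .n) .n))) (.c 7 (.c 0 (.c 1 (.c 3 (.l 137521983758807142) .n)
  .n) .n) .n)))))))) (.c 3 (.c 0 (.c 8 (.c 2 (.l 924390387344367720) .n) (.c 9 (.c 0 (.c 1 (.l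
  709472365347686014) .n) .n) .n)) (.c 1 (.c 6 (.c 3 (.l 716236433313549068) .n) (.c 7 (.c 1 (.c
  1 (.l 549255661608716132) .n) .n) .n)) (.c 2 (.c 4 (.c 4 (.l 554490090114690568) .n) (.c 5 (.c
  2 (.c 1 (.l 424862683450727618) .n) .n) (.c 6 (.c 0 (.c 2 (.l 325182013627528220) .n) .n)
  .n))) (.c 3 (.c 2 (.c 5 (.l 428799297886399818) .n) (.c 3 (.c 3 (.c 1 (.l 328352315510382846)
  .n) .n) (.c 4 (.c 1 (.c 2 (.l 251091687188131500) .n) .n) .n))) (.c 4 (.c 0 (.c 6 (.l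
  330713498408174150) .n) (.c 1 (.c 4 (.c 1 (.l 253442544783091050) .n) .n) (.c 2 (.c 2 (.c 2
  (.l 193701409404226532) .n) .n) (.c 3 (.c 0 (.c 3 (.l 143652093890151806) .n) .n) .n)))) (.c 5
  (.c 0 (.c 3 (.c 2 (.l 147696251566672536) .n) .n) (.c 1 (.c 1 (.c 3 (.l 106542521791994308)
  .n) .n) .n)) .n)))))) (.c 4 (.c 0 (.c 5 (.c 4 (.l 428715879961893728) .n) (.c 6 (.c 2 (.c 1
  (.l 328306231203566800) .n) .n) (.c 7 (.c 0 (.c 2 (.l 250849833503777704) .n) .n) .n))) (.c 1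
  (.c 3 (.c 5 (.l 331234122036529672) .n) (.c 4 (.c 3 (.c 1 (.l 253519152856664120) .n) .n) (.c
  5 (.c 1 (.c 2 (.l 193685867890499336) .n) .n) .n))) (.c 2 (.c 1 (.c 6 (.l 255150936199194272)
  .n) (.c 2 (.c 4 (.c 1 (.l 195480470516856416) .n) .n) (.c 3 (.c 2 (.c 2 (.l
  149288179221478696) .n) .n) (.c 4 (.c 0 (.c 3 (.l 109185115960728408) .n) .n) .n)))) (.c 3 (.c
  0 (.c 5 (.c 1 (.l 149895644325817488) .n) .n) (.c 1 (.c 3 (.c 2 (.l 114026243141599024) .n)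
  .n) (.c 2 (.c 1 (.c 3 (.l 81137342577774160) .n) .n) .n))) (.c 4 (.c 0 (.c 2 (.c 3 (.l
  58351879163936512) .n) .n) .n) .n))))) (.c 5 (.c 0 (.c 2 (.c 6 (.l 196363943682311640) .n) (.c
  3 (.c 4 (.c 1 (.l 150569256559524560) .n) .n) (.c 4 (.c 2 (.c 2 (.l 114647224243937616) .n)
  .n) .n))) (.c 1 (.c 0 (.c 7 (.l 147786609104663280) .n) (.c 1 (.c 5 (.c 1 (.l
  115117602840761880) .n) .n) (.c 2 (.c 3 (.c 2 (.l 87546321349051464) .n) .n) (.c 3 (.c 1 (.c 3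
  (.l 60872660968227768) .n) .n) .n)))) (.c 2 (.c 0 (.c 4 (.c 2 (.l 64360359899399504) .n) .n)
  (.c 1 (.c 2 (.c 3 (.l 43258213243138568) .n) .n) .n)) .n))) .n)))))) (.c 2 (.c 0 (.c 1 (.c 11
  (.l 1520418993255355344) .n) (.c 2 (.c 9 (.c 1 (.l 1179996042416689560) .n) .n) (.c 3 (.c 7
  (.c 2 (.l 915082062765238256) .n) (.c 8 (.c 0 (.c 1 (.l 702429337389726728) .n) .n) .n)) (.c 4
  (.c 5 (.c 3 (.l 709078740597857064) .n) (.c 6 (.c 1 (.c 1 (.l 543846906255718760) .n) .n) .n))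
  (.c 5 (.c 3 (.c 4 (.l 548983467586404160) .n) (.c 4 (.c 2 (.c 1 (.l 420715010328453080) .n)
  .n) (.c 5 (.c 0 (.c 2 (.l 322060542280541520) .n) .n) .n))) (.c 6 (.c 1 (.c 5 (.l
  424582222429015880) .n) (.c 2 (.c 3 (.c 1 (.l 325169328688410476) .n) .n) (.c 3 (.c 1 (.c 2
  (.l 247858578542986076) .n) .n) .n))) (.c 7 (.c 0 (.c 4 (.c 1 (.l 251013144057079808) .n) .n)
  (.c 1 (.c 2 (.c 2 (.l 191221820331402440) .n) .n) (.c 2 (.c 0 (.c 3 (.l 138599230177880240)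
  .n) .n) .n))) .n))))))) (.c 1 (.c 0 (.c 10 (.c 1 (.l 914509449450404580) .n) .n) (.c 1 (.c 8
  (.c 2 (.l 708677188664889360) .n) (.c 9 (.c 0 (.c 1 (.l 543636176177301376) .n) .n) .n)) (.c 2
  (.c 6 (.c 3 (.l 548722830387284644) .n) (.c 7 (.c 1 (.c 1 (.l 420582878894838660) .n) .n) .n))
  (.c 3 (.c 4 (.c 4 (.l 424494484469958588) .n) (.c 5 (.c 2 (.c 1 (.l 325104092699139000) .n)
  .n) (.c 6 (.c 0 (.c 2 (.l 248508408575082780) .n) .n) .n))) (.c 4 (.c 2 (.c 5 (.l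
  327999073147676512) .n) (.c 3 (.c 3 (.c 1 (.l 251066614561918208) .n) .n) (.c 4 (.c 1 (.c 2
  (.l 191894613049772056) .n) .n) .n))) (.c 5 (.c 0 (.c 6 (.l 252620577595121700) .n) (.c 1 (.c
  4 (.c 1 (.l 193617977066730236) .n) .n) (.c 2 (.c 2 (.c 2 (.l 147618221577213200) .n) .n) (.c
  3 (.c 0 (.c 3 (.l 107733917274281762) .n) .n) .n)))) (.c 6 (.c 0 (.c 3 (.c 2 (.l
  113191145745739028) .n) .n) (.c 1 (.c 1 (.c 3 (.l 79540279306647740) .n) .n) .n)) .n)))))))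
  (.c 2 (.c 0 (.c 7 (.c 3 (.l 424083371354057996) .n) (.c 8 (.c 1 (.c 1 (.l 324885649390337112)
  .n) .n) .n)) (.c 1 (.c 5 (.c 4 (.l 327871554747153512) .n) (.c 6 (.c 2 (.c 1 (.l
  250966938653272628) .n) .n) (.c 7 (.c 0 (.c 2 (.l 191226197965725776) .n) .n) .n))) (.c 2 (.c
  3 (.c 5 (.l 253078858579182836) .n) (.c 4 (.c 3 (.c 1 (.l 193648652105260176) .n) .n) (.c 5
  (.c 1 (.c 2 (.l 147733650123427256) .n) .n) .n))) (.c 3 (.c 1 (.c 6 (.l 194666477095972588)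
  .n) (.c 2 (.c 4 (.c 1 (.l 149174167382372220) .n) .n) (.c 3 (.c 2 (.c 2 (.l
  113901456188324612) .n) .n) (.c 4 (.c 0 (.c 3 (.l 81515080606739928) .n) .n) .n)))) (.c 4 (.c
  0 (.c 5 (.c 1 (.l 114326509433384240) .n) .n) (.c 1 (.c 3 (.c 2 (.l 86829129452224568) .n) .n)
  (.c 2 (.c 1 (.c 3 (.l 61011241190735192) .n) .n) .n))) (.c 5 (.c 0 (.c 2 (.c 3 (.l
  45108043007812584) .n) .n) .n) .n)))))) (.c 3 (.c 0 (.c 4 (.c 5 (.l 194753666606906180) .n)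
  (.c 5 (.c 3 (.c 1 (.l 149120461255394860) .n) .n) (.c 6 (.c 1 (.c 2 (.l 112671352293352060)
  .n) .n) .n))) (.c 1 (.c 2 (.c 6 (.l 149536139427221124) .n) (.c 3 (.c 4 (.c 1 (.l
  114756177219396684) .n) .n) (.c 4 (.c 2 (.c 2 (.l 86990100235906156) .n) .n) (.c 5 (.c 0 (.c 3
  (.l 60602662204299020) .n) .n) .n)))) (.c 2 (.c 0 (.c 7 (.l 112780902904283784) .n) (.c 1 (.c
  5 (.c 1 (.l 87584410031017484) .n) .n) (.c 2 (.c 3 (.c 2 (.l 66184115516225292) .n) .n) (.c 3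
  (.c 1 (.c 3 (.l 45496662651497988) .n) .n) .n)))) (.c 3 (.c 0 (.c 4 (.c 2 (.l
  49444049012915872) .n) .n) (.c 1 (.c 2 (.c 3 (.l 33243023262973176) .n) .n) .n)) .n)))) (.c 4
  (.c 0 (.c 1 (.c 7 (.l 85842269709830720) .n) (.c 2 (.c 5 (.c 1 (.l 66867348680732784) .n) .n)
  (.c 3 (.c 3 (.c 2 (.l 49125599872870656) .n) .n) .n))) (.c 1 (.c 1 (.c 4 (.c 2 (.l
  35535270646895152) .n) .n) (.c 2 (.c 2 (.c 3 (.l 23632153440671488) .n) .n) .n)) .n)) .n)))))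
  (.c 3 (.c 0 (.c 0 (.c 9 (.c 2 (.l 418788489181447224) .n) .n) (.c 1 (.c 7 (.c 3 (.l
  324062255369837362) .n) (.c 8 (.c 1 (.c 1 (.l 248152693288483200) .n) .n) .n)) (.c 2 (.c 5 (.c
  4 (.l 250356271854497724) .n) (.c 6 (.c 2 (.c 1 (.l 191597204382646904) .n) .n) (.c 7 (.c 0
  (.c 2 (.l 146086068397114916) .n) .n) .n))) (.c 3 (.c 3 (.c 5 (.l 192969967196089104) .n) (.c
  4 (.c 3 (.c 1 (.l 147711527890121544) .n) .n) (.c 5 (.c 1 (.c 2 (.l 112624977557001772) .n)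
  .n) .n))) (.c 4 (.c 1 (.c 6 (.l 148156491422414740) .n) (.c 2 (.c 4 (.c 1 (.l
  113621838156685432) .n) .n) (.c 3 (.c 2 (.c 2 (.l 86094923536479592) .n) .n) (.c 4 (.c 0 (.c 3
  (.l 60537751073635332) .n) .n) .n)))) (.c 5 (.c 0 (.c 5 (.c 1 (.l 87012558221166580) .n) .n)
  (.c 1 (.c 3 (.c 2 (.l 65449054378558252) .n) .n) (.c 2 (.c 1 (.c 3 (.l 44774624848048462) .n)
  .n) .n))) .n)))))) (.c 1 (.c 0 (.c 6 (.c 4 (.l 192119032926237192) .n) (.c 7 (.c 2 (.c 1 (.l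
  147136180568084358) .n) .n) .n)) (.c 1 (.c 4 (.c 5 (.l 148259809077606192) .n) (.c 5 (.c 3 (.c
  1 (.l 113578681443517864) .n) .n) (.c 6 (.c 1 (.c 2 (.l 85879683262879580) .n) .n) .n))) (.c 2
  (.c 2 (.c 6 (.l 113505600696683766) .n) (.c 3 (.c 4 (.c 1 (.l 87265110453007886) .n) .n) (.c 4
  (.c 2 (.c 2 (.l 66113425980253540) .n) .n) (.c 5 (.c 0 (.c 3 (.l 44274906446304990) .n) .n)
  .n)))) (.c 3 (.c 0 (.c 7 (.l 85418054701653768) .n) (.c 1 (.c 5 (.c 1 (.l 66497150918895022)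
  .n) .n) (.c 2 (.c 3 (.c 2 (.l 49883864389217528) .n) .n) (.c 3 (.c 1 (.c 3 (.l
  33454661590269574) .n) .n) .n)))) (.c 4 (.c 0 (.c 4 (.c 2 (.l 37336157691536752) .n) .n) (.c 1
  (.c 2 (.c 3 (.l 24265004827849650) .n) .n) .n)) .n))))) (.c 2 (.c 0 (.c 3 (.c 6 (.l
  85551289498047516) .n) (.c 4 (.c 4 (.c 1 (.l 66438982833389340) .n) .n) (.c 5 (.c 2 (.c 2 (.l
  48782444117887672) .n) .n) .n))) (.c 1 (.c 1 (.c 7 (.l 64561819359174084) .n) (.c 2 (.c 5 (.c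
  1 (.l 50509270572933832) .n) .n) (.c 3 (.c 3 (.c 2 (.l 36598802927938092) .n) .n) (.c 4 (.c 1
  (.c 3 (.l 23786823360976176) .n) .n) .n)))) (.c 2 (.c 1 (.c 4 (.c 2 (.l 26434667502341924) .n)
  .n) (.c 2 (.c 2 (.c 3 (.l 17025222305170184) .n) .n) .n)) .n))) .n))) (.c 4 (.c 0 (.c 0 (.c 5
  (.c 5 (.l 83473673333475168) .n) .n) (.c 1 (.c 3 (.c 6 (.l 64480918030111080) .n) (.c 4 (.c 4
  (.c 1 (.l 50236737112841032) .n) .n) .n)) (.c 2 (.c 2 (.c 5 (.c 1 (.l 37941313571244040) .n)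
  .n) (.c 3 (.c 3 (.c 2 (.l 26723135130116952) .n) .n) .n)) .n))) .n) .n))))) (.c 1 (.c 0 (.c 0
  (.c 3 (.c 10 (.l 1471112927780621160) .n) (.c 4 (.c 8 (.c 1 (.l 1141885604338908208) .n) .n)
  (.c 5 (.c 6 (.c 2 (.l 885658518010237640) .n) (.c 7 (.c 0 (.c 1 (.l 680023182505496530) .n)
  .n) .n)) (.c 6 (.c 4 (.c 3 (.l 686388775742488056) .n) (.c 5 (.c 1 (.c 1 (.l
  526587367285932330) .n) .n) .n)) (.c 7 (.c 2 (.c 4 (.l 531468424197895536) .n) (.c 3 (.c 2 (.c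
  1 (.l 407436295822795280) .n) .n) (.c 4 (.c 0 (.c 2 (.l 310253003860224226) .n) .n) .n))) (.c
  8 (.c 0 (.c 5 (.l 410989208168358064) .n) (.c 1 (.c 3 (.c 1 (.l 314929374805917448) .n) .n)
  (.c 2 (.c 1 (.c 2 (.l 239648326626326032) .n) .n) .n))) .n)))))) (.c 1 (.c 1 (.c 11 (.l
  1140911514011734140) .n) (.c 2 (.c 9 (.c 1 (.l 884949961648593120) .n) .n) (.c 3 (.c 7 (.c 2
  (.l 685872446242704812) .n) (.c 8 (.c 0 (.c 1 (.l 526282443011122824) .n) .n) .n)) (.c 4 (.c 5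
  (.c 3 (.l 531156090198791444) .n) (.c 6 (.c 1 (.c 1 (.l 407227712105987648) .n) .n) .n)) (.c 5
  (.c 3 (.c 4 (.l 410945911125018816) .n) (.c 4 (.c 2 (.c 1 (.l 314840128562517252) .n) .n) (.c
  5 (.c 0 (.c 2 (.l 239887549274345600) .n) .n) .n))) (.c 6 (.c 1 (.c 5 (.l 317508055578433272)
  .n) (.c 2 (.c 3 (.c 1 (.l 243159311707585594) .n) .n) (.c 3 (.c 1 (.c 2 (.l
  184993801136636310) .n) .n) .n))) (.c 7 (.c 0 (.c 4 (.c 1 (.l 187489390725387736) .n) .n) (.c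
  1 (.c 2 (.c 2 (.l 141528703165150884) .n) .n) (.c 2 (.c 0 (.c 3 (.l 96806448047741776) .n) .n)
  .n))) .n))))))) (.c 2 (.c 0 (.c 10 (.c 1 (.l 685224800044864356) .n) .n) (.c 1 (.c 8 (.c 2 (.l
  530594935713622528) .n) (.c 9 (.c 0 (.c 1 (.l 406853248684407366) .n) .n) .n)) (.c 2 (.c 6 (.c
  3 (.l 410643177995311608) .n) (.c 7 (.c 1 (.c 1 (.l 314631627570384362) .n) .n) .n)) (.c 3 (.c
  4 (.c 4 (.l 317440231776442928) .n) (.c 5 (.c 2 (.c 1 (.l 243059827730240454) .n) .n) (.c 6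
  (.c 0 (.c 2 (.l 185175413641191692) .n) .n) .n))) (.c 4 (.c 2 (.c 5 (.l 244963427054913740)
  .n) (.c 3 (.c 3 (.c 1 (.l 187562265235307774) .n) .n) (.c 4 (.c 1 (.c 2 (.l
  142970549327823188) .n) .n) .n))) (.c 5 (.c 0 (.c 6 (.l 188039857508536558) .n) (.c 1 (.c 4
  (.c 1 (.l 144438882089911834) .n) .n) (.c 2 (.c 2 (.c 2 (.l 109469733615181376) .n) .n) (.c 3
  (.c 0 (.c 3 (.l 76369937263417930) .n) .n) .n)))) (.c 6 (.c 0 (.c 3 (.c 2 (.l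
  82630999594642192) .n) .n) (.c 1 (.c 1 (.c 3 (.l 55464631359961052) .n) .n) .n)) .n))))))) (.c
  3 (.c 0 (.c 7 (.c 3 (.l 316807768645003692) .n) (.c 8 (.c 1 (.c 1 (.l 242562902087537948) .n)
  .n) .n)) (.c 1 (.c 5 (.c 4 (.l 244894921795762074) .n) (.c 6 (.c 2 (.c 1 (.l
  187434829889241188) .n) .n) (.c 7 (.c 0 (.c 2 (.l 141477390727028846) .n) .n) .n))) (.c 2 (.c
  3 (.c 5 (.l 188741099260975698) .n) (.c 4 (.c 3 (.c 1 (.l 144510868229829540) .n) .n) (.c 5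
  (.c 1 (.c 2 (.l 109519226477945428) .n) .n) .n))) (.c 3 (.c 1 (.c 6 (.l 144556336566384160)
  .n) (.c 2 (.c 4 (.c 1 (.l 111140060652889228) .n) .n) (.c 3 (.c 2 (.c 2 (.l 83969498731662004)
  .n) .n) (.c 4 (.c 0 (.c 3 (.l 58536662163116024) .n) .n) .n)))) (.c 4 (.c 0 (.c 5 (.c 1 (.l
  84611335322805870) .n) .n) (.c 1 (.c 3 (.c 2 (.l 63374361289679626) .n) .n) (.c 2 (.c 1 (.c 3
  (.l 43241084843043482) .n) .n) .n))) .n))))) (.c 4 (.c 0 (.c 4 (.c 5 (.l 144804308431677496)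
  .n) (.c 5 (.c 3 (.c 1 (.l 111095339666668088) .n) .n) (.c 6 (.c 1 (.c 2 (.l 82747005243940072)
  .n) .n) .n))) (.c 1 (.c 2 (.c 6 (.l 110575423558750672) .n) (.c 3 (.c 4 (.c 1 (.l
  85303486818024744) .n) .n) (.c 4 (.c 2 (.c 2 (.l 63216573477963720) .n) .n) .n))) (.c 2 (.c 0
  (.c 7 (.l 83437163062747720) .n) (.c 1 (.c 5 (.c 1 (.l 64765703077368264) .n) .n) (.c 2 (.c 3
  (.c 2 (.l 47556341447993480) .n) .n) (.c 3 (.c 1 (.c 3 (.l 32233969010916136) .n) .n) .n))))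
  .n))) .n))))) (.c 1 (.c 0 (.c 0 (.c 12 (.l 676328016353870232) .n) (.c 1 (.c 10 (.c 1 (.l
  524075830705730082) .n) .n) (.c 2 (.c 8 (.c 2 (.l 405608740712009912) .n) (.c 9 (.c 0 (.c 1
  (.l 310881183079513896) .n) .n) .n)) (.c 3 (.c 6 (.c 3 (.l 313706028300609912) .n) (.c 7 (.c 1
  (.c 1 (.l 240270601866995070) .n) .n) .n)) (.c 4 (.c 4 (.c 4 (.l 242280758860785760) .n) (.c 5
  (.c 2 (.c 1 (.l 185484602241964076) .n) .n) (.c 6 (.c 0 (.c 2 (.l 137738897964245556) .n) .n)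
  .n))) (.c 5 (.c 2 (.c 5 (.l 186686512635528072) .n) (.c 3 (.c 3 (.c 1 (.l 142991797012576404)
  .n) .n) (.c 4 (.c 1 (.c 2 (.l 106438633446529054) .n) .n) .n))) (.c 6 (.c 0 (.c 6 (.l
  142864533694756406) .n) (.c 1 (.c 4 (.c 1 (.l 109872299673524792) .n) .n) (.c 2 (.c 2 (.c 2
  (.l 81933663394172908) .n) .n) .n))) .n))))))) (.c 1 (.c 0 (.c 9 (.c 2 (.l 312794607953347296)
  .n) (.c 10 (.c 0 (.c 1 (.l 239489203473229770) .n) .n) .n)) (.c 1 (.c 7 (.c 3 (.l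
  241733103300647322) .n) (.c 8 (.c 1 (.c 1 (.l 185029729582630240) .n) .n) .n)) (.c 2 (.c 5 (.c
  4 (.l 186663271827234018) .n) (.c 6 (.c 2 (.c 1 (.l 142869650662684332) .n) .n) (.c 7 (.c 0
  (.c 2 (.l 105773335658114474) .n) .n) .n))) (.c 3 (.c 3 (.c 5 (.l 143608534759726428) .n) (.c
  4 (.c 3 (.c 1 (.l 110034224286963582) .n) .n) (.c 5 (.c 1 (.c 2 (.l 82046876177844066) .n) .n)
  .n))) (.c 4 (.c 1 (.c 6 (.l 109818228066151020) .n) (.c 2 (.c 4 (.c 1 (.l 84466719464535072)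
  .n) .n) (.c 3 (.c 2 (.c 2 (.l 63136745109376250) .n) .n) (.c 4 (.c 0 (.c 3 (.l
  42376895057587038) .n) .n) .n)))) (.c 5 (.c 0 (.c 5 (.c 1 (.l 63988343308354740) .n) .n) (.c 1
  (.c 3 (.c 2 (.l 47449201937789176) .n) .n) (.c 2 (.c 1 (.c 3 (.l 31530794372821734) .n) .n)
  .n))) .n)))))) (.c 2 (.c 0 (.c 6 (.c 4 (.l 142836836632380772) .n) (.c 7 (.c 2 (.c 1 (.l
  109368291350784004) .n) .n) .n)) (.c 1 (.c 4 (.c 5 (.l 109995934574093150) .n) (.c 5 (.c 3 (.c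
  1 (.l 84466105180403382) .n) .n) (.c 6 (.c 1 (.c 2 (.l 62158055919626354) .n) .n) .n))) (.c 2
  (.c 2 (.c 6 (.l 83630526323868720) .n) (.c 3 (.c 4 (.c 1 (.l 64710164022725114) .n) .n) (.c 4
  (.c 2 (.c 2 (.l 47919180931876908) .n) .n) (.c 5 (.c 0 (.c 3 (.l 32028200290474010) .n) .n)
  .n)))) (.c 3 (.c 0 (.c 7 (.l 62671656695423248) .n) (.c 1 (.c 5 (.c 1 (.l 48936730805533514)
  .n) .n) (.c 2 (.c 3 (.c 2 (.l 36006002502319576) .n) .n) (.c 3 (.c 1 (.c 3 (.l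
  24136463581747810) .n) .n) .n)))) (.c 4 (.c 0 (.c 4 (.c 2 (.l 26014671735325712) .n) .n) (.c 1
  (.c 2 (.c 3 (.l 17112989735516198) .n) .n) .n)) .n))))) (.c 3 (.c 0 (.c 3 (.c 6 (.l
  62518709497596004) .n) (.c 4 (.c 4 (.c 1 (.l 49000244637281656) .n) .n) (.c 5 (.c 2 (.c 2 (.l
  35081340279701336) .n) .n) .n))) (.c 1 (.c 1 (.c 7 (.l 46296958160832720) .n) (.c 2 (.c 5 (.c
  1 (.l 36830496199187470) .n) .n) (.c 3 (.c 3 (.c 2 (.l 26108866094781622) .n) .n) .n))) (.c 2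
  (.c 1 (.c 4 (.c 2 (.l 18673661553965866) .n) .n) .n) .n))) .n)))) (.c 2 (.c 0 (.c 0 (.c 8 (.c
  3 (.l 139851504559642792) .n) .n) (.c 1 (.c 6 (.c 4 (.l 108040327361926328) .n) (.c 7 (.c 2
  (.c 1 (.l 82906354233039302) .n) .n) .n)) (.c 2 (.c 4 (.c 5 (.l 82868927736058612) .n) (.c 5
  (.c 3 (.c 1 (.l 63956688784285944) .n) .n) (.c 6 (.c 1 (.c 2 (.l 45414156451941948) .n) .n)
  .n))) (.c 3 (.c 2 (.c 6 (.l 62811882498701014) .n) (.c 3 (.c 4 (.c 1 (.l 48766386922457922)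
  .n) .n) (.c 4 (.c 2 (.c 2 (.l 34860342749509720) .n) .n) .n))) (.c 4 (.c 1 (.c 5 (.c 1 (.l
  36738413893056716) .n) .n) (.c 2 (.c 3 (.c 2 (.l 26040485701332588) .n) .n) .n)) .n))))) (.c 1
  (.c 0 (.c 5 (.c 5 (.l 61636298887961640) .n) (.c 6 (.c 3 (.c 1 (.l 47914904159491284) .n) .n)
  .n)) (.c 1 (.c 3 (.c 6 (.l 46547364782678916) .n) (.c 4 (.c 4 (.c 1 (.l 36784255589490332) .n)
  .n) (.c 5 (.c 2 (.c 2 (.l 25826878287654000) .n) .n) .n))) (.c 2 (.c 1 (.c 7 (.l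
  34097225399504322) .n) (.c 2 (.c 5 (.c 1 (.l 27403097481384276) .n) .n) (.c 3 (.c 3 (.c 2 (.l
  19091808660302742) .n) .n) .n))) .n))) .n)) .n))) (.c 2 (.c 0 (.c 0 (.c 1 (.c 9 (.c 2 (.l
  173562086373248496) .n) .n) (.c 2 (.c 7 (.c 3 (.l 133903871242363600) .n) (.c 8 (.c 1 (.c 1
  (.l 103386081766548000) .n) .n) .n)) (.c 3 (.c 5 (.c 4 (.l 103214354627077560) .n) (.c 6 (.c 2
  (.c 1 (.l 79761070627355080) .n) .n) .n)) (.c 4 (.c 3 (.c 5 (.l 79048994443539224) .n) (.c 4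
  (.c 3 (.c 1 (.l 61284508377256176) .n) .n) .n)) (.c 5 (.c 2 (.c 4 (.c 1 (.l 46691246376069648)
  .n) .n) .n) .n))))) (.c 1 (.c 0 (.c 8 (.c 3 (.l 102175973031363280) .n) .n) (.c 1 (.c 6 (.c 4
  (.l 78719330545438832) .n) (.c 7 (.c 2 (.c 1 (.l 60836386910517036) .n) .n) .n)) (.c 2 (.c 4
  (.c 5 (.l 60298339756071944) .n) (.c 5 (.c 3 (.c 1 (.l 46876372727434084) .n) .n) .n)) (.c 3
  (.c 2 (.c 6 (.l 45570572327978424) .n) (.c 3 (.c 4 (.c 1 (.l 35651811801283452) .n) .n) (.c 4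
  (.c 2 (.c 2 (.l 23422821458659400) .n) .n) .n))) .n)))) (.c 2 (.c 0 (.c 5 (.c 5 (.l
  44893915150324724) .n) .n) (.c 1 (.c 3 (.c 6 (.l 33811638461804216) .n) (.c 4 (.c 4 (.c 1 (.l
  26877802121744968) .n) .n) .n)) .n)) .n))) (.c 1 (.c 0 (.c 1 (.c 5 (.c 5 (.l
  32230380847213836) .n) .n) .n) .n) .n)) .n)))

noncomputable def t21_8 : Tr := (.c 0 (.c 0 (.c 0 (.c 0 (.c 13 (.l 9307700590224960) .n) (.c 1
  (.c 11 (.c 1 (.l 7153455952262400) .n) .n) (.c 2 (.c 9 (.c 2 (.l 5493083324963808) .n) (.c 10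
  (.c 0 (.c 1 (.l 4189260580469700) .n) .n) .n)) (.c 3 (.c 7 (.c 3 (.l 4214380204847988) .n) (.c
  8 (.c 1 (.c 1 (.l 3211202977962720) .n) .n) (.c 9 (.c 0 (.c 0 (.c 1 (.l 1822061109713164) .n)
  .n) .n) .n))) (.c 4 (.c 5 (.c 4 (.l 3230415666842664) .n) (.c 6 (.c 2 (.c 1 (.l
  2459210555530568) .n) .n) (.c 7 (.c 0 (.c 2 (.l 1870048174245488) .n) (.c 1 (.c 0 (.c 1 (.l
  1392781030869728) .n) .n) .n)) .n))) (.c 5 (.c 3 (.c 5 (.l 2473885477929960) .n) (.c 4 (.c 3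
  (.c 1 (.l 1881525134732160) .n) .n) (.c 5 (.c 1 (.c 2 (.l 1429381966152080) .n) (.c 2 (.c 0
  (.c 1 (.l 1063580623889920) .n) .n) .n)) (.c 6 (.c 0 (.c 1 (.c 1 (.l 805953104004000) .n) .n)
  .n) .n)))) (.c 6 (.c 1 (.c 6 (.l 1892713620936256) .n) (.c 2 (.c 4 (.c 1 (.l 1438131950580688)
  .n) .n) (.c 3 (.c 2 (.c 2 (.l 1091457462337824) .n) (.c 3 (.c 0 (.c 1 (.l 811358356671456) .n)
  .n) .n)) (.c 4 (.c 0 (.c 3 (.l 827356381892064) .n) (.c 1 (.c 1 (.c 1 (.l 614180348650880) .n)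
  .n) .n)) (.c 5 (.c 0 (.c 0 (.c 2 (.l 327130762833120) .n) .n) .n) .n))))) (.c 7 (.c 0 (.c 5
  (.c 1 (.l 1098111017790640) .n) .n) (.c 1 (.c 3 (.c 2 (.l 832558698437536) .n) (.c 4 (.c 0 (.c
  1 (.l 618295209535696) .n) .n) .n)) (.c 2 (.c 1 (.c 3 (.l 630440520938816) .n) (.c 2 (.c 1 (.c
  1 (.l 467530013007680) .n) .n) .n)) (.c 3 (.c 0 (.c 2 (.c 1 (.l 353056890083296) .n) .n) (.c 1
  (.c 0 (.c 2 (.l 235659333212128) .n) .n) .n)) .n)))) (.c 8 (.c 0 (.c 2 (.c 3 (.l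
  479862668766208) .n) (.c 3 (.c 1 (.c 1 (.l 355496044387456) .n) .n) .n)) (.c 1 (.c 0 (.c 4 (.l
  361958613567488) .n) (.c 1 (.c 2 (.c 1 (.l 268144395299200) .n) .n) .n)) .n)) .n))))))))) (.c
  1 (.c 0 (.c 10 (.c 2 (.l 4189260415230240) .n) (.c 11 (.c 0 (.c 1 (.l 3192567242614530) .n)
  .n) .n)) (.c 1 (.c 8 (.c 3 (.l 3211202562915704) .n) (.c 9 (.c 1 (.c 1 (.l 2444985226033320)
  .n) .n) (.c 10 (.c 0 (.c 0 (.c 1 (.l 1385368211778310) .n) .n) .n) .n))) (.c 2 (.c 6 (.c 4 (.l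
  2459209805315328) .n) (.c 7 (.c 2 (.c 1 (.l 1870682209601734) .n) .n) (.c 8 (.c 0 (.c 2 (.l
  1421402394245184) .n) (.c 1 (.c 0 (.c 1 (.l 1057958601959088) .n) .n) .n)) .n))) (.c 3 (.c 4
  (.c 5 (.l 1881523690130926) .n) (.c 5 (.c 3 (.c 1 (.l 1429879989997138) .n) .n) (.c 6 (.c 1
  (.c 2 (.l 1085399663183388) .n) (.c 2 (.c 0 (.c 1 (.l 807102406738218) .n) .n) .n)) (.c 7 (.c
  0 (.c 1 (.c 1 (.l 611090519048176) .n) .n) .n) .n)))) (.c 4 (.c 2 (.c 6 (.l 1438125174929096)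
  .n) (.c 3 (.c 4 (.c 1 (.l 1091848307795136) .n) .n) (.c 4 (.c 2 (.c 2 (.l 827968333002560) .n)
  (.c 3 (.c 0 (.c 1 (.l 615079882384752) .n) .n) .n)) (.c 5 (.c 0 (.c 3 (.l 627069935001872) .n)
  (.c 1 (.c 1 (.c 1 (.l 465203520918120) .n) .n) .n)) (.c 6 (.c 0 (.c 0 (.c 2 (.l
  245483387397368) .n) .n) .n) .n))))) (.c 5 (.c 0 (.c 7 (.l 1098086574128640) .n) (.c 1 (.c 5
  (.c 1 (.l 832857927753680) .n) .n) (.c 2 (.c 3 (.c 2 (.l 630920614937584) .n) (.c 4 (.c 0 (.c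
  1 (.l 468233567764032) .n) .n) .n)) (.c 3 (.c 1 (.c 3 (.l 477333752698440) .n) (.c 2 (.c 1 (.c
  1 (.l 353748591060088) .n) .n) .n)) (.c 4 (.c 0 (.c 2 (.c 1 (.l 266877838891184) .n) .n) (.c 1
  (.c 0 (.c 2 (.l 187786965635168) .n) .n) .n)) .n))))) (.c 6 (.c 0 (.c 4 (.c 2 (.l
  480224618617056) .n) (.c 5 (.c 0 (.c 1 (.l 356038700112720) .n) .n) .n)) (.c 1 (.c 2 (.c 3 (.l
  362934551654672) .n) (.c 3 (.c 1 (.c 1 (.l 268685229728608) .n) .n) .n)) (.c 2 (.c 0 (.c 4 (.l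
  273296638436352) .n) (.c 1 (.c 2 (.c 1 (.l 202471541247600) .n) .n) (.c 2 (.c 0 (.c 2 (.l
  138208175237904) .n) .n) .n))) (.c 3 (.c 0 (.c 1 (.c 2 (.l 78077000253536) .n) .n) .n) .n))))
  (.c 7 (.c 0 (.c 1 (.c 4 (.l 206941728596848) .n) (.c 2 (.c 2 (.c 1 (.l 153414639223440) .n)
  .n) .n)) .n) .n)))))))) (.c 2 (.c 0 (.c 7 (.c 4 (.l 1870045735172384) .n) (.c 8 (.c 2 (.c 1
  (.l 1421401338324896) .n) .n) (.c 9 (.c 0 (.c 2 (.l 1079161250253312) .n) (.c 1 (.c 0 (.c 1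
  (.l 802705458485904) .n) .n) .n)) .n))) (.c 1 (.c 5 (.c 5 (.l 1429377319660580) .n) (.c 6 (.c
  3 (.c 1 (.l 1085398090043184) .n) .n) (.c 7 (.c 1 (.c 2 (.l 823234059530448) .n) (.c 2 (.c 0
  (.c 1 (.l 611752402459708) .n) .n) .n)) (.c 8 (.c 0 (.c 1 (.c 1 (.l 462788025306764) .n) .n)
  .n) .n)))) (.c 2 (.c 3 (.c 6 (.l 1091444511995468) .n) (.c 4 (.c 4 (.c 1 (.l 827965380780900)
  .n) .n) (.c 5 (.c 2 (.c 2 (.l 627334629140576) .n) (.c 3 (.c 0 (.c 1 (.l 465720569654388) .n)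
  .n) .n)) (.c 6 (.c 0 (.c 3 (.l 474727739549976) .n) (.c 1 (.c 1 (.c 1 (.l 351930426709020) .n)
  .n) .n)) (.c 7 (.c 0 (.c 0 (.c 2 (.l 179475355526872) .n) .n) .n) .n))))) (.c 3 (.c 1 (.c 7
  (.l 832518049145712) .n) (.c 2 (.c 5 (.c 1 (.l 630909327782244) .n) .n) (.c 3 (.c 3 (.c 2 (.l
  477527737665792) .n) (.c 4 (.c 0 (.c 1 (.l 354151996739124) .n) .n) .n)) (.c 4 (.c 1 (.c 3 (.l
  360968743918660) .n) (.c 2 (.c 1 (.c 1 (.l 267320289381144) .n) .n) .n)) (.c 5 (.c 0 (.c 2 (.c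
  1 (.l 201499519554656) .n) .n) (.c 1 (.c 0 (.c 2 (.l 141755584963440) .n) .n) .n)) .n))))) (.c
  4 (.c 0 (.c 6 (.c 1 (.l 480188502090768) .n) .n) (.c 1 (.c 4 (.c 2 (.l 363068576844448) .n)
  (.c 5 (.c 0 (.c 1 (.l 268992726988192) .n) .n) .n)) (.c 2 (.c 2 (.c 3 (.l 274146216946688) .n)
  (.c 3 (.c 1 (.c 1 (.l 202809786325216) .n) .n) .n)) (.c 3 (.c 0 (.c 4 (.l 206027083697152) .n)
  (.c 1 (.c 2 (.c 1 (.l 152689290568112) .n) .n) (.c 2 (.c 0 (.c 2 (.l 108307622554816) .n) .n)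
  .n))) (.c 4 (.c 0 (.c 1 (.c 2 (.l 61757815018432) .n) .n) .n) .n))))) (.c 5 (.c 0 (.c 3 (.c 3
  (.l 207861763507568) .n) (.c 4 (.c 1 (.c 1 (.l 153665636998768) .n) .n) .n)) (.c 1 (.c 1 (.c 4
  (.l 155870515442848) .n) (.c 2 (.c 2 (.c 1 (.l 115552704203936) .n) .n) (.c 3 (.c 0 (.c 2 (.l
  75241260143680) .n) .n) .n))) (.c 2 (.c 0 (.c 3 (.c 1 (.l 86356327091760) .n) .n) (.c 1 (.c 1
  (.c 2 (.l 45024698811712) .n) .n) .n)) .n))) .n)))))) (.c 3 (.c 0 (.c 4 (.c 6 (.l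
  827331449378632) .n) (.c 5 (.c 4 (.c 1 (.l 627088137707944) .n) .n) (.c 6 (.c 2 (.c 2 (.l
  474726588681816) .n) (.c 3 (.c 0 (.c 1 (.l 352188028772860) .n) .n) .n)) (.c 7 (.c 0 (.c 3 (.l
  358903007184036) .n) (.c 1 (.c 1 (.c 1 (.l 265899325580190) .n) .n) .n)) .n)))) (.c 1 (.c 2
  (.c 7 (.l 630374870294344) .n) (.c 3 (.c 5 (.c 1 (.l 477320433074110) .n) .n) (.c 4 (.c 3 (.c
  2 (.l 360963951101676) .n) (.c 4 (.c 0 (.c 1 (.l 267519228886344) .n) .n) .n)) (.c 5 (.c 1 (.c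
  3 (.l 272602213171042) .n) (.c 2 (.c 1 (.c 1 (.l 201743368857854) .n) .n) .n)) (.c 6 (.c 0 (.c
  2 (.c 1 (.l 151919811811180) .n) .n) (.c 1 (.c 0 (.c 2 (.l 94217911644850) .n) .n) .n))
  .n))))) (.c 2 (.c 0 (.c 8 (.l 479667495162100) .n) (.c 1 (.c 6 (.c 1 (.l 362874261533788) .n)
  .n) (.c 2 (.c 4 (.c 2 (.l 274128061138792) .n) (.c 5 (.c 0 (.c 1 (.l 202956268583672) .n) .n)
  .n)) (.c 3 (.c 2 (.c 3 (.l 206795148973796) .n) (.c 3 (.c 1 (.c 1 (.l 152878642880084) .n) .n)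
  .n)) (.c 4 (.c 0 (.c 4 (.l 155071811175752) .n) (.c 1 (.c 2 (.c 1 (.l 114984826353996) .n) .n)
  (.c 2 (.c 0 (.c 2 (.l 75712558679384) .n) .n) .n))) .n))))) (.c 3 (.c 0 (.c 5 (.c 2 (.l
  207866027402320) .n) (.c 6 (.c 0 (.c 1 (.l 153749943624896) .n) .n) .n)) (.c 1 (.c 3 (.c 3 (.l
  156603927415364) .n) (.c 4 (.c 1 (.c 1 (.l 115690905767380) .n) .n) .n)) (.c 2 (.c 1 (.c 4 (.l
  117058573001144) .n) (.c 2 (.c 2 (.c 1 (.l 86911256879828) .n) .n) (.c 3 (.c 0 (.c 2 (.l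
  55283765317140) .n) .n) .n))) (.c 3 (.c 0 (.c 3 (.c 1 (.l 64703255824404) .n) .n) (.c 1 (.c 1
  (.c 2 (.l 34169344915044) .n) .n) .n)) .n)))) (.c 4 (.c 0 (.c 2 (.c 4 (.l 87651271183440) .n)
  (.c 3 (.c 2 (.c 1 (.l 65520306299200) .n) .n) .n)) (.c 1 (.c 0 (.c 5 (.l 63514867968880) .n)
  (.c 1 (.c 3 (.c 1 (.l 48605622926096) .n) .n) .n)) .n)) .n))))) (.c 4 (.c 0 (.c 1 (.c 8 (.l
  361898187765016) .n) (.c 2 (.c 6 (.c 1 (.l 273768335502864) .n) .n) (.c 3 (.c 4 (.c 2 (.l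
  206643208647248) .n) (.c 5 (.c 0 (.c 1 (.l 152909717050112) .n) .n) .n)) (.c 4 (.c 2 (.c 3 (.l
  155736315347968) .n) (.c 3 (.c 1 (.c 1 (.l 115075024627384) .n) .n) .n)) (.c 5 (.c 0 (.c 4 (.l
  116148063514160) .n) (.c 1 (.c 2 (.c 1 (.l 86459670928768) .n) .n) .n)) .n))))) (.c 1 (.c 0
  (.c 7 (.c 1 (.l 207360104690480) .n) .n) (.c 1 (.c 5 (.c 2 (.l 156481271585920) .n) (.c 6 (.c
  0 (.c 1 (.l 115681835958880) .n) .n) .n)) (.c 2 (.c 3 (.c 3 (.l 117770139971608) .n) (.c 4 (.c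
  1 (.c 1 (.l 86969475052600) .n) .n) .n)) (.c 3 (.c 1 (.c 4 (.l 87579907415176) .n) (.c 2 (.c 2
  (.c 1 (.l 65266971807960) .n) .n) .n)) .n)))) (.c 2 (.c 0 (.c 4 (.c 3 (.l 88555704576496) .n)
  (.c 5 (.c 1 (.c 1 (.l 65582229282880) .n) .n) .n)) (.c 1 (.c 2 (.c 4 (.l 65614290705184) .n)
  (.c 3 (.c 2 (.c 1 (.l 49134868455968) .n) .n) .n)) (.c 2 (.c 0 (.c 5 (.l 47528481661344) .n)
  (.c 1 (.c 3 (.c 1 (.l 36249704950272) .n) .n) .n)) .n))) .n))) (.c 5 (.c 0 (.c 0 (.c 6 (.c 2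
  (.l 88172916204000) .n) .n) (.c 1 (.c 4 (.c 3 (.l 66275476612152) .n) .n) (.c 2 (.c 2 (.c 4
  (.l 48427151898352) .n) .n) .n))) (.c 1 (.c 0 (.c 3 (.c 4 (.l 34817544507440) .n) .n) .n) .n))
  .n)))))) (.c 1 (.c 0 (.c 0 (.c 9 (.c 3 (.l 1822060417332792) .n) (.c 10 (.c 1 (.c 1 (.l
  1385367853317840) .n) .n) .n)) (.c 1 (.c 7 (.c 4 (.l 1392778676474150) .n) (.c 8 (.c 2 (.c 1
  (.l 1057957657574392) .n) .n) (.c 9 (.c 0 (.c 2 (.l 802705292255760) .n) (.c 1 (.c 0 (.c 1 (.l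
  596808010685256) .n) .n) .n)) .n))) (.c 2 (.c 5 (.c 5 (.l 1063573659358938) .n) (.c 6 (.c 3
  (.c 1 (.l 807100457685272) .n) .n) (.c 7 (.c 1 (.c 2 (.l 611752071150996) .n) (.c 2 (.c 0 (.c
  1 (.l 454395794209258) .n) .n) .n)) (.c 8 (.c 0 (.c 1 (.c 1 (.l 343516941996820) .n) .n) .n)
  .n)))) (.c 3 (.c 3 (.c 6 (.l 811337361489202) .n) (.c 4 (.c 4 (.c 1 (.l 615074621451250) .n)
  .n) (.c 5 (.c 2 (.c 2 (.l 465719806042792) .n) (.c 3 (.c 0 (.c 1 (.l 345585311713326) .n) .n)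
  .n)) (.c 6 (.c 0 (.c 3 (.l 352055500146708) .n) (.c 1 (.c 1 (.c 1 (.l 260969092518632) .n) .n)
  .n)) .n)))) (.c 4 (.c 1 (.c 7 (.l 618235848435488) .n) (.c 2 (.c 5 (.c 1 (.l 468214406365024)
  .n) .n) (.c 3 (.c 3 (.c 2 (.l 354148562744400) .n) (.c 4 (.c 0 (.c 1 (.l 262530439453760) .n)
  .n) .n)) (.c 4 (.c 1 (.c 3 (.l 267453078413272) .n) (.c 2 (.c 1 (.c 1 (.l 198025309822432) .n)
  .n) .n)) (.c 5 (.c 0 (.c 2 (.c 1 (.l 149088446920128) .n) .n) (.c 1 (.c 0 (.c 2 (.l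
  87950166857512) .n) .n) .n)) .n))))) (.c 5 (.c 0 (.c 6 (.c 1 (.l 355978223342000) .n) .n) (.c
  1 (.c 4 (.c 2 (.l 268976720786192) .n) (.c 5 (.c 0 (.c 1 (.l 199191891437200) .n) .n) .n)) (.c
  2 (.c 2 (.c 3 (.l 202904128695664) .n) (.c 3 (.c 1 (.c 1 (.l 150079426247264) .n) .n) .n)) (.c
  3 (.c 0 (.c 4 (.l 152038806417384) .n) (.c 1 (.c 2 (.c 1 (.l 112869485407400) .n) .n) (.c 2
  (.c 0 (.c 2 (.l 68192830009464) .n) .n) .n))) .n)))) (.c 6 (.c 0 (.c 3 (.c 3 (.l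
  153663079732592) .n) (.c 4 (.c 1 (.c 1 (.l 113586254067264) .n) .n) .n)) (.c 1 (.c 1 (.c 4 (.l
  114384150294336) .n) (.c 2 (.c 2 (.c 1 (.l 85310287249824) .n) .n) .n)) .n)) .n))))))) (.c 1
  (.c 0 (.c 6 (.c 5 (.l 805935299966976) .n) (.c 7 (.c 3 (.c 1 (.l 611084008774394) .n) .n) (.c
  8 (.c 1 (.c 2 (.l 462785282060656) .n) (.c 2 (.c 0 (.c 1 (.l 343515291172384) .n) .n) .n))
  .n))) (.c 1 (.c 4 (.c 6 (.l 614141058875864) .n) (.c 5 (.c 4 (.c 1 (.l 465190384321300) .n)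
  .n) (.c 6 (.c 2 (.c 2 (.l 351925742232752) .n) (.c 3 (.c 0 (.c 1 (.l 260966429381980) .n) .n)
  .n)) (.c 7 (.c 0 (.c 3 (.l 265866926785068) .n) (.c 1 (.c 1 (.c 1 (.l 196890172107228) .n) .n)
  .n)) .n)))) (.c 2 (.c 2 (.c 7 (.l 467443671547292) .n) (.c 3 (.c 5 (.c 1 (.l 353716997690464)
  .n) .n) (.c 4 (.c 3 (.c 2 (.l 267310559814352) .n) (.c 4 (.c 0 (.c 1 (.l 198020100903104) .n)
  .n) .n)) (.c 5 (.c 1 (.c 3 (.l 201701688794856) .n) (.c 2 (.c 1 (.c 1 (.l 149227153807008) .n)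
  .n) .n)) (.c 6 (.c 0 (.c 2 (.c 1 (.l 112284845730044) .n) .n) (.c 1 (.c 0 (.c 2 (.l
  64448687266394) .n) .n) .n)) .n))))) (.c 3 (.c 0 (.c 8 (.l 355287468172056) .n) (.c 1 (.c 6
  (.c 1 (.l 268605871104012) .n) .n) (.c 2 (.c 4 (.c 2 (.l 202778557163632) .n) (.c 5 (.c 0 (.c
  1 (.l 150064156068416) .n) .n) .n)) (.c 3 (.c 2 (.c 3 (.l 152822910419580) .n) (.c 3 (.c 1 (.c
  1 (.l 112959125161330) .n) .n) .n)) (.c 4 (.c 0 (.c 4 (.l 114377145232768) .n) (.c 1 (.c 2 (.c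
  1 (.l 84885558989728) .n) .n) (.c 2 (.c 0 (.c 2 (.l 49673427859416) .n) .n) .n))) .n))))) (.c
  4 (.c 0 (.c 5 (.c 2 (.l 153575957647440) .n) (.c 6 (.c 0 (.c 1 (.l 113545384213904) .n) .n)
  .n)) (.c 1 (.c 3 (.c 3 (.l 115584859889624) .n) (.c 4 (.c 1 (.c 1 (.l 85381336212216) .n) .n)
  .n)) (.c 2 (.c 1 (.c 4 (.l 86146230080320) .n) (.c 2 (.c 2 (.c 1 (.l 64075854907392) .n) .n)
  (.c 3 (.c 0 (.c 2 (.l 37104689828752) .n) .n) .n))) (.c 3 (.c 0 (.c 3 (.c 1 (.l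
  47622572917576) .n) .n) (.c 1 (.c 1 (.c 2 (.l 23152488209104) .n) .n) .n)) .n)))) (.c 5 (.c 0
  (.c 2 (.c 4 (.l 64456950660736) .n) (.c 3 (.c 2 (.c 1 (.l 48234604638592) .n) .n) .n)) (.c 1
  (.c 0 (.c 5 (.l 45843962167800) .n) (.c 1 (.c 3 (.c 1 (.l 35487803043336) .n) .n) .n)) .n))
  .n)))))) (.c 2 (.c 0 (.c 3 (.c 7 (.l 352916193630192) .n) (.c 4 (.c 5 (.c 1 (.l
  266837718072860) .n) .n) (.c 5 (.c 3 (.c 2 (.l 201478006648484) .n) (.c 4 (.c 0 (.c 1 (.l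
  149148493211724) .n) .n) .n)) (.c 6 (.c 1 (.c 3 (.l 151778591761196) .n) (.c 2 (.c 1 (.c 1 (.l
  112292197625180) .n) .n) .n)) .n)))) (.c 1 (.c 1 (.c 8 (.l 267838902296350) .n) (.c 2 (.c 6
  (.c 1 (.l 202357821762856) .n) .n) (.c 3 (.c 4 (.c 2 (.l 152639762673108) .n) (.c 5 (.c 0 (.c
  1 (.l 112882223695736) .n) .n) .n)) (.c 4 (.c 2 (.c 3 (.l 114891783986984) .n) (.c 3 (.c 1 (.c
  1 (.l 84892920515616) .n) .n) .n)) (.c 5 (.c 0 (.c 4 (.l 85674023519654) .n) (.c 1 (.c 2 (.c 1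
  (.l 63711379101898) .n) .n) (.c 2 (.c 0 (.c 2 (.l 32433405556158) .n) .n) .n))) .n))))) (.c 2
  (.c 0 (.c 7 (.c 1 (.l 153050692972884) .n) .n) (.c 1 (.c 5 (.c 2 (.l 115414221807160) .n) (.c
  6 (.c 0 (.c 1 (.l 85290893944756) .n) .n) .n)) (.c 2 (.c 3 (.c 3 (.l 86769634830392) .n) (.c 4
  (.c 1 (.c 1 (.l 64079348574860) .n) .n) .n)) (.c 3 (.c 1 (.c 4 (.l 64311375622588) .n) (.c 2
  (.c 2 (.c 1 (.l 48033569096920) .n) .n) (.c 3 (.c 0 (.c 2 (.l 24626825846472) .n) .n) .n)))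
  (.c 4 (.c 0 (.c 3 (.c 1 (.l 35443652104512) .n) .n) (.c 1 (.c 1 (.c 2 (.l 16692984116028) .n)
  .n) .n)) .n))))) (.c 3 (.c 0 (.c 4 (.c 3 (.l 65109361957184) .n) (.c 5 (.c 1 (.c 1 (.l
  48233195795880) .n) .n) .n)) (.c 1 (.c 2 (.c 4 (.l 48137909216816) .n) (.c 3 (.c 2 (.c 1 (.l
  36110887755300) .n) .n) .n)) (.c 2 (.c 0 (.c 5 (.l 34412765477272) .n) (.c 1 (.c 3 (.c 1 (.l
  26551756129104) .n) .n) (.c 2 (.c 1 (.c 2 (.l 11880764337252) .n) .n) .n))) .n))) (.c 4 (.c 0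
  (.c 1 (.c 5 (.l 24333606206448) .n) .n) .n) .n))))) (.c 3 (.c 0 (.c 0 (.c 9 (.l
  150888432455152) .n) (.c 1 (.c 7 (.c 1 (.l 114512747019888) .n) .n) (.c 2 (.c 5 (.c 2 (.l
  86312066076280) .n) (.c 6 (.c 0 (.c 1 (.l 63879686838920) .n) .n) .n)) (.c 3 (.c 3 (.c 3 (.l
  64814449274442) .n) (.c 4 (.c 1 (.c 1 (.l 47966354037182) .n) .n) .n)) (.c 4 (.c 1 (.c 4 (.l
  47786524209274) .n) (.c 2 (.c 2 (.c 1 (.l 35909121368256) .n) .n) .n)) .n))))) (.c 1 (.c 0 (.c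
  6 (.c 2 (.l 64689804446880) .n) .n) (.c 1 (.c 4 (.c 3 (.l 48561264851894) .n) (.c 5 (.c 1 (.c
  1 (.l 36056219665700) .n) .n) .n)) (.c 2 (.c 2 (.c 4 (.l 35444328651790) .n) (.c 3 (.c 2 (.c 1
  (.l 26940832681624) .n) .n) .n)) (.c 3 (.c 0 (.c 5 (.l 25501015365266) .n) (.c 1 (.c 3 (.c 1
  (.l 19506806948960) .n) .n) .n)) .n)))) (.c 2 (.c 0 (.c 3 (.c 4 (.l 25572588172692) .n) .n)
  (.c 1 (.c 1 (.c 5 (.l 17963007142616) .n) .n) .n)) .n))) (.c 4 (.c 0 (.c 1 (.c 3 (.c 4 (.l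
  18296651752728) .n) .n) .n) .n) .n))))) (.c 2 (.c 0 (.c 0 (.c 5 (.c 6 (.l 343326014649888) .n)
  (.c 6 (.c 4 (.c 1 (.l 259696583959888) .n) .n) (.c 7 (.c 2 (.c 2 (.l 196068480163272) .n) (.c
  3 (.c 0 (.c 1 (.l 145301194188628) .n) .n) .n)) (.c 8 (.c 0 (.c 3 (.l 146828751639360) .n) .n)
  .n)))) (.c 1 (.c 3 (.c 7 (.l 260643377724944) .n) (.c 4 (.c 5 (.c 1 (.l 196993734566712) .n)
  .n) (.c 5 (.c 3 (.c 2 (.l 148648622400872) .n) (.c 4 (.c 0 (.c 1 (.l 109992795738200) .n) .n)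
  .n)) (.c 6 (.c 1 (.c 3 (.l 111587759438832) .n) (.c 2 (.c 1 (.c 1 (.l 82756141914168) .n) .n)
  .n)) .n)))) (.c 2 (.c 1 (.c 8 (.l 197456896747096) .n) (.c 2 (.c 6 (.c 1 (.l 149142447208128)
  .n) .n) (.c 3 (.c 4 (.c 2 (.l 112457676452784) .n) (.c 5 (.c 0 (.c 1 (.l 83142947885420) .n)
  .n) .n)) (.c 4 (.c 2 (.c 3 (.l 84441081733712) .n) (.c 3 (.c 1 (.c 1 (.l 62487680452672) .n)
  .n) .n)) (.c 5 (.c 0 (.c 4 (.l 62744285910960) .n) (.c 1 (.c 2 (.c 1 (.l 46775390518660) .n)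
  .n) .n)) .n))))) (.c 3 (.c 0 (.c 7 (.c 1 (.l 112680624035532) .n) .n) (.c 1 (.c 5 (.c 2 (.l
  84824607207740) .n) .n) (.c 2 (.c 3 (.c 3 (.l 63615699310796) .n) (.c 4 (.c 1 (.c 1 (.l
  47102485853796) .n) .n) .n)) (.c 3 (.c 1 (.c 4 (.l 47061467271788) .n) (.c 2 (.c 2 (.c 1 (.l
  35230793860452) .n) .n) .n)) .n)))) (.c 4 (.c 0 (.c 4 (.c 3 (.l 47468254214544) .n) .n) (.c 1
  (.c 2 (.c 4 (.l 35001361955200) .n) (.c 3 (.c 2 (.c 1 (.l 26390959891232) .n) .n) .n)) .n))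
  .n))))) (.c 1 (.c 0 (.c 2 (.c 8 (.l 147787200007188) .n) (.c 3 (.c 6 (.c 1 (.l
  111824694260652) .n) .n) (.c 4 (.c 4 (.c 2 (.l 84238093298188) .n) (.c 5 (.c 0 (.c 1 (.l
  62298120211080) .n) .n) .n)) (.c 5 (.c 2 (.c 3 (.l 63008083116396) .n) (.c 3 (.c 1 (.c 1 (.l
  46783177598948) .n) .n) .n)) (.c 6 (.c 0 (.c 4 (.l 46372752141584) .n) .n) .n))))) (.c 1 (.c 0
  (.c 9 (.l 110890919902672) .n) (.c 1 (.c 7 (.c 1 (.l 84132707200150) .n) .n) (.c 2 (.c 5 (.c 2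
  (.l 63314229591120) .n) (.c 6 (.c 0 (.c 1 (.l 46892422293652) .n) .n) .n)) (.c 3 (.c 3 (.c 3
  (.l 47412497381810) .n) (.c 4 (.c 1 (.c 1 (.l 35191088800636) .n) .n) .n)) (.c 4 (.c 1 (.c 4
  (.l 34589426327844) .n) (.c 2 (.c 2 (.c 1 (.l 26261645471812) .n) .n) .n)) .n))))) (.c 2 (.c 0
  (.c 6 (.c 2 (.l 47350394713400) .n) .n) (.c 1 (.c 4 (.c 3 (.l 35303386259196) .n) (.c 5 (.c 1
  (.c 1 (.l 26340092180440) .n) .n) .n)) (.c 2 (.c 2 (.c 4 (.l 25621925593660) .n) (.c 3 (.c 2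
  (.c 1 (.l 19651762414632) .n) .n) .n)) (.c 3 (.c 0 (.c 5 (.l 17908517232440) .n) .n) .n))))
  (.c 3 (.c 0 (.c 3 (.c 4 (.l 18305046350188) .n) .n) .n) .n)))) (.c 2 (.c 0 (.c 1 (.c 6 (.c 2
  (.l 33857051363240) .n) .n) (.c 2 (.c 4 (.c 3 (.l 25358156171016) .n) .n) (.c 3 (.c 2 (.c 4
  (.l 18304060683084) .n) .n) .n))) (.c 1 (.c 0 (.c 5 (.c 3 (.l 18490875708200) .n) .n) (.c 1
  (.c 3 (.c 4 (.l 13067875397380) .n) .n) .n)) .n)) .n))) (.c 3 (.c 0 (.c 0 (.c 2 (.c 7 (.c 1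
  (.l 44201178548016) .n) .n) (.c 3 (.c 5 (.c 2 (.l 33184953729600) .n) .n) (.c 4 (.c 3 (.c 3
  (.l 24597475770684) .n) .n) .n))) (.c 1 (.c 1 (.c 6 (.c 2 (.l 24755795574120) .n) .n) (.c 2
  (.c 4 (.c 3 (.l 18302411635488) .n) .n) (.c 3 (.c 2 (.c 4 (.l 12911502990266) .n) .n) .n)))
  .n)) .n) .n)))) (.c 1 (.c 0 (.c 0 (.c 0 (.c 8 (.c 4 (.l 558529526953104) .n) (.c 9 (.c 2 (.c 1
  (.l 423425503641696) .n) .n) (.c 10 (.c 0 (.c 2 (.l 320610589822560) .n) .n) .n))) (.c 1 (.c 6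
  (.c 5 (.l 425179599800056) .n) (.c 7 (.c 3 (.c 1 (.l 322018926977356) .n) .n) (.c 8 (.c 1 (.c
  2 (.l 243583940255408) .n) (.c 2 (.c 0 (.c 1 (.l 180671300803312) .n) .n) .n)) .n))) (.c 2 (.c
  4 (.c 6 (.l 323319034343408) .n) (.c 5 (.c 4 (.c 1 (.l 244631209478732) .n) .n) (.c 6 (.c 2
  (.c 2 (.l 184851032887496) .n) (.c 3 (.c 0 (.c 1 (.l 136973751417632) .n) .n) .n)) (.c 7 (.c 0
  (.c 3 (.l 138888867498500) .n) (.c 1 (.c 1 (.c 1 (.l 103216830274466) .n) .n) .n)) .n)))) (.c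
  3 (.c 2 (.c 7 (.l 245481267767092) .n) (.c 3 (.c 5 (.c 1 (.l 185601254168004) .n) .n) (.c 4
  (.c 3 (.c 2 (.l 140102492148456) .n) (.c 4 (.c 0 (.c 1 (.l 103712260373748) .n) .n) .n)) (.c 5
  (.c 1 (.c 3 (.l 105233713508100) .n) (.c 2 (.c 1 (.c 1 (.l 78064860843560) .n) .n) .n)) .n))))
  (.c 4 (.c 0 (.c 8 (.l 185475156462848) .n) (.c 1 (.c 6 (.c 1 (.l 140500094769336) .n) .n) (.c
  2 (.c 4 (.c 2 (.l 106027878633648) .n) (.c 5 (.c 0 (.c 1 (.l 78413160577248) .n) .n) .n)) (.c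
  3 (.c 2 (.c 3 (.l 79588387880376) .n) (.c 3 (.c 1 (.c 1 (.l 58959362019720) .n) .n) .n)) (.c 4
  (.c 0 (.c 4 (.l 58262528702920) .n) (.c 1 (.c 2 (.c 1 (.l 44123702674592) .n) .n) .n)) .n)))))
  (.c 5 (.c 0 (.c 5 (.c 2 (.l 79943125234600) .n) .n) (.c 1 (.c 3 (.c 3 (.l 59840613610488) .n)
  .n) (.c 2 (.c 1 (.c 4 (.l 43450186735264) .n) .n) .n))) .n)))))) (.c 1 (.c 0 (.c 5 (.c 6 (.l
  243519529307732) .n) (.c 6 (.c 4 (.c 1 (.l 184120334405772) .n) .n) (.c 7 (.c 2 (.c 2 (.l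
  138951405806204) .n) .n) (.c 8 (.c 0 (.c 3 (.l 104009196828544) .n) .n) .n)))) (.c 1 (.c 3 (.c
  7 (.l 184672952681228) .n) (.c 4 (.c 5 (.c 1 (.l 139523529928164) .n) .n) (.c 5 (.c 3 (.c 2
  (.l 105237030365516) .n) (.c 4 (.c 0 (.c 1 (.l 77849740557260) .n) .n) .n)) (.c 6 (.c 1 (.c 3
  (.l 78632717662386) .n) (.c 2 (.c 1 (.c 1 (.l 58544404033292) .n) .n) .n)) .n)))) (.c 2 (.c 1
  (.c 8 (.l 139531554178380) .n) (.c 2 (.c 6 (.c 1 (.l 105443309739856) .n) .n) (.c 3 (.c 4 (.c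
  2 (.l 79514473624344) .n) (.c 5 (.c 0 (.c 1 (.l 58775156628860) .n) .n) .n)) (.c 4 (.c 2 (.c 3
  (.l 59384874593532) .n) (.c 3 (.c 1 (.c 1 (.l 44158097947380) .n) .n) .n)) (.c 5 (.c 0 (.c 4
  (.l 43566250534706) .n) (.c 1 (.c 2 (.c 1 (.l 32892644870536) .n) .n) .n)) .n))))) (.c 3 (.c 0
  (.c 7 (.c 1 (.l 79061146565002) .n) .n) (.c 1 (.c 5 (.c 2 (.l 59766758616480) .n) .n) (.c 2
  (.c 3 (.c 3 (.l 44660403251702) .n) (.c 4 (.c 1 (.c 1 (.l 33240041998448) .n) .n) .n)) (.c 3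
  (.c 1 (.c 4 (.l 32515503852492) .n) (.c 2 (.c 2 (.c 1 (.l 24770310916712) .n) .n) .n)) .n))))
  (.c 4 (.c 0 (.c 4 (.c 3 (.l 32969301480768) .n) .n) (.c 1 (.c 2 (.c 4 (.l 23920222711720) .n)
  .n) .n)) .n))))) (.c 2 (.c 0 (.c 2 (.c 8 (.l 104367645940348) .n) (.c 3 (.c 6 (.c 1 (.l
  78932337449828) .n) .n) (.c 4 (.c 4 (.c 2 (.l 59442706542340) .n) .n) (.c 5 (.c 2 (.c 3 (.l
  43981851607728) .n) .n) .n)))) (.c 1 (.c 1 (.c 7 (.c 1 (.l 59030840810928) .n) .n) (.c 2 (.c 5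
  (.c 2 (.l 44473556196180) .n) .n) (.c 3 (.c 3 (.c 3 (.l 33062257879226) .n) (.c 4 (.c 1 (.c 1
  (.l 24771962522674) .n) .n) .n)) (.c 4 (.c 1 (.c 4 (.l 24025976956558) .n) (.c 2 (.c 2 (.c 1
  (.l 18324428278076) .n) .n) .n)) .n)))) (.c 2 (.c 0 (.c 6 (.c 2 (.l 32867474549200) .n) .n)
  (.c 1 (.c 4 (.c 3 (.l 24460676795824) .n) .n) (.c 2 (.c 2 (.c 4 (.l 17646999122136) .n) .n)
  .n))) .n))) (.c 3 (.c 0 (.c 1 (.c 6 (.c 2 (.l 23720531721320) .n) .n) (.c 2 (.c 4 (.c 3 (.l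
  17645108711844) .n) .n) .n)) .n) .n)))) (.c 1 (.c 0 (.c 0 (.c 4 (.c 7 (.l 99585655941536) .n)
  (.c 5 (.c 5 (.c 1 (.l 75867682011440) .n) .n) (.c 6 (.c 3 (.c 2 (.l 57013357968904) .n) .n)
  (.c 7 (.c 1 (.c 3 (.l 41448208025126) .n) .n) .n)))) (.c 1 (.c 2 (.c 8 (.l 75215781273234) .n)
  (.c 3 (.c 6 (.c 1 (.l 57151204448702) .n) .n) (.c 4 (.c 4 (.c 2 (.l 43077131841566) .n) .n)
  (.c 5 (.c 2 (.c 3 (.l 31497779144616) .n) .n) .n)))) (.c 2 (.c 1 (.c 7 (.c 1 (.l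
  42767245755234) .n) .n) (.c 2 (.c 5 (.c 2 (.l 32066193103860) .n) .n) (.c 3 (.c 3 (.c 3 (.l
  23560325524188) .n) .n) (.c 4 (.c 1 (.c 4 (.l 16825001764782) .n) .n) .n)))) (.c 3 (.c 0 (.c 6
  (.c 2 (.l 23808093000220) .n) .n) (.c 1 (.c 4 (.c 3 (.l 17219920339188) .n) .n) (.c 2 (.c 2
  (.c 4 (.l 12160570292242) .n) .n) .n))) .n)))) (.c 1 (.c 0 (.c 2 (.c 7 (.c 1 (.l
  30970885294342) .n) .n) (.c 3 (.c 5 (.c 2 (.l 23249403018880) .n) .n) (.c 4 (.c 3 (.c 3 (.l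
  16967608692480) .n) .n) .n))) (.c 1 (.c 1 (.c 6 (.c 2 (.l 16681466089480) .n) .n) (.c 2 (.c 4
  (.c 3 (.l 12172940666976) .n) .n) (.c 3 (.c 2 (.c 4 (.l 8599516091626) .n) .n) .n))) .n)) .n))
  .n)) .n))

noncomputable def t21_9 : Tr := (.c 0 (.c 0 (.c 0 (.c 0 (.c 6 (.c 6 (.l 10073269037040) .n) (.c
  7 (.c 4 (.c 1 (.l 7574562732800) .n) .n) (.c 8 (.c 2 (.c 2 (.l 5688424430080) .n) (.c 3 (.c 0
  (.c 1 (.l 4199767944960) .n) .n) .n)) (.c 9 (.c 0 (.c 3 (.l 4266318322560) .n) (.c 1 (.c 1 (.c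
  1 (.l 3145215716160) .n) .n) .n)) (.c 10 (.c 0 (.c 0 (.c 2 (.l 1727793446400) .n) .n) .n)
  .n))))) (.c 1 (.c 4 (.c 7 (.l 7574562597424) .n) (.c 5 (.c 5 (.c 1 (.l 5689189845600) .n) .n)
  (.c 6 (.c 3 (.c 2 (.l 4267511423008) .n) (.c 4 (.c 0 (.c 1 (.l 3147402251312) .n) .n) .n)) (.c
  7 (.c 1 (.c 3 (.l 3196749956288) .n) (.c 2 (.c 1 (.c 1 (.l 2354159371200) .n) .n) (.c 3 (.c 0
  (.c 0 (.c 1 (.l 1222998921536) .n) .n) .n) .n))) (.c 8 (.c 0 (.c 2 (.c 1 (.l 1758251699456)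
  .n) .n) (.c 1 (.c 0 (.c 2 (.l 1290068185728) .n) .n) .n)) .n))))) (.c 2 (.c 2 (.c 8 (.l
  5688423540212) .n) (.c 3 (.c 6 (.c 1 (.l 4267510917356) .n) .n) (.c 4 (.c 4 (.c 2 (.l
  3197214867808) .n) (.c 5 (.c 0 (.c 1 (.l 2355500399920) .n) .n) .n)) (.c 5 (.c 2 (.c 3 (.l
  2391995678624) .n) (.c 3 (.c 1 (.c 1 (.l 1759569638912) .n) .n) (.c 4 (.c 0 (.c 0 (.c 1 (.l
  912166046624) .n) .n) .n) .n))) (.c 6 (.c 0 (.c 4 (.l 1786961431360) .n) (.c 1 (.c 2 (.c 1 (.l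
  1312412204096) .n) .n) (.c 2 (.c 0 (.c 2 (.l 961802685056) .n) (.c 1 (.c 0 (.c 1 (.l
  678059410624) .n) .n) .n)) .n))) (.c 7 (.c 0 (.c 1 (.c 2 (.l 714996800224) .n) .n) .n)
  .n)))))) (.c 3 (.c 0 (.c 9 (.l 4266314494288) .n) (.c 1 (.c 7 (.c 1 (.l 3196746478848) .n) .n)
  (.c 2 (.c 5 (.c 2 (.l 2391994159288) .n) (.c 6 (.c 0 (.c 1 (.l 1760330672764) .n) .n) .n)) (.c
  3 (.c 3 (.c 3 (.l 1787243849004) .n) (.c 4 (.c 1 (.c 1 (.l 1313218431684) .n) .n) (.c 5 (.c 0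
  (.c 0 (.c 1 (.l 679306052820) .n) .n) .n) .n))) (.c 4 (.c 1 (.c 4 (.l 1333374469104) .n) (.c 2
  (.c 2 (.c 1 (.l 978132025520) .n) .n) (.c 3 (.c 0 (.c 2 (.l 715952274432) .n) (.c 1 (.c 0 (.c
  1 (.l 504230001616) .n) .n) .n)) .n))) (.c 5 (.c 0 (.c 3 (.c 1 (.l 727350608400) .n) .n) (.c 1
  (.c 1 (.c 2 (.l 531439818400) .n) (.c 2 (.c 0 (.c 1 (.l 373614645216) .n) .n) .n)) .n)) (.c 6
  (.c 0 (.c 0 (.c 3 (.l 283074083520) .n) .n) .n) .n))))))) (.c 4 (.c 0 (.c 6 (.c 2 (.l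
  1786949513632) .n) (.c 7 (.c 0 (.c 1 (.l 1313584638152) .n) .n) .n)) (.c 1 (.c 4 (.c 3 (.l
  1333371175320) .n) (.c 5 (.c 1 (.c 1 (.l 978586344200) .n) .n) .n)) (.c 2 (.c 2 (.c 4 (.l
  993368513760) .n) (.c 3 (.c 2 (.c 1 (.l 727835088960) .n) .n) (.c 4 (.c 0 (.c 2 (.l
  532079349088) .n) (.c 1 (.c 0 (.c 1 (.l 374351813808) .n) .n) .n)) .n))) (.c 3 (.c 0 (.c 5 (.l
  738650854624) .n) (.c 1 (.c 3 (.c 1 (.l 540412246752) .n) .n) (.c 2 (.c 1 (.c 2 (.l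
  394340457216) .n) (.c 2 (.c 0 (.c 1 (.l 276943158976) .n) .n) .n)) .n))) (.c 4 (.c 0 (.c 2 (.c
  2 (.l 291708645376) .n) .n) (.c 1 (.c 0 (.c 3 (.l 206912289664) .n) .n) .n)) .n))))) (.c 5 (.c
  0 (.c 3 (.c 4 (.l 738835153320) .n) (.c 4 (.c 2 (.c 1 (.l 540681736640) .n) .n) (.c 5 (.c 0
  (.c 2 (.l 394755069040) .n) .n) .n))) (.c 1 (.c 1 (.c 5 (.l 548492909896) .n) (.c 2 (.c 3 (.c
  1 (.l 400822990112) .n) .n) (.c 3 (.c 1 (.c 2 (.l 292091763216) .n) .n) .n))) (.c 2 (.c 0 (.c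
  4 (.c 1 (.l 296378868320) .n) .n) (.c 1 (.c 2 (.c 2 (.l 215703773696) .n) .n) (.c 2 (.c 0 (.c
  3 (.l 150612575904) .n) .n) .n))) (.c 3 (.c 0 (.c 1 (.c 3 (.l 105316667968) .n) .n) .n) .n))))
  (.c 6 (.c 0 (.c 0 (.c 6 (.l 298883016800) .n) (.c 1 (.c 4 (.c 1 (.l 218972961760) .n) .n) (.c
  2 (.c 2 (.c 2 (.l 159190561664) .n) .n) .n))) (.c 1 (.c 0 (.c 3 (.c 2 (.l 114013586784) .n)
  .n) (.c 1 (.c 1 (.c 3 (.l 74672360128) .n) .n) .n)) .n)) .n))))))) (.c 1 (.c 0 (.c 3 (.c 8 (.l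
  4199767184634) .n) (.c 4 (.c 6 (.c 1 (.l 3147401745352) .n) .n) (.c 5 (.c 4 (.c 2 (.l
  2355500304800) .n) (.c 5 (.c 0 (.c 1 (.l 1734057892080) .n) .n) .n)) (.c 6 (.c 2 (.c 3 (.l
  1760331454032) .n) (.c 3 (.c 1 (.c 1 (.l 1293905771696) .n) .n) .n)) (.c 7 (.c 0 (.c 4 (.l
  1313583297488) .n) (.c 1 (.c 2 (.c 1 (.l 963984349664) .n) .n) (.c 2 (.c 0 (.c 2 (.l
  703236660672) .n) .n) .n))) (.c 8 (.c 0 (.c 1 (.c 2 (.l 524123066880) .n) .n) .n) .n)))))) (.c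
  1 (.c 1 (.c 9 (.l 3145211746936) .n) (.c 2 (.c 7 (.c 1 (.l 2354155883882) .n) .n) (.c 3 (.c 5
  (.c 2 (.l 1759567773448) .n) (.c 6 (.c 0 (.c 1 (.l 1293904780276) .n) .n) .n)) (.c 4 (.c 3 (.c
  3 (.l 1313218029648) .n) (.c 4 (.c 1 (.c 1 (.l 964150788808) .n) .n) (.c 5 (.c 0 (.c 0 (.c 1
  (.l 498059766240) .n) .n) .n) .n))) (.c 5 (.c 1 (.c 4 (.l 978580521080) .n) (.c 2 (.c 2 (.c 1
  (.l 717285926384) .n) .n) (.c 3 (.c 0 (.c 2 (.l 524588606816) .n) (.c 1 (.c 0 (.c 1 (.l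
  369250081952) .n) .n) .n)) .n))) (.c 6 (.c 0 (.c 3 (.c 1 (.l 532730242976) .n) .n) (.c 1 (.c 1
  (.c 2 (.l 388913350240) .n) .n) .n)) (.c 7 (.c 0 (.c 0 (.c 3 (.l 198473970688) .n) .n) .n)
  .n))))))) (.c 2 (.c 0 (.c 8 (.c 1 (.l 1758239554304) .n) .n) (.c 1 (.c 6 (.c 2 (.l
  1312401149528) .n) (.c 7 (.c 0 (.c 1 (.l 963978281298) .n) .n) .n)) (.c 2 (.c 4 (.c 3 (.l
  978127322108) .n) (.c 5 (.c 1 (.c 1 (.l 717283816176) .n) .n) .n)) (.c 3 (.c 2 (.c 4 (.l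
  727826010224) .n) (.c 3 (.c 2 (.c 1 (.l 532836378720) .n) .n) (.c 4 (.c 0 (.c 2 (.l
  389196798600) .n) (.c 1 (.c 0 (.c 1 (.l 273671040356) .n) .n) .n)) .n))) (.c 4 (.c 0 (.c 5 (.l
  540467514480) .n) (.c 1 (.c 3 (.c 1 (.l 395125314624) .n) .n) (.c 2 (.c 1 (.c 2 (.l
  288077124032) .n) (.c 2 (.c 0 (.c 1 (.l 202200130448) .n) .n) .n)) .n))) (.c 5 (.c 0 (.c 2 (.c
  2 (.l 212817231584) .n) .n) (.c 1 (.c 0 (.c 3 (.l 149675669456) .n) .n) .n)) .n)))))) (.c 3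
  (.c 0 (.c 5 (.c 3 (.l 727312565890) .n) (.c 6 (.c 1 (.c 1 (.l 532716535940) .n) .n) .n)) (.c 1
  (.c 3 (.c 4 (.l 540384838686) .n) (.c 4 (.c 2 (.c 1 (.l 395125673922) .n) .n) (.c 5 (.c 0 (.c
  2 (.l 288234046300) .n) .n) .n))) (.c 2 (.c 1 (.c 5 (.l 400612208096) .n) (.c 2 (.c 3 (.c 1
  (.l 292532344020) .n) .n) (.c 3 (.c 1 (.c 2 (.l 212990951160) .n) (.c 2 (.c 0 (.c 1 (.l
  149340725764) .n) .n) .n)) .n))) (.c 3 (.c 0 (.c 4 (.c 1 (.l 215962767376) .n) .n) (.c 1 (.c 2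
  (.c 2 (.l 157071172432) .n) .n) (.c 2 (.c 0 (.c 3 (.l 109933268072) .n) .n) .n))) (.c 4 (.c 0
  (.c 1 (.c 3 (.l 77247077504) .n) .n) .n) .n))))) (.c 4 (.c 0 (.c 2 (.c 5 (.l 296174090176) .n)
  (.c 3 (.c 3 (.c 1 (.l 216139039032) .n) .n) (.c 4 (.c 1 (.c 2 (.l 157165190064) .n) .n) .n)))
  (.c 1 (.c 0 (.c 6 (.l 217532246960) .n) (.c 1 (.c 4 (.c 1 (.l 159240585224) .n) .n) (.c 2 (.c
  2 (.c 2 (.l 115689682448) .n) .n) (.c 3 (.c 0 (.c 3 (.l 78998959120) .n) .n) .n)))) (.c 2 (.c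
  0 (.c 3 (.c 2 (.l 82754702176) .n) .n) (.c 1 (.c 1 (.c 3 (.l 54834044576) .n) .n) .n)) .n)))
  (.c 5 (.c 0 (.c 0 (.c 5 (.c 1 (.l 84078705800) .n) .n) (.c 1 (.c 3 (.c 2 (.l 60554569544) .n)
  .n) (.c 2 (.c 1 (.c 3 (.l 38626855520) .n) .n) .n))) .n) .n)))))) (.c 2 (.c 0 (.c 0 (.c 10 (.l
  1727774466768) .n) (.c 1 (.c 8 (.c 1 (.l 1290053825472) .n) .n) (.c 2 (.c 6 (.c 2 (.l
  961790802224) .n) (.c 7 (.c 0 (.c 1 (.l 705876990288) .n) .n) .n)) (.c 3 (.c 4 (.c 3 (.l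
  715939956204) .n) (.c 5 (.c 1 (.c 1 (.l 524585570380) .n) .n) .n)) (.c 4 (.c 2 (.c 4 (.l
  532042740448) .n) (.c 3 (.c 2 (.c 1 (.l 389193447312) .n) .n) (.c 4 (.c 0 (.c 2 (.l
  284032968416) .n) .n) .n))) (.c 5 (.c 0 (.c 5 (.l 394492845040) .n) (.c 1 (.c 3 (.c 1 (.l
  288216376432) .n) .n) (.c 2 (.c 1 (.c 2 (.l 209956291040) .n) .n) .n))) (.c 6 (.c 0 (.c 2 (.c
  2 (.l 154124658912) .n) .n) (.c 1 (.c 0 (.c 3 (.l 107215077024) .n) .n) .n)) .n))))))) (.c 1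
  (.c 0 (.c 7 (.c 2 (.l 714963928280) .n) (.c 8 (.c 0 (.c 1 (.l 524103362380) .n) .n) .n)) (.c 1
  (.c 5 (.c 3 (.l 531403914196) .n) (.c 6 (.c 1 (.c 1 (.l 388896813004) .n) .n) .n)) (.c 2 (.c 3
  (.c 4 (.l 394292075912) .n) (.c 4 (.c 2 (.c 1 (.l 288070871520) .n) .n) (.c 5 (.c 0 (.c 2 (.l
  209828360928) .n) .n) .n))) (.c 3 (.c 1 (.c 5 (.l 291861657128) .n) (.c 2 (.c 3 (.c 1 (.l
  212974708592) .n) .n) (.c 3 (.c 1 (.c 2 (.l 154933520400) .n) .n) .n))) (.c 4 (.c 0 (.c 4 (.c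
  1 (.l 156954082176) .n) .n) (.c 1 (.c 2 (.c 2 (.l 113897859744) .n) .n) (.c 2 (.c 0 (.c 3 (.l
  78664393088) .n) .n) .n))) (.c 5 (.c 0 (.c 1 (.c 3 (.l 54888092368) .n) .n) .n) .n)))))) (.c 2
  (.c 0 (.c 4 (.c 4 (.l 291518131424) .n) (.c 5 (.c 2 (.c 1 (.l 212768476020) .n) .n) (.c 6 (.c
  0 (.c 2 (.l 154433001816) .n) .n) .n))) (.c 1 (.c 2 (.c 5 (.l 215381283796) .n) (.c 3 (.c 3
  (.c 1 (.l 157036656128) .n) .n) (.c 4 (.c 1 (.c 2 (.l 114000135288) .n) .n) .n))) (.c 2 (.c 0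
  (.c 6 (.l 157898635240) .n) (.c 1 (.c 4 (.c 1 (.l 115495102192) .n) .n) (.c 2 (.c 2 (.c 2 (.l
  83853485808) .n) .n) (.c 3 (.c 0 (.c 3 (.l 56694158704) .n) .n) .n)))) (.c 3 (.c 0 (.c 3 (.c 2
  (.l 59993946144) .n) .n) (.c 1 (.c 1 (.c 3 (.l 39390127296) .n) .n) .n)) .n)))) (.c 3 (.c 0
  (.c 1 (.c 6 (.l 115199117780) .n) (.c 2 (.c 4 (.c 1 (.l 84570980416) .n) .n) (.c 3 (.c 2 (.c 2
  (.l 60850957992) .n) .n) .n))) (.c 1 (.c 0 (.c 5 (.c 1 (.l 60695403980) .n) .n) (.c 1 (.c 3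
  (.c 2 (.l 43516525020) .n) .n) (.c 2 (.c 1 (.c 3 (.l 27620745112) .n) .n) .n))) (.c 2 (.c 0
  (.c 2 (.c 3 (.l 17690141672) .n) .n) .n) .n))) .n)))) (.c 3 (.c 0 (.c 0 (.c 6 (.c 3 (.l
  286170143112) .n) (.c 7 (.c 1 (.c 1 (.l 209031571812) .n) .n) .n)) (.c 1 (.c 4 (.c 4 (.l
  211710458856) .n) (.c 5 (.c 2 (.c 1 (.l 154405606596) .n) .n) (.c 6 (.c 0 (.c 2 (.l
  109693338804) .n) .n) .n))) (.c 2 (.c 2 (.c 5 (.l 156065362068) .n) (.c 3 (.c 3 (.c 1 (.l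
  113775091516) .n) .n) (.c 4 (.c 1 (.c 2 (.l 82185193744) .n) .n) .n))) (.c 3 (.c 0 (.c 6 (.l
  114110665320) .n) (.c 1 (.c 4 (.c 1 (.l 83484117732) .n) .n) (.c 2 (.c 2 (.c 2 (.l
  60205616532) .n) .n) (.c 3 (.c 0 (.c 3 (.l 39269508552) .n) .n) .n)))) (.c 4 (.c 0 (.c 3 (.c 2
  (.l 43248772512) .n) .n) .n) .n))))) (.c 1 (.c 0 (.c 3 (.c 5 (.l 113640397052) .n) (.c 4 (.c 3
  (.c 1 (.l 83268298400) .n) .n) (.c 5 (.c 1 (.c 2 (.l 59737498040) .n) .n) .n))) (.c 1 (.c 1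
  (.c 6 (.l 82999196150) .n) (.c 2 (.c 4 (.c 1 (.l 60979100212) .n) .n) (.c 3 (.c 2 (.c 2 (.l
  44007686466) .n) .n) .n))) (.c 2 (.c 0 (.c 5 (.c 1 (.l 43683168340) .n) .n) (.c 1 (.c 3 (.c 2
  (.l 31262359256) .n) .n) (.c 2 (.c 1 (.c 3 (.l 19461595780) .n) .n) .n))) .n))) (.c 2 (.c 0
  (.c 1 (.c 5 (.c 1 (.l 31023871540) .n) .n) (.c 2 (.c 3 (.c 2 (.l 21079137264) .n) .n) .n)) .n)
  .n))) .n)))) (.c 1 (.c 0 (.c 0 (.c 2 (.c 9 (.l 1637372755424) .n) (.c 3 (.c 7 (.c 1 (.l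
  1222997088698) .n) .n) (.c 4 (.c 5 (.c 2 (.l 912164805504) .n) (.c 6 (.c 0 (.c 1 (.l
  669863082600) .n) .n) .n)) (.c 5 (.c 3 (.c 3 (.l 679302137720) .n) (.c 4 (.c 1 (.c 1 (.l
  498059684440) .n) .n) .n)) (.c 6 (.c 1 (.c 4 (.l 505043773376) .n) (.c 2 (.c 2 (.c 1 (.l
  369712342592) .n) .n) (.c 3 (.c 0 (.c 2 (.l 265518015936) .n) .n) .n))) (.c 7 (.c 0 (.c 3 (.c
  1 (.l 273936244512) .n) .n) (.c 1 (.c 1 (.c 2 (.l 196886482016) .n) .n) .n)) .n)))))) (.c 1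
  (.c 0 (.c 10 (.l 1220485389312) .n) (.c 1 (.c 8 (.c 1 (.l 910376945048) .n) .n) (.c 2 (.c 6
  (.c 2 (.l 678049149088) .n) (.c 7 (.c 0 (.c 1 (.l 497356979006) .n) .n) .n)) (.c 3 (.c 4 (.c 3
  (.l 504215335184) .n) (.c 5 (.c 1 (.c 1 (.l 369247641868) .n) .n) .n)) (.c 4 (.c 2 (.c 4 (.l
  374285554864) .n) (.c 3 (.c 2 (.c 1 (.l 273666840512) .n) .n) (.c 4 (.c 0 (.c 2 (.l
  199610793040) .n) .n) .n))) (.c 5 (.c 0 (.c 5 (.l 277151335800) .n) (.c 1 (.c 3 (.c 1 (.l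
  202435307192) .n) .n) (.c 2 (.c 1 (.c 2 (.l 146762718272) .n) .n) .n))) (.c 6 (.c 0 (.c 2 (.c
  2 (.l 106083168624) .n) .n) (.c 1 (.c 0 (.c 3 (.l 67296202464) .n) .n) .n)) .n))))))) (.c 2
  (.c 0 (.c 7 (.c 2 (.l 503129281144) .n) (.c 8 (.c 0 (.c 1 (.l 368614951652) .n) .n) .n)) (.c 1
  (.c 5 (.c 3 (.l 373570391962) .n) (.c 6 (.c 1 (.c 1 (.l 273245134316) .n) .n) .n)) (.c 2 (.c 3
  (.c 4 (.l 276854484132) .n) (.c 4 (.c 2 (.c 1 (.l 202188536312) .n) .n) (.c 5 (.c 0 (.c 2 (.l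
  147038615736) .n) .n) .n))) (.c 3 (.c 1 (.c 5 (.l 204492580784) .n) (.c 2 (.c 3 (.c 1 (.l
  149299328216) .n) .n) (.c 3 (.c 1 (.c 2 (.l 108512078640) .n) .n) .n))) (.c 4 (.c 0 (.c 4 (.c
  1 (.l 109788328128) .n) .n) (.c 1 (.c 2 (.c 2 (.l 79184554016) .n) .n) (.c 2 (.c 0 (.c 3 (.l
  51745382112) .n) .n) .n))) .n))))) (.c 3 (.c 0 (.c 4 (.c 4 (.l 204294809936) .n) (.c 5 (.c 2
  (.c 1 (.l 149051175238) .n) .n) (.c 6 (.c 0 (.c 2 (.l 108139540044) .n) .n) .n))) (.c 1 (.c 2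
  (.c 5 (.l 150610900078) .n) (.c 3 (.c 3 (.c 1 (.l 109861505778) .n) .n) (.c 4 (.c 1 (.c 2 (.l
  79337863316) .n) .n) .n))) (.c 2 (.c 0 (.c 6 (.l 109860633480) .n) (.c 1 (.c 4 (.c 1 (.l
  80568561528) .n) .n) (.c 2 (.c 2 (.c 2 (.l 58307328016) .n) .n) (.c 3 (.c 0 (.c 3 (.l
  38194892856) .n) .n) .n)))) (.c 3 (.c 0 (.c 3 (.c 2 (.l 41297504988) .n) .n) (.c 1 (.c 1 (.c 3
  (.l 26234326716) .n) .n) .n)) .n)))) (.c 4 (.c 0 (.c 1 (.c 6 (.l 79829376640) .n) (.c 2 (.c 4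
  (.c 1 (.l 58829527840) .n) .n) (.c 3 (.c 2 (.c 2 (.l 41908268000) .n) .n) .n))) (.c 1 (.c 0
  (.c 5 (.c 1 (.l 41801589000) .n) .n) (.c 1 (.c 3 (.c 2 (.l 29845931824) .n) .n) (.c 2 (.c 1
  (.c 3 (.l 18612039152) .n) .n) .n))) .n)) .n))))) (.c 1 (.c 0 (.c 0 (.c 9 (.c 1 (.l
  492885397632) .n) .n) (.c 1 (.c 7 (.c 2 (.l 366078846252) .n) (.c 8 (.c 0 (.c 1 (.l
  267976059226) .n) .n) .n)) (.c 2 (.c 5 (.c 3 (.l 271404213292) .n) (.c 6 (.c 1 (.c 1 (.l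
  198371379228) .n) .n) .n)) (.c 3 (.c 3 (.c 4 (.l 200790208642) .n) (.c 4 (.c 2 (.c 1 (.l
  146562873462) .n) .n) (.c 5 (.c 0 (.c 2 (.l 106136936388) .n) .n) .n))) (.c 4 (.c 1 (.c 5 (.l
  147973212440) .n) (.c 2 (.c 3 (.c 1 (.l 108029220616) .n) .n) (.c 3 (.c 1 (.c 2 (.l
  77646064736) .n) .n) .n))) (.c 5 (.c 0 (.c 4 (.c 1 (.l 79118626840) .n) .n) (.c 1 (.c 2 (.c 2
  (.l 55999949424) .n) .n) (.c 2 (.c 0 (.c 3 (.l 36050617360) .n) .n) .n))) .n)))))) (.c 1 (.c 0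
  (.c 6 (.c 3 (.l 200124051288) .n) (.c 7 (.c 1 (.c 1 (.l 146118587048) .n) .n) .n)) (.c 1 (.c 4
  (.c 4 (.l 147827232752) .n) (.c 5 (.c 2 (.c 1 (.l 107805931944) .n) .n) (.c 6 (.c 0 (.c 2 (.l
  76592372908) .n) .n) .n))) (.c 2 (.c 2 (.c 5 (.l 108638269150) .n) (.c 3 (.c 3 (.c 1 (.l
  79314248040) .n) .n) (.c 4 (.c 1 (.c 2 (.l 56639150068) .n) .n) .n))) (.c 3 (.c 0 (.c 6 (.l
  79368375420) .n) (.c 1 (.c 4 (.c 1 (.l 57986683028) .n) .n) (.c 2 (.c 2 (.c 2 (.l 41373819924)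
  .n) .n) (.c 3 (.c 0 (.c 3 (.l 26564992358) .n) .n) .n)))) (.c 4 (.c 0 (.c 3 (.c 2 (.l
  29168852632) .n) .n) (.c 1 (.c 1 (.c 3 (.l 18242819440) .n) .n) .n)) .n))))) (.c 2 (.c 0 (.c 3
  (.c 5 (.l 79035738632) .n) (.c 4 (.c 3 (.c 1 (.l 57917701720) .n) .n) (.c 5 (.c 1 (.c 2 (.l
  41023794846) .n) .n) .n))) (.c 1 (.c 1 (.c 6 (.l 57272040260) .n) (.c 2 (.c 4 (.c 1 (.l
  42250360060) .n) .n) (.c 3 (.c 2 (.c 2 (.l 29829610620) .n) .n) (.c 4 (.c 0 (.c 3 (.l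
  18875402804) .n) .n) .n)))) (.c 2 (.c 0 (.c 5 (.c 1 (.l 30241763100) .n) .n) (.c 1 (.c 3 (.c 2
  (.l 21332170912) .n) .n) (.c 2 (.c 1 (.c 3 (.l 13346792508) .n) .n) .n))) .n))) (.c 3 (.c 0
  (.c 1 (.c 5 (.c 1 (.l 21291901560) .n) .n) (.c 2 (.c 3 (.c 2 (.l 14154840922) .n) .n) .n)) .n)
  .n)))) (.c 2 (.c 0 (.c 0 (.c 5 (.c 4 (.l 77356324692) .n) (.c 6 (.c 2 (.c 1 (.l 56437548932)
  .n) .n) .n)) (.c 1 (.c 3 (.c 5 (.l 56452613748) .n) (.c 4 (.c 3 (.c 1 (.l 41532752836) .n) .n)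
  (.c 5 (.c 1 (.c 2 (.l 27039791966) .n) .n) .n))) (.c 2 (.c 1 (.c 6 (.l 40603590040) .n) (.c 2
  (.c 4 (.c 1 (.l 30028536720) .n) .n) (.c 3 (.c 2 (.c 2 (.l 20104104592) .n) .n) .n))) (.c 3
  (.c 1 (.c 3 (.c 2 (.l 14224738164) .n) .n) .n) .n)))) (.c 1 (.c 0 (.c 2 (.c 6 (.l 27022543760)
  .n) (.c 3 (.c 4 (.c 1 (.l 20866415712) .n) .n) (.c 4 (.c 2 (.c 2 (.l 14294154892) .n) .n)
  .n))) (.c 1 (.c 1 (.c 5 (.c 1 (.l 14805020900) .n) .n) (.c 2 (.c 3 (.c 2 (.l 9964292892) .n)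
  .n) .n)) .n)) .n)) .n))) (.c 2 (.c 0 (.c 0 (.c 0 (.c 8 (.c 2 (.l 134753971072) .n) .n) (.c 1
  (.c 6 (.c 3 (.l 99386797120) .n) (.c 7 (.c 1 (.c 1 (.l 72860665332) .n) .n) .n)) (.c 2 (.c 4
  (.c 4 (.l 73055124624) .n) (.c 5 (.c 2 (.c 1 (.l 53539606380) .n) .n) .n)) (.c 3 (.c 2 (.c 5
  (.l 53228730084) .n) (.c 3 (.c 3 (.c 1 (.l 39175734200) .n) .n) (.c 4 (.c 1 (.c 2 (.l
  25752447476) .n) .n) .n))) (.c 4 (.c 1 (.c 4 (.c 1 (.l 28213459584) .n) .n) (.c 2 (.c 2 (.c 2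
  (.l 18341792272) .n) .n) .n)) .n))))) (.c 1 (.c 0 (.c 5 (.c 4 (.l 53041695264) .n) (.c 6 (.c 2
  (.c 1 (.l 38864818160) .n) .n) .n)) (.c 1 (.c 3 (.c 5 (.l 38547618764) .n) (.c 4 (.c 3 (.c 1
  (.l 28478480440) .n) .n) (.c 5 (.c 1 (.c 2 (.l 18107236360) .n) .n) .n))) (.c 2 (.c 1 (.c 6
  (.l 27603683500) .n) (.c 2 (.c 4 (.c 1 (.l 20468262024) .n) .n) (.c 3 (.c 2 (.c 2 (.l
  13050201264) .n) .n) .n))) .n))) .n)) .n) .n))) (.c 1 (.c 0 (.c 0 (.c 0 (.c 1 (.c 10 (.l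
  404849629632) .n) (.c 2 (.c 8 (.c 1 (.l 301014317056) .n) .n) (.c 3 (.c 6 (.c 2 (.l
  223418220916) .n) (.c 7 (.c 0 (.c 1 (.l 163617063044) .n) .n) .n)) (.c 4 (.c 4 (.c 3 (.l
  165225560688) .n) (.c 5 (.c 1 (.c 1 (.l 121072944568) .n) .n) .n)) (.c 5 (.c 2 (.c 4 (.l
  121891402480) .n) (.c 3 (.c 2 (.c 1 (.l 89134314840) .n) .n) (.c 4 (.c 0 (.c 2 (.l
  60924413480) .n) .n) .n))) (.c 6 (.c 0 (.c 5 (.l 89871530880) .n) (.c 1 (.c 3 (.c 1 (.l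
  65282234768) .n) .n) (.c 2 (.c 1 (.c 2 (.l 43949887808) .n) .n) .n))) .n)))))) (.c 1 (.c 0 (.c
  9 (.c 1 (.l 219965032896) .n) .n) (.c 1 (.c 7 (.c 2 (.l 164330130762) .n) (.c 8 (.c 0 (.c 1
  (.l 119965237296) .n) .n) .n)) (.c 2 (.c 5 (.c 3 (.l 121779365224) .n) (.c 6 (.c 1 (.c 1 (.l
  88946845540) .n) .n) .n)) (.c 3 (.c 3 (.c 4 (.l 89807449476) .n) (.c 4 (.c 2 (.c 1 (.l
  65663742944) .n) .n) (.c 5 (.c 0 (.c 2 (.l 46345043838) .n) .n) .n))) (.c 4 (.c 1 (.c 5 (.l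
  65696409232) .n) (.c 2 (.c 3 (.c 1 (.l 48149882824) .n) .n) (.c 3 (.c 1 (.c 2 (.l 33371704408)
  .n) .n) .n))) (.c 5 (.c 0 (.c 4 (.c 1 (.l 34951288400) .n) .n) (.c 1 (.c 2 (.c 2 (.l
  23064965328) .n) .n) .n)) .n)))))) (.c 2 (.c 0 (.c 6 (.c 3 (.l 89383270148) .n) (.c 7 (.c 1
  (.c 1 (.l 65235518740) .n) .n) .n)) (.c 1 (.c 4 (.c 4 (.l 65542572420) .n) (.c 5 (.c 2 (.c 1
  (.l 47947015676) .n) .n) .n)) (.c 2 (.c 2 (.c 5 (.l 47809906032) .n) (.c 3 (.c 3 (.c 1 (.l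
  35180681312) .n) .n) (.c 4 (.c 1 (.c 2 (.l 24295766524) .n) .n) .n))) (.c 3 (.c 0 (.c 6 (.l
  34241695840) .n) (.c 1 (.c 4 (.c 1 (.l 25380058916) .n) .n) (.c 2 (.c 2 (.c 2 (.l 17375222976)
  .n) .n) .n))) .n)))) (.c 3 (.c 0 (.c 3 (.c 5 (.l 33976218968) .n) (.c 4 (.c 3 (.c 1 (.l
  25190409728) .n) .n) .n)) (.c 1 (.c 2 (.c 4 (.c 1 (.l 18220310552) .n) .n) (.c 3 (.c 2 (.c 2
  (.l 11991111052) .n) .n) .n)) .n)) .n)))) (.c 1 (.c 0 (.c 0 (.c 8 (.c 2 (.l 84662342240) .n)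
  .n) (.c 1 (.c 6 (.c 3 (.l 63312002898) .n) (.c 7 (.c 1 (.c 1 (.l 46161475878) .n) .n) .n)) (.c
  2 (.c 4 (.c 4 (.l 46554259252) .n) (.c 5 (.c 2 (.c 1 (.l 34186122628) .n) .n) .n)) (.c 3 (.c 2
  (.c 5 (.l 33765525852) .n) (.c 3 (.c 3 (.c 1 (.l 24937065032) .n) .n) (.c 4 (.c 1 (.c 2 (.l
  15780838360) .n) .n) .n))) (.c 4 (.c 1 (.c 4 (.c 1 (.l 17851128104) .n) .n) .n) .n))))) (.c 1
  (.c 0 (.c 5 (.c 4 (.l 33561347964) .n) (.c 6 (.c 2 (.c 1 (.l 24670234822) .n) .n) .n)) (.c 1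
  (.c 3 (.c 5 (.l 24094684854) .n) (.c 4 (.c 3 (.c 1 (.l 17982060162) .n) .n) .n)) (.c 2 (.c 1
  (.c 6 (.l 17031176160) .n) (.c 2 (.c 4 (.c 1 (.l 12770784576) .n) .n) (.c 3 (.c 2 (.c 2 (.l
  7587838148) .n) .n) .n))) .n))) .n)) .n)) .n) .n))

noncomputable def t21_10 : Tr := (.c 0 (.c 0 (.c 0 (.c 0 (.c 0 (.c 11 (.l 48251508480) .n) (.c 1
  (.c 9 (.c 1 (.l 35659908480) .n) .n) (.c 2 (.c 7 (.c 2 (.l 26312345920) .n) (.c 8 (.c 0 (.c 1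
  (.l 19197704960) .n) .n) .n)) (.c 3 (.c 5 (.c 3 (.l 19382885280) .n) (.c 6 (.c 1 (.c 1 (.l
  14118032240) .n) .n) (.c 7 (.c 0 (.c 0 (.c 1 (.l 7199139360) .n) .n) .n) .n))) (.c 4 (.c 3 (.c
  4 (.l 14253550336) .n) (.c 4 (.c 2 (.c 1 (.l 10363669504) .n) .n) (.c 5 (.c 0 (.c 2 (.l
  7517813120) .n) (.c 1 (.c 0 (.c 1 (.l 5265523200) .n) .n) .n)) .n))) (.c 5 (.c 1 (.c 5 (.l
  10462509160) .n) (.c 2 (.c 3 (.c 1 (.l 7593232160) .n) .n) (.c 3 (.c 1 (.c 2 (.l 5497444800)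
  .n) (.c 2 (.c 0 (.c 1 (.l 3843404960) .n) .n) .n)) (.c 4 (.c 0 (.c 1 (.c 1 (.l 2766671680) .n)
  .n) .n) .n)))) (.c 6 (.c 0 (.c 4 (.c 1 (.l 5552231200) .n) .n) (.c 1 (.c 2 (.c 2 (.l
  4011579456) .n) (.c 3 (.c 0 (.c 1 (.l 2799322368) .n) .n) .n)) (.c 2 (.c 0 (.c 3 (.l
  2890550976) .n) (.c 1 (.c 1 (.c 1 (.l 2010510848) .n) .n) .n)) (.c 3 (.c 0 (.c 0 (.c 2 (.l
  928179840) .n) .n) .n) .n)))) (.c 7 (.c 0 (.c 1 (.c 3 (.l 2099748672) .n) (.c 2 (.c 1 (.c 1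
  (.l 1457477504) .n) .n) .n)) (.c 1 (.c 0 (.c 2 (.c 1 (.l 1040788672) .n) .n) .n) .n))
  .n)))))))) (.c 1 (.c 0 (.c 8 (.c 2 (.l 19197704960) .n) (.c 9 (.c 0 (.c 1 (.l 13989118080) .n)
  .n) .n)) (.c 1 (.c 6 (.c 3 (.l 14118032288) .n) (.c 7 (.c 1 (.c 1 (.l 10269804048) .n) .n) (.c
  8 (.c 0 (.c 0 (.c 1 (.l 5224459520) .n) .n) .n) .n))) (.c 2 (.c 4 (.c 4 (.l 10363669072) .n)
  (.c 5 (.c 2 (.c 1 (.l 7525156992) .n) .n) (.c 6 (.c 0 (.c 2 (.l 5451107936) .n) (.c 1 (.c 0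
  (.c 1 (.l 3814043408) .n) .n) .n)) .n))) (.c 3 (.c 2 (.c 5 (.l 7593229900) .n) (.c 3 (.c 3 (.c
  1 (.l 5503086136) .n) .n) (.c 4 (.c 1 (.c 2 (.l 3978389984) .n) (.c 2 (.c 0 (.c 1 (.l
  2778463264) .n) .n) .n)) (.c 5 (.c 0 (.c 1 (.c 1 (.l 1996969200) .n) .n) .n) .n)))) (.c 4 (.c
  0 (.c 6 (.l 5552191104) .n) (.c 1 (.c 4 (.c 1 (.l 4015910680) .n) .n) (.c 2 (.c 2 (.c 2 (.l
  2897156288) .n) (.c 3 (.c 0 (.c 1 (.l 2019492864) .n) .n) .n)) (.c 3 (.c 0 (.c 3 (.l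
  2084249376) .n) (.c 1 (.c 1 (.c 1 (.l 1448074944) .n) .n) .n)) (.c 4 (.c 0 (.c 0 (.c 2 (.l
  683214336) .n) .n) .n) .n))))) (.c 5 (.c 0 (.c 3 (.c 2 (.l 2104821200) .n) (.c 4 (.c 0 (.c 1
  (.l 1464313720) .n) .n) .n)) (.c 1 (.c 1 (.c 3 (.l 1510652416) .n) (.c 2 (.c 1 (.c 1 (.l
  1047380832) .n) .n) .n)) (.c 2 (.c 0 (.c 2 (.c 1 (.l 746601312) .n) .n) (.c 1 (.c 0 (.c 2 (.l
  484619808) .n) .n) .n)) .n))) (.c 6 (.c 0 (.c 0 (.c 4 (.l 772731360) .n) (.c 1 (.c 2 (.c 1 (.l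
  536998912) .n) .n) .n)) .n) .n))))))) (.c 2 (.c 0 (.c 5 (.c 4 (.l 7517813120) .n) (.c 6 (.c 2
  (.c 1 (.l 5451108032) .n) .n) (.c 7 (.c 0 (.c 2 (.l 3942979712) .n) (.c 1 (.c 0 (.c 1 (.l
  2755952416) .n) .n) .n)) .n))) (.c 1 (.c 3 (.c 5 (.l 5497437440) .n) (.c 4 (.c 3 (.c 1 (.l
  3978388976) .n) .n) (.c 5 (.c 1 (.c 2 (.l 2871790432) .n) (.c 2 (.c 0 (.c 1 (.l 2003491264)
  .n) .n) .n)) (.c 6 (.c 0 (.c 1 (.c 1 (.l 1437662512) .n) .n) .n) .n)))) (.c 2 (.c 1 (.c 6 (.l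
  4011518116) .n) (.c 2 (.c 4 (.c 1 (.l 2897150904) .n) .n) (.c 3 (.c 2 (.c 2 (.l 2086772160)
  .n) (.c 3 (.c 0 (.c 1 (.l 1453026384) .n) .n) .n)) (.c 4 (.c 0 (.c 3 (.l 1498779840) .n) (.c 1
  (.c 1 (.c 1 (.l 1040143136) .n) .n) .n)) (.c 5 (.c 0 (.c 0 (.c 2 (.l 488256800) .n) .n) .n)
  .n))))) (.c 3 (.c 0 (.c 5 (.c 1 (.l 2104744592) .n) .n) (.c 1 (.c 3 (.c 2 (.l 1512587744) .n)
  (.c 4 (.c 0 (.c 1 (.l 1051133728) .n) .n) .n)) (.c 2 (.c 1 (.c 3 (.l 1083726272) .n) (.c 2 (.c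
  1 (.c 1 (.l 750523616) .n) .n) .n)) (.c 3 (.c 0 (.c 2 (.c 1 (.l 534004480) .n) .n) (.c 1 (.c 0
  (.c 2 (.l 353685152) .n) .n) .n)) .n)))) (.c 4 (.c 0 (.c 2 (.c 3 (.l 781366496) .n) (.c 3 (.c
  1 (.c 1 (.l 539980496) .n) .n) .n)) (.c 1 (.c 0 (.c 4 (.l 550521760) .n) (.c 1 (.c 2 (.c 1 (.l
  383061728) .n) .n) (.c 2 (.c 0 (.c 2 (.l 212727968) .n) .n) .n))) (.c 2 (.c 0 (.c 1 (.c 2 (.l
  135116640) .n) .n) .n) .n))) .n))))) (.c 3 (.c 0 (.c 2 (.c 6 (.l 2890461556) .n) (.c 3 (.c 4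
  (.c 1 (.l 2084232336) .n) .n) (.c 4 (.c 2 (.c 2 (.l 1498785888) .n) (.c 3 (.c 0 (.c 1 (.l
  1042462992) .n) .n) .n)) (.c 5 (.c 0 (.c 3 (.l 1074571824) .n) (.c 1 (.c 1 (.c 1 (.l
  744944448) .n) .n) .n)) .n)))) (.c 1 (.c 0 (.c 7 (.l 2098825980) .n) (.c 1 (.c 5 (.c 1 (.l
  1510538394) .n) .n) (.c 2 (.c 3 (.c 2 (.l 1083724520) .n) (.c 4 (.c 0 (.c 1 (.l 752262484) .n)
  .n) .n)) (.c 3 (.c 1 (.c 3 (.l 775041608) .n) (.c 2 (.c 1 (.c 1 (.l 536145992) .n) .n) .n))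
  (.c 4 (.c 0 (.c 2 (.c 1 (.l 380727520) .n) .n) (.c 1 (.c 0 (.c 2 (.l 221599024) .n) .n) .n))
  .n))))) (.c 2 (.c 0 (.c 4 (.c 2 (.l 781266192) .n) (.c 5 (.c 0 (.c 1 (.l 541215532) .n) .n)
  .n)) (.c 1 (.c 2 (.c 3 (.l 557277168) .n) (.c 3 (.c 1 (.c 1 (.l 384684648) .n) .n) .n)) (.c 2
  (.c 0 (.c 4 (.l 390406336) .n) (.c 1 (.c 2 (.c 1 (.l 272346032) .n) .n) (.c 2 (.c 0 (.c 2 (.l
  136368304) .n) .n) .n))) .n))) (.c 3 (.c 0 (.c 1 (.c 4 (.l 276276144) .n) (.c 2 (.c 2 (.c 1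
  (.l 194085876) .n) .n) .n)) (.c 1 (.c 0 (.c 3 (.c 1 (.l 133263816) .n) .n) .n) .n)) .n)))) (.c
  4 (.c 0 (.c 0 (.c 6 (.c 1 (.l 776320560) .n) .n) (.c 1 (.c 4 (.c 2 (.l 556237584) .n) (.c 5
  (.c 0 (.c 1 (.l 384902864) .n) .n) .n)) (.c 2 (.c 2 (.c 3 (.l 395890864) .n) (.c 3 (.c 1 (.c 1
  (.l 273071456) .n) .n) .n)) (.c 3 (.c 0 (.c 4 (.l 277198368) .n) (.c 1 (.c 2 (.c 1 (.l
  192879232) .n) .n) .n)) .n)))) (.c 1 (.c 0 (.c 3 (.c 3 (.l 280532472) .n) (.c 4 (.c 1 (.c 1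
  (.l 194557600) .n) .n) .n)) (.c 1 (.c 1 (.c 4 (.l 193275904) .n) (.c 2 (.c 2 (.c 1 (.l
  137015472) .n) .n) .n)) .n)) .n)) .n))))) (.c 1 (.c 0 (.c 0 (.c 7 (.c 3 (.l 7199139360) .n)
  (.c 8 (.c 1 (.c 1 (.l 5224459520) .n) .n) .n)) (.c 1 (.c 5 (.c 4 (.l 5265523200) .n) (.c 6 (.c
  2 (.c 1 (.l 3814043456) .n) .n) (.c 7 (.c 0 (.c 2 (.l 2755952416) .n) (.c 1 (.c 0 (.c 1 (.l
  1925164528) .n) .n) .n)) .n))) (.c 2 (.c 3 (.c 5 (.l 3843400188) .n) (.c 4 (.c 3 (.c 1 (.l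
  2778462880) .n) .n) (.c 5 (.c 1 (.c 2 (.l 2003491360) .n) (.c 2 (.c 0 (.c 1 (.l 1396914688)
  .n) .n) .n)) (.c 6 (.c 0 (.c 1 (.c 1 (.l 1001311664) .n) .n) .n) .n)))) (.c 3 (.c 1 (.c 6 (.l
  2799269190) .n) (.c 2 (.c 4 (.c 1 (.l 2019487804) .n) .n) (.c 3 (.c 2 (.c 2 (.l 1453026384)
  .n) (.c 3 (.c 0 (.c 1 (.l 1011156936) .n) .n) .n)) (.c 4 (.c 0 (.c 3 (.l 1042242768) .n) (.c 1
  (.c 1 (.c 1 (.l 723033808) .n) .n) .n)) .n)))) (.c 4 (.c 0 (.c 5 (.c 1 (.l 1464229752) .n) .n)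
  (.c 1 (.c 3 (.c 2 (.l 1051130720) .n) (.c 4 (.c 0 (.c 1 (.l 730028800) .n) .n) .n)) (.c 2 (.c
  1 (.c 3 (.l 752092832) .n) (.c 2 (.c 1 (.c 1 (.l 520663808) .n) .n) .n)) (.c 3 (.c 0 (.c 2 (.c
  1 (.l 369941120) .n) .n) (.c 1 (.c 0 (.c 2 (.l 205204608) .n) .n) .n)) .n)))) (.c 5 (.c 0 (.c
  2 (.c 3 (.l 541087680) .n) (.c 3 (.c 1 (.c 1 (.l 373826440) .n) .n) .n)) (.c 1 (.c 0 (.c 4 (.l
  378771424) .n) (.c 1 (.c 2 (.c 1 (.l 264773312) .n) .n) .n)) .n)) .n)))))) (.c 1 (.c 0 (.c 4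
  (.c 5 (.l 2766650408) .n) (.c 5 (.c 3 (.c 1 (.l 1996961280) .n) .n) (.c 6 (.c 1 (.c 2 (.l
  1437657376) .n) (.c 2 (.c 0 (.c 1 (.l 1001309072) .n) .n) .n)) (.c 7 (.c 0 (.c 1 (.c 1 (.l
  716521792) .n) .n) .n) .n)))) (.c 1 (.c 2 (.c 6 (.l 2010436834) .n) (.c 3 (.c 4 (.c 1 (.l
  1448063588) .n) .n) (.c 4 (.c 2 (.c 2 (.l 1040141984) .n) (.c 3 (.c 0 (.c 1 (.l 723033136) .n)
  .n) .n)) (.c 5 (.c 0 (.c 3 (.l 744668344) .n) (.c 1 (.c 1 (.c 1 (.l 516091016) .n) .n) .n))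
  .n)))) (.c 2 (.c 0 (.c 7 (.l 1456853900) .n) (.c 1 (.c 5 (.c 1 (.l 1047275700) .n) .n) (.c 2
  (.c 3 (.c 2 (.l 750512120) .n) (.c 4 (.c 0 (.c 1 (.l 520658060) .n) .n) .n)) (.c 3 (.c 1 (.c 3
  (.l 535956408) .n) (.c 2 (.c 1 (.c 1 (.l 370648896) .n) .n) .n)) (.c 4 (.c 0 (.c 2 (.c 1 (.l
  262836400) .n) .n) (.c 1 (.c 0 (.c 2 (.l 151896768) .n) .n) .n)) .n))))) (.c 3 (.c 0 (.c 4 (.c
  2 (.l 539820632) .n) (.c 5 (.c 0 (.c 1 (.l 373746112) .n) .n) .n)) (.c 1 (.c 2 (.c 3 (.l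
  384483220) .n) (.c 3 (.c 1 (.c 1 (.l 265355522) .n) .n) .n)) (.c 2 (.c 0 (.c 4 (.l 267014388)
  .n) (.c 1 (.c 2 (.c 1 (.l 187593732) .n) .n) (.c 2 (.c 0 (.c 2 (.l 98422648) .n) .n) .n)))
  .n))) (.c 4 (.c 0 (.c 1 (.c 4 (.l 189499400) .n) (.c 2 (.c 2 (.c 1 (.l 133309752) .n) .n) .n))
  .n) .n))))) (.c 2 (.c 0 (.c 1 (.c 7 (.l 1040241148) .n) (.c 2 (.c 5 (.c 1 (.l 746467380) .n)
  .n) (.c 3 (.c 3 (.c 2 (.l 533975504) .n) (.c 4 (.c 0 (.c 1 (.l 370017448) .n) .n) .n)) (.c 4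
  (.c 1 (.c 3 (.l 380336592) .n) (.c 2 (.c 1 (.c 1 (.l 262901680) .n) .n) .n)) (.c 5 (.c 0 (.c 2
  (.c 1 (.l 185934096) .n) .n) .n) .n))))) (.c 1 (.c 0 (.c 6 (.c 1 (.l 535100620) .n) .n) (.c 1
  (.c 4 (.c 2 (.l 382872156) .n) (.c 5 (.c 0 (.c 1 (.l 264785038) .n) .n) .n)) (.c 2 (.c 2 (.c 3
  (.l 272050364) .n) (.c 3 (.c 1 (.c 1 (.l 187630560) .n) .n) .n)) (.c 3 (.c 0 (.c 4 (.l
  188253716) .n) (.c 1 (.c 2 (.c 1 (.l 132333012) .n) .n) (.c 2 (.c 0 (.c 2 (.l 60061952) .n)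
  .n) .n))) .n)))) (.c 2 (.c 0 (.c 3 (.c 3 (.l 192247644) .n) (.c 4 (.c 1 (.c 1 (.l 133317608)
  .n) .n) .n)) (.c 1 (.c 1 (.c 4 (.l 132145956) .n) (.c 2 (.c 2 (.c 1 (.l 93732628) .n) .n) .n))
  (.c 2 (.c 0 (.c 3 (.c 1 (.l 62615216) .n) .n) .n) .n))) .n))) (.c 3 (.c 0 (.c 0 (.c 5 (.c 2
  (.l 189160840) .n) .n) (.c 1 (.c 3 (.c 3 (.l 134666670) .n) (.c 4 (.c 1 (.c 1 (.l 93449048)
  .n) .n) .n)) (.c 2 (.c 1 (.c 4 (.l 92239776) .n) (.c 2 (.c 2 (.c 1 (.l 65468604) .n) .n) .n))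
  .n))) (.c 1 (.c 0 (.c 2 (.c 4 (.l 58527232) .n) .n) .n) .n)) .n)))) (.c 2 (.c 0 (.c 0 (.c 3
  (.c 6 (.l 992072748) .n) (.c 4 (.c 4 (.c 1 (.l 712508032) .n) .n) (.c 5 (.c 2 (.c 2 (.l
  509407040) .n) (.c 3 (.c 0 (.c 1 (.l 354095520) .n) .n) .n)) (.c 6 (.c 0 (.c 3 (.l 361426560)
  .n) (.c 1 (.c 1 (.c 1 (.l 251533056) .n) .n) .n)) .n)))) (.c 1 (.c 1 (.c 7 (.l 715383136) .n)
  (.c 2 (.c 5 (.c 1 (.l 512680016) .n) .n) (.c 3 (.c 3 (.c 2 (.l 366290224) .n) (.c 4 (.c 0 (.c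
  1 (.l 253667016) .n) .n) .n)) (.c 4 (.c 1 (.c 3 (.l 259378288) .n) (.c 2 (.c 1 (.c 1 (.l
  180006816) .n) .n) .n)) .n)))) (.c 2 (.c 0 (.c 6 (.c 1 (.l 366602480) .n) .n) (.c 1 (.c 4 (.c
  2 (.l 261626872) .n) (.c 5 (.c 0 (.c 1 (.l 181040252) .n) .n) .n)) (.c 2 (.c 2 (.c 3 (.l
  185028464) .n) (.c 3 (.c 1 (.c 1 (.l 128140816) .n) .n) .n)) (.c 3 (.c 0 (.c 4 (.l 125424544)
  .n) (.c 1 (.c 2 (.c 1 (.l 89932944) .n) .n) .n)) .n)))) (.c 3 (.c 0 (.c 3 (.c 3 (.l 130214996)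
  .n) .n) (.c 1 (.c 1 (.c 4 (.l 89045748) .n) (.c 2 (.c 2 (.c 1 (.l 63500032) .n) .n) .n)) .n))
  .n)))) (.c 1 (.c 0 (.c 0 (.c 8 (.l 362556012) .n) (.c 1 (.c 6 (.c 1 (.l 258265252) .n) .n) (.c
  2 (.c 4 (.c 2 (.l 183911528) .n) .n) (.c 3 (.c 2 (.c 3 (.l 129139032) .n) (.c 3 (.c 1 (.c 1
  (.l 89781568) .n) .n) .n)) (.c 4 (.c 0 (.c 4 (.l 86242480) .n) .n) .n))))) (.c 1 (.c 0 (.c 5
  (.c 2 (.l 128016600) .n) .n) (.c 1 (.c 3 (.c 3 (.l 90819940) .n) (.c 4 (.c 1 (.c 1 (.l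
  63226276) .n) .n) .n)) (.c 2 (.c 1 (.c 4 (.l 61189676) .n) (.c 2 (.c 2 (.c 1 (.l 44154300) .n)
  .n) .n)) .n))) (.c 2 (.c 0 (.c 2 (.c 4 (.l 39306256) .n) .n) .n) .n))) .n)) (.c 3 (.c 0 (.c 0
  (.c 1 (.c 5 (.c 2 (.l 59327840) .n) .n) (.c 2 (.c 3 (.c 3 (.l 40445340) .n) .n) .n)) .n) .n)
  .n)))) (.c 1 (.c 0 (.c 0 (.c 0 (.c 6 (.c 4 (.l 1698090880) .n) (.c 7 (.c 2 (.c 1 (.l
  1225800800) .n) .n) (.c 8 (.c 0 (.c 2 (.l 882676480) .n) .n) .n))) (.c 1 (.c 4 (.c 5 (.l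
  1231991680) .n) (.c 5 (.c 3 (.c 1 (.l 887523120) .n) .n) (.c 6 (.c 1 (.c 2 (.l 637712096) .n)
  (.c 2 (.c 0 (.c 1 (.l 443758528) .n) .n) .n)) .n))) (.c 2 (.c 2 (.c 6 (.l 891709392) .n) (.c 3
  (.c 4 (.c 1 (.l 641025828) .n) .n) (.c 4 (.c 2 (.c 2 (.l 459553344) .n) (.c 3 (.c 0 (.c 1 (.l
  319163744) .n) .n) .n)) (.c 5 (.c 0 (.c 3 (.l 327351600) .n) (.c 1 (.c 1 (.c 1 (.l 227374896)
  .n) .n) .n)) .n)))) (.c 3 (.c 0 (.c 7 (.l 643625052) .n) (.c 1 (.c 5 (.c 1 (.l 461725160) .n)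
  .n) (.c 2 (.c 3 (.c 2 (.l 329896592) .n) (.c 4 (.c 0 (.c 1 (.l 228906908) .n) .n) .n)) (.c 3
  (.c 1 (.c 3 (.l 234151964) .n) (.c 2 (.c 1 (.c 1 (.l 162640648) .n) .n) .n)) .n)))) (.c 4 (.c
  0 (.c 4 (.c 2 (.l 235892496) .n) .n) (.c 1 (.c 2 (.c 3 (.l 165860624) .n) (.c 3 (.c 1 (.c 1
  (.l 115604224) .n) .n) .n)) (.c 2 (.c 0 (.c 4 (.l 112427904) .n) (.c 1 (.c 2 (.c 1 (.l
  81092512) .n) .n) .n)) .n))) .n))))) (.c 1 (.c 0 (.c 3 (.c 6 (.l 633340036) .n) (.c 4 (.c 4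
  (.c 1 (.l 454507616) .n) .n) (.c 5 (.c 2 (.c 2 (.l 324819520) .n) (.c 3 (.c 0 (.c 1 (.l
  225637280) .n) .n) .n)) (.c 6 (.c 0 (.c 3 (.l 230199408) .n) .n) .n)))) (.c 1 (.c 1 (.c 7 (.l
  455292282) .n) (.c 2 (.c 5 (.c 1 (.l 326338884) .n) .n) (.c 3 (.c 3 (.c 2 (.l 232989474) .n)
  (.c 4 (.c 0 (.c 1 (.l 161352406) .n) .n) .n)) (.c 4 (.c 1 (.c 3 (.l 164671912) .n) (.c 2 (.c 1
  (.c 1 (.l 114416208) .n) .n) .n)) .n)))) (.c 2 (.c 0 (.c 6 (.c 1 (.l 233033956) .n) .n) (.c 1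
  (.c 4 (.c 2 (.l 165917996) .n) (.c 5 (.c 0 (.c 1 (.l 114945554) .n) .n) .n)) (.c 2 (.c 2 (.c 3
  (.l 116961244) .n) (.c 3 (.c 1 (.c 1 (.l 81307260) .n) .n) .n)) (.c 3 (.c 0 (.c 4 (.l
  78749096) .n) (.c 1 (.c 2 (.c 1 (.l 56948936) .n) .n) .n)) .n)))) (.c 3 (.c 0 (.c 3 (.c 3 (.l
  81258754) .n) .n) (.c 1 (.c 1 (.c 4 (.l 54355164) .n) (.c 2 (.c 2 (.c 1 (.l 39847532) .n) .n)
  .n)) .n)) .n)))) (.c 2 (.c 0 (.c 0 (.c 8 (.l 225609748) .n) (.c 1 (.c 6 (.c 1 (.l 162290932)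
  .n) .n) (.c 2 (.c 4 (.c 2 (.l 115411304) .n) .n) (.c 3 (.c 2 (.c 3 (.l 80790788) .n) .n)
  .n)))) (.c 1 (.c 0 (.c 5 (.c 2 (.l 80316640) .n) .n) (.c 1 (.c 3 (.c 3 (.l 56403084) .n) .n)
  (.c 2 (.c 1 (.c 4 (.l 37339756) .n) .n) .n))) .n)) .n))) (.c 1 (.c 0 (.c 0 (.c 2 (.c 7 (.l
  215354788) .n) (.c 3 (.c 5 (.c 1 (.l 154129168) .n) .n) (.c 4 (.c 3 (.c 2 (.l 107734360) .n)
  .n) (.c 5 (.c 1 (.c 3 (.l 72505560) .n) .n) .n)))) (.c 1 (.c 0 (.c 8 (.l 151605426) .n) (.c 1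
  (.c 6 (.c 1 (.l 108842234) .n) .n) (.c 2 (.c 4 (.c 2 (.l 76965628) .n) .n) (.c 3 (.c 2 (.c 3
  (.l 52103930) .n) .n) .n)))) (.c 2 (.c 0 (.c 5 (.c 2 (.l 52735320) .n) .n) (.c 1 (.c 3 (.c 3
  (.l 35707758) .n) .n) (.c 2 (.c 1 (.c 4 (.l 23030940) .n) .n) .n))) .n))) (.c 1 (.c 0 (.c 1
  (.c 5 (.c 2 (.l 35125760) .n) .n) (.c 2 (.c 3 (.c 3 (.l 23562152) .n) .n) .n)) .n) .n)) .n))
  .n)) (.c 1 (.c 0 (.c 0 (.c 0 (.c 0 (.c 5 (.c 5 (.l 191473880) .n) (.c 6 (.c 3 (.c 1 (.l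
  137311360) .n) .n) .n)) (.c 1 (.c 3 (.c 6 (.l 137303788) .n) (.c 4 (.c 4 (.c 1 (.l 98253576)
  .n) .n) (.c 5 (.c 2 (.c 2 (.l 70116000) .n) .n) .n))) (.c 2 (.c 1 (.c 7 (.l 98184364) .n) (.c
  2 (.c 5 (.c 1 (.l 70094644) .n) .n) (.c 3 (.c 3 (.c 2 (.l 49552688) .n) .n) (.c 4 (.c 1 (.c 3
  (.l 33684784) .n) .n) .n)))) (.c 3 (.c 1 (.c 4 (.c 2 (.l 34990240) .n) .n) (.c 2 (.c 2 (.c 3
  (.l 22685124) .n) .n) .n)) .n)))) (.c 1 (.c 0 (.c 3 (.c 5 (.c 1 (.l 48546422) .n) .n) (.c 4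
  (.c 3 (.c 2 (.l 33850576) .n) .n) .n)) (.c 1 (.c 1 (.c 6 (.c 1 (.l 33747722) .n) .n) (.c 2 (.c
  4 (.c 2 (.l 23755384) .n) .n) (.c 3 (.c 2 (.c 3 (.l 15582318) .n) .n) .n))) .n)) .n)) .n) .n)
  .n))

noncomputable def t21_11 : Tr := (.c 0 (.c 0 (.c 0 (.c 0 (.c 0 (.c 5 (.c 5 (.l 191474240) .n)
  (.c 6 (.c 3 (.c 1 (.l 137311360) .n) .n) (.c 7 (.c 1 (.c 2 (.l 98213920) .n) (.c 2 (.c 0 (.c 1
  (.l 68193440) .n) .n) .n)) (.c 8 (.c 0 (.c 1 (.c 1 (.l 48482560) .n) .n) .n) .n)))) (.c 1 (.c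
  3 (.c 6 (.l 137311360) .n) (.c 4 (.c 4 (.c 1 (.l 98254848) .n) .n) (.c 5 (.c 2 (.c 2 (.l
  70116000) .n) (.c 3 (.c 0 (.c 1 (.l 48589520) .n) .n) .n)) (.c 6 (.c 0 (.c 3 (.l 49889088) .n)
  (.c 1 (.c 1 (.c 1 (.l 34456544) .n) .n) (.c 2 (.c 0 (.c 0 (.c 1 (.l 15114880) .n) .n) .n)
  .n))) (.c 7 (.c 0 (.c 0 (.c 2 (.l 16662240) .n) .n) .n) .n))))) (.c 2 (.c 1 (.c 7 (.l
  98213920) .n) (.c 2 (.c 5 (.c 1 (.l 70116000) .n) .n) (.c 3 (.c 3 (.c 2 (.l 49913232) .n) (.c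
  4 (.c 0 (.c 1 (.l 34520096) .n) .n) .n)) (.c 4 (.c 1 (.c 3 (.l 35421600) .n) (.c 2 (.c 1 (.c 1
  (.l 24412704) .n) .n) (.c 3 (.c 0 (.c 0 (.c 1 (.l 10666304) .n) .n) .n) .n))) (.c 5 (.c 0 (.c
  2 (.c 1 (.l 17201952) .n) .n) (.c 1 (.c 0 (.c 2 (.l 11742016) .n) (.c 1 (.c 0 (.c 1 (.l
  7454368) .n) .n) .n)) .n)) .n))))) (.c 3 (.c 0 (.c 6 (.c 1 (.l 49889040) .n) .n) (.c 1 (.c 4
  (.c 2 (.l 35421600) .n) (.c 5 (.c 0 (.c 1 (.l 24447120) .n) .n) .n)) (.c 2 (.c 2 (.c 3 (.l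
  25067088) .n) (.c 3 (.c 1 (.c 1 (.l 17238648) .n) .n) (.c 4 (.c 0 (.c 0 (.c 1 (.l 7501440) .n)
  .n) .n) .n))) (.c 3 (.c 0 (.c 4 (.l 17675688) .n) (.c 1 (.c 2 (.c 1 (.l 12108512) .n) .n) (.c
  2 (.c 0 (.c 2 (.l 8244496) .n) (.c 1 (.c 0 (.c 1 (.l 5225072) .n) .n) .n)) .n))) (.c 4 (.c 0
  (.c 1 (.c 2 (.l 5738720) .n) .n) .n) .n))))) (.c 4 (.c 0 (.c 3 (.c 3 (.l 17675712) .n) (.c 4
  (.c 1 (.c 1 (.l 12128128) .n) .n) .n)) (.c 1 (.c 1 (.c 4 (.l 12422840) .n) (.c 2 (.c 2 (.c 1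
  (.l 8489696) .n) .n) (.c 3 (.c 0 (.c 2 (.l 5765504) .n) .n) .n))) (.c 2 (.c 0 (.c 3 (.c 1 (.l
  5915104) .n) .n) (.c 1 (.c 1 (.c 2 (.l 3997184) .n) .n) .n)) (.c 3 (.c 0 (.c 0 (.c 3 (.l
  1620864) .n) .n) .n) .n)))) (.c 5 (.c 0 (.c 0 (.c 5 (.l 6056720) .n) (.c 1 (.c 3 (.c 1 (.l
  4111800) .n) .n) (.c 2 (.c 1 (.c 2 (.l 2770560) .n) .n) .n))) (.c 1 (.c 0 (.c 2 (.c 2 (.l
  1900096) .n) .n) (.c 1 (.c 0 (.c 3 (.l 1063808) .n) .n) .n)) .n)) .n)))))) (.c 1 (.c 0 (.c 2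
  (.c 7 (.l 68193440) .n) (.c 3 (.c 5 (.c 1 (.l 48589520) .n) .n) (.c 4 (.c 3 (.c 2 (.l
  34520096) .n) (.c 4 (.c 0 (.c 1 (.l 23846464) .n) .n) .n)) (.c 5 (.c 1 (.c 3 (.l 24447120) .n)
  (.c 2 (.c 1 (.c 1 (.l 16829040) .n) .n) .n)) (.c 6 (.c 0 (.c 2 (.c 1 (.l 11832576) .n) .n) (.c
  1 (.c 0 (.c 2 (.l 8066688) .n) .n) .n)) .n))))) (.c 1 (.c 0 (.c 8 (.l 48482560) .n) (.c 1 (.c
  6 (.c 1 (.l 34456544) .n) .n) (.c 2 (.c 4 (.c 2 (.l 24412704) .n) (.c 5 (.c 0 (.c 1 (.l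
  16829040) .n) .n) .n)) (.c 3 (.c 2 (.c 3 (.l 17238648) .n) (.c 3 (.c 1 (.c 1 (.l 11840644) .n)
  .n) (.c 4 (.c 0 (.c 0 (.c 1 (.l 5142656) .n) .n) .n) .n))) (.c 4 (.c 0 (.c 4 (.l 12128072) .n)
  (.c 1 (.c 2 (.c 1 (.l 8297888) .n) .n) (.c 2 (.c 0 (.c 2 (.l 5642656) .n) (.c 1 (.c 0 (.c 1
  (.l 3573792) .n) .n) .n)) .n))) (.c 5 (.c 0 (.c 1 (.c 2 (.l 3918096) .n) .n) .n) .n)))))) (.c
  2 (.c 0 (.c 5 (.c 2 (.l 17201856) .n) (.c 6 (.c 0 (.c 1 (.l 11832528) .n) .n) .n)) (.c 1 (.c 3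
  (.c 3 (.l 12108512) .n) (.c 4 (.c 1 (.c 1 (.l 8297888) .n) .n) .n)) (.c 2 (.c 1 (.c 4 (.l
  8489468) .n) (.c 2 (.c 2 (.c 1 (.l 5794400) .n) .n) (.c 3 (.c 0 (.c 2 (.l 3929952) .n) (.c 1
  (.c 0 (.c 1 (.l 2484944) .n) .n) .n)) .n))) (.c 3 (.c 0 (.c 3 (.c 1 (.l 4026868) .n) .n) (.c 1
  (.c 1 (.c 2 (.l 2717568) .n) .n) .n)) (.c 4 (.c 0 (.c 0 (.c 3 (.l 1101600) .n) .n) .n) .n)))))
  (.c 3 (.c 0 (.c 2 (.c 4 (.l 5914596) .n) (.c 3 (.c 2 (.c 1 (.l 4026920) .n) .n) (.c 4 (.c 0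
  (.c 2 (.l 2723776) .n) .n) .n))) (.c 1 (.c 0 (.c 5 (.l 4104466) .n) (.c 1 (.c 3 (.c 1 (.l
  2786322) .n) .n) (.c 2 (.c 1 (.c 2 (.l 1874928) .n) .n) .n))) (.c 2 (.c 0 (.c 2 (.c 2 (.l
  1282064) .n) .n) (.c 1 (.c 0 (.c 3 (.l 722088) .n) .n) .n)) .n))) (.c 4 (.c 0 (.c 0 (.c 4 (.c
  1 (.l 1308392) .n) .n) (.c 1 (.c 2 (.c 2 (.l 873936) .n) .n) .n)) .n) .n))))) (.c 2 (.c 0 (.c
  0 (.c 7 (.c 1 (.l 16662240) .n) .n) (.c 1 (.c 5 (.c 2 (.l 11742016) .n) (.c 6 (.c 0 (.c 1 (.l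
  8066688) .n) .n) .n)) (.c 2 (.c 3 (.c 3 (.l 8244496) .n) (.c 4 (.c 1 (.c 1 (.l 5642656) .n)
  .n) .n)) (.c 3 (.c 1 (.c 4 (.l 5765160) .n) (.c 2 (.c 2 (.c 1 (.l 3929952) .n) .n) (.c 3 (.c 0
  (.c 2 (.l 2661888) .n) .n) .n))) (.c 4 (.c 0 (.c 3 (.c 1 (.l 2723648) .n) .n) (.c 1 (.c 1 (.c
  2 (.l 1831136) .n) .n) .n)) .n))))) (.c 1 (.c 0 (.c 4 (.c 3 (.l 5738432) .n) (.c 5 (.c 1 (.c 1
  (.l 3917952) .n) .n) .n)) (.c 1 (.c 2 (.c 4 (.l 3996408) .n) (.c 3 (.c 2 (.c 1 (.l 2717568)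
  .n) .n) (.c 4 (.c 0 (.c 2 (.l 1831136) .n) .n) .n))) (.c 2 (.c 0 (.c 5 (.l 2763572) .n) (.c 1
  (.c 3 (.c 1 (.l 1874604) .n) .n) (.c 2 (.c 1 (.c 2 (.l 1259856) .n) .n) .n))) (.c 3 (.c 0 (.c
  2 (.c 2 (.l 850812) .n) .n) (.c 1 (.c 0 (.c 3 (.l 477248) .n) .n) .n)) .n)))) (.c 2 (.c 0 (.c
  1 (.c 5 (.l 1886960) .n) (.c 2 (.c 3 (.c 1 (.l 1281496) .n) .n) (.c 3 (.c 1 (.c 2 (.l 851904)
  .n) .n) .n))) (.c 1 (.c 0 (.c 4 (.c 1 (.l 865260) .n) .n) (.c 1 (.c 2 (.c 2 (.l 577492) .n)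
  .n) (.c 2 (.c 0 (.c 3 (.l 316672) .n) .n) .n))) (.c 2 (.c 0 (.c 1 (.c 3 (.l 207616) .n) .n)
  .n) .n))) .n))) (.c 3 (.c 0 (.c 0 (.c 3 (.c 4 (.l 1832724) .n) (.c 4 (.c 2 (.c 1 (.l 1242016)
  .n) .n) (.c 5 (.c 0 (.c 2 (.l 830384) .n) .n) .n))) (.c 1 (.c 1 (.c 5 (.l 1252760) .n) (.c 2
  (.c 3 (.c 1 (.l 848820) .n) .n) (.c 3 (.c 1 (.c 2 (.l 565192) .n) .n) .n))) (.c 2 (.c 0 (.c 4
  (.c 1 (.l 572040) .n) .n) (.c 1 (.c 2 (.c 2 (.l 372224) .n) .n) .n)) .n))) (.c 1 (.c 0 (.c 1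
  (.c 4 (.c 1 (.l 373352) .n) .n) (.c 2 (.c 2 (.c 2 (.l 235296) .n) .n) .n)) .n) .n)) .n)))) (.c
  1 (.c 0 (.c 0 (.c 1 (.c 8 (.l 21351680) .n) (.c 2 (.c 6 (.c 1 (.l 15114880) .n) .n) (.c 3 (.c
  4 (.c 2 (.l 10666304) .n) (.c 5 (.c 0 (.c 1 (.l 7338880) .n) .n) .n)) (.c 4 (.c 2 (.c 3 (.l
  7501440) .n) (.c 3 (.c 1 (.c 1 (.l 5142656) .n) .n) .n)) (.c 5 (.c 0 (.c 4 (.l 5255960) .n)
  (.c 1 (.c 2 (.c 1 (.l 3589200) .n) .n) (.c 2 (.c 0 (.c 2 (.l 2410080) .n) .n) .n))) (.c 6 (.c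
  0 (.c 1 (.c 2 (.l 1637952) .n) .n) .n) .n)))))) (.c 1 (.c 0 (.c 7 (.c 1 (.l 10596320) .n) .n)
  (.c 1 (.c 5 (.c 2 (.l 7454368) .n) (.c 6 (.c 0 (.c 1 (.l 5117664) .n) .n) .n)) (.c 2 (.c 3 (.c
  3 (.l 5225072) .n) (.c 4 (.c 1 (.c 1 (.l 3573792) .n) .n) .n)) (.c 3 (.c 1 (.c 4 (.l 3647640)
  .n) (.c 2 (.c 2 (.c 1 (.l 2484944) .n) .n) (.c 3 (.c 0 (.c 2 (.l 1678608) .n) .n) .n))) (.c 4
  (.c 0 (.c 3 (.c 1 (.l 1719408) .n) .n) (.c 1 (.c 1 (.c 2 (.l 1150304) .n) .n) .n)) .n))))) (.c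
  2 (.c 0 (.c 4 (.c 3 (.l 3621728) .n) (.c 5 (.c 1 (.c 1 (.l 2471184) .n) .n) .n)) (.c 1 (.c 2
  (.c 4 (.l 2518032) .n) (.c 3 (.c 2 (.c 1 (.l 1711256) .n) .n) (.c 4 (.c 0 (.c 2 (.l 1147056)
  .n) .n) .n))) (.c 2 (.c 0 (.c 5 (.l 1735628) .n) (.c 1 (.c 3 (.c 1 (.l 1178528) .n) .n) (.c 2
  (.c 1 (.c 2 (.l 791632) .n) .n) .n))) (.c 3 (.c 0 (.c 2 (.c 2 (.l 529464) .n) .n) (.c 1 (.c 0
  (.c 3 (.l 288688) .n) .n) .n)) .n)))) (.c 3 (.c 0 (.c 1 (.c 5 (.l 1183680) .n) (.c 2 (.c 3 (.c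
  1 (.l 802304) .n) .n) (.c 3 (.c 1 (.c 2 (.l 531064) .n) .n) .n))) (.c 1 (.c 0 (.c 4 (.c 1 (.l
  540890) .n) .n) (.c 1 (.c 2 (.c 2 (.l 359396) .n) .n) .n)) .n)) .n)))) (.c 1 (.c 0 (.c 0 (.c 6
  (.c 2 (.l 3462000) .n) (.c 7 (.c 0 (.c 1 (.l 2367120) .n) .n) .n)) (.c 1 (.c 4 (.c 3 (.l
  2411968) .n) (.c 5 (.c 1 (.c 1 (.l 1643376) .n) .n) .n)) (.c 2 (.c 2 (.c 4 (.l 1671264) .n)
  (.c 3 (.c 2 (.c 1 (.l 1134280) .n) .n) (.c 4 (.c 0 (.c 2 (.l 736400) .n) .n) .n))) (.c 3 (.c 0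
  (.c 5 (.l 1142614) .n) (.c 1 (.c 3 (.c 1 (.l 778396) .n) .n) (.c 2 (.c 1 (.c 2 (.l 504756) .n)
  .n) .n))) (.c 4 (.c 0 (.c 2 (.c 2 (.l 329504) .n) .n) .n) .n))))) (.c 1 (.c 0 (.c 3 (.c 4 (.l
  1138064) .n) (.c 4 (.c 2 (.c 1 (.l 770768) .n) .n) (.c 5 (.c 0 (.c 2 (.l 481320) .n) .n) .n)))
  (.c 1 (.c 1 (.c 5 (.l 773880) .n) (.c 2 (.c 3 (.c 1 (.l 525772) .n) .n) (.c 3 (.c 1 (.c 2 (.l
  340578) .n) .n) .n))) (.c 2 (.c 0 (.c 4 (.c 1 (.l 348430) .n) .n) (.c 1 (.c 2 (.c 2 (.l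
  226720) .n) .n) .n)) .n))) (.c 2 (.c 0 (.c 1 (.c 4 (.c 1 (.l 230312) .n) .n) (.c 2 (.c 2 (.c 2
  (.l 146240) .n) .n) .n)) .n) .n))) (.c 2 (.c 0 (.c 0 (.c 2 (.c 5 (.l 328768) .n) (.c 3 (.c 3
  (.c 1 (.l 224016) .n) .n) .n)) (.c 1 (.c 1 (.c 4 (.c 1 (.l 145096) .n) .n) (.c 2 (.c 2 (.c 2
  (.l 86760) .n) .n) .n)) .n)) .n) .n))) (.c 2 (.c 0 (.c 0 (.c 0 (.c 5 (.c 3 (.l 641920) .n) .n)
  (.c 1 (.c 3 (.c 4 (.l 443080) .n) (.c 4 (.c 2 (.c 1 (.l 299328) .n) .n) .n)) (.c 2 (.c 1 (.c 5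
  (.l 297920) .n) (.c 2 (.c 3 (.c 1 (.l 202664) .n) .n) .n)) .n))) (.c 1 (.c 0 (.c 2 (.c 5 (.l
  194896) .n) (.c 3 (.c 3 (.c 1 (.l 132636) .n) .n) .n)) .n) .n)) .n) .n))) (.c 1 (.c 0 (.c 0
  (.c 0 (.c 0 (.c 9 (.l 3230080) .n) (.c 1 (.c 7 (.c 1 (.l 2265200) .n) .n) (.c 2 (.c 5 (.c 2
  (.l 1583360) .n) (.c 6 (.c 0 (.c 1 (.l 1084320) .n) .n) .n)) (.c 3 (.c 3 (.c 3 (.l 1102824)
  .n) (.c 4 (.c 1 (.c 1 (.l 752464) .n) .n) .n)) (.c 4 (.c 1 (.c 4 (.l 765048) .n) (.c 2 (.c 2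
  (.c 1 (.l 519968) .n) .n) (.c 3 (.c 0 (.c 2 (.l 312288) .n) .n) .n))) .n))))) (.c 1 (.c 0 (.c
  6 (.c 2 (.l 1084320) .n) (.c 7 (.c 0 (.c 1 (.l 740880) .n) .n) .n)) (.c 1 (.c 4 (.c 3 (.l
  752464) .n) (.c 5 (.c 1 (.c 1 (.l 512184) .n) .n) .n)) (.c 2 (.c 2 (.c 4 (.l 519804) .n) (.c 3
  (.c 2 (.c 1 (.l 352472) .n) .n) (.c 4 (.c 0 (.c 2 (.l 215216) .n) .n) .n))) (.c 3 (.c 0 (.c 5
  (.l 352848) .n) (.c 1 (.c 3 (.c 1 (.l 241184) .n) .n) (.c 2 (.c 1 (.c 2 (.l 148104) .n) .n)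
  .n))) .n)))) (.c 2 (.c 0 (.c 3 (.c 4 (.l 350876) .n) (.c 4 (.c 2 (.c 1 (.l 237408) .n) .n)
  .n)) (.c 1 (.c 1 (.c 5 (.l 236944) .n) (.c 2 (.c 3 (.c 1 (.l 161476) .n) .n) (.c 3 (.c 1 (.c 2
  (.l 97516) .n) .n) .n))) .n)) .n))) (.c 1 (.c 0 (.c 0 (.c 5 (.c 3 (.l 320960) .n) .n) (.c 1
  (.c 3 (.c 4 (.l 221534) .n) (.c 4 (.c 2 (.c 1 (.l 149664) .n) .n) .n)) (.c 2 (.c 1 (.c 5 (.l
  148928) .n) (.c 2 (.c 3 (.c 1 (.l 101320) .n) .n) .n)) .n))) .n) .n)) .n) .n)) .n)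

noncomputable def t21_12 : Tr := (.c 0 (.c 0 (.c 0 (.c 0 (.c 0 (.c 0 (.c 9 (.l 3230080) .n) (.c
  1 (.c 7 (.c 1 (.l 2265200) .n) .n) (.c 2 (.c 5 (.c 2 (.l 1583360) .n) (.c 6 (.c 0 (.c 1 (.l
  1084320) .n) .n) .n)) (.c 3 (.c 3 (.c 3 (.l 1102824) .n) (.c 4 (.c 1 (.c 1 (.l 752464) .n) .n)
  (.c 5 (.c 0 (.c 0 (.c 1 (.l 323600) .n) .n) .n) .n))) (.c 4 (.c 1 (.c 4 (.l 765120) .n) (.c 2
  (.c 2 (.c 1 (.l 519968) .n) .n) (.c 3 (.c 0 (.c 2 (.l 351168) .n) (.c 1 (.c 0 (.c 1 (.l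
  221728) .n) .n) .n)) .n))) (.c 5 (.c 0 (.c 3 (.c 1 (.l 357600) .n) .n) (.c 1 (.c 1 (.c 2 (.l
  240320) .n) (.c 2 (.c 0 (.c 1 (.l 151120) .n) .n) .n)) (.c 2 (.c 0 (.c 1 (.c 1 (.l 99760) .n)
  .n) .n) .n))) (.c 6 (.c 0 (.c 0 (.c 3 (.l 108288) .n) (.c 1 (.c 1 (.c 1 (.l 67104) .n) .n)
  .n)) .n) .n))))))) (.c 1 (.c 0 (.c 6 (.c 2 (.l 1084320) .n) (.c 7 (.c 0 (.c 1 (.l 740880) .n)
  .n) .n)) (.c 1 (.c 4 (.c 3 (.l 752464) .n) (.c 5 (.c 1 (.c 1 (.l 512184) .n) .n) (.c 6 (.c 0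
  (.c 0 (.c 1 (.l 219360) .n) .n) .n) .n))) (.c 2 (.c 2 (.c 4 (.l 519968) .n) (.c 3 (.c 2 (.c 1
  (.l 352472) .n) .n) (.c 4 (.c 0 (.c 2 (.l 237408) .n) (.c 1 (.c 0 (.c 1 (.l 149664) .n) .n)
  .n)) .n))) (.c 3 (.c 0 (.c 5 (.l 357600) .n) (.c 1 (.c 3 (.c 1 (.l 241312) .n) .n) (.c 2 (.c 1
  (.c 2 (.l 161704) .n) (.c 2 (.c 0 (.c 1 (.l 101528) .n) .n) .n)) (.c 3 (.c 0 (.c 1 (.c 1 (.l
  66804) .n) .n) .n) .n)))) (.c 4 (.c 0 (.c 2 (.c 2 (.l 109408) .n) (.c 3 (.c 0 (.c 1 (.l 68416)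
  .n) .n) .n)) (.c 1 (.c 0 (.c 3 (.l 72224) .n) (.c 1 (.c 1 (.c 1 (.l 44688) .n) .n) .n)) (.c 2
  (.c 0 (.c 0 (.c 2 (.l 8576) .n) .n) .n) .n))) (.c 5 (.c 0 (.c 0 (.c 2 (.c 1 (.l 18896) .n) .n)
  .n) .n) .n)))))) (.c 2 (.c 0 (.c 3 (.c 4 (.l 351168) .n) (.c 4 (.c 2 (.c 1 (.l 237408) .n) .n)
  (.c 5 (.c 0 (.c 2 (.l 159456) .n) (.c 1 (.c 0 (.c 1 (.l 100368) .n) .n) .n)) .n))) (.c 1 (.c 1
  (.c 5 (.l 240320) .n) (.c 2 (.c 3 (.c 1 (.l 161704) .n) .n) (.c 3 (.c 1 (.c 2 (.l 108032) .n)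
  (.c 2 (.c 0 (.c 1 (.l 67728) .n) .n) .n)) (.c 4 (.c 0 (.c 1 (.c 1 (.l 44416) .n) .n) .n)
  .n)))) (.c 2 (.c 0 (.c 4 (.c 1 (.l 109408) .n) .n) (.c 1 (.c 2 (.c 2 (.l 72656) .n) (.c 3 (.c
  0 (.c 1 (.l 45368) .n) .n) .n)) (.c 2 (.c 0 (.c 3 (.l 47792) .n) (.c 1 (.c 1 (.c 1 (.l 29528)
  .n) .n) .n)) (.c 3 (.c 0 (.c 0 (.c 2 (.l 5632) .n) .n) .n) .n)))) (.c 3 (.c 0 (.c 1 (.c 3 (.l
  31580) .n) (.c 2 (.c 1 (.c 1 (.l 19432) .n) .n) .n)) (.c 1 (.c 0 (.c 2 (.c 1 (.l 12336) .n)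
  .n) .n) .n)) .n)))) (.c 3 (.c 0 (.c 0 (.c 6 (.l 108240) .n) (.c 1 (.c 4 (.c 1 (.l 72224) .n)
  .n) (.c 2 (.c 2 (.c 2 (.l 47792) .n) (.c 3 (.c 0 (.c 1 (.l 29800) .n) .n) .n)) (.c 3 (.c 0 (.c
  3 (.l 31296) .n) (.c 1 (.c 1 (.c 1 (.l 19324) .n) .n) .n)) .n)))) (.c 1 (.c 0 (.c 3 (.c 2 (.l
  31584) .n) (.c 4 (.c 0 (.c 1 (.l 19616) .n) .n) .n)) (.c 1 (.c 1 (.c 3 (.l 20508) .n) (.c 2
  (.c 1 (.c 1 (.l 12608) .n) .n) .n)) (.c 2 (.c 0 (.c 2 (.c 1 (.l 7968) .n) .n) .n) .n))) (.c 2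
  (.c 0 (.c 0 (.c 4 (.l 8088) .n) (.c 1 (.c 2 (.c 1 (.l 5048) .n) .n) .n)) .n) .n))) (.c 4 (.c 0
  (.c 0 (.c 2 (.c 3 (.l 8240) .n) .n) .n) .n) .n))))) (.c 1 (.c 0 (.c 0 (.c 5 (.c 3 (.l 323600)
  .n) (.c 6 (.c 1 (.c 1 (.l 219360) .n) .n) (.c 7 (.c 0 (.c 0 (.c 1 (.l 93360) .n) .n) .n) .n)))
  (.c 1 (.c 3 (.c 4 (.l 221728) .n) (.c 4 (.c 2 (.c 1 (.l 149664) .n) .n) (.c 5 (.c 0 (.c 2 (.l
  100368) .n) (.c 1 (.c 0 (.c 1 (.l 63144) .n) .n) .n)) .n))) (.c 2 (.c 1 (.c 5 (.l 151120) .n)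
  (.c 2 (.c 3 (.c 1 (.l 101528) .n) .n) (.c 3 (.c 1 (.c 2 (.l 67728) .n) (.c 2 (.c 0 (.c 1 (.l
  42440) .n) .n) .n)) (.c 4 (.c 0 (.c 1 (.c 1 (.l 27792) .n) .n) .n) .n)))) (.c 3 (.c 0 (.c 4
  (.c 1 (.l 68416) .n) .n) (.c 1 (.c 2 (.c 2 (.l 45368) .n) (.c 3 (.c 0 (.c 1 (.l 28316) .n) .n)
  .n)) (.c 2 (.c 0 (.c 3 (.l 29800) .n) (.c 1 (.c 1 (.c 1 (.l 18404) .n) .n) .n)) .n))) (.c 4
  (.c 0 (.c 1 (.c 3 (.l 19608) .n) (.c 2 (.c 1 (.c 1 (.l 12064) .n) .n) .n)) (.c 1 (.c 0 (.c 2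
  (.c 1 (.l 7648) .n) .n) .n) .n)) .n))))) (.c 1 (.c 0 (.c 2 (.c 5 (.l 99760) .n) (.c 3 (.c 3
  (.c 1 (.l 66804) .n) .n) (.c 4 (.c 1 (.c 2 (.l 44416) .n) (.c 2 (.c 0 (.c 1 (.l 27792) .n) .n)
  .n)) (.c 5 (.c 0 (.c 1 (.c 1 (.l 18136) .n) .n) .n) .n)))) (.c 1 (.c 0 (.c 6 (.l 67104) .n)
  (.c 1 (.c 4 (.c 1 (.l 44688) .n) .n) (.c 2 (.c 2 (.c 2 (.l 29528) .n) (.c 3 (.c 0 (.c 1 (.l
  18404) .n) .n) .n)) (.c 3 (.c 0 (.c 3 (.l 19310) .n) (.c 1 (.c 1 (.c 1 (.l 11918) .n) .n) .n))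
  .n)))) (.c 2 (.c 0 (.c 3 (.c 2 (.l 19432) .n) (.c 4 (.c 0 (.c 1 (.l 12064) .n) .n) .n)) (.c 1
  (.c 1 (.c 3 (.l 12590) .n) (.c 2 (.c 1 (.c 1 (.l 7744) .n) .n) .n)) (.c 2 (.c 0 (.c 2 (.c 1
  (.l 4888) .n) .n) .n) .n))) (.c 3 (.c 0 (.c 0 (.c 4 (.l 4926) .n) (.c 1 (.c 2 (.c 1 (.l 3078)
  .n) .n) .n)) .n) .n)))) (.c 2 (.c 0 (.c 0 (.c 5 (.c 1 (.l 18848) .n) .n) (.c 1 (.c 3 (.c 2 (.l
  12336) .n) (.c 4 (.c 0 (.c 1 (.l 7648) .n) .n) .n)) (.c 2 (.c 1 (.c 3 (.l 7904) .n) (.c 2 (.c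
  1 (.c 1 (.l 4888) .n) .n) .n)) .n))) (.c 1 (.c 0 (.c 2 (.c 3 (.l 4976) .n) (.c 3 (.c 1 (.c 1
  (.l 3084) .n) .n) .n)) (.c 1 (.c 0 (.c 4 (.l 3048) .n) (.c 1 (.c 2 (.c 1 (.l 1904) .n) .n)
  .n)) .n)) .n)) .n))) (.c 2 (.c 0 (.c 0 (.c 1 (.c 6 (.l 25920) .n) (.c 2 (.c 4 (.c 1 (.l 17152)
  .n) .n) (.c 3 (.c 2 (.c 2 (.l 11264) .n) (.c 3 (.c 0 (.c 1 (.l 7008) .n) .n) .n)) (.c 4 (.c 0
  (.c 3 (.l 7312) .n) .n) .n)))) (.c 1 (.c 0 (.c 5 (.c 1 (.l 11168) .n) .n) (.c 1 (.c 3 (.c 2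
  (.l 7280) .n) .n) (.c 2 (.c 1 (.c 3 (.l 4652) .n) (.c 2 (.c 1 (.c 1 (.l 2880) .n) .n) .n))
  .n))) (.c 2 (.c 0 (.c 2 (.c 3 (.l 2912) .n) .n) .n) .n))) (.c 1 (.c 0 (.c 0 (.c 4 (.c 2 (.l
  2704) .n) .n) (.c 1 (.c 2 (.c 3 (.l 1652) .n) .n) .n)) .n) .n)) .n))) (.c 1 (.c 0 (.c 0 (.c 0
  (.c 4 (.c 4 (.l 46144) .n) (.c 5 (.c 2 (.c 1 (.l 30960) .n) .n) (.c 6 (.c 0 (.c 2 (.l 20640)
  .n) .n) .n))) (.c 1 (.c 2 (.c 5 (.l 30960) .n) (.c 3 (.c 3 (.c 1 (.l 20676) .n) .n) (.c 4 (.c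
  1 (.c 2 (.l 13712) .n) (.c 2 (.c 0 (.c 1 (.l 8576) .n) .n) .n)) .n))) (.c 2 (.c 0 (.c 6 (.l
  20640) .n) (.c 1 (.c 4 (.c 1 (.l 13712) .n) .n) (.c 2 (.c 2 (.c 2 (.l 9040) .n) (.c 3 (.c 0
  (.c 1 (.l 5632) .n) .n) .n)) (.c 3 (.c 0 (.c 3 (.l 5900) .n) (.c 1 (.c 1 (.c 1 (.l 3640) .n)
  .n) .n)) .n)))) (.c 3 (.c 0 (.c 3 (.c 2 (.l 5904) .n) .n) (.c 1 (.c 1 (.c 3 (.l 3812) .n) (.c
  2 (.c 1 (.c 1 (.l 2348) .n) .n) .n)) .n)) .n)))) (.c 1 (.c 0 (.c 1 (.c 6 (.l 12960) .n) (.c 2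
  (.c 4 (.c 1 (.l 8576) .n) .n) (.c 3 (.c 2 (.c 2 (.l 5632) .n) .n) (.c 4 (.c 0 (.c 3 (.l 3656)
  .n) .n) .n)))) (.c 1 (.c 0 (.c 5 (.c 1 (.l 5584) .n) .n) (.c 1 (.c 3 (.c 2 (.l 3640) .n) .n)
  (.c 2 (.c 1 (.c 3 (.l 2324) .n) (.c 2 (.c 1 (.c 1 (.l 1440) .n) .n) .n)) .n))) (.c 2 (.c 0 (.c
  2 (.c 3 (.l 1452) .n) .n) .n) .n))) (.c 2 (.c 0 (.c 0 (.c 4 (.c 2 (.l 1376) .n) .n) (.c 1 (.c
  2 (.c 3 (.l 824) .n) .n) .n)) .n) .n))) (.c 1 (.c 0 (.c 0 (.c 1 (.c 5 (.c 1 (.l 1720) .n) .n)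
  (.c 2 (.c 3 (.c 2 (.l 1112) .n) .n) (.c 3 (.c 1 (.c 3 (.l 700) .n) .n) .n))) (.c 1 (.c 0 (.c 4
  (.c 2 (.l 688) .n) .n) (.c 1 (.c 2 (.c 3 (.l 410) .n) .n) .n)) .n)) .n) .n)) .n)) .n) .n)

noncomputable def t21_13 : Tr := (.c 0 (.c 0 (.c 0 (.c 0 (.c 0 (.c 0 (.c 4 (.c 4 (.l 46144) .n)
  (.c 5 (.c 2 (.c 1 (.l 30960) .n) .n) (.c 6 (.c 0 (.c 2 (.l 20640) .n) (.c 1 (.c 0 (.c 1 (.l
  12960) .n) .n) .n)) .n))) (.c 1 (.c 2 (.c 5 (.l 30960) .n) (.c 3 (.c 3 (.c 1 (.l 20676) .n)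
  .n) (.c 4 (.c 1 (.c 2 (.l 13712) .n) (.c 2 (.c 0 (.c 1 (.l 8576) .n) .n) .n)) (.c 5 (.c 0 (.c
  1 (.c 1 (.l 5584) .n) .n) .n) .n)))) (.c 2 (.c 0 (.c 6 (.l 20640) .n) (.c 1 (.c 4 (.c 1 (.l
  13712) .n) .n) (.c 2 (.c 2 (.c 2 (.l 9040) .n) (.c 3 (.c 0 (.c 1 (.l 5632) .n) .n) .n)) (.c 3
  (.c 0 (.c 3 (.l 5904) .n) (.c 1 (.c 1 (.c 1 (.l 3640) .n) .n) .n)) (.c 4 (.c 0 (.c 0 (.c 2 (.l
  1376) .n) .n) .n) .n))))) (.c 3 (.c 0 (.c 3 (.c 2 (.l 5904) .n) (.c 4 (.c 0 (.c 1 (.l 3664)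
  .n) .n) .n)) (.c 1 (.c 1 (.c 3 (.l 3824) .n) (.c 2 (.c 1 (.c 1 (.l 2348) .n) .n) .n)) (.c 2
  (.c 0 (.c 2 (.c 1 (.l 1480) .n) .n) (.c 1 (.c 0 (.c 2 (.l 872) .n) .n) .n)) .n))) (.c 4 (.c 0
  (.c 0 (.c 4 (.l 1536) .n) (.c 1 (.c 2 (.c 1 (.l 928) .n) .n) (.c 2 (.c 0 (.c 2 (.l 544) .n)
  .n) .n))) (.c 1 (.c 0 (.c 1 (.c 2 (.l 320) .n) .n) .n) .n)) .n))))) (.c 1 (.c 0 (.c 1 (.c 6
  (.l 12960) .n) (.c 2 (.c 4 (.c 1 (.l 8576) .n) .n) (.c 3 (.c 2 (.c 2 (.l 5632) .n) (.c 3 (.c 0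
  (.c 1 (.l 3504) .n) .n) .n)) (.c 4 (.c 0 (.c 3 (.l 3664) .n) (.c 1 (.c 1 (.c 1 (.l 2256) .n)
  .n) .n)) (.c 5 (.c 0 (.c 0 (.c 2 (.l 848) .n) .n) .n) .n))))) (.c 1 (.c 0 (.c 5 (.c 1 (.l
  5584) .n) .n) (.c 1 (.c 3 (.c 2 (.l 3640) .n) (.c 4 (.c 0 (.c 1 (.l 2256) .n) .n) .n)) (.c 2
  (.c 1 (.c 3 (.l 2348) .n) (.c 2 (.c 1 (.c 1 (.l 1440) .n) .n) .n)) (.c 3 (.c 0 (.c 2 (.c 1 (.l
  904) .n) .n) (.c 1 (.c 0 (.c 2 (.l 532) .n) .n) .n)) .n)))) (.c 2 (.c 0 (.c 2 (.c 3 (.l 1480)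
  .n) (.c 3 (.c 1 (.c 1 (.l 904) .n) .n) .n)) (.c 1 (.c 0 (.c 4 (.l 928) .n) (.c 1 (.c 2 (.c 1
  (.l 560) .n) .n) (.c 2 (.c 0 (.c 2 (.l 328) .n) .n) .n))) (.c 2 (.c 0 (.c 1 (.c 2 (.l 192) .n)
  .n) .n) .n))) (.c 3 (.c 0 (.c 0 (.c 3 (.c 1 (.l 196) .n) .n) (.c 1 (.c 1 (.c 2 (.l 110) .n)
  .n) .n)) .n) .n)))) (.c 2 (.c 0 (.c 0 (.c 4 (.c 2 (.l 1376) .n) (.c 5 (.c 0 (.c 1 (.l 848) .n)
  .n) .n)) (.c 1 (.c 2 (.c 3 (.l 872) .n) (.c 3 (.c 1 (.c 1 (.l 532) .n) .n) .n)) (.c 2 (.c 0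
  (.c 4 (.l 544) .n) (.c 1 (.c 2 (.c 1 (.l 328) .n) .n) (.c 2 (.c 0 (.c 2 (.l 192) .n) .n) .n)))
  (.c 3 (.c 0 (.c 1 (.c 2 (.l 108) .n) .n) .n) .n)))) (.c 1 (.c 0 (.c 1 (.c 4 (.l 320) .n) (.c 2
  (.c 2 (.c 1 (.l 192) .n) .n) (.c 3 (.c 0 (.c 2 (.l 104) .n) .n) .n))) (.c 1 (.c 0 (.c 3 (.c 1
  (.l 112) .n) .n) (.c 1 (.c 1 (.c 2 (.l 62) .n) .n) .n)) .n)) .n)) (.c 3 (.c 0 (.c 0 (.c 1 (.c
  3 (.c 1 (.l 28) .n) .n) .n) .n) .n) .n)))) (.c 1 (.c 0 (.c 0 (.c 0 (.c 7 (.l 2640) .n) (.c 1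
  (.c 5 (.c 1 (.l 1720) .n) .n) (.c 2 (.c 3 (.c 2 (.l 1112) .n) (.c 4 (.c 0 (.c 1 (.l 688) .n)
  .n) .n)) (.c 3 (.c 1 (.c 3 (.l 712) .n) (.c 2 (.c 1 (.c 1 (.l 436) .n) .n) .n)) (.c 4 (.c 0
  (.c 2 (.c 1 (.l 272) .n) .n) (.c 1 (.c 0 (.c 2 (.l 160) .n) .n) .n)) .n))))) (.c 1 (.c 0 (.c 4
  (.c 2 (.l 688) .n) (.c 5 (.c 0 (.c 1 (.l 424) .n) .n) .n)) (.c 1 (.c 2 (.c 3 (.l 436) .n) (.c
  3 (.c 1 (.c 1 (.l 266) .n) .n) .n)) (.c 2 (.c 0 (.c 4 (.l 272) .n) (.c 1 (.c 2 (.c 1 (.l 164)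
  .n) .n) (.c 2 (.c 0 (.c 2 (.l 96) .n) .n) .n))) (.c 3 (.c 0 (.c 1 (.c 2 (.l 54) .n) .n) .n)
  .n)))) (.c 2 (.c 0 (.c 1 (.c 4 (.l 160) .n) (.c 2 (.c 2 (.c 1 (.l 96) .n) .n) (.c 3 (.c 0 (.c
  2 (.l 52) .n) .n) .n))) (.c 1 (.c 0 (.c 3 (.c 1 (.l 56) .n) .n) (.c 1 (.c 1 (.c 2 (.l 30) .n)
  .n) .n)) .n)) .n))) (.c 1 (.c 0 (.c 0 (.c 3 (.c 3 (.l 132) .n) (.c 4 (.c 1 (.c 1 (.l 80) .n)
  .n) .n)) (.c 1 (.c 1 (.c 4 (.l 80) .n) (.c 2 (.c 2 (.c 1 (.l 48) .n) .n) (.c 3 (.c 0 (.c 2 (.l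
  26) .n) .n) .n))) (.c 2 (.c 0 (.c 3 (.c 1 (.l 28) .n) .n) (.c 1 (.c 1 (.c 2 (.l 14) .n) .n)
  .n)) .n))) (.c 1 (.c 0 (.c 0 (.c 5 (.l 24) .n) (.c 1 (.c 3 (.c 1 (.l 14) .n) .n) .n)) .n) .n))
  .n)) .n)) .n) .n) .n)

noncomputable def t21_14 : Tr := (.c 0 (.c 0 (.c 0 (.c 0 (.c 0 (.c 0 (.c 0 (.c 7 (.l 2640) .n)
  (.c 1 (.c 5 (.c 1 (.l 1720) .n) .n) (.c 2 (.c 3 (.c 2 (.l 1112) .n) (.c 4 (.c 0 (.c 1 (.l 688)
  .n) .n) .n)) (.c 3 (.c 1 (.c 3 (.l 712) .n) (.c 2 (.c 1 (.c 1 (.l 436) .n) .n) (.c 3 (.c 0 (.c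
  0 (.c 1 (.l 132) .n) .n) .n) .n))) (.c 4 (.c 0 (.c 2 (.c 1 (.l 272) .n) .n) (.c 1 (.c 0 (.c 2
  (.l 160) .n) (.c 1 (.c 0 (.c 1 (.l 80) .n) .n) .n)) .n)) (.c 5 (.c 0 (.c 0 (.c 1 (.c 1 (.l 24)
  .n) .n) .n) .n) .n)))))) (.c 1 (.c 0 (.c 4 (.c 2 (.l 688) .n) (.c 5 (.c 0 (.c 1 (.l 424) .n)
  .n) .n)) (.c 1 (.c 2 (.c 3 (.l 436) .n) (.c 3 (.c 1 (.c 1 (.l 266) .n) .n) (.c 4 (.c 0 (.c 0
  (.c 1 (.l 80) .n) .n) .n) .n))) (.c 2 (.c 0 (.c 4 (.l 272) .n) (.c 1 (.c 2 (.c 1 (.l 164) .n)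
  .n) (.c 2 (.c 0 (.c 2 (.l 96) .n) (.c 1 (.c 0 (.c 1 (.l 48) .n) .n) .n)) .n))) (.c 3 (.c 0 (.c
  1 (.c 2 (.l 56) .n) (.c 2 (.c 0 (.c 1 (.l 28) .n) .n) .n)) (.c 1 (.c 0 (.c 1 (.c 1 (.l 14) .n)
  .n) .n) .n)) .n)))) (.c 2 (.c 0 (.c 1 (.c 4 (.l 160) .n) (.c 2 (.c 2 (.c 1 (.l 96) .n) .n) (.c
  3 (.c 0 (.c 2 (.l 56) .n) (.c 1 (.c 0 (.c 1 (.l 28) .n) .n) .n)) .n))) (.c 1 (.c 0 (.c 3 (.c 1
  (.l 56) .n) .n) (.c 1 (.c 1 (.c 2 (.l 32) .n) (.c 2 (.c 0 (.c 1 (.l 16) .n) .n) .n)) (.c 2 (.c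
  0 (.c 1 (.c 1 (.l 8) .n) .n) .n) .n))) (.c 2 (.c 0 (.c 0 (.c 3 (.l 8) .n) (.c 1 (.c 1 (.c 1
  (.l 4) .n) .n) .n)) .n) .n))) (.c 3 (.c 0 (.c 0 (.c 2 (.c 2 (.l 8) .n) .n) (.c 1 (.c 0 (.c 3
  (.l 4) .n) .n) .n)) .n) .n)))) (.c 1 (.c 0 (.c 0 (.c 3 (.c 3 (.l 132) .n) (.c 4 (.c 1 (.c 1
  (.l 80) .n) .n) (.c 5 (.c 0 (.c 0 (.c 1 (.l 24) .n) .n) .n) .n))) (.c 1 (.c 1 (.c 4 (.l 80)
  .n) (.c 2 (.c 2 (.c 1 (.l 48) .n) .n) (.c 3 (.c 0 (.c 2 (.l 28) .n) (.c 1 (.c 0 (.c 1 (.l 14)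
  .n) .n) .n)) .n))) (.c 2 (.c 0 (.c 3 (.c 1 (.l 28) .n) .n) (.c 1 (.c 1 (.c 2 (.l 16) .n) (.c 2
  (.c 0 (.c 1 (.l 8) .n) .n) .n)) (.c 2 (.c 0 (.c 1 (.c 1 (.l 4) .n) .n) .n) .n))) (.c 3 (.c 0
  (.c 0 (.c 3 (.l 4) .n) .n) .n) .n)))) (.c 1 (.c 0 (.c 0 (.c 5 (.l 24) .n) (.c 1 (.c 3 (.c 1
  (.l 14) .n) .n) (.c 2 (.c 1 (.c 2 (.l 8) .n) (.c 2 (.c 0 (.c 1 (.l 4) .n) .n) .n)) .n))) (.c 1
  (.c 0 (.c 2 (.c 2 (.l 4) .n) .n) (.c 1 (.c 0 (.c 3 (.l 2) .n) (.c 1 (.c 1 (.c 1 (.l 1) .n) .n)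
  .n)) .n)) .n)) .n)) .n)) .n) .n) .n) .n)

noncomputable def t21_15 : Tr := (.c 0 (.c 0 (.c 0 (.c 0 (.c 0 (.c 0 (.c 0 (.c 3 (.c 3 (.l 132)
  .n) (.c 4 (.c 1 (.c 1 (.l 80) .n) .n) (.c 5 (.c 0 (.c 0 (.c 1 (.l 24) .n) .n) .n) .n))) (.c 1
  (.c 1 (.c 4 (.l 80) .n) (.c 2 (.c 2 (.c 1 (.l 48) .n) .n) (.c 3 (.c 0 (.c 2 (.l 28) .n) (.c 1
  (.c 0 (.c 1 (.l 14) .n) .n) .n)) .n))) (.c 2 (.c 0 (.c 3 (.c 1 (.l 28) .n) .n) (.c 1 (.c 1 (.c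
  2 (.l 16) .n) (.c 2 (.c 0 (.c 1 (.l 8) .n) .n) .n)) (.c 2 (.c 0 (.c 1 (.c 1 (.l 4) .n) .n) .n)
  .n))) (.c 3 (.c 0 (.c 0 (.c 3 (.l 4) .n) (.c 1 (.c 1 (.c 1 (.l 2) .n) .n) .n)) .n) .n)))) (.c
  1 (.c 0 (.c 0 (.c 5 (.l 24) .n) (.c 1 (.c 3 (.c 1 (.l 14) .n) .n) (.c 2 (.c 1 (.c 2 (.l 8) .n)
  (.c 2 (.c 0 (.c 1 (.l 4) .n) .n) .n)) (.c 3 (.c 0 (.c 1 (.c 1 (.l 2) .n) .n) .n) .n)))) (.c 1
  (.c 0 (.c 2 (.c 2 (.l 4) .n) (.c 3 (.c 0 (.c 1 (.l 2) .n) .n) .n)) (.c 1 (.c 0 (.c 3 (.l 2)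
  .n) (.c 1 (.c 1 (.c 1 (.l 1) .n) .n) .n)) .n)) .n)) .n)) .n) .n) .n) .n) .n)

noncomputable def t21_16 : Tr := (.c 0 (.c 0 (.c 0 (.c 0 (.c 0 (.c 0 (.c 0 (.c 0 (.c 5 (.l 24)
  .n) (.c 1 (.c 3 (.c 1 (.l 14) .n) .n) (.c 2 (.c 1 (.c 2 (.l 8) .n) (.c 2 (.c 0 (.c 1 (.l 4)
  .n) .n) .n)) (.c 3 (.c 0 (.c 1 (.c 1 (.l 2) .n) .n) .n) .n)))) (.c 1 (.c 0 (.c 2 (.c 2 (.l 4)
  .n) (.c 3 (.c 0 (.c 1 (.l 2) .n) .n) .n)) (.c 1 (.c 0 (.c 3 (.l 2) .n) (.c 1 (.c 1 (.c 1 (.l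
  1) .n) .n) .n)) .n)) .n)) .n) .n) .n) .n) .n) .n)

noncomputable def t21_17 : Tr := (.c 0 (.c 0 (.c 0 (.c 0 (.c 0 (.c 0 (.c 0 (.c 0 (.c 2 (.c 2 (.l
  4) .n) (.c 3 (.c 0 (.c 1 (.l 2) .n) .n) .n)) (.c 1 (.c 0 (.c 3 (.l 2) .n) (.c 1 (.c 1 (.c 1
  (.l 1) .n) .n) .n)) .n)) .n) .n) .n) .n) .n) .n) .n)

noncomputable def t21_18 : Tr := (.c 0 (.c 0 (.c 0 (.c 0 (.c 0 (.c 0 (.c 0 (.c 0 (.c 0 (.c 3 (.l
  2) .n) (.c 1 (.c 1 (.c 1 (.l 1) .n) .n) .n)) .n) .n) .n) .n) .n) .n) .n) .n)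

noncomputable def t21_19 : Tr := (.c 0 (.c 0 (.c 0 (.c 0 (.c 0 (.c 0 (.c 0 (.c 0 (.c 0 (.c 1 (.c
  1 (.l 1) .n) .n) .n) .n) .n) .n) .n) .n) .n) .n) .n)

noncomputable def t21_20 : Tr := (.c 0 (.c 0 (.c 0 (.c 0 (.c 0 (.c 0 (.c 0 (.c 0 (.c 0 (.c 0 (.c
  1 (.l 1) .n) .n) .n) .n) .n) .n) .n) .n) .n) .n) .n)

noncomputable def t21_21 : Tr := (.l 1)

end MP_a3e05c_co.RTK
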