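import Pool.Agent.Lib.MP_a3e05c_co.RTK.Chk

/-!
# EULER: tables for regular tournaments with 3 vertices
-/

namespace MP_a3e05c_co.RTK

noncomputable def t3_0 : Tr := (.c 3 (.l 2) .n)

noncomputable def t3_1 : Tr := (.c 1 (.c 1 (.l 1) .n) .n)

noncomputable def t3_2 : Tr := (.c 0 (.c 1 (.l 1) .n) .n)

noncomputable def t3_3 : Tr := (.l 1)

end MP_a3e05c_co.RTK
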