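import Pool.Agent.Lib.MP_a3e05c_co.RTK.Chk

/-!
# EULER: tables for regular tournaments with 7 vertices
-/

namespace MP_a3e05c_co.RTK

noncomputable def t7_0 : Tr := (.c 7 (.l 2640) .n)

noncomputable def t7_1 : Tr := (.c 3 (.c 3 (.l 132) .n) .n)

noncomputable def t7_2 : Tr := (.c 0 (.c 5 (.l 24) .n) (.c 1 (.c 3 (.c 1 (.l 14) .n) .n) (.c 2
  (.c 1 (.c 2 (.l 8) .n) .n) .n)))

noncomputable def t7_3 : Tr := (.c 0 (.c 2 (.c 2 (.l 4) .n) (.c 3 (.c 0 (.c 1 (.l 2) .n) .n)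
  .n)) (.c 1 (.c 0 (.c 3 (.l 2) .n) (.c 1 (.c 1 (.c 1 (.l 1) .n) .n) .n)) .n))

noncomputable def t7_4 : Tr := (.c 0 (.c 0 (.c 3 (.l 2) .n) (.c 1 (.c 1 (.c 1 (.l 1) .n) .n)
  .n)) .n)

noncomputable def t7_5 : Tr := (.c 0 (.c 0 (.c 1 (.c 1 (.l 1) .n) .n) .n) .n)

noncomputable def t7_6 : Tr := (.c 0 (.c 0 (.c 0 (.c 1 (.l 1) .n) .n) .n) .n)

noncomputable def t7_7 : Tr := (.l 1)

end MP_a3e05c_co.RTK
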