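import Pool.Agent.Lib.MP_a3e05c_co.RTK.Chk

/-!
# EULER: tables for regular tournaments with 9 vertices
-/

namespace MP_a3e05c_co.RTK

noncomputable def t9_0 : Tr := (.c 9 (.l 3230080) .n)

noncomputable def t9_1 : Tr := (.c 4 (.c 4 (.l 46144) .n) .n)

noncomputable def t9_2 : Tr := (.c 0 (.c 7 (.l 2640) .n) (.c 1 (.c 5 (.c 1 (.l 1720) .n) .n) (.c
  2 (.c 3 (.c 2 (.l 1112) .n) .n) (.c 3 (.c 1 (.c 3 (.l 712) .n) .n) .n))))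

noncomputable def t9_3 : Tr := (.c 0 (.c 3 (.c 3 (.l 132) .n) (.c 4 (.c 1 (.c 1 (.l 80) .n) .n)
  .n)) (.c 1 (.c 1 (.c 4 (.l 80) .n) (.c 2 (.c 2 (.c 1 (.l 48) .n) .n) (.c 3 (.c 0 (.c 2 (.l 28)
  .n) .n) .n))) (.c 2 (.c 0 (.c 3 (.c 1 (.l 28) .n) .n) (.c 1 (.c 1 (.c 2 (.l 16) .n) .n) .n))
  .n)))

noncomputable def t9_4 : Tr := (.c 0 (.c 0 (.c 5 (.l 24) .n) (.c 1 (.c 3 (.c 1 (.l 14) .n) .n)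
  (.c 2 (.c 1 (.c 2 (.l 8) .n) (.c 2 (.c 0 (.c 1 (.l 4) .n) .n) .n)) (.c 3 (.c 0 (.c 1 (.c 1 (.l
  2) .n) .n) .n) .n)))) (.c 1 (.c 0 (.c 2 (.c 2 (.l 4) .n) (.c 3 (.c 0 (.c 1 (.l 2) .n) .n) .n))
  (.c 1 (.c 0 (.c 3 (.l 2) .n) (.c 1 (.c 1 (.c 1 (.l 1) .n) .n) .n)) .n)) .n))

noncomputable def t9_5 : Tr := (.c 0 (.c 0 (.c 2 (.c 2 (.l 4) .n) (.c 3 (.c 0 (.c 1 (.l 2) .n)
  .n) .n)) (.c 1 (.c 0 (.c 3 (.l 2) .n) (.c 1 (.c 1 (.c 1 (.l 1) .n) .n) .n)) .n)) .n)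

noncomputable def t9_6 : Tr := (.c 0 (.c 0 (.c 0 (.c 3 (.l 2) .n) (.c 1 (.c 1 (.c 1 (.l 1) .n)
  .n) .n)) .n) .n)

noncomputable def t9_7 : Tr := (.c 0 (.c 0 (.c 0 (.c 1 (.c 1 (.l 1) .n) .n) .n) .n) .n)

noncomputable def t9_8 : Tr := (.c 0 (.c 0 (.c 0 (.c 0 (.c 1 (.l 1) .n) .n) .n) .n) .n)

noncomputable def t9_9 : Tr := (.l 1)

end MP_a3e05c_co.RTK
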