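import Pool.Agent.Lib.MP_a3e05c_co.RTK.Link
import Pool.Agent.Lib.MP_a3e05c_co.RTK.C21a
import Pool.Agent.Lib.MP_a3e05c_co.RTK.C21b
import Pool.Agent.Lib.MP_a3e05c_co.RTK.C21c
import Pool.Agent.Lib.MP_a3e05c_co.RTK.C21d
import Pool.Agent.Lib.MP_a3e05c_co.RTK.C21e
import Pool.Agent.Lib.MP_a3e05c_co.RTK.C21f

/-!
# EULER: regular tournaments with 21 vertices
-/

namespace MP_a3e05c_co.RTK

theorem low21 : 3035890034606593848108396779148026682657839269520 ≤ RT.RTn 21 := by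
  have h21 : OK 10 t21_21 0 0 := OK_last 10
  have h20 := chk_step 10 _ _ h21 s21_20 k21_20
  have h19 := chk_step 10 _ _ h20 s21_19 k21_19
  have h18 := chk_step 10 _ _ h19 s21_18 k21_18
  have h17 := chk_step 10 _ _ h18 s21_17 k21_17
  have h16 := chk_step 10 _ _ h17 s21_16 k21_16
  have h15 := chk_step 10 _ _ h16 s21_15 k21_15
  have h14 := chk_step 10 _ _ h15 s21_14 k21_14
  have h13 := chk_step 10 _ _ h14 s21_13 k21_13
  have h12 := chk_step 10 _ _ h13 s21_12 k21_12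
  have h11 := chk_step 10 _ _ h12 s21_11 k21_11
  have h10 := chk_step 10 _ _ h11 s21_10 k21_10
  have h9 := chk_step 10 _ _ h10 s21_9 k21_9
  have h8 := chk_step 10 _ _ h9 s21_8 k21_8
  have h7 := chk_step 10 _ _ h8 s21_7 k21_7
  have h6 := chk_step 10 _ _ h7 s21_6 k21_6
  have h5 := chk_step 10 _ _ h6 s21_5 k21_5
  have h4 := chk_step 10 _ _ h5 s21_4 k21_4
  have h3 := chk_step 10 _ _ h4 s21_3 k21_3
  have h2 := chk_step 10 _ _ h3 s21_2 k21_2
  have h1 := chk_step 10 _ _ h2 s21_1 k21_1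
  have h0 := chk_step 10 _ _ h1 s21_0 k21_0
  exact (OK_first 10 3035890034606593848108396779148026682657839269520 21 h0).trans (TS_le_RTn 10)

end MP_a3e05c_co.RTK
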