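import Pool.Agent.Lib.MP_a3e05c_co.RTK.Chk
import Pool.Agent.Lib.MP_a3e05c_co.RT.Defs

/-!
# EULER: numbers of regular tournaments, start and end of the recursion, connection with `RTn`
-/

open Finset

namespace MP_a3e05c_co.RTK

/-- the last level -/
theorem OK_last (m : ℕ) : OK m (.l 1) 0 0 := by
  show 1 ≤ GM m 0
  rw [GM_zero]

/-- the first level -/
theorem OK_first (m v n : ℕ) (h : OK m (.c n (.l v) .n) 0 0) :
    v ≤ (TS (Fin n) m fun _ => 0).card := by
  have h1 : v ≤ GM m (0 + Multiset.replicate n 0) := h.1
  rw [zero_add] at h1
  rw [GM_eq m (fun _ : Fin n => 0) (Multiset.replicate n 0)]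
  · exact h1
  · rw [Multiset.map_const', Finset.card_val, Finset.card_univ, Fintype.card_fin]

open KL in
/-- the regular tournaments are the balanced orientations of the complete graph -/
theorem TS_le_RTn (m : ℕ) : (TS (Fin (2 * m + 1)) m fun _ => 0).card ≤ RT.RTn (2 * m + 1) := by
  unfold RT.RTn
  refine Finset.card_le_card_of_injOn (fun o e => !(o e.1.1 e.1.2)) ?_ ?_
  · intro o ho
    have ho' := Finset.mem_coe.1 ho
    rw [mem_TS] at ho'
    obtain ⟨h1, h2, h3⟩ := ho'
    rw [Finset.mem_coe, KL.mem_Om]
    intro v _
    unfold Bal
    -- sum over the other vertices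
    have hsum : ∑ e, sg (RT.hdK (2 * m + 1)) (fun e => !(o e.1.1 e.1.2)) v e =
        ∑ w ∈ univ.filter (fun w => w ≠ v), (if o v w = true then (-1 : ℤ) else 1) := by
      have hA : ∑ w ∈ univ.filter (fun w => w ≠ v), (if o v w = true then (-1 : ℤ) else 1) =
          ∑ e ∈ univ.filter (fun e : {p : Fin (2 * m + 1) × Fin (2 * m + 1) // p.1 < p.2} =>
            e.1.1 = v ∨ e.1.2 = v), sg (RT.hdK (2 * m + 1)) (fun e => !(o e.1.1 e.1.2)) v e := by
        symm
        refine Finset.sum_bij' (fun e _ => if e.1.1 = v then e.1.2 else e.1.1)
          (fun w hw => if h : v < w then ⟨(v, w), h⟩ else ⟨(w, v), lt_of_le_of_ne (not_lt.1 h)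
            (mem_filter.1 hw).2⟩) ?_ ?_ ?_ ?_ ?_
        · intro e he
          rw [mem_filter] at he ⊢
          refine ⟨mem_univ _, ?_⟩
          by_cases h : e.1.1 = v
          · rw [if_pos h, ← h]
            exact e.2.ne'
          · rw [if_neg h]
            exact h
        · intro w hw
          rw [mem_filter]
          refine ⟨mem_univ _, ?_⟩
          by_cases h : v < w
          · rw [dif_pos h]; exact Or.inl rfl
          · rw [dif_neg h]; exact Or.inr rfl
        · intro e he
          rw [mem_filter] at he
          by_cases h : e.1.1 = v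
          · have h' : v < e.1.2 := by rw [← h]; exact e.2
            simp only [if_pos h, dif_pos h']
            ext <;> simp [h]
          · have h4 : e.1.2 = v := he.2.resolve_left h
            have h' : ¬ v < e.1.1 := by rw [← h4]; exact not_lt.2 e.2.le
            simp only [if_neg h, dif_neg h']
            ext <;> simp [h4]
        · intro w hw
          rw [mem_filter] at hw
          by_cases h : v < w
          · simp only [dif_pos h, if_true]
          · simp only [dif_neg h, if_neg hw.2]
        · intro e he
          rw [mem_filter] at he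
          by_cases h : e.1.1 = v
          · have hne : e.1.2 ≠ v := by rw [← h]; exact e.2.ne'
            rw [if_pos h]
            unfold sg RT.hdK
            rw [← h]
            have hne' : ¬ e.1.2 = e.1.1 := by rw [h]; exact hne
            cases hoe : o e.1.1 e.1.2 <;> simp [hoe, hne']
          · have h4 : e.1.2 = v := he.2.resolve_left h
            rw [if_neg h, ← h4]
            have h5 := h2 e.1.2 e.1.1 e.2.ne'
            rw [h5]
            unfold sg RT.hdK
            have hne' : ¬ e.1.1 = e.1.2 := e.2.ne
            cases hoe : o e.1.1 e.1.2 <;> simp [hoe, hne']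
      rw [hA, ← Finset.sum_filter_add_sum_filter_not univ
        (fun e : {p : Fin (2 * m + 1) × Fin (2 * m + 1) // p.1 < p.2} =>
            e.1.1 = v ∨ e.1.2 = v)]
      rw [add_eq_left]
      refine Finset.sum_eq_zero fun e he => ?_
      rw [mem_filter, not_or] at he
      unfold sg RT.hdK
      cases hoe : o e.1.1 e.1.2 <;> simp [hoe, he.2.1, he.2.2]
    rw [hsum, Finset.sum_ite, Finset.sum_const, Finset.sum_const]
    have h4 := h3 v
    rw [zero_add] at h4
    have h5 : ((univ.filter (fun w => w ≠ v)).filter fun w => o v w = true).card = m := by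
      refine Eq.trans ?_ h4
      congr 1
      ext w
      simp only [mem_filter, mem_univ, true_and]
      constructor
      · exact fun h => h.2
      · intro h
        refine ⟨?_, h⟩
        rintro rfl
        rw [h1 w] at h
        exact absurd h (by simp)
    have h6 : (univ.filter (fun w : Fin (2 * m + 1) => w ≠ v)).card = 2 * m := by
      rw [Finset.filter_ne' univ v, Finset.card_erase_of_mem (mem_univ v), Finset.card_univ,
        Fintype.card_fin]
      rfl
    have h7 := Finset.card_filter_add_card_filter_not
      (s := univ.filter (fun w : Fin (2 * m + 1) => w ≠ v)) (fun w => o v w = true)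
    rw [h5, h6] at h7
    have h8 : ((univ.filter (fun w => w ≠ v)).filter fun w => ¬ o v w = true).card = m := by
      omega
    rw [h5, h8]
    simp
  · intro o ho o' ho' h
    have ho1 := mem_TS.1 (Finset.mem_coe.1 ho)
    have ho1' := mem_TS.1 (Finset.mem_coe.1 ho')
    have hlt : ∀ u w : Fin (2 * m + 1), u < w → o u w = o' u w := by
      intro u w huw
      have h4 := congrFun h ⟨(u, w), huw⟩
      simp only at h4
      exact Bool.not_inj h4
    funext u w
    rcases lt_trichotomy u w with h5 | h5 | h5
    · exact hlt u w h5
    · rw [h5, ho1.1, ho1'.1]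
    · rw [ho1.2.1 u w h5.ne', ho1'.2.1 u w h5.ne', hlt w u h5]

end MP_a3e05c_co.RTK
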