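import Mathlib

/-!
# EULER: numbers of regular tournaments, recursion

`TS V m c` is the set of tournaments on `V` in which the vertex `x` has `m - c x` wins.  `GM m s` is
its number of elements, for the multiset `s` of the values of `c`.
-/

open Finset

namespace MP_a3e05c_co.RTK

/-- tournaments on `V` in which `x` has `m - c x` wins -/
def TS (V : Type) [Fintype V] [DecidableEq V] (m : ℕ) (c : V → ℕ) : Finset (V → V → Bool) :=
  univ.filter fun o => (∀ u, o u u = false) ∧ (∀ u w, u ≠ w → o u w = !o w u) ∧
    ∀ x, c x + (univ.filter fun w => o x w = true).card = m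

theorem mem_TS {V : Type} [Fintype V] [DecidableEq V] {m : ℕ} {c : V → ℕ} {o : V → V → Bool} :
    o ∈ TS V m c ↔ (∀ u, o u u = false) ∧ (∀ u w, u ≠ w → o u w = !o w u) ∧
    ∀ x, c x + (univ.filter fun w => o x w = true).card = m := by
  simp [TS]

theorem TS_equiv {V W : Type} [Fintype V] [DecidableEq V] [Fintype W] [DecidableEq W] (m : ℕ)
    (c : V → ℕ) (c' : W → ℕ) (e : V ≃ W) (h : ∀ v, c' (e v) = c v) :
    (TS V m c).card = (TS W m c').card := by
  refine Finset.card_bij' (fun o _ x y => o (e.symm x) (e.symm y))
    (fun o _ x y => o (e x) (e y)) ?_ ?_ ?_ ?_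
  · intro o ho
    rw [mem_TS] at ho ⊢
    refine ⟨fun u => ho.1 _, fun u w huw => ho.2.1 _ _ (fun h => huw (e.symm.injective h)),
      fun x => ?_⟩
    have h1 := ho.2.2 (e.symm x)
    rw [← h1, ← h (e.symm x), e.apply_symm_apply]
    congr 1
    refine Finset.card_bij' (fun w _ => e.symm w) (fun v _ => e v) ?_ ?_ ?_ ?_
    · intro w hw
      simpa using hw
    · intro v hv
      simpa using hv
    · intro w _
      exact e.apply_symm_apply w
    · intro v _
      exact e.symm_apply_apply v
  · intro o ho
    rw [mem_TS] at ho ⊢
    refine ⟨fun u => ho.1 _, fun u w huw => ho.2.1 _ _ (fun h => huw (e.injective h)),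
      fun x => ?_⟩
    have h1 := ho.2.2 (e x)
    rw [← h1, h x]
    congr 1
    refine Finset.card_bij' (fun w _ => e w) (fun v _ => e.symm v) ?_ ?_ ?_ ?_
    · intro w hw
      simpa using hw
    · intro v hv
      simpa using hv
    · intro w _
      exact e.symm_apply_apply w
    · intro v _
      exact e.apply_symm_apply v
  · intro o _
    funext x y
    simp
  · intro o _
    funext x y
    simp

theorem TS_congr {V W : Type} [Fintype V] [DecidableEq V] [Fintype W] [DecidableEq W] (m : ℕ)
    (c : V → ℕ) (c' : W → ℕ)
    (h : (univ : Finset V).val.map c = (univ : Finset W).val.map c') :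
    (TS V m c).card = (TS W m c').card := by
  have hk : ∀ k, Fintype.card {v // c v = k} = Fintype.card {w // c' w = k} := by
    intro k
    have h1 := congrArg (Multiset.count k) h
    rw [Multiset.count_map, Multiset.count_map] at h1
    rw [Fintype.card_subtype, Fintype.card_subtype]
    simp only [eq_comm (a := k)] at h1
    exact h1
  let e : V ≃ W := (Equiv.sigmaFiberEquiv c).symm.trans
    ((Equiv.sigmaCongrRight fun k => Fintype.equivOfCardEq (hk k)).trans
      (Equiv.sigmaFiberEquiv c'))
  refine TS_equiv m c c' e fun v => ?_
  exact (Fintype.equivOfCardEq (hk (c v)) ⟨v, rfl⟩).2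

open Classical in
/-- the number of tournaments with scores `m - x`, `x` in the multiset `s` -/
noncomputable def GM (m : ℕ) (s : Multiset ℕ) : ℕ := (TS s m fun x => x.1).card

theorem GM_eq {V : Type} [Fintype V] [DecidableEq V] (m : ℕ) (c : V → ℕ) (s : Multiset ℕ)
    (h : (univ : Finset V).val.map c = s) : (TS V m c).card = GM m s := by
  classical
  unfold GM
  apply TS_congr
  rw [h]
  exact (Multiset.map_univ_coe s).symm

theorem b2n (b : Bool) : (if b = true then 1 else 0) = b.toNat := by
  cases b <;> rfl

/-- the tournament on `Option V` built from one on `V` -/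
def build {V : Type} (A : V → Bool) (o : V → V → Bool) : Option V → Option V → Bool
  | none, none => false
  | none, some v => !A v
  | some v, none => A v
  | some u, some v => o u v

theorem card_option {V : Type} [Fintype V] (p : Option V → Prop) [DecidablePred p] :
    (univ.filter p).card = (if p none then 1 else 0) + (univ.filter fun v => p (some v)).card := by
  rw [Finset.card_filter, Fintype.sum_option, Finset.card_filter]

theorem TS_option {V : Type} [Fintype V] [DecidableEq V] (m : ℕ) (c : Option V → ℕ) :
    (TS (Option V) m c).card = ∑ A : V → Bool,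
      if c none + (univ.filter fun v => A v = false).card = m then
        (TS V m fun v => c (some v) + (A v).toNat).card else 0 := by
  rw [← Finset.sum_filter, ← Finset.card_sigma]
  refine Finset.card_bij' (fun o _ => (⟨fun v => o (some v) none, fun u v => o (some u) (some v)⟩ :
    (_ : V → Bool) × (V → V → Bool))) (fun p _ => build p.1 p.2) ?_ ?_ ?_ ?_
  · intro o ho
    rw [mem_TS] at ho
    rw [Finset.mem_sigma, Finset.mem_filter]
    refine ⟨⟨mem_univ _, ?_⟩, ?_⟩
    · have h1 := ho.2.2 none
      rw [card_option, ho.1 none] at h1
      rw [← h1]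
      congr 1
      simp only [Bool.false_eq_true, if_false, zero_add]
      congr 1
      ext v
      simp only [mem_filter, mem_univ, true_and]
      have h2 := ho.2.1 none (some v) (by simp)
      rw [h2]
      cases o (some v) none <;> simp
    · rw [mem_TS]
      refine ⟨fun u => ho.1 _, fun u w huw => ho.2.1 _ _ (by simpa using huw), fun x => ?_⟩
      have h1 := ho.2.2 (some x)
      rw [card_option] at h1
      rw [← h1, add_assoc, b2n]
  · rintro ⟨A, o⟩ hp
    rw [Finset.mem_sigma, Finset.mem_filter, mem_TS] at hp
    obtain ⟨⟨-, h1⟩, h2, h3, h4⟩ := hp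
    rw [mem_TS]
    refine ⟨?_, ?_, ?_⟩
    · rintro (_ | u)
      · rfl
      · exact h2 u
    · rintro (_ | u) (_ | w) huw
      · exact absurd rfl huw
      · rfl
      · show A u = !(!A u)
        rw [Bool.not_not]
      · exact h3 u w (fun h => huw (by rw [h]))
    · rintro (_ | x)
      · rw [card_option, ← h1]
        simp only [build, Bool.false_eq_true, if_false, zero_add]
        congr 2
        ext v
        cases A v <;> simp
      · rw [card_option]
        have h5 := h4 x
        simp only at h5
        rw [← h5, add_assoc, ← b2n]
        rfl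
  · intro o ho
    rw [mem_TS] at ho
    funext x y
    rcases x with _ | u <;> rcases y with _ | w
    · exact (ho.1 none).symm
    · show (!o (some w) none) = o none (some w)
      rw [ho.2.1 none (some w) (by simp)]
    · rfl
    · rfl
  · rintro ⟨A, o⟩ _
    rfl

/-- the sum over the ways to add one to `k` entries of the list -/
noncomputable def Es (m : ℕ) : List ℕ → ℕ → Multiset ℕ → ℕ
  | [], k, acc => if k = 0 then GM m acc else 0
  | a :: l, 0, acc => Es m l 0 (a ::ₘ acc)
  | a :: l, k + 1, acc => Es m l (k + 1) (a ::ₘ acc) + Es m l k ((a + 1) ::ₘ acc)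

theorem Es_eq (m : ℕ) (l : List ℕ) : ∀ (k : ℕ) (acc : Multiset ℕ),
    (∑ A : Fin l.length → Bool, if (univ.filter fun i => A i = true).card = k then
      GM m (acc + (List.ofFn fun i => l.get i + (A i).toNat : List ℕ)) else 0) =
    Es m l k acc := by
  induction l with
  | nil =>
    intro k acc
    have h1 : (univ : Finset (Fin ([] : List ℕ).length → Bool)) = {fun _ => false} := by
      ext A
      simp only [mem_univ, mem_singleton, true_iff]
      funext i
      exact i.elim0
    rw [h1, sum_singleton]
    have h2 : (univ.filter fun i : Fin ([] : List ℕ).length => false = true).card = 0 := by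
      simp
    simp only [Es]
    rw [h2]
    by_cases hk : k = 0
    · subst hk
      rw [if_pos rfl, if_pos rfl]
      congr 1
      simp
    · rw [if_neg (Ne.symm hk), if_neg hk]
  | cons a l ih =>
    intro k acc
    have hcard : ∀ (b : Bool) (A : Fin l.length → Bool),
        (univ.filter fun i : Fin (l.length + 1) =>
          (Fin.cons b A : Fin (l.length + 1) → Bool) i = true).card =
        b.toNat + (univ.filter fun i => A i = true).card := by
      intro b A
      rw [Fin.card_filter_univ_succ]
      simp only [Fin.cons_zero, Fin.cons_succ]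
      cases b <;> simp [add_comm]
    have hfn : ∀ (b : Bool) (A : Fin l.length → Bool),
        ((List.ofFn fun i : Fin (l.length + 1) =>
          (a :: l).get i + ((Fin.cons b A : Fin (l.length + 1) → Bool) i).toNat : List ℕ) :
            Multiset ℕ) =
        (a + b.toNat) ::ₘ (List.ofFn fun i => l.get i + (A i).toNat : List ℕ) := by
      intro b A
      rw [List.ofFn_succ]
      rfl
    have h1 : (∑ A : Fin (a :: l).length → Bool,
        if (univ.filter fun i => A i = true).card = k then
          GM m (acc + (List.ofFn fun i => (a :: l).get i + (A i).toNat : List ℕ)) else 0) =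
        ∑ p : Bool × (Fin l.length → Bool),
          if p.1.toNat + (univ.filter fun i => p.2 i = true).card = k then
            GM m (((a + p.1.toNat) ::ₘ acc) +
              (List.ofFn fun i => l.get i + (p.2 i).toNat : List ℕ)) else 0 := by
      symm
      refine Fintype.sum_equiv (Fin.consEquiv (fun _ : Fin (l.length + 1) => Bool)) _ _ ?_
      rintro ⟨b, A⟩
      simp only [Fin.consEquiv]
      show _ = if (univ.filter fun i : Fin (l.length + 1) =>
          (Fin.cons b A : Fin (l.length + 1) → Bool) i = true).card = k then
            GM m (acc + (List.ofFn fun i : Fin (l.length + 1) =>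
          (a :: l).get i + ((Fin.cons b A : Fin (l.length + 1) → Bool) i).toNat : List ℕ)) else 0
      rw [hcard, hfn, Multiset.add_cons, Multiset.cons_add]
    rw [h1, Fintype.sum_prod_type, Fintype.sum_bool]
    simp only [Bool.toNat_true, Bool.toNat_false, add_zero, zero_add]
    rw [ih k (a ::ₘ acc)]
    cases k with
    | zero =>
      simp only [Es]
      rw [Finset.sum_eq_zero, zero_add]
      intro A _
      rw [if_neg (by omega)]
    | succ k =>
      simp only [Es]
      rw [← ih k ((a + 1) ::ₘ acc), add_comm]
      congr 1
      refine Finset.sum_congr rfl fun A _ => ?_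
      simp only [add_comm 1, Nat.add_right_cancel_iff]

theorem GM_cons (m a k : ℕ) (l : List ℕ) (h : a + l.length = m + k) :
    GM m (a ::ₘ (l : Multiset ℕ)) = Es m l k 0 := by
  let c : Option (Fin l.length) → ℕ := fun x => x.elim a l.get
  have hc : (univ : Finset (Option (Fin l.length))).val.map c = a ::ₘ (l : Multiset ℕ) := by
    rw [univ_option]
    have h1 : (Finset.insertNone (univ : Finset (Fin l.length))).val =
      none ::ₘ (univ : Finset (Fin l.length)).val.map some := rfl
    rw [h1, Multiset.map_cons, Multiset.map_map]
    congr 1
    show (univ : Finset (Fin l.length)).val.map (fun i => l.get i) = _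
    rw [Fin.univ_val_map, List.ofFn_get]
  rw [← GM_eq m c _ hc, TS_option, ← Es_eq]
  refine Finset.sum_congr rfl fun A _ => ?_
  have h1 : (univ.filter fun v => A v = false).card + (univ.filter fun v => A v = true).card =
      l.length := by
    have h2 := Finset.card_filter_add_card_filter_not (s := (univ : Finset (Fin l.length)))
      (fun v => A v = true)
    simp only [Bool.not_eq_true, Finset.card_univ, Fintype.card_fin] at h2
    rw [add_comm]
    exact h2
  have h3 : (c none + (univ.filter fun v => A v = false).card = m) ↔
      (univ.filter fun i => A i = true).card = k := by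
    show (a + (univ.filter fun v => A v = false).card = m) ↔ _
    constructor <;> intro h4 <;> omega
  by_cases h4 : (univ.filter fun i => A i = true).card = k
  · rw [if_pos h4, if_pos (h3.2 h4), zero_add]
    apply GM_eq
    rw [Fin.univ_val_map]
    rfl
  · rw [if_neg h4, if_neg fun h => h4 (h3.1 h)]

theorem GM_zero (m : ℕ) : GM m 0 = 1 := by
  rw [← GM_eq (V := Empty) m (fun x => x.elim) 0 (by simp)]
  rw [Finset.card_eq_one]
  refine ⟨fun x => x.elim, ?_⟩
  ext o
  rw [mem_TS, mem_singleton]
  constructor
  · intro _
    funext x
    exact x.elim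
  · intro _
    exact ⟨fun x => x.elim, fun x => x.elim, fun x => x.elim⟩

theorem Es_replicate (m u : ℕ) (l : List ℕ) (d : ℕ) : ∀ (k : ℕ) (acc : Multiset ℕ),
    Es m (List.replicate d u ++ l) k acc = ∑ p ∈ antidiagonal d, d.choose p.1 *
      if p.1 ≤ k then Es m l (k - p.1)
        (acc + Multiset.replicate p.2 u + Multiset.replicate p.1 (u + 1)) else 0 := by
  induction d with
  | zero =>
    intro k acc
    simp
  | succ d ih =>
    intro k acc
    have hs := Finset.sum_antidiagonal_choose_succ_mul (fun i j =>
      if i ≤ k then Es m l (k - i)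
        (acc + Multiset.replicate j u + Multiset.replicate i (u + 1)) else 0) d
    simp only [Nat.cast_id] at hs
    rw [hs]
    have hA : Es m (List.replicate (d + 1) u ++ l) k acc =
        Es m (List.replicate d u ++ l) k (u ::ₘ acc) +
          (if 1 ≤ k then Es m (List.replicate d u ++ l) (k - 1) ((u + 1) ::ₘ acc) else 0) := by
      rw [List.replicate_succ, List.cons_append]
      cases k with
      | zero => simp [Es]
      | succ k => simp [Es]
    rw [hA, ih k (u ::ₘ acc)]
    congr 1
    · refine Finset.sum_congr rfl fun p _ => ?_
      rw [Multiset.replicate_succ, Multiset.add_cons, Multiset.cons_add]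
    · by_cases hk : 1 ≤ k
      · rw [if_pos hk, ih (k - 1) ((u + 1) ::ₘ acc)]
        refine Finset.sum_congr rfl fun p hp => ?_
        have hpd : p.1 + p.2 = d := mem_antidiagonal.1 hp
        have hch : d.choose p.2 = d.choose p.1 := by
          rw [← hpd]
          exact (Nat.choose_symm_add).symm
        rw [hch]
        congr 1
        by_cases h1 : p.1 ≤ k - 1
        · rw [if_pos h1, if_pos (by omega), Multiset.replicate_succ, Multiset.add_cons,
            Multiset.cons_add, Multiset.cons_add, Nat.sub_sub, Nat.add_comm 1]
        · rw [if_neg h1, if_neg (by omega)]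
      · rw [if_neg hk]
        symm
        refine Finset.sum_eq_zero fun p _ => ?_
        rw [if_neg (by omega), mul_zero]

end MP_a3e05c_co.RTK
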